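import Pool.Agent.Lib.MP_796ce4_ag.ZY.Base

/-! Basic facts on places, and finiteness of the places at infinity. -/

namespace Pool.Agent.ZeroCyc

open Polynomial Module
open scoped Classical IntermediateField

set_option linter.unusedSectionVars false

variable {K F Λ : Type} [Field K] [Field F] [Field Λ] [Algebra K F] [Algebra K Λ]

namespace Place

/-- order of vanishing -/
noncomputable def ord (P : Place K F Λ) (f : F) : ℤ := -WithZero.log (P.v f)

/-- the value of `f` at the place is `c` -/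
def Val (P : Place K F Λ) (f : F) (c : Λ) : Prop := ∃ h : f ∈ P.v.integer, P.ev ⟨f, h⟩ = c

theorem ext' {P Q : Place K F Λ} (hv : P.v = Q.v) (h : ∀ f c, P.Val f c → Q.Val f c) : P = Q := by
  obtain ⟨v, sv, ev, ea⟩ := P
  obtain ⟨w, sw, ew, eb⟩ := Q
  dsimp only at hv
  subst hv
  have : ev = ew := by
    ext x
    obtain ⟨_, h'⟩ := h x (ev x) ⟨x.2, rfl⟩
    exact h'.symm
  subst this
  rfl

variable (P : Place K F Λ)

theorem ord_mul {f g : F} (hf : f ≠ 0) (hg : g ≠ 0) : P.ord (f * g) = P.ord f + P.ord g := by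
  unfold ord
  rw [map_mul, WithZero.log_mul ((P.v.ne_zero_iff).2 hf) ((P.v.ne_zero_iff).2 hg)]
  ring
theorem ord_one : P.ord 1 = 0 := by simp [ord]
theorem ord_pow (f : F) (n : ℕ) : P.ord (f ^ n) = n * P.ord f := by
  unfold ord
  rw [map_pow, WithZero.log_pow]
  simp
theorem ord_inv (f : F) : P.ord f⁻¹ = -P.ord f := by
  unfold ord
  rw [map_inv₀, WithZero.log_inv]
theorem mem_iff {f : F} (hf : f ≠ 0) : f ∈ P.v.integer ↔ 0 ≤ P.ord f := by
  unfold ord
  rw [Valuation.mem_integer_iff, neg_nonneg,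
    WithZero.log_le_iff_le_exp ((P.v.ne_zero_iff).2 hf), WithZero.exp_zero]
theorem val_alg (c : K) : P.Val (algebraMap K F c) (algebraMap K Λ c) := P.ev_alg c

variable {P}

theorem Val.unique {f : F} {c d : Λ} (h : P.Val f c) (h' : P.Val f d) : c = d := by
  obtain ⟨_, rfl⟩ := h
  obtain ⟨_, rfl⟩ := h'
  rfl
theorem Val.add {f g : F} {c d : Λ} (h : P.Val f c) (h' : P.Val g d) : P.Val (f + g) (c + d) := by
  obtain ⟨hf, rfl⟩ := h
  obtain ⟨hg, rfl⟩ := h'
  exact ⟨add_mem hf hg, map_add P.ev ⟨f, hf⟩ ⟨g, hg⟩⟩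
theorem Val.neg {f : F} {c : Λ} (h : P.Val f c) : P.Val (-f) (-c) := by
  obtain ⟨hf, rfl⟩ := h
  exact ⟨neg_mem hf, map_neg P.ev ⟨f, hf⟩⟩
theorem Val.sub {f g : F} {c d : Λ} (h : P.Val f c) (h' : P.Val g d) : P.Val (f - g) (c - d) := by
  obtain ⟨hf, rfl⟩ := h
  obtain ⟨hg, rfl⟩ := h'
  exact ⟨sub_mem hf hg, map_sub P.ev ⟨f, hf⟩ ⟨g, hg⟩⟩
theorem Val.mul {f g : F} {c d : Λ} (h : P.Val f c) (h' : P.Val g d) : P.Val (f * g) (c * d) := by
  obtain ⟨hf, rfl⟩ := h
  obtain ⟨hg, rfl⟩ := h'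
  exact ⟨mul_mem hf hg, map_mul P.ev ⟨f, hf⟩ ⟨g, hg⟩⟩
theorem Val.pow {f : F} {c : Λ} (h : P.Val f c) (n : ℕ) : P.Val (f ^ n) (c ^ n) := by
  obtain ⟨hf, rfl⟩ := h
  exact ⟨pow_mem hf n, map_pow P.ev ⟨f, hf⟩ n⟩
theorem Val.prod {T : Type} {s : Finset T} {f : T → F} {c : T → Λ}
    (h : ∀ t ∈ s, P.Val (f t) (c t)) : P.Val (∏ t ∈ s, f t) (∏ t ∈ s, c t) := by
  induction s using Finset.induction_on with
  | empty => simpa using P.val_alg 1
  | insert a s ha ih =>
    rw [Finset.prod_insert ha, Finset.prod_insert ha]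
    exact (h a (Finset.mem_insert_self _ _)).mul
      (ih fun t ht => h t (Finset.mem_insert_of_mem ht))
theorem Val.aeval {f : F} {c : Λ} (h : P.Val f c) (g : K[X]) : P.Val (aeval f g) (aeval c g) := by
  induction g using Polynomial.induction_on' with
  | add p q hp hq =>
    rw [map_add, map_add]
    exact hp.add hq
  | monomial n a =>
    rw [aeval_monomial, aeval_monomial]
    exact (P.val_alg a).mul (h.pow n)
theorem exists_val {f : F} (h : f ∈ P.v.integer) : ∃ c, P.Val f c := ⟨_, h, rfl⟩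
theorem mem_of_sq {f : F} (h : f ^ 2 ∈ P.v.integer) : f ∈ P.v.integer := by
  rw [Valuation.mem_integer_iff] at h ⊢
  rw [map_pow] at h
  exact (pow_le_one_iff (by norm_num)).1 h
theorem mem_of_isIntegral {f : F} (h : IsIntegral K f) : f ∈ P.v.integer := by
  let φ : K →+* P.v.integer :=
    (algebraMap K F).codRestrict P.v.integer fun c => (P.ev_alg c).1
  refine (Valuation.integer.integers P.v).mem_of_integral ?_
  obtain ⟨g, hg, hf⟩ := h
  refine ⟨g.map φ, hg.map φ, ?_⟩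
  rw [Polynomial.eval₂_map]
  exact hf
/-- on the subalgebra generated by elements with values the place is an algebra map -/
theorem exists_algHom {s : Set F} (h : ∀ f ∈ s, f ∈ P.v.integer) :
    ∃ φ : Algebra.adjoin K s →ₐ[K] Λ, ∀ a : Algebra.adjoin K s, P.Val a (φ a) := by
  have hm : ∀ a ∈ Algebra.adjoin K s, a ∈ P.v.integer := by
    intro a ha
    induction ha using Algebra.adjoin_induction with
    | mem x hx => exact h x hx
    | algebraMap r => exact (P.ev_alg r).1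
    | add x y _ _ hx hy => exact add_mem hx hy
    | mul x y _ _ hx hy => exact mul_mem hx hy
  let ψ : Algebra.adjoin K s →+* P.v.integer :=
    (Algebra.adjoin K s).val.toRingHom.codRestrict P.v.integer fun a => hm a a.2
  refine ⟨{ P.ev.comp ψ with commutes' := fun c => ?_ }, fun a => ⟨hm a a.2, rfl⟩⟩
  obtain ⟨_, hc⟩ := P.ev_alg c
  exact hc

theorem placea_ne_zero {f : F} {c : Λ} (h : P.Val f c) (hf : P.v f = 1) : c ≠ 0 := by
  have hf0 : f ≠ 0 := by
    rintro rfl
    simp at hf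
  have hi : f⁻¹ ∈ P.v.integer := by
    rw [Valuation.mem_integer_iff, map_inv₀, hf, inv_one]
  obtain ⟨d, hd⟩ := exists_val hi
  have h1 := h.mul hd
  rw [mul_inv_cancel₀ hf0] at h1
  have h2 : P.Val 1 1 := by simpa using P.val_alg 1
  exact left_ne_zero_of_mul_eq_one (h1.unique h2)

theorem placea_v_alg (P : Place K F Λ) {a : K} (ha : a ≠ 0) : P.v (algebraMap K F a) = 1 := by
  have h1 : P.v (algebraMap K F a) ≤ 1 := (P.ev_alg a).1
  have h2 : P.v (algebraMap K F a⁻¹) ≤ 1 := (P.ev_alg a⁻¹).1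
  rw [map_inv₀, map_inv₀] at h2
  have h0 : P.v (algebraMap K F a) ≠ 0 := (P.v.ne_zero_iff).2 ((_root_.map_ne_zero _).2 ha)
  exact le_antisymm h1 ((inv_le_one₀ (zero_lt_iff.2 h0)).1 h2)

variable [Algebra.IsAlgebraic K Λ]

theorem Val.eq_zero_iff {f : F} {c : Λ} (h : P.Val f c) : c = 0 ↔ P.v f < 1 := by
  constructor
  · intro hc
    exact lt_of_le_of_ne h.1 fun h1 => placea_ne_zero h h1 hc
  · intro hf
    by_contra hc
    have hi : IsIntegral K c := (Algebra.IsAlgebraic.isAlgebraic c).isIntegral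
    have h0 := minpoly.coeff_zero_ne_zero hi hc
    have hv := h.aeval (minpoly K c)
    rw [minpoly.aeval] at hv
    refine placea_ne_zero hv ?_ rfl
    have e : Polynomial.aeval f (minpoly K c) =
        algebraMap K F ((minpoly K c).coeff 0) + f * Polynomial.aeval f (minpoly K c).divX := by
      conv_lhs => rw [← Polynomial.X_mul_divX_add (minpoly K c)]
      rw [map_add, map_mul, aeval_X, aeval_C, add_comm]
    have h1 := placea_v_alg P h0
    have h2 : P.v (f * Polynomial.aeval f (minpoly K c).divX) < 1 := by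
      rw [map_mul]
      exact mul_lt_one_of_lt_of_le hf (h.aeval _).1
    rw [e, Valuation.map_add_eq_of_lt_left _ (h1 ▸ h2), h1]
theorem Val.ord_eq_zero {f : F} {c : Λ} (h : P.Val f c) (hc : c ≠ 0) : P.ord f = 0 := by
  have h1 : P.v f = 1 := le_antisymm h.1 (not_lt.1 fun h' => hc (h.eq_zero_iff.2 h'))
  simp [ord, h1]
theorem Val.ord_pos {f : F} (h : P.Val f 0) (hf : f ≠ 0) : 0 < P.ord f := by
  unfold ord
  rw [neg_pos, WithZero.log_lt_iff_lt_exp ((P.v.ne_zero_iff).2 hf), WithZero.exp_zero]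
  exact h.eq_zero_iff.1 rfl
theorem Val.inv {f : F} {c : Λ} (h : P.Val f c) (hc : c ≠ 0) : P.Val f⁻¹ c⁻¹ := by
  have h1 : P.v f = 1 := le_antisymm h.1 (not_lt.1 fun h' => hc (h.eq_zero_iff.2 h'))
  have hf0 : f ≠ 0 := by
    rintro rfl
    simp at h1
  have hi : f⁻¹ ∈ P.v.integer := by
    rw [Valuation.mem_integer_iff, map_inv₀, h1, inv_one]
  obtain ⟨d, hd⟩ := exists_val hi
  have h2 := h.mul hd
  rw [mul_inv_cancel₀ hf0] at h2
  have h3 : P.Val 1 1 := by simpa using P.val_alg 1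
  rw [← eq_inv_of_mul_eq_one_right (h2.unique h3)]
  exact hd

end Place

end Pool.Agent.ZeroCyc
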