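import Pool.Agent.Lib.MP_796ce4_ag.ZY.Base

/-! Power sums. -/

namespace Pool.Agent.ZeroCyc

open Polynomial Module
open scoped Classical IntermediateField PowerSeries

set_option linter.unusedSectionVars false

/-- The polynomial with inverse roots `α`. -/
noncomputable def ffp_P (α : Multiset ℂ) : ℂ[X] := (α.map fun x => 1 - C x * X).prod

theorem ffp_geom (x : ℂ) :
    PowerSeries.mk (fun M => -x ^ (M + 1)) * (1 - PowerSeries.C x * PowerSeries.X)
      = -PowerSeries.C x := by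
  rw [mul_sub, mul_one, ← mul_assoc]
  ext n
  cases n with
  | zero => simp
  | succ n =>
    rw [map_sub, PowerSeries.coeff_succ_mul_X, PowerSeries.coeff_mul_C, map_neg,
      PowerSeries.coeff_C]
    simp [pow_succ]

theorem ffp_der (α : Multiset ℂ) :
    PowerSeries.derivative ℂ (ffp_P α : PowerSeries ℂ)
      = PowerSeries.mk (fun M => -(α.map fun x => x ^ (M + 1)).sum) * (ffp_P α : PowerSeries ℂ) := by
  induction α using Multiset.induction_on with
  | empty =>
    have : PowerSeries.mk (fun _ => (0 : ℂ)) = 0 := by ext; simp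
    simp [ffp_P, this]
  | cons x α ih =>
    have e1 : (ffp_P (x ::ₘ α) : PowerSeries ℂ)
        = (1 - PowerSeries.C x * PowerSeries.X) * (ffp_P α : PowerSeries ℂ) := by
      simp [ffp_P]
    have e2 : PowerSeries.mk (fun M => -((x ::ₘ α).map fun x => x ^ (M + 1)).sum)
        = PowerSeries.mk (fun M => -x ^ (M + 1))
          + PowerSeries.mk (fun M => -(α.map fun x => x ^ (M + 1)).sum) := by
      ext M
      simp [add_comm]
    have e3 : PowerSeries.derivative ℂ (1 - PowerSeries.C x * PowerSeries.X : PowerSeries ℂ)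
        = -PowerSeries.C x := by
      simp [Derivation.leibniz]
    rw [e1, e2, Derivation.leibniz, ih, e3, smul_eq_mul, smul_eq_mul]
    linear_combination -(ffp_P α : PowerSeries ℂ) * ffp_geom x

theorem ffp_factor (β : Multiset ℂ) (h : ∀ r ∈ β, r ≠ 0) :
    ∃ c : ℂ, (β.map fun r => X - C r).prod = C c * ffp_P (β.map fun r => r⁻¹) := by
  induction β using Multiset.induction_on with
  | empty => exact ⟨1, by simp [ffp_P]⟩
  | cons r β ih =>
    obtain ⟨c, hc⟩ := ih fun x hx => h x (Multiset.mem_cons_of_mem hx)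
    have e : (C r * C r⁻¹ : ℂ[X]) = 1 := by
      rw [← C_mul, mul_inv_cancel₀ (h r (Multiset.mem_cons_self _ _)), C_1]
    have e1 : ffp_P ((r ::ₘ β).map fun r => r⁻¹)
        = (1 - C r⁻¹ * X) * ffp_P (β.map fun r => r⁻¹) := by
      simp only [ffp_P, Multiset.map_cons, Multiset.prod_cons]
    refine ⟨-r * c, ?_⟩
    rw [Multiset.map_cons, Multiset.prod_cons, hc, e1, C_mul, C_neg]
    linear_combination -(X * C c * ffp_P (β.map fun r => r⁻¹)) * e

theorem ffp_fin (c : ℕ) : ∀ m : Multiset ℂ, m.card ≤ c →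
    ∃ f : Fin c → ℂ, ∀ r, 0 < r → ∑ i, f i ^ r = (m.map fun x => x ^ r).sum := by
  induction c with
  | zero =>
    intro m hm
    rw [Multiset.card_eq_zero.1 (Nat.le_zero.1 hm)]
    exact ⟨fun _ => 0, fun r _ => by simp⟩
  | succ c ih =>
    intro m hm
    rcases Multiset.empty_or_exists_mem m with rfl | ⟨x, hx⟩
    · exact ⟨fun _ => 0, fun r hr => by simp [hr.ne']⟩
    · obtain ⟨m', rfl⟩ := Multiset.exists_cons_of_mem hx
      rw [Multiset.card_cons] at hm
      obtain ⟨f, hf⟩ := ih m' (by omega)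
      refine ⟨Fin.cons x f, fun r hr => ?_⟩
      rw [Fin.sum_univ_succ, Multiset.map_cons, Multiset.sum_cons, ← hf r hr]
      simp

theorem ffp_core {B : PowerSeries ℂ} {s : ℕ → ℂ} (h0 : PowerSeries.coeff 0 B = 1) {c : ℕ}
    (hc : ∀ n, c < n → PowerSeries.coeff n B = 0)
    (h : PowerSeries.derivative ℂ B = PowerSeries.mk (fun M => s (M + 1)) * B) :
    ∃ α : Fin c → ℂ, ∀ r, 0 < r → s r = -∑ i, α i ^ r := by
  let A : ℂ[X] := ∑ d ∈ Finset.range (c + 1), monomial d (PowerSeries.coeff d B)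
  have hA : ∀ d, A.coeff d = PowerSeries.coeff d B := by
    intro d
    simp only [A, finsetSum_coeff, coeff_monomial, Finset.sum_ite_eq', Finset.mem_range]
    split_ifs with h
    · rfl
    · exact (hc d (by omega)).symm
  have hAB : (A : PowerSeries ℂ) = B := by
    ext d
    rw [coeff_coe, hA]
  have hA0 : A ≠ 0 := fun h => by simpa [h, h0] using hA 0
  have hdeg : A.natDegree ≤ c := natDegree_le_iff_coeff_eq_zero.2 fun n hn => by
    rw [hA, hc n hn]
  rw [← hAB] at h
  obtain ⟨e, he⟩ := ffp_factor A.roots fun r hr h => by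
    have := (mem_roots hA0).1 hr
    rw [h, IsRoot.def, ← coeff_zero_eq_eval_zero, hA, h0] at this
    exact one_ne_zero this
  have hcard : (A.roots.map fun r => r⁻¹).card ≤ c := by
    rw [Multiset.card_map]
    exact (card_roots' A).trans hdeg
  set α := A.roots.map fun r => r⁻¹
  have h2 : A = C (A.leadingCoeff * e) * ffp_P α := by
    rw [C_mul, mul_assoc, ← he]
    exact (C_leadingCoeff_mul_prod_multiset_X_sub_C (IsAlgClosed.card_roots_eq_natDegree)).symm
  have h3 : PowerSeries.derivative ℂ (A : PowerSeries ℂ)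
      = PowerSeries.mk (fun M => -(α.map fun x => x ^ (M + 1)).sum) * (A : PowerSeries ℂ) := by
    generalize A.leadingCoeff * e = c' at h2
    rw [h2, coe_mul, coe_C, Derivation.leibniz, ffp_der, PowerSeries.derivative_C]
    simp only [smul_eq_mul]
    ring
  have h4 : ∀ M, s (M + 1) = -(α.map fun x => x ^ (M + 1)).sum := by
    intro M
    have h5 := mul_right_cancel₀ (by exact_mod_cast hA0) (h.symm.trans h3)
    simpa using congrArg (PowerSeries.coeff M) h5
  obtain ⟨f, hf⟩ := ffp_fin c α hcard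
  refine ⟨f, fun r hr => ?_⟩
  obtain ⟨M, rfl⟩ := Nat.exists_eq_succ_of_ne_zero hr.ne'
  rw [hf _ hr]
  exact h4 M

theorem ffp_ser {a s : ℕ → ℂ}
    (h : ∀ n : ℕ, (n : ℂ) * a n = ∑ M ∈ Finset.range n, s (M + 1) * a (n - (M + 1))) :
    PowerSeries.derivative ℂ (PowerSeries.mk a) =
      PowerSeries.mk (fun M => s (M + 1)) * PowerSeries.mk a := by
  ext d
  have := h (d + 1)
  rw [PowerSeries.coeff_derivative, PowerSeries.coeff_mul,
    Finset.Nat.sum_antidiagonal_eq_sum_range_succ_mk]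
  simp only [PowerSeries.coeff_mk]
  simpa [mul_comm] using this

theorem powsum_of_poly {a s : ℕ → ℂ} (h0 : a 0 = 1) {c : ℕ} (hc : ∀ n, c < n → a n = 0)
    (h : ∀ n : ℕ, (n : ℂ) * a n = ∑ M ∈ Finset.range n, s (M + 1) * a (n - (M + 1))) :
    ∃ α : Fin c → ℂ, ∀ r, 0 < r → s r = -∑ i, α i ^ r :=
  ffp_core (B := PowerSeries.mk a) (by simpa using h0) (fun n hn => by simpa using hc n hn)
    (ffp_ser h)
theorem powsum_of_geom {a s : ℕ → ℂ} (h0 : a 0 = 1) {c : ℕ} {q : ℂ}
    (hc : ∀ n, c ≤ n → a (n + 1) = q * a n)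
    (h : ∀ n : ℕ, (n : ℂ) * a n = ∑ M ∈ Finset.range n, s (M + 1) * a (n - (M + 1))) :
    ∃ α : Fin c → ℂ, ∀ r, 0 < r → s r = q ^ r - ∑ i, α i ^ r := by
  have e3 : PowerSeries.derivative ℂ (1 - PowerSeries.C q * PowerSeries.X : PowerSeries ℂ)
      = -PowerSeries.C q := by
    simp [Derivation.leibniz]
  have e2 : PowerSeries.mk (fun M => s (M + 1) - q ^ (M + 1)) =
      PowerSeries.mk (fun M => s (M + 1)) + PowerSeries.mk (fun M => -q ^ (M + 1)) := by
    ext M
    simp [sub_eq_add_neg]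
  obtain ⟨α, hα⟩ := ffp_core (s := fun r => s r - q ^ r) (c := c)
    (B := (1 - PowerSeries.C q * PowerSeries.X) * PowerSeries.mk a) (by simp [h0])
    (fun n hn => by
      obtain ⟨m, rfl⟩ := Nat.exists_eq_succ_of_ne_zero (by omega : n ≠ 0)
      rw [sub_mul, one_mul, mul_assoc, map_sub, PowerSeries.coeff_C_mul,
        PowerSeries.coeff_succ_X_mul, PowerSeries.coeff_mk, PowerSeries.coeff_mk,
        hc m (by omega), sub_self])
    (by
      rw [e2, Derivation.leibniz, ffp_ser h, e3, smul_eq_mul, smul_eq_mul]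
      linear_combination -(PowerSeries.mk a) * ffp_geom q)
  exact ⟨α, fun r hr => by linear_combination hα r hr⟩
theorem norm_le_of_powsum {T : Type} [Fintype T] (α : T → ℂ) {B C : ℝ} (hB : 0 ≤ B) {r₀ : ℕ}
    (h : ∀ r, r₀ ≤ r → ‖∑ i, α i ^ r‖ ≤ C * B ^ r) (i : T) : ‖α i‖ ≤ B := by
  by_contra hlt
  have hx : B < ‖α i‖ := not_le.1 hlt
  have hx0 : 0 < ‖α i‖ := hB.trans_lt hx
  set P : ℂ[X] := ∏ y ∈ (Finset.univ.image α).erase (α i), (X - Polynomial.C y) with hP
  have hP1 : P.eval (α i) ≠ 0 := by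
    rw [hP, eval_prod]
    refine Finset.prod_ne_zero_iff.2 fun y hy => ?_
    rw [eval_sub, eval_X, eval_C]
    exact sub_ne_zero.2 (Finset.mem_erase.1 hy).1.symm
  have hP2 : ∀ j, α j ≠ α i → P.eval (α j) = 0 := fun j hj => by
    rw [hP, eval_prod]
    exact Finset.prod_eq_zero
      (Finset.mem_erase.2 ⟨hj, Finset.mem_image_of_mem α (Finset.mem_univ j)⟩) (by simp)
  set m : ℕ := (Finset.univ.filter fun j => α j = α i).card with hm
  have hm0 : 0 < m := Finset.card_pos.2 ⟨i, by simp⟩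
  have e1 : ∀ r : ℕ, ∑ j, α j ^ r * P.eval (α j) = m * (α i ^ r * P.eval (α i)) := fun r => by
    rw [← Finset.sum_filter_of_ne (p := fun j => α j = α i) fun j _ hj => by
      by_contra hne
      exact hj (by rw [hP2 j hne, mul_zero])]
    rw [Finset.sum_congr rfl (g := fun _ => α i ^ r * P.eval (α i)) fun j hj => by
      rw [(Finset.mem_filter.1 hj).2], Finset.sum_const, nsmul_eq_mul]
  have e2 : ∀ r : ℕ, ∑ j, α j ^ r * P.eval (α j) =
      ∑ k ∈ Finset.range (P.natDegree + 1), P.coeff k * ∑ j, α j ^ (r + k) := fun r => by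
    simp only [eval_eq_sum_range, Finset.mul_sum]
    rw [Finset.sum_comm]
    exact Finset.sum_congr rfl fun k _ => Finset.sum_congr rfl fun j _ => by ring
  set K : ℝ := ∑ k ∈ Finset.range (P.natDegree + 1), ‖P.coeff k‖ * (C * B ^ k) with hK
  have e3 : ∀ r, r₀ ≤ r → m * ‖P.eval (α i)‖ ≤ K * (B / ‖α i‖) ^ r := fun r hr => by
    have h1 : ‖(m : ℂ) * (α i ^ r * P.eval (α i))‖ ≤ K * B ^ r := by
      rw [← e1, e2, hK, Finset.sum_mul]
      refine (norm_sum_le _ _).trans (Finset.sum_le_sum fun k _ => ?_)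
      rw [norm_mul, mul_assoc]
      refine mul_le_mul_of_nonneg_left ((h (r + k) (by omega)).trans (le_of_eq ?_)) (norm_nonneg _)
      ring
    rw [norm_mul, norm_mul, norm_pow, Complex.norm_natCast] at h1
    rw [div_pow, ← mul_div_assoc, le_div_iff₀ (pow_pos hx0 r)]
    linarith
  have hlim : Filter.Tendsto (fun r : ℕ => K * (B / ‖α i‖) ^ r) Filter.atTop (nhds (K * 0)) :=
    (tendsto_pow_atTop_nhds_zero_of_lt_one (div_nonneg hB hx0.le)
      ((div_lt_one hx0).2 hx)).const_mul K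
  have h5 := ge_of_tendsto hlim (Filter.eventually_atTop.2 ⟨r₀, e3⟩)
  have h6 : (0 : ℝ) < m * ‖P.eval (α i)‖ := mul_pos (by exact_mod_cast hm0) (norm_pos_iff.2 hP1)
  linarith
/-- the square root bound for the first sum -/
theorem first_le_of_even {c : ℕ} (α : Fin c → ℂ) {q C : ℝ} (hq : 0 ≤ q) {r₀ : ℕ}
    (h : ∀ r, r₀ ≤ r → ‖∑ i, α i ^ (2 * r)‖ ≤ C * q ^ r) : ‖∑ i, α i‖ ≤ c * √q := by
  have h1 := norm_le_of_powsum (fun i => α i ^ 2) hq (C := C) (r₀ := r₀) fun r hr => by
    simpa only [← pow_mul] using h r hr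
  refine (norm_sum_le _ _).trans ?_
  have h2 : ∀ i ∈ (Finset.univ : Finset (Fin c)), ‖α i‖ ≤ √q := fun i _ =>
    Real.le_sqrt_of_sq_le (by simpa only [norm_pow] using h1 i)
  simpa using Finset.sum_le_card_nsmul _ _ _ h2
theorem not_main_term {c : ℕ} (α : Fin c → ℂ) {ω : ℂ} (hω : ‖ω‖ = 1) {q C : ℝ} (hq : 1 < q)
    {r₀ : ℕ} (h : ∀ r, r₀ ≤ r → ‖-∑ i, α i ^ (2 * r) - ω ^ (2 * r) * (q : ℂ) ^ (2 * r)‖ ≤
      C * q ^ r) : False := by
  have h1 := norm_le_of_powsum (T := Option (Fin c))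
    (fun o => o.elim ((ω * q) ^ 2) fun i => α i ^ 2) (by linarith : 0 ≤ q) (C := C) (r₀ := r₀)
    (fun r hr => by
      refine le_trans (le_of_eq ?_) (h r hr)
      rw [← norm_neg, Fintype.sum_option]
      simp only [Option.elim, ← pow_mul, mul_pow]
      congr 1
      ring) none
  simp only [Option.elim, norm_pow, norm_mul, hω, one_mul, Complex.norm_real,
    Real.norm_of_nonneg (by linarith : 0 ≤ q)] at h1
  nlinarith

end Pool.Agent.ZeroCyc
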