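import Pool.Agent.Lib.MP_796ce4_ag.ZY.FfT
import Pool.Agent.Lib.MP_796ce4_ag.ZY.FfP

/-! Rational points: a lower bound, and generation of the class group. -/

namespace Pool.Agent.ZeroCyc

open Polynomial Module
open scoped Classical IntermediateField PowerSeries

set_option linter.unusedSectionVars false

variable {p : ℕ} [Fact p.Prime] {κ : Type} [Field κ] [CharP κ p] [IsAlgClosed κ] {c : Cv κ} {r : ℕ}

theorem ffm_mem {n : ℕ} {D : κ × κ →₀ ℤ} (h : D ∈ InvEff (pm (fr κ p r)) {Q | c.Gp Q} n) :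
    D ∈ c.DvF (fr κ p r) := Cv.mem_DvF.2 ⟨h.2.1, h.2.2.1⟩

theorem ffm_euler (hr : 0 < r) (hF : c.Inv (fr κ p r)) {θ : (κ × κ →₀ ℤ) → ℂ}
    (hθ : ∀ D ∈ c.DvF (fr κ p r), ∀ D' ∈ c.DvF (fr κ p r), θ (D + D') = θ D * θ D') (n : ℕ) :
    (n : ℂ) * aL (pm (fr κ p r)) {Q | c.Gp Q} θ n = ∑ M ∈ Finset.range n,
      sL (pm (fr κ p r)) {Q | c.Gp Q} θ (M + 1) *
        aL (pm (fr κ p r)) {Q | c.Gp Q} θ (n - (M + 1)) :=
  euler (F := pm (fr κ p r)) (S := {Q | c.Gp Q})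
    ((fr κ p r).injective.prodMap (fr κ p r).injective)
    (fun _ hy => hF.gp (fr κ p r).injective hy) (fun n hn => c.finite_fixed hr n hn)
    (fun _ _ D hD D' hD' => hθ D (ffm_mem hD) D' (ffm_mem hD')) n

theorem ffm_one {θ : (κ × κ →₀ ℤ) → ℂ}
    (h : ∀ Q, c.Gp Q → pm (fr κ p r) Q = Q → θ (Finsupp.single Q 1) = 1) :
    sL (pm (fr κ p r)) {Q | c.Gp Q} θ 1 =
      (({Q | c.Gp Q ∧ pm (fr κ p r) Q = Q}.ncard : ℝ) : ℂ) := by
  have hfin : ∀ s : Set (κ × κ), ∑ᶠ y ∈ s, (1 : ℂ) = (s.ncard : ℂ) := by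
    intro s
    by_cases hs : s.Finite
    · simp [finsum_mem_eq_finite_toFinset_sum _ hs, Set.ncard_eq_toFinset_card s hs]
    · rw [Set.Infinite.ncard hs, finsum_mem_eq_zero_of_infinite (by simpa [Function.support])]
      simp
  rw [Complex.ofReal_natCast, ← hfin]
  unfold sL
  refine finsum_mem_congr rfl fun y hy => ?_
  have e : nrm (pm (fr κ p r)) 1 y = Finsupp.single y 1 := by simp [nrm]
  rw [e]
  exact h y hy.1 hy.2

theorem ffm_one_lt (hr : 0 < r) : (1 : ℝ) < (p : ℝ) ^ r :=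
  one_lt_pow₀ (by exact_mod_cast (Fact.out : p.Prime).one_lt) hr.ne'

theorem ff_count (hρ : c.ρ ≠ 0) (hi : Irreducible c.χ) (hκ : AlgP κ p) (hr : 0 < r)
    (hF : c.Inv (fr κ p r)) : (p : ℝ) ^ r - c.c0 * √((p : ℝ) ^ r) ≤
      ({Q | c.Gp Q ∧ pm (fr κ p r) Q = Q}.ncard : ℝ) := by
  obtain ⟨D₁, hD₁, hd, h⟩ := char_sum_est hρ hi hκ hr hF
  obtain ⟨C, n₀, h⟩ := h (fun _ => 1) (fun _ _ _ _ => (one_mul _).symm) (fun _ _ _ => rfl)
    (fun _ _ => norm_one)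
  rcases h with ⟨⟨_, _, h⟩, -⟩ | h
  · exact absurd rfl h
  obtain ⟨α, hα⟩ := powsum_of_geom (aL_zero (pm (fr κ p r)) {Q | c.Gp Q} (θ := fun _ => 1) rfl)
    (c := c.c0) (q := (((p : ℝ) ^ r : ℝ) : ℂ)) (fun n hn => by
      rw [Cv.aL_add hi hr hF (θ := fun _ => 1) (fun _ _ _ _ => (one_mul _).symm)
        (fun _ _ _ => rfl) hD₁ (e := 1) (by exact_mod_cast hd) hn]
      push_cast; ring)
    (ffm_euler hr hF fun _ _ _ _ => (one_mul _).symm)
  have h1 := first_le_of_even α (q := (p : ℝ) ^ r) (C := C) (by positivity) (r₀ := n₀ + 1)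
    fun n hn => by
      have h2 := h n (by omega)
      rw [hα _ (by omega), one_pow, one_mul, sub_sub_cancel_left, norm_neg] at h2
      exact h2
  have h2 := hα 1 one_pos
  rw [ffm_one fun _ _ _ => rfl] at h2
  simp only [pow_one] at h2
  have h3 : ∑ i, α i = (((p : ℝ) ^ r - ({Q | c.Gp Q ∧ pm (fr κ p r) Q = Q}.ncard : ℝ) : ℝ) : ℂ) := by
    rw [Complex.ofReal_sub, h2]; ring
  rw [h3, Complex.norm_real, Real.norm_eq_abs] at h1
  have := (abs_le.1 h1).2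
  linarith

theorem ff_many (hρ : c.ρ ≠ 0) (hi : Irreducible c.χ) (hκ : AlgP κ p) (hr : 0 < r)
    (hF : c.Inv (fr κ p r)) {M : ℕ} (hq : (c.c0 + c.δ * (M + 1)) ^ 2 ≤ p ^ r) (t : κ) :
    ∃ P : Fin M → κ × κ, (∀ j, c.Gp (P j) ∧ pm (fr κ p r) (P j) = P j ∧ (P j).1 ≠ t) ∧
      Function.Injective fun j => (P j).1 := by
  have hc := ff_count hρ hi hκ hr hF
  have hδ : 0 < c.δ := by
    rw [← c.wt.deg]
    exact c.wt.monic.natDegree_pos.2 hi.ne_one
  have hfin : {Q | c.Gp Q ∧ pm (fr κ p r) Q = Q}.Finite := c.finite_fixed (p := p) hr 1 one_pos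
  rw [Set.ncard_eq_toFinset_card _ hfin] at hc
  have hq1 := ffm_one_lt (p := p) hr
  have hs1 : 1 ≤ √((p : ℝ) ^ r) := Real.one_le_sqrt.2 hq1.le
  have hs2 : (c.c0 : ℝ) + c.δ * (M + 1) ≤ √((p : ℝ) ^ r) := by
    apply Real.le_sqrt_of_sq_le
    exact_mod_cast hq
  have hs3 := Real.mul_self_sqrt (x := (p : ℝ) ^ r) (by positivity)
  have hN : c.δ * (M + 1) ≤ hfin.toFinset.card := by
    have h0 : (0 : ℝ) ≤ c.δ * (M + 1) := by positivity
    have : (c.δ : ℝ) * (M + 1) ≤ hfin.toFinset.card := by nlinarith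
    exact_mod_cast this
  have hle : hfin.toFinset.card ≤ c.δ * (hfin.toFinset.image Prod.fst).card := by
    refine Finset.card_le_mul_card_image _ _ fun a _ => ?_
    rw [← Finset.card_image_of_injOn (f := Prod.snd)]
    · refine card_fibre_le c.wt (t := a) _ fun y hy => ?_
      obtain ⟨Q, hQ, rfl⟩ := Finset.mem_image.1 hy
      obtain ⟨hQ1, rfl⟩ := Finset.mem_filter.1 hQ
      exact (hfin.mem_toFinset.1 hQ1).1.1
    · intro Q hQ Q' hQ' e
      exact Prod.ext ((Finset.mem_filter.1 hQ).2.trans (Finset.mem_filter.1 hQ').2.symm) e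
  have hM : M + 1 ≤ (hfin.toFinset.image Prod.fst).card :=
    Nat.le_of_mul_le_mul_left (hN.trans hle) hδ
  have hM' : M ≤ ((hfin.toFinset.image Prod.fst).erase t).card := by
    have := Finset.pred_card_le_card_erase (s := hfin.toFinset.image Prod.fst) (a := t)
    omega
  let τ : Fin M → κ := fun j =>
    (((hfin.toFinset.image Prod.fst).erase t).equivFin.symm (Fin.castLE hM' j) : κ)
  have hτ : Function.Injective τ := fun j j' e =>
    Fin.castLE_injective hM' ((Equiv.injective _) (Subtype.ext e))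
  have hex : ∀ j, ∃ Q : κ × κ, (c.Gp Q ∧ pm (fr κ p r) Q = Q ∧ Q.1 ≠ t) ∧ Q.1 = τ j := by
    intro j
    have hm : τ j ∈ (hfin.toFinset.image Prod.fst).erase t := Subtype.property _
    obtain ⟨h1, h2⟩ := Finset.mem_erase.1 hm
    obtain ⟨Q, hQ, e⟩ := Finset.mem_image.1 h2
    have hQ' := hfin.mem_toFinset.1 hQ
    exact ⟨Q, ⟨hQ'.1, hQ'.2, e ▸ h1⟩, e⟩
  choose P hP hP' using hex
  refine ⟨P, hP, fun j j' e => hτ ?_⟩
  rw [← hP', ← hP']
  exact e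

theorem ff_gen (hρ : c.ρ ≠ 0) (hi : Irreducible c.χ) (hκ : AlgP κ p) (hr : 0 < r)
    (hF : c.Inv (fr κ p r)) (hq : 4 * c.c0 ^ 2 < p ^ r) : c.DvF (fr κ p r) ≤
      AddSubgroup.closure {D | ∃ Q, c.Gp Q ∧ pm (fr κ p r) Q = Q ∧ D = Finsupp.single Q 1} ⊔
        c.PP := by
  have hc := ff_count hρ hi hκ hr hF
  have hq1 := ffm_one_lt (p := p) hr
  have hs3 := Real.mul_self_sqrt (x := (p : ℝ) ^ r) (by positivity)
  have hs2 : 2 * (c.c0 : ℝ) < √((p : ℝ) ^ r) := by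
    apply Real.lt_sqrt_of_sq_lt
    have : ((4 * c.c0 ^ 2 : ℕ) : ℝ) < ((p ^ r : ℕ) : ℝ) := by exact_mod_cast hq
    push_cast at this
    linarith
  have hs0 : 0 < √((p : ℝ) ^ r) := Real.sqrt_pos.2 (by positivity)
  have hbig : c.c0 * √((p : ℝ) ^ r) < ({Q | c.Gp Q ∧ pm (fr κ p r) Q = Q}.ncard : ℝ) := by
    nlinarith
  obtain ⟨P, hP, hP'⟩ : {Q | c.Gp Q ∧ pm (fr κ p r) Q = Q}.Nonempty := by
    apply Set.nonempty_of_ncard_ne_zero
    intro h0
    rw [h0, Nat.cast_zero] at hbig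
    have : (0 : ℝ) ≤ c.c0 * √((p : ℝ) ^ r) := by positivity
    linarith
  set H := AddSubgroup.closure
    {D | ∃ Q, c.Gp Q ∧ pm (fr κ p r) Q = Q ∧ D = Finsupp.single Q (1 : ℤ)} ⊔ c.PP with hH
  have hsH : ∀ Q, c.Gp Q → pm (fr κ p r) Q = Q → Finsupp.single Q (1 : ℤ) ∈ H := fun Q h h' =>
    AddSubgroup.mem_sup_left (AddSubgroup.subset_closure ⟨Q, h, h', rfl⟩)
  have hsG : ∀ Q, c.Gp Q → pm (fr κ p r) Q = Q →
      Finsupp.single Q (1 : ℤ) ∈ c.DvF (fr κ p r) := fun Q h h' => by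
    refine Cv.mem_DvF.2 ⟨fun Q' hQ' => ?_, by rw [psh_single, h']⟩
    rw [← (Finsupp.single_apply_ne_zero.1 hQ').1] at h
    exact h
  have hPH : c.PP ≤ H := le_sup_right
  clear_value H
  obtain ⟨s, hs, hs'⟩ := Cv.finite_classes hρ hi hκ hr hF
  have hdeg : ∀ D : κ × κ →₀ ℤ, (D - D.degree • Finsupp.single P (1 : ℤ)).degree = 0 := by
    intro D
    rw [map_sub, map_zsmul, Finsupp.degree_single, smul_eq_mul, mul_one, sub_self]
  have : Finite (c.DvF (fr κ p r) ⧸ H.addSubgroupOf (c.DvF (fr κ p r))) := by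
    refine Finite.of_surjective (fun x : s => (QuotientAddGroup.mk ⟨x.1, hs x.1 x.2⟩ :
      c.DvF (fr κ p r) ⧸ H.addSubgroupOf (c.DvF (fr κ p r)))) fun y => ?_
    obtain ⟨⟨D, hD⟩, rfl⟩ := QuotientAddGroup.mk_surjective y
    obtain ⟨x, hx, hx'⟩ := hs' _ (AddSubgroup.sub_mem _ hD
      (AddSubgroup.zsmul_mem _ (hsG P hP hP') D.degree)) (hdeg D)
    refine ⟨⟨x, hx⟩, QuotientAddGroup.eq.2 ?_⟩
    rw [AddSubgroup.mem_addSubgroupOf]
    have e : -x + D = D - D.degree • Finsupp.single P (1 : ℤ) - x +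
        D.degree • Finsupp.single P (1 : ℤ) := by abel
    change -x + D ∈ H
    rw [e]
    exact H.add_mem (hPH hx') (H.zsmul_mem (hsH P hP hP') _)
  intro D hD
  by_contra hDH
  have hne : (QuotientAddGroup.mk ⟨D, hD⟩ :
      c.DvF (fr κ p r) ⧸ H.addSubgroupOf (c.DvF (fr κ p r))) ≠ 0 := fun h =>
    hDH (AddSubgroup.mem_addSubgroupOf.1 ((QuotientAddGroup.eq_zero_iff _).1 h))
  obtain ⟨ψ, hψ⟩ := AddChar.exists_apply_ne_zero.2 hne
  obtain ⟨θ, hθ⟩ : ∃ θ : (κ × κ →₀ ℤ) → ℂ, ∀ D (hD : D ∈ c.DvF (fr κ p r)),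
      θ D = ψ (QuotientAddGroup.mk ⟨D, hD⟩) :=
    ⟨fun D => if h : D ∈ c.DvF (fr κ p r) then ψ (QuotientAddGroup.mk ⟨D, h⟩) else 1,
      fun D hD => dif_pos hD⟩
  have hmul : ∀ D ∈ c.DvF (fr κ p r), ∀ D' ∈ c.DvF (fr κ p r), θ (D + D') = θ D * θ D' := by
    intro D hD D' hD'
    rw [hθ D hD, hθ D' hD', hθ _ (AddSubgroup.add_mem _ hD hD'), ← AddChar.map_add_eq_mul,
      ← QuotientAddGroup.mk_add]
    rfl
  have hone : ∀ D ∈ c.DvF (fr κ p r), D ∈ H → θ D = 1 := by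
    intro D hD h
    rw [hθ D hD, (QuotientAddGroup.eq_zero_iff _).2 (AddSubgroup.mem_addSubgroupOf.2 h),
      AddChar.map_zero_eq_one]
  have hnorm : ∀ D ∈ c.DvF (fr κ p r), ‖θ D‖ = 1 := fun D hD => by
    rw [hθ D hD]; exact AddChar.norm_apply _ _
  have hz := AddSubgroup.zsmul_mem _ (hsG P hP hP') D.degree
  have hD0 := AddSubgroup.sub_mem _ hD hz
  have hθ0 : θ (D - D.degree • Finsupp.single P (1 : ℤ)) ≠ 1 := by
    intro h
    have h1 := hmul _ hD0 _ hz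
    rw [sub_add_cancel, h, hone _ hz (H.zsmul_mem (hsH P hP hP') _), one_mul, hθ D hD] at h1
    exact hψ h1
  have ha : ∀ n, c.c0 < n → aL (pm (fr κ p r)) {Q | c.Gp Q} θ n = 0 := by
    intro n hn
    have h1 := Cv.aL_add hi hr hF hmul (fun D hD h => hone D hD (hPH h)) hD0 (e := 0)
      (by exact_mod_cast hdeg D) hn.le
    rw [add_zero, pow_zero, one_mul] at h1
    by_contra h2
    exact hθ0 (mul_right_cancel₀ h2 (by rw [one_mul]; exact h1.symm))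
  obtain ⟨α, hα⟩ := powsum_of_poly
    (aL_zero _ _ (hone 0 (AddSubgroup.zero_mem _) H.zero_mem)) ha (ffm_euler hr hF hmul)
  obtain ⟨D₁, hD₁, -, h⟩ := char_sum_est hρ hi hκ hr hF
  obtain ⟨C, n₀, h⟩ := h θ hmul (fun D hD h => hone D hD (hPH h)) hnorm
  rcases h with ⟨-, h⟩ | h
  · have h1 := first_le_of_even α (q := (p : ℝ) ^ r) (C := C) (by positivity) (r₀ := n₀ + 1)
      fun n hn => by
        have h2 := h n (by omega)
        rw [hα _ (by omega), norm_neg] at h2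
        exact h2
    have h2 := hα 1 one_pos
    rw [ffm_one fun Q hQ hQ' => hone _ (hsG Q hQ hQ') (hsH Q hQ hQ')] at h2
    simp only [pow_one] at h2
    rw [← norm_neg, ← h2, Complex.norm_real, Real.norm_eq_abs] at h1
    have := (abs_le.1 h1).2
    linarith
  · exact not_main_term α (hnorm D₁ hD₁) hq1 (C := C) (r₀ := n₀ + 1) fun n hn => by
      have h2 := h n (by omega)
      rw [hα _ (by omega)] at h2
      exact h2

end Pool.Agent.ZeroCyc
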