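import Pool.Agent.Lib.MP_796ce4_ag.ZY.CvD

/-! Irreducibility: extension of the constants, Bertini for lines, components. -/

namespace Pool.Agent.ZeroCyc

open Polynomial Module
open scoped Classical IntermediateField PowerSeries

set_option linter.unusedSectionVars false

/-- polynomials in `y` and `T` -/
abbrev MP (d : ℕ) (R : Type) [CommRing R] : Type := (MvPolynomial (Fin d) R)[X]

/-- evaluation at `(y, h)` -/
noncomputable def ev2 {d : ℕ} {R S : Type} [CommRing R] [CommRing S] (φ : R →+* S)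
    (y : Fin d → S) (h : S) : MP d R →+* S :=
  eval₂RingHom (MvPolynomial.eval₂Hom φ y) h

/-- restriction to the curve `y = lam(τ)` -/
noncomputable def cv {d : ℕ} {R S : Type} [CommRing R] [CommRing S] (φ : R →+* S)
    (lam : Fin d → S[X]) : MP d R →+* S[X][X] :=
  mapRingHom (MvPolynomial.eval₂Hom (C.comp φ) lam)

/-- map on the coefficients -/
noncomputable abbrev mq {d : ℕ} {R S : Type} [CommRing R] [CommRing S] (φ : R →+* S) :
    MP d R →+* MP d S := mapRingHom (MvPolynomial.map φ)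

section ring

variable {d : ℕ} {R S T : Type} [CommRing R] [CommRing S] [CommRing T]

theorem e2_cv (φ : R →+* S) (ψ : S →+* T) (lam : Fin d → S[X]) (τ η : T) (f : MP d R) :
    e2 ψ τ η (cv φ lam f) = ev2 (ψ.comp φ) (fun i => (lam i).eval₂ ψ τ) η f := by
  have : (e2 ψ τ η).comp (cv φ lam) = ev2 (ψ.comp φ) (fun i => (lam i).eval₂ ψ τ) η := by
    refine Polynomial.ringHom_ext' (MvPolynomial.ringHom_ext (fun r => ?_) fun i => ?_) ?_ <;>
      simp [e2, cv, ev2]
  exact DFunLike.congr_fun this f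
theorem ee_cv (φ : R →+* S) (lam : Fin d → S[X]) (Q : S × S) (f : MP d R) :
    ee Q (cv φ lam f) = ev2 φ (fun i => (lam i).eval Q.1) Q.2 f := by
  rw [ee, e2_cv, RingHom.id_comp]; rfl
theorem mp_cv (φ : R →+* S) (ψ : S →+* T) (lam : Fin d → S[X]) (f : MP d R) :
    mp ψ (cv φ lam f) = cv (ψ.comp φ) (fun i => (lam i).map ψ) f := by
  have : (mp ψ).comp (cv φ lam) = cv (ψ.comp φ) (fun i => (lam i).map ψ) := by
    refine Polynomial.ringHom_ext' (MvPolynomial.ringHom_ext (fun r => ?_) fun i => ?_) ?_ <;>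
      simp [cv]
  exact DFunLike.congr_fun this f
theorem map_ev2 (φ : R →+* S) (ψ : S →+* T) (y : Fin d → S) (h : S) (f : MP d R) :
    ψ (ev2 φ y h f) = ev2 (ψ.comp φ) (fun i => ψ (y i)) (ψ h) f := by
  have : ψ.comp (ev2 φ y h) = ev2 (ψ.comp φ) (fun i => ψ (y i)) (ψ h) := by
    refine Polynomial.ringHom_ext' (MvPolynomial.ringHom_ext (fun r => ?_) fun i => ?_) ?_ <;>
      simp [ev2]
  exact DFunLike.congr_fun this f
theorem ev2_mq (φ : R →+* S) (ψ : S →+* T) (y : Fin d → T) (h : T) (f : MP d R) :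
    ev2 ψ y h (mq φ f) = ev2 (ψ.comp φ) y h f := by
  have : (ev2 ψ y h).comp (mq φ) = ev2 (ψ.comp φ) y h := by
    refine Polynomial.ringHom_ext' (MvPolynomial.ringHom_ext (fun r => ?_) fun i => ?_) ?_ <;>
      simp [ev2]
  exact DFunLike.congr_fun this f
theorem cv_mq (φ : R →+* S) (ψ : S →+* T) (lam : Fin d → T[X]) (f : MP d R) :
    cv ψ lam (mq φ f) = cv (ψ.comp φ) lam f := by
  have : (cv ψ lam).comp (mq φ) = cv (ψ.comp φ) lam := by
    refine Polynomial.ringHom_ext' (MvPolynomial.ringHom_ext (fun r => ?_) fun i => ?_) ?_ <;>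
      simp [cv]
  exact DFunLike.congr_fun this f
theorem ev2_C (φ : R →+* S) (y : Fin d → S) (h : S) (g : MvPolynomial (Fin d) R) :
    ev2 φ y h (C g) = MvPolynomial.eval₂ φ y g := by
  simp [ev2]
theorem ev2_eq_eval (φ : R →+* S) (y : Fin d → S) (h : S) (f : MP d R) :
    ev2 φ y h f = (f.map (MvPolynomial.eval₂Hom φ y)).eval h := by
  rw [eval_map]; rfl
theorem cv_derivative (φ : R →+* S) (lam : Fin d → S[X]) (f : MP d R) :
    cv φ lam (derivative f) = derivative (cv φ lam f) := by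
  simp only [cv, coe_mapRingHom, derivative_map]
theorem natDegree_eval₂_le (φ : R →+* S) {lam : Fin d → S[X]} {e : ℕ}
    (h : ∀ i, (lam i).natDegree ≤ e) (g : MvPolynomial (Fin d) R) :
    (MvPolynomial.eval₂ (C.comp φ) lam g).natDegree ≤ g.totalDegree * e := by
  have h1 := MvPolynomial.aeval_natDegree_le (MvPolynomial.map φ g) (m := g.totalDegree)
    (Finset.sup_mono (MvPolynomial.support_map_subset φ g)) lam h
  rwa [MvPolynomial.aeval_def, MvPolynomial.eval₂_map] at h1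
theorem wt_cv [Nontrivial S] (φ : R →+* S) {lam : Fin d → S[X]} {e b : ℕ}
    (h : ∀ i, (lam i).natDegree ≤ e) {χ : MP d R} (hm : χ.Monic)
    (hw : ∀ i, (χ.coeff i).totalDegree ≤ b * (χ.natDegree - i)) :
    Wt (b * e) χ.natDegree (cv φ lam χ) := by
  refine ⟨hm.map _, hm.natDegree_map _, fun i j hj => ?_⟩
  rw [cv, coe_mapRingHom, coeff_map] at hj
  have h1 : i ≤ χ.natDegree := le_natDegree_of_ne_zero fun h0 => hj (by simp [h0])
  have h2 : j ≤ b * (χ.natDegree - i) * e := (le_natDegree_of_ne_zero hj).trans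
    ((natDegree_eval₂_le φ h _).trans (Nat.mul_le_mul_right _ (hw i)))
  obtain ⟨k, hk⟩ := Nat.exists_eq_add_of_le h1
  rw [hk, Nat.add_sub_cancel_left] at h2
  rw [hk]
  nlinarith
theorem exists_wl_cv (f : MP d R) (b : ℕ) : ∃ M, ∀ (S : Type) [CommRing S] (φ : R →+* S)
    (lam : Fin d → S[X]) (e : ℕ), (∀ i, (lam i).natDegree ≤ e) →
      WL (b * e) 0 (M * e + 1) (cv φ lam f) := by
  refine ⟨(∑ i ∈ Finset.range (f.natDegree + 1), (f.coeff i).totalDegree) + b * f.natDegree,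
    fun S _ φ lam e h i j hj => ?_⟩
  rw [cv, coe_mapRingHom, coeff_map] at hj
  have h1 : i ≤ f.natDegree := le_natDegree_of_ne_zero fun h0 => hj (by simp [h0])
  have h3 : (f.coeff i).totalDegree ≤
      ∑ i ∈ Finset.range (f.natDegree + 1), (f.coeff i).totalDegree :=
    Finset.single_le_sum (f := fun i => (f.coeff i).totalDegree) (fun _ _ => Nat.zero_le _)
      (Finset.mem_range.2 (Nat.lt_succ_of_le h1))
  have h2 := (le_natDegree_of_ne_zero hj).trans
    ((natDegree_eval₂_le φ h _).trans (Nat.mul_le_mul_right _ h3))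
  have h4 : b * e * i ≤ b * e * f.natDegree := Nat.mul_le_mul_left _ h1
  nlinarith

end ring

/-- monic factors of a product of distinct linear factors -/
theorem monic_dvd_prod {S : Type} [CommRing S] [IsDomain S] {T : Type} (s : Finset T) (η : T → S)
    {f g : S[X]} (hf : f.Monic) (h : f * g = ∏ t ∈ s, (X - C (η t))) :
    ∃ s' ⊆ s, f = ∏ t ∈ s', (X - C (η t)) := by
  induction s using Finset.induction_on generalizing f g with
  | empty =>
    rw [Finset.prod_empty] at h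
    exact ⟨∅, subset_rfl, by rw [Finset.prod_empty]; exact hf.eq_one_of_isUnit (.of_mul_eq_one _ h)⟩
  | insert a s ha ih =>
    rw [Finset.prod_insert ha] at h
    have hp : Prime (X - C (η a)) := prime_X_sub_C _
    rcases hp.dvd_or_dvd (h ▸ dvd_mul_right _ _ : X - C (η a) ∣ f * g) with ⟨f', rfl⟩ | ⟨g', rfl⟩
    · rw [mul_assoc] at h
      obtain ⟨s', h1, h2⟩ := ih ((monic_X_sub_C _).of_mul_monic_left hf)
        (mul_left_cancel₀ hp.ne_zero h)
      exact ⟨insert a s', Finset.insert_subset_insert _ h1, by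
        rw [Finset.prod_insert fun h3 => ha (h1 h3), h2]⟩
    · rw [mul_left_comm] at h
      obtain ⟨s', h1, h2⟩ := ih hf (mul_left_cancel₀ hp.ne_zero h)
      exact ⟨s', h1.trans (Finset.subset_insert _ _), h2⟩

theorem cvb_eq_prod {S : Type} [CommRing S] [IsDomain S] {T : Type} (s : Finset T) {η : T → S}
    (hη : Set.InjOn η s) {f : S[X]} (hf : f.Monic) (hd : f.natDegree = s.card)
    (h : ∀ t ∈ s, f.eval (η t) = 0) : f = ∏ t ∈ s, (X - C (η t)) := by
  have hm : (∏ t ∈ s, (X - C (η t))).Monic := monic_prod_of_monic _ _ fun t _ => monic_X_sub_C _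
  have h1 : f.degree = s.card := by rw [degree_eq_natDegree hf.ne_zero, hd]
  refine eq_of_degree_le_of_eval_index_eq s hη h1.le ?_ (by rw [hf, hm]) fun t ht => ?_
  · rw [h1, degree_eq_natDegree hm.ne_zero, natDegree_finsetProd_X_sub_C_eq_card]
  · rw [h t ht, eval_prod]
    exact (Finset.prod_eq_zero ht (by simp)).symm

theorem cvb_sh_inj {R : Type} [CommRing R] (t : R) : Function.Injective (sh t) := fun u v h => by
  rw [sh_eq_taylor, sh_eq_taylor] at h
  exact taylor_injective t (Polynomial.coe_injective _ h)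

theorem cvb_coeff_sh {R : Type} [CommRing R] (u : R[X]) (n : ℕ) :
    PowerSeries.coeff n (sh 0 u) = u.coeff n := by
  rw [sh_eq_taylor, taylor_zero, Polynomial.coeff_coe]

theorem cvb_descend {R S : Type} [CommRing R] [CommRing S] (ψ : R →+* S) (t : R) {f : S[X][X]}
    {P : R⟦X⟧[X]} (h : f.map (sh (ψ t)) = P.map (PowerSeries.map ψ)) : ∃ f0, mp ψ f0 = f := by
  refine (mem_lifts _).1 ((lifts_iff_coeff_lifts _).2 fun i => ?_)
  have h1 := congrArg (fun p => p.coeff i) h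
  simp only [coeff_map] at h1
  obtain ⟨u, hu⟩ : ∃ u : R[X], u.map ψ = taylor (ψ t) (f.coeff i) := by
    refine (mem_lifts _).1 ((lifts_iff_coeff_lifts _).2 fun n => ?_)
    refine ⟨PowerSeries.coeff n (P.coeff i), ?_⟩
    rw [← PowerSeries.coeff_map, ← h1, sh_eq_taylor, Polynomial.coeff_coe]
  refine ⟨taylor (-t) u, ?_⟩
  rw [coe_mapRingHom, map_taylor, hu, taylor_taylor, map_neg, neg_add_cancel, taylor_zero]

theorem Cv.irreducible_map {κ 𝕜 : Type} [Field κ] [IsAlgClosed κ] [Field 𝕜] (c : Cv κ)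
    (hρ : c.ρ ≠ 0) (hi : Irreducible c.χ) (ψ : κ →+* 𝕜) : Irreducible (c.map ψ).χ := by
  obtain ⟨t, ht⟩ : ∃ t, c.ρ.eval t ≠ 0 := by
    by_contra! h0
    exact hρ (Polynomial.funext fun r => by rw [h0 r, eval_zero])
  have het : ∀ y, On c.χ (t, y) → Et c.χ (t, y) := fun y hy => Cv.Gp.et ⟨hy, ht⟩
  obtain ⟨s, hs1, hs2, -⟩ := card_fibre c.wt het
  have hm := c.wt.monic
  have hP : c.χ.map (sh t) = ∏ y ∈ s, (X - C (hs c.χ (t, y))) := by
    refine cvb_eq_prod s (fun y hy y' hy' e => ?_) (hm.map _)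
      (by rw [hm.natDegree_map, c.wt.deg, hs1]) fun y hy => ?_
    · have h1 := (hs_spec hm (het y ((hs2 y).1 hy))).2
      have h2 := (hs_spec hm (het y' ((hs2 y').1 hy'))).2
      simp only at e h1 h2
      rw [← h1, ← h2, e]
    · rw [eval_map]; exact (hs_spec hm (het y ((hs2 y).1 hy))).1
  have hQ : (mp ψ c.χ).map (sh (ψ t)) =
      ∏ y ∈ s, (X - C (PowerSeries.map ψ (hs c.χ (t, y)))) := by
    have h1 : (mp ψ c.χ).map (sh (ψ t)) = (c.χ.map (sh t)).map (PowerSeries.map ψ) := by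
      ext i : 1
      simp only [coe_mapRingHom, coeff_map, map_sh]
    rw [h1, hP, Polynomial.map_prod]
    simp
  have hinj := mp_injective ψ.injective
  have key : ∀ f g : 𝕜[X][X], f.Monic → f * g = mp ψ c.χ → ∃ f0, mp ψ f0 = f := fun f g hf e => by
    obtain ⟨s', -, h2⟩ := monic_dvd_prod s (fun y => PowerSeries.map ψ (hs c.χ (t, y)))
      (g := g.map (sh (ψ t))) (hf.map (sh (ψ t))) (by rw [← Polynomial.map_mul, e, hQ])
    refine cvb_descend ψ t (P := ∏ y ∈ s', (X - C (hs c.χ (t, y)))) ?_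
    rw [h2, Polynomial.map_prod]
    simp
  refine (irreducible_of_monic (c.wt.map ψ).monic fun h1 => hi.ne_one (hinj ?_)).2
    fun f g hf hg e => ?_
  · rw [map_one]; exact h1
  obtain ⟨f0, rfl⟩ := key f g hf e
  obtain ⟨g0, rfl⟩ := key g _ hg ((mul_comm _ _).trans e)
  have e0 : c.χ = f0 * g0 := hinj (by rw [map_mul]; exact e.symm)
  exact (hi.isUnit_or_isUnit e0).imp (fun h => hf.eq_one_of_isUnit (h.map _))
    fun h => hg.eq_one_of_isUnit (h.map _)

theorem cvb_lift {R : Type} [CommRing R] {P : R⟦X⟧[X]} {N : ℕ}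
    (h : ∀ i n, N < n → PowerSeries.coeff n (P.coeff i) = 0) :
    ∃ f : R[X][X], f.map (sh 0) = P := by
  refine (mem_lifts _).1 ((lifts_iff_coeff_lifts _).2 fun i =>
    ⟨PowerSeries.trunc (N + 1) (P.coeff i), ?_⟩)
  ext n
  rw [cvb_coeff_sh, PowerSeries.coeff_trunc]
  split_ifs with hn
  · rfl
  · exact (h i n (by omega)).symm

theorem cvb_map_sh {R S : Type} [CommRing R] [CommRing S] (ψ : R →+* S) (t : R) (a : R[X][X]) :
    (mp ψ a).map (sh (ψ t)) = (a.map (sh t)).map (PowerSeries.map ψ) := by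
  ext i : 1
  simp only [coe_mapRingHom, coeff_map, map_sh]

theorem cvb_cc {R : Type} [CommRing R] (a : R[X][X]) (h : R) :
    (a.map (sh 0)).eval₂ PowerSeries.constantCoeff h = ee (0, h) a := by
  rw [eval₂_map, ee_eq_eval, eval_map]
  congr 1
  exact RingHom.ext fun u => constantCoeff_sh 0 u

/-- the generic line through a point with etale fibre is irreducible -/
theorem bertini {κ : Type} [Field κ] [IsAlgClosed κ] {d b : ℕ} {χ : MP d κ} (hm : χ.Monic)
    (hw : ∀ i, (χ.coeff i).totalDegree ≤ b * (χ.natDegree - i)) (hi : Irreducible χ)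
    (y : Fin d → κ)
    (hy : ∀ h, ev2 (RingHom.id κ) y h χ = 0 → ev2 (RingHom.id κ) y h (derivative χ) ≠ 0) :
    ∃ Θ : MvPolynomial (Fin d) κ, Θ ≠ 0 ∧ ∀ e : Fin d → κ, MvPolynomial.eval e Θ ≠ 0 →
      Irreducible (cv (RingHom.id κ) (fun i => C (y i) + C (e i) * X) χ) := by
  -- the fibre over `y`
  have hw0 := wt_cv (RingHom.id κ) (lam := fun i => C (y i)) (e := 0) (by simp) hm hw
  have hon : ∀ (h : κ) (f : MP d κ), ee (0, h) (cv (RingHom.id κ) (fun i => C (y i)) f) =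
      ev2 (RingHom.id κ) y h f := fun h f => by rw [ee_cv]; simp
  obtain ⟨s, hs1, hs2, -⟩ := card_fibre (t := 0) hw0 fun h h0 =>
    ⟨h0, by rw [← cv_derivative, hon]; exact hy h (by rw [← hon]; exact h0)⟩
  -- the generic line
  obtain ⟨Φ, hΦ⟩ : ∃ Φ : (MvPolynomial (Fin d) κ)[X][X], Φ = cv MvPolynomial.C
    (fun i => C (MvPolynomial.C (y i)) + C (MvPolynomial.X i) * X) χ := ⟨_, rfl⟩
  have hΦm : Φ.Monic := hΦ ▸ hm.map _
  have hΦd : Φ.natDegree = χ.natDegree := hΦ ▸ hm.natDegree_map _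
  have hev : ∀ (h : κ) (f : MP d κ), ee (0, MvPolynomial.C h) (cv MvPolynomial.C
      (fun i => C (MvPolynomial.C (y i)) + C (MvPolynomial.X i : MvPolynomial (Fin d) κ) * X) f) =
        MvPolynomial.C (ev2 (RingHom.id κ) y h f) := fun h f => by
    rw [ee_cv, map_ev2]; simp
  have hex : ∀ h : κ, ∃ η : (MvPolynomial (Fin d) κ)⟦X⟧, h ∈ s →
      (Φ.map (sh 0)).eval η = 0 ∧ PowerSeries.constantCoeff η = MvPolynomial.C h := fun h => by
    by_cases hh : h ∈ s
    · have h0 : ev2 (RingHom.id κ) y h χ = 0 := by rw [← hon]; exact (hs2 h).1 hh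
      obtain ⟨η, hη⟩ := exists_hensel_series (hΦm.map (sh 0)) (y := MvPolynomial.C h)
        (by rw [cvb_cc, hΦ, hev, h0, map_zero])
        (by rw [derivative_map, cvb_cc, hΦ, ← cv_derivative, hev]
            exact (hy h h0).isUnit.map _)
      exact ⟨η, fun _ => hη⟩
    · exact ⟨0, fun h1 => absurd h1 hh⟩
  choose η hη using hex
  have hP : Φ.map (sh 0) = ∏ h ∈ s, (X - C (η h)) :=
    cvb_eq_prod s (fun h hh h' hh' e => MvPolynomial.C_injective (Fin d) κ
      (by rw [← (hη h hh).2, ← (hη h' hh').2, e])) (hΦm.map _)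
      (by rw [hΦm.natDegree_map, hΦd, hs1]) fun h hh => (hη h hh).1
  have hsp : ∀ e : Fin d → κ, mp (MvPolynomial.eval e) Φ =
      cv (RingHom.id κ) (fun i => C (y i) + C (e i) * X) χ := fun e => by
    rw [hΦ, mp_cv]
    congr 2
    · ext r; simp
    · funext i; simp
  have hwe : ∀ e : Fin d → κ, Wt (b * 1) χ.natDegree (mp (MvPolynomial.eval e) Φ) := fun e => by
    rw [hsp]
    exact wt_cv _ (fun i => by compute_degree) hm hw
  obtain ⟨π, hπ⟩ : ∃ π : (MvPolynomial (Fin d) κ)[X] →+* MvPolynomial (Fin d) κ, Φ.map π = χ := by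
    refine ⟨eval₂RingHom (MvPolynomial.eval₂Hom MvPolynomial.C
      fun i => MvPolynomial.X i - MvPolynomial.C (y i)) 1, ?_⟩
    rw [hΦ, cv, coe_mapRingHom, Polynomial.map_map]
    convert Polynomial.map_id
    exact MvPolynomial.ringHom_ext (fun r => by simp) fun i => by simp
  have hinj : Function.Injective (Polynomial.map (sh (0 : MvPolynomial (Fin d) κ))) :=
    Polynomial.map_injective _ (cvb_sh_inj _)
  have hinj' : Function.Injective (Polynomial.map (sh (0 : κ))) :=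
    Polynomial.map_injective _ (cvb_sh_inj _)
  have hmon : ∀ s' : Finset κ, (∏ h ∈ s', (X - C (η h))).Monic := fun s' =>
    monic_prod_of_monic _ _ fun t _ => monic_X_sub_C _
  have key : ∀ s' : Finset κ, ∃ θ : MvPolynomial (Fin d) κ, θ ≠ 0 ∧ (s' ⊆ s → ∀ e : Fin d → κ,
      MvPolynomial.eval e θ ≠ 0 → ∀ f g : κ[X][X], f.Monic → g.Monic →
      f * g = mp (MvPolynomial.eval e) Φ →
      f.map (sh 0) = (∏ h ∈ s', (X - C (η h))).map (PowerSeries.map (MvPolynomial.eval e)) →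
      g.map (sh 0) = (∏ h ∈ s \ s', (X - C (η h))).map (PowerSeries.map (MvPolynomial.eval e)) →
      f = 1 ∨ g = 1) := fun s' => by
    have hbig : ∀ (e : Fin d → κ) (f g : κ[X][X]) (P : (MvPolynomial (Fin d) κ)⟦X⟧[X]),
        f.Monic → g.Monic → f * g = mp (MvPolynomial.eval e) Φ →
        f.map (sh 0) = P.map (PowerSeries.map (MvPolynomial.eval e)) → ∀ i n,
        b * χ.natDegree < n → MvPolynomial.eval e (PowerSeries.coeff n (P.coeff i)) = 0 := by
      intro e f g P hf hg efg hfP i n hn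
      have h1 := congrArg (fun p => PowerSeries.coeff n (p.coeff i)) hfP
      simp only [coeff_map, cvb_coeff_sh, PowerSeries.coeff_map] at h1
      rw [← h1]
      by_contra h2
      have h3 := hwe e
      rw [← efg] at h3
      have h4 := (h3.of_mul hf hg).wt i n h2
      have h5 : f.natDegree ≤ χ.natDegree := by rw [← h3.deg, hf.natDegree_mul hg]; omega
      have h6 := Nat.mul_le_mul_left b h5
      rw [mul_one] at h4
      omega
    by_cases H1 : ∃ i n, b * χ.natDegree < n ∧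
        PowerSeries.coeff n ((∏ h ∈ s', (X - C (η h))).coeff i) ≠ 0
    · obtain ⟨i, n, hn, h0⟩ := H1
      exact ⟨_, h0, fun _ e he f g hf hg efg h1 _ => absurd (hbig e f g _ hf hg efg h1 i n hn) he⟩
    by_cases H2 : ∃ i n, b * χ.natDegree < n ∧
        PowerSeries.coeff n ((∏ h ∈ s \ s', (X - C (η h))).coeff i) ≠ 0
    · obtain ⟨i, n, hn, h0⟩ := H2
      exact ⟨_, h0, fun _ e he f g hf hg efg _ h1 =>
        absurd (hbig e g f _ hg hf ((mul_comm _ _).trans efg) h1 i n hn) he⟩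
    push Not at H1 H2
    obtain ⟨f0, hf0⟩ := cvb_lift H1
    obtain ⟨g0, hg0⟩ := cvb_lift H2
    refine ⟨1, one_ne_zero, fun hs' e _ f g hf hg _ h1 h2 => ?_⟩
    have e0 : f0 * g0 = Φ := hinj (by
      rw [Polynomial.map_mul, hf0, hg0, hP, mul_comm, Finset.prod_sdiff hs'])
    have one : ∀ (f0 : (MvPolynomial (Fin d) κ)[X][X]) (f : κ[X][X]), (f0.map (sh 0)).Monic →
        f.map (sh 0) = (f0.map (sh 0)).map (PowerSeries.map (MvPolynomial.eval e)) →
        IsUnit (f0.map π) → f = 1 := fun f0 f h3 h4 h5 => by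
      have h6 : f0.Monic := monic_of_injective (cvb_sh_inj _) h3
      have h7 : f0 = 1 := by
        rw [← h6.natDegree_eq_zero, ← h6.natDegree_map π, (h6.map π).eq_one_of_isUnit h5,
          natDegree_one]
      apply hinj'
      rw [h4, h7, Polynomial.map_one, Polynomial.map_one, Polynomial.map_one]
    exact (hi.isUnit_or_isUnit (by rw [← hπ, ← e0, Polynomial.map_mul])).imp
      (one f0 f (hf0 ▸ hmon _) (hf0 ▸ h1)) (one g0 g (hg0 ▸ hmon _) (hg0 ▸ h2))
  choose θ hθ0 hθ using key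
  refine ⟨∏ s' ∈ s.powerset, θ s', Finset.prod_ne_zero_iff.2 fun s' _ => hθ0 s', fun e he => ?_⟩
  rw [← hsp]
  refine (irreducible_of_monic (hwe e).monic fun h1 => hi.ne_one ?_).2 fun f g hf hg efg => ?_
  · rw [← hm.natDegree_eq_zero, ← (hwe e).deg, h1, natDegree_one]
  have hQ : f.map (sh 0) * g.map (sh 0) =
      ∏ h ∈ s, (X - C (PowerSeries.map (MvPolynomial.eval e) (η h))) := by
    rw [← Polynomial.map_mul, efg, ← map_zero (MvPolynomial.eval e), cvb_map_sh, hP,
      Polynomial.map_prod]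
    simp
  obtain ⟨s', hs', h2⟩ := monic_dvd_prod s _ (hf.map _) hQ
  rw [map_prod] at he
  refine hθ s' hs' e (Finset.prod_ne_zero_iff.1 he s' (Finset.mem_powerset.2 hs')) f g hf hg efg
    (by rw [h2, Polynomial.map_prod]; simp) (mul_left_cancel₀ (hf.map (sh 0)).ne_zero ?_)
  rw [hQ, h2, Polynomial.map_prod, ← Finset.prod_sdiff hs', mul_comm]
  simp

theorem cvb_exists_irr {κ : Type} [Field κ] {Q : κ × κ} (n : ℕ) : ∀ χ : κ[X][X], χ.Monic →
    χ.natDegree = n → On χ Q →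
      ∃ χ₁ χ₂, χ = χ₁ * χ₂ ∧ χ₁.Monic ∧ χ₂.Monic ∧ Irreducible χ₁ ∧ On χ₁ Q := by
  induction n using Nat.strong_induction_on with
  | _ n ih =>
  intro χ hm hn hQ
  by_cases hi : Irreducible χ
  · exact ⟨χ, 1, (mul_one _).symm, hm, monic_one, hi, hQ⟩
  have h1 : χ ≠ 1 := fun e => by
    rw [e, On, map_one] at hQ
    exact one_ne_zero hQ
  rw [irreducible_of_monic hm h1] at hi
  push Not at hi
  obtain ⟨f, g, hf, hg, rfl, hf1, hg1⟩ := hi
  rw [hf.natDegree_mul hg] at hn
  have hf2 := hf.natDegree_pos.2 hf1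
  have hg2 := hg.natDegree_pos.2 hg1
  rw [On, map_mul, mul_eq_zero] at hQ
  rcases hQ with hQ | hQ
  · obtain ⟨a, a', rfl, h2, h3, h4, h5⟩ := ih _ (by omega) f hf rfl hQ
    exact ⟨a, a' * g, mul_assoc _ _ _, h2, h3.mul hg, h4, h5⟩
  · obtain ⟨a, a', rfl, h2, h3, h4, h5⟩ := ih _ (by omega) g hg rfl hQ
    exact ⟨a, f * a', mul_left_comm _ _ _, h2, hf.mul h3, h4, h5⟩

theorem cvb_eq_of_dvd {κ : Type} [Field κ] {a a' : κ[X][X]} (h : a.Monic) (h' : a'.Monic)
    (hi : Irreducible a) (hi' : Irreducible a') (hd : a ∣ a') : a = a' :=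
  eq_of_monic_of_associated h h' (hi.associated_of_dvd hi' hd)

theorem cvb_card_le {κ : Type} [Field κ] (s : Finset κ[X][X]) : ∀ χ : κ[X][X], χ.Monic →
    (∀ a ∈ s, a.Monic ∧ Irreducible a ∧ a ∣ χ) → s.card ≤ χ.natDegree := by
  induction s using Finset.induction_on with
  | empty => intros; simp
  | insert a s ha ih =>
    intro χ hm h
    obtain ⟨h1, h2, χ', rfl⟩ := h a (Finset.mem_insert_self _ _)
    have hm' := h1.of_mul_monic_left hm
    have h3 := ih χ' hm' fun a' ha' => by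
      obtain ⟨h4, h5, h6⟩ := h a' (Finset.mem_insert_of_mem ha')
      refine ⟨h4, h5, (h5.prime.dvd_or_dvd h6).resolve_left fun h7 => ha ?_⟩
      rwa [← cvb_eq_of_dvd h4 h1 h5 h2 h7]
    have h4 := h1.natDegree_pos.2 h2.ne_one
    rw [Finset.card_insert_of_notMem ha, h1.natDegree_mul hm']
    omega

theorem cvb_irr_mp {κ : Type} [Field κ] {F : κ →+* κ} (hb : Function.Bijective F) {a : κ[X][X]}
    (h : Irreducible a) : Irreducible (mp F a) :=
  (MulEquiv.irreducible_iff (RingEquiv.ofBijective (mp F) ⟨mp_injective hb.1,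
    Polynomial.map_surjective _ (Polynomial.map_surjective _ hb.2)⟩)).2 h

theorem cvb_iter {κ : Type} [Field κ] (F : κ →+* κ) (n : ℕ) (a : κ[X][X]) :
    (mp F)^[n] a = mp (F ^ n) a := by
  induction n with
  | zero =>
    ext i j
    simp
  | succ n ih => rw [Function.iterate_succ_apply', ih, mp_mp, pow_succ']; rfl

/-- the component through an etale point and its field of definition -/
theorem exists_component {κ : Type} [Field κ] {χ : κ[X][X]} (hm : χ.Monic) {F : κ →+* κ}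
    (hb : Function.Bijective F) (hF : mp F χ = χ) {Q : κ × κ} (hQ : Et χ Q) {D : ℕ} (hD : 0 < D)
    (hQD : pm (F ^ D) Q = Q) : ∃ (k : ℕ) (χ₁ χ₂ : κ[X][X]), 0 < k ∧ k ≤ χ.natDegree ∧ k ∣ D ∧
      χ = χ₁ * χ₂ ∧ χ₁.Monic ∧ χ₂.Monic ∧ Irreducible χ₁ ∧ mp (F ^ k) χ₁ = χ₁ ∧
      mp (F ^ k) χ₂ = χ₂ ∧ On χ₁ Q := by
  obtain ⟨χ₁, χ₂, e, h1, h2, hi, hon⟩ := cvb_exists_irr _ χ hm rfl hQ.1
  have hFn : ∀ n, mp (F ^ n) χ = χ := fun n => by
    rw [← cvb_iter]; exact Function.iterate_fixed hF n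
  have hall : ∀ n, (mp (F ^ n) χ₁).Monic ∧ Irreducible (mp (F ^ n) χ₁) ∧ mp (F ^ n) χ₁ ∣ χ :=
    fun n => ⟨h1.map _, cvb_irr_mp (by rw [RingHom.coe_pow]; exact hb.iterate n) hi,
      ⟨mp (F ^ n) χ₂, by rw [← map_mul, ← e, hFn]⟩⟩
  have hn2 : ¬On χ₂ Q := fun h => by
    rcases et_mul.1 (e ▸ hQ) with h3 | h3
    exacts [h3.2 h, h3.2 hon]
  have hper : Function.IsPeriodicPt (mp F) D χ₁ := by
    obtain ⟨h3, h4, h5⟩ := hall D
    have h6 : On (mp (F ^ D) χ₁) Q := by
      rw [On, ← hQD, ← map_ee, hon, map_zero]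
    rw [Function.IsPeriodicPt, Function.IsFixedPt, cvb_iter]
    rcases h4.prime.dvd_or_dvd (e ▸ h5) with h7 | ⟨g, h7⟩
    · exact cvb_eq_of_dvd h3 h1 h4 hi h7
    · exact absurd (by rw [On, h7, map_mul, h6, zero_mul]) hn2
  have hk : mp (F ^ Function.minimalPeriod (mp F) χ₁) χ₁ = χ₁ := by
    rw [← cvb_iter]; exact Function.isPeriodicPt_minimalPeriod _ _
  refine ⟨Function.minimalPeriod (mp F) χ₁, χ₁, χ₂, hper.minimalPeriod_pos hD, ?_,
    hper.minimalPeriod_dvd, e, h1, h2, hi, hk, ?_, hon⟩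
  · have h3 := cvb_card_le ((Finset.range (Function.minimalPeriod (mp F) χ₁)).image
      fun n => (mp F)^[n] χ₁) χ hm fun a ha => by
        obtain ⟨n, -, rfl⟩ := Finset.mem_image.1 ha
        rw [cvb_iter]; exact hall n
    rwa [Finset.card_image_of_injOn, Finset.card_range] at h3
    rw [Finset.coe_range]
    exact Function.iterate_injOn_Iio_minimalPeriod
  · have h3 := hFn (Function.minimalPeriod (mp F) χ₁)
    rw [e, map_mul, hk] at h3
    exact mul_left_cancel₀ h1.ne_zero h3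

end Pool.Agent.ZeroCyc
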