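import Pool.Agent.Lib.MP_796ce4_ag.ZY.CvW

/-! Branches through etale points. -/

namespace Pool.Agent.ZeroCyc

open Polynomial Module
open scoped Classical IntermediateField PowerSeries

set_option linter.unusedSectionVars false

/-- Hensel's lemma for power series over any ring -/
theorem exists_hensel_series {R : Type} [CommRing R] {f : R⟦X⟧[X]} (hf : f.Monic) {y : R}
    (h0 : f.eval₂ PowerSeries.constantCoeff y = 0)
    (h1 : IsUnit ((derivative f).eval₂ PowerSeries.constantCoeff y)) :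
    ∃ η : R⟦X⟧, f.eval η = 0 ∧ PowerSeries.constantCoeff η = y := by
  have e : ∀ g : R⟦X⟧[X], PowerSeries.constantCoeff (g.eval (PowerSeries.C y)) =
      g.eval₂ PowerSeries.constantCoeff y := fun g => by
    rw [← eval₂_id, hom_eval₂, RingHom.comp_id, PowerSeries.constantCoeff_C]
  obtain ⟨η, h2, h3⟩ := HenselianRing.is_henselian (I := Ideal.span {(PowerSeries.X : R⟦X⟧)}) f hf
    (PowerSeries.C y) (by rw [Ideal.mem_span_singleton, PowerSeries.X_dvd_iff, e, h0])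
    (IsUnit.map _ (by rw [PowerSeries.isUnit_iff_constantCoeff, e]; exact h1))
  rw [Ideal.mem_span_singleton, PowerSeries.X_dvd_iff, map_sub, PowerSeries.constantCoeff_C,
    sub_eq_zero] at h3
  exact ⟨η, h2, h3⟩

/-- uniqueness modulo an ideal -/
theorem sub_mem_of_root {S : Type} [CommRing S] (I : Ideal S) (𝔪 : Ideal S)
    (h𝔪 : ∀ x ∈ 𝔪, IsUnit (1 + x)) {f : S[X]} {x y : S} (hx : f.eval x ∈ I) (hy : f.eval y ∈ I)
    (hxy : x - y ∈ 𝔪) (hd : IsUnit (f.derivative.eval x)) : x - y ∈ I := by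
  obtain ⟨k, hk⟩ := binomExpansion f x (y - x)
  obtain ⟨u, hu⟩ := hd
  rw [add_sub_cancel, ← hu] at hk
  obtain ⟨v, hv⟩ := h𝔪 _ (𝔪.mul_mem_left (-((u⁻¹ : Sˣ) * k)) hxy)
  have h1 : (u : S) * v * (x - y) = f.eval x - f.eval y := by
    rw [hv, hk]
    linear_combination (-(k * (x - y) ^ 2)) * u.mul_inv
  have h2 := I.mul_mem_left (((u * v)⁻¹ : Sˣ) : S) (I.sub_mem hx hy)
  rwa [← h1, ← Units.val_mul, Units.inv_mul_cancel_left] at h2

variable {𝕜 𝕜' : Type} [Field 𝕜] [Field 𝕜'] {χ χ₁ χ₂ G G' : 𝕜[X][X]} {Q : 𝕜 × 𝕜} {n k : ℕ}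

theorem cvh_comp (t : 𝕜) :
    PowerSeries.constantCoeff.comp (sh t) = eval₂RingHom (RingHom.id 𝕜) t :=
  RingHom.ext fun u => constantCoeff_sh t u
theorem cvh_cc {η : 𝕜⟦X⟧} (h1 : PowerSeries.constantCoeff η = Q.2) (G : 𝕜[X][X]) :
    PowerSeries.constantCoeff (G.eval₂ (sh Q.1) η) = ee Q G := by
  rw [hom_eval₂, cvh_comp, h1]; rfl
theorem cvh_unit {φ : 𝕜⟦X⟧} : IsUnit φ ↔ PowerSeries.constantCoeff φ ≠ 0 := by
  rw [PowerSeries.isUnit_iff_constantCoeff, isUnit_iff_ne_zero]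
theorem cvh_jq (χ : 𝕜[X][X]) (Q : 𝕜 × 𝕜) (G : 𝕜[X][X]) :
    jq χ Q G = G.eval₂ (sh Q.1) (hs χ Q) := rfl

theorem hs_spec (hm : χ.Monic) (h : Et χ Q) :
    χ.eval₂ (sh Q.1) (hs χ Q) = 0 ∧ PowerSeries.constantCoeff (hs χ Q) = Q.2 := by
  have h1 : ∃ η : 𝕜⟦X⟧, χ.eval₂ (sh Q.1) η = 0 ∧ PowerSeries.constantCoeff η = Q.2 := by
    obtain ⟨η, h2, h3⟩ := exists_hensel_series (hm.map (sh Q.1)) (y := Q.2)
      (by rw [eval₂_map, cvh_comp]; exact h.1)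
      (by rw [derivative_map, eval₂_map, cvh_comp]; exact isUnit_iff_ne_zero.2 h.2)
    exact ⟨η, by rwa [eval_map] at h2, h3⟩
  rw [hs, dif_pos h1]
  exact h1.choose_spec
theorem hs_congr (hm : χ.Monic) (h : Et χ Q) {η : 𝕜⟦X⟧}
    (h0 : PowerSeries.X ^ n ∣ χ.eval₂ (sh Q.1) η) (h1 : PowerSeries.constantCoeff η = Q.2) :
    PowerSeries.X ^ n ∣ hs χ Q - η := by
  obtain ⟨h2, h3⟩ := hs_spec hm h
  rw [← Ideal.mem_span_singleton]
  refine sub_mem_of_root _ (Ideal.span {(PowerSeries.X : 𝕜⟦X⟧)}) (fun x hx => ?_)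
    (f := χ.map (sh Q.1)) ?_ ?_ ?_ ?_
  · rw [Ideal.mem_span_singleton, PowerSeries.X_dvd_iff] at hx
    rw [cvh_unit, map_add, hx, map_one, add_zero]
    exact one_ne_zero
  · rw [eval_map, h2]; exact zero_mem _
  · rw [eval_map]; exact Ideal.mem_span_singleton.2 h0
  · rw [Ideal.mem_span_singleton, PowerSeries.X_dvd_iff, map_sub, h1, h3, sub_self]
  · rw [derivative_map, eval_map, cvh_unit, cvh_cc h3]; exact h.2
theorem hs_unique (hm : χ.Monic) (h : Et χ Q) {η : 𝕜⟦X⟧} (h0 : χ.eval₂ (sh Q.1) η = 0)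
    (h1 : PowerSeries.constantCoeff η = Q.2) : hs χ Q = η := by
  ext n
  have h2 := hs_congr (n := n + 1) hm h (h0 ▸ dvd_zero _) h1
  have h3 := PowerSeries.X_pow_dvd_iff.1 h2 n (Nat.lt_succ_self n)
  rwa [map_sub, sub_eq_zero] at h3
theorem jq_C (χ : 𝕜[X][X]) (Q : 𝕜 × 𝕜) (u : 𝕜[X]) : jq χ Q (C u) = sh Q.1 u := by
  rw [cvh_jq, eval₂_C]
theorem jq_X (χ : 𝕜[X][X]) (Q : 𝕜 × 𝕜) : jq χ Q X = hs χ Q := by
  rw [cvh_jq, eval₂_X]
theorem jq_self (hm : χ.Monic) (h : Et χ Q) : jq χ Q χ = 0 := (hs_spec hm h).1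
theorem jq_congr (hm : χ.Monic) (h : Et χ Q) (hd : χ ∣ G - G') : jq χ Q G = jq χ Q G' := by
  obtain ⟨c, hc⟩ := hd
  rw [← sub_eq_zero, ← map_sub, hc, map_mul, jq_self hm h, zero_mul]
theorem constantCoeff_jq (hm : χ.Monic) (h : Et χ Q) (G : 𝕜[X][X]) :
    PowerSeries.constantCoeff (jq χ Q G) = ee Q G := cvh_cc (hs_spec hm h).2 G
theorem Et.map (ψ : 𝕜 →+* 𝕜') : Et (mp ψ χ) (pm ψ Q) ↔ Et χ Q := by
  unfold Et
  rw [← mp_derivative, ← map_ee, ← map_ee, _root_.map_eq_zero, _root_.map_ne_zero]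
theorem jq_map (hm : χ.Monic) (h : Et χ Q) (ψ : 𝕜 →+* 𝕜') (G : 𝕜[X][X]) :
    jq (mp ψ χ) (pm ψ Q) (mp ψ G) = PowerSeries.map ψ (jq χ Q G) := by
  have e : ∀ (G : 𝕜[X][X]) (η : 𝕜⟦X⟧), (mp ψ G).eval₂ (sh (pm ψ Q).1) (PowerSeries.map ψ η) =
      PowerSeries.map ψ (G.eval₂ (sh Q.1) η) := fun G η => by
    rw [hom_eval₂, coe_mapRingHom, eval₂_map]
    congr 1
    exact RingHom.ext fun u => (map_sh ψ Q.1 u).symm
  obtain ⟨h2, h3⟩ := hs_spec hm h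
  have h4 : hs (mp ψ χ) (pm ψ Q) = PowerSeries.map ψ (hs χ Q) :=
    hs_unique (hm.map _) ((Et.map ψ).2 h) ((e χ _).trans (by rw [h2, map_zero])) (by
      rw [← PowerSeries.coeff_zero_eq_constantCoeff_apply, PowerSeries.coeff_map,
        PowerSeries.coeff_zero_eq_constantCoeff_apply, h3]; rfl)
  rw [cvh_jq, h4, e, cvh_jq]
theorem oq_map (hm : χ.Monic) (h : Et χ Q) (ψ : 𝕜 →+* 𝕜') (G : 𝕜[X][X]) :
    oq (mp ψ χ) (pm ψ Q) (mp ψ G) = oq χ Q G := by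
  unfold oq
  rw [jq_map hm h]
  congr 1
  refine le_antisymm (PowerSeries.le_order _ _ fun i hi => ?_) (PowerSeries.le_order_map ψ)
  have h1 := PowerSeries.coeff_of_lt_order i hi
  rwa [PowerSeries.coeff_map, map_eq_zero] at h1
theorem Van.map (hm : χ.Monic) (h : Et χ Q) (ψ : 𝕜 →+* 𝕜') (hv : Van χ Q n G) :
    Van (mp ψ χ) (pm ψ Q) n (mp ψ G) := by
  unfold Van
  rw [jq_map hm h]
  have h1 := map_dvd (PowerSeries.map ψ) hv
  rwa [map_pow, PowerSeries.map_X] at h1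
theorem et_mul : Et (χ₁ * χ₂) Q ↔ (Et χ₁ Q ∧ ¬On χ₂ Q) ∨ (Et χ₂ Q ∧ ¬On χ₁ Q) := by
  unfold Et On
  rw [derivative_mul, map_add, map_mul, map_mul, map_mul]
  by_cases h1 : ee Q χ₁ = 0 <;> by_cases h2 : ee Q χ₂ = 0 <;> simp [h1, h2]
theorem jq_mul_left (h₁ : χ₁.Monic) (h₂ : χ₂.Monic) (h : Et χ₁ Q) (h' : ¬On χ₂ Q) :
    jq (χ₁ * χ₂) Q = jq χ₁ Q := by
  obtain ⟨h2, h3⟩ := hs_spec h₁ h
  unfold jq
  rw [hs_unique (h₁.mul h₂) (et_mul.2 (Or.inl ⟨h, h'⟩)) (by rw [eval₂_mul, h2, zero_mul]) h3]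
theorem van_zero : Van χ Q 0 G := by
  unfold Van; rw [pow_zero]; exact one_dvd _
theorem Van.mono (h : Van χ Q n G) (hk : k ≤ n) : Van χ Q k G := (pow_dvd_pow _ hk).trans h
theorem Van.add (h : Van χ Q n G) (h' : Van χ Q n G') : Van χ Q n (G + G') := by
  unfold Van; rw [map_add]; exact dvd_add h h'
theorem Van.sub (h : Van χ Q n G) (h' : Van χ Q n G') : Van χ Q n (G - G') := by
  unfold Van; rw [map_sub]; exact dvd_sub h h'
theorem Van.mul (h : Van χ Q n G) (h' : Van χ Q k G') : Van χ Q (n + k) (G * G') := by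
  unfold Van; rw [map_mul, pow_add]; exact mul_dvd_mul h h'
theorem Van.mul_left (h : Van χ Q n G) (G' : 𝕜[X][X]) : Van χ Q n (G' * G) := by
  unfold Van; rw [map_mul]; exact Dvd.dvd.mul_left h _
theorem Van.congr (hm : χ.Monic) (h : Et χ Q) (hd : χ ∣ G - G') (hv : Van χ Q n G) :
    Van χ Q n G' := by
  unfold Van; rw [← jq_congr hm h hd]; exact hv
theorem van_one (hm : χ.Monic) (h : Et χ Q) : Van χ Q 1 G ↔ ee Q G = 0 := by
  unfold Van; rw [pow_one, PowerSeries.X_dvd_iff, constantCoeff_jq hm h]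
theorem van_oq (χ : 𝕜[X][X]) (Q : 𝕜 × 𝕜) (G : 𝕜[X][X]) : Van χ Q (oq χ Q G) G := 
  PowerSeries.X_pow_order_dvd
theorem van_iff_le (h0 : jq χ Q G ≠ 0) : Van χ Q n G ↔ n ≤ oq χ Q G := by
  refine ⟨fun h => ?_, fun h => (van_oq χ Q G).mono h⟩
  by_contra hlt
  exact PowerSeries.coeff_order h0 (PowerSeries.X_pow_dvd_iff.1 h _ (not_le.1 hlt))
theorem oq_mul (h0 : jq χ Q G ≠ 0) (h1 : jq χ Q G' ≠ 0) :
    oq χ Q (G * G') = oq χ Q G + oq χ Q G' := by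
  unfold oq
  rw [map_mul, PowerSeries.order_mul, ENat.toNat_add (PowerSeries.order_finite_iff_ne_zero.2 h0).ne
    (PowerSeries.order_finite_iff_ne_zero.2 h1).ne]
theorem Van.cancel (h0 : jq χ Q G ≠ 0) (h : Van χ Q (oq χ Q G + n) (G * G')) : Van χ Q n G' := by
  by_cases h1 : jq χ Q G' = 0
  · unfold Van; rw [h1]; exact dvd_zero _
  · rw [van_iff_le (by rw [map_mul]; exact mul_ne_zero h0 h1), oq_mul h0 h1] at h
    exact (van_iff_le h1).2 (by omega)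
theorem oq_eq_zero (hm : χ.Monic) (h : Et χ Q) (h0 : ee Q G ≠ 0) :
    jq χ Q G ≠ 0 ∧ oq χ Q G = 0 := by
  have h1 : IsUnit (jq χ Q G) := by rw [cvh_unit, constantCoeff_jq hm h]; exact h0
  exact ⟨h1.ne_zero, by rw [oq, PowerSeries.order_zero_of_unit h1]; rfl⟩
theorem cvh_sh (t : 𝕜) : sh t (X - C t) = PowerSeries.X := by
  simp [sh]
theorem oq_C (χ : 𝕜[X][X]) (Q : 𝕜 × 𝕜) {u : 𝕜[X]} (hu : u ≠ 0) :
    jq χ Q (C u) ≠ 0 ∧ oq χ Q (C u) = u.rootMultiplicity Q.1 := by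
  obtain ⟨v, hv, hnd⟩ := exists_eq_pow_rootMultiplicity_mul_and_not_dvd u hu Q.1
  have h1 : IsUnit (sh Q.1 v) := by
    rw [cvh_unit, constantCoeff_sh]; exact fun h => hnd (dvd_iff_isRoot.2 h)
  have h2 : jq χ Q (C u) = PowerSeries.X ^ u.rootMultiplicity Q.1 * sh Q.1 v := by
    rw [jq_C]
    conv_lhs => rw [hv]
    rw [map_mul, map_pow, cvh_sh]
  refine ⟨by rw [h2]; exact mul_ne_zero (pow_ne_zero _ PowerSeries.X_ne_zero) h1.ne_zero, ?_⟩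
  rw [oq, h2, PowerSeries.order_mul, PowerSeries.order_X_pow, PowerSeries.order_zero_of_unit h1,
    add_zero, ENat.toNat_natCast]
theorem cvh_dvd (χ : 𝕜[X][X]) (Q : 𝕜 × 𝕜) {μ : 𝕜[X]} (hμ : μ ≠ 0) :
    PowerSeries.X ^ μ.rootMultiplicity Q.1 ∣ sh Q.1 μ := by
  have h := van_oq χ Q (C μ)
  rwa [(oq_C χ Q hμ).2, Van, jq_C] at h
/-- vanishing along a polynomial approximation of the branch -/
theorem van_of_dvd (hm : χ.Monic) (h : Et χ Q) {μ η : 𝕜[X]} (hμ : μ ≠ 0) (hη : η.eval Q.1 = Q.2)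
    (h0 : μ ∣ χ.eval η) (h1 : μ ∣ G.eval η) : Van χ Q (μ.rootMultiplicity Q.1) G := by
  have h2 : PowerSeries.X ^ μ.rootMultiplicity Q.1 ∣ sh Q.1 μ := cvh_dvd χ Q hμ
  have e : ∀ G : 𝕜[X][X], G.eval₂ (sh Q.1) (sh Q.1 η) = sh Q.1 (G.eval η) := fun G =>
    eval₂_at_apply _ _
  have h3 := hs_congr hm h (η := sh Q.1 η) (by rw [e]; exact h2.trans (map_dvd _ h0))
    (by rw [constantCoeff_sh, hη])
  have h4 : hs χ Q - sh Q.1 η ∣ jq χ Q G - sh Q.1 (G.eval η) := by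
    rw [← e, cvh_jq, ← eval_map, ← eval_map]; exact sub_dvd_eval_sub _ _ _
  have h5 := dvd_add (h3.trans h4) (h2.trans (map_dvd _ h1))
  rwa [sub_add_cancel] at h5
/-- vanishing on the other branches -/
theorem van_of_cofactor (hm : χ.Monic) (h : Et χ Q) {μ η : 𝕜[X]} (hμ : μ ≠ 0)
    (hη : η.eval Q.1 ≠ Q.2) (h0 : C μ ∣ χ - (X - C η) * χ₂) :
    Van χ Q (μ.rootMultiplicity Q.1) χ₂ := by
  have h2 := (cvh_dvd χ Q hμ).trans (jq_C χ Q μ ▸ map_dvd (jq χ Q) h0)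
  rw [map_sub, jq_self hm h, zero_sub, dvd_neg, map_mul] at h2
  refine (IsUnit.dvd_mul_left ?_).1 h2
  rw [cvh_unit, constantCoeff_jq hm h, map_sub, ee_X, ee_C]
  exact sub_ne_zero.2 hη.symm

end Pool.Agent.ZeroCyc
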