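import Pool.Agent.Lib.MP_796ce4_ag.ZY.FgA

/-! Parametrised formal groups. -/

namespace Pool.Agent.ZeroCyc

open Polynomial Module
open scoped Classical IntermediateField PowerSeries

set_option linter.unusedSectionVars false

/-- `p`-adic series in `x` converge in `H` -/
def PSer {V : Type} [AddCommGroup V] (p : ℕ) (H : AddSubgroup V) (x : V) : Prop :=
  ∀ c : ℕ → ℕ, ∃ y : ℕ → V, ∀ n, y n ∈ H ∧ y n = c n • x + p • y (n + 1)

/-- the properties of the points of a formal group inside `H` -/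
structure Nice {V : Type} [AddCommGroup V] (p : ℕ) (H : AddSubgroup V) (x : V) : Prop where
  mem : x ∈ H
  div : ∀ m, ¬p ∣ m → x ∈ mulS m H
  ser : PSer p H x

variable {L V σ : Type} [NormedField L] [IsUltrametricDist L] [CompleteSpace L] [AddCommGroup V]
  [Fintype σ]

/-- the image of the unit disc is closed under addition through a strictly differentiable law -/
def IsFG (ψ : (σ → L) → V) : Prop :=
  ψ 0 = 0 ∧ ∃ A : (σ → L) × (σ → L) → σ → L,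
    SD A (LinearMap.fst L (σ → L) (σ → L) + LinearMap.snd L (σ → L) (σ → L)) ∧
      ∀ z z', ‖z‖ < 1 → ‖z'‖ < 1 → ψ (A (z, z')) = ψ z + ψ z'

variable {ψ : (σ → L) → V} {z : σ → L}

theorem Nice.add {p : ℕ} {H : AddSubgroup V} {x y : V} (h : Nice p H x) (h' : Nice p H y) :
    Nice p H (x + y) := by
  refine ⟨H.add_mem h.mem h'.mem, fun m hm => (mulS m H).add_mem (h.div m hm) (h'.div m hm),
    fun c => ?_⟩
  obtain ⟨a, ha⟩ := h.ser c
  obtain ⟨b, hb⟩ := h'.ser c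
  refine ⟨fun n => a n + b n, fun n => ⟨H.add_mem (ha n).1 (hb n).1, ?_⟩⟩
  dsimp only
  rw [smul_add, smul_add, add_add_add_comm, ← (ha n).2, ← (hb n).2]
theorem Nice.neg {p : ℕ} {H : AddSubgroup V} {x : V} (h : Nice p H x) : Nice p H (-x) := by
  refine ⟨H.neg_mem h.mem, fun m hm => (mulS m H).neg_mem (h.div m hm), fun c => ?_⟩
  obtain ⟨a, ha⟩ := h.ser c
  refine ⟨fun n => -a n, fun n => ⟨H.neg_mem (ha n).1, ?_⟩⟩
  dsimp only
  rw [smul_neg, smul_neg, ← neg_add, ← (ha n).2]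
theorem nice_zero (p : ℕ) (H : AddSubgroup V) : Nice p H 0 :=
  ⟨H.zero_mem, fun m _ => (mulS m H).zero_mem, fun _ => ⟨fun _ => 0, fun _ => ⟨H.zero_mem, by simp⟩⟩⟩
theorem PSer.mono {p : ℕ} {H H' : AddSubgroup V} {x : V} (h : PSer p H x) (hH : H ≤ H') :
    PSer p H' x := fun c => by
  obtain ⟨a, ha⟩ := h c
  exact ⟨a, fun n => ⟨hH (ha n).1, (ha n).2⟩⟩

theorem fgb_ball {E : Type} [NormedAddCommGroup E] [IsUltrametricDist E] {g : E → E} {r θ : ℝ}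
    (h : ∀ x y, ‖x‖ ≤ r → ‖y‖ ≤ r → ‖g x - g y‖ ≤ θ * ‖x - y‖) (hr : 0 ≤ r) (hθ : θ ≤ 1)
    (h0 : ‖g 0‖ ≤ r) {x : E} (hx : ‖x‖ ≤ r) : ‖g x‖ ≤ r := by
  have h1 := h x 0 hx (by rwa [norm_zero])
  rw [sub_zero] at h1
  have h2 : θ * ‖x‖ ≤ r := (mul_le_of_le_one_left (norm_nonneg x) hθ).trans hx
  rw [← sub_add_cancel (g x) (g 0)]
  exact (IsUltrametricDist.norm_add_le_max _ _).trans (max_le (h1.trans h2) h0)

theorem fgb_pow {R : Type} [NormedCommRing R] [IsUltrametricDist R] {a b : R} {r : ℝ}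
    (ha : ‖a‖ ≤ r) (hb : ‖b‖ ≤ r) (n : ℕ) : ‖a ^ (n + 1) - b ^ (n + 1)‖ ≤ r ^ n * ‖a - b‖ := by
  have r0 : 0 ≤ r := (norm_nonneg a).trans ha
  induction n with
  | zero => simp
  | succ n ih =>
    have e : a ^ (n + 1 + 1) - b ^ (n + 1 + 1) =
        a * (a ^ (n + 1) - b ^ (n + 1)) + b ^ (n + 1) * (a - b) := by ring
    rw [e]
    refine (IsUltrametricDist.norm_add_le_max _ _).trans (max_le ?_ ?_)
    · refine (norm_mul_le _ _).trans ?_
      rw [pow_succ' r, mul_assoc]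
      exact mul_le_mul ha ih (norm_nonneg _) r0
    · refine (norm_mul_le _ _).trans (mul_le_mul_of_nonneg_right ?_ (norm_nonneg _))
      exact (norm_pow_le' b n.succ_pos).trans (pow_le_pow_left₀ (norm_nonneg _) hb _)

theorem fgb_seq {E : Type} [NormedAddCommGroup E] [IsUltrametricDist E] [CompleteSpace E]
    {T : ℕ → E → E} {r θ : ℝ} (hr : 0 ≤ r) (hθ0 : 0 ≤ θ) (hθ : θ < 1)
    (h0 : ∀ n x, ‖x‖ ≤ r → ‖T n x‖ ≤ r)
    (h : ∀ n x y, ‖x‖ ≤ r → ‖y‖ ≤ r → ‖T n x - T n y‖ ≤ θ * ‖x - y‖) :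
    ∃ y : ℕ → E, ∀ n, ‖y n‖ ≤ r ∧ y n = T n (y (n + 1)) := by
  have : IsUltrametricDist (BoundedContinuousFunction ℕ E) := ⟨fun f g k => by
    rw [BoundedContinuousFunction.dist_le (dist_nonneg.trans (le_max_left _ _))]
    intro n
    exact (IsUltrametricDist.dist_triangle_max _ (g n) _).trans (max_le_max
      (BoundedContinuousFunction.dist_coe_le_dist n) (BoundedContinuousFunction.dist_coe_le_dist n))⟩
  have hb : ∀ Y : BoundedContinuousFunction ℕ E, ‖Y‖ ≤ r → ∀ n, ‖Y n‖ ≤ r := fun Y hY n =>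
    (Y.norm_coe_le_norm n).trans hY
  have ex : ∀ Y : BoundedContinuousFunction ℕ E, ∃ Z : BoundedContinuousFunction ℕ E,
      ‖Y‖ ≤ r → ∀ n, Z n = T n (Y (n + 1)) := by
    intro Y
    by_cases hY : ‖Y‖ ≤ r
    · exact ⟨BoundedContinuousFunction.ofNormedAddCommGroupDiscrete (fun n => T n (Y (n + 1))) r
        fun n => h0 n _ (hb Y hY _), fun _ _ => rfl⟩
    · exact ⟨0, fun h' => absurd h' hY⟩
  choose g hg using ex
  obtain ⟨Y, hY, hf⟩ := exists_fixed_ball (g := g) hr hθ (fun Y hY => by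
    rw [BoundedContinuousFunction.norm_le hr]
    intro n
    rw [hg Y hY]
    exact h0 n _ (hb Y hY _)) (fun Y Z hY hZ => by
    rw [BoundedContinuousFunction.norm_le (mul_nonneg hθ0 (norm_nonneg _))]
    intro n
    rw [BoundedContinuousFunction.sub_apply, hg Y hY, hg Z hZ]
    refine (h n _ _ (hb Y hY _) (hb Z hZ _)).trans (mul_le_mul_of_nonneg_left ?_ hθ0)
    exact (Y - Z).norm_coe_le_norm (n + 1))
  exact ⟨Y, fun n => ⟨hb Y hY n, by rw [← hg Y hY, hf]⟩⟩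

theorem fgb_surj {ℓ : (σ → L) →ₗ[L] σ → L} (h : ∀ x, ‖ℓ x‖ = ‖x‖) : Function.Surjective ℓ := by
  refine LinearMap.surjective_of_injective ((injective_iff_map_eq_zero ℓ).2 fun x hx => ?_)
  rw [← norm_eq_zero, ← h, hx, norm_zero]

theorem IsFG.nsmul (h : IsFG ψ) (m : ℕ) : ∃ M : (σ → L) → σ → L,
    SD M ((m : L) • LinearMap.id (R := L) (M := σ → L)) ∧ ∀ z, ‖z‖ < 1 → ψ (M z) = m • ψ z := by
  obtain ⟨h0, A, hA, hψ⟩ := h
  have hid : SD (fun z : σ → L => z) (LinearMap.id (R := L) (M := σ → L)) :=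
    sd_linear (ℓ := LinearMap.id (R := L) (M := σ → L)) fun _ => le_rfl
  induction m with
  | zero =>
    refine ⟨fun _ => 0, (sd_linear (ℓ := (0 : (σ → L) →ₗ[L] σ → L)) fun x => ?_).congr
      (fun _ _ => rfl) (by simp), fun z _ => by rw [h0, zero_smul]⟩
    simp
  | succ m ih =>
    obtain ⟨M, hM, hMψ⟩ := ih
    refine ⟨fun z => A (M z, z), (hA.comp (hM.prod hid)).congr (fun _ _ => rfl) ?_, fun z hz => ?_⟩
    · refine LinearMap.ext fun x => ?_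
      simp [add_smul]
    · rw [hψ _ _ ((hM.norm_le hz).trans_lt hz) hz, hMψ z hz, succ_nsmul]
theorem IsFG.div (h : IsFG ψ) {m : ℕ} (hm : ‖(m : L)‖ = 1) (hz : ‖z‖ < 1) :
    ∃ w, ‖w‖ < 1 ∧ ψ z = m • ψ w := by
  obtain ⟨M, hM, hMψ⟩ := h.nsmul m
  have hm0 : (m : L) ≠ 0 := by
    intro h0
    rw [h0, norm_zero] at hm
    exact zero_ne_one hm
  obtain ⟨g, _, hg, -, -, h1, -⟩ := hM.inverse (fun x => by simp [norm_smul, hm])
    fun x => ⟨(m : L)⁻¹ • x, by simp [smul_smul, inv_mul_cancel₀ hm0]⟩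
  have h2 := (hg.norm_le hz).trans_lt hz
  exact ⟨g z, h2, by rw [← hMψ _ h2, h1 z hz]⟩
theorem IsFG.div_small (h : IsFG ψ) {m : ℕ} (hz : ‖z‖ < ‖(m : L)‖ ^ 2) :
    ∃ w, ‖w‖ < 1 ∧ ψ z = m • ψ w := by
  obtain ⟨M, hM, hMψ⟩ := h.nsmul m
  have hm1 : ‖(m : L)‖ ≤ 1 := IsUltrametricDist.norm_natCast_le_one L m
  have hz0 := norm_nonneg z
  have hm0 : (m : L) ≠ 0 := by
    intro h0
    rw [h0, norm_zero] at hz
    linarith [show (0 : ℝ) ^ 2 = 0 by norm_num]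
  have hp : 0 < ‖(m : L)‖ := norm_pos_iff.2 hm0
  obtain ⟨r, hr⟩ : ∃ r : ℝ, r = ‖z‖ / ‖(m : L)‖ := ⟨_, rfl⟩
  have r0 : 0 ≤ r := by rw [hr]; positivity
  have r1 : r < ‖(m : L)‖ := by rw [hr, div_lt_iff₀ hp, ← pow_two]; exact hz
  have r2 : r < 1 := r1.trans_le hm1
  have key : ∀ x y : σ → L, ‖x‖ ≤ r → ‖y‖ ≤ r →
      ‖(x - (m : L)⁻¹ • (M x - z)) - (y - (m : L)⁻¹ • (M y - z))‖ ≤ r / ‖(m : L)‖ * ‖x - y‖ := by
    intro x y hx hy
    have h1 := hM.est x y (hx.trans_lt r2) (hy.trans_lt r2)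
    have e : (x - (m : L)⁻¹ • (M x - z)) - (y - (m : L)⁻¹ • (M y - z)) =
        -((m : L)⁻¹ • (M x - M y - ((m : L) • LinearMap.id (R := L) (M := σ → L)) (x - y))) := by
      simp only [LinearMap.smul_apply, LinearMap.id_apply, smul_sub, smul_smul, inv_mul_cancel₀ hm0,
        one_smul]
      abel
    rw [e, norm_neg, norm_smul, norm_inv, div_eq_inv_mul, mul_assoc]
    refine mul_le_mul_of_nonneg_left (h1.trans ?_) (by positivity)
    exact mul_le_mul_of_nonneg_right (max_le hx hy) (norm_nonneg _)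
  have t1 : r / ‖(m : L)‖ < 1 := (div_lt_one hp).2 r1
  obtain ⟨w, hw, hf⟩ := exists_fixed_ball (g := fun x => x - (m : L)⁻¹ • (M x - z)) r0 t1
    (fun x hx => fgb_ball key r0 t1.le (by
      rw [hM.zero, zero_sub, zero_sub, norm_neg, norm_smul, norm_neg, norm_inv, hr, div_eq_inv_mul])
      hx) key
  have h2 : M w = z := by
    have h3 : (m : L)⁻¹ • (M w - z) = 0 := sub_eq_self.1 hf
    exact sub_eq_zero.1 ((smul_eq_zero.1 h3).resolve_left (inv_ne_zero hm0))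
  exact ⟨w, hw.trans_lt r2, by rw [← hMψ _ (hw.trans_lt r2), h2]⟩
theorem IsFG.pser (h : IsFG ψ) {p : ℕ} (hp : ‖(p : L)‖ < 1) (hz : ‖z‖ < 1) (c : ℕ → ℕ) :
    ∃ y : ℕ → σ → L, ∀ n, ‖y n‖ < 1 ∧ ψ (y n) = c n • ψ z + p • ψ (y (n + 1)) := by
  choose M hM hMψ using h.nsmul
  obtain ⟨-, A, hA, hψ⟩ := h
  have n1 : ∀ n (x : σ → L), ‖x‖ ≤ ‖z‖ → ‖M n x‖ ≤ ‖z‖ := fun n x hx =>
    ((hM n).norm_le (hx.trans_lt hz)).trans hx
  have n2 : ∀ n (x : σ → L), ‖x‖ ≤ ‖z‖ → ‖(M n z, M p x)‖ ≤ ‖z‖ := fun n x hx => by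
    rw [Prod.norm_def]
    exact max_le (n1 _ _ le_rfl) (n1 _ _ hx)
  obtain ⟨y, hy⟩ := fgb_seq (T := fun n x => A (M (c n) z, M p x)) (r := ‖z‖)
    (θ := max ‖z‖ ‖(p : L)‖) (norm_nonneg z) ((norm_nonneg z).trans (le_max_left _ _))
    (max_lt hz hp) (fun n x hx => (hA.norm_le ((n2 _ x hx).trans_lt hz)).trans (n2 _ x hx)) (by
      intro n x x' hx hx'
      refine (hA.lip ((n2 _ x hx).trans_lt hz) ((n2 _ x' hx').trans_lt hz)).trans ?_
      rw [Prod.mk_sub_mk, sub_self, Prod.norm_def, norm_zero, max_eq_right (norm_nonneg _)]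
      have h1 := (hM p).est x x' (hx.trans_lt hz) (hx'.trans_lt hz)
      have e : M p x - M p x' = (M p x - M p x' -
          ((p : L) • LinearMap.id (R := L) (M := σ → L)) (x - x')) + (p : L) • (x - x') := by
        simp
      rw [e]
      refine (IsUltrametricDist.norm_add_le_max _ _).trans (max_le (h1.trans ?_) ?_)
      · exact mul_le_mul_of_nonneg_right ((max_le hx hx').trans (le_max_left _ _)) (norm_nonneg _)
      · rw [norm_smul]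
        exact mul_le_mul_of_nonneg_right (le_max_right _ _) (norm_nonneg _))
  refine ⟨y, fun n => ⟨(hy n).1.trans_lt hz, ?_⟩⟩
  rw [(hy n).2, hψ _ _ ((n1 _ _ le_rfl).trans_lt hz) ((n1 _ _ (hy (n + 1)).1).trans_lt hz),
    hMψ _ _ hz, hMψ _ _ ((hy (n + 1)).1.trans_lt hz)]
theorem IsFG.lang (h : IsFG ψ) {q : ℕ} (hq : 2 ≤ q) (hz : ‖z‖ < 1) :
    ∃ w, ‖w‖ < 1 ∧ ψ (fun i => w i ^ q) = ψ w + ψ z := by
  obtain ⟨-, A, hA, hψ⟩ := h
  obtain ⟨n, rfl⟩ : ∃ n, q = n + 1 + 1 := ⟨q - 2, by omega⟩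
  have r0 := norm_nonneg z
  have n2 : ∀ x : σ → L, ‖x‖ ≤ ‖z‖ → ‖(x, z)‖ ≤ ‖z‖ := fun x hx => by
    rw [Prod.norm_def]
    exact max_le hx le_rfl
  have key : ∀ x y : σ → L, ‖x‖ ≤ ‖z‖ → ‖y‖ ≤ ‖z‖ →
      ‖(x ^ (n + 1 + 1) - A (x, z) + x) - (y ^ (n + 1 + 1) - A (y, z) + y)‖ ≤ ‖z‖ * ‖x - y‖ := by
    intro x y hx hy
    have h1 := hA.est (x, z) (y, z) ((n2 x hx).trans_lt hz) ((n2 y hy).trans_lt hz)
    have h2 : ‖((x, z) : (σ → L) × (σ → L)) - (y, z)‖ = ‖x - y‖ := by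
      rw [Prod.mk_sub_mk, sub_self, Prod.norm_def, norm_zero, max_eq_left (norm_nonneg _)]
    rw [h2] at h1
    have e : (x ^ (n + 1 + 1) - A (x, z) + x) - (y ^ (n + 1 + 1) - A (y, z) + y) =
        (x ^ (n + 1 + 1) - y ^ (n + 1 + 1)) + -(A (x, z) - A (y, z) -
          (LinearMap.fst L (σ → L) (σ → L) + LinearMap.snd L (σ → L) (σ → L)) ((x, z) - (y, z))) := by
      simp only [Prod.mk_sub_mk, LinearMap.add_apply, LinearMap.fst_apply, LinearMap.snd_apply]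
      abel
    rw [e]
    refine (IsUltrametricDist.norm_add_le_max _ _).trans (max_le ((fgb_pow hx hy _).trans ?_) ?_)
    · refine mul_le_mul_of_nonneg_right ?_ (norm_nonneg _)
      exact pow_le_of_le_one r0 hz.le (by omega)
    · rw [norm_neg]
      exact h1.trans (mul_le_mul_of_nonneg_right (max_le (n2 x hx) (n2 y hy)) (norm_nonneg _))
  obtain ⟨w, hw, hf⟩ := exists_fixed_ball (g := fun x => x ^ (n + 1 + 1) - A (x, z) + x) r0 hz
    (fun x hx => fgb_ball key r0 hz.le (by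
      rw [pow_succ, mul_zero, zero_sub, add_zero, norm_neg]
      exact (hA.norm_le ((n2 0 (by simp)).trans_lt hz)).trans (n2 0 (by simp))) hx) key
  have h2 : w ^ (n + 1 + 1) = A (w, z) := sub_eq_zero.1 (add_eq_right.1 hf)
  refine ⟨w, hw.trans_lt hz, ?_⟩
  rw [← hψ _ _ (hw.trans_lt hz) hz, ← h2]
  rfl
theorem IsFG.nice (h : IsFG ψ) {p : ℕ} (hp : ‖(p : L)‖ < 1)
    (hm : ∀ m : ℕ, ¬p ∣ m → ‖(m : L)‖ = 1) {H : AddSubgroup V} (hH : ∀ w, ‖w‖ < 1 → ψ w ∈ H)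
    (hz : ‖z‖ < 1) : Nice p H (ψ z) ∧ (‖z‖ < ‖(p : L)‖ ^ 2 → ψ z ∈ mulS p H) := by
  refine ⟨⟨hH z hz, fun m hpm => ?_, fun c => ?_⟩, fun hs => ?_⟩
  · obtain ⟨w, hw, e⟩ := h.div (hm m hpm) hz
    exact ⟨ψ w, hH w hw, e.symm⟩
  · obtain ⟨y, hy⟩ := h.pser hp hz c
    exact ⟨fun n => ψ (y n), fun n => ⟨hH _ (hy n).1, (hy n).2⟩⟩
  · obtain ⟨w, hw, e⟩ := h.div_small hs
    exact ⟨ψ w, hH w hw, e.symm⟩

/-- the group law from a three-term relation -/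
theorem isFG_of_rel {ψ₁ ψ₂ ψ₃ : (σ → L) → V} (h₁ : ψ₁ 0 = 0) (h₂ : ψ₂ 0 = 0)
    {Φ : (σ → L) × (σ → L) → σ → L} {ℓ : ((σ → L) × (σ → L)) →ₗ[L] σ → L} (hΦ : SD Φ ℓ)
    (i₁ : ∀ x, ‖ℓ (x, 0)‖ = ‖x‖) (i₂ : ∀ x, ‖ℓ (0, x)‖ = ‖x‖)
    (h : ∀ z z', ‖z‖ < 1 → ‖z'‖ < 1 → ψ₁ z + ψ₂ z' + ψ₃ (Φ (z, z')) = 0) :
    IsFG ψ₁ ∧ ∀ w, ‖w‖ < 1 → ∃ z, ‖z‖ ≤ ‖w‖ ∧ ψ₁ z = -ψ₃ w := by
  have s1 : SD (fun z : σ → L => Φ (z, 0)) (ℓ ∘ₗ LinearMap.inl L (σ → L) (σ → L)) :=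
    hΦ.comp (sd_linear (ℓ := LinearMap.inl L (σ → L) (σ → L)) fun x => by simp)
  have s2 : SD (fun z : σ → L => Φ (0, z)) (ℓ ∘ₗ LinearMap.inr L (σ → L) (σ → L)) :=
    hΦ.comp (sd_linear (ℓ := LinearMap.inr L (σ → L) (σ → L)) fun x => by simp)
  obtain ⟨g₁, m₁, hg₁, -, a₁, b₁, -⟩ := s1.inverse i₁ (fgb_surj i₁)
  obtain ⟨g₂, m₂, hg₂, a₂, -, b₂, -⟩ := s2.inverse i₂ (fgb_surj i₂)
  have z1 : ‖(0 : σ → L)‖ < 1 := by simp
  have e1 : ∀ w, ‖w‖ < 1 → ψ₁ (g₁ w) = -ψ₃ w := by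
    intro w hw
    have h3 := h (g₁ w) 0 ((hg₁.norm_le hw).trans_lt hw) z1
    rw [h₂, add_zero, b₁ w hw] at h3
    exact eq_neg_of_add_eq_zero_left h3
  have e2 : ∀ w, ‖w‖ < 1 → ψ₂ (g₂ w) = -ψ₃ w := by
    intro w hw
    have h3 := h 0 (g₂ w) z1 ((hg₂.norm_le hw).trans_lt hw)
    rw [h₁, zero_add, b₂ w hw] at h3
    exact eq_neg_of_add_eq_zero_left h3
  refine ⟨⟨h₁, fun x => g₁ (Φ (x.1, g₂ (Φ (x.2, 0)))), ?_, fun z z' hz hz' => ?_⟩,
    fun w hw => ⟨g₁ w, hg₁.norm_le hw, e1 w hw⟩⟩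
  · have f1 : SD (fun x : (σ → L) × (σ → L) => x.1) (LinearMap.fst L (σ → L) (σ → L)) :=
      sd_linear (ℓ := LinearMap.fst L (σ → L) (σ → L)) fun x => norm_fst_le x
    have f2 : SD (fun x : (σ → L) × (σ → L) => x.2) (LinearMap.snd L (σ → L) (σ → L)) :=
      sd_linear (ℓ := LinearMap.snd L (σ → L) (σ → L)) fun x => norm_snd_le x
    refine (hg₁.comp (hΦ.comp (f1.prod (hg₂.comp (s1.comp f2))))).congr (fun _ _ => rfl) ?_
    refine LinearMap.ext fun x => ?_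
    have k1 : m₁ (ℓ (x.1 + x.2, 0)) = x.1 + x.2 := a₁ (x.1 + x.2)
    have k2 : ℓ (0, m₂ (ℓ (x.2, 0))) = ℓ (x.2, 0) := a₂ (ℓ (x.2, 0))
    change x.1 + x.2 = m₁ (ℓ (x.1, m₂ (ℓ (x.2, 0))))
    rw [← k1]
    have k3 : ((x.1, m₂ (ℓ (x.2, 0))) : (σ → L) × (σ → L)) = (x.1, 0) + (0, m₂ (ℓ (x.2, 0))) := by
      simp
    have k4 : ((x.1 + x.2, 0) : (σ → L) × (σ → L)) = (x.1, 0) + (x.2, 0) := by simp
    rw [k3, k4, map_add ℓ, map_add ℓ, k2]
  · have n1 : ‖Φ (z', 0)‖ < 1 := (s1.norm_le hz').trans_lt hz'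
    have n2 : ‖g₂ (Φ (z', 0))‖ < 1 := (hg₂.norm_le n1).trans_lt n1
    have n3 : ‖((z, g₂ (Φ (z', 0))) : (σ → L) × (σ → L))‖ < 1 := by
      rw [Prod.norm_def]
      exact max_lt hz n2
    have n4 := (hΦ.norm_le n3).trans_lt n3
    have h3 := h z _ hz n2
    have h4 := h z' 0 hz' z1
    rw [h₂, add_zero] at h4
    rw [e2 _ n1, ← eq_neg_of_add_eq_zero_left h4] at h3
    dsimp only
    rw [e1 _ n4]
    exact (eq_neg_of_add_eq_zero_left h3).symm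

/-- the field of Laurent series as a normed field -/
theorem exists_normed_laurent (κ : Type) [Field κ] : ∃ (L : Type) (_ : NormedField L)
    (_ : IsUltrametricDist L) (_ : CompleteSpace L) (ι : κ⟦X⟧ →+* L), Function.Injective ι ∧
      (∀ x, ‖x‖ ≤ 1 ↔ x ∈ ι.range) ∧
        ∀ f, PowerSeries.constantCoeff f = 0 ↔ ‖ι f‖ < 1 := by
  have hv : (Valued.v : Valuation (LaurentSeries κ) (WithZero (Multiplicative ℤ))).RankOne :=
    { hom' := (WithZeroMulInt.toNNReal (e := 2) two_ne_zero).comp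
        MonoidWithZeroHom.ValueGroup₀.embedding
      strictMono' := (WithZeroMulInt.toNNReal_strictMono (e := 2) one_lt_two).comp
        MonoidWithZeroHom.ValueGroup₀.embedding_strictMono
      exists_val_nontrivial := by
        obtain ⟨x, hx⟩ := LaurentSeries.valuation_surjective κ (WithZero.exp 1)
        refine ⟨x, ?_, ?_⟩
        · rw [hx]
          exact WithZero.exp_ne_zero
        · rw [hx, ← WithZero.exp_zero]
          exact fun h => one_ne_zero (WithZero.exp_injective h) }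
  refine ⟨LaurentSeries κ, Valued.toNormedField _ (WithZero (Multiplicative ℤ)),
    Valued.instIsUltrametricDist _ (WithZero (Multiplicative ℤ)),
    LaurentSeries.instLaurentSeriesComplete, HahnSeries.ofPowerSeries ℤ κ,
    HahnSeries.ofPowerSeries_injective, fun x => ?_, fun f => ?_⟩
  · rw [Valued.toNormedField.norm_le_one_iff, LaurentSeries.val_le_one_iff_eq_coe]
    rfl
  · rw [Valued.toNormedField.norm_lt_one_iff]
    have h := LaurentSeries.intValuation_le_iff_coeff_lt_eq_zero κ (d := 1) f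
    have h2 : ∀ a : WithZero (Multiplicative ℤ), a < 1 ↔ a ≤ WithZero.exp (-((1 : ℕ) : ℤ)) := by
      intro a
      rw [← WithZero.exp_zero, ← WithZero.lt_mul_exp_iff_le WithZero.exp_ne_zero, ← WithZero.exp_add]
      simp
    rw [h2, h]
    constructor
    · intro h0 n hn
      obtain rfl : n = 0 := by omega
      simpa using h0
    · intro h0
      simpa using h0 0 one_pos

end Pool.Agent.ZeroCyc
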