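import Pool.Agent.Lib.MP_796ce4_ag.ZY.CvI

/-! Riemann-Roch. -/

namespace Pool.Agent.ZeroCyc

open Polynomial Module
open scoped Classical IntermediateField PowerSeries

set_option linter.unusedSectionVars false

theorem cvj_degree_nonneg {A : Type} {Z : A →₀ ℤ} (h0 : 0 ≤ Z) : 0 ≤ Z.degree := by
  rw [Finsupp.degree_apply]
  exact Finset.sum_nonneg fun i _ => h0 i

theorem cvj_single_nonneg {A : Type} (Q : A) : (0 : A →₀ ℤ) ≤ Finsupp.single Q 1 := fun Q' => by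
  rw [Finsupp.single_apply]
  split_ifs <;> simp

theorem cvj_induction {A : Type} (p : (A →₀ ℤ) → Prop) (h0 : p 0)
    (hs : ∀ Z Q, 0 ≤ Z → p Z → p (Z + Finsupp.single Q 1)) (Z : A →₀ ℤ) (hZ : 0 ≤ Z) : p Z := by
  obtain ⟨n, hn⟩ : ∃ n : ℕ, Z.degree = n := ⟨_, (Int.toNat_of_nonneg (cvj_degree_nonneg hZ)).symm⟩
  induction n generalizing Z with
  | zero =>
    have : (0 : A →₀ ℤ) = Z := eq_of_le_of_degree hZ (by simp [hn])
    exact this ▸ h0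
  | succ n ih =>
    have hne : Z ≠ 0 := by
      rintro rfl
      rw [map_zero] at hn
      omega
    obtain ⟨Q, hQ⟩ := Finsupp.ne_iff.1 hne
    have hQ' : Z Q ≠ 0 := hQ
    have h1 : 0 ≤ Z - Finsupp.single Q 1 := fun Q' => by
      have h2 : 0 ≤ Z Q' := hZ Q'
      rw [Finsupp.sub_apply, Finsupp.single_apply]
      change (0 : ℤ) ≤ _
      split_ifs with h
      · subst h; omega
      · omega
    have := hs _ Q h1 (ih _ h1 (by rw [map_sub, hn, Finsupp.degree_single]; push_cast; ring))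
    rwa [sub_add_cancel] at this

theorem cvj_finrank_le {K M : Type} [Field K] [AddCommGroup M] [Module K M] (V W : Submodule K M)
    [FiniteDimensional K V] [FiniteDimensional K W] (l : M →ₗ[K] K)
    (h : ∀ a ∈ V, l a = 0 → a ∈ W) : finrank K V ≤ finrank K W + 1 := by
  have h1 := LinearMap.finrank_range_add_finrank_ker (l.domRestrict V)
  have h2 : finrank K (LinearMap.range (l.domRestrict V)) ≤ 1 := by
    simpa using Submodule.finrank_le (LinearMap.range (l.domRestrict V))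
  have h3 : finrank K ((LinearMap.ker (l.domRestrict V)).map V.subtype) ≤ finrank K W := by
    refine Submodule.finrank_mono ?_
    rintro _ ⟨a, ha, rfl⟩
    exact h a a.2 ha
  rw [Submodule.finrank_map_subtype_eq] at h3
  omega

variable {𝕜 : Type} [Field 𝕜] [IsAlgClosed 𝕜] {c : Cv 𝕜} {m : ℕ} {Z : 𝕜 × 𝕜 →₀ ℤ}

/-- a coefficient of the expansion -/
noncomputable def cvj_coef (χ : 𝕜[X][X]) (Q : 𝕜 × 𝕜) (n : ℕ) : 𝕜[X][X] →ₗ[𝕜] 𝕜 where
  toFun a := PowerSeries.coeff n (jq χ Q a)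
  map_add' a a' := by rw [map_add, map_add]
  map_smul' r a := by
    have : r • a = C (C r) * a := by rw [Algebra.smul_def]; rfl
    rw [this, map_mul, jq_C, sh, coe_eval₂RingHom, eval₂_C, PowerSeries.coeff_C_mul]
    rfl

theorem cvj_van_succ {χ a : 𝕜[X][X]} {Q : 𝕜 × 𝕜} {n : ℕ} (h : Van χ Q n a)
    (h' : cvj_coef χ Q n a = 0) : Van χ Q (n + 1) a := by
  unfold Van at h ⊢
  rw [PowerSeries.X_pow_dvd_iff] at h ⊢
  intro k hk
  rcases Nat.lt_succ_iff_lt_or_eq.1 hk with h1 | rfl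
  · exact h k h1
  · exact h'

theorem cvj_van_dvd {χ a a' : 𝕜[X][X]} {Q : 𝕜 × 𝕜} {n : ℕ} (h : Van χ Q n a) (hd : a ∣ a') :
    Van χ Q n a' := by
  obtain ⟨g, rfl⟩ := hd
  rw [mul_comm]
  exact h.mul_left g

theorem cvj_van_pow {χ a : 𝕜[X][X]} {Q : 𝕜 × 𝕜} (h : Van χ Q 1 a) (n : ℕ) :
    Van χ Q n (a ^ n) := by
  induction n with
  | zero => exact van_zero
  | succ n ih => rw [pow_succ]; exact ih.mul h

theorem cvj_vanZ_van {χ a : 𝕜[X][X]} (h : VanZ χ Z a) (Q : 𝕜 × 𝕜) : Van χ Q (Z Q).toNat a := by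
  by_cases hQ : Z Q = 0
  · rw [hQ]; exact van_zero
  · exact (h Q hQ).2

theorem cvj_dvd_mod {χ : 𝕜[X][X]} (a : 𝕜[X][X]) : χ ∣ a %ₘ χ - a :=
  ⟨-(a /ₘ χ), by linear_combination modByMonic_add_div a χ⟩

theorem cvj_deg_mod {b δ : ℕ} {χ : 𝕜[X][X]} (hχ : Wt b δ χ) (a : 𝕜[X][X]) :
    (a %ₘ χ).degree < δ := by
  have := degree_modByMonic_lt a hχ.monic
  rwa [degree_eq_natDegree hχ.monic.ne_zero, hχ.deg] at this

theorem cvj_indep {b δ : ℕ} {χ v : 𝕜[X][X]} (hχ : Wt b δ χ) (hi : Irreducible χ) (hv : v ≠ 0)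
    (hd : v.degree < δ) :
    LinearIndependent 𝕜[X] fun i : Fin δ => (v * X ^ (i : ℕ)) %ₘ χ := by
  have hdeg : χ.degree = δ := by rw [degree_eq_natDegree hχ.monic.ne_zero, hχ.deg]
  rw [Fintype.linearIndependent_iff]
  intro g hg j
  have h1 : χ ∣ ∑ i : Fin δ, C (g i) * ((v * X ^ (i : ℕ)) %ₘ χ - v * X ^ (i : ℕ)) :=
    Finset.dvd_sum fun i _ => (cvj_dvd_mod _).mul_left _
  have h2 : ∑ i : Fin δ, C (g i) * ((v * X ^ (i : ℕ)) %ₘ χ - v * X ^ (i : ℕ)) =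
      -(v * ∑ i : Fin δ, C (g i) * X ^ (i : ℕ)) := by
    simp only [smul_eq_C_mul] at hg
    simp only [mul_sub, Finset.sum_sub_distrib, hg, zero_sub, Finset.mul_sum]
    exact congrArg Neg.neg (Finset.sum_congr rfl fun i _ => by ring)
  rw [h2] at h1
  rcases hi.prime.dvd_or_dvd (dvd_neg.1 h1) with h3 | h3
  · exact absurd (eq_zero_of_dvd_of_degree_lt h3 (hdeg ▸ hd)) hv
  · have h4 := eq_zero_of_dvd_of_degree_lt h3 (hdeg ▸ degree_sum_fin_lt g)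
    have h5 := congrArg (fun f => coeff f (j : ℕ)) h4
    simpa [finsetSum_coeff, coeff_C_mul, coeff_X_pow, Fin.val_inj] using h5

namespace Cv

theorem cvj_mem_Vs {a : 𝕜[X][X]} :
    a ∈ c.Vs m Z ↔ a ∈ Wsp c.b c.δ c.w m ∧ ∀ Q, Van c.χ Q (Z Q).toNat a := by
  refine ⟨fun h => ⟨h.1, fun Q => ?_⟩, fun h => ⟨h.1, fun Q _ => h.2 Q⟩⟩
  by_cases hQ : Z Q = 0
  · rw [hQ]; exact van_zero
  · exact h.2 Q hQ

theorem cvj_Vs_zero (c : Cv 𝕜) (m : ℕ) : c.Vs m 0 = Wsp c.b c.δ c.w m := by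
  ext a
  exact ⟨fun h => h.1, fun h => ⟨h, fun _ hQ => absurd rfl hQ⟩⟩

theorem cvj_vanZ (hZ : Z ∈ c.Dv) {a : 𝕜[X][X]} (h : ∀ Q, Van c.χ Q (Z Q).toNat a) :
    VanZ c.χ Z a := fun Q hQ => ⟨(hZ Q hQ).et, h Q⟩

theorem Vs_finite (c : Cv 𝕜) (m : ℕ) (Z : 𝕜 × 𝕜 →₀ ℤ) : FiniteDimensional 𝕜 (c.Vs m Z) :=
  haveI := Wsp_finite (𝕜 := 𝕜) c.b c.δ c.w m
  Submodule.finiteDimensional_of_le (S₂ := Wsp c.b c.δ c.w m) fun _ h => h.1

theorem Vs_anti {Z' : 𝕜 × 𝕜 →₀ ℤ} (h : Z ≤ Z') : c.Vs m Z' ≤ c.Vs m Z := fun _ ha => by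
  rw [cvj_mem_Vs] at ha ⊢
  exact ⟨ha.1, fun Q => (ha.2 Q).mono (Int.toNat_le_toNat (h Q))⟩

theorem cvj_toNat_succ (h0 : 0 ≤ Z) (Q : 𝕜 × 𝕜) :
    ((Z + Finsupp.single Q 1 : 𝕜 × 𝕜 →₀ ℤ) Q).toNat = (Z Q).toNat + 1 := by
  have : 0 ≤ Z Q := h0 Q
  rw [Finsupp.add_apply, Finsupp.single_eq_same]
  omega

theorem finrank_Vs_succ (h0 : 0 ≤ Z) (Q : 𝕜 × 𝕜) :
    finrank 𝕜 (c.Vs m Z) ≤ finrank 𝕜 (c.Vs m (Z + Finsupp.single Q 1)) + 1 := by
  have := c.Vs_finite m Z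
  have := c.Vs_finite m (Z + Finsupp.single Q 1)
  refine cvj_finrank_le _ _ (cvj_coef c.χ Q (Z Q).toNat) fun a ha h => ?_
  rw [cvj_mem_Vs] at ha ⊢
  refine ⟨ha.1, fun Q' => ?_⟩
  by_cases hQ : Q' = Q
  · subst hQ
    rw [cvj_toNat_succ h0]
    exact cvj_van_succ (ha.2 _) h
  · rw [Finsupp.add_apply, Finsupp.single_eq_of_ne hQ, add_zero]
    exact ha.2 _

theorem le_finrank_Vs (h0 : 0 ≤ Z) :
    (c.δ * m : ℤ) ≤ finrank 𝕜 (c.Vs m Z) + c.g0 + Z.degree := by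
  refine cvj_induction
    (fun Z => (c.δ * m : ℤ) ≤ finrank 𝕜 (c.Vs m Z) + c.g0 + Z.degree) ?_ ?_ Z h0
  · rw [cvj_Vs_zero, map_zero, add_zero]
    exact_mod_cast le_finrank_Wsp
  · intro Z Q hZ ih
    have := finrank_Vs_succ (c := c) (m := m) hZ Q
    rw [map_add, Finsupp.degree_single]
    omega

/-- a function with prescribed exact order at one point -/
theorem exists_exact (hZ : Z ∈ c.Dv) (h0 : 0 ≤ Z) {Q : 𝕜 × 𝕜} (hQ : c.Gp Q) :
    ∃ a : 𝕜[X][X], VanZ c.χ Z a ∧ ¬Van c.χ Q ((Z Q).toNat + 1) a := by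
  have hm := c.wt.monic
  have hg : ∀ Q' : 𝕜 × 𝕜, ∃ g : 𝕜[X][X], ee Q' g = 0 ∧ (Q' ≠ Q → ee Q g ≠ 0) := fun Q' => by
    by_cases h : Q'.1 = Q.1
    · refine ⟨X - C (C Q'.2), by simp [ee_X, ee_C], fun hne h2 => hne (Prod.ext h ?_)⟩
      rw [map_sub, ee_X, ee_C, eval_C, sub_eq_zero] at h2
      exact h2.symm
    · refine ⟨C (X - C Q'.1), by rw [ee_C]; simp, fun _ h2 => h ?_⟩
      rw [ee_C, eval_sub, eval_X, eval_C, sub_eq_zero] at h2
      exact h2.symm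
  choose g hg0 hg1 using hg
  set h : 𝕜[X][X] := ∏ Q' ∈ Z.support.erase Q, g Q' ^ (Z Q').toNat with hh
  have hh0 : ee Q h ≠ 0 := by
    rw [hh, map_prod]
    refine Finset.prod_ne_zero_iff.2 fun Q' hQ' => ?_
    rw [map_pow]
    exact pow_ne_zero _ (hg1 Q' (Finset.ne_of_mem_erase hQ'))
  obtain ⟨h1, h2⟩ := oq_eq_zero hm hQ.et hh0
  obtain ⟨h3, h4⟩ := oq_C c.χ Q (u := (X - C Q.1) ^ (Z Q).toNat)
    (pow_ne_zero _ (X_sub_C_ne_zero _))
  rw [rootMultiplicity_X_sub_C_pow] at h4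
  have h5 : jq c.χ Q (C ((X - C Q.1) ^ (Z Q).toNat) * h) ≠ 0 := by
    rw [map_mul]; exact mul_ne_zero h3 h1
  have h6 := oq_mul h3 h1
  refine ⟨C ((X - C Q.1) ^ (Z Q).toNat) * h, fun Q' hQ' => ⟨(hZ Q' hQ').et, ?_⟩, ?_⟩
  · by_cases e : Q' = Q
    · subst e
      rw [van_iff_le h5]
      omega
    · refine Van.mul_left (cvj_van_dvd (cvj_van_pow ((van_one hm (hZ Q' hQ').et).2 (hg0 Q')) _) ?_) _
      exact Finset.dvd_prod_of_mem (fun Q' => g Q' ^ (Z Q').toNat)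
        (Finset.mem_erase.2 ⟨e, Finsupp.mem_support_iff.2 hQ'⟩)
  · rw [van_iff_le h5]
    omega

theorem cvj_bound (h0 : 0 ≤ Z) (hd : Z.degree + c.c0 ≤ c.δ * m) : c.w + c.b * c.δ ≤ m := by
  have h1 := cvj_degree_nonneg h0
  have h2 : c.c0 ≤ c.δ * m := by
    have : (c.c0 : ℤ) ≤ c.δ * m := by omega
    exact_mod_cast this
  unfold c0 cst at h2
  by_contra h3
  push Not at h3
  have h4 : c.δ * m ≤ c.δ * (c.w + c.b * c.δ) := Nat.mul_le_mul_left _ h3.le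
  nlinarith [Nat.zero_le (c.b * c.δ ^ 2)]

/-- functions vanishing along `Z` -/
def cvj_N (hZ : Z ∈ c.Dv) : Submodule 𝕜[X] 𝕜[X][X] where
  carrier := {a | VanZ c.χ Z a}
  zero_mem' := fun Q hQ => ⟨(hZ Q hQ).et, by simp [Van]⟩
  add_mem' := fun h h' Q hQ => ⟨(hZ Q hQ).et, (h Q hQ).2.add (h' Q hQ).2⟩
  smul_mem' := fun r a h Q hQ => ⟨(hZ Q hQ).et, by
    rw [smul_eq_C_mul]; exact (h Q hQ).2.mul_left _⟩

/-- all jets along `Z` are realised in bounded weight -/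
theorem exists_jet (hi : Irreducible c.χ) (hZ : Z ∈ c.Dv) (h0 : 0 ≤ Z)
    (hd : Z.degree + c.c0 ≤ c.δ * m) (a : 𝕜[X][X]) :
    ∃ a' ∈ Wsp c.b c.δ c.w m, VanZ c.χ Z (a - a') := by
  have hm := c.wt.monic
  have hb := cvj_bound h0 hd
  obtain ⟨m', rfl⟩ : ∃ m', m = m' + c.b * c.δ := ⟨m - c.b * c.δ, by omega⟩
  have h1 := le_finrank_Vs (c := c) (m := m') h0
  have h2 : (c.g0 : ℤ) + c.b * c.δ ^ 2 < c.c0 := by exact_mod_cast c.g0_add_lt
  have h3 : 0 < finrank 𝕜 (c.Vs m' Z) := by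
    have : (0 : ℤ) < finrank 𝕜 (c.Vs m' Z) := by
      push_cast at hd
      nlinarith
    exact_mod_cast this
  have h4 : c.Vs m' Z ≠ ⊥ := fun h => by
    rw [h, finrank_bot] at h3
    exact lt_irrefl _ h3
  obtain ⟨v, hv, hv0⟩ := (Submodule.ne_bot_iff _).1 h4
  rw [cvj_mem_Vs] at hv
  obtain ⟨a', ha', hN⟩ := exists_sub_mem (b := c.b) (cvj_N hZ) (k := m' + c.b * c.δ - c.w)
    (fun i : Fin c.δ => (v * X ^ (i : ℕ)) %ₘ c.χ) (cvj_indep c.wt hi hv0 hv.1.1)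
    (fun i Q hQ => ⟨(hZ Q hQ).et, Van.congr hm (hZ Q hQ).et (dvd_sub_comm.1 (cvj_dvd_mod _))
      (cvj_van_dvd (hv.2 Q) (dvd_mul_right _ _))⟩)
    (fun i => ⟨cvj_deg_mod c.wt _, WL.modByMonic c.wt ((hv.1.2.mul (WL_X_pow i)).mono (by
      have : c.b * i ≤ c.b * c.δ := Nat.mul_le_mul_left _ i.2.le
      omega))⟩)
    (cvj_deg_mod c.wt a)
  refine ⟨a', ⟨ha'.1, ha'.2.mono (by omega)⟩, fun Q hQ => ⟨(hZ Q hQ).et, ?_⟩⟩
  refine Van.congr hm (hZ Q hQ).et ?_ (hN Q hQ).2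
  rw [sub_sub_sub_cancel_right]
  exact cvj_dvd_mod a

theorem finrank_Vs (hi : Irreducible c.χ) (hZ : Z ∈ c.Dv) (h0 : 0 ≤ Z)
    (hd : Z.degree + c.c0 ≤ c.δ * m) :
    (finrank 𝕜 (c.Vs m Z) : ℤ) + c.g0 + Z.degree = c.δ * m := by
  refine cvj_induction (fun Z => Z ∈ c.Dv → Z.degree + c.c0 ≤ c.δ * m →
    (finrank 𝕜 (c.Vs m Z) : ℤ) + c.g0 + Z.degree = c.δ * m) ?_ ?_ Z h0 hZ hd
  · intro _ hd
    rw [cvj_Vs_zero, map_zero, add_zero]
    exact_mod_cast finrank_Wsp_eq (cvj_bound le_rfl hd)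
  · intro Z Q h0 ih hZ hd
    have hs := cvj_single_nonneg Q
    have h0' : 0 ≤ Z + Finsupp.single Q 1 := add_nonneg h0 hs
    have hZ' : Z ∈ c.Dv := fun Q' hQ' => hZ Q' (by
      have h1 : 0 ≤ Z Q' := h0 Q'
      have h2 : 0 ≤ (Finsupp.single Q 1 : 𝕜 × 𝕜 →₀ ℤ) Q' := hs Q'
      rw [Finsupp.add_apply]
      omega)
    have hQ : c.Gp Q := hZ Q (by
      have h1 : 0 ≤ Z Q := h0 Q
      rw [Finsupp.add_apply, Finsupp.single_eq_same]
      omega)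
    have hlow := le_finrank_Vs (c := c) (m := m) h0'
    obtain ⟨a, ha, hna⟩ := exists_exact hZ' h0 hQ
    obtain ⟨a', ha', hv⟩ := exists_jet hi hZ h0' hd a
    have hlt : c.Vs m (Z + Finsupp.single Q 1) < c.Vs m Z := by
      refine lt_of_le_of_ne (Vs_anti (le_add_of_nonneg_right hs)) fun e => hna ?_
      have h1 : a' ∈ c.Vs m Z := cvj_mem_Vs.2 ⟨ha', fun Q' => by
        have := (cvj_vanZ_van ha Q').sub ((cvj_vanZ_van hv Q').mono
          (Int.toNat_le_toNat (le_add_of_nonneg_right hs Q')))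
        rwa [sub_sub_cancel] at this⟩
      rw [← e, cvj_mem_Vs] at h1
      have := (cvj_vanZ_van hv Q).add (h1.2 Q)
      rwa [sub_add_cancel, cvj_toNat_succ h0] at this
    have := c.Vs_finite m Z
    have h5 := Submodule.finrank_lt_finrank_of_lt hlt
    rw [map_add, Finsupp.degree_single] at hd hlow ⊢
    have := ih hZ' (by omega)
    omega

theorem exists_G (hi : Irreducible c.χ) (hZ : Z ∈ c.Dv) (h0 : 0 ≤ Z)
    (hd : Z.degree + c.c0 ≤ c.δ * m) (u : 𝕜[X]) :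
    ∃ a ∈ Wsp c.b c.δ c.w m, VanZ c.χ Z (c.G u a) := by
  obtain ⟨μ, hμ, ⟨s, r, hsr⟩, hle⟩ := exists_u hZ
  have h1 : VanZ c.χ Z (C μ) := (lead_C hμ).vanZ_of_le c.wt h0 hle
  obtain ⟨a', ha', hv⟩ := exists_jet hi hZ h0 hd (-C (u * r))
  refine ⟨a', ha', fun Q hQ => ⟨(hZ Q hQ).et, ?_⟩⟩
  have h2 : c.G u a' = C (u * s) * C μ - C c.ρ * (-C (u * r) - a') := by
    have h3 : (C s * C μ + C r * C c.ρ : 𝕜[X][X]) = 1 := by
      rw [← C_mul, ← C_mul, ← C_add, hsr, C_1]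
    rw [G, C_mul, C_mul]
    linear_combination (-C u) * h3
  rw [h2]
  exact ((h1 Q hQ).2.mul_left _).sub ((hv Q hQ).2.mul_left _)

theorem cvj_sum_mem {J : Type} {P : J → 𝕜 × 𝕜} (hP : Function.Injective P) {T : Finset J} {j : J}
    (hj : j ∈ T) : (∑ i ∈ T, Finsupp.single (P i) 1 : 𝕜 × 𝕜 →₀ ℤ) (P j) = 1 := by
  rw [Finsupp.finsetSum_apply, Finset.sum_eq_single_of_mem j hj, Finsupp.single_eq_same]
  exact fun i _ hi => Finsupp.single_eq_of_ne fun e => hi (hP e).symm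

theorem cvj_sum_not {J : Type} {P : J → 𝕜 × 𝕜} {T : Finset J} {Q : 𝕜 × 𝕜}
    (h : ∀ j ∈ T, Q ≠ P j) : (∑ i ∈ T, Finsupp.single (P i) 1 : 𝕜 × 𝕜 →₀ ℤ) Q = 0 := by
  rw [Finsupp.finsetSum_apply]
  exact Finset.sum_eq_zero fun i hi => Finsupp.single_eq_of_ne (h i hi)

theorem cvj_greedy {J : Type} {P : J → 𝕜 × 𝕜} (hP : Function.Injective P) {D : 𝕜 × 𝕜 →₀ ℤ}
    (hD : ∀ T : Finset J, 0 ≤ D - ∑ j ∈ T, Finsupp.single (P j) 1) (hbot : c.Vs m D = ⊥) (g n : ℕ)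
    (T : Finset J) (h1 : finrank 𝕜 (c.Vs m (D - ∑ j ∈ T, Finsupp.single (P j) 1)) = n)
    (h2 : n + g = T.card) :
    ∃ T' ⊆ T, T'.card = g ∧ c.Vs m (D - ∑ j ∈ T', Finsupp.single (P j) 1) = ⊥ := by
  induction n generalizing T with
  | zero =>
    have := c.Vs_finite m (D - ∑ j ∈ T, Finsupp.single (P j) 1)
    exact ⟨T, subset_rfl, by omega, Submodule.finrank_eq_zero.1 h1⟩
  | succ n ih =>
    set Y := D - ∑ j ∈ T, Finsupp.single (P j) 1 with hY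
    have := c.Vs_finite m Y
    have hex : ∃ j ∈ T, c.Vs m (Y + Finsupp.single (P j) 1) ≠ c.Vs m Y := by
      by_contra hall
      push Not at hall
      have hle : c.Vs m Y ≤ c.Vs m D := fun a ha => by
        refine cvj_mem_Vs.2 ⟨ha.1, fun Q => ?_⟩
        by_cases hQ : ∃ j ∈ T, Q = P j
        · obtain ⟨j, hj, rfl⟩ := hQ
          rw [← hall j hj, cvj_mem_Vs] at ha
          have := ha.2 (P j)
          rwa [Finsupp.add_apply, hY, Finsupp.sub_apply, cvj_sum_mem hP hj,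
            Finsupp.single_eq_same, sub_add_cancel] at this
        · push Not at hQ
          have := (cvj_mem_Vs.1 ha).2 Q
          rwa [hY, Finsupp.sub_apply, cvj_sum_not hQ, sub_zero] at this
      rw [hbot, le_bot_iff] at hle
      rw [hle, finrank_bot] at h1
      omega
    obtain ⟨j, hj, hne⟩ := hex
    have hlt := Submodule.finrank_lt_finrank_of_lt
      (lt_of_le_of_ne (Vs_anti (le_add_of_nonneg_right (cvj_single_nonneg (P j)))) hne)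
    have hs := finrank_Vs_succ (c := c) (m := m) (hD T) (P j)
    have he : D - ∑ i ∈ T.erase j, Finsupp.single (P i) 1 = Y + Finsupp.single (P j) 1 := by
      rw [hY, ← Finset.add_sum_erase T _ hj]
      abel
    have hc := Finset.card_erase_add_one hj
    obtain ⟨T', h3, h4, h5⟩ := ih (T.erase j) (by rw [he]; rw [← hY] at hs; omega) (by omega)
    exact ⟨T', h3.trans (Finset.erase_subset _ _), h4, h5⟩

/-- greedy choice of `g0` points that impose independent conditions -/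
theorem exists_basis (hi : Irreducible c.χ) {J : Type} [Fintype J] {P : J → 𝕜 × 𝕜}
    (hP : ∀ j, c.Gp (P j)) (hinj : Function.Injective fun j => (P j).1) (S : Finset J)
    (hS : c.c0 ≤ S.card) : ∃ T ⊆ S, T.card = c.g0 ∧
      c.Vs (Fintype.card J) (dv c.χ (C (∏ j, (X - C (P j).1))) -
        ∑ j ∈ T, Finsupp.single (P j) 1) = ⊥ := by
  have hPi : Function.Injective P := fun i j e => hinj (congrArg Prod.fst e)
  set u : 𝕜[X] := ∏ j, (X - C (P j).1) with hu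
  have hum : u.Monic := monic_prod_of_monic _ _ fun j _ => monic_X_sub_C _
  have hud : u.natDegree = Fintype.card J := by
    rw [hu, natDegree_finsetProd_X_sub_C_eq_card, Finset.card_univ]
  have huc : IsCoprime u c.ρ := cop_iff.2 fun t ht => by
    rw [hu, eval_prod, Finset.prod_eq_zero_iff] at ht
    obtain ⟨j, _, hj⟩ := ht
    rw [eval_sub, eval_X, eval_C, sub_eq_zero] at hj
    exact hj ▸ (hP j).2
  have hD : ∀ T : Finset J, 0 ≤ dv c.χ (C u) - ∑ j ∈ T, Finsupp.single (P j) 1 := fun T Q => by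
    rw [Finsupp.sub_apply]
    change (0 : ℤ) ≤ _
    by_cases hQ : ∃ j ∈ T, Q = P j
    · obtain ⟨j, hj, rfl⟩ := hQ
      rw [cvj_sum_mem hPi hj, dv_C c.wt hum, if_pos (hP j).et]
      have : 0 < u.rootMultiplicity (P j).1 := (rootMultiplicity_pos hum.ne_zero).2 (by
        rw [IsRoot, hu, eval_prod]
        exact Finset.prod_eq_zero (Finset.mem_univ j) (by simp))
      omega
    · push Not at hQ
      rw [cvj_sum_not hQ, sub_zero]
      exact dv_nonneg _ _ Q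
  have hmem : dv c.χ (C u) - ∑ j ∈ S, Finsupp.single (P j) 1 ∈ c.Dv := by
    refine sub_mem (dv_C_mem hum huc) (sum_mem fun j _ Q hQ => ?_)
    by_cases e : Q = P j
    · exact e ▸ hP j
    · exact absurd (Finsupp.single_eq_of_ne e) hQ
  have hdeg : (dv c.χ (C u) - ∑ j ∈ S, Finsupp.single (P j) 1).degree =
      (c.δ * Fintype.card J - S.card : ℤ) := by
    rw [map_sub, degree_dv_C hum huc, hud, map_sum]
    simp
  have h1 := finrank_Vs (m := Fintype.card J) hi hmem (hD S) (by rw [hdeg]; omega)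
  rw [hdeg] at h1
  exact cvj_greedy hPi hD (hud ▸ Vs_dv hum huc) c.g0 _ S rfl (by omega)

end Cv

end Pool.Agent.ZeroCyc
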