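import Pool.Agent.Lib.MP_796ce4_ag.ZY.CvS

/-! Principal divisors. -/

namespace Pool.Agent.ZeroCyc

open Polynomial Module
open scoped Classical IntermediateField PowerSeries

set_option linter.unusedSectionVars false

variable {𝕜 𝕜' : Type} [Field 𝕜] [IsAlgClosed 𝕜] [Field 𝕜'] [IsAlgClosed 𝕜'] {c : Cv 𝕜}
  {u v : 𝕜[X]} {a a' : 𝕜[X][X]} {D Z : 𝕜 × 𝕜 →₀ ℤ}

theorem cvp_lead_sub {b m : ℕ} {G G' : 𝕜[X][X]} (h : Lead b m G) (h' : Lead b m G') :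
    WL b 0 m (G - G') := by
  have := WL.sub h h'
  rwa [sub_sub_sub_cancel_right] at this

theorem cvp_deg_mod {b δ : ℕ} {χ : 𝕜[X][X]} (hχ : Wt b δ χ) (s : 𝕜[X][X]) :
    (s %ₘ χ).degree < δ := by
  have h := degree_modByMonic_lt s hχ.monic
  rwa [degree_eq_natDegree hχ.monic.ne_zero, hχ.deg] at h

theorem cvp_dvd_mod {χ : 𝕜[X][X]} (s : 𝕜[X][X]) : χ ∣ s - s %ₘ χ :=
  ⟨s /ₘ χ, by have := modByMonic_add_div s χ; linear_combination -this⟩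

theorem cvp_lead_pow (b k : ℕ) : Lead b k (C (X ^ k) : 𝕜[X][X]) := by
  have := lead_C (b := b) (monic_X_pow (R := 𝕜) k)
  rwa [natDegree_X_pow] at this

/-- the adjugate function -/
theorem Lead.exists_adj {b δ m : ℕ} {χ G : 𝕜[X][X]} (hχ : Wt b δ χ) (hδ : 0 < δ)
    (h : Lead b m G) : ∃ G' : 𝕜[X][X], Lead b ((δ - 1) * m) G' ∧
      χ ∣ G * G' - C (resultant χ G) := by
  obtain ⟨p, q, -, -, e⟩ := exists_mul_add_mul_eq_C_resultant χ G le_rfl le_rfl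
    (Or.inl (by rw [hχ.deg]; exact hδ.ne'))
  have hd : χ ∣ G * (q %ₘ χ) - C (resultant χ G) := by
    obtain ⟨r, hr⟩ := cvp_dvd_mod (χ := χ) q
    exact ⟨-p - G * r, by rw [← e]; linear_combination -G * hr⟩
  refine ⟨q %ₘ χ, ?_, hd⟩
  have hk : (δ - 1) * m + m = δ * m := by
    obtain ⟨d, rfl⟩ : ∃ d, δ = d + 1 := ⟨δ - 1, by omega⟩
    rw [Nat.add_sub_cancel]; ring
  have hdeg : degree (q %ₘ χ - C (X ^ ((δ - 1) * m))) < (δ : WithBot ℕ) :=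
    (degree_sub_le _ _).trans_lt (max_lt (cvp_deg_mod hχ q)
      (degree_C_le.trans_lt (by exact_mod_cast hδ)))
  refine Lead.cancel hχ h hdeg ?_
  have h1 : Lead b ((δ - 1) * m + m) (C (resultant χ G)) := by
    have := lead_C (b := b) (h.res hχ).1
    rwa [(h.res hχ).2, ← hk] at this
  have h2 : Lead b ((δ - 1) * m + m) (C (X ^ ((δ - 1) * m)) * G) := (cvp_lead_pow b _).mul h
  have h3 := (cvp_lead_sub h1 h2).modByMonic hχ
  rwa [modByMonic_eq_of_dvd_sub hχ.monic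
    (p₂ := G * (q %ₘ χ - C (X ^ ((δ - 1) * m))))] at h3
  obtain ⟨r, hr⟩ := hd
  exact ⟨-r, by linear_combination -hr⟩

theorem cvp_vanZ_sub {χ G G' : 𝕜[X][X]} (h : VanZ χ Z G) (h' : VanZ χ Z G') :
    VanZ χ Z (G - G') := fun Q e => ⟨(h Q e).1, (h Q e).2.sub (h' Q e).2⟩

theorem cvp_vanZ_congr {χ G G' : 𝕜[X][X]} (hm : χ.Monic) (hd : χ ∣ G - G') (h : VanZ χ Z G) :
    VanZ χ Z G' := fun Q e => ⟨(h Q e).1, (h Q e).2.congr hm (h Q e).1 hd⟩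

namespace Cv

theorem cvp_vanZ_cancel {s : 𝕜[X][X]} (hZ : Z ∈ c.Dv) (h : VanZ c.χ Z (C c.ρ * s)) :
    VanZ c.χ Z s := fun Q e => by
  obtain ⟨h1, h2⟩ := h Q e
  obtain ⟨h3, h4⟩ := oq_eq_zero (G := C c.ρ) c.wt.monic h1 (by rw [ee_C]; exact (hZ Q e).2)
  exact ⟨h1, Van.cancel h3 (by rw [h4, zero_add]; exact h2)⟩

theorem cop_iff : IsCoprime u c.ρ ↔ ∀ t, u.eval t = 0 → c.ρ.eval t ≠ 0 := by
  rw [isCoprime_iff_aeval_ne_zero_of_isAlgClosed (k := 𝕜) 𝕜]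
  simp only [coe_aeval_eq_eval]
  exact forall_congr' fun t => by tauto

theorem adm_C (h : IsCoprime u c.ρ) : Adm c.χ (C u) := fun Q h1 h2 =>
  Gp.et ⟨h1, cop_iff.1 h _ (by rwa [ee_C] at h2)⟩

theorem Wit.cvp_rho (h : c.Wit u a) {Q : 𝕜 × 𝕜} (h2 : ee Q (c.G u a) = 0) :
    c.ρ.eval Q.1 ≠ 0 := fun h0 => by
  rw [G, map_add, map_mul, ee_C, ee_C, h0, zero_mul, add_zero] at h2
  exact cop_iff.1 h.cop _ h2 h0

theorem Wit.adm (h : c.Wit u a) : Adm c.χ (c.G u a) := fun _ h1 h2 => Gp.et ⟨h1, h.cvp_rho h2⟩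

theorem Wit.dv_mem (h : c.Wit u a) : dv c.χ (c.G u a) ∈ c.Dv := fun _ e =>
  have h1 := (h.lead.dv_ne_zero c.wt).1 e
  ⟨h1.1.1, h.cvp_rho h1.2⟩

theorem dv_C_mem (hu : u.Monic) (h : IsCoprime u c.ρ) : dv c.χ (C u) ∈ c.Dv := fun Q e =>
  have h1 := ((lead_C hu).dv_ne_zero c.wt).1 e
  ⟨h1.1.1, cop_iff.1 h _ (by have := h1.2; rwa [ee_C] at this)⟩

theorem degree_dv_C (hu : u.Monic) (h : IsCoprime u c.ρ) :
    (dv c.χ (C u)).degree = c.δ * u.natDegree :=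
  ((lead_C hu).degree_dv_eq_iff c.wt).2 (adm_C h)

theorem Wit.degree_dv (h : c.Wit u a) : (dv c.χ (c.G u a)).degree = c.δ * u.natDegree :=
  (h.lead.degree_dv_eq_iff c.wt).2 h.adm

/-- the roots of the resultant lie under zeros of the function -/
theorem Wit.cvp_res (h : c.Wit u a) : IsCoprime (resultant c.χ (c.G u a)) c.ρ := by
  have hr := (h.lead.res c.wt).1.ne_zero
  refine cop_iff.2 fun t ht h0 => hr ?_
  have h1 := (res_mult c.wt.monic hr t ∅ (by simp)).2.2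
  rw [Finset.sum_empty, eq_comm, rootMultiplicity_eq_zero_iff] at h1
  exact h1.2 (fun y _ h3 => absurd h0 (h.cvp_rho h3)) ht

theorem cvp_wit_one : c.Wit 1 0 := ⟨monic_one, isCoprime_one_left, WL_zero⟩

theorem cvp_G_zero (u : 𝕜[X]) : c.G u 0 = C u := by rw [G, mul_zero, add_zero]

theorem cvp_dv_zero (hδ : c.δ = 0) {m : ℕ} {G : 𝕜[X][X]} (h : Lead c.b m G) : dv c.χ G = 0 := by
  ext Q
  by_contra e
  have h1 := ((h.dv_ne_zero c.wt).1 e).1.1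
  rw [eq_one_of_monic_natDegree_zero c.wt.monic (c.wt.deg.trans hδ), map_one] at h1
  exact one_ne_zero h1

theorem cvp_mul_sub (hδ : 0 < c.δ) (m : ℕ) : m + (c.δ - 1) * m = c.δ * m := by
  obtain ⟨d, hd⟩ : ∃ d, c.δ = d + 1 := ⟨c.δ - 1, by omega⟩
  rw [hd, Nat.add_sub_cancel]; ring

theorem cvp_mem_PP (h : D ∈ c.PP) : ∃ u a, c.Wit u a ∧ D = dv c.χ (c.G u a) - dv c.χ (C u) := by
  induction h using AddSubgroup.closure_induction with
  | mem D h => exact h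
  | zero => exact ⟨1, 0, cvp_wit_one, by rw [cvp_G_zero, sub_self]⟩
  | add D D' _ _ h h' =>
    obtain ⟨u, a, h, rfl⟩ := h
    obtain ⟨u', a', h', rfl⟩ := h'
    refine ⟨u * u', C u * a' + C u' * a + C c.ρ * (a * a'),
      ⟨h.monic.mul h'.monic, h.cop.mul_left h'.cop, ?_⟩, ?_⟩
    · rw [h.monic.natDegree_mul h'.monic]
      exact (((h'.wl.C_mul le_rfl).mono (by omega)).add (h.wl.C_mul le_rfl)).add
        (((h.wl.mul h'.wl).C_mul c.deg).mono (by omega))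
    · have e : c.G (u * u') (C u * a' + C u' * a + C c.ρ * (a * a')) = c.G u a * c.G u' a' := by
        simp only [G, map_mul]; ring
      rw [e, h.lead.dv_mul c.wt h'.lead, map_mul,
        (lead_C h.monic).dv_mul c.wt (lead_C h'.monic)]
      abel
  | neg D _ h =>
    obtain ⟨u, a, h, rfl⟩ := h
    rcases Nat.eq_zero_or_pos c.δ with hδ | hδ
    · exact ⟨u, a, h, by rw [cvp_dv_zero hδ h.lead, cvp_dv_zero hδ (lead_C h.monic)]; simp⟩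
    obtain ⟨G', hG', hd⟩ := h.lead.exists_adj c.wt hδ
    have hr := h.lead.res c.wt
    refine ⟨resultant c.χ (c.G u a), -(a * G'), ⟨hr.1, h.cvp_res, ?_⟩, ?_⟩
    · rw [hr.2, ← cvp_mul_sub hδ]
      exact ((h.wl.mul hG'.wl).mono (by omega)).neg
    · have e : c.χ ∣ C u * G' - c.G (resultant c.χ (c.G u a)) (-(a * G')) := by
        obtain ⟨r, hr⟩ := hd
        refine ⟨r, ?_⟩
        rw [← hr]
        simp only [G]; ring
      rw [← dv_congr c.wt.monic e, ← dv_congr c.wt.monic hd, h.lead.dv_mul c.wt hG',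
        (lead_C h.monic).dv_mul c.wt hG']
      abel

theorem mem_PP : D ∈ c.PP ↔ ∃ u a, c.Wit u a ∧ a.degree < c.δ ∧
    D = dv c.χ (c.G u a) - dv c.χ (C u) := by
  refine ⟨fun h => ?_, fun ⟨u, a, h, _, e⟩ => AddSubgroup.subset_closure ⟨u, a, h, e⟩⟩
  obtain ⟨u, a, h', e⟩ := cvp_mem_PP h
  clear h
  have h := h'
  subst e
  refine ⟨u, a %ₘ c.χ, ⟨h.monic, h.cop, h.wl.modByMonic c.wt⟩, cvp_deg_mod c.wt a, ?_⟩
  rw [dv_congr c.wt.monic (G' := c.G u (a %ₘ c.χ))]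
  obtain ⟨r, hr⟩ := cvp_dvd_mod (χ := c.χ) a
  exact ⟨C c.ρ * r, by simp only [G]; linear_combination C c.ρ * hr⟩

theorem PP_le : c.PP ≤ c.Dv := fun _ h => by
  obtain ⟨u, a, h', e⟩ := cvp_mem_PP h
  clear h
  have h := h'
  subst e
  exact sub_mem h.dv_mem (dv_C_mem h.monic h.cop)

theorem degree_PP (h : D ∈ c.PP) : D.degree = 0 := by
  obtain ⟨u, a, h', e⟩ := cvp_mem_PP h
  clear h
  have h := h'
  subst e
  rw [map_sub, h.degree_dv, degree_dv_C h.monic h.cop, sub_self]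

theorem exists_u (h : D ∈ c.Dv) : ∃ u : 𝕜[X], u.Monic ∧ IsCoprime u c.ρ ∧ D ≤ dv c.χ (C u) := by
  have hm : (∏ Q ∈ D.support, (X - C Q.1) ^ (D Q).toNat : 𝕜[X]).Monic :=
    monic_prod_of_monic _ _ fun Q _ => (monic_X_sub_C _).pow _
  refine ⟨_, hm, IsCoprime.prod_left fun Q hQ => IsCoprime.pow_left (cop_iff.2 fun t ht => ?_),
    fun Q => ?_⟩
  · rw [eval_sub, eval_X, eval_C, sub_eq_zero] at ht
    rw [ht]
    exact (h Q (Finsupp.mem_support_iff.1 hQ)).2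
  · by_cases hQ : D Q = 0
    · rw [hQ]; exact dv_nonneg _ _ Q
    rw [dv_C c.wt hm, if_pos (h Q hQ).et]
    refine (Int.self_le_toNat _).trans (Int.ofNat_le.2 ((le_rootMultiplicity_iff hm.ne_zero).2 ?_))
    exact Finset.dvd_prod_of_mem (fun Q : 𝕜 × 𝕜 => ((X - C Q.1) ^ (D Q).toNat : 𝕜[X]))
      (Finsupp.mem_support_iff.2 hQ)

theorem cvp_eq_zero (hu : u.Monic) (hu' : IsCoprime u c.ρ) (ha : a.degree < c.δ)
    (hw : WL c.b c.w u.natDegree a) (h : VanZ c.χ (dv c.χ (C u)) a) : a = 0 := by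
  obtain ⟨e, rfl⟩ := dvd_of_vanZ c.wt hu (adm_C hu') ha h
  have h1 : WL c.b c.w 0 e := WL.of_C_mul hu (by rwa [zero_add])
  rw [h1.eq_zero (Nat.zero_le _), mul_zero]

/-- the witness for a given `u` is unique -/
theorem Wit.unique (h : c.Wit u a) (h' : c.Wit u a') (ha : a.degree < c.δ) (ha' : a'.degree < c.δ)
    (e : dv c.χ (c.G u a) = dv c.χ (c.G u a')) : a = a' := by
  rcases Nat.eq_zero_or_pos c.δ with hδ | hδ
  · rw [hδ, Nat.cast_zero, Nat.WithBot.lt_zero_iff, degree_eq_bot] at ha ha'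
    rw [ha, ha']
  obtain ⟨G', hG', hd⟩ := h.lead.exists_adj c.wt hδ
  have hr := h.lead.res c.wt
  have h1 : VanZ c.χ (dv c.χ (c.G u a)) (a - a') := by
    refine cvp_vanZ_cancel h.dv_mem ?_
    have e1 : C c.ρ * (a - a') = c.G u a - c.G u a' := by simp only [G]; ring
    rw [e1]
    exact cvp_vanZ_sub (h.lead.vanZ_dv c.wt) (by rw [e]; exact h'.lead.vanZ_dv c.wt)
  have h2 := h1.mul (hG'.vanZ_dv c.wt) (dv_nonneg _ _) (dv_nonneg _ _)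
  rw [← h.lead.dv_mul c.wt hG', dv_congr c.wt.monic hd, mul_comm] at h2
  have h3 : (G' * (a - a')) %ₘ c.χ = 0 := by
    refine cvp_eq_zero hr.1 h.cvp_res (cvp_deg_mod c.wt _) (WL.modByMonic c.wt ?_)
      (cvp_vanZ_congr c.wt.monic (cvp_dvd_mod _) h2)
    rw [hr.2, ← cvp_mul_sub hδ, mul_comm G']
    exact ((h.wl.sub h'.wl).mul hG'.wl).mono (by omega)
  have h4 : WL c.b 0 0 (a - a') :=
    Lead.cancel c.wt hG' ((degree_sub_le _ _).trans_lt (max_lt ha ha')) (by rw [h3]; exact WL_zero)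
  exact sub_eq_zero.1 (h4.eq_zero le_rfl)

/-- division of a function by a polynomial in `τ` -/
theorem exists_div (hu : u.Monic) (hv : v.Monic) (hv' : IsCoprime v c.ρ) (r : 𝕜) {s : 𝕜[X][X]}
    (hs : WL c.b c.w (u.natDegree + v.natDegree) s) (h0 : 0 ≤ Z)
    (h : VanZ c.χ (dv c.χ (C v) + Z) (c.G (C r * u * v) s)) :
    ∃ a ∈ Wsp c.b c.δ c.w u.natDegree, c.χ ∣ C v * a - s ∧ VanZ c.χ Z (c.G (C r * u) a) := by
  have _ := hu
  have hp : ∀ Q, (0 : ℤ) ≤ dv c.χ (C v) Q := fun Q => dv_nonneg _ _ Q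
  have hz : ∀ Q, (0 : ℤ) ≤ Z Q := fun Q => h0 Q
  have h1 : VanZ c.χ (dv c.χ (C v)) s := by
    refine cvp_vanZ_cancel (dv_C_mem hv hv') fun Q e => ?_
    have e1 : C c.ρ * s = c.G (C r * u * v) s - C (C r * u) * C v := by
      simp only [G, map_mul]; ring
    have := hp Q
    have := hz Q
    obtain ⟨h2, h3⟩ := h Q (by rw [Finsupp.add_apply]; omega)
    rw [e1]
    refine ⟨h2, (h3.mono ?_).sub ((((lead_C hv).vanZ_dv c.wt) Q e).2.mul_left _)⟩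
    rw [Finsupp.add_apply]; omega
  obtain ⟨a, ha⟩ := dvd_of_vanZ c.wt hv (adm_C hv') (cvp_deg_mod c.wt s)
    (cvp_vanZ_congr c.wt.monic (cvp_dvd_mod s) h1)
  have hd : c.χ ∣ s - C v * a := ha ▸ cvp_dvd_mod s
  refine ⟨a, ⟨?_, WL.of_C_mul hv (ha ▸ hs.modByMonic c.wt)⟩, dvd_sub_comm.1 hd, fun Q e => ?_⟩
  · rw [← degree_C_mul (p := a) hv.ne_zero, ← ha]
    exact cvp_deg_mod c.wt s
  · have := hp Q
    have := hz Q
    obtain ⟨h2, h3⟩ := h Q (by rw [Finsupp.add_apply]; omega)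
    refine ⟨h2, Van.cancel (oq_C c.χ Q hv.ne_zero).1 (Van.congr c.wt.monic h2 ?_ (h3.mono ?_))⟩
    · obtain ⟨k, hk⟩ := hd
      exact ⟨C c.ρ * k, by simp only [G, map_mul]; linear_combination C c.ρ * hk⟩
    · rw [Finsupp.add_apply, (lead_C hv).dv_apply c.wt, if_pos h2]; omega

/-- a principal divisor bounded by `dv u` has a witness with this `u` -/
theorem exists_wit (hu : u.Monic) (hu' : IsCoprime u c.ρ) (h : D ∈ c.PP)
    (h0 : 0 ≤ D + dv c.χ (C u)) : ∃ a, c.Wit u a ∧ a.degree < c.δ ∧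
      D = dv c.χ (c.G u a) - dv c.χ (C u) := by
  have hD := degree_PP h
  obtain ⟨v, a0, hw, e⟩ := cvp_mem_PP h
  have h1 : VanZ c.χ (dv c.χ (C v) + (D + dv c.χ (C u))) (c.G (C 1 * u * v) (C u * a0)) := by
    have e1 : c.G (C 1 * u * v) (C u * a0) = C u * c.G v a0 := by
      simp only [G, map_mul, map_one]; ring
    have e2 : dv c.χ (C v) + (D + dv c.χ (C u)) = dv c.χ (C u * c.G v a0) := by
      rw [(lead_C hu).dv_mul c.wt hw.lead, e]; abel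
    rw [e1, e2]
    exact ((lead_C hu).mul hw.lead).vanZ_dv c.wt
  obtain ⟨a, ha, -, h2⟩ := exists_div hu hw.monic hw.cop 1
    ((hw.wl.C_mul le_rfl).mono (by omega)) h0 h1
  rw [map_one, one_mul] at h2
  have h3 : c.Wit u a := ⟨hu, hu', ha.2⟩
  refine ⟨a, h3, ha.1, ?_⟩
  rw [(h3.lead.dv_eq c.wt h2 (by rw [map_add, hD, zero_add, degree_dv_C hu hu'])).1,
    add_sub_cancel_right]

theorem Vs_dv (hu : u.Monic) (hu' : IsCoprime u c.ρ) :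
    c.Vs u.natDegree (dv c.χ (C u)) = ⊥ :=
  (Submodule.eq_bot_iff _).2 fun _ h => cvp_eq_zero hu hu' h.1.1 h.1.2 fun Q e =>
    ⟨(((lead_C hu).dv_ne_zero c.wt).1 e).1, h.2 Q e⟩

theorem psh_Dv (ψ : 𝕜 →+* 𝕜') (h : D ∈ c.Dv) : psh (pm ψ) D ∈ (c.map ψ).Dv := fun Q' e => by
  obtain ⟨Q, hQ, rfl⟩ := psh_ne_zero e
  refine ⟨?_, ?_⟩
  · show ee (pm ψ Q) (mp ψ c.χ) = 0
    rw [← map_ee, (h Q hQ).1, map_zero]
  · show (c.ρ.map ψ).eval (ψ Q.1) ≠ 0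
    rw [eval_map, eval₂_hom]
    exact (map_ne_zero ψ).2 (h Q hQ).2

theorem psh_PP (ψ : 𝕜 →+* 𝕜') (h : D ∈ c.PP) : psh (pm ψ) D ∈ (c.map ψ).PP := by
  obtain ⟨u, a, h', e⟩ := cvp_mem_PP h
  clear h
  have h := h'
  subst e
  refine AddSubgroup.subset_closure ⟨u.map ψ, mp ψ a, h.map ψ, ?_⟩
  rw [map_sub, ← (h.lead.dv_map c.wt h.adm ψ).1,
    ← ((lead_C h.monic).dv_map c.wt (adm_C h.cop) ψ).1, map_G, mp_C]
  rfl

theorem Inv.psh_Dv {F : 𝕜 →+* 𝕜} (hF : c.Inv F) (h : D ∈ c.Dv) : psh (pm F) D ∈ c.Dv :=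
  fun Q' e => by
  obtain ⟨Q, hQ, rfl⟩ := psh_ne_zero e
  exact hF.gp F.injective (h Q hQ)

theorem Inv.dv_map {F : 𝕜 →+* 𝕜} (hF : c.Inv F) {m : ℕ} {G : 𝕜[X][X]} (h : Lead c.b m G)
    (ha : Adm c.χ G) : dv c.χ (mp F G) = psh (pm F) (dv c.χ G) := by
  have := (h.dv_map c.wt ha F).1
  rwa [hF.χ] at this

theorem Inv.psh_PP {F : 𝕜 →+* 𝕜} (hF : c.Inv F) (h : D ∈ c.PP) : psh (pm F) D ∈ c.PP := by
  obtain ⟨u, a, h', e⟩ := cvp_mem_PP h
  clear h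
  have h := h'
  subst e
  have h1 := h.map F
  have h2 : IsCoprime (u.map F) c.ρ := hF.ρ ▸ h1.cop
  refine AddSubgroup.subset_closure ⟨u.map F, mp F a, ⟨h1.monic, h2, h1.wl⟩, ?_⟩
  rw [map_sub, ← hF.dv_map h.lead h.adm, ← hF.dv_map (lead_C h.monic) (adm_C h.cop), mp_C]
  simp only [G, map_add, map_mul, mp_C, hF.ρ]

end Cv

end Pool.Agent.ZeroCyc
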