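import Pool.Agent.Lib.MP_796ce4_ag.ZY.CvDefs

/-! Weights. -/

namespace Pool.Agent.ZeroCyc

open Polynomial Module
open scoped Classical IntermediateField PowerSeries

set_option linter.unusedSectionVars false

variable {R S : Type} [CommRing R] [CommRing S] {b w w' m m' δ : ℕ} {a a' χ G G' : R[X][X]}

theorem WL.mono (h : WL b w m a) (hm : m + w' ≤ m' + w) : WL b w' m' a := fun i j e => by
  have := h i j e
  omega
theorem WL_zero : WL b w m (0 : R[X][X]) := fun i j e => absurd (by simp) e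
theorem WL.add (h : WL b w m a) (h' : WL b w m a') : WL b w m (a + a') := fun i j e => by
  by_cases h1 : (a.coeff i).coeff j = 0
  · exact h' i j fun h2 => e (by rw [coeff_add, coeff_add, h1, h2, add_zero])
  · exact h i j h1
theorem WL.neg (h : WL b w m a) : WL b w m (-a) := fun i j e =>
  h i j fun h1 => e (by rw [coeff_neg, coeff_neg, h1, neg_zero])
theorem WL.sub (h : WL b w m a) (h' : WL b w m a') : WL b w m (a - a') := by
  rw [sub_eq_add_neg]; exact h.add h'.neg
theorem WL.sum {T : Type} {s : Finset T} {f : T → R[X][X]} (h : ∀ t ∈ s, WL b w m (f t)) :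
    WL b w m (∑ t ∈ s, f t) := by
  induction s using Finset.induction_on with
  | empty => rw [Finset.sum_empty]; exact WL_zero
  | insert t s ht ih =>
    rw [Finset.sum_insert ht]
    exact (h t (Finset.mem_insert_self _ _)).add
      (ih fun t' ht' => h t' (Finset.mem_insert_of_mem ht'))
theorem WL.mul (h : WL b w m a) (h' : WL b w' m' a') : WL b (w + w' + 1) (m + m') (a * a') := fun i j e => by
  rw [coeff_mul, finsetSum_coeff] at e
  obtain ⟨⟨i1, i2⟩, hi, e1⟩ := Finset.exists_ne_zero_of_sum_ne_zero e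
  rw [coeff_mul] at e1
  obtain ⟨⟨j1, j2⟩, hj, e2⟩ := Finset.exists_ne_zero_of_sum_ne_zero e1
  have h1 := h i1 j1 (left_ne_zero_of_mul e2)
  have h2 := h' i2 j2 (right_ne_zero_of_mul e2)
  rw [Finset.HasAntidiagonal.mem_antidiagonal] at hi hj
  simp only at hi hj
  subst hi hj
  rw [Nat.mul_add]
  omega
theorem WL_C {u : R[X]} (h : u.natDegree + w < m) : WL b w m (C u) := fun i j e => by
  rw [coeff_C] at e
  split_ifs at e with hi
  · subst hi
    have := le_natDegree_of_ne_zero e
    omega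
  · exact absurd (coeff_zero j) e
theorem WL_C' {u : R[X]} (h : u.degree < m) : WL b 0 m (C u) := fun i j e => by
  rw [coeff_C] at e
  split_ifs at e with hi
  · subst hi
    have := (le_degree_of_ne_zero e).trans_lt h
    have h2 : j < m := by exact_mod_cast this
    omega
  · exact absurd (coeff_zero j) e
theorem WL.C_mul {u : R[X]} {k : ℕ} (hu : u.natDegree ≤ k) (h : WL b w m a) :
    WL b w (m + k) (C u * a) := ((WL_C (w := 0) (m := k + 1) (by omega)).mul h).mono (by omega)
theorem WL_X_pow (i : ℕ) : WL b 0 (b * i + 1) (X ^ i : R[X][X]) := fun i' j e => by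
  rw [coeff_X_pow] at e
  split_ifs at e with hi
  · subst hi
    rw [coeff_one] at e
    split_ifs at e with hj
    · omega
    · exact absurd rfl e
  · exact absurd (coeff_zero j) e
theorem WL_of_le {e k : ℕ} (h : ∀ i, (a.coeff i).natDegree ≤ e) (hk : a.natDegree ≤ k) :
    WL b 0 (e + b * k + 1) a := fun i j e' => by
  have h1 := (le_natDegree_of_ne_zero e').trans (h i)
  have h2 : a.coeff i ≠ 0 := fun h0 => e' (by rw [h0, coeff_zero])
  have h3 := Nat.mul_le_mul_left b ((le_natDegree_of_ne_zero h2).trans hk)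
  omega
theorem WL.map (h : WL b w m a) (φ : R →+* S) : WL b w m (mp φ a) := fun i j e =>
  h i j fun h1 => e (by rw [coe_mapRingHom, coeff_map, coe_mapRingHom, coeff_map, h1, map_zero])
theorem WL.eq_zero (h : WL b w m a) (hm : m ≤ w) : a = 0 := by
  ext i j
  by_contra e
  have := h i j (by simpa using e)
  omega
theorem exists_WL (b w : ℕ) (a : R[X][X]) : ∃ m, WL b w m a := by
  refine ⟨(a.support.sup fun i => (a.coeff i).natDegree) + b * a.natDegree + 1 + w,
    (WL_of_le (e := a.support.sup fun i => (a.coeff i).natDegree) (fun i => ?_) le_rfl).mono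
      (by omega)⟩
  by_cases hi : i ∈ a.support
  · exact Finset.le_sup (f := fun i => (a.coeff i).natDegree) hi
  · rw [notMem_support_iff.1 hi, natDegree_zero]; exact Nat.zero_le _
theorem WL.modByMonic (hχ : Wt b δ χ) (h : WL b w m a) : WL b w m (a %ₘ χ) := by
  rcases subsingleton_or_nontrivial R with hR | hR
  · exact fun i j e => absurd (Subsingleton.elim _ _) e
  induction a using Polynomial.degree_lt_wf.induction with
  | _ a ih =>
  by_cases hlt : a.degree < χ.degree
  · rwa [(modByMonic_eq_self_iff hχ.monic).2 hlt]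
  have ha0 : a ≠ 0 := fun h0 => hlt (by
    rw [h0, degree_zero]; exact bot_lt_iff_ne_bot.2 (degree_ne_bot.2 hχ.monic.ne_zero))
  have hle : χ.degree ≤ a.degree := not_lt.1 hlt
  have hn : δ ≤ a.natDegree := hχ.deg ▸ natDegree_le_natDegree hle
  obtain ⟨k, hk⟩ := Nat.exists_eq_add_of_le hn
  have hd := div_wf_lemma ⟨hle, ha0⟩ hχ.monic
  have hk' : a.natDegree - χ.natDegree = k := by rw [hχ.deg]; omega
  rw [hk'] at hd
  have h1 : WL b (w + b * a.natDegree) m (C a.leadingCoeff) := fun i j e => by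
    rw [coeff_C] at e
    split_ifs at e with hi
    · subst hi
      have := h _ j e
      omega
    · exact absurd (coeff_zero j) e
  have h2 : WL b w m (χ * (C a.leadingCoeff * X ^ k)) :=
    (hχ.wt.mul (h1.mul (WL_X_pow k))).mono (by rw [hk, Nat.mul_add]; omega)
  have h3 := ih _ hd (h.sub h2)
  rwa [sub_modByMonic, (modByMonic_eq_zero_iff_dvd hχ.monic).2 (dvd_mul_right _ _),
    sub_zero] at h3
theorem WL.of_C_mul {u : R[X]} (hu : u.Monic) (h : WL b w (m + u.natDegree) (C u * a)) :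
    WL b w m a := fun i j e => by
  have h2 : a.coeff i ≠ 0 := fun h0 => e (by rw [h0, coeff_zero])
  have h1 := h i (u.natDegree + (a.coeff i).natDegree) (by
    rw [coeff_C_mul, coeff_mul_degree_add_degree, hu.leadingCoeff, one_mul]
    exact leadingCoeff_ne_zero.2 h2)
  have := le_natDegree_of_ne_zero e
  omega
theorem Wt.derivative (hχ : Wt b δ χ) : WL b b (b * δ + 1) (derivative χ) := fun i j e => by
  have h1 := hχ.wt (i + 1) j fun h0 => e (by
    rw [coeff_derivative, ← Nat.cast_succ, coeff_mul_natCast, h0, zero_mul])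
  rw [Nat.mul_add] at h1
  omega
theorem Wt.map [Nontrivial S] (hχ : Wt b δ χ) (φ : R →+* S) : Wt b δ (mp φ χ) :=
  ⟨hχ.monic.map _, by rw [coe_mapRingHom, hχ.monic.natDegree_map, hχ.deg], hχ.wt.map φ⟩
theorem Wt.mono {b' : ℕ} (hχ : Wt b δ χ) (h : b ≤ b') : Wt b' δ χ := by
  refine ⟨hχ.monic, hχ.deg, fun i j e => ?_⟩
  have h1 := hχ.wt i j e
  have h2 : χ.coeff i ≠ 0 := fun h0 => e (by rw [h0, coeff_zero])
  have h3 : i ≤ δ := hχ.deg ▸ le_natDegree_of_ne_zero h2
  obtain ⟨d, rfl⟩ := Nat.exists_eq_add_of_le h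
  have h4 := Nat.mul_le_mul_left d h3
  rw [Nat.add_mul, Nat.add_mul]
  omega
theorem Lead.wl (h : Lead b m G) : WL b 0 (m + 1) G := by
  have h1 : WL b 0 (m + 1) (C (X ^ m) : R[X][X]) :=
    WL_C (by have := natDegree_X_pow_le (R := R) m; omega)
  have := (WL.mono h (w' := 0) (m' := m + 1) (by omega)).add h1
  rwa [sub_add_cancel] at this
theorem Lead.mul (h : Lead b m G) (h' : Lead b m' G') : Lead b (m + m') (G * G') := by
  have e : G * G' - C (X ^ (m + m')) =
      (G - C (X ^ m)) * G' + C (X ^ m) * (G' - C (X ^ m')) := by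
    rw [pow_add, C_mul]; ring
  unfold Lead
  rw [e]
  exact ((WL.mul h h'.wl).mono (by omega)).add
    ((WL.C_mul (natDegree_X_pow_le m) h').mono (by omega))
theorem lead_C {u : R[X]} (hu : u.Monic) : Lead b u.natDegree (C u) := by
  unfold Lead
  rw [← C_sub]
  refine WL_C' ?_
  rw [degree_lt_iff_coeff_zero]
  intro n hn
  rw [coeff_sub, coeff_X_pow]
  split_ifs with e
  · rw [e, ← leadingCoeff, hu.leadingCoeff, sub_self]
  · rw [coeff_eq_zero_of_natDegree_lt (lt_of_le_of_ne hn (Ne.symm e)), sub_zero]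
theorem Lead.add (h : Lead b m G) (h' : WL b 0 m a) : Lead b m (G + a) := by
  unfold Lead
  rw [add_sub_right_comm]
  exact WL.add h h'
theorem Lead.map (h : Lead b m G) (φ : R →+* S) : Lead b m (mp φ G) := by
  have := WL.map h φ
  unfold Lead
  rwa [map_sub, coe_mapRingHom, map_C, coe_mapRingHom, Polynomial.map_pow, map_X] at this
theorem Lead.modByMonic (hχ : Wt b δ χ) (hδ : 0 < δ) (h : Lead b m G) : Lead b m (G %ₘ χ) := by
  rcases subsingleton_or_nontrivial R with hR | hR
  · exact fun i j e => absurd (Subsingleton.elim _ _) e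
  have h1 := WL.modByMonic hχ h
  have h2 : (C (X ^ m) : R[X][X]) %ₘ χ = C (X ^ m) := by
    rw [modByMonic_eq_self_iff hχ.monic, degree_eq_natDegree hχ.monic.ne_zero, hχ.deg]
    exact degree_C_le.trans_lt (by exact_mod_cast hδ)
  rwa [sub_modByMonic, h2] at h1
/-- multiplication by a leading function raises the weight exactly -/
theorem Lead.cancel {k : ℕ} (hχ : Wt b δ χ) (h : Lead b m G) (ha : a.degree < δ)
    (h' : WL b w (k + m) ((G * a) %ₘ χ)) : WL b w k a := by
  rcases subsingleton_or_nontrivial R with hR | hR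
  · exact fun i j e => absurd (Subsingleton.elim _ _) e
  have h2 : (C (X ^ m) * a : R[X][X]) %ₘ χ = C (X ^ m) * a := by
    rw [modByMonic_eq_self_iff hχ.monic, degree_eq_natDegree hχ.monic.ne_zero, hχ.deg,
      ← smul_eq_C_mul]
    exact (degree_smul_le _ _).trans_lt ha
  have e : C (X ^ m) * a = (G * a) %ₘ χ - ((G - C (X ^ m)) * a) %ₘ χ := by
    rw [← sub_modByMonic, show G * a - (G - C (X ^ m)) * a = C (X ^ m) * a by ring, h2]
  have key : ∀ n, WL b w (k + n) a → WL b w k a := by
    intro n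
    induction n with
    | zero => exact id
    | succ n ih =>
      intro hn
      refine ih (WL.of_C_mul (monic_X_pow m) ?_)
      rw [natDegree_X_pow, e]
      exact (h'.mono (by omega)).sub (WL.modByMonic hχ ((WL.mul h hn).mono (by omega)))
  obtain ⟨n, hn⟩ := exists_WL b w a
  exact key n (hn.mono (by omega))
/-- lifting along a surjection keeps the weight -/
theorem WL.exists_lift {φ : R →+* S} {s : S[X][X]} (h : WL b w m s)
    (hs : ∀ i j, (s.coeff i).coeff j ∈ φ.range) : ∃ a : R[X][X], mp φ a = s ∧ WL b w m a := by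
  have h1 : ∀ i, ∃ u : R[X], u.map φ = s.coeff i ∧ u.support = (s.coeff i).support := fun i =>
    exists_support_eq_of_mem_lifts ((lifts_iff_coeff_lifts _).2 fun j => hs i j)
  choose u hu hu' using h1
  have hc : ∀ i, (∑ k ∈ s.support, monomial k (u k)).coeff i = u i := fun i => by
    rw [finsetSum_coeff]
    simp_rw [coeff_monomial]
    rw [Finset.sum_ite_eq']
    split_ifs with hi
    · rfl
    · rw [eq_comm, ← Polynomial.support_eq_empty, hu', notMem_support_iff.1 hi, support_zero]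
  refine ⟨∑ k ∈ s.support, monomial k (u k), ?_, fun i j e => h i j ?_⟩
  · ext1 i
    rw [coe_mapRingHom, coeff_map, hc, coe_mapRingHom, hu]
  · rw [hc] at e
    rw [← Polynomial.mem_support_iff, ← hu', Polynomial.mem_support_iff]
    exact e

theorem e2_C (φ : R →+* S) (τ η : S) (u : R[X]) : e2 φ τ η (C u) = u.eval₂ φ τ := by
  simp [e2]
theorem e2_X (φ : R →+* S) (τ η : S) : e2 φ τ η X = η := by
  simp [e2]
theorem e2_eq_eval (φ : R →+* S) (τ η : S) (a : R[X][X]) :
    e2 φ τ η a = (a.map (eval₂RingHom φ τ)).eval η := by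
  rw [eval_map]; rfl
theorem ee_mp (φ : R →+* S) (Q : S × S) (a : R[X][X]) : ee Q (mp φ a) = e2 φ Q.1 Q.2 a := by
  have : (ee Q).comp (mp φ) = e2 φ Q.1 Q.2 := by
    ext <;> simp [ee, e2]
  exact DFunLike.congr_fun this a
theorem map_e2 {T : Type} [CommRing T] (ψ : S →+* T) (φ : R →+* S) (τ η : S) (a : R[X][X]) :
    ψ (e2 φ τ η a) = e2 (ψ.comp φ) (ψ τ) (ψ η) a := by
  have : ψ.comp (e2 φ τ η) = e2 (ψ.comp φ) (ψ τ) (ψ η) := by
    ext <;> simp [e2]
  exact DFunLike.congr_fun this a
theorem map_ee (φ : R →+* S) (Q : R × R) (a : R[X][X]) :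
    φ (ee Q a) = ee (pm φ Q) (mp φ a) := by
  rw [ee_mp, ee, map_e2, RingHom.comp_id]; rfl
theorem ee_C (Q : R × R) (u : R[X]) : ee Q (C u) = u.eval Q.1 := by
  rw [ee, e2_C]; rfl
theorem ee_X (Q : R × R) : ee Q (X : R[X][X]) = Q.2 := e2_X _ _ _
theorem ee_eq_eval (Q : R × R) (a : R[X][X]) : ee Q a = (a.map (evalRingHom Q.1)).eval Q.2 := e2_eq_eval _ _ _ _
theorem mp_mp {T : Type} [CommRing T] (ψ : S →+* T) (φ : R →+* S) (a : R[X][X]) :
    mp ψ (mp φ a) = mp (ψ.comp φ) a := by
  rw [coe_mapRingHom, coe_mapRingHom, coe_mapRingHom, Polynomial.map_map, mapRingHom_comp]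
theorem mp_C (φ : R →+* S) (u : R[X]) : mp φ (C u) = C (u.map φ) := by
  rw [coe_mapRingHom, map_C, coe_mapRingHom]
theorem mp_derivative (φ : R →+* S) (a : R[X][X]) :
    mp φ (derivative a) = derivative (mp φ a) := by
  rw [coe_mapRingHom, derivative_map]
theorem mp_injective {φ : R →+* S} (h : Function.Injective φ) : Function.Injective (mp φ) := map_injective _ (map_injective _ h)
theorem constantCoeff_sh (t : R) (u : R[X]) : PowerSeries.constantCoeff (sh t u) = u.eval t := by
  have : (PowerSeries.constantCoeff (R := R)).comp (sh t) = evalRingHom t := by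
    ext <;> simp [sh]
  exact DFunLike.congr_fun this u
theorem map_sh (φ : R →+* S) (t : R) (u : R[X]) :
    PowerSeries.map φ (sh t u) = sh (φ t) (u.map φ) := by
  have : (PowerSeries.map φ).comp (sh t) = (sh (φ t)).comp (mapRingHom φ) := by
    refine Polynomial.ringHom_ext (fun r => ?_) ?_ <;> simp [sh]
  exact DFunLike.congr_fun this u
theorem sh_eq_taylor (t : R) (u : R[X]) : sh t u = (taylor t u : R[X]) := by
  induction u using Polynomial.induction_on' with
  | add p q hp hq => rw [map_add, map_add, hp, hq, Polynomial.coe_add]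
  | monomial n r =>
    rw [taylor_monomial, Polynomial.coe_mul, Polynomial.coe_pow, Polynomial.coe_add, coe_C, coe_C,
      coe_X, sh, coe_eval₂RingHom, eval₂_monomial, add_comm]

theorem cst_mono {δ δ' b b' w w' : ℕ} (h1 : δ ≤ δ') (h2 : b ≤ b') (h3 : w ≤ w') :
    cst δ b w ≤ cst δ' b' w' := by
  unfold cst
  gcongr

namespace Cv

/-- base change -/
noncomputable def map [Nontrivial S] (c : Cv R) (φ : R →+* S) : Cv S where
  χ := mp φ c.χ
  α := mp φ c.α
  β := mp φ c.β
  ρ := c.ρ.map φ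
  δ := c.δ
  b := c.b
  w := c.w
  wt := c.wt.map φ
  rho := by rw [← mp_C, c.rho, map_add, map_mul, map_mul, mp_derivative]
  deg := natDegree_map_le.trans c.deg
  wβ := c.wβ.map φ

theorem map_map {T : Type} [CommRing T] [Nontrivial S] [Nontrivial T] (c : Cv R) (φ : R →+* S)
    (ψ : S →+* T) : (c.map φ).map ψ = c.map (ψ.comp φ) := by
  simp only [Cv.map, mp_mp, Polynomial.map_map]
theorem map_id [Nontrivial R] (c : Cv R) : c.map (RingHom.id R) = c := by
  cases c
  simp [Cv.map]
theorem Wit.lead {c : Cv R} {u : R[X]} (h : c.Wit u a) : Lead c.b u.natDegree (c.G u a) := by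
  refine (lead_C h.monic).add ?_
  exact (WL.C_mul c.deg h.wl).mono (by omega)
theorem Wit.map [Nontrivial S] {c : Cv R} {u : R[X]} (h : c.Wit u a) (φ : R →+* S) :
    (c.map φ).Wit (u.map φ) (mp φ a) :=
  ⟨h.monic.map φ, h.cop.map (mapRingHom φ), by
    rw [h.monic.natDegree_map]; exact h.wl.map φ⟩
theorem map_G [Nontrivial S] (c : Cv R) (u : R[X]) (a : R[X][X]) (φ : R →+* S) :
    mp φ (c.G u a) = (c.map φ).G (u.map φ) (mp φ a) := by
  rw [G, G, map_add, map_mul, mp_C, mp_C]; rfl
theorem Gp.et {c : Cv R} {Q : R × R} (h : c.Gp Q) : Et c.χ Q := by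
  refine ⟨h.1, fun h0 => h.2 ?_⟩
  rw [← ee_C, c.rho, map_add, map_mul, map_mul, h0, show ee Q c.χ = 0 from h.1, mul_zero,
    mul_zero, add_zero]
theorem g0_add_lt (c : Cv R) : c.g0 + c.b * c.δ ^ 2 < c.c0 := by
  have h1 : ∑ i ∈ Finset.range c.δ, c.b * i ≤ c.δ • (c.b * c.δ) := by
    have := Finset.sum_le_card_nsmul (Finset.range c.δ) (fun i => c.b * i) (c.b * c.δ)
      fun i hi => Nat.mul_le_mul_left _ (Finset.mem_range.1 hi).le
    rwa [Finset.card_range] at this
  rw [smul_eq_mul] at h1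
  unfold g0 c0 cst
  nlinarith
theorem Inv.pow {c : Cv R} {F : R →+* R} (h : c.Inv F) (n : ℕ) : c.Inv (F ^ n) := by
  induction n with
  | zero => exact ⟨by rw [pow_zero, RingHom.one_def]; simp, by rw [pow_zero, RingHom.one_def]; simp⟩
  | succ n ih =>
    refine ⟨?_, ?_⟩
    · rw [pow_succ, RingHom.mul_def, ← mp_mp, h.χ, ih.χ]
    · rw [pow_succ, RingHom.mul_def, ← Polynomial.map_map, h.ρ, ih.ρ]
theorem Inv.gp {c : Cv R} {F : R →+* R} (h : c.Inv F) (hF : Function.Injective F) {Q : R × R}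
    (hQ : c.Gp Q) : c.Gp (pm F Q) := by
  refine ⟨?_, fun h0 => hQ.2 (hF ?_)⟩
  · rw [On, ← h.χ, ← map_ee, show ee Q c.χ = 0 from hQ.1, map_zero]
  · rw [← h.ρ, ← ee_C, ← mp_C, ← map_ee, ee_C] at h0
    rw [h0, map_zero]

end Cv

theorem psh_single {A B : Type} (f : A → B) (x : A) (n : ℤ) :
    psh f (Finsupp.single x n) = Finsupp.single (f x) n := Finsupp.mapDomain_single
theorem psh_psh {A B E : Type} (g : B → E) (f : A → B) (D : A →₀ ℤ) :
    psh g (psh f D) = psh (g ∘ f) D := Finsupp.mapDomain_comp.symm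
theorem psh_congr {A B : Type} {f g : A → B} {D : A →₀ ℤ} (h : ∀ x, D x ≠ 0 → f x = g x) :
    psh f D = psh g D :=
  Finsupp.mapDomain_congr fun x hx => h x (Finsupp.mem_support_iff.1 hx)
theorem psh_id {A : Type} (D : A →₀ ℤ) : psh id D = D := Finsupp.mapDomain_id
theorem degree_psh {A B : Type} (f : A → B) (D : A →₀ ℤ) : (psh f D).degree = D.degree :=
  Finsupp.degree_mapDomain f D
theorem psh_nonneg {A B : Type} (f : A → B) {D : A →₀ ℤ} (h : 0 ≤ D) : 0 ≤ psh f D :=
  Finsupp.mapDomain_nonneg h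
theorem psh_ne_zero {A B : Type} {f : A → B} {D : A →₀ ℤ} {y : B} (h : psh f D y ≠ 0) :
    ∃ x, D x ≠ 0 ∧ f x = y := by
  have h1 : y ∈ (Finsupp.mapDomain f D).support := Finsupp.mem_support_iff.2 h
  obtain ⟨x, hx, e⟩ := Finset.mem_image.1 (Finsupp.mapDomain_support h1)
  exact ⟨x, Finsupp.mem_support_iff.1 hx, e⟩
theorem psh_apply_inj {A B : Type} {f : A → B} (hf : Function.Injective f) (D : A →₀ ℤ) (x : A) :
    psh f D (f x) = D x := Finsupp.mapDomain_apply hf D x
/-- an effective divisor below another one of the same degree -/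
theorem eq_of_le_of_degree {A : Type} {D D' : A →₀ ℤ} (h : D ≤ D') (hd : D'.degree ≤ D.degree) :
    D = D' := by
  have h1 : ∀ i ∈ (D' - D).support, 0 ≤ (D' - D) i := fun i _ => by
    rw [Finsupp.sub_apply]; exact sub_nonneg.2 (h i)
  have h2 : (D' - D).degree = 0 :=
    le_antisymm (by rw [map_sub]; omega) (by rw [Finsupp.degree_apply]; exact Finset.sum_nonneg h1)
  rw [Finsupp.degree_apply, Finset.sum_eq_zero_iff_of_nonneg h1] at h2
  ext i
  by_contra e
  have h3 : (D' - D) i ≠ 0 := by rw [Finsupp.sub_apply]; omega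
  exact h3 (h2 i (Finsupp.mem_support_iff.2 h3))

end Pool.Agent.ZeroCyc
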