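import Pool.Agent.Lib.MP_796ce4_ag.ZY.Gal

/-! Cycle classes. -/

namespace Pool.Agent.ZeroCyc

open Polynomial Module
open scoped Classical IntermediateField PowerSeries

set_option linter.unusedSectionVars false

open scoped LinearAlgebra.Projectivization

variable {K Λ : Type} [Field K] [Field Λ] [Algebra K Λ] {N : ℕ}

variable (Λ N) in
/-- points of projective space -/
abbrev PY : Type := ℙ Λ (Fin (N + 1) → Λ)

/-- the point with homogeneous coordinates `v` -/
noncomputable def pj (v : Fin (N + 1) → Λ) : PY Λ N :=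
  if h : v = 0 then Projectivization.mk Λ 1 one_ne_zero else Projectivization.mk Λ v h

/-- the Galois action on points -/
noncomputable def galY (σ : Λ ≃ₐ[K] Λ) (y : PY Λ N) : PY Λ N := pj (σ ∘ y.rep)

/-- the Galois action on cycles -/
noncomputable def galC (σ : Λ ≃ₐ[K] Λ) : (PY Λ N →₀ ℤ) →+ (PY Λ N →₀ ℤ) :=
  Finsupp.mapDomain.addMonoidHom (galY σ)

variable (K) in
/-- Galois orbit -/
def orb (y : PY Λ N) : Set (PY Λ N) := Set.range fun σ : Λ ≃ₐ[K] Λ => galY σ y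

variable (K) in
/-- average over Galois orbits -/
noncomputable def avg : (PY Λ N →₀ ℤ) →+ (PY Λ N →₀ ℚ) :=
  Finsupp.liftAddHom fun y => zmultiplesHom _
    (((orb K y).ncard : ℚ)⁻¹ • ∑ᶠ y' ∈ orb K y, Finsupp.single y' (1 : ℚ))

variable (Λ N) in
/-- integral cycles as rational cycles -/
noncomputable def incl : (PY Λ N →₀ ℤ) →+ (PY Λ N →₀ ℚ) :=
  Finsupp.mapRange.addMonoidHom (Int.castAddHom ℚ)

variable (J : Ideal (MvPolynomial (Fin (N + 1)) K))

variable (Λ) in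
/-- rational cycles modulo integral rational equivalence, and the degree -/
abbrev VV : Type := ((PY Λ N →₀ ℚ) ⧸ (RatEq J Λ).map (incl Λ N)) × ℚ

/-- the class of the norm from `L` to `K` -/
noncomputable def clL (L : IntermediateField K Λ) : (PY Λ N →₀ ℤ) →+ VV Λ J :=
  (((QuotientAddGroup.mk' _).comp
    (DistribSMul.toAddMonoidHom _ (finrank K L : ℚ))).comp (avg K)).prod
  (((DistribSMul.toAddMonoidHom _ (finrank K L : ℚ)).comp (Int.castAddHom ℚ)).comp Finsupp.degree)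

/-- points of the variety that are rational over `L` -/
def XP (L : IntermediateField K Λ) (y : PY Λ N) : Prop :=
  ∃ v : Fin (N + 1) → Λ, v ≠ 0 ∧ OnX J v ∧ (∀ i, v i ∈ L) ∧ y = pj v

variable (Λ) in
/-- the classes of all closed points -/
noncomputable def Atot : AddSubgroup (VV Λ J) :=
  AddSubgroup.closure {v | ∃ (L : IntermediateField K Λ) (y : PY Λ N), FiniteDimensional K L ∧
    XP J L y ∧ v = clL J L (Finsupp.single y 1)}

variable (Λ) in
/-- the classes of degree zero -/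
noncomputable def Azero : AddSubgroup (VV Λ J) := Atot Λ J ⊓ (AddMonoidHom.snd _ _).ker

variable {J} {L L' : IntermediateField K Λ}

theorem pj_eq {v : Fin (N + 1) → Λ} (h : v ≠ 0) : pj v = Projectivization.mk Λ v h := dif_neg h
theorem pj_rep (y : PY Λ N) : pj y.rep = y := by
  rw [pj_eq y.rep_nonzero, Projectivization.mk_rep]
theorem pj_smul {c : Λ} (hc : c ≠ 0) (v : Fin (N + 1) → Λ) : pj (c • v) = pj v := by
  by_cases h : v = 0
  · rw [h, smul_zero]
  · rw [pj_eq h, pj_eq (smul_ne_zero hc h), Projectivization.mk_eq_mk_iff']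
    exact ⟨c, rfl⟩
theorem cl_comp_smul (σ : Λ ≃ₐ[K] Λ) (c : Λ) (v : Fin (N + 1) → Λ) :
    σ ∘ (c • v) = σ c • (σ ∘ v) := by
  funext i
  simp
theorem cl_exists_rep (v : Fin (N + 1) → Λ) (h : v ≠ 0) :
    ∃ c : Λ, c ≠ 0 ∧ (Projectivization.mk Λ v h).rep = c • v := by
  obtain ⟨c, hc⟩ := Projectivization.exists_smul_eq_mk_rep Λ v h
  exact ⟨c, c.ne_zero, hc.symm⟩
theorem galY_pj (σ : Λ ≃ₐ[K] Λ) (v : Fin (N + 1) → Λ) : galY σ (pj v) = pj (σ ∘ v) := by
  have key : ∀ (w : Fin (N + 1) → Λ) (h : w ≠ 0),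
      galY σ (Projectivization.mk Λ w h) = pj (σ ∘ w) := by
    intro w h
    obtain ⟨c, hc, hw⟩ := cl_exists_rep w h
    rw [galY, hw, cl_comp_smul, pj_smul ((map_ne_zero σ).2 hc)]
  by_cases h : v = 0
  · have h0 : σ ∘ v = 0 := by
      funext i
      simp [h]
    have h1 : σ ∘ (1 : Fin (N + 1) → Λ) = 1 := by
      funext i
      simp
    rw [h0, h, pj, dif_pos rfl, key, h1, pj_eq one_ne_zero]
  · rw [pj_eq h, key]
theorem galY_one (y : PY Λ N) : galY (1 : Λ ≃ₐ[K] Λ) y = y := pj_rep y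
theorem galY_mul (σ τ : Λ ≃ₐ[K] Λ) (y : PY Λ N) : galY (σ * τ) y = galY σ (galY τ y) :=
  (galY_pj σ (τ ∘ y.rep)).symm
theorem galC_single (σ : Λ ≃ₐ[K] Λ) (y : PY Λ N) (n : ℤ) :
    galC σ (Finsupp.single y n) = Finsupp.single (galY σ y) n := Finsupp.mapDomain_single
theorem galC_one (D : PY Λ N →₀ ℤ) : galC (1 : Λ ≃ₐ[K] Λ) D = D := by
  induction D using Finsupp.induction_linear with
  | zero => exact map_zero _
  | add a b ha hb => rw [map_add, ha, hb]
  | single y n => rw [galC_single, galY_one]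
theorem galC_mul (σ τ : Λ ≃ₐ[K] Λ) (D : PY Λ N →₀ ℤ) :
    galC (σ * τ) D = galC σ (galC τ D) := by
  induction D using Finsupp.induction_linear with
  | zero => rw [map_zero, map_zero, map_zero]
  | add a b ha hb => rw [map_add, map_add, map_add, ha, hb]
  | single y n => rw [galC_single, galC_single, galC_single, galY_mul]
theorem clL_apply (D : PY Λ N →₀ ℤ) : clL J L D =
    (QuotientAddGroup.mk ((finrank K L : ℚ) • avg K D), (finrank K L : ℚ) * D.degree) := rfl
theorem clL_snd (D : PY Λ N →₀ ℤ) : (clL J L D).2 = (finrank K L : ℚ) * D.degree := rfl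
theorem clL_eq_nsmul {n : ℕ} (h : n * finrank K L = finrank K L') (D : PY Λ N →₀ ℤ) :
    clL J L' D = n • clL J L D := by
  rw [clL_apply, clL_apply, Prod.smul_mk, ← QuotientAddGroup.mk_nsmul, ← h, Nat.cast_mul, mul_smul,
    Nat.cast_smul_eq_nsmul, nsmul_eq_mul, mul_assoc]
theorem XP.mono {y : PY Λ N} (h : XP J L y) (hL : L ≤ L') : XP J L' y := by
  obtain ⟨v, h0, h1, h2, h3⟩ := h
  exact ⟨v, h0, h1, fun i => hL (h2 i), h3⟩

theorem cl_orb_gal (σ : Λ ≃ₐ[K] Λ) (y : PY Λ N) : orb K (galY σ y) = orb K y := by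
  ext z
  constructor
  · rintro ⟨τ, rfl⟩
    exact ⟨τ * σ, galY_mul τ σ y⟩
  · rintro ⟨τ, rfl⟩
    refine ⟨τ * σ⁻¹, ?_⟩
    show galY (τ * σ⁻¹) (galY σ y) = galY τ y
    rw [← galY_mul, inv_mul_cancel_right]
theorem cl_self_mem_orb (y : PY Λ N) : y ∈ orb K y := ⟨1, galY_one y⟩
theorem cl_mem_orb_comm {y z : PY Λ N} (h : z ∈ orb K y) : y ∈ orb K z := by
  obtain ⟨σ, rfl⟩ := h
  rw [cl_orb_gal]
  exact cl_self_mem_orb y
theorem cl_avg_single (y : PY Λ N) (c : ℤ) : avg K (Finsupp.single y c) =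
    c • ((orb K y).ncard : ℚ)⁻¹ • ∑ᶠ y' ∈ orb K y, Finsupp.single y' (1 : ℚ) :=
  Finsupp.liftAddHom_apply_single _ _ _
theorem cl_gal_inj (σ : Λ ≃ₐ[K] Λ) : Function.Injective (galY (N := N) σ) := fun a b h => by
  rw [← galY_one (K := K) a, ← galY_one (K := K) b, ← inv_mul_cancel σ, galY_mul, galY_mul, h]
theorem cl_degree_galC (σ : Λ ≃ₐ[K] Λ) (D : PY Λ N →₀ ℤ) : (galC σ D).degree = D.degree := by
  induction D using Finsupp.induction_linear with
  | zero => rw [map_zero]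
  | add a b ha hb => rw [map_add, map_add, map_add, ha, hb]
  | single y c => rw [galC_single, Finsupp.degree_single, Finsupp.degree_single]

variable [IsGalois K Λ]

theorem cl_conj_finite (x : Λ) : (Set.range fun σ : Λ ≃ₐ[K] Λ => σ x).Finite := by
  refine ((minpoly K x).rootSet_finite Λ).subset ?_
  rintro _ ⟨σ, rfl⟩
  have hx : IsIntegral K x := Algebra.IsIntegral.isIntegral x
  rw [mem_rootSet_of_ne (minpoly.ne_zero hx), aeval_algEquiv, AlgHom.comp_apply, minpoly.aeval,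
    map_zero]
theorem orb_finite (y : PY Λ N) : (orb K y).Finite := by
  refine ((Set.Finite.pi' fun i => cl_conj_finite (K := K) (y.rep i)).image pj).subset ?_
  rintro _ ⟨σ, rfl⟩
  exact ⟨σ ∘ y.rep, fun i => ⟨σ, rfl⟩, rfl⟩
theorem avg_galC (σ : Λ ≃ₐ[K] Λ) (D : PY Λ N →₀ ℤ) : avg K (galC σ D) = avg K D := by
  induction D using Finsupp.induction_linear with
  | zero => rw [map_zero]
  | add a b ha hb => rw [map_add, map_add, map_add, ha, hb]
  | single y c => rw [galC_single, cl_avg_single, cl_avg_single, cl_orb_gal]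
theorem cl_orb_apply (y z : PY Λ N) :
    (∑ᶠ y' ∈ orb K y, Finsupp.single y' (1 : ℚ)) z = if z ∈ orb K y then 1 else 0 := by
  rw [finsum_mem_eq_finite_toFinset_sum _ (orb_finite y), Finsupp.finsetSum_apply]
  simp only [Finsupp.single_apply]
  rw [Finset.sum_ite_eq']
  simp only [Set.Finite.mem_toFinset]
theorem avg_of_inv {D : PY Λ N →₀ ℤ} (h : ∀ σ : Λ ≃ₐ[K] Λ, galC σ D = D) :
    avg K D = incl Λ N D := by
  have hc : ∀ {y z : PY Λ N}, y ∈ orb K z → D y = D z := by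
    rintro _ z ⟨σ, rfl⟩
    have : (galC σ D) (galY σ z) = D z := Finsupp.mapDomain_apply (cl_gal_inj σ) _ _
    rwa [h] at this
  ext z
  have e : avg K D = ∑ y ∈ D.support, D y •
      ((orb K y).ncard : ℚ)⁻¹ • ∑ᶠ y' ∈ orb K y, Finsupp.single y' (1 : ℚ) := rfl
  have e1 : incl Λ N D z = (D z : ℚ) := rfl
  rw [e, e1, Finsupp.finsetSum_apply]
  have e2 : ∀ y ∈ D.support, (D y • ((orb K y).ncard : ℚ)⁻¹ •
      ∑ᶠ y' ∈ orb K y, Finsupp.single y' (1 : ℚ)) z =
      if y ∈ orb K z then (D z : ℚ) * ((orb K z).ncard : ℚ)⁻¹ else 0 := by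
    intro y _
    rw [Finsupp.smul_apply, Finsupp.smul_apply, cl_orb_apply]
    by_cases hy : y ∈ orb K z
    · rw [if_pos hy, if_pos (cl_mem_orb_comm hy), hc hy, zsmul_eq_mul, smul_eq_mul, mul_one]
      obtain ⟨σ, rfl⟩ := hy
      rw [cl_orb_gal]
    · rw [if_neg hy, if_neg (mt cl_mem_orb_comm hy), smul_zero, smul_zero]
  rw [Finset.sum_congr rfl e2, ← Finset.sum_filter, Finset.sum_const, nsmul_eq_mul]
  by_cases hz : D z = 0
  · rw [hz, Int.cast_zero, zero_mul, mul_zero]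
  have e3 : D.support.filter (· ∈ orb K z) = (orb_finite (K := K) z).toFinset := by
    ext y
    rw [Finset.mem_filter, Set.Finite.mem_toFinset, Finsupp.mem_support_iff]
    exact ⟨fun h => h.2, fun hy => ⟨by rwa [hc hy], hy⟩⟩
  have hpos : ((orb K z).ncard : ℚ) ≠ 0 :=
    Nat.cast_ne_zero.2 ((Set.ncard_pos (orb_finite z)).2 ⟨z, cl_self_mem_orb z⟩).ne'
  rw [e3, ← Set.ncard_eq_toFinset_card _ (orb_finite z)]
  field_simp
theorem clL_gal (σ : Λ ≃ₐ[K] Λ) (D : PY Λ N →₀ ℤ) : clL J L (galC σ D) = clL J L D := by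
  rw [clL_apply, clL_apply, avg_galC, cl_degree_galC]

end Pool.Agent.ZeroCyc
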