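import Pool.Agent.Lib.MP_796ce4_ag.ZY.Cl
import Pool.Agent.Lib.MP_796ce4_ag.ZY.CvW

/-! Decomposition of invariant cycles into orbits; the group `A0`. -/

namespace Pool.Agent.ZeroCyc

open Polynomial Module
open scoped Classical IntermediateField PowerSeries

set_option linter.unusedSectionVars false

theorem orb_fib {A B M : Type} [AddCommGroup M] (H : AddSubgroup M) (g : A → M) (κ : A → B)
    (s : Finset A)
    (h : ∀ a ∈ s, ∀ t : Finset A, (∀ b, b ∈ t ↔ b ∈ s ∧ κ b = κ a) → ∑ b ∈ t, g b ∈ H) :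
    ∑ a ∈ s, g a ∈ H := by
  rw [← Finset.sum_fiberwise_of_maps_to (t := s.image κ)
    (fun a ha => Finset.mem_image_of_mem κ ha)]
  refine sum_mem fun c hc => ?_
  obtain ⟨a, ha, rfl⟩ := Finset.mem_image.1 hc
  exact h a ha _ fun b => Finset.mem_filter

section

variable {K Λ : Type} [Field K] [CharZero K] [Field Λ] [IsAlgClosed Λ] [Algebra K Λ] [IsGalois K Λ]
  {N : ℕ} {J : Ideal (MvPolynomial (Fin (N + 1)) K)}

theorem orb_fix_iff {L : IntermediateField K Λ} {σ : Λ ≃ₐ[K] Λ} :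
    σ ∈ L.fixingSubgroup ↔ Fix L σ := IntermediateField.mem_fixingSubgroup_iff L σ

theorem orb_fld {ι : Type} [Fintype ι] (x : ι → Λ) (L : IntermediateField K Λ)
    [FiniteDimensional K L] : ∃ L' : IntermediateField K Λ, L ≤ L' ∧ FiniteDimensional K L' ∧
      (∀ i, x i ∈ L') ∧
      (MulAction.orbit L.fixingSubgroup x).ncard * finrank K L = finrank K L' := by
  have hS : (Set.range x).Finite := Set.finite_range _
  have := hS.to_subtype
  have : FiniteDimensional K (IntermediateField.adjoin K (Set.range x)) :=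
    IntermediateField.finiteDimensional_adjoin fun x _ => Algebra.IsIntegral.isIntegral x
  have hx : ∀ i, x i ∈ L ⊔ IntermediateField.adjoin K (Set.range x) := fun i =>
    (le_sup_right : IntermediateField.adjoin K (Set.range x) ≤ _)
      (IntermediateField.subset_adjoin K _ ⟨i, rfl⟩)
  refine ⟨L ⊔ IntermediateField.adjoin K (Set.range x), le_sup_left, inferInstance, hx, ?_⟩
  have h1 : (L ⊔ IntermediateField.adjoin K (Set.range x)).fixingSubgroup =
      MulAction.stabilizer (Λ ≃ₐ[K] Λ) x ⊓ L.fixingSubgroup := by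
    apply le_antisymm
    · intro σ hσ
      rw [orb_fix_iff] at hσ
      exact ⟨funext fun i => hσ _ (hx i), orb_fix_iff.2 (hσ.mono le_sup_left)⟩
    · rw [← IntermediateField.le_iff_le, sup_le_iff, IntermediateField.adjoin_le_iff]
      constructor
      · intro y hy
        rw [IntermediateField.mem_fixedField_iff]
        exact fun σ hσ => orb_fix_iff.1 hσ.2 y hy
      · rintro _ ⟨i, rfl⟩
        rw [SetLike.mem_coe, IntermediateField.mem_fixedField_iff]
        exact fun σ hσ => congrFun hσ.1 i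
  rw [IntermediateField.finrank_eq_fixingSubgroup_index,
    IntermediateField.finrank_eq_fixingSubgroup_index, h1,
    ← Subgroup.relIndex_mul_index (inf_le_right : MulAction.stabilizer (Λ ≃ₐ[K] Λ) x ⊓
      L.fixingSubgroup ≤ _), Subgroup.inf_relIndex_right, ← MulAction.index_stabilizer]
  rfl

theorem orb_mem {A ι : Type} [Fintype ι] (crd : A → ι → Λ) (hinj : Function.Injective crd)
    (act : (Λ ≃ₐ[K] Λ) → A → A) (hact : ∀ σ a, crd (act σ a) = σ ∘ crd a)
    (L : IntermediateField K Λ) [FiniteDimensional K L] (D : A →₀ ℤ)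
    (hD : ∀ σ, Fix L σ → psh (act σ) D = D) (f : A → PY Λ N →₀ ℤ)
    (hf : ∀ σ a, Fix L σ → D a ≠ 0 → f (act σ a) = galC σ (f a)) (H : AddSubgroup (VV Λ J))
    (hH : ∀ a, D a ≠ 0 → ∀ L', L ≤ L' → FiniteDimensional K L' → (∀ i, crd a i ∈ L') →
      clL J L' (f a) ∈ H) : clL J L (D.sum fun a n => n • f a) ∈ H := by
  have hai : ∀ σ, Function.Injective (act σ) := fun σ a b e => hinj (by
    have := congrArg crd e
    rw [hact, hact] at this
    exact σ.injective.comp_left this)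
  have hDa : ∀ σ a, Fix L σ → D (act σ a) = D a := fun σ a hσ => by
    conv_lhs => rw [← hD σ hσ]
    exact psh_apply_inj (hai σ) D a
  rw [Finsupp.sum, map_sum]
  refine orb_fib H _ (fun a => MulAction.orbit L.fixingSubgroup (crd a)) _ fun a ha t ht => ?_
  have ha0 := Finsupp.mem_support_iff.1 ha
  obtain ⟨L', h1, h2, h3, h4⟩ := orb_fld (crd a) L
  have key : ∀ b, MulAction.orbit L.fixingSubgroup (crd b) =
      MulAction.orbit L.fixingSubgroup (crd a) ↔ ∃ σ, Fix L σ ∧ act σ a = b := by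
    intro b
    rw [MulAction.orbit_eq_iff]
    constructor
    · rintro ⟨σ, hσ⟩
      exact ⟨σ, orb_fix_iff.1 σ.2, hinj ((hact σ a).trans hσ)⟩
    · rintro ⟨σ, hσ, rfl⟩
      exact ⟨⟨σ, orb_fix_iff.2 hσ⟩, (hact σ a).symm⟩
  have hc : t.card = (MulAction.orbit L.fixingSubgroup (crd a)).ncard := by
    rw [← Set.ncard_coe_finset, ← Set.ncard_image_of_injective _ hinj]
    congr 1
    ext z
    constructor
    · rintro ⟨b, hb, rfl⟩
      exact MulAction.orbit_eq_iff.1 ((ht b).1 hb).2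
    · rintro ⟨σ, rfl⟩
      have hσ := orb_fix_iff.1 σ.2
      exact ⟨act σ a, (ht _).2 ⟨Finsupp.mem_support_iff.2 (by rwa [hDa _ _ hσ]),
        (key _).2 ⟨σ, hσ, rfl⟩⟩, hact σ a⟩
  rw [Finset.sum_congr rfl (g := fun _ => D a • clL J L (f a)) fun b hb => ?_, Finset.sum_const,
    hc, smul_comm, ← clL_eq_nsmul h4]
  · exact zsmul_mem (hH a ha0 L' h1 h2 h3) _
  · obtain ⟨σ, hσ, rfl⟩ := (key b).1 ((ht b).1 hb).2
    rw [map_zsmul, hDa _ _ hσ, hf σ a hσ ha0, clL_gal]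

theorem orb_mem₂ (L : IntermediateField K Λ) [FiniteDimensional K L] (D : Λ × Λ →₀ ℤ)
    (hD : ∀ σ, Fix L σ → psh (pm σ) D = D) (f : Λ × Λ → PY Λ N →₀ ℤ)
    (hf : ∀ σ Q, Fix L σ → D Q ≠ 0 → f (pm σ Q) = galC σ (f Q)) (H : AddSubgroup (VV Λ J))
    (hH : ∀ Q, D Q ≠ 0 → ∀ L', L ≤ L' → FiniteDimensional K L' → Q.1 ∈ L' → Q.2 ∈ L' →
      clL J L' (f Q) ∈ H) : clL J L (D.sum fun Q n => n • f Q) ∈ H := by
  refine orb_mem (fun Q : Λ × Λ => ![Q.1, Q.2])
    (fun a b e => Prod.ext (congrFun e 0) (congrFun e 1)) (fun σ => pm σ) (fun σ a => ?_) L D hD f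
    hf H fun Q hQ L' h1 h2 h3 => hH Q hQ L' h1 h2 (h3 0) (h3 1)
  funext i
  fin_cases i <;> rfl

/-- normalised homogeneous coordinates -/
noncomputable def orb_nrm (v : Fin (N + 1) → Λ) : Fin (N + 1) → Λ :=
  (v (Classical.epsilon fun i => v i ≠ 0))⁻¹ • v

theorem orb_eps {v : Fin (N + 1) → Λ} (h : v ≠ 0) : v (Classical.epsilon fun i => v i ≠ 0) ≠ 0 :=
  Classical.epsilon_spec (p := fun i => v i ≠ 0) (Function.ne_iff.1 h)

theorem orb_nrm_smul {c : Λ} (hc : c ≠ 0) (v : Fin (N + 1) → Λ) : orb_nrm (c • v) = orb_nrm v := by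
  have : (fun i => (c • v) i ≠ 0) = fun i => v i ≠ 0 := by
    funext i
    simp [hc]
  rw [orb_nrm, orb_nrm, this, smul_smul, Pi.smul_apply, smul_eq_mul, mul_inv, mul_right_comm,
    inv_mul_cancel₀ hc, one_mul]

theorem orb_nrm_gal (σ : Λ ≃ₐ[K] Λ) (v : Fin (N + 1) → Λ) : orb_nrm (σ ∘ v) = σ ∘ orb_nrm v := by
  have : (fun i => (σ ∘ v) i ≠ 0) = fun i => v i ≠ 0 := by
    funext i
    simp
  rw [orb_nrm, orb_nrm, this]
  funext i
  simp

theorem orb_gal_ne (σ : Λ ≃ₐ[K] Λ) {v : Fin (N + 1) → Λ} (h : v ≠ 0) : σ ∘ v ≠ 0 := by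
  obtain ⟨i, hi⟩ := Function.ne_iff.1 h
  exact Function.ne_iff.2 ⟨i, by simpa using hi⟩

theorem orb_rep_pj {v : Fin (N + 1) → Λ} (h : v ≠ 0) : ∃ c : Λ, c ≠ 0 ∧ (pj v).rep = c • v := by
  obtain ⟨a, ha⟩ := Projectivization.exists_smul_eq_mk_rep Λ v h
  exact ⟨a, a.ne_zero, by rw [pj_eq h, ← ha]; rfl⟩

theorem orb_pj_nrm (y : PY Λ N) : pj (orb_nrm y.rep) = y := by
  rw [orb_nrm, pj_smul (inv_ne_zero (orb_eps y.rep_nonzero)), pj_rep]

theorem orb_galY_inj (σ : Λ ≃ₐ[K] Λ) : Function.Injective (galY (N := N) σ) := fun a b e => by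
  have := congrArg (galY σ⁻¹) e
  rwa [← galY_mul, ← galY_mul, inv_mul_cancel, galY_one, galY_one] at this

theorem orb_galC_apply (σ : Λ ≃ₐ[K] Λ) (D : PY Λ N →₀ ℤ) (y : PY Λ N) :
    galC σ D (galY σ y) = D y := Finsupp.mapDomain_apply (orb_galY_inj σ) D y

theorem orb_inv_iff {D : PY Λ N →₀ ℤ} :
    (∀ (σ : Λ ≃ₐ[K] Λ) (v : Fin (N + 1) → Λ) (h : v ≠ 0) (h' : σ ∘ v ≠ 0),
      D (Projectivization.mk Λ _ h') = D (Projectivization.mk Λ v h)) ↔
      ∀ σ : Λ ≃ₐ[K] Λ, galC σ D = D := by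
  constructor
  · intro h σ
    ext y
    have e : y = galY σ (galY σ⁻¹ y) := by rw [← galY_mul, mul_inv_cancel, galY_one]
    rw [e, orb_galC_apply]
    generalize galY σ⁻¹ y = z
    rw [galY, pj_eq (orb_gal_ne σ z.rep_nonzero), h σ _ z.rep_nonzero, Projectivization.mk_rep]
  · intro h σ v hv hv'
    rw [← pj_eq, ← pj_eq, ← galY_pj]
    conv_lhs => rw [← h σ]
    exact orb_galC_apply σ D _

theorem orb_clL_bot {D : PY Λ N →₀ ℤ} (h : ∀ σ : Λ ≃ₐ[K] Λ, galC σ D = D) :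
    clL J ⊥ D = (QuotientAddGroup.mk (incl Λ N D), (D.degree : ℚ)) := by
  rw [clL_apply, avg_of_inv h, IntermediateField.finrank_bot, Nat.cast_one, one_smul, one_mul]

theorem orb_cyc (hJ : ∀ (v : Fin (N + 1) → Λ) (c : Λ), OnX J v → OnX J (c • v)) {w : VV Λ J}
    (hw : w ∈ Atot Λ J) : ∃ D : PY Λ N →₀ ℤ, (∀ y, D y ≠ 0 → OnX J y.rep) ∧
      (∀ σ : Λ ≃ₐ[K] Λ, galC σ D = D) ∧ clL J ⊥ D = w := by
  induction hw using AddSubgroup.closure_induction with
  | zero => exact ⟨0, fun _ h => absurd rfl h, fun _ => map_zero _, map_zero _⟩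
  | add a b _ _ ha hb =>
    obtain ⟨D, h1, h2, rfl⟩ := ha
    obtain ⟨D', h1', h2', rfl⟩ := hb
    refine ⟨D + D', fun y h => ?_, fun σ => by rw [map_add, h2, h2'], map_add _ _ _⟩
    by_cases h0 : D y = 0
    · exact h1' y fun h3 => h (by rw [Finsupp.add_apply, h0, h3, add_zero])
    · exact h1 y h0
  | neg a _ ha =>
    obtain ⟨D, h1, h2, rfl⟩ := ha
    exact ⟨-D, fun y h => h1 y fun h3 => h (by rw [Finsupp.neg_apply, h3, neg_zero]),
      fun σ => by rw [map_neg, h2], map_neg _ _⟩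
  | mem a ha =>
    obtain ⟨L, y, hL, ⟨v, hv, hX, hvL, rfl⟩, rfl⟩ := ha
    obtain ⟨n, s, hs⟩ := exists_fam_bot L
    refine ⟨∑ t, galC (s t) (Finsupp.single (pj v) 1), fun y h => ?_, fun σ => ?_, ?_⟩
    · rw [Finsupp.finsetSum_apply] at h
      obtain ⟨t, -, ht⟩ := Finset.exists_ne_zero_of_sum_ne_zero h
      rw [galC_single, galY_pj] at ht
      obtain ⟨c, -, hc⟩ := orb_rep_pj (orb_gal_ne (s t) hv)
      rw [(Finsupp.single_apply_ne_zero.1 ht).1, hc]
      refine hJ _ _ fun G hG => ?_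
      have := MvPolynomial.comp_aeval_apply v (s t : Λ →ₐ[K] Λ) G
      rw [hX G hG, map_zero] at this
      exact this.symm
    · obtain ⟨ρ, hρ⟩ := hs.perm σ (Fix.bot σ)
      rw [map_sum, ← Equiv.sum_comp ρ fun t => galC (s t) (Finsupp.single (pj v) 1)]
      refine Finset.sum_congr rfl fun t _ => ?_
      rw [galC_single, galC_single, galC_single, galY_pj, galY_pj, galY_pj]
      congr 2
      exact funext fun i => hρ t _ (hvL i)
    · rw [map_sum, Finset.sum_congr rfl fun t _ => clL_gal (s t) _, Finset.sum_const,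
        Finset.card_univ, ← clL_eq_nsmul hs.card]

theorem A0_equiv (hJ : ∀ (v : Fin (N + 1) → Λ) (c : Λ), OnX J v → OnX J (c • v)) :
    Nonempty (A0 J Λ ≃+ Azero Λ J) := by
  let Φ : Cyc0 J Λ →+ VV Λ J := (clL J ⊥).comp (Cyc0 J Λ).subtype
  have hΦ : ∀ D, Φ D = (QuotientAddGroup.mk (incl Λ N D.1), 0) := fun D => by
    have := orb_clL_bot (J := J) (orb_inv_iff.1 D.2.2.1)
    rwa [D.2.2.2, Int.cast_zero] at this
  have hinj : Function.Injective (incl Λ N) :=
    Finsupp.mapRange_injective _ (map_zero _) Int.cast_injective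
  have hker : (RatEq J Λ).addSubgroupOf (Cyc0 J Λ) = Φ.ker := by
    ext D
    rw [AddMonoidHom.mem_ker, hΦ, Prod.mk_eq_zero, QuotientAddGroup.eq_zero_iff,
      AddSubgroup.mem_addSubgroupOf, AddSubgroup.mem_map_iff_mem hinj, and_iff_left rfl]
  have hran : Φ.range = Azero Λ J := by
    apply le_antisymm
    · rintro _ ⟨D, rfl⟩
      refine ⟨?_, congrArg Prod.snd (hΦ D)⟩
      have h := orb_mem (J := J) (fun y : PY Λ N => orb_nrm y.rep)
        (fun a b e => by rw [← orb_pj_nrm a, ← orb_pj_nrm b]; exact congrArg pj e)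
        (galY (K := K)) (fun σ y => by
          obtain ⟨c, hc, e⟩ := orb_rep_pj (orb_gal_ne σ y.rep_nonzero)
          rw [galY, e, orb_nrm_smul hc, orb_nrm_gal])
        ⊥ D.1 (fun σ _ => orb_inv_iff.1 D.2.2.1 σ) (fun y => Finsupp.single y 1)
        (fun σ y _ _ => (galC_single σ y 1).symm) (Atot Λ J)
        fun y hy L' _ h2 h3 => AddSubgroup.subset_closure ⟨L', y, h2, ⟨orb_nrm y.rep,
          smul_ne_zero (inv_ne_zero (orb_eps y.rep_nonzero)) y.rep_nonzero,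
          hJ _ _ (D.2.1 y hy), h3, (orb_pj_nrm y).symm⟩, rfl⟩
      simp only [Finsupp.smul_single, smul_eq_mul, mul_one, Finsupp.sum_single] at h
      exact h
    · rintro w ⟨hw, hw0⟩
      obtain ⟨D, h1, h2, rfl⟩ := orb_cyc hJ hw
      have h3 : (clL J ⊥ D).2 = 0 := hw0
      rw [orb_clL_bot h2] at h3
      exact ⟨⟨D, h1, orb_inv_iff.2 h2, Int.cast_eq_zero.1 h3⟩, rfl⟩
  exact ⟨((QuotientAddGroup.quotientAddEquivOfEq hker).trans
    (QuotientAddGroup.quotientKerEquivRange Φ)).trans (AddEquiv.addSubgroupCongr hran)⟩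

end

variable {p : ℕ} {K Λ : Type} [Field K] [CharZero K] [NormedField Λ] [IsUltrametricDist Λ]
  [IsAlgClosed Λ] [Algebra K Λ] [IsGalois K Λ] [Loc p K Λ]

include p

theorem Tower.orbit_mem {N : ℕ} {J : Ideal (MvPolynomial (Fin (N + 1)) K)}
    {B : IntermediateField K Λ} (T : Tower p B) {n : ℕ} (hn : 0 < n) {A : Type} (s : Finset A)
    (ψ : A → A) (hs : ∀ a ∈ s, ψ a ∈ s) (hψ : Set.InjOn ψ s) (f : A → PY Λ N →₀ ℤ)
    (hf : ∀ a ∈ s, f (ψ a) = galC (T.φ ^ n) (f a)) (H : AddSubgroup (VV Λ J))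
    (hH : ∀ a ∈ s, ∀ c, 0 < c → ψ^[c] a = a → (∀ i, 0 < i → i < c → ψ^[i] a ≠ a) →
      clL J (T.U (n * c)) (f a) ∈ H) : clL J (T.U n) (∑ a ∈ s, f a) ∈ H := by
  have hit : ∀ a ∈ s, ∀ i, ψ^[i] a ∈ s := fun a ha i => by
    induction i with
    | zero => exact ha
    | succ i ih => rw [Function.iterate_succ_apply']; exact hs _ ih
  have hcl : ∀ a ∈ s, ∀ i, clL J (T.U n) (f (ψ^[i] a)) = clL J (T.U n) (f a) := fun a ha i => by
    induction i with
    | zero => rfl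
    | succ i ih => rw [Function.iterate_succ_apply', hf _ (hit a ha i), clL_gal, ih]
  rw [map_sum]
  refine orb_fib H _ (fun a => Set.range fun i => ψ^[i] a) _ fun a ha t ht => ?_
  have hper : a ∈ Function.periodicPts ψ := by
    let ψ' : s → s := fun b => ⟨ψ b, hs _ b.2⟩
    have hi : Function.Injective ψ' := fun b c e =>
      Subtype.ext (hψ b.2 c.2 (congrArg Subtype.val e))
    obtain ⟨c, hc, h⟩ := hi.mem_periodicPts ⟨a, ha⟩
    exact ⟨c, hc, h.map (g := Subtype.val) fun _ => rfl⟩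
  have hc := Function.minimalPeriod_pos_of_mem_periodicPts hper
  have he : t = (Finset.range (Function.minimalPeriod ψ a)).image fun i => ψ^[i] a := by
    ext b
    rw [ht, Finset.mem_image]
    constructor
    · rintro ⟨-, h⟩
      obtain ⟨i, hi⟩ : b ∈ Set.range fun i => ψ^[i] a := h ▸ ⟨0, rfl⟩
      exact ⟨_, Finset.mem_range.2 (Nat.mod_lt i hc),
        (Function.iterate_mod_minimalPeriod_eq).trans hi⟩
    · rintro ⟨i, hi, rfl⟩
      refine ⟨hit a ha i, Set.Subset.antisymm ?_ ?_⟩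
      · rintro _ ⟨j, rfl⟩
        exact ⟨j + i, Function.iterate_add_apply _ _ _ _⟩
      · rintro _ ⟨j, rfl⟩
        refine ⟨j + (Function.minimalPeriod ψ a - i), ?_⟩
        change ψ^[_] (ψ^[i] a) = ψ^[j] a
        rw [← Function.iterate_add_apply, add_assoc,
          Nat.sub_add_cancel (Finset.mem_range.1 hi).le, Function.iterate_add_apply,
          Function.iterate_minimalPeriod]
  rw [he, Finset.sum_image fun i hi j hj e => Function.iterate_injOn_Iio_minimalPeriod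
    (Finset.mem_range.1 (Finset.mem_coe.1 hi)) (Finset.mem_range.1 (Finset.mem_coe.1 hj)) e,
    Finset.sum_congr rfl fun i _ => hcl a ha i, Finset.sum_const, Finset.card_range,
    ← clL_eq_nsmul (L' := T.U (n * Function.minimalPeriod ψ a))
      (by rw [T.rank _ hn, T.rank _ (Nat.mul_pos hn hc)]; ring)]
  exact hH a ha _ hc Function.iterate_minimalPeriod fun i h1 h2 =>
    Function.not_isPeriodicPt_of_pos_of_lt_minimalPeriod h1.ne' h2

theorem Tower.clL_mul {N : ℕ} {J : Ideal (MvPolynomial (Fin (N + 1)) K)}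
    {B : IntermediateField K Λ} (T : Tower p B) {n j : ℕ} (hn : 0 < n) (hj : 0 < j)
    (D : PY Λ N →₀ ℤ) : clL J (T.U (n * j)) D = j • clL J (T.U n) D :=
  clL_eq_nsmul (by rw [T.rank _ hn, T.rank _ (Nat.mul_pos hn hj)]; ring) D

end Pool.Agent.ZeroCyc
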