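import Pool.Agent.Lib.MP_796ce4_ag.ZY.CvR

/-! Divisors of leading functions. -/

namespace Pool.Agent.ZeroCyc

open Polynomial Module
open scoped Classical IntermediateField PowerSeries

set_option linter.unusedSectionVars false

variable {𝕜 𝕜' : Type} [Field 𝕜] [IsAlgClosed 𝕜] [Field 𝕜'] [IsAlgClosed 𝕜'] {b δ m m' : ℕ}
  {χ χ₁ χ₂ G G' : 𝕜[X][X]} {Q : 𝕜 × 𝕜} {Z : 𝕜 × 𝕜 →₀ ℤ}

theorem dv_nonneg (χ G : 𝕜[X][X]) : 0 ≤ dv χ G := by
  unfold dv
  split_ifs with h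
  · intro Q
    simp only [Finsupp.coe_zero, Pi.zero_apply, Finsupp.ofSupportFinite_coe]
    split_ifs <;> simp
  · exact le_rfl
theorem Lead.dv_ne_zero (hχ : Wt b δ χ) (h : Lead b m G) :
    dv χ G Q ≠ 0 ↔ Et χ Q ∧ ee Q G = 0 := by
  rw [h.dv_apply hχ]
  by_cases hQ : Et χ Q
  · rw [if_pos hQ, ← van_one hχ.monic hQ, van_iff_le (h.jq_ne hχ hQ)]
    simp only [hQ, true_and]
    omega
  · simp [hQ]
theorem Lead.vanZ_dv (hχ : Wt b δ χ) (h : Lead b m G) : VanZ χ (dv χ G) G := by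
  intro Q hQ
  have hE := ((h.dv_ne_zero hχ).1 hQ).1
  refine ⟨hE, ?_⟩
  rw [h.dv_apply hχ, if_pos hE, Int.toNat_natCast]
  exact van_oq _ _ _
theorem Lead.le_dv (hχ : Wt b δ χ) (h : Lead b m G) (hv : VanZ χ Z G) : Z ≤ dv χ G := by
  intro Q
  by_cases hQ : Z Q = 0
  · rw [hQ]
    exact dv_nonneg χ G Q
  · obtain ⟨hE, hV⟩ := hv Q hQ
    rw [h.dv_apply hχ, if_pos hE]
    have := (van_iff_le (h.jq_ne hχ hE)).1 hV
    omega
theorem Lead.vanZ_of_le (hχ : Wt b δ χ) (h : Lead b m G) (h0 : 0 ≤ Z) (hZ : Z ≤ dv χ G) :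
    VanZ χ Z G := by
  intro Q hQ
  have h1 : (0 : ℤ) ≤ Z Q := h0 Q
  have h2 : Z Q ≤ dv χ G Q := hZ Q
  obtain ⟨hE, hV⟩ := h.vanZ_dv hχ Q (by omega)
  exact ⟨hE, hV.mono (Int.toNat_le_toNat h2)⟩
/-- lower bounds of the right total degree determine the divisor -/
theorem Lead.dv_eq (hχ : Wt b δ χ) (h : Lead b m G) (hv : VanZ χ Z G) (hd : Z.degree = δ * m) :
    dv χ G = Z ∧ Adm χ G := by
  have h1 := eq_of_le_of_degree (h.le_dv hχ hv) (hd ▸ h.degree_dv_le hχ)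
  exact ⟨h1.symm, (h.degree_dv_eq_iff hχ).1 (h1 ▸ hd)⟩
theorem Lead.dv_mul (hχ : Wt b δ χ) (h : Lead b m G) (h' : Lead b m' G') :
    dv χ (G * G') = dv χ G + dv χ G' := by
  ext Q
  rw [Finsupp.add_apply, (h.mul h').dv_apply hχ, h.dv_apply hχ, h'.dv_apply hχ]
  split_ifs with hE
  · rw [oq_mul (h.jq_ne hχ hE) (h'.jq_ne hχ hE)]
    push_cast
    rfl
  · simp
theorem dv_congr (hm : χ.Monic) (hd : χ ∣ G - G') : dv χ G = dv χ G' := by
  have key : ∀ f g : 𝕜 × 𝕜 → ℤ, f = g →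
      (if h : (Function.support f).Finite then Finsupp.ofSupportFinite f h else 0) =
      (if h : (Function.support g).Finite then Finsupp.ofSupportFinite g h else 0) := by
    rintro f g rfl
    rfl
  unfold dv
  refine key _ _ (funext fun Q => ?_)
  split_ifs with hE
  · unfold oq
    rw [jq_congr hm hE hd]
  · rfl
theorem Adm.congr (h : Adm χ G) (hd : χ ∣ G - G') : Adm χ G' := by
  intro Q hQ h0
  refine h Q hQ ?_
  obtain ⟨c, hc⟩ := hd
  have h1 := congrArg (ee Q) hc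
  rw [map_sub, map_mul, h0, sub_zero, show ee Q χ = 0 from hQ, zero_mul] at h1
  exact h1
theorem Lead.dv_map (hχ : Wt b δ χ) (h : Lead b m G) (ha : Adm χ G) (ψ : 𝕜 →+* 𝕜') :
    dv (mp ψ χ) (mp ψ G) = psh (pm ψ) (dv χ G) ∧ Adm (mp ψ χ) (mp ψ G) := by
  have hinj : Function.Injective (pm ψ : 𝕜 × 𝕜 → 𝕜' × 𝕜') := ψ.injective.prodMap ψ.injective
  refine (h.map ψ).dv_eq (hχ.map ψ) ?_ ?_
  · intro Q' hQ'
    obtain ⟨Q, hQ, rfl⟩ := psh_ne_zero hQ'
    obtain ⟨hE, hV⟩ := h.vanZ_dv hχ Q hQ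
    rw [psh_apply_inj hinj]
    exact ⟨(Et.map ψ).2 hE, hV.map hχ.monic hE ψ⟩
  · rw [degree_psh]
    exact (h.degree_dv_eq_iff hχ).2 ha
theorem Lead.dv_split (hχ : Wt b δ (χ₁ * χ₂)) (h₁ : χ₁.Monic) (h₂ : χ₂.Monic) (h : Lead b m G)
    (ha : Adm (χ₁ * χ₂) G) :
    dv (χ₁ * χ₂) G = dv χ₁ G + dv χ₂ G ∧ Adm χ₁ G ∧ Adm χ₂ G := by
  have w₁ := Wt.of_mul hχ h₁ h₂
  have w₂ := Wt.of_mul (mul_comm χ₁ χ₂ ▸ hχ) h₂ h₁
  have o₁ : ∀ Q, On χ₁ Q → On (χ₁ * χ₂) Q := fun Q hQ => by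
    unfold On at hQ ⊢
    rw [map_mul, hQ, zero_mul]
  have o₂ : ∀ Q, On χ₂ Q → On (χ₁ * χ₂) Q := fun Q hQ => by
    unfold On at hQ ⊢
    rw [map_mul, hQ, mul_zero]
  refine ⟨?_, fun Q hQ h0 => ?_, fun Q hQ h0 => ?_⟩
  · ext Q
    rw [Finsupp.add_apply]
    by_cases hE : Et (χ₁ * χ₂) Q
    · rw [h.dv_apply hχ, h.dv_apply w₁, h.dv_apply w₂, if_pos hE]
      rcases et_mul.1 hE with ⟨e, n⟩ | ⟨e, n⟩
      · rw [if_pos e, if_neg fun e' : Et χ₂ Q => n e'.1, add_zero]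
        unfold oq
        rw [jq_mul_left h₁ h₂ e n]
      · rw [if_pos e, if_neg fun e' : Et χ₁ Q => n e'.1, zero_add]
        unfold oq
        rw [mul_comm, jq_mul_left h₂ h₁ e n]
    · have z₁ : dv χ₁ G Q = 0 := by
        by_contra hne
        obtain ⟨e, h0⟩ := (h.dv_ne_zero w₁).1 hne
        exact hE (ha Q (o₁ Q e.1) h0)
      have z₂ : dv χ₂ G Q = 0 := by
        by_contra hne
        obtain ⟨e, h0⟩ := (h.dv_ne_zero w₂).1 hne
        exact hE (ha Q (o₂ Q e.1) h0)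
      rw [h.dv_apply hχ, if_neg hE, z₁, z₂, add_zero]
  · rcases et_mul.1 (ha Q (o₁ Q hQ) h0) with ⟨e, -⟩ | ⟨-, n⟩
    · exact e
    · exact absurd hQ n
  · rcases et_mul.1 (ha Q (o₂ Q hQ) h0) with ⟨-, n⟩ | ⟨e, -⟩
    · exact absurd hQ n
    · exact e
theorem dv_C (hχ : Wt b δ χ) {u : 𝕜[X]} (hu : u.Monic) (Q : 𝕜 × 𝕜) :
    dv χ (C u) Q = if Et χ Q then (u.rootMultiplicity Q.1 : ℤ) else 0 := by
  rw [(lead_C hu).dv_apply hχ, (oq_C χ Q hu.ne_zero).2]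
/-- an etale fibre has `δ` points -/
theorem card_fibre (hχ : Wt b δ χ) {t : 𝕜} (h : ∀ y, On χ (t, y) → Et χ (t, y)) :
    ∃ s : Finset 𝕜, s.card = δ ∧ (∀ y, y ∈ s ↔ On χ (t, y)) ∧
      χ.map (evalRingHom t) = ∏ y ∈ s, (X - C y) := by
  have hm : (χ.map (evalRingHom t)).Monic := hχ.monic.map _
  have hd : (χ.map (evalRingHom t)).natDegree = δ := by rw [hχ.monic.natDegree_map, hχ.deg]
  have hon : ∀ y, (χ.map (evalRingHom t)).IsRoot y ↔ On χ (t, y) := fun y => by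
    unfold On
    rw [ee_eq_eval]
    rfl
  have hn : (χ.map (evalRingHom t)).roots.Nodup := by
    rw [Multiset.nodup_iff_count_le_one]
    intro y
    rw [count_roots]
    by_contra hlt
    obtain ⟨h1, h2⟩ := (one_lt_rootMultiplicity_iff_isRoot hm.ne_zero).1 (not_le.1 hlt)
    refine (h y ((hon y).1 h1)).2 ?_
    rw [ee_eq_eval, ← derivative_map]
    exact h2
  refine ⟨⟨_, hn⟩, ?_, fun y => ?_, ?_⟩
  · rw [← hd]
    exact (IsAlgClosed.splits _).natDegree_eq_card_roots.symm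
  · rw [← hon, ← mem_roots hm.ne_zero]
    rfl
  · exact (IsAlgClosed.splits _).eq_prod_roots_of_monic hm
theorem card_fibre_le (hχ : Wt b δ χ) {t : 𝕜} (s : Finset 𝕜) (h : ∀ y ∈ s, On χ (t, y)) :
    s.card ≤ δ := by
  have hm : (χ.map (evalRingHom t)).Monic := hχ.monic.map _
  have hd : (χ.map (evalRingHom t)).natDegree = δ := by rw [hχ.monic.natDegree_map, hχ.deg]
  rw [← hd]
  refine card_le_degree_of_subset_roots fun y hy => ?_
  rw [mem_roots hm.ne_zero]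
  have := h y hy
  unfold On at this
  rw [ee_eq_eval] at this
  exact this
theorem VanZ.mul {Z' : 𝕜 × 𝕜 →₀ ℤ} (h : VanZ χ Z G) (h' : VanZ χ Z' G') (h0 : 0 ≤ Z)
    (h0' : 0 ≤ Z') : VanZ χ (Z + Z') (G * G') := by
  intro Q hQ
  rw [Finsupp.add_apply] at hQ ⊢
  have v1 : Van χ Q (Z Q).toNat G := by
    by_cases e : Z Q = 0
    · rw [e]; exact van_zero
    · exact (h Q e).2
  have v2 : Van χ Q (Z' Q).toNat G' := by
    by_cases e : Z' Q = 0
    · rw [e]; exact van_zero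
    · exact (h' Q e).2
  refine ⟨?_, ?_⟩
  · by_cases e : Z Q = 0
    · exact (h' Q fun e' => hQ (by rw [e, e', add_zero])).1
    · exact (h Q e).1
  · rw [Int.toNat_add (h0 Q) (h0' Q)]
    exact v1.mul v2
/-- divisors with disjoint supports -/
theorem VanZ.add {Z' : 𝕜 × 𝕜 →₀ ℤ} (h : VanZ χ Z G) (h' : VanZ χ Z' G)
    (hd : ∀ Q, Z Q = 0 ∨ Z' Q = 0) : VanZ χ (Z + Z') G := by
  intro Q hQ
  rw [Finsupp.add_apply] at hQ ⊢
  rcases hd Q with e | e
  · rw [e, zero_add] at hQ ⊢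
    exact h' Q hQ
  · rw [e, add_zero] at hQ ⊢
    exact h Q hQ
/-- a sum of distinct simple zeros -/
theorem vanZ_sum (hm : χ.Monic) {T : Type} {s : Finset T} {P : T → 𝕜 × 𝕜} (hP : Set.InjOn P s)
    (h : ∀ t ∈ s, Et χ (P t) ∧ ee (P t) G = 0) :
    VanZ χ (∑ t ∈ s, Finsupp.single (P t) 1) G := by
  intro Q hQ
  rw [Finsupp.finsetSum_apply] at hQ ⊢
  obtain ⟨t, ht, h0⟩ := Finset.exists_ne_zero_of_sum_ne_zero hQ
  have e : P t = Q := by
    by_contra hne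
    exact h0 (Finsupp.single_eq_of_ne (Ne.symm hne))
  subst e
  rw [Finset.sum_eq_single t]
  · rw [Finsupp.single_eq_same]
    exact ⟨(h t ht).1, (van_one hm (h t ht).1).2 (h t ht).2⟩
  · intro t' ht' hne
    exact Finsupp.single_eq_of_ne fun e => hne (hP ht' ht e.symm)
  · intro hn
    exact absurd ht hn
/-- division by a polynomial in `τ` with etale fibres -/
theorem dvd_of_vanZ (hχ : Wt b δ χ) {v : 𝕜[X]} (hv : v.Monic) (ha : Adm χ (C v))
    (hG : G.degree < δ) (h : VanZ χ (dv χ (C v)) G) : C v ∣ G := by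
  induction hn : v.natDegree generalizing v G with
  | zero =>
    rw [hv.natDegree_eq_zero.1 hn, C_1]
    exact one_dvd _
  | succ n ih =>
    obtain ⟨t, ht⟩ := IsAlgClosed.exists_root v (by
      rw [degree_eq_natDegree hv.ne_zero, hn]
      exact_mod_cast Nat.succ_ne_zero n)
    obtain ⟨v', hv'⟩ := dvd_iff_isRoot.2 ht
    have m' : v'.Monic := (monic_X_sub_C t).of_mul_monic_left (hv' ▸ hv)
    have d' : v'.natDegree = n := by
      rw [hv', (monic_X_sub_C t).natDegree_mul m', natDegree_X_sub_C] at hn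
      omega
    have hV : ∀ Q, Et χ Q → Van χ Q (v.rootMultiplicity Q.1) G := by
      intro Q hE
      by_cases e : v.rootMultiplicity Q.1 = 0
      · rw [e]; exact van_zero
      · have h1 := h Q (by rw [dv_C hχ hv, if_pos hE]; exact_mod_cast e)
        rw [dv_C hχ hv, if_pos hE, Int.toNat_natCast] at h1
        exact h1.2
    have hE : ∀ y, On χ (t, y) → Et χ (t, y) := fun y hy => ha _ hy (by rw [ee_C]; exact ht)
    obtain ⟨s, hs, hmem, -⟩ := card_fibre hχ hE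
    have h0 : G.map (evalRingHom t) = 0 := by
      refine eq_zero_of_degree_lt_of_eval_finset_eq_zero s
        (degree_map_le.trans_lt (hs ▸ hG)) fun y hy => ?_
      have e := hE y ((hmem y).1 hy)
      have h1 := (van_one hχ.monic e).1 ((hV _ e).mono
        ((rootMultiplicity_pos hv.ne_zero).2 ht))
      rwa [ee_eq_eval] at h1
    obtain ⟨G1, hG1⟩ : C (X - C t) ∣ G := by
      rw [C_dvd_iff_dvd_coeff]
      intro i
      rw [dvd_iff_isRoot]
      have h1 := congrArg (fun p => coeff p i) h0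
      simpa using h1
    have h2 : C v' ∣ G1 := by
      refine ih m' (fun Q hQ e => ha Q hQ ?_) ?_ (fun Q hQ => ?_) d'
      · rw [hv', C_mul, map_mul, e, mul_zero]
      · rwa [hG1, degree_C_mul (X_sub_C_ne_zero t)] at hG
      · rw [dv_C hχ m'] at hQ ⊢
        have e : Et χ Q := by
          by_contra hne
          exact hQ (if_neg hne)
        rw [if_pos e, Int.toNat_natCast]
        refine ⟨e, Van.cancel (oq_C χ Q (X_sub_C_ne_zero t)).1 ?_⟩
        rw [(oq_C χ Q (X_sub_C_ne_zero t)).2, ← rootMultiplicity_mul (hv' ▸ hv.ne_zero), ← hv',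
          ← hG1]
        exact hV Q e
    rw [hv', C_mul, hG1]
    exact mul_dvd_mul_left _ h2

end Pool.Agent.ZeroCyc
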