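import Pool.Agent.Lib.MP_796ce4_ag.ZY.R0
import Pool.Agent.Lib.MP_796ce4_ag.ZY.CvD
import Pool.Agent.Lib.MP_796ce4_ag.ZY.MR1

/-! The basic relation: two leading functions on a plane curve mapping to the variety. -/

namespace Pool.Agent.ZeroCyc

open Polynomial Module
open scoped Classical IntermediateField PowerSeries

set_option linter.unusedSectionVars false

theorem mr_psh {A B : Type} (f : A → B) {D : A →₀ ℤ} {T : Finset A} (hT : D.support ⊆ T) :
    psh f D = ∑ Q ∈ T, Finsupp.single (f Q) (D Q) := by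
  conv_lhs => rw [← Finsupp.sum_single D,
    Finsupp.sum_of_support_subset D hT _ fun _ _ => Finsupp.single_zero _]
  rw [map_sum]
  exact Finset.sum_congr rfl fun Q _ => psh_single _ _ _

theorem mr_cen_unique {k F Λ : Type} [Field k] [CharZero k] [Field F] [Algebra k F] [Field Λ]
    [Algebra k Λ] [Algebra.IsAlgebraic k Λ] {τ η : F} {P : Place k F Λ} {Q Q' : Λ × Λ} (h : mr_Cen τ η P Q) (h' : mr_Cen τ η P Q') :
    Q = Q' := by
  have h1 := (h (C X)).unique (h' (C X))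
  have h2 := (h X).unique (h' X)
  rw [mr_ee, mr_ee, mr_ev_C, mr_ev_C, aeval_X, aeval_X] at h1
  rw [mr_ee, mr_ee, mr_ev_X, mr_ev_X] at h2
  exact Prod.ext h1 h2

/-- the divisor of `G / G'` on the smooth complete curve -/
theorem mr_sum {k F Λ : Type} [Field k] [CharZero k] [Field F] [Algebra k F] [Field Λ]
    [IsAlgClosed Λ] [Algebra k Λ] [Algebra.IsAlgebraic k Λ] {N b δ m : ℕ} {χ G G' : k[X][X]}
    {τ η : F} {q : Fin (N + 1) → k[X][X]} (h : mr_FF χ τ η) (hχ : Wt b δ χ)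
    (hi : Irreducible χ) (hG : Lead b m G) (hG' : Lead b m G')
    (ha : Adm (mp (algebraMap k Λ) χ) (mp (algebraMap k Λ) G))
    (ha' : Adm (mp (algebraMap k Λ) χ) (mp (algebraMap k Λ) G'))
    (hq : ∀ Q, On (mp (algebraMap k Λ) χ) Q →
      ee Q (mp (algebraMap k Λ) G) = 0 ∨ ee Q (mp (algebraMap k Λ) G') = 0 →
        (fun i => ee Q (mp (algebraMap k Λ) (q i))) ≠ 0)
    {Q₀ : Λ × Λ} (hQ₀ : Et (mp (algebraMap k Λ) χ) Q₀) :
    ∃ (s : Finset (Place k F Λ)) (y : Place k F Λ → PY Λ N),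
      (∀ P : Place k F Λ, P.ord (mr_ev k τ η G / mr_ev k τ η G') ≠ 0 → P ∈ s) ∧
      (∀ P ∈ s, Sp P (fun i => mr_ev k τ η (q i)) (y P)) ∧
      ∑ P ∈ s, Finsupp.single (y P) (P.ord (mr_ev k τ η G / mr_ev k τ η G')) =
        psh (fun Q => pj fun i => ee Q (mp (algebraMap k Λ) (q i)))
          (dv (mp (algebraMap k Λ) χ) (mp (algebraMap k Λ) G)) -
        psh (fun Q => pj fun i => ee Q (mp (algebraMap k Λ) (q i)))
          (dv (mp (algebraMap k Λ) χ) (mp (algebraMap k Λ) G')) := by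
  have hm := hχ.monic
  have hχ' := hχ.map (algebraMap k Λ)
  have hL := hG.map (algebraMap k Λ)
  have hL' := hG'.map (algebraMap k Λ)
  have hne := mr_ne h hm hQ₀ (hL.jq_ne hχ' hQ₀)
  have hne' := mr_ne h hm hQ₀ (hL'.jq_ne hχ' hQ₀)
  have hex : ∀ Q, ∃ P : Place k F Λ, Et (mp (algebraMap k Λ) χ) Q → mr_Cen τ η P Q := fun Q => by
    by_cases hQ : Et (mp (algebraMap k Λ) χ) Q
    · exact (mr_place h hm hi hQ).exists.imp fun _ hP _ => hP
    · exact (mr_place h hm hi hQ₀).exists.imp fun _ _ hQ' => absurd hQ' hQ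
  choose pl hpl using hex
  obtain ⟨T, hT⟩ : ∃ T, T = (dv (mp (algebraMap k Λ) χ) (mp (algebraMap k Λ) G)).support ∪
      (dv (mp (algebraMap k Λ) χ) (mp (algebraMap k Λ) G')).support := ⟨_, rfl⟩
  have hmem : ∀ Q, Q ∈ T ↔ Et (mp (algebraMap k Λ) χ) Q ∧
      (ee Q (mp (algebraMap k Λ) G) = 0 ∨ ee Q (mp (algebraMap k Λ) G') = 0) := fun Q => by
    rw [hT, Finset.mem_union, Finsupp.mem_support_iff, Finsupp.mem_support_iff,
      hL.dv_ne_zero hχ', hL'.dv_ne_zero hχ', and_or_left]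
  have hy : ∀ Q ∈ T, (fun i => if e : mr_ev k τ η (q i) ∈ (pl Q).v.integer then
      (pl Q).ev ⟨_, e⟩ else 0) = fun i => ee Q (mp (algebraMap k Λ) (q i)) := fun Q hQ => by
    funext i
    obtain ⟨e, e'⟩ := hpl Q ((hmem Q).1 hQ).1 (q i)
    rw [dif_pos e, e']
  refine ⟨T.image pl, fun P => pj fun i => if e : mr_ev k τ η (q i) ∈ P.v.integer then
    P.ev ⟨_, e⟩ else 0, fun P hP => ?_, fun P hP => ?_, ?_⟩
  · by_cases hτ : τ ∈ P.v.integer
    · obtain ⟨Q, hQ, hc⟩ := mr_cen h hm hτ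
      have h1 : ee Q (mp (algebraMap k Λ) G) = 0 ∨ ee Q (mp (algebraMap k Λ) G') = 0 := by
        by_contra h1
        rw [not_or] at h1
        apply hP
        rw [div_eq_mul_inv]
        exact ((hc G).mul ((hc G').inv h1.2)).ord_eq_zero (mul_ne_zero h1.1 (inv_ne_zero h1.2))
      have h2 : Et (mp (algebraMap k Λ) χ) Q := h1.elim (ha Q hQ) (ha' Q hQ)
      exact Finset.mem_image.2 ⟨Q, (hmem Q).2 ⟨h2, h1⟩,
        (mr_place h hm hi h2).unique (hpl Q h2) hc⟩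
    · refine absurd ?_ hP
      rw [div_eq_mul_inv, P.ord_mul hne (inv_ne_zero hne'), P.ord_inv, Place.ord, Place.ord,
        mr_inf h hχ hG hτ, mr_inf h hχ hG' hτ, add_neg_cancel]
  · obtain ⟨Q, hQ, rfl⟩ := Finset.mem_image.1 hP
    beta_reduce
    rw [hy Q hQ]
    have h1 := (hmem Q).1 hQ
    exact sp_of_val (fun i => hpl Q h1.1 (q i)) (hq Q h1.1.1 h1.2)
  · have hinj : Set.InjOn pl T := fun Q hQ Q' hQ' e =>
      mr_cen_unique (hpl Q ((hmem Q).1 hQ).1) (e ▸ hpl Q' ((hmem Q').1 hQ').1)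
    rw [Finset.sum_image hinj,
      mr_psh _ (hT ▸ Finset.subset_union_left : _ ⊆ T),
      mr_psh _ (hT ▸ Finset.subset_union_right : _ ⊆ T), ← Finset.sum_sub_distrib]
    refine Finset.sum_congr rfl fun Q hQ => ?_
    have h1 := ((hmem Q).1 hQ).1
    beta_reduce
    rw [hy Q hQ, ← Finsupp.single_sub, div_eq_mul_inv, Place.ord_mul _ hne (inv_ne_zero hne'),
      Place.ord_inv, mr_ord h hm hi h1 (hpl Q h1) (hL.jq_ne hχ' h1),
      mr_ord h hm hi h1 (hpl Q h1) (hL'.jq_ne hχ' h1), hL.dv_apply hχ', hL'.dv_apply hχ',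
      if_pos h1, if_pos h1, sub_eq_add_neg]

variable {K Λ : Type} [Field K] [CharZero K] [Field Λ] [IsAlgClosed Λ] [Algebra K Λ] [IsGalois K Λ]
  {N : ℕ} {J : Ideal (MvPolynomial (Fin (N + 1)) K)} {L : IntermediateField K Λ}
  [FiniteDimensional K L] {b δ m : ℕ}

/-- the irreducible case -/
theorem MR_irr {χ G G' : L[X][X]} {q : Fin (N + 1) → L[X][X]} (hχ : Wt b δ χ) (hi : Irreducible χ)
    (hG : Lead b m G) (hG' : Lead b m G')
    (hon : ∀ F ∈ J, mp (algebraMap L Λ) χ ∣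
      MvPolynomial.aeval (fun i => mp (algebraMap L Λ) (q i)) F)
    (ha : Adm (mp (algebraMap L Λ) χ) (mp (algebraMap L Λ) G))
    (ha' : Adm (mp (algebraMap L Λ) χ) (mp (algebraMap L Λ) G'))
    (hq : ∀ Q, On (mp (algebraMap L Λ) χ) Q →
      ee Q (mp (algebraMap L Λ) G) = 0 ∨ ee Q (mp (algebraMap L Λ) G') = 0 →
        (fun i => ee Q (mp (algebraMap L Λ) (q i))) ≠ 0) :
    clL J L (psh (fun Q => pj fun i => ee Q (mp (algebraMap L Λ) (q i)))
        (dv (mp (algebraMap L Λ) χ) (mp (algebraMap L Λ) G))) =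
      clL J L (psh (fun Q => pj fun i => ee Q (mp (algebraMap L Λ) (q i)))
        (dv (mp (algebraMap L Λ) χ) (mp (algebraMap L Λ) G'))) := by
  have hχ' := hχ.map (algebraMap L Λ)
  have hL := hG.map (algebraMap L Λ)
  have hL' := hG'.map (algebraMap L Λ)
  by_cases hQ : ∃ Q, Et (mp (algebraMap L Λ) χ) Q ∧
      (ee Q (mp (algebraMap L Λ) G) = 0 ∨ ee Q (mp (algebraMap L Λ) G') = 0)
  swap
  · have h1 : dv (mp (algebraMap L Λ) χ) (mp (algebraMap L Λ) G) = 0 := Finsupp.ext fun Q =>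
      by_contra fun e => hQ ⟨Q, ((hL.dv_ne_zero hχ').1 e).imp_right Or.inl⟩
    have h2 : dv (mp (algebraMap L Λ) χ) (mp (algebraMap L Λ) G') = 0 := Finsupp.ext fun Q =>
      by_contra fun e => hQ ⟨Q, ((hL'.dv_ne_zero hχ').1 e).imp_right Or.inr⟩
    rw [h1, h2]
  obtain ⟨Q₀, hQ₀, hQ₁⟩ := hQ
  obtain ⟨F, _, _, τ, η, h⟩ := mr_field hi
  let : Algebra K F := ((algebraMap L F).comp (algebraMap K L)).toAlgebra
  have : IsScalarTower K L F := IsScalarTower.of_algebraMap_eq fun _ => rfl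
  have : CharZero L := algebraRat.charZero L
  obtain ⟨s, y, hs, hy, e⟩ := mr_sum h hχ hi hG hG' ha ha' hq hQ₀
  have hg : (fun i => mr_ev L τ η (q i)) ≠ 0 := fun e => hq Q₀ hQ₀.1 hQ₁ (funext fun i => by
    obtain ⟨c, hc⟩ := (h.ker _).1 (congrFun e i)
    rw [hc, map_mul, map_mul, hQ₀.1, zero_mul, Pi.zero_apply])
  have hX : OnX J fun i => mr_ev L τ η (q i) := fun A hA => by
    have h1 := hon A hA
    have h2 := MvPolynomial.map_aeval q (mp (algebraMap L Λ)) A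
    have h3 : (mp (algebraMap L Λ)).comp (algebraMap K L[X][X]) = algebraMap K Λ[X][X] :=
      RingHom.ext fun c => by
        rw [RingHom.comp_apply, Polynomial.algebraMap_apply, Polynomial.algebraMap_apply,
          Polynomial.algebraMap_apply, Polynomial.algebraMap_apply, mp_C, map_C]
        rfl
    rw [h3] at h2
    rw [MvPolynomial.aeval_eq_eval₂Hom, ← h2] at h1
    have h4 := (h.ker _).2 ((Polynomial.map_dvd_map (mapRingHom (algebraMap L Λ))
      (Polynomial.map_injective _ (algebraMap L Λ).injective) hχ.monic).1 h1)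
    have h5 := MvPolynomial.comp_aeval_apply q ((mr_ev L τ η).restrictScalars K) A
    exact h5.symm.trans h4
  have h0 := R0 (J := J) (mr_tr h hχ.monic hi) (mr_fin h hχ.monic)
    (div_ne_zero (mr_ne h hχ.monic hQ₀ (hL.jq_ne hχ' hQ₀))
      (mr_ne h hχ.monic hQ₀ (hL'.jq_ne hχ' hQ₀))) hs hg hX y hy
  rw [e, map_sub, Prod.fst_sub, sub_eq_zero] at h0
  refine Prod.ext h0 ?_
  rw [clL_snd, clL_snd, degree_psh, degree_psh, (hL.degree_dv_eq_iff hχ').2 ha,
    (hL'.degree_dv_eq_iff hχ').2 ha']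

theorem mr_ind {G G' : L[X][X]} {q : Fin (N + 1) → L[X][X]} (hG : Lead b m G) (hG' : Lead b m G')
    (δ : ℕ) : ∀ {χ : L[X][X]}, Wt b δ χ → (∀ F ∈ J, mp (algebraMap L Λ) χ ∣
      MvPolynomial.aeval (fun i => mp (algebraMap L Λ) (q i)) F) →
    Adm (mp (algebraMap L Λ) χ) (mp (algebraMap L Λ) G) →
    Adm (mp (algebraMap L Λ) χ) (mp (algebraMap L Λ) G') →
    (∀ Q, On (mp (algebraMap L Λ) χ) Q →
      ee Q (mp (algebraMap L Λ) G) = 0 ∨ ee Q (mp (algebraMap L Λ) G') = 0 →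
        (fun i => ee Q (mp (algebraMap L Λ) (q i))) ≠ 0) →
    clL J L (psh (fun Q => pj fun i => ee Q (mp (algebraMap L Λ) (q i)))
        (dv (mp (algebraMap L Λ) χ) (mp (algebraMap L Λ) G))) =
      clL J L (psh (fun Q => pj fun i => ee Q (mp (algebraMap L Λ) (q i)))
        (dv (mp (algebraMap L Λ) χ) (mp (algebraMap L Λ) G'))) := by
  induction δ using Nat.strong_induction_on with
  | _ δ ih =>
  intro χ hχ hon ha ha' hq
  have hχ' := hχ.map (algebraMap L Λ)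
  have hL := hG.map (algebraMap L Λ)
  have hL' := hG'.map (algebraMap L Λ)
  by_cases h1 : χ = 1
  · subst h1
    have h0 : ∀ Q, ¬Et (mp (algebraMap L Λ) 1) Q := fun Q hQ => by
      have := hQ.1
      rw [map_one, map_one] at this
      exact one_ne_zero this
    have h1 : dv (mp (algebraMap L Λ) 1) (mp (algebraMap L Λ) G) = 0 := Finsupp.ext fun Q =>
      by_contra fun e => h0 Q ((hL.dv_ne_zero hχ').1 e).1
    have h2 : dv (mp (algebraMap L Λ) 1) (mp (algebraMap L Λ) G') = 0 := Finsupp.ext fun Q =>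
      by_contra fun e => h0 Q ((hL'.dv_ne_zero hχ').1 e).1
    rw [h1, h2]
  by_cases hi : Irreducible χ
  · exact MR_irr hχ hi hG hG' hon ha ha' hq
  rw [irreducible_of_monic hχ.monic h1] at hi
  push Not at hi
  obtain ⟨χ₁, χ₂, h₁, h₂, rfl, n₁, n₂⟩ := hi
  have hd := hχ.deg
  rw [h₁.natDegree_mul h₂] at hd
  have p₁ : χ₁.natDegree ≠ 0 := fun e => n₁ (h₁.natDegree_eq_zero.1 e)
  have p₂ : χ₂.natDegree ≠ 0 := fun e => n₂ (h₂.natDegree_eq_zero.1 e)
  have w₁ := hχ.of_mul h₁ h₂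
  have w₂ := (mul_comm χ₁ χ₂ ▸ hχ).of_mul h₂ h₁
  have m₁ : (mp (algebraMap L Λ) χ₁).Monic := h₁.map _
  have m₂ : (mp (algebraMap L Λ) χ₂).Monic := h₂.map _
  rw [map_mul] at hχ' hon ha ha' hq ⊢
  obtain ⟨e, a₁, a₂⟩ := hL.dv_split hχ' m₁ m₂ ha
  obtain ⟨e', a₁', a₂'⟩ := hL'.dv_split hχ' m₁ m₂ ha'
  rw [e, e', map_add, map_add, map_add, map_add,
    ih _ (by omega) w₁ (fun A hA => (dvd_mul_right _ _).trans (hon A hA)) a₁ a₁'
      fun Q hQ => hq Q (by rw [On, map_mul, show ee Q _ = 0 from hQ, zero_mul]),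
    ih _ (by omega) w₂ (fun A hA => (dvd_mul_left _ _).trans (hon A hA)) a₂ a₂'
      fun Q hQ => hq Q (by rw [On, map_mul, show ee Q (mp _ χ₂) = 0 from hQ, mul_zero])]

theorem MR {R : Type} [CommRing R] {φ : R →+* Λ} (hφ : ∀ x, φ x ∈ L) {χ G G' : R[X][X]}
    {q : Fin (N + 1) → R[X][X]} (hχ : Wt b δ χ) (hG : Lead b m G) (hG' : Lead b m G')
    (hon : ∀ F ∈ J, mp φ χ ∣ MvPolynomial.aeval (fun i => mp φ (q i)) F)
    (ha : Adm (mp φ χ) (mp φ G)) (ha' : Adm (mp φ χ) (mp φ G'))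
    (hq : ∀ Q, On (mp φ χ) Q → ee Q (mp φ G) = 0 ∨ ee Q (mp φ G') = 0 →
      (fun i => ee Q (mp φ (q i))) ≠ 0) :
    clL J L (psh (fun Q => pj fun i => ee Q (mp φ (q i))) (dv (mp φ χ) (mp φ G))) =
      clL J L (psh (fun Q => pj fun i => ee Q (mp φ (q i))) (dv (mp φ χ) (mp φ G'))) := by
  have e : ∀ a, mp φ a = mp (algebraMap L Λ) (mp (φ.codRestrict L hφ) a) := fun a => by
    rw [mp_mp]
    rfl
  simp only [e] at hon ha ha' hq ⊢
  exact mr_ind (hG.map _) (hG'.map _) δ (hχ.map _) hon ha ha' hq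

end Pool.Agent.ZeroCyc
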