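import Pool.Agent.Lib.MP_796ce4_ag.ZY.FgB

/-! Lemmas on abelian groups. -/

namespace Pool.Agent.ZeroCyc

open Polynomial Module
open scoped Classical IntermediateField PowerSeries

set_option linter.unusedSectionVars false

variable {V : Type} [AddCommGroup V]

theorem mem_of_coprime {H : AddSubgroup V} {v : V}
    (h : ∀ l : ℕ, l.Prime → ∃ c : ℕ, ¬l ∣ c ∧ c • v ∈ H) : v ∈ H := by
  have h1 : addOrderOf (QuotientAddGroup.mk' H v) = 1 := by
    by_contra hne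
    obtain ⟨l, hl, hd⟩ := Nat.exists_prime_and_dvd hne
    obtain ⟨c, hc, hcv⟩ := h l hl
    refine hc (hd.trans (addOrderOf_dvd_of_nsmul_eq_zero ?_))
    rw [← map_nsmul]
    exact (QuotientAddGroup.eq_zero_iff _).2 hcv
  exact (QuotientAddGroup.eq_zero_iff _).1 (AddMonoid.addOrderOf_eq_one_iff.1 h1)

theorem mem_of_eventually {H : AddSubgroup V} {v : V} {j₀ : ℕ}
    (h : ∀ j, j₀ ≤ j → ∃ c : ℕ, c ∣ j ∧ c • v ∈ H) : v ∈ H := by
  refine mem_of_coprime fun l hl => ?_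
  obtain ⟨c, hc, hcv⟩ := h (l * j₀ + 1)
    ((Nat.le_mul_of_pos_left j₀ hl.pos).trans (Nat.le_succ _))
  refine ⟨c, fun hd => hl.one_lt.ne' (Nat.dvd_one.1 ?_), hcv⟩
  exact (Nat.dvd_add_right (dvd_mul_right l j₀)).1 (hd.trans hc)

theorem mem_mulS {m : ℕ} {H : AddSubgroup V} {x : V} : x ∈ mulS m H ↔ ∃ y ∈ H, m • y = x :=
  Iff.rfl
theorem mulS_mono (m : ℕ) {H H' : AddSubgroup V} (h : H ≤ H') : mulS m H ≤ mulS m H' :=
  AddSubgroup.map_mono h
theorem mulS_le (m : ℕ) (H : AddSubgroup V) : mulS m H ≤ H := by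
  intro x hx
  obtain ⟨y, hy, rfl⟩ := mem_mulS.1 hx
  exact H.nsmul_mem hy m

theorem grp_tower (S : ℕ → AddSubgroup V) (H : AddSubgroup V) (δ : ℕ) (β : ℕ → ℕ)
    (h1 : ∀ n j, 0 < n → 0 < j → ∀ x ∈ S n, j • x ∈ S (n * j))
    (h2 : ∀ a D, 0 < a → 0 < D → β D ≤ a →
      S (a * D) ≤ (⨆ c ∈ Finset.Icc 1 δ, S (a * c)) ⊔ H) (l : ℕ) (hl : 1 < l) :
    ∃ M, ∀ M', M ≤ M' → ∀ n, 0 < n → ∀ x ∈ S n,
      ∃ i, l ^ i • x ∈ (⨆ m ∈ Finset.Icc 1 M', S m) ⊔ H := by
  have hl0 : 0 < l := by omega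
  let B : ℕ := (Finset.Icc 1 δ).sup fun c => β (l * c)
  refine ⟨l ^ B * δ, fun M' hM n hn x hx => ?_⟩
  have key : ∀ i, B ≤ i → (⨆ c ∈ Finset.Icc 1 δ, S (l ^ i * c)) ⊔ H ≤
      (⨆ m ∈ Finset.Icc 1 M', S m) ⊔ H := by
    intro i hi
    induction i, hi using Nat.le_induction with
    | base =>
      refine sup_le_sup_right (iSup₂_le fun c hc => ?_) _
      obtain ⟨hc1, hc2⟩ := Finset.mem_Icc.1 hc
      refine le_iSup₂_of_le (f := fun m (_ : m ∈ Finset.Icc 1 M') => S m) (l ^ B * c) ?_ le_rfl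
      exact Finset.mem_Icc.2 ⟨Nat.mul_pos (pow_pos hl0 _) hc1,
        (Nat.mul_le_mul_left _ hc2).trans hM⟩
    | succ i hi ih =>
      refine sup_le (iSup₂_le fun c hc => ?_) le_sup_right
      obtain ⟨hc1, -⟩ := Finset.mem_Icc.1 hc
      rw [pow_succ, mul_assoc]
      refine (h2 (l ^ i) (l * c) (pow_pos hl0 _) (Nat.mul_pos hl0 hc1) ?_).trans ih
      exact (Finset.le_sup (f := fun c => β (l * c)) hc).trans
        (hi.trans (Nat.lt_pow_self hl).le)
  refine ⟨max B (β n), key (max B (β n)) (le_max_left B (β n))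
    (h2 (l ^ max B (β n)) n (pow_pos hl0 _) hn ?_ ?_)⟩
  · exact (le_max_right _ _).trans (Nat.lt_pow_self hl).le
  · rw [mul_comm]
    exact h1 n _ hn (pow_pos hl0 _) x hx

theorem tower_lemma (S : ℕ → AddSubgroup V) (H : AddSubgroup V) (δ : ℕ) (β : ℕ → ℕ)
    (h1 : ∀ n j, 0 < n → 0 < j → ∀ x ∈ S n, j • x ∈ S (n * j))
    (h2 : ∀ a D, 0 < a → 0 < D → β D ≤ a →
      S (a * D) ≤ (⨆ c ∈ Finset.Icc 1 δ, S (a * c)) ⊔ H) :
    ∃ M, ∀ n, 0 < n → S n ≤ (⨆ m ∈ Finset.Icc 1 M, S m) ⊔ H := by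
  obtain ⟨M2, hM2⟩ := grp_tower S H δ β h1 h2 2 (by norm_num)
  obtain ⟨M3, hM3⟩ := grp_tower S H δ β h1 h2 3 (by norm_num)
  refine ⟨max M2 M3, fun n hn x hx => mem_of_coprime fun l hl => ?_⟩
  by_cases h : l = 2
  · obtain ⟨i, hi⟩ := hM3 _ (le_max_right M2 M3) n hn x hx
    refine ⟨3 ^ i, fun hd => ?_, hi⟩
    have := hl.dvd_of_dvd_pow hd
    rw [h] at this
    norm_num at this
  · obtain ⟨i, hi⟩ := hM2 _ (le_max_left M2 M3) n hn x hx
    exact ⟨2 ^ i, fun hd => h ((Nat.prime_dvd_prime_iff_eq hl Nat.prime_two).1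
      (hl.dvd_of_dvd_pow hd)), hi⟩

/-- `A ≤ ⟨finite set⟩ + H` -/
def FinMod (A H : AddSubgroup V) : Prop :=
  ∃ s : Finset V, (∀ x ∈ s, x ∈ A) ∧ A ≤ AddSubgroup.closure (s : Set V) ⊔ H

theorem grp_left (s s' : Finset V) :
    AddSubgroup.closure (s : Set V) ≤ AddSubgroup.closure ((s ∪ s' : Finset V) : Set V) :=
  AddSubgroup.closure_mono (Finset.coe_subset.2 Finset.subset_union_left)

theorem grp_right (s s' : Finset V) :
    AddSubgroup.closure (s' : Set V) ≤ AddSubgroup.closure ((s ∪ s' : Finset V) : Set V) :=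
  AddSubgroup.closure_mono (Finset.coe_subset.2 Finset.subset_union_right)

theorem FinMod.of_le {A H : AddSubgroup V} (h : A ≤ H) : FinMod A H :=
  ⟨∅, fun _ hx => absurd hx (Finset.notMem_empty _), h.trans le_sup_right⟩
theorem FinMod.mono {A H H' : AddSubgroup V} (h : FinMod A H) (hH : H ≤ H') : FinMod A H' := by
  obtain ⟨s, h1, h2⟩ := h
  exact ⟨s, h1, h2.trans (sup_le_sup_left hH _)⟩
theorem FinMod.sup {A A' H : AddSubgroup V} (h : FinMod A H) (h' : FinMod A' H) :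
    FinMod (A ⊔ A') H := by
  obtain ⟨s, h1, h2⟩ := h
  obtain ⟨s', h1', h2'⟩ := h'
  refine ⟨s ∪ s', fun x hx => ?_, sup_le (h2.trans (sup_le_sup_right (grp_left s s') _))
    (h2'.trans (sup_le_sup_right (grp_right s s') _))⟩
  rcases Finset.mem_union.1 hx with hx | hx
  · exact AddSubgroup.mem_sup_left (h1 x hx)
  · exact AddSubgroup.mem_sup_right (h1' x hx)
theorem FinMod.biSup {T : Type} (s : Finset T) {A : T → AddSubgroup V} {H : AddSubgroup V}
    (h : ∀ t ∈ s, FinMod (A t) H) : FinMod (⨆ t ∈ s, A t) H := by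
  induction s using Finset.induction_on with
  | empty => exact FinMod.of_le (by simp)
  | insert a s _ ih =>
    rw [Finset.iSup_insert]
    exact (h a (Finset.mem_insert_self _ _)).sup
      (ih fun t ht => h t (Finset.mem_insert_of_mem ht))
theorem FinMod.of_le_sup {A A' H : AddSubgroup V} (h : FinMod A' H) (h1 : A' ≤ A)
    (h2 : A ≤ A' ⊔ H) : FinMod A H := by
  obtain ⟨s, h3, h4⟩ := h
  exact ⟨s, fun x hx => h1 (h3 x hx), h2.trans (sup_le h4 le_sup_right)⟩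
theorem FinMod.trans {A H H' : AddSubgroup V} (h : FinMod A H) (h' : FinMod H H') (hH : H ≤ A) :
    FinMod A H' := by
  obtain ⟨s, h1, h2⟩ := h
  obtain ⟨s', h1', h2'⟩ := h'
  refine ⟨s ∪ s', fun x hx => ?_, h2.trans (sup_le ((grp_left s s').trans le_sup_left)
    (h2'.trans (sup_le_sup_right (grp_right s s') _)))⟩
  rcases Finset.mem_union.1 hx with hx | hx
  · exact h1 x hx
  · exact hH (h1' x hx)

theorem fin_of_torsion {A A' H : AddSubgroup V} (h : FinMod A' H) (hA : A ≤ A')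
    (ht : ∀ a ∈ A, ∃ n : ℕ, 0 < n ∧ n • a ∈ H) :
    ∃ t : Finset V, ∀ a ∈ A, ∃ x ∈ t, a - x ∈ H := by
  obtain ⟨s, -, hs⟩ := h
  let π := QuotientAddGroup.mk' H
  let G : AddSubgroup (V ⧸ H) := AddSubgroup.closure ((s.image π : Finset (V ⧸ H)) : Set (V ⧸ H))
  have hG : G.FG := ⟨s.image π, rfl⟩
  have hle : A.map π ≤ G := by
    rw [AddSubgroup.map_le_iff_le_comap]
    refine (hA.trans hs).trans (sup_le ?_ fun x hx => ?_)
    · rw [AddSubgroup.closure_le]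
      intro x hx
      exact AddSubgroup.subset_closure (Finset.mem_coe.2 (Finset.mem_image_of_mem π hx))
    · rw [AddSubgroup.mem_comap, show π x = 0 from (QuotientAddGroup.eq_zero_iff _).2 hx]
      exact G.zero_mem
  have hB : (A.map π).FG := by
    have h1 : (AddSubgroup.toIntSubmodule G).FG := (Submodule.fg_iff_addSubgroup_fg _).2 hG
    have h2 : (AddSubgroup.toIntSubmodule (A.map π)).FG := h1.of_le hle
    exact (Submodule.fg_iff_addSubgroup_fg _).1 h2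
  have : AddGroup.FG (A.map π) := (AddGroup.fg_iff_addSubgroup_fg _).2 hB
  have hT : IsAddTorsion (A.map π) := by
    rintro ⟨_, a, ha, rfl⟩
    obtain ⟨n, hn, hna⟩ := ht a ha
    refine isOfFinAddOrder_iff_nsmul_eq_zero.2 ⟨n, hn, Subtype.ext ?_⟩
    change n • π a = 0
    rw [← map_nsmul]
    exact (QuotientAddGroup.eq_zero_iff _).2 hna
  have hF : ((A.map π : AddSubgroup (V ⧸ H)) : Set (V ⧸ H)).Finite :=
    AddCommGroup.finite_of_fg_isAddTorsion (A.map π) hT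
  refine ⟨hF.toFinset.image Quotient.out, fun a ha => ⟨(π a).out,
    Finset.mem_image_of_mem _ (hF.mem_toFinset.2 ⟨a, ha, rfl⟩), ?_⟩⟩
  rw [← QuotientAddGroup.eq_iff_sub_mem]
  exact (Quotient.out_eq _).symm

theorem exists_ser {p : ℕ} {H : AddSubgroup V} (h : FinMod H (mulS p H))
    (h' : ∀ x ∈ H, ∃ y ∈ H, PSer p H y ∧ x - y ∈ mulS p H) : ∃ s : Finset V, (∀ x ∈ s, x ∈ H) ∧
      H ≤ AddSubgroup.closure (s : Set V) ⊔ mulS p H ∧ ∀ x ∈ s, PSer p H x := by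
  obtain ⟨s, h1, h2⟩ := h
  choose! y hy1 hy2 hy3 using h'
  refine ⟨s.image y, fun x hx => ?_, h2.trans (sup_le ?_ le_sup_right), fun x hx => ?_⟩
  · obtain ⟨z, hz, rfl⟩ := Finset.mem_image.1 hx
    exact hy1 z (h1 z hz)
  · rw [AddSubgroup.closure_le]
    intro x hx
    have e : x = y x + (x - y x) := by abel
    rw [SetLike.mem_coe, e]
    exact AddSubgroup.add_mem_sup
      (AddSubgroup.subset_closure (Finset.mem_coe.2 (Finset.mem_image_of_mem y hx)))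
      (hy3 x (h1 x hx))
  · obtain ⟨z, hz, rfl⟩ := Finset.mem_image.1 hx
    exact hy2 z (h1 z hz)

end Pool.Agent.ZeroCyc
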