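import Pool.Agent.Lib.MP_796ce4_ag.ZY.ChDefs

/-! Identities for polynomials in several variables. -/

namespace Pool.Agent.ZeroCyc

open Polynomial Module
open scoped Classical IntermediateField PowerSeries

set_option linter.unusedSectionVars false

variable {R A : Type} [CommRing R] [CommRing A] {σ τ : Type}

theorem cha_dG_C {M : ℕ} (φ : R →+* A) (x w : Fin M → A) (c : R) :
    dG φ x w (MvPolynomial.C c) = 0 := by
  simp [dG]

theorem cha_dG_add {M : ℕ} (φ : R →+* A) (x w : Fin M → A) (G H : MvPolynomial (Fin M) R) :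
    dG φ x w (G + H) = dG φ x w G + dG φ x w H := by
  simp only [dG, map_add, MvPolynomial.eval₂_add, add_mul, Finset.sum_add_distrib]

theorem cha_dG_mul_X {M : ℕ} (φ : R →+* A) (x w : Fin M → A) (G : MvPolynomial (Fin M) R)
    (i : Fin M) :
    dG φ x w (G * MvPolynomial.X i) = dG φ x w G * x i + MvPolynomial.eval₂ φ x G * w i := by
  have h : ∀ a, MvPolynomial.eval₂ φ x (MvPolynomial.pderiv a (G * MvPolynomial.X i)) * w a =
      MvPolynomial.eval₂ φ x (MvPolynomial.pderiv a G) * w a * x i +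
        if a = i then MvPolynomial.eval₂ φ x G * w i else 0 := by
    intro a
    rw [MvPolynomial.pderiv_mul, MvPolynomial.eval₂_add, MvPolynomial.eval₂_mul,
      MvPolynomial.eval₂_mul, MvPolynomial.eval₂_X]
    by_cases ha : a = i
    · subst ha
      rw [MvPolynomial.pderiv_X_self, MvPolynomial.eval₂_one, if_pos rfl]
      ring
    · rw [MvPolynomial.pderiv_X_of_ne (Ne.symm ha), MvPolynomial.eval₂_zero, if_neg ha]
      ring
  simp only [dG, h, Finset.sum_add_distrib, Finset.sum_ite_eq', Finset.mem_univ, if_true,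
    Finset.sum_mul]

theorem cha_eval₂_sum_comp (φ : R →+* A) (v : σ → A) (F : MvPolynomial σ R) :
    MvPolynomial.eval₂ φ v F = ∑ k ∈ Finset.range (F.totalDegree + 1),
      MvPolynomial.eval₂ φ v (MvPolynomial.homogeneousComponent k F) := by
  rw [← MvPolynomial.eval₂_sum, MvPolynomial.sum_homogeneousComponent]

theorem taylor_mem {M : ℕ} (φ : R →+* A) (𝔫 : Ideal A) (x z : Fin M → A) (hz : ∀ a, z a ∈ 𝔫)
    (G : MvPolynomial (Fin M) R) :
    MvPolynomial.eval₂ φ (x + z) G - MvPolynomial.eval₂ φ x G - dG φ x z G ∈ 𝔫 ^ 2 := by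
  induction G using MvPolynomial.induction_on with
  | C c => simp [cha_dG_C]
  | add G H hG hH =>
    have := Ideal.add_mem _ hG hH
    rw [cha_dG_add, MvPolynomial.eval₂_add, MvPolynomial.eval₂_add]
    convert this using 1
    ring
  | mul_X G i hG =>
    have h1 : dG φ x z G ∈ 𝔫 := Ideal.sum_mem _ fun a _ => Ideal.mul_mem_left _ _ (hz a)
    have h2 : dG φ x z G * z i ∈ 𝔫 ^ 2 := by
      rw [pow_two]
      exact Ideal.mul_mem_mul h1 (hz i)
    have := Ideal.add_mem _ (Ideal.mul_mem_right (x i + z i) _ hG) h2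
    rw [cha_dG_mul_X, MvPolynomial.eval₂_mul, MvPolynomial.eval₂_mul, MvPolynomial.eval₂_X,
      MvPolynomial.eval₂_X, Pi.add_apply]
    convert this using 1
    ring

theorem taylor_smul {M : ℕ} (φ : R →+* A) (c : A) (x w : Fin M → A)
    (G : MvPolynomial (Fin M) R) : ∃ e, MvPolynomial.eval₂ φ (x + c • w) G =
      MvPolynomial.eval₂ φ x G + c * dG φ x w G + c ^ 2 * e := by
  induction G using MvPolynomial.induction_on with
  | C a => exact ⟨0, by simp [cha_dG_C]⟩
  | add G H hG hH =>
    obtain ⟨e, he⟩ := hG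
    obtain ⟨f, hf⟩ := hH
    refine ⟨e + f, ?_⟩
    rw [cha_dG_add, MvPolynomial.eval₂_add, MvPolynomial.eval₂_add, he, hf]
    ring
  | mul_X G i hG =>
    obtain ⟨e, he⟩ := hG
    refine ⟨e * (x i + c * w i) + dG φ x w G * w i, ?_⟩
    rw [cha_dG_mul_X, MvPolynomial.eval₂_mul, MvPolynomial.eval₂_mul, MvPolynomial.eval₂_X,
      MvPolynomial.eval₂_X, he, Pi.add_apply, Pi.smul_apply, smul_eq_mul]
    ring

theorem map_dG {T : Type} [CommRing T] {M : ℕ} (ψ : A →+* T) (φ : R →+* A) (x w : Fin M → A)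
    (G : MvPolynomial (Fin M) R) :
    ψ (dG φ x w G) = dG (ψ.comp φ) (fun a => ψ (x a)) (fun a => ψ (w a)) G := by
  simp only [dG, map_sum, map_mul, MvPolynomial.eval₂_comp_left]
  rfl

theorem dG_map {T : Type} [CommRing T] {M : ℕ} (ψ : A →+* T) (φ : R →+* A) (x w : Fin M → T)
    (G : MvPolynomial (Fin M) R) :
    dG ψ x w (MvPolynomial.map φ G) = dG (ψ.comp φ) x w G := by
  simp only [dG, MvPolynomial.pderiv_map, MvPolynomial.eval₂_map]

theorem eval₂_smul_homog {G : MvPolynomial σ R} {k : ℕ} (hG : G.IsHomogeneous k) (φ : R →+* A)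
    (c : A) (v : σ → A) :
    MvPolynomial.eval₂ φ (c • v) G = c ^ k * MvPolynomial.eval₂ φ v G := by
  rw [MvPolynomial.eval₂_eq, MvPolynomial.eval₂_eq, Finset.mul_sum]
  refine Finset.sum_congr rfl fun d hd => ?_
  have hk : ∑ i ∈ d.support, d i = k := by
    have := hG (MvPolynomial.mem_support_iff.1 hd)
    rw [← this]
    simp [Finsupp.weight_apply, Finsupp.sum]
  simp only [Pi.smul_apply, smul_eq_mul, mul_pow, Finset.prod_mul_distrib,
    Finset.prod_pow_eq_pow_sum, hk]
  ring

/-- a polynomial that vanishes on a line through the origin has vanishing components -/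
theorem eval₂_component_eq_zero {T : Type} [Field T] [Infinite T] (φ : R →+* T)
    (F : MvPolynomial σ R) (v : σ → T) (h : ∀ c : T, MvPolynomial.eval₂ φ (c • v) F = 0) (k : ℕ) :
    MvPolynomial.eval₂ φ v (MvPolynomial.homogeneousComponent k F) = 0 := by
  by_cases hk : F.totalDegree < k
  · rw [MvPolynomial.homogeneousComponent_eq_zero _ _ hk, MvPolynomial.eval₂_zero]
  have hP : (∑ j ∈ Finset.range (F.totalDegree + 1),
      C (MvPolynomial.eval₂ φ v (MvPolynomial.homogeneousComponent j F)) * X ^ j : T[X]) = 0 := by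
    refine Polynomial.funext fun c => ?_
    rw [Polynomial.eval_zero, ← h c, cha_eval₂_sum_comp φ (c • v) F, Polynomial.eval_finsetSum]
    refine Finset.sum_congr rfl fun j _ => ?_
    rw [eval₂_smul_homog (MvPolynomial.homogeneousComponent_isHomogeneous j F),
      Polynomial.eval_mul, Polynomial.eval_C, Polynomial.eval_pow, Polynomial.eval_X, mul_comm]
  have := congrArg (fun P : T[X] => P.coeff k) hP
  simp only [Polynomial.finsetSum_coeff, Polynomial.coeff_C_mul_X_pow, Polynomial.coeff_zero,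
    Finset.sum_ite_eq, Finset.mem_range] at this
  rwa [if_pos (by omega)] at this

/-- Euler's identity -/
theorem dG_self_eq_zero {M : ℕ} (φ : R →+* A) (x : Fin M → A) (G : MvPolynomial (Fin M) R)
    (h : ∀ k, MvPolynomial.eval₂ φ x (MvPolynomial.homogeneousComponent k G) = 0) :
    dG φ x x G = 0 := by
  have h1 : ∀ H : MvPolynomial (Fin M) R, dG φ x x H =
      MvPolynomial.eval₂ φ x (∑ a, MvPolynomial.X a * MvPolynomial.pderiv a H) := by
    intro H
    simp only [dG, MvPolynomial.eval₂_sum, MvPolynomial.eval₂_mul, MvPolynomial.eval₂_X, mul_comm]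
  have h2 : dG φ x x G = ∑ k ∈ Finset.range (G.totalDegree + 1),
      dG φ x x (MvPolynomial.homogeneousComponent k G) := by
    conv_lhs => rw [← MvPolynomial.sum_homogeneousComponent G]
    simp only [dG, map_sum, MvPolynomial.eval₂_sum, Finset.sum_mul]
    exact Finset.sum_comm
  rw [h2]
  refine Finset.sum_eq_zero fun k _ => ?_
  rw [h1, (MvPolynomial.homogeneousComponent_isHomogeneous k G).sum_X_mul_pderiv, nsmul_eq_mul,
    MvPolynomial.eval₂_mul, h k, mul_zero]

/-- homogenisation of `F(l / s)` -/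
theorem exists_homog (F : MvPolynomial σ R) {s : MvPolynomial τ R} {l : σ → MvPolynomial τ R}
    (hs : s.IsHomogeneous 1) (hl : ∀ j, (l j).IsHomogeneous 1) :
    ∃ (D : ℕ) (G : MvPolynomial τ R), G.IsHomogeneous D ∧
      ∀ (T : Type) [Field T] (φ : R →+* T) (v : τ → T), MvPolynomial.eval₂ φ v s ≠ 0 →
        MvPolynomial.eval₂ φ v G = MvPolynomial.eval₂ φ v s ^ D * MvPolynomial.eval₂ φ
          (fun j => MvPolynomial.eval₂ φ v (l j) / MvPolynomial.eval₂ φ v s) F := by
  refine ⟨F.totalDegree, ∑ k ∈ Finset.range (F.totalDegree + 1), s ^ (F.totalDegree - k) *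
    MvPolynomial.aeval l (MvPolynomial.homogeneousComponent k F), ?_, ?_⟩
  · refine MvPolynomial.IsHomogeneous.sum _ _ _ fun k hk => ?_
    have h1 := hs.pow (F.totalDegree - k)
    have h2 := (MvPolynomial.homogeneousComponent_isHomogeneous k F).aeval l hl
    have h3 := h1.mul h2
    have e : 1 * (F.totalDegree - k) + 1 * k = F.totalDegree := by
      have := Finset.mem_range.1 hk
      omega
    rwa [e] at h3
  · intro T _ φ v hv
    rw [cha_eval₂_sum_comp φ _ F, MvPolynomial.eval₂_sum, Finset.mul_sum]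
    refine Finset.sum_congr rfl fun k hk => ?_
    have hk' : k ≤ F.totalDegree := Nat.lt_succ_iff.1 (Finset.mem_range.1 hk)
    have e1 : (fun j => MvPolynomial.eval₂ φ v (l j) / MvPolynomial.eval₂ φ v s) =
        (MvPolynomial.eval₂ φ v s)⁻¹ • fun j => MvPolynomial.eval₂ φ v (l j) := by
      funext j
      simp [div_eq_inv_mul]
    have e2 : MvPolynomial.eval₂ φ v (MvPolynomial.aeval l
        (MvPolynomial.homogeneousComponent k F)) = MvPolynomial.eval₂ φ
          (fun j => MvPolynomial.eval₂ φ v (l j)) (MvPolynomial.homogeneousComponent k F) := by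
      have := MvPolynomial.map_aeval l (MvPolynomial.eval₂Hom φ v)
        (MvPolynomial.homogeneousComponent k F)
      simpa using this
    rw [e1, eval₂_smul_homog (MvPolynomial.homogeneousComponent_isHomogeneous k F),
      MvPolynomial.eval₂_mul, MvPolynomial.eval₂_pow, e2, ← mul_assoc, pow_sub₀ _ hv hk', inv_pow]

/-- restriction of a form to a line -/
theorem homog_top {F : MvPolynomial σ R} {e : ℕ} (hF : F.IsHomogeneous e) (φ : R →+* A)
    (a c : σ → A) :
    (MvPolynomial.eval₂ (C.comp φ) (fun j => C (a j) + C (c j) * X) F).natDegree ≤ e ∧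
      (MvPolynomial.eval₂ (C.comp φ) (fun j => C (a j) + C (c j) * X) F).coeff e =
        MvPolynomial.eval₂ φ c F := by
  rw [MvPolynomial.eval₂_eq, MvPolynomial.eval₂_eq]
  have hk : ∀ d ∈ F.support, ∑ i ∈ d.support, d i = e := by
    intro d hd
    have := hF (MvPolynomial.mem_support_iff.1 hd)
    rw [← this]
    simp [Finsupp.weight_apply, Finsupp.sum]
  have h1 : ∀ j, (C (a j) + C (c j) * X : A[X]).natDegree ≤ 1 := fun j => by
    rw [add_comm]
    exact Polynomial.natDegree_linear_le
  have h2 : ∀ j n, ((C (a j) + C (c j) * X : A[X]) ^ n).natDegree ≤ n := fun j n =>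
    Polynomial.natDegree_pow_le.trans (by simpa using Nat.mul_le_mul_left n (h1 j))
  have h3 : ∀ j n, ((C (a j) + C (c j) * X : A[X]) ^ n).coeff n = c j ^ n := fun j n => by
    have := Polynomial.coeff_pow_of_natDegree_le (m := n) (h1 j)
    rw [mul_one] at this
    rw [this]
    simp
  have h4 : ∀ (d : σ →₀ ℕ) (t : Finset σ),
      (∏ i ∈ t, (C (a i) + C (c i) * X : A[X]) ^ d i).natDegree ≤ ∑ i ∈ t, d i ∧
      (∏ i ∈ t, (C (a i) + C (c i) * X : A[X]) ^ d i).coeff (∑ i ∈ t, d i) =
        ∏ i ∈ t, c i ^ d i := by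
    intro d t
    induction t using Finset.induction_on with
    | empty => simp
    | insert i t hi ih =>
      rw [Finset.prod_insert hi, Finset.prod_insert hi, Finset.sum_insert hi]
      refine ⟨Polynomial.natDegree_mul_le.trans (add_le_add (h2 _ _) ih.1), ?_⟩
      rw [Polynomial.coeff_mul_add_eq_of_natDegree_le (h2 _ _) ih.1, h3, ih.2]
  constructor
  · refine Polynomial.natDegree_sum_le_of_forall_le _ _ fun d hd => ?_
    rw [RingHom.comp_apply, ← hk d hd]
    exact (Polynomial.natDegree_C_mul_le _ _).trans (h4 d _).1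
  · rw [Polynomial.finsetSum_coeff]
    refine Finset.sum_congr rfl fun d hd => ?_
    rw [RingHom.comp_apply, Polynomial.coeff_C_mul, ← hk d hd, (h4 d _).2]

/-- a polynomial that vanishes at all points over an infinite overfield is zero -/
theorem eq_zero_of_eval₂ {T : Type} [Field T] [Infinite T] {φ : R →+* T}
    (hφ : Function.Injective φ) {F : MvPolynomial σ R}
    (h : ∀ v : σ → T, MvPolynomial.eval₂ φ v F = 0) : F = 0 := by
  apply MvPolynomial.map_injective φ hφ
  rw [map_zero]
  refine MvPolynomial.funext fun v => ?_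
  rw [MvPolynomial.eval_map, h v, map_zero]

end Pool.Agent.ZeroCyc
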