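import Pool.Agent.Lib.MP_796ce4_ag.ZY.ChDefs

/-! Descent of the hypersurface model to a finite level. -/

namespace Pool.Agent.ZeroCyc

open Polynomial Module
open scoped Classical IntermediateField PowerSeries

set_option linter.unusedSectionVars false

variable {S κ Λ : Type} [CommRing S] [Field κ] [Field Λ] {M : ℕ} {ι : S →+* Λ} {r : S →+* κ}
  {Z : Set (Fin M → Λ)} {S' : ℕ → Type} [∀ i, CommRing (S' i)] {e : ∀ i, S' i →+* S}

theorem chg_mv (hev : ∀ c : S, ∀ᶠ i in Filter.atTop, c ∈ (e i).range) {d : ℕ}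
    (g : MvPolynomial (Fin d) S) :
    ∀ᶠ i in Filter.atTop, g ∈ (MvPolynomial.map (σ := Fin d) (e i)).range := by
  induction g using MvPolynomial.induction_on with
  | C c =>
    filter_upwards [hev c] with i hi
    obtain ⟨c', rfl⟩ := hi
    exact ⟨MvPolynomial.C c', MvPolynomial.map_C _ _⟩
  | add p q hp hq =>
    filter_upwards [hp, hq] with i h1 h2
    exact add_mem h1 h2
  | mul_X p n hp =>
    filter_upwards [hp] with i h1
    exact mul_mem h1 ⟨MvPolynomial.X n, MvPolynomial.map_X _ _⟩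

theorem eventually_mq (hev : ∀ c : S, ∀ᶠ i in Filter.atTop, c ∈ (e i).range) {d : ℕ}
    (q : MP d S) : ∀ᶠ i in Filter.atTop, q ∈ (mq (e i)).range := by
  induction q using Polynomial.induction_on' with
  | add p q hp hq =>
    filter_upwards [hp, hq] with i h1 h2
    exact add_mem h1 h2
  | monomial n g =>
    filter_upwards [chg_mv hev g] with i hi
    obtain ⟨g', rfl⟩ := hi
    exact ⟨monomial n g', by simp⟩

theorem Pre.descend (he : ∀ i, Function.Injective (e i))
    (hev : ∀ c : S, ∀ᶠ i in Filter.atTop, c ∈ (e i).range) (𝒬 : Pre ι Z) {x : Fin M → κ}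
    (h : 𝒬.At r x) : ∃ i, ∃ 𝒬' : Pre (ι.comp (e i)) Z, 𝒬'.At (r.comp (e i)) x := by
  have h1 : ∀ᶠ i in Filter.atTop, ∀ a, 𝒬.s₀ a ∈ (e i).range :=
    Filter.eventually_all.2 fun a => hev _
  have h2 : ∀ᶠ i in Filter.atTop, ∀ k a, 𝒬.s k a ∈ (e i).range :=
    Filter.eventually_all.2 fun k => Filter.eventually_all.2 fun a => hev _
  have h3 : ∀ᶠ i in Filter.atTop, ∀ a, 𝒬.mi a ∈ (mq (e i)).range :=
    Filter.eventually_all.2 fun a => eventually_mq hev _
  have h4 : ∀ᶠ i in Filter.atTop, ∀ a, 𝒬.H a ∈ (e i).range :=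
    Filter.eventually_all.2 fun a => hev _
  have h5 := eventually_mq hev 𝒬.χ
  have h6 := eventually_mq hev 𝒬.D
  have h7 : ∀ᶠ i in Filter.atTop, ∀ a, 𝒬.pp a ∈ (mq (e i)).range :=
    Filter.eventually_all.2 fun a => eventually_mq hev _
  obtain ⟨i, k1, k2, k3, k4, ⟨χ, k5⟩, ⟨D, k6⟩, k7⟩ :=
    (h1.and (h2.and (h3.and (h4.and (h5.and (h6.and h7)))))).exists
  choose s₀ k1 using k1
  choose s k2 using k2
  choose mi k3 using k3
  choose H k4 using k4
  choose pp k7 using k7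
  have inj : Function.Injective (MvPolynomial.map (σ := Fin 𝒬.d) (e i)) :=
    MvPolynomial.map_injective _ (he i)
  have mon : ∀ {f : MP 𝒬.d (S' i)}, (mq (e i) f).Monic → f.Monic := fun hf =>
    monic_of_injective inj hf
  have l0 : ∀ {T : Type} [CommRing T] (φ : S →+* T) (v : Fin M → T),
      lv (φ.comp (e i)) s₀ v = lv φ 𝒬.s₀ v := fun φ v => by
    rw [← lv_comp, funext k1]
  have l1 : ∀ {T : Type} [CommRing T] (φ : S →+* T) (v : Fin M → T),
      (fun k => lv (φ.comp (e i)) (s k) v) = fun k => lv φ (𝒬.s k) v := fun φ v => by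
    funext k
    rw [← lv_comp, funext (k2 k)]
  have l2 : ∀ {T : Type} [CommRing T] (φ : S →+* T) (v : Fin M → T),
      lv (φ.comp (e i)) H v = lv φ 𝒬.H v := fun φ v => by
    rw [← lv_comp, funext k4]
  refine ⟨i,
    { d := 𝒬.d, s₀ := s₀, s := s, mi := mi, H := H, χ := χ, D := D, pp := pp
      monic := fun a => mon (k3 a ▸ 𝒬.monic a)
      root := fun v hv h0 a => ?_
      indep := fun F hF => ?_
      monicχ := mon (k5 ▸ 𝒬.monicχ)
      on := fun v hv h0 => ?_
      pt := fun v hv h0 a => ?_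
      dvd := fun q hq => ?_
      surj := fun y t ht => ?_ }, ?_, ?_, ?_⟩
  · rw [l0] at h0
    rw [l1, ← ev2_mq, k3]
    exact 𝒬.root v hv h0 a
  · refine inj ?_
    rw [map_zero]
    refine 𝒬.indep _ fun v hv h0 => ?_
    rw [MvPolynomial.eval₂_map, ← l1]
    exact hF v hv (by rw [l0]; exact h0)
  · rw [l0] at h0
    rw [l1, l2, ← ev2_mq, k5]
    exact 𝒬.on v hv h0
  · rw [l0] at h0
    rw [l1, l2, ← ev2_mq, ← ev2_mq, k7, k6]
    exact 𝒬.pt v hv h0 a
  · refine (Polynomial.map_dvd_map _ inj (mon (k5 ▸ 𝒬.monicχ))).1 ?_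
    change mq (e i) χ ∣ mq (e i) q
    rw [k5]
    refine 𝒬.dvd _ fun v hv h0 => ?_
    rw [ev2_mq, ← l1, ← l2]
    exact hq v hv (by rw [l0]; exact h0)
  · rw [← ev2_mq, k5] at ht
    obtain ⟨v, hv, a1, a2, a3⟩ := 𝒬.surj y t ht
    exact ⟨v, hv, by rw [l0]; exact a1, by rw [l1]; exact a2, by rw [l2]; exact a3⟩
  · change lv (r.comp (e i)) s₀ x = 1
    rw [l0]
    exact h.one
  · change ev2 (r.comp (e i)) (fun k => lv (r.comp (e i)) (s k) x) (lv (r.comp (e i)) H x) D ≠ 0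
    rw [l1, l2, ← ev2_mq, k6]
    exact h.hD
  · change ev2 (r.comp (e i)) (fun k => lv (r.comp (e i)) (s k) x) (lv (r.comp (e i)) H x)
      (derivative χ) ≠ 0
    have hd : mq (e i) (derivative χ) = derivative 𝒬.χ := by
      rw [← k5]
      exact (Polynomial.derivative_map χ _).symm
    rw [l1, l2, ← ev2_mq, hd]
    exact h.der

end Pool.Agent.ZeroCyc
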