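import Pool.Agent.Lib.MP_796ce4_ag.ZY.ChH

/-! The chart attached to a hypersurface model. -/

namespace Pool.Agent.ZeroCyc

open Polynomial Module
open scoped Classical IntermediateField PowerSeries

set_option linter.unusedSectionVars false

variable {K Λ : Type} [Field K] [NormedField Λ] [IsUltrametricDist Λ] [IsAlgClosed Λ]
  [Algebra K Λ] {N : ℕ} {J : Ideal (MvPolynomial (Fin (N + 1)) K)} {E : IntermediateField K Λ}

theorem exists_wt {R : Type} [CommRing R] {d : ℕ} {χ : MP d R} (hm : χ.Monic) :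
    ∃ b, ∀ i, (χ.coeff i).totalDegree ≤ b * (χ.natDegree - i) := by
  refine ⟨(Finset.range χ.natDegree).sup fun i => (χ.coeff i).totalDegree, fun i => ?_⟩
  rcases lt_trichotomy i χ.natDegree with h | h | h
  · exact (Finset.le_sup (f := fun i => (χ.coeff i).totalDegree) (Finset.mem_range.2 h)).trans
      (Nat.le_mul_of_pos_right _ (Nat.sub_pos_of_lt h))
  · rw [h, hm.coeff_natDegree, MvPolynomial.totalDegree_one]
    exact Nat.zero_le _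
  · rw [coeff_eq_zero_of_natDegree_lt h, MvPolynomial.totalDegree_zero]
    exact Nat.zero_le _

theorem chk_ev2 {R S σ : Type} [CommRing R] [CommRing S] {d : ℕ} (φ : R →+* S) (y : Fin d → S)
    (h : S) (pp : σ → MP d R) (Ξ : MvPolynomial σ R) :
    ev2 φ y h (MvPolynomial.eval₂ (C.comp MvPolynomial.C) pp Ξ) =
      MvPolynomial.eval₂ φ (fun a => ev2 φ y h (pp a)) Ξ := by
  have e : (ev2 φ y h).comp (C.comp MvPolynomial.C) = φ := RingHom.ext fun c => by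
    rw [RingHom.comp_apply, RingHom.comp_apply, ev2_C, MvPolynomial.eval₂_C]
  rw [MvPolynomial.eval₂_comp_left, e]
  rfl

theorem chk_norm {a b : Λ} (ha : ‖a‖ ≤ 1) (hb : ‖b‖ ≤ 1) (h : ‖a * b‖ = 1) :
    ‖a‖ = 1 ∧ ‖b‖ = 1 := by
  rw [norm_mul] at h
  constructor <;> nlinarith [norm_nonneg a, norm_nonneg b]

theorem chk_mv {σ : Type} {v : σ → Λ} (hv : ∀ i, ‖v i‖ ≤ 1) (g : MvPolynomial σ (OL E)) :
    ‖MvPolynomial.eval₂ (OL E).subtype v g‖ ≤ 1 ∧ rs (MvPolynomial.eval₂ (OL E).subtype v g) =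
      MvPolynomial.eval₂ (rL E) (fun i => rs (v i)) g :=
  rs_mv (fun c => (mem_OL.1 c.2).2) (fun c => rL_apply c) hv g

theorem chk_good {d : ℕ} {D₀ : MvPolynomial (Fin d) (OL E)} {α β χ f g k : MP d (OL E)}
    (e : C D₀ = α * χ + β * (f * g * k)) {y : Fin d → Λ} {h : Λ} (hy : ∀ i, ‖y i‖ ≤ 1)
    (hh : ‖h‖ ≤ 1) (h0 : ev2 (OL E).subtype y h χ = 0)
    (h1 : ‖MvPolynomial.eval₂ (OL E).subtype y D₀‖ = 1) :
    ‖ev2 (OL E).subtype y h g‖ = 1 ∧ ‖ev2 (OL E).subtype y h k‖ = 1 := by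
  rw [← ev2_C _ y h, e, map_add, map_mul, h0, mul_zero, zero_add, map_mul] at h1
  have h2 := (chk_norm (rs_ev2' hy hh _).1 (rs_ev2' hy hh _).1 h1).2
  rw [map_mul] at h2
  have h3 := chk_norm (rs_ev2' hy hh _).1 (rs_ev2' hy hh _).1 h2
  have h4 := h3.1
  rw [map_mul] at h4
  exact ⟨(chk_norm (rs_ev2' hy hh _).1 (rs_ev2' hy hh _).1 h4).2, h3.2⟩

section pt

variable {𝒬 : Pre (OL E).subtype {v : Fin (N + 1) → Λ | OnX J v}} {v : Fin (N + 1) → Λ}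

theorem chk_on (hv : 𝒬.Pt v) : 𝒬.vl v 𝒬.χ = 0 := 𝒬.on v hv.1.1 hv.2

theorem chk_pp (hv : 𝒬.Pt v) (a : Fin (N + 1)) : 𝒬.vl v (𝒬.pp a) = 𝒬.vl v 𝒬.D * v a :=
  𝒬.pt v hv.1.1 hv.2 a

theorem chk_pv (hv : 𝒬.Pt v) : (fun a => 𝒬.vl v (𝒬.pp a)) = 𝒬.vl v 𝒬.D • v :=
  funext fun a => chk_pp hv a

theorem chk_not_dvd (hv : 𝒬.Pt v) {f : MP 𝒬.d (OL E)} (hf : ‖𝒬.vl v f‖ = 1) :
    ¬mq (rL E) 𝒬.χ ∣ mq (rL E) f := by
  rintro ⟨g, hg⟩
  have hle := norm_apply_le hv.1.2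
  refine rs_ne_zero.2 hf ?_
  rw [(Pre.rs_vl hle f).2, hg, map_mul, ← (Pre.rs_vl hle 𝒬.χ).2, chk_on hv, rs_zero, zero_mul]

theorem chk_unit (hv : 𝒬.Pt v) {x : Fin (N + 1) → kk Λ} (hx : (fun a => rs (v a)) = x)
    {f : MP 𝒬.d (OL E)}
    (hf : ev2 (rL E) (fun k => lv (rL E) (𝒬.s k) x) (lv (rL E) 𝒬.H x) f ≠ 0) :
    ‖𝒬.vl v f‖ = 1 := by
  refine rs_ne_zero.1 ?_
  rw [(Pre.rs_vl (norm_apply_le hv.1.2) f).2, hx, Pre.vk, ev2_mq, RingHom.id_comp]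
  exact hf

theorem chk_pj (hv : 𝒬.Pt v) {i : Fin (N + 1)} (hi : ‖𝒬.vl v (𝒬.pp i)‖ = 1) :
    pj (fun a => 𝒬.vl v (𝒬.pp a)) = pj v := by
  rw [chk_pv hv]
  refine pj_smul (fun h => ?_) v
  rw [chk_pp hv, h, zero_mul, norm_zero] at hi
  exact zero_ne_one hi

theorem chk_mem {L : IntermediateField K Λ} (hL : E ≤ L) (hv : ∀ i, v i ∈ L)
    (l : Fin (N + 1) → OL E) (i : Fin (N + 1)) : ((lv (OL E).subtype l v)⁻¹ • v) i ∈ L :=
  mul_mem (inv_mem (lv_mem hL hv l)) (hv i)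

theorem chk_at (hc : ∀ (v : Fin (N + 1) → Λ) (c : Λ), OnX J v → OnX J (c • v))
    {P : Fin (N + 1) → Λ} (hP : PrimX J P) (h : 𝒬.At (rL E) fun a => rs (P a))
    {i : Fin (N + 1)} (hi : ‖P i‖ = 1) :
    ‖𝒬.vl ((lv (OL E).subtype 𝒬.s₀ P)⁻¹ • P) (derivative 𝒬.χ)‖ = 1 ∧
      ‖𝒬.vl ((lv (OL E).subtype 𝒬.s₀ P)⁻¹ • P) (𝒬.pp i)‖ = 1 := by
  obtain ⟨-, h2, h3⟩ := h.exists_pt hc hP
  refine ⟨chk_unit h2 h3 h.der, ?_⟩
  have h4 := rs_ne_zero.1 ((congrFun h3 i).trans_ne (rs_ne_zero.2 hi))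
  rw [chk_pp h2, norm_mul, chk_unit h2 h3 h.hD, h4, mul_one]

end pt

theorem Pre.At.exists_D₀ {𝒬 : Pre (OL E).subtype {v : Fin (N + 1) → Λ | OnX J v}}
    (hc : ∀ (v : Fin (N + 1) → Λ) (c : Λ), OnX J v → OnX J (c • v)) (hirr : RedIrr J Λ)
    {P : Fin (N + 1) → Λ} (hP : PrimX J P) (h : 𝒬.At (rL E) fun a => rs (P a))
    {Ξ : MvPolynomial (Fin (N + 1)) (OL E)} (hΞ : NV J Ξ) {i : Fin (N + 1)} (hi : ‖P i‖ = 1) :
    ∃ (D₀ : MvPolynomial (Fin 𝒬.d) (OL E)) (α β : MP 𝒬.d (OL E)), C D₀ = α * 𝒬.χ + β *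
      (derivative 𝒬.χ * 𝒬.pp i * MvPolynomial.eval₂ (C.comp MvPolynomial.C) 𝒬.pp Ξ) ∧
      MvPolynomial.map (rL E) D₀ ≠ 0 := by
  have hi' := h.irreducible hc hirr hP
  have := mv_integrallyClosed (R := kk Λ) 𝒬.d
  refine exists_bezout (MvPolynomial.map (rL E)) 𝒬.monicχ hi' fun hd => ?_
  change mq (rL E) 𝒬.χ ∣ mq (rL E) _ at hd
  rw [map_mul, map_mul] at hd
  obtain ⟨-, h2, -⟩ := h.exists_pt hc hP
  obtain ⟨h3, h4⟩ := chk_at hc hP h hi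
  rcases hi'.prime.dvd_or_dvd hd with hd | hd
  · rcases hi'.prime.dvd_or_dvd hd with hd | hd
    · exact chk_not_dvd h2 h3 hd
    · exact chk_not_dvd h2 h4 hd
  · obtain ⟨v, hv, h5, h6⟩ := h.exists_unit hc hirr hP hΞ
    obtain ⟨k, hk⟩ := hΞ.1
    refine chk_not_dvd hv ?_ hd
    have e : 𝒬.vl v (MvPolynomial.eval₂ (C.comp MvPolynomial.C) 𝒬.pp Ξ) =
        MvPolynomial.eval₂ (OL E).subtype (fun a => 𝒬.vl v (𝒬.pp a)) Ξ := chk_ev2 _ _ _ _ _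
    rw [e, chk_pv hv, eval₂_smul_homog hk, norm_mul, norm_pow, h5, h6, one_pow, mul_one]

theorem Pre.At.exists_chart {𝒬 : Pre (OL E).subtype {v : Fin (N + 1) → Λ | OnX J v}}
    (hc : ∀ (v : Fin (N + 1) → Λ) (c : Λ), OnX J v → OnX J (c • v)) (hirr : RedIrr J Λ)
    {P : Fin (N + 1) → Λ} (hP : PrimX J P) (h : 𝒬.At (rL E) fun a => rs (P a))
    {Ξ : MvPolynomial (Fin (N + 1)) (OL E)} (hΞ : NV J Ξ) : ∃ 𝒞 : Chart J E,
      𝒞.Irr ∧ 𝒞.Adapted P ∧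
      (∀ y h, 𝒞.Gd y h → ‖MvPolynomial.eval₂ (OL E).subtype (𝒞.pv y h) Ξ‖ = 1) ∧
      ∃ Ξ', NV J Ξ' ∧ 𝒞.Covers Ξ' := by
  obtain ⟨i, hi⟩ := exists_norm_eq_one hP.2
  obtain ⟨D₀, α, β, e, hD⟩ := h.exists_D₀ hc hirr hP hΞ hi
  obtain ⟨b, hb⟩ := exists_wt 𝒬.monicχ
  have hi' := h.irreducible hc hirr hP
  have hne : mq (rL E) 𝒬.χ ≠ 1 := hi'.ne_one
  have hpos : 0 < 𝒬.χ.natDegree := Nat.pos_of_ne_zero fun h0 => hne (by
    rw [𝒬.monicχ.natDegree_eq_zero.1 h0, map_one])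
  let 𝒞 : Chart J E :=
    { d := 𝒬.d
      δ := 𝒬.χ.natDegree
      b := b
      χ := 𝒬.χ
      α₀ := α
      β₀ := β * (𝒬.pp i * MvPolynomial.eval₂ (C.comp MvPolynomial.C) 𝒬.pp Ξ)
      α₁ := α
      β₁ := β * (derivative 𝒬.χ * MvPolynomial.eval₂ (C.comp MvPolynomial.C) 𝒬.pp Ξ)
      pp := 𝒬.pp
      D₀ := D₀
      i₀ := i
      monic := 𝒬.monicχ
      deg := rfl
      pos := hpos
      wt := hb
      e₀ := by rw [e]; ring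
      e₁ := by rw [e]; ring
      on := Pre.dvd_aeval hc
      ne := hD }
  obtain ⟨m, G, hG, hG'⟩ := exists_homog D₀ (lp_isHomogeneous 𝒬.s₀)
    fun k => lp_isHomogeneous (𝒬.s k)
  refine ⟨𝒞, hi', ?_, fun y η hg => ?_, lp 𝒬.s₀ * G, ⟨⟨_, (lp_isHomogeneous _).mul hG⟩, ?_⟩,
    fun L v hL hv hp hΞ' => ?_⟩
  · obtain ⟨h1, h2, -⟩ := h.exists_pt hc hP
    obtain ⟨h3, h4⟩ := chk_at hc hP h hi
    have hle := norm_apply_le h2.1.2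
    refine ⟨_, _, ⟨fun k => (rs_lv hle (𝒬.s k)).1, (rs_lv hle 𝒬.H).1, chk_on h2, h3, h4⟩, ?_,
      fun L hL hv => ⟨fun k => lv_mem hL (chk_mem hL hv _) _, lv_mem hL (chk_mem hL hv _) _⟩⟩
    refine ((chk_pj h2 h4).trans (pj_smul (inv_ne_zero fun h0 => ?_) P)).symm
    rw [h0, norm_zero] at h1
    exact zero_ne_one h1
  · have h1 := (chk_good e hg.y_le hg.h_le hg.on hg.unit).2
    rwa [chk_ev2] at h1
  · have h1 : ∃ y, MvPolynomial.eval₂ (rL E) y D₀ ≠ 0 := by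
      by_contra h0
      refine hD (eq_zero_of_eval₂ (φ := RingHom.id (kk Λ)) Function.injective_id fun y => ?_)
      rw [MvPolynomial.eval₂_map, RingHom.id_comp]
      exact not_not.1 fun h2 => h0 ⟨y, h2⟩
    obtain ⟨y, hy⟩ := h1
    obtain ⟨η, hη⟩ := exists_ev2_eq_zero (𝒬.monicχ.map _) hne y
    obtain ⟨v, hv, h2, -⟩ := Pre.exists_pt hη
    have hle := norm_apply_le hv.1.2
    have h3 : MvPolynomial.eval₂ (OL E).subtype v (lp 𝒬.s₀) = 1 := by rw [eval₂_lp, hv.2]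
    refine ⟨v, hv.1, rs_ne_zero.1 ?_⟩
    rw [MvPolynomial.eval₂_mul, hG' Λ _ v (h3.trans_ne one_ne_zero), h3, one_pow, one_mul, one_mul]
    simp only [div_one, eval₂_lp]
    rw [(chk_mv (fun k => (rs_lv hle (𝒬.s k)).1) D₀).2]
    simp only [(rs_lv hle _).2]
    rwa [h2]
  · have hle := norm_apply_le hp.2
    rw [MvPolynomial.eval₂_mul] at hΞ'
    obtain ⟨h1, h2⟩ := chk_norm (chk_mv hle _).1 (chk_mv hle _).1 hΞ'
    have h0 : MvPolynomial.eval₂ (OL E).subtype v (lp 𝒬.s₀) ≠ 0 := fun h0 => by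
      rw [h0, norm_zero] at h1
      exact zero_ne_one h1
    rw [hG' Λ _ v h0, norm_mul, norm_pow, h1, one_pow, one_mul] at h2
    simp only [eval₂_lp] at h0 h1 h2
    have h3 := Pre.pt_smul hc hp h1
    have hle' := norm_apply_le h3.1.2
    have h4 : ‖MvPolynomial.eval₂ (OL E).subtype (fun k => lv (OL E).subtype (𝒬.s k)
        ((lv (OL E).subtype 𝒬.s₀ v)⁻¹ • v)) D₀‖ = 1 := by
      simpa only [lv_smul, div_eq_inv_mul] using h2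
    have h5 := fun k => (rs_lv hle' (𝒬.s k)).1
    have h6 := (rs_lv hle' 𝒬.H).1
    refine ⟨_, _, ⟨⟨h5, h6, chk_on h3, h4⟩, fun k => lv_mem hL (chk_mem hL hv _) _,
      lv_mem hL (chk_mem hL hv _) _⟩, ?_⟩
    exact ((chk_pj h3 (chk_good e h5 h6 (chk_on h3) h4).1).trans (pj_smul (inv_ne_zero h0) v)).symm

end Pool.Agent.ZeroCyc
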