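import Pool.Agent.Lib.MP_796ce4_ag.ZY.ChA

/-! Affine slices of a cone. -/

namespace Pool.Agent.ZeroCyc

open Polynomial Module
open scoped Classical IntermediateField PowerSeries

set_option linter.unusedSectionVars false

variable {S κ Λ : Type} [CommRing S] [Field κ] [Field Λ] {M : ℕ} {ι : S →+* Λ} {r : S →+* κ}
  {Z : Set (Fin M → Λ)} {s₀ : Fin M → S} {x : Fin M → κ}

/-- the slice `s₀ = 1` -/
def slice (ι : S →+* Λ) (Z : Set (Fin M → Λ)) (s₀ : Fin M → S) : Set (Fin M → Λ) :=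
  {v | v ∈ Z ∧ lv ι s₀ v = 1}

theorem vI_le_slice : vI ι Z ≤ vI ι (slice ι Z s₀) := fun _ h v hv => h v hv.1

theorem lp_sub_mem : lp s₀ - MvPolynomial.C 1 ∈ vI ι (slice ι Z s₀) := by
  intro v hv
  rw [MvPolynomial.eval₂_sub, eval₂_lp, hv.2, MvPolynomial.eval₂_C, map_one, sub_self]

theorem chs_inv_mem (hZ : Cone ι Z) {v : Fin M → Λ} (hv : v ∈ Z) (h0 : lv ι s₀ v ≠ 0) :
    (fun a => v a / lv ι s₀ v) ∈ slice ι Z s₀ := by
  have e : (fun a => v a / lv ι s₀ v) = (lv ι s₀ v)⁻¹ • v := by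
    funext a
    rw [Pi.smul_apply, smul_eq_mul, div_eq_inv_mul]
  rw [e]
  exact ⟨hZ.smul _ _ hv, by rw [lv_smul, inv_mul_cancel₀ h0]⟩

theorem chs_homog (s₀ : Fin M → S) (G : MvPolynomial (Fin M) S) :
    ∃ (D : ℕ) (H : MvPolynomial (Fin M) S),
      ∀ (T : Type) [Field T] (φ : S →+* T) (v : Fin M → T), lv φ s₀ v ≠ 0 →
        MvPolynomial.eval₂ φ v H =
          lv φ s₀ v ^ D * MvPolynomial.eval₂ φ (fun a => v a / lv φ s₀ v) G := by
  obtain ⟨D, H, -, hH⟩ := exists_homog G (lp_isHomogeneous s₀)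
    (l := fun a => MvPolynomial.X a) (fun a => MvPolynomial.isHomogeneous_X S a)
  refine ⟨D, H, fun T _ φ v h0 => ?_⟩
  have h := hH T φ v (by rwa [eval₂_lp])
  simpa only [eval₂_lp, MvPolynomial.eval₂_X] using h

theorem Cone.component [Infinite Λ] (hZ : Cone ι Z) {G : MvPolynomial (Fin M) S}
    (hG : G ∈ vI ι Z) (k : ℕ) : MvPolynomial.homogeneousComponent k G ∈ vI ι Z :=
  fun v hv => eval₂_component_eq_zero ι G v (fun c => hG _ (hZ.smul c v hv)) k

theorem Cone.self_mem_tanS [Infinite Λ] (hZ : Cone ι Z)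
    (hx : ∀ G ∈ vI ι Z, MvPolynomial.eval₂ r x G = 0) : x ∈ tanS r (vI ι Z) x :=
  fun G hG => dG_self_eq_zero r x G fun k => hx _ (hZ.component hG k)

/-- a point of the special fibre of the cone lies on the special fibre of the slice -/
theorem Cone.slice_red (hZ : Cone ι Z) (hx : ∀ G ∈ vI ι Z, MvPolynomial.eval₂ r x G = 0)
    (h1 : lv r s₀ x = 1) : ∀ G ∈ vI ι (slice ι Z s₀), MvPolynomial.eval₂ r x G = 0 := by
  intro G hG
  obtain ⟨D, H, hH⟩ := chs_homog s₀ G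
  have hm : lp s₀ * H ∈ vI ι Z := by
    intro v hv
    rw [MvPolynomial.eval₂_mul, eval₂_lp]
    by_cases h0 : lv ι s₀ v = 0
    · rw [h0, zero_mul]
    · rw [hH Λ ι v h0, hG _ (chs_inv_mem hZ hv h0), mul_zero, mul_zero]
  have h := hx _ hm
  rw [MvPolynomial.eval₂_mul, eval₂_lp, hH κ r x (by rw [h1]; exact one_ne_zero), h1] at h
  simpa using h

theorem Cone.isPrime (hZ : Cone ι Z) (hx : ∀ G ∈ vI ι Z, MvPolynomial.eval₂ r x G = 0) :
    (vI ι Z).IsPrime := by
  refine ⟨fun h => ?_, fun {F G} h => hZ.prime F G h⟩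
  have h1 := hx 1 (by rw [h]; trivial)
  rw [MvPolynomial.eval₂_one] at h1
  exact one_ne_zero h1

theorem Cone.slice_isPrime (hZ : Cone ι Z) (hx : ∀ G ∈ vI ι Z, MvPolynomial.eval₂ r x G = 0)
    (h1 : lv r s₀ x = 1) : (vI ι (slice ι Z s₀)).IsPrime := by
  refine ⟨fun h => ?_, fun {F G} h => ?_⟩
  · have h2 := hZ.slice_red hx h1 1 (by rw [h]; trivial)
    rw [MvPolynomial.eval₂_one] at h2
    exact one_ne_zero h2
  · obtain ⟨D, H, hH⟩ := chs_homog s₀ F
    obtain ⟨D', H', hH'⟩ := chs_homog s₀ G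
    have hm : lp s₀ * (H * H') ∈ vI ι Z := by
      intro v hv
      rw [MvPolynomial.eval₂_mul, eval₂_lp]
      by_cases h0 : lv ι s₀ v = 0
      · rw [h0, zero_mul]
      · have h2 := h _ (chs_inv_mem hZ hv h0)
        rw [MvPolynomial.eval₂_mul] at h2
        rw [MvPolynomial.eval₂_mul, hH Λ ι v h0, hH' Λ ι v h0, mul_mul_mul_comm, h2, mul_zero,
          mul_zero]
    have key : ∀ (D : ℕ) (H F : MvPolynomial (Fin M) S), H ∈ vI ι Z →
        (∀ v : Fin M → Λ, lv ι s₀ v ≠ 0 → MvPolynomial.eval₂ ι v H =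
          lv ι s₀ v ^ D * MvPolynomial.eval₂ ι (fun a => v a / lv ι s₀ v) F) →
        F ∈ vI ι (slice ι Z s₀) := by
      intro D H F hm hH v hv
      have h2 := hH v (by rw [hv.2]; exact one_ne_zero)
      rw [hm v hv.1, hv.2] at h2
      simpa using h2.symm
    rcases hZ.prime _ _ hm with h2 | h2
    · have h3 := hx _ h2
      rw [eval₂_lp, h1] at h3
      exact absurd h3 one_ne_zero
    · rcases hZ.prime _ _ h2 with h3 | h3
      · exact Or.inl (key D H F h3 (hH Λ ι))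
      · exact Or.inr (key D' H' G h3 (hH' Λ ι))

theorem Cone.slice_closed (hZ : Cone ι Z) {v : Fin M → Λ}
    (h : ∀ G ∈ vI ι (slice ι Z s₀), MvPolynomial.eval₂ ι v G = 0) : v ∈ slice ι Z s₀ := by
  refine ⟨hZ.closed v fun G hG => h G (vI_le_slice hG), ?_⟩
  have h1 := h _ lp_sub_mem
  rwa [MvPolynomial.eval₂_sub, eval₂_lp, MvPolynomial.eval₂_C, map_one, sub_eq_zero] at h1

/-- independence of the affine coordinates -/
theorem Cone.slice_indep [Infinite Λ] (hZ : Cone ι Z) {d : ℕ} {s : Fin d → Fin M → S}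
    (h : ∀ F : MvPolynomial (Option (Fin d)) S, (∀ v ∈ Z, MvPolynomial.eval₂ ι
      (fun o => o.elim (lv ι s₀ v) fun k => lv ι (s k) v) F = 0) → F = 0)
    (F : MvPolynomial (Fin d) S)
    (hF : ∀ v ∈ Z, lv ι s₀ v = 1 → MvPolynomial.eval₂ ι (fun k => lv ι (s k) v) F = 0) :
    F = 0 := by
  obtain ⟨D, H, -, hH⟩ := exists_homog F (τ := Option (Fin d))
    (MvPolynomial.isHomogeneous_X S none) (l := fun k => MvPolynomial.X (some k))
    (fun k => MvPolynomial.isHomogeneous_X S (some k))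
  have h0 : MvPolynomial.X none * H = 0 := by
    refine h _ fun v hv => ?_
    rw [MvPolynomial.eval₂_mul, MvPolynomial.eval₂_X]
    by_cases h0 : lv ι s₀ v = 0
    · simp [h0]
    · have h1 := hH Λ ι (fun o => o.elim (lv ι s₀ v) fun k => lv ι (s k) v)
        (by simpa using h0)
      have h2 := hF ((lv ι s₀ v)⁻¹ • v) (hZ.smul _ _ hv) (by rw [lv_smul, inv_mul_cancel₀ h0])
      simp only [MvPolynomial.eval₂_X, Option.elim_none, Option.elim_some] at h1
      simp only [lv_smul, ← div_eq_inv_mul] at h2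
      rw [h1, h2, mul_zero, mul_zero]
  refine eq_zero_of_eval₂ hZ.inj fun y => ?_
  have h1 := hH Λ ι (fun o => o.elim 1 y) (by simp)
  have h2 := congrArg (MvPolynomial.eval₂ ι (fun o : Option (Fin d) => o.elim 1 y)) h0
  rw [MvPolynomial.eval₂_mul, h1] at h2
  simpa using h2

end Pool.Agent.ZeroCyc
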