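import Pool.Agent.Lib.MP_796ce4_ag.ZY.ChC
import Pool.Agent.Lib.MP_796ce4_ag.ZY.ChS

/-! Existence of a finite linear projection that is unramified at a given point. -/

namespace Pool.Agent.ZeroCyc

open Polynomial Module
open scoped Classical IntermediateField PowerSeries

set_option linter.unusedSectionVars false

variable {S κ Λ : Type} [CommRing S] [Field κ] [Field Λ] {M : ℕ} {ι : S →+* Λ} {r : S →+* κ}
  {Z : Set (Fin M → Λ)}

/-- evaluation of the coordinate ring at a point -/
noncomputable def chp_ev (ι : S →+* Λ) {Z : Set (Fin M → Λ)} {v : Fin M → Λ} (hv : v ∈ Z) :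
    (MvPolynomial (Fin M) S ⧸ vI ι Z) →+* Λ :=
  Ideal.Quotient.lift _ (MvPolynomial.eval₂Hom ι v) fun _ hG => hG v hv

theorem chp_ev_mk {v : Fin M → Λ} (hv : v ∈ Z) (G : MvPolynomial (Fin M) S) :
    chp_ev ι hv (Ideal.Quotient.mk _ G) = MvPolynomial.eval₂ ι v G := rfl

theorem chp_ev_alg {v : Fin M → Λ} (hv : v ∈ Z) :
    (chp_ev ι hv).comp (algebraMap S _) = ι := RingHom.ext fun c =>
  (chp_ev_mk hv (MvPolynomial.C c)).trans (MvPolynomial.eval₂_C _ _ _)

theorem chp_eq_zero {y : MvPolynomial (Fin M) S ⧸ vI ι Z}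
    (h : ∀ (v : Fin M → Λ) (hv : v ∈ Z), chp_ev ι hv y = 0) : y = 0 := by
  obtain ⟨G, rfl⟩ := Ideal.Quotient.mk_surjective y
  exact Ideal.Quotient.eq_zero_iff_mem.2 fun v hv => h v hv

theorem chp_ev_aeval {v : Fin M → Λ} (hv : v ∈ Z) {m : ℕ} (L : Fin m → Fin M → S)
    (F : MvPolynomial (Fin m) S) :
    chp_ev ι hv (MvPolynomial.aeval (fun j => lv (algebraMap S _) (L j)
      fun a => Ideal.Quotient.mk (vI ι Z) (MvPolynomial.X a)) F) =
      MvPolynomial.eval₂ ι (fun j => lv ι (L j) v) F := by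
  rw [MvPolynomial.map_aeval, chp_ev_alg]
  simp only [map_lv, chp_ev_alg, chp_ev_mk, MvPolynomial.eval₂_X]
  rfl

/-- the normalisation of the cone, in terms of points -/
theorem Cone.exists_forms [IsDomain S] [Infinite Λ] (hZ : Cone ι Z) (hr : Gr r) {x : Fin M → κ}
    (hx : ∀ G ∈ vI ι Z, MvPolynomial.eval₂ r x G = 0) {τ : Type} [Finite τ]
    (T : τ → Submodule κ (Fin M → κ)) (hT : ∀ k, DimGe ι Z (finrank κ (T k))) :
    ∃ (m : ℕ) (L : Fin m → Fin M → S) (mi : Fin M → MP m S), (∀ a, (mi a).Monic) ∧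
      (∀ v ∈ Z, ∀ a, ev2 ι (fun j => lv ι (L j) v) (v a) (mi a) = 0) ∧
      (∀ F : MvPolynomial (Fin m) S,
        (∀ v ∈ Z, MvPolynomial.eval₂ ι (fun j => lv ι (L j) v) F = 0) → F = 0) ∧
      ∀ k, ∀ w ∈ T k, (∀ j, lv r (L j) w = 0) → w = 0 := by
  have hp := hZ.isPrime hx
  have hinj : Function.Injective (algebraMap S (MvPolynomial (Fin M) S ⧸ vI ι Z)) := by
    rw [injective_iff_map_eq_zero]
    intro c hc
    obtain ⟨v, hv⟩ : Z.Nonempty := by
      by_contra hne
      exact hp.ne_top ((Ideal.eq_top_iff_one _).2 fun v hv => absurd ⟨v, hv⟩ hne)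
    have h1 := RingHom.congr_fun (chp_ev_alg (ι := ι) hv) c
    rw [RingHom.comp_apply, hc, map_zero] at h1
    exact hZ.inj (h1.symm.trans (map_zero ι).symm)
  have hs : Function.Surjective (MvPolynomial.aeval fun a =>
      Ideal.Quotient.mk (vI ι Z) (MvPolynomial.X a) :
        MvPolynomial (Fin M) S →ₐ[S] MvPolynomial (Fin M) S ⧸ vI ι Z) := by
    have : (MvPolynomial.aeval fun a => Ideal.Quotient.mk (vI ι Z) (MvPolynomial.X a) :
        MvPolynomial (Fin M) S →ₐ[S] MvPolynomial (Fin M) S ⧸ vI ι Z) =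
          Ideal.Quotient.mkₐ S (vI ι Z) := MvPolynomial.algHom_ext fun a => by simp
    rw [this]
    exact Ideal.Quotient.mkₐ_surjective S _
  obtain ⟨m, L, hg, hi⟩ := exists_normalization (T := T) hr hinj hs
    (fun m L F hF k => chp_eq_zero fun v hv => by
      rw [chp_ev_aeval]
      refine eval₂_component_eq_zero ι F _ (fun c => ?_) k
      have h1 := chp_ev_aeval (ι := ι) (hZ.smul c v hv) L F
      rw [hF, map_zero] at h1
      rw [h1]
      congr 1
      funext j
      rw [lv_smul, Pi.smul_apply, smul_eq_mul])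
    fun k => by
      obtain ⟨e, he⟩ := hT k
      refine ⟨fun i => Ideal.Quotient.mkₐ S (vI ι Z) (e i), algebraicIndependent_iff.2
        fun F hF => he F ?_⟩
      rw [← MvPolynomial.comp_aeval_apply] at hF
      exact Ideal.Quotient.eq_zero_iff_mem.1 hF
  choose mi hm h0 using fun a => hg.int (Ideal.Quotient.mk (vI ι Z) (MvPolynomial.X a))
  refine ⟨m, L, mi, hm, fun v hv a => ?_, fun F hF => ?_, hg.inj⟩
  · have h1 := congrArg (chp_ev ι hv) (h0 a)
    rw [map_zero, Polynomial.hom_eval₂, chp_ev_mk, MvPolynomial.eval₂_X] at h1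
    rw [← h1, ev2, coe_eval₂RingHom]
    congr 1
    exact RingHom.ext fun F => (chp_ev_aeval hv L F).symm
  · refine algebraicIndependent_iff.1 hi F (chp_eq_zero fun v hv => ?_)
    rw [chp_ev_aeval]
    exact hF v hv

theorem Cone.exists_proj [IsDomain S] [Infinite Λ] (hZ : Cone ι Z) (hr : Gr r) {x : Fin M → S}
    (hx₀ : (fun a => r (x a)) ≠ 0)
    (hx : ∀ G ∈ vI ι Z, MvPolynomial.eval₂ r (fun a => r (x a)) G = 0)
    (hT : DimGe ι Z (finrank κ (tanS r (vI ι Z) fun a => r (x a)))) :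
    ∃ 𝒬 : Proj ι Z, lv r 𝒬.s₀ (fun a => r (x a)) = 1 ∧
      ∀ w ∈ tanS r (vI ι Z) fun a => r (x a), lv r 𝒬.s₀ w = 0 →
        (∀ k, lv r (𝒬.s k) w = 0) → w = 0 := by
  obtain ⟨m, L, mi, hm, h0, hi, hinj⟩ := hZ.exists_forms hr hx (τ := Unit)
    (fun _ => tanS r (vI ι Z) fun a => r (x a)) fun _ => hT
  obtain ⟨j₀, hj⟩ : ∃ j, lv r (L j) (fun a => r (x a)) ≠ 0 := by
    by_contra hne
    push Not at hne
    exact hx₀ (hinj () _ (hZ.self_mem_tanS hx) hne)
  obtain ⟨d, rfl⟩ : ∃ d, m = d + 1 := ⟨m - 1, by have := j₀.2; omega⟩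
  have hru : r (lv (RingHom.id S) (L j₀) x) = lv r (L j₀) fun a => r (x a) := by
    rw [map_lv, RingHom.comp_id]
  obtain ⟨u', hu'⟩ := (hr.loc _ (hru ▸ hj)).exists_left_inv
  generalize lv (RingHom.id S) (L j₀) x = u at hru hu'
  have hr1 : r u' * r u = 1 := by rw [← map_mul, hu', map_one]
  have hι1 : ι u * ι u' = 1 := by rw [← map_mul, mul_comm, hu', map_one]
  refine ⟨⟨d, u' • L j₀, fun k => L (j₀.succAbove k), fun a => (mi a).map (MvPolynomial.aeval
    (j₀.insertNth (MvPolynomial.C u) MvPolynomial.X : Fin (d + 1) → MvPolynomial (Fin d) S) :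
      MvPolynomial (Fin (d + 1)) S →ₐ[S] MvPolynomial (Fin d) S).toRingHom,
    fun a => (hm a).map _, fun v hv h1 a => ?_, hZ.slice_indep fun F hF => ?_⟩, ?_,
    fun w hw h1 h2 => hinj () w hw fun j => ?_⟩
  · rw [← h0 v hv a, ev2, ev2, coe_eval₂RingHom, coe_eval₂RingHom, eval₂_map]
    congr 1
    refine MvPolynomial.ringHom_ext (fun c => by simp) fun j => ?_
    rw [lv_smul_left] at h1
    induction j using Fin.succAboveCases j₀ with
    | x =>
      have h2 : lv ι (L j₀) v = ι u := by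
        linear_combination (ι u) * h1 - lv ι (L j₀) v * hι1
      simp [h2]
    | p k => simp
  · have h1 := hi (MvPolynomial.aeval (fun o : Option (Fin d) => o.elim
      (MvPolynomial.C u' * MvPolynomial.X j₀) fun k => MvPolynomial.X (j₀.succAbove k)) F)
      fun v hv => by
        rw [← hF v hv, ← MvPolynomial.coe_eval₂Hom, MvPolynomial.map_aeval,
          MvPolynomial.coe_eval₂Hom]
        congr 1
        · exact RingHom.ext fun c => by simp
        · funext o
          cases o with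
          | none => simp [lv_smul_left]
          | some k => simp
    have h2 : (MvPolynomial.aeval (j₀.insertNth (MvPolynomial.C u * MvPolynomial.X none)
        fun k => MvPolynomial.X (some k) : Fin (d + 1) → MvPolynomial (Option (Fin d)) S)).comp
        (MvPolynomial.aeval fun o : Option (Fin d) => o.elim
          (MvPolynomial.C u' * MvPolynomial.X j₀) fun k => MvPolynomial.X (j₀.succAbove k)) =
        AlgHom.id S _ := MvPolynomial.algHom_ext fun o => by
      cases o with
      | none =>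
        have h2 : (MvPolynomial.C u' * MvPolynomial.C u : MvPolynomial (Option (Fin d)) S) = 1 := by
          rw [← map_mul, hu', map_one]
        simp [← mul_assoc, h2]
      | some k => simp
    have h3 := AlgHom.congr_fun h2 F
    rw [AlgHom.comp_apply, h1, map_zero] at h3
    exact h3.symm
  · change lv r (u' • L j₀) _ = 1
    rw [lv_smul_left, ← hru, hr1]
  · induction j using Fin.succAboveCases j₀ with
    | x =>
      change lv r (u' • L j₀) _ = 0 at h1
      rw [lv_smul_left] at h1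
      exact (mul_eq_zero.1 h1).resolve_left (left_ne_zero_of_mul_eq_one hr1)
    | p k => exact h2 k

end Pool.Agent.ZeroCyc
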