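import Pool.Agent.Lib.MP_796ce4_ag.ZY.ChE
import Pool.Agent.Lib.MP_796ce4_ag.ZY.ChP

/-! Existence of the hypersurface model. -/

namespace Pool.Agent.ZeroCyc

open Polynomial Module
open scoped Classical IntermediateField PowerSeries

set_option linter.unusedSectionVars false

variable {S κ Λ : Type} [CommRing S] [Field κ] [Field Λ] {M : ℕ} {ι : S →+* Λ} {r : S →+* κ}
  {Z : Set (Fin M → Λ)}

theorem chq_map_aeval {A T : Type} [CommRing A] [CommRing T] [Algebra S A] (g : Fin M → A)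
    (ψ : A →+* T) (G : MvPolynomial (Fin M) S) :
    ψ (MvPolynomial.aeval g G) =
      MvPolynomial.eval₂ (ψ.comp (algebraMap S A)) (fun a => ψ (g a)) G := by
  rw [MvPolynomial.aeval_def, MvPolynomial.eval₂_comp_left]
  rfl

theorem chq_lift {A T : Type} [CommRing A] [CommRing T] [Algebra S A] {g : Fin M → A}
    (hg : Function.Surjective (MvPolynomial.aeval g : MvPolynomial (Fin M) S →ₐ[S] A))
    (φ : S →+* T) (v : Fin M → T)
    (h : ∀ G : MvPolynomial (Fin M) S, MvPolynomial.aeval g G = 0 →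
      MvPolynomial.eval₂ φ v G = 0) :
    ∃ ψ : A →+* T, ψ.comp (algebraMap S A) = φ ∧ (fun a => ψ (g a)) = v := by
  let f : MvPolynomial (Fin M) S →+* A :=
    (MvPolynomial.aeval g : MvPolynomial (Fin M) S →ₐ[S] A).toRingHom
  have hf : Function.Surjective f := hg
  have hk : RingHom.ker f ≤ RingHom.ker (MvPolynomial.eval₂Hom φ v) := fun G hG => h G hG
  have key : ∀ G, f.liftOfSurjective hf ⟨MvPolynomial.eval₂Hom φ v, hk⟩ (f G) =
      MvPolynomial.eval₂Hom φ v G := fun G =>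
    RingHom.liftOfRightInverse_comp_apply f _ _ ⟨MvPolynomial.eval₂Hom φ v, hk⟩ G
  refine ⟨f.liftOfSurjective hf ⟨MvPolynomial.eval₂Hom φ v, hk⟩, ?_, ?_⟩
  · ext c
    have e := key (MvPolynomial.C c)
    simpa [f] using e
  · funext a
    have e := key (MvPolynomial.X a)
    simpa [f] using e

theorem chq_aux [IsDomain S] [IsIntegrallyClosed S] [IsAlgClosed κ] [IsAlgClosed Λ]
    (hZ : Cone ι Z) (hr : Gr r) {x : Fin M → S}
    (hx : ∀ G ∈ vI ι Z, MvPolynomial.eval₂ r (fun a => r (x a)) G = 0) (𝒬 : Proj ι Z)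
    (h1 : lv r 𝒬.s₀ (fun a => r (x a)) = 1)
    (ht : ∀ w ∈ tanS r (vI ι Z) fun a => r (x a), lv r 𝒬.s₀ w = 0 →
      (∀ k, lv r (𝒬.s k) w = 0) → w = 0)
    {A : Type} [CommRing A] [IsDomain A] [Algebra S A]
    [Algebra (MvPolynomial (Fin 𝒬.d) S) A] [IsScalarTower S (MvPolynomial (Fin 𝒬.d) S) A]
    {g : Fin M → A}
    (hg : Function.Surjective (MvPolynomial.aeval g : MvPolynomial (Fin M) S →ₐ[S] A))
    (hk : ∀ G : MvPolynomial (Fin M) S,
      MvPolynomial.aeval g G = 0 ↔ G ∈ vI ι (slice ι Z 𝒬.s₀))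
    (hy : ∀ k, algebraMap (MvPolynomial (Fin 𝒬.d) S) A (MvPolynomial.X k) =
      lv (algebraMap S A) (𝒬.s k) g) :
    ∃ 𝒬' : Pre ι Z, 𝒬'.At r fun a => r (x a) := by
  have key : ∀ {T : Type} [CommRing T] (ψ : A →+* T) (φ : S →+* T) (v : Fin M → T),
      ψ.comp (algebraMap S A) = φ → (fun a => ψ (g a)) = v → ∀ (h : A) (q : MP 𝒬.d S),
      ψ (aeval h q) = ev2 φ (fun k => lv φ (𝒬.s k) v) (ψ h) q := by
    intro T _ ψ φ v e1 e2 h q
    rw [map_aeval_eq_ev2]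
    simp only [hy, map_lv, e1, e2]
  have keyl : ∀ {T : Type} [CommRing T] (ψ : A →+* T) (φ : S →+* T) (v : Fin M → T),
      ψ.comp (algebraMap S A) = φ → (fun a => ψ (g a)) = v → ∀ (H : Fin M → S),
      ψ (lv (algebraMap S A) H g) = lv φ H v := by
    intro T _ ψ φ v e1 e2 H
    rw [map_lv, e1, e2]
  have hev : ∀ v ∈ Z, lv ι 𝒬.s₀ v = 1 →
      ∃ ψ : A →+* Λ, ψ.comp (algebraMap S A) = ι ∧ (fun a => ψ (g a)) = v :=
    fun v hv hv1 => chq_lift hg ι v fun G hG => (hk G).1 hG v ⟨hv, hv1⟩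
  have hzero : ∀ b : A, (∀ (ψ : A →+* Λ) (v : Fin M → Λ), v ∈ Z → lv ι 𝒬.s₀ v = 1 →
      ψ.comp (algebraMap S A) = ι → (fun a => ψ (g a)) = v → ψ b = 0) → b = 0 := by
    intro b hb
    obtain ⟨G, rfl⟩ := hg b
    refine (hk G).2 fun v hv => ?_
    obtain ⟨ψ, e1, e2⟩ := hev v hv.1 hv.2
    have e := hb ψ v hv.1 hv.2 e1 e2
    rwa [chq_map_aeval, e1, e2] at e
  have hinj : Function.Injective (algebraMap (MvPolynomial (Fin 𝒬.d) S) A) := by
    rw [injective_iff_map_eq_zero]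
    intro F hF
    refine 𝒬.indep F fun v hv hv1 => ?_
    obtain ⟨ψ, e1, e2⟩ := hev v hv hv1
    have e := key ψ ι v e1 e2 0 (C F)
    rw [aeval_C, hF, map_zero, ev2_C] at e
    exact e.symm
  have hmi : ∀ a, aeval (g a) (𝒬.mi a) = 0 := by
    intro a
    refine hzero _ fun ψ v hv hv1 e1 e2 => ?_
    rw [key ψ ι v e1 e2, congrFun e2 a]
    exact 𝒬.root v hv hv1 a
  obtain ⟨ψ₀, f1, f2⟩ := chq_lift hg r (fun a => r (x a)) fun G hG =>
    hZ.slice_red hx h1 G ((hk G).1 hG)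
  have htan : ∀ w : Fin M → κ, (∀ G : MvPolynomial (Fin M) S, MvPolynomial.aeval g G = 0 →
      dG r (fun a => r (x a)) w G = 0) → (∀ k, lv r (𝒬.s k) w = 0) → w = 0 := by
    intro w hw hs
    refine ht w (fun G hG => hw G ((hk G).2 (vI_le_slice hG))) ?_ hs
    have e := hw _ ((hk _).2 lp_sub_mem)
    rwa [dG_sub_C, dG_lp] at e
  obtain ⟨H, χ, D, pp, hχ, hon, hdvd, hpp, hD, hder⟩ :=
    exists_prim_elt hr hg hy hinj 𝒬.monic hmi ψ₀ f1 (congrFun f2) htan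
  have hint : ∀ b : A, IsIntegral (MvPolynomial (Fin 𝒬.d) S) b := by
    intro b
    obtain ⟨G, rfl⟩ := hg b
    induction G using MvPolynomial.induction_on with
    | C c =>
      rw [MvPolynomial.aeval_C,
        IsScalarTower.algebraMap_apply S (MvPolynomial (Fin 𝒬.d) S) A]
      exact isIntegral_algebraMap
    | add p q hp hq =>
      rw [map_add]
      exact hp.add hq
    | mul_X p a hp =>
      rw [map_mul, MvPolynomial.aeval_X]
      exact hp.mul ⟨𝒬.mi a, 𝒬.monic a, hmi a⟩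
  refine ⟨{ toProj := 𝒬, H := H, χ := χ, D := D, pp := pp, monicχ := hχ, on := ?_, pt := ?_,
            dvd := ?_, surj := ?_ }, h1, ?_, ?_⟩
  · intro v hv hv1
    obtain ⟨ψ, e1, e2⟩ := hev v hv hv1
    rw [← keyl ψ ι v e1 e2 H, ← key ψ ι v e1 e2, hon, map_zero]
  · intro v hv hv1 a
    obtain ⟨ψ, e1, e2⟩ := hev v hv hv1
    rw [← keyl ψ ι v e1 e2 H, ← key ψ ι v e1 e2, ← key ψ ι v e1 e2, hpp, map_mul,
      congrFun e2 a]
  · intro q hq
    refine hdvd q (hzero _ fun ψ v hv hv1 e1 e2 => ?_)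
    rw [key ψ ι v e1 e2, keyl ψ ι v e1 e2]
    exact hq v hv hv1
  · intro y h hyh
    let φ : MP 𝒬.d S →+* A :=
      (aeval (lv (algebraMap S A) H g) :
        MP 𝒬.d S →ₐ[MvPolynomial (Fin 𝒬.d) S] A).toRingHom
    have hφ : ∀ q, φ q = aeval (lv (algebraMap S A) H g) q := fun _ => rfl
    have hφi : φ.IsIntegral := by
      refine RingHom.IsIntegral.tower_top (C : MvPolynomial (Fin 𝒬.d) S →+* MP 𝒬.d S) φ ?_
      have e : φ.comp C = algebraMap (MvPolynomial (Fin 𝒬.d) S) A :=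
        RingHom.ext fun F => by rw [RingHom.comp_apply, hφ, aeval_C]
      rw [e]
      exact hint
    have hker : RingHom.ker φ ≤ RingHom.ker (ev2 ι y h) := by
      intro q hq
      obtain ⟨q', rfl⟩ := hdvd q hq
      rw [RingHom.mem_ker, map_mul, hyh, zero_mul]
    obtain ⟨ψ, hψ⟩ := exists_ext_of_isIntegral hφi (ev2 ι y h) hker
    have hψ' : ∀ q, ψ (aeval (lv (algebraMap S A) H g) q) = ev2 ι y h q := fun q =>
      DFunLike.congr_fun hψ q
    have e1 : ψ.comp (algebraMap S A) = ι := by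
      ext c
      have e := hψ' (C (MvPolynomial.C c))
      rw [aeval_C, ev2_C, MvPolynomial.eval₂_C] at e
      rw [RingHom.comp_apply, IsScalarTower.algebraMap_apply S (MvPolynomial (Fin 𝒬.d) S) A]
      exact e
    have hv : (fun a => ψ (g a)) ∈ slice ι Z 𝒬.s₀ := by
      refine hZ.slice_closed fun G hG => ?_
      rw [← e1, ← chq_map_aeval, (hk G).2 hG, map_zero]
    refine ⟨fun a => ψ (g a), hv.1, hv.2, ?_, ?_⟩
    · funext k
      have e := hψ' (C (MvPolynomial.X k))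
      rwa [aeval_C, ev2_C, MvPolynomial.eval₂_X, hy, keyl ψ ι _ e1 rfl] at e
    · have e := hψ' X
      rwa [aeval_X, keyl ψ ι _ e1 rfl, ev2_eq_eval, map_X, eval_X] at e
  · rwa [key ψ₀ r _ f1 f2, keyl ψ₀ r _ f1 f2] at hD
  · rwa [key ψ₀ r _ f1 f2, keyl ψ₀ r _ f1 f2] at hder

theorem Proj.exists_pre [IsDomain S] [IsIntegrallyClosed S] [IsAlgClosed κ] [IsAlgClosed Λ]
    (hZ : Cone ι Z) (hr : Gr r) {x : Fin M → S}
    (hx : ∀ G ∈ vI ι Z, MvPolynomial.eval₂ r (fun a => r (x a)) G = 0) (𝒬 : Proj ι Z)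
    (h1 : lv r 𝒬.s₀ (fun a => r (x a)) = 1)
    (ht : ∀ w ∈ tanS r (vI ι Z) fun a => r (x a), lv r 𝒬.s₀ w = 0 →
      (∀ k, lv r (𝒬.s k) w = 0) → w = 0) :
    ∃ 𝒬' : Pre ι Z, 𝒬'.At r fun a => r (x a) := by
  haveI := hZ.slice_isPrime hx h1
  let I := vI ι (slice ι Z 𝒬.s₀)
  let g : Fin M → MvPolynomial (Fin M) S ⧸ I := fun a => Ideal.Quotient.mk I (MvPolynomial.X a)
  have hmk : ∀ G : MvPolynomial (Fin M) S, MvPolynomial.aeval g G = Ideal.Quotient.mk I G := by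
    have e : (MvPolynomial.aeval g : MvPolynomial (Fin M) S →ₐ[S] _) = Ideal.Quotient.mkₐ S I :=
      MvPolynomial.algHom_ext fun a => by rw [MvPolynomial.aeval_X]; rfl
    intro G
    rw [e]
    rfl
  let f : MvPolynomial (Fin 𝒬.d) S →ₐ[S] MvPolynomial (Fin M) S ⧸ I :=
    MvPolynomial.aeval fun k => lv (algebraMap S _) (𝒬.s k) g
  letI : Algebra (MvPolynomial (Fin 𝒬.d) S) (MvPolynomial (Fin M) S ⧸ I) :=
    f.toRingHom.toAlgebra
  haveI : IsScalarTower S (MvPolynomial (Fin 𝒬.d) S) (MvPolynomial (Fin M) S ⧸ I) :=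
    IsScalarTower.of_algebraMap_eq fun c => (f.commutes c).symm
  refine chq_aux hZ hr hx 𝒬 h1 ht (g := g) (fun b => ?_) (fun G => ?_) fun k => ?_
  · obtain ⟨G, rfl⟩ := Ideal.Quotient.mk_surjective b
    exact ⟨G, hmk G⟩
  · rw [hmk, Ideal.Quotient.eq_zero_iff_mem]
  · exact MvPolynomial.aeval_X _ k

theorem Cone.exists_pre [IsDomain S] [IsIntegrallyClosed S] [IsAlgClosed κ] [IsAlgClosed Λ]
    (hZ : Cone ι Z) (hr : Gr r) {x : Fin M → S} (hx₀ : (fun a => r (x a)) ≠ 0)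
    (hx : ∀ G ∈ vI ι Z, MvPolynomial.eval₂ r (fun a => r (x a)) G = 0)
    (hT : DimGe ι Z (finrank κ (tanS r (vI ι Z) fun a => r (x a)))) :
    ∃ 𝒬 : Pre ι Z, 𝒬.At r fun a => r (x a) := by
  obtain ⟨𝒬, h1, ht⟩ := hZ.exists_proj hr hx₀ hx hT
  exact 𝒬.exists_pre hZ hr hx h1 ht

end Pool.Agent.ZeroCyc
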