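import Pool.Agent.Lib.MP_796ce4_ag.ZY.Res

/-! Generators of unramified extensions, avoiding finite sets, degrees of composita. -/

namespace Pool.Agent.ZeroCyc

open Polynomial Module
open scoped Classical IntermediateField PowerSeries

set_option linter.unusedSectionVars false

variable {p : ℕ} {K Λ : Type} [Field K] [CharZero K] [NormedField Λ] [IsUltrametricDist Λ]
  [IsAlgClosed Λ] [Algebra K Λ] [IsGalois K Λ] [Loc p K Λ] [Fact p.Prime] [CharP (kk Λ) p]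

variable {B : IntermediateField K Λ} (T : Tower p B)

variable (K) in
include K in
theorem gen_facts {r : ℕ} (hr : 0 < r) : 1 < p ^ r ∧ ‖((p ^ r : ℕ) : Λ)‖ < 1 ∧
    ∃ ζ : Λ, IsPrimitiveRoot ζ (p ^ r - 1) := by
  simpa only [pow_one] using tow_facts (p := p) K (Λ := Λ) hr one_pos

theorem gen_mem {r : ℕ} (hr : 0 < r) {L : IntermediateField K Λ} {ζ t : Λ} (h : ζ ^ p ^ r = ζ)
    (ht : t ∈ L) (hd : ‖ζ - t‖ < 1) : ζ ∈ L := by
  obtain ⟨h1, h2, -⟩ := gen_facts (p := p) K (Λ := Λ) hr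
  refine mem_of_fixed fun σ hσ => tow_mu_uniq h1 h2 (by rw [← map_pow, h]) h ?_
  have h3 := tow_gal_lt σ hd
  rw [hσ t ht] at h3
  exact tow_tri h3 (tow_symm hd)

theorem Tower.gen_φ {r : ℕ} (hr : 0 < r) {ζ : Λ} (h : ζ ^ p ^ r = ζ) (j : ℕ) :
    (T.φ ^ j) ζ = ζ ^ p ^ (T.r * j) := by
  obtain ⟨h1, h2, -⟩ := gen_facts (p := p) K (Λ := Λ) hr
  exact tow_mu_uniq h1 h2 (by rw [← map_pow, h]) (tow_mu_pow' h _)
    (T.φ_pow_pow j (tow_mu_le h1 h))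

theorem Tower.gen_memU {n : ℕ} (hn : 0 < n) {ζ : Λ} (h : ζ ^ p ^ (T.r * n) = ζ) : ζ ∈ T.U n := by
  have hr := Nat.mul_pos T.r_pos hn
  obtain ⟨t, ht, hd⟩ := T.lift n hn ζ (tow_mu_le (gen_facts (p := p) K (Λ := Λ) hr).1 h)
    (by rw [h, sub_self, norm_zero]; exact one_pos)
  exact gen_mem hr h ht hd

theorem Tower.gen_prim {n : ℕ} (hn : 0 < n) : ∃ ζ : Λ, ζ ^ p ^ (T.r * n) = ζ ∧ ‖ζ‖ ≤ 1 ∧
    ∀ j, ζ ^ p ^ j = ζ → T.r * n ∣ j := by
  have hr := Nat.mul_pos T.r_pos hn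
  obtain ⟨h1, -, ζ, hζ⟩ := gen_facts (p := p) K (Λ := Λ) hr
  exact ⟨ζ, tow_prim h1 hζ, tow_mu_le h1 (tow_prim h1 hζ),
    fun j h => tow_dvd (Fact.out : p.Prime).one_lt hr hζ h⟩

theorem Tower.gen_le {n : ℕ} (hn : 0 < n) {ζ : Λ} (h : ζ ^ p ^ (T.r * n) = ζ)
    (hζ : ∀ j, ζ ^ p ^ j = ζ → T.r * n ∣ j) {L : IntermediateField K Λ} (hB : B ≤ L)
    (hL : ζ ∈ L) : T.U n ≤ L := fun x hx => mem_of_fixed fun σ hσ => by
  obtain ⟨j, hj⟩ := T.perm n hn σ (hσ.mono hB)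
  have h1 := hj ζ (T.gen_memU hn h)
  rw [hσ ζ hL, T.gen_φ (Nat.mul_pos T.r_pos hn) h] at h1
  obtain ⟨k, rfl⟩ := Nat.dvd_of_mul_dvd_mul_left T.r_pos (hζ _ h1.symm)
  rw [hj x hx, pow_mul]
  exact (T.fix_U n hn).pow k x hx

theorem gen_coeff {D : ℕ} {z : ℕ → Λ} (hz : Set.InjOn z (Finset.range D)) {g : Λ[X]}
    (hg : g.degree < D) (σ : Λ ≃ₐ[K] Λ)
    (h : ∀ i < D, ∃ y, σ y = z i ∧ σ (g.eval y) = g.eval (z i)) (k : ℕ) :
    σ (g.coeff k) = g.coeff k := by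
  have h1 : g.map (σ : Λ →+* Λ) = g := by
    refine eq_of_degrees_lt_of_eval_index_eq (Finset.range D) hz
      (by rwa [degree_map, Finset.card_range]) (by rwa [Finset.card_range]) fun i hi => ?_
    obtain ⟨y, h2, h3⟩ := h i (Finset.mem_range.1 hi)
    rw [← h3, ← h2]
    exact eval_map_apply (f := (σ : Λ →+* Λ)) y
  conv_rhs => rw [← h1, coeff_map]
  rfl

/-- a generator of `U (a * D)` over `U a` with incongruent conjugates -/
theorem Tower.exists_gen {a D : ℕ} (ha : 0 < a) (hD : 0 < D) : ∃ (ζ : Λ) (μ : (OL (T.U a))[X]),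
    ζ ∈ T.U (a * D) ∧ ‖ζ‖ ≤ 1 ∧
    (∀ i < D, ∀ j < D, ‖(T.φ ^ (a * i)) ζ - (T.φ ^ (a * j)) ζ‖ < 1 → i = j) ∧ μ.Monic ∧
    μ.natDegree = D ∧
    μ.map (OL _).subtype = ∏ i ∈ Finset.range D, (X - C ((T.φ ^ (a * i)) ζ)) ∧
    ∀ x ∈ T.U (a * D), ‖x‖ ≤ 1 →
      ∃ R : (OL (T.U a))[X], R.natDegree < D ∧ R.eval₂ (OL _).subtype ζ = x := by
  have hN := Nat.mul_pos ha hD
  have hr := Nat.mul_pos T.r_pos hN
  obtain ⟨ζ, h1, h2, h3⟩ := T.gen_prim hN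
  obtain ⟨h4, h5, -⟩ := gen_facts (p := p) K (Λ := Λ) hr
  have hU := T.gen_memU hN h1
  have hz : ∀ i, ‖(T.φ ^ (a * i)) ζ‖ ≤ 1 := fun i => by rwa [Loc.norm_gal]
  have hd : ∀ i < D, ∀ j < D, ‖(T.φ ^ (a * i)) ζ - (T.φ ^ (a * j)) ζ‖ < 1 → i = j := by
    have key : ∀ i, ∀ j < D, i ≤ j → (T.φ ^ (a * i)) ζ = (T.φ ^ (a * j)) ζ → i = j := by
      intro i j hj hij e
      obtain ⟨d, rfl⟩ := Nat.exists_eq_add_of_le hij
      rw [mul_add, pow_add, AlgEquiv.mul_apply, EmbeddingLike.apply_eq_iff_eq, T.gen_φ hr h1] at e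
      have := Nat.eq_zero_of_dvd_of_lt (Nat.dvd_of_mul_dvd_mul_left ha
        (Nat.dvd_of_mul_dvd_mul_left T.r_pos (h3 _ e.symm))) (by omega)
      omega
    intro i hi j hj e
    have e' := tow_mu_uniq h4 h5 (by rw [← map_pow, h1]) (by rw [← map_pow, h1]) e
    rcases le_total i j with h | h
    · exact key i j hj h e'
    · exact (key j i hi h e'.symm).symm
  have h6 := tow_orbit_coeff (φ := T.φ ^ a) (n := D) (ζ := ζ)
    (by rw [← pow_mul]; exact T.fix_U _ hN ζ hU)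
  simp only [← pow_mul] at h6
  have h7 : Over (T.U (a * D)) (∏ i ∈ Finset.range D, (X - C ((T.φ ^ (a * i)) ζ))) :=
    Over.prod fun i _ => over_X.sub (over_C (T.gal1_pow_mem hN _ hU))
  obtain ⟨μ, m1, m2, m3⟩ := exists_OL_poly (L := T.U a)
    (fun k => T.mem_U a _ ha hN _ (h7 k) (h6 k)) (Intg.prod fun i _ => intg_X.sub (intg_C (hz i)))
  refine ⟨ζ, μ, hU, h2, hd, m3 (monic_prod_of_monic _ _ fun i _ => monic_X_sub_C _),
    by rw [m2, natDegree_finsetProd_X_sub_C_eq_card, Finset.card_range], m1, fun x hx hx1 => ?_⟩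
  have hi : Set.InjOn (fun i => (T.φ ^ (a * i)) ζ) (Finset.range D) := fun i hi j hj e =>
    hd i (by simpa using hi) j (by simpa using hj) (by simp only [] at e; simp [e])
  obtain ⟨g, g1, g2⟩ : ∃ g : Λ[X], g.degree < D ∧
      ∀ i < D, g.eval ((T.φ ^ (a * i)) ζ) = (T.φ ^ (a * i)) x :=
    ⟨Lagrange.interpolate (Finset.range D) (fun i => (T.φ ^ (a * i)) ζ) fun i => (T.φ ^ (a * i)) x,
      by simpa using Lagrange.degree_interpolate_lt _ hi,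
      fun i h => Lagrange.eval_interpolate_at_node _ hi (Finset.mem_range.2 h)⟩
  have g3 : Over (T.U (a * D)) g := fun k => mem_of_fixed fun σ hσ =>
    gen_coeff hi g1 σ (fun i h => ⟨_, hσ _ (T.gal1_pow_mem hN _ hU), by
      rw [g2 i h]; exact hσ _ (T.gal1_pow_mem hN _ hx)⟩) k
  have g4 : ∀ j y, (T.φ ^ a) ((T.φ ^ (a * j)) y) = (T.φ ^ (a * (j + 1))) y := fun j y => by
    rw [← AlgEquiv.mul_apply, ← pow_add, mul_add_one, add_comm]
  have g5 : Over (T.U a) g := fun k => T.mem_U a _ ha hN _ (g3 k) (gen_coeff hi g1 _ (fun i h => by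
    rcases i with _ | i
    · refine ⟨(T.φ ^ (a * (D - 1))) ζ, ?_, ?_⟩
      · rw [g4, Nat.sub_add_cancel hD, T.fix_U _ hN ζ hU]; simp
      · rw [g2 _ (by omega), g2 _ h, g4, Nat.sub_add_cancel hD, T.fix_U _ hN x hx]; simp
    · exact ⟨(T.φ ^ (a * i)) ζ, g4 _ _, by rw [g2 _ (by omega), g2 _ h, g4]⟩) k)
  obtain ⟨R, r1, r2, -⟩ := exists_OL_poly g5 fun k => tow_lagrange (fun i _ => hz i) hd g1 zero_le_one
    (fun i h => by rwa [g2 i h, Loc.norm_gal]) k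
  refine ⟨R, ?_, ?_⟩
  · rw [r2]
    rcases eq_or_ne g 0 with rfl | h
    · simpa using hD
    · exact (natDegree_lt_iff_degree_lt h).2 g1
  · rw [← eval_map, r1]
    simpa using g2 0 hD

/-- a monic polynomial with simple residue roots that avoid the roots of `ρ` -/
theorem Tower.exists_sep {n : ℕ} (hn : 0 < n) {ρ : (OL (T.U n))[X]} (hρ : ρ.map (rL _) ≠ 0)
    (m : ℕ) : ∃ u : (OL (T.U n))[X], u.Monic ∧ m ≤ u.natDegree ∧ ∀ τ : Λ, ‖τ‖ ≤ 1 →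
      ‖u.eval₂ (OL _).subtype τ‖ < 1 → ‖ρ.eval₂ (OL _).subtype τ‖ = 1 ∧
        ‖(derivative u).eval₂ (OL _).subtype τ‖ = 1 := by
  obtain ⟨ζ, μ, -, h2, h3, h4, h5, h6, -⟩ :=
    T.exists_gen hn (show 0 < m + ρ.natDegree + 1 by omega)
  set D := m + ρ.natDegree + 1 with hD
  have hz : ∀ i, ‖(T.φ ^ (n * i)) ζ‖ ≤ 1 := fun i => by rwa [Loc.norm_gal]
  have hc : ∀ c : OL (T.U n), ‖(OL _).subtype c‖ ≤ 1 := fun c => c.2.2
  refine ⟨μ, h4, by omega, fun τ hτ h => ?_⟩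
  rw [← eval_map, h6, eval_prod, norm_prod] at h
  obtain ⟨i, hi, h7⟩ : ∃ i ∈ Finset.range D, ‖τ - (T.φ ^ (n * i)) ζ‖ < 1 := by
    by_contra hc
    push Not at hc
    exact h.not_ge (Finset.one_le_prod fun i hi => by simpa using hc i hi)
  have key : ∀ u : (OL (T.U n))[X], ‖u.eval₂ (OL _).subtype ((T.φ ^ (n * i)) ζ)‖ = 1 →
      ‖u.eval₂ (OL _).subtype τ‖ = 1 := fun u hu => by
    rw [← hu]
    refine norm_eq_of_sub_lt ?_
    rw [hu, ← eval_map, ← eval_map]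
    exact ((intg_map u).eval_sub_le (hz i) hτ).trans_lt (tow_symm h7)
  refine ⟨key _ ?_, key _ ?_⟩
  · have h8 : ∀ j, ‖ρ.eval₂ (OL _).subtype ((T.φ ^ (n * j)) ζ)‖ = ‖ρ.eval₂ (OL _).subtype ζ‖ :=
      fun j => by
        rw [← eval_map, ← eval_map, pow_mul, ← (over_map ρ).apply_eval ((T.fix_U n hn).pow j),
          Loc.norm_gal]
    by_contra h9
    refine hρ (eq_zero_of_natDegree_lt_card_of_eval_eq_zero _
      (f := fun j : Fin D => rs ((T.φ ^ (n * j)) ζ)) (fun j k e => Fin.ext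
        (h3 j j.2 k k.2 ((rs_eq_iff (hz j) (hz k)).1 e))) (fun j => ?_) ?_)
    · rw [eval_map, ← rs_eval₂ hc (rL_apply) (hz j)]
      by_contra h10
      exact h9 (by rw [h8, ← h8 j]; exact rs_ne_zero.1 h10)
    · rw [Fintype.card_fin]
      exact natDegree_map_le.trans_lt (by omega)
  · rw [← eval_map, ← derivative_map, h6, ← Finset.mul_prod_erase _ _ hi, derivative_mul]
    simp only [derivative_sub, derivative_X, derivative_C, sub_zero, one_mul, eval_add, eval_mul,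
      eval_sub, eval_X, eval_C, sub_self, zero_mul, add_zero, eval_prod, norm_prod]
    refine Finset.prod_eq_one fun j hj => le_antisymm ((gal1_O Λ).sub_mem (hz i) (hz j))
      (not_lt.1 fun h8 => (Finset.ne_of_mem_erase hj).symm ?_)
    exact h3 i (Finset.mem_range.1 hi) j (Finset.mem_range.1 (Finset.mem_of_mem_erase hj)) h8

theorem Tower.exists_many {n : ℕ} (hn : 0 < n) (Z : Finset (kk Λ)) {s : ℕ}
    (h : s + Z.card ≤ n) : ∃ τ : Fin s → OL (T.U n), (∀ i, rL _ (τ i) ∉ Z) ∧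
      Function.Injective fun i => rL _ (τ i) := by
  obtain ⟨S, h1, h2⟩ := exists_finset_fixed (p := p) (𝕜 := kk Λ) (Nat.mul_pos T.r_pos hn)
  have h3 : n < p ^ (T.r * n) := by
    rw [pow_mul]
    exact Nat.lt_pow_self T.gal1_one_lt
  have h4 := Finset.le_card_sdiff Z S
  obtain ⟨f, hf⟩ := Function.Embedding.exists_of_card_le_finset (α := Fin s) (s := S \ Z)
    (by rw [Fintype.card_fin]; omega)
  have h5 : ∀ i, f i ∈ S \ Z := fun i => hf ⟨i, rfl⟩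
  choose τ hτ using fun i => T.exists_lift hn ((h2 _).1 (Finset.mem_sdiff.1 (h5 i)).1)
  exact ⟨τ, fun i => hτ i ▸ (Finset.mem_sdiff.1 (h5 i)).2, by
    simpa only [hτ] using f.injective⟩

theorem Tower.exists_eval_ne {σ : Type} [Finite σ] {Θ : MvPolynomial σ (kk Λ)} (h : Θ ≠ 0) :
    ∃ n₀, ∀ n, n₀ ≤ n → ∃ x : σ → OL (T.U n), MvPolynomial.eval (fun i => rL _ (x i)) Θ ≠ 0 := by
  obtain ⟨n₀, h1⟩ := exists_fixed_eval_ne (p := p) h
  refine ⟨n₀ + 1, fun n hn => ?_⟩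
  obtain ⟨x, h2, h3⟩ := h1 (T.r * n) ((show n₀ ≤ n by omega).trans (Nat.le_mul_of_pos_left _ T.r_pos))
  choose y hy using fun i => T.exists_lift (show 0 < n by omega) (h2 i)
  exact ⟨y, by simpa only [hy] using h3⟩

theorem Tower.exists_fixed_finset (s : Finset (kk Λ)) :
    ∃ n, 0 < n ∧ ∀ a ∈ s, fr (kk Λ) p (T.r * n) a = a :=
  (algP_kk K).per_finset T.r_pos s

/-- the maximal unramified subextension -/
theorem Tower.exists_res {m : ℕ} (hm : 0 < m) {L : IntermediateField K Λ} [FiniteDimensional K L]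
    (h : T.U m ≤ L) : ∃ n, 0 < n ∧ m ∣ n ∧ T.U n ≤ L ∧
      ∀ y ∈ L, ‖y‖ ≤ 1 → ∃ c ∈ T.U n, ‖c‖ ≤ 1 ∧ ‖y - c‖ < 1 := by
  obtain ⟨r, h0, h1, h2⟩ := tow_q (p := p) L
  obtain ⟨ζ, z1, z2, z3⟩ := T.gen_prim hm
  obtain ⟨h4, h5, -⟩ := gen_facts (p := p) K (Λ := Λ) (Nat.mul_pos T.r_pos hm)
  obtain ⟨k, rfl⟩ := z3 r (tow_mu_uniq h4 h5 (tow_mu_pow' z1 _) z1 (h1 ζ (h (T.gen_memU hm z1)) z2))
  have hn : 0 < m * k := Nat.mul_pos hm (Nat.pos_of_mul_pos_left h0)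
  rw [mul_assoc] at h0 h1 h2
  obtain ⟨ξ, x1, x2, x3⟩ := T.gen_prim hn
  obtain ⟨t, ht, hd⟩ := h2 ξ x2 (by rw [x1, sub_self, norm_zero]; exact one_pos)
  refine ⟨m * k, hn, dvd_mul_right _ _, T.gen_le hn x1 x3 ((T.le m).trans h) (gen_mem h0 x1 ht hd),
    fun y hy hy1 => ?_⟩
  obtain ⟨c, hc, hd'⟩ := T.lift _ hn y hy1 (h1 y hy hy1)
  exact ⟨c, hc, gal1_le_one hy1 hd', hd'⟩

theorem Tower.finrank_sup {n j : ℕ} (hn : 0 < n) (hj : 0 < j) {L : IntermediateField K Λ}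
    [FiniteDimensional K L] (h : T.U n ≤ L) : FiniteDimensional K ↥(L ⊔ T.U (n * j)) ∧
      ∃ c, c ∣ j ∧ c * finrank K L = finrank K ↥(L ⊔ T.U (n * j)) := by
  have hN := Nat.mul_pos hn hj
  have hr := Nat.mul_pos T.r_pos hn
  obtain ⟨S⟩ := exists_tower (p := p) L
  obtain ⟨ζ, z1, -, z3⟩ := T.gen_prim hn
  obtain ⟨ξ, x1, -, x3⟩ := T.gen_prim hN
  obtain ⟨k, hk⟩ : T.r * n ∣ S.r := by
    have h1 := S.gen_φ hr z1 1
    rw [pow_one, mul_one, S.φ_fix ζ (h (T.gen_memU hn z1))] at h1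
    exact z3 _ h1.symm
  obtain ⟨c, k', h1, h2, h3⟩ := Nat.exists_coprime j k
  have hg := Nat.gcd_pos_of_pos_left k hj
  generalize j.gcd k = g at h2 h3 hg
  subst h2 h3
  have hc : 0 < c := Nat.pos_of_mul_pos_right hj
  have h4 : ξ ∈ S.U c := S.gen_memU hc (by
    rw [hk, show T.r * n * (k' * g) * c = T.r * (n * (c * g)) * k' by ring, pow_mul]
    exact tow_mu_pow x1 _)
  have h5 : L ⊔ T.U (n * (c * g)) = S.U c := by
    refine le_antisymm (sup_le (S.le c) (T.gen_le hN x1 x3 (((T.le n).trans h).trans (S.le c)) h4))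
      fun x hx => mem_of_fixed fun σ hσ => ?_
    obtain ⟨t, ht⟩ := S.perm c hc σ (hσ.mono le_sup_left)
    have h6 := ht ξ h4
    rw [hσ.mono le_sup_right ξ (T.gen_memU hN x1), S.gen_φ (Nat.mul_pos T.r_pos hN) x1] at h6
    have h7 := x3 _ h6.symm
    rw [hk, show T.r * n * (k' * g) * t = T.r * n * g * (k' * t) by ring,
      show T.r * (n * (c * g)) = T.r * n * g * c by ring] at h7
    obtain ⟨u, rfl⟩ := h1.dvd_of_dvd_mul_left (Nat.dvd_of_mul_dvd_mul_left (Nat.mul_pos hr hg) h7)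
    rw [ht x hx, pow_mul]
    exact (S.fix_U c hc).pow u x hx
  rw [h5]
  exact ⟨S.fin c hc, c, dvd_mul_right _ _, (S.rank c hc).symm⟩

end Pool.Agent.ZeroCyc
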