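import Pool.Agent.Lib.MP_796ce4_ag.ZY.ChDefs
import Pool.Agent.Lib.MP_796ce4_ag.ZY.Gen

/-! Rings of integers of infinite unramified extensions; residues of values. -/

namespace Pool.Agent.ZeroCyc

open Polynomial Module
open scoped Classical IntermediateField PowerSeries

set_option linter.unusedSectionVars false

section

variable {K Λ : Type} [Field K] [NormedField Λ] [IsUltrametricDist Λ] [Algebra K Λ]
  {E : IntermediateField K Λ}

theorem chr_div {x y : Λ} (hx : x ∈ E) (hy : y ∈ E) (h : ‖x‖ ≤ ‖y‖) : x / y ∈ OL E :=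
  ⟨E.div_mem hx hy, show ‖x / y‖ ≤ 1 from by
    rw [norm_div]
    exact div_le_one_of_le₀ h (norm_nonneg _)⟩

theorem exists_prim {σ : Type} {F : MvPolynomial σ Λ} (hF : F ≠ 0) (hE : ∀ m, F.coeff m ∈ E) :
    ∃ (m : σ →₀ ℕ) (F₀ : MvPolynomial σ (OL E)), F.coeff m ≠ 0 ∧
      F = MvPolynomial.C (F.coeff m) * MvPolynomial.map (OL E).subtype F₀ ∧
      MvPolynomial.map (rL E) F₀ ≠ 0 := by
  obtain ⟨m, hm, hmax⟩ := F.support.exists_max_image (fun m => ‖F.coeff m‖)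
    (MvPolynomial.support_nonempty.2 hF)
  have h0 : F.coeff m ≠ 0 := MvPolynomial.mem_support_iff.1 hm
  have hle : ∀ k, ‖F.coeff k‖ ≤ ‖F.coeff m‖ := fun k => by
    by_cases hk : k ∈ F.support
    · exact hmax k hk
    · rw [MvPolynomial.notMem_support_iff.1 hk, norm_zero]
      exact norm_nonneg _
  obtain ⟨F₀, hF₀⟩ : MvPolynomial.C (F.coeff m)⁻¹ * F ∈
      Set.range (MvPolynomial.map (σ := σ) (OL E).subtype) := by
    refine MvPolynomial.mem_range_map_iff_coeffs_subset.2 fun c hc => ?_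
    obtain ⟨k, -, rfl⟩ := MvPolynomial.mem_coeffs_iff.1 (Finset.mem_coe.1 hc)
    rw [MvPolynomial.coeff_C_mul, mul_comm, ← div_eq_mul_inv]
    exact ⟨⟨_, chr_div (hE k) (hE m) (hle k)⟩, rfl⟩
  refine ⟨m, F₀, h0, ?_, fun h => ?_⟩
  · rw [hF₀, ← mul_assoc, ← MvPolynomial.C_mul, mul_inv_cancel₀ h0, MvPolynomial.C_1, one_mul]
  · have h1 := congrArg (MvPolynomial.coeff m) hF₀
    have h2 := congrArg (MvPolynomial.coeff m) h
    rw [MvPolynomial.coeff_map, MvPolynomial.coeff_C_mul, inv_mul_cancel₀ h0] at h1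
    rw [MvPolynomial.coeff_map, rL_apply, MvPolynomial.coeff_zero,
      show ((F₀.coeff m : OL E) : Λ) = 1 from h1, rs_one] at h2
    exact one_ne_zero h2

theorem OL_integrallyClosed (E : IntermediateField K Λ) : IsIntegrallyClosed (OL E) := by
  have key : ∀ a b : OL E, ‖(b : Λ)‖ ≤ ‖(a : Λ)‖ → ∃ c, a * c = b := fun a b h => by
    refine ⟨⟨_, chr_div b.2.1 a.2.1 h⟩, Subtype.ext ?_⟩
    change (a : Λ) * (b / a) = b
    by_cases ha : (a : Λ) = 0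
    · rw [ha, norm_zero, norm_le_zero_iff] at h
      rw [ha, h, zero_mul]
    · exact mul_div_cancel₀ _ ha
  have : PreValuationRing (OL E) := ⟨fun a b => by
    rcases le_total ‖(b : Λ)‖ ‖(a : Λ)‖ with h | h
    · exact (key a b h).imp fun _ => Or.inl
    · exact (key b a h).imp fun _ => Or.inr⟩
  have : ValuationRing (OL E) := {}
  infer_instance

theorem gr_of_avoid (h : ∀ (σ : Type) [Finite σ] (Θ : MvPolynomial σ (kk Λ)), Θ ≠ 0 →
    ∃ c : σ → OL E, MvPolynomial.eval (fun i => rL E (c i)) Θ ≠ 0) : Gr (rL E) where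
  loc x hx := OL_isUnit.2 (rs_ne_zero.1 (by rwa [rL_apply] at hx))
  prim {σ} F hF := by
    have hi := MvPolynomial.map_injective (σ := σ) (OL E).subtype Subtype.val_injective
    obtain ⟨m, F₀, h0, h1, h2⟩ := exists_prim (E := E)
      (F := MvPolynomial.map (OL E).subtype F) (fun h0 => hF (hi (by rw [h0, map_zero])))
      fun m => by
        rw [MvPolynomial.coeff_map]
        exact (F.coeff m).2.1
    rw [MvPolynomial.coeff_map] at h0 h1
    refine ⟨F.coeff m, F₀, fun h3 => h0 (by rw [h3, map_zero]), hi ?_, h2⟩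
    rw [map_mul, MvPolynomial.map_C]
    exact h1
  avoid Θ hΘ := h _ Θ hΘ

theorem norm_apply_le {M : ℕ} {v : Fin M → Λ} (hv : ‖v‖ = 1) (i : Fin M) : ‖v i‖ ≤ 1 :=
  (norm_le_pi_norm v i).trans hv.le

theorem exists_norm_eq_one {M : ℕ} {v : Fin M → Λ} (hv : ‖v‖ = 1) : ∃ i, ‖v i‖ = 1 := by
  by_contra hc
  refine hv.not_lt ((pi_norm_lt_iff one_pos).2 fun i => ?_)
  exact lt_of_le_of_ne (norm_apply_le hv i) fun h => hc ⟨i, h⟩

theorem norm_eq_one_of_lv {M : ℕ} {v : Fin M → Λ} (hv : ∀ i, ‖v i‖ ≤ 1) {l : Fin M → OL E}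
    (h : lv (OL E).subtype l v = 1) : ‖v‖ = 1 := by
  refine le_antisymm ((pi_norm_le_iff_of_nonneg zero_le_one).2 hv) (not_lt.1 fun hc => ?_)
  have h1 : ‖lv (OL E).subtype l v‖ < 1 := gal1_sum_lt fun a _ => by
    rw [norm_mul]
    exact (mul_le_of_le_one_left (norm_nonneg _) (l a).2.2).trans_lt
      ((norm_le_pi_norm v a).trans_lt hc)
  rw [h, norm_one] at h1
  exact lt_irrefl _ h1

theorem lv_mem {L : IntermediateField K Λ} (h : E ≤ L) {M : ℕ} {v : Fin M → Λ}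
    (hv : ∀ i, v i ∈ L) (l : Fin M → OL E) : lv (OL E).subtype l v ∈ L :=
  L.sum_mem fun a _ => L.mul_mem (h (l a).2.1) (hv a)

theorem rs_lv {M : ℕ} {v : Fin M → Λ} (hv : ∀ i, ‖v i‖ ≤ 1) (l : Fin M → OL E) :
    ‖lv (OL E).subtype l v‖ ≤ 1 ∧
      rs (lv (OL E).subtype l v) = lv (rL E) l fun a => rs (v a) := by
  rw [← eval₂_lp, ← eval₂_lp]
  exact rs_mv (fun c => c.2.2) rL_apply hv _

theorem rs_ev2' {d : ℕ} {y : Fin d → Λ} (hy : ∀ i, ‖y i‖ ≤ 1) {h : Λ} (hh : ‖h‖ ≤ 1)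
    (q : MP d (OL E)) : ‖ev2 (OL E).subtype y h q‖ ≤ 1 ∧
      rs (ev2 (OL E).subtype y h q) = ev2 (rL E) (fun i => rs (y i)) (rs h) q := by
  have key := fun g : MvPolynomial (Fin d) (OL E) =>
    rs_mv (φ := (OL E).subtype) (ψ := rL E) (fun c => c.2.2) rL_apply hy g
  exact ⟨norm_eval₂_le (φ := MvPolynomial.eval₂Hom (OL E).subtype y) (fun g => (key g).1) hh q,
    rs_eval₂ (φ := MvPolynomial.eval₂Hom (OL E).subtype y)
      (ψ := MvPolynomial.eval₂Hom (rL E) fun i => rs (y i)) (fun g => (key g).1)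
      (fun g => (key g).2.symm) hh q⟩

theorem chr_rs_sum {T : Type} (s : Finset T) {f : T → Λ} (hf : ∀ t, ‖f t‖ ≤ 1) :
    ‖∑ t ∈ s, f t‖ ≤ 1 ∧ rs (∑ t ∈ s, f t) = ∑ t ∈ s, rs (f t) := by
  induction s using Finset.induction_on with
  | empty => simp [rs_zero]
  | insert a s ha ih =>
    rw [Finset.sum_insert ha, Finset.sum_insert ha, rs_add (hf a) ih.1, ih.2]
    exact ⟨(IsUltrametricDist.norm_add_le_max _ _).trans (max_le (hf a) ih.1), rfl⟩

theorem rs_dG {R : Type} [CommRing R] {φ : R →+* Λ} {ψ : R →+* kk Λ} (hφ : ∀ c, ‖φ c‖ ≤ 1)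
    (hψ : ∀ c, ψ c = rs (φ c)) {M : ℕ} {x w : Fin M → Λ} (hx : ∀ i, ‖x i‖ ≤ 1)
    (hw : ∀ i, ‖w i‖ ≤ 1) (G : MvPolynomial (Fin M) R) : ‖dG φ x w G‖ ≤ 1 ∧
      rs (dG φ x w G) = dG ψ (fun a => rs (x a)) (fun a => rs (w a)) G := by
  have key := fun a => rs_mv hφ hψ hx (MvPolynomial.pderiv a G)
  have h := chr_rs_sum Finset.univ
    (f := fun a => MvPolynomial.eval₂ φ x (MvPolynomial.pderiv a G) * w a) fun a => by
      rw [norm_mul]
      exact mul_le_one₀ (key a).1 (norm_nonneg _) (hw a)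
  refine ⟨h.1, h.2.trans (Finset.sum_congr rfl fun a _ => ?_)⟩
  rw [rs_mul (key a).1 (hw a), (key a).2]

theorem chr_intg {d : ℕ} {y : Fin d → Λ} (hy : ∀ i, ‖y i‖ ≤ 1) (q : MP d (OL E)) :
    Intg (q.map (MvPolynomial.eval₂Hom (OL E).subtype y)) := fun n => by
  rw [coeff_map]
  exact (rs_mv (φ := (OL E).subtype) (ψ := rL E) (fun c => c.2.2) rL_apply hy _).1

/-- roots of monic polynomials over integral points are integral -/
theorem norm_le_of_ev2 {d : ℕ} {y : Fin d → Λ} (hy : ∀ i, ‖y i‖ ≤ 1) {q : MP d (OL E)}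
    (hq : q.Monic) {h : Λ} (h0 : ev2 (OL E).subtype y h q = 0) : ‖h‖ ≤ 1 :=
  (chr_intg hy q).root_le (hq.map _) (by rw [← ev2_eq_eval, h0])

/-- zeros on the special fibre lift -/
theorem exists_ev2_lift [IsAlgClosed Λ] {d : ℕ} {q : MP d (OL E)} (hq : q.Monic)
    {y : Fin d → kk Λ} {h : kk Λ} (h0 : ev2 (rL E) y h q = 0) :
    ∃ (y' : Fin d → Λ) (h' : Λ), (∀ i, ‖y' i‖ ≤ 1) ∧ ‖h'‖ ≤ 1 ∧ (fun i => rs (y' i)) = y ∧
      rs h' = h ∧ ev2 (OL E).subtype y' h' q = 0 := by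
  choose y' hy hy' using fun i => rs_surj (y i)
  obtain ⟨t, ht, rfl⟩ := rs_surj h
  have e : (fun i => rs (y' i)) = y := funext hy'
  obtain ⟨h1, h2⟩ := rs_ev2' hy ht q
  rw [e, h0, rs_eq_zero h1, ev2_eq_eval] at h2
  obtain ⟨x, hx, hx'⟩ := (chr_intg hy q).exists_root_near (hq.map _) h2
  have h3 : ‖x‖ ≤ 1 := gal1_le_one ht (by rwa [norm_sub_rev])
  exact ⟨y', x, hy, h3, e, (rs_eq_iff h3 ht).2 hx', by rw [ev2_eq_eval, hx]⟩

end

variable {p : ℕ} {K Λ : Type} [Field K] [CharZero K] [NormedField Λ] [IsUltrametricDist Λ]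
  [IsAlgClosed Λ] [Algebra K Λ] [IsGalois K Λ] [Loc p K Λ] [Fact p.Prime] [CharP (kk Λ) p]

variable {B : IntermediateField K Λ} (T : Tower p B)

/-- the union of the fields `U (n * l ^ i)` -/
noncomputable def Tower.Ui (n l : ℕ) : IntermediateField K Λ := ⨆ i : ℕ, T.U (n * l ^ i)

theorem Tower.le_Ui (n l i : ℕ) : T.U (n * l ^ i) ≤ T.Ui n l :=
  le_iSup (fun i : ℕ => T.U (n * l ^ i)) i

theorem Tower.gr_Ui {n l : ℕ} (hn : 0 < n) (hl : 2 ≤ l) : Gr (rL (T.Ui n l)) := by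
  refine gr_of_avoid fun σ _ Θ hΘ => ?_
  obtain ⟨n₀, h⟩ := T.exists_eval_ne hΘ
  obtain ⟨x, hx⟩ := h (n * l ^ n₀)
    ((Nat.lt_pow_self hl).le.trans (Nat.le_mul_of_pos_left _ hn))
  refine ⟨fun i => inc (T.le_Ui n l n₀) (x i), ?_⟩
  rwa [← rL_inc (T.le_Ui n l n₀)] at hx

theorem Tower.eventually_mem {n l : ℕ} (hn : 0 < n) (hl : 2 ≤ l) (c : OL (T.Ui n l)) :
    ∀ᶠ i in Filter.atTop, c ∈ (inc (T.le_Ui n l i)).range := by
  have hm : Monotone fun i : ℕ => T.U (n * l ^ i) := fun i j hij =>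
    T.mono (by positivity) (by positivity) (Nat.mul_dvd_mul_left n (pow_dvd_pow l hij))
  have h1 : (c : Λ) ∈ ((⨆ i : ℕ, T.U (n * l ^ i) : IntermediateField K Λ) : Set Λ) := c.2.1
  rw [IntermediateField.coe_iSup_of_directed hm.directed_le] at h1
  obtain ⟨i, hi⟩ := Set.mem_iUnion.1 h1
  exact Filter.eventually_atTop.2 ⟨i, fun j hj => ⟨⟨c, hm hj hi, c.2.2⟩, rfl⟩⟩

end Pool.Agent.ZeroCyc
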