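import Pool.Agent.Lib.MP_796ce4_ag.ZY.ChA
import Pool.Agent.Lib.MP_796ce4_ag.ZY.ChR

/-! Lifting approximate points. -/

namespace Pool.Agent.ZeroCyc

open Polynomial Module
open scoped Classical IntermediateField PowerSeries

set_option linter.unusedSectionVars false

section ring

variable {N : ℕ} {O : Type} [CommRing O] {I : Ideal (MvPolynomial (Fin (N + 1)) O)}

theorem chl_map_iff {A T : Type} [CommRing A] [CommRing T] (φ : O →+* A) (ψ : A →+* T)
    (v : Fin (N + 1) → T) :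
    (∀ G ∈ I.map (MvPolynomial.map φ), MvPolynomial.eval₂ ψ v G = 0) ↔
      ∀ G ∈ I, MvPolynomial.eval₂ (ψ.comp φ) v G = 0 := by
  constructor
  · intro h G hG
    rw [← MvPolynomial.eval₂_map]
    exact h _ (Ideal.mem_map_of_mem _ hG)
  · intro h G hG
    have hle : I.map (MvPolynomial.map φ) ≤ RingHom.ker (MvPolynomial.eval₂Hom ψ v) := by
      rw [Ideal.map_le_iff_le_comap]
      intro H hH
      rw [Ideal.mem_comap, RingHom.mem_ker, MvPolynomial.coe_eval₂Hom, MvPolynomial.eval₂_map]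
      exact h H hH
    exact hle hG

theorem onX_iff {K F : Type} [Field K] [Field F] [Algebra K F] [Algebra O K]
    {J : Ideal (MvPolynomial (Fin (N + 1)) K)}
    (hJ : J = I.map (MvPolynomial.map (algebraMap O K))) {v : Fin (N + 1) → F} : OnX J v ↔
      ∀ G ∈ I, MvPolynomial.eval₂ ((algebraMap K F).comp (algebraMap O K)) v G = 0 := by
  subst hJ
  exact chl_map_iff (algebraMap O K) (algebraMap K F) v

theorem GoodModel.smul_mem (hI : GoodModel O I) {T : Type} [CommRing T] (φ : O →+* T)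
    (𝔞 : Ideal T) {v : Fin (N + 1) → T} (h : ∀ G ∈ I, MvPolynomial.eval₂ φ v G ∈ 𝔞) (c : T) :
    ∀ G ∈ I, MvPolynomial.eval₂ φ (c • v) G ∈ 𝔞 := by
  intro G hG
  rw [← MvPolynomial.sum_homogeneousComponent G, MvPolynomial.eval₂_sum]
  refine Ideal.sum_mem _ fun k _ => ?_
  rw [eval₂_smul_homog (MvPolynomial.homogeneousComponent_isHomogeneous k G)]
  exact Ideal.mul_mem_left _ _ (h _ (hI.hom G hG k))

theorem GoodModel.onX_smul (hI : GoodModel O I) {K F : Type} [Field K] [Field F] [Algebra K F]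
    [Algebra O K] {J : Ideal (MvPolynomial (Fin (N + 1)) K)}
    (hJ : J = I.map (MvPolynomial.map (algebraMap O K))) (v : Fin (N + 1) → F) (c : F)
    (h : OnX J v) : OnX J (c • v) := by
  rw [onX_iff hJ] at h ⊢
  intro G hG
  exact Ideal.mem_bot.1
    (hI.smul_mem _ ⊥ (fun H hH => Ideal.mem_bot.2 (h H hH)) c G hG)

theorem GoodModel.exists_lift_ring (hI : GoodModel O I) {T : Type} [CommRing T] (φ : O →+* T)
    (𝔞 : Ideal T) [IsAdicComplete 𝔞 T] {v : Fin (N + 1) → T} {i : Fin (N + 1)}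
    (hi : IsUnit (v i)) (h : ∀ G ∈ I, MvPolynomial.eval₂ φ v G ∈ 𝔞) :
    ∃ v' : Fin (N + 1) → T, (∀ G ∈ I, MvPolynomial.eval₂ φ v' G = 0) ∧ ∀ a, v' a - v a ∈ 𝔞 := by
  let _ : Algebra O T := φ.toAlgebra
  obtain ⟨u, hu⟩ := hi
  let w : Fin (N + 1) → T := (↑u⁻¹ : T) • v
  have hw : ∀ G ∈ I, MvPolynomial.eval₂ φ w G ∈ 𝔞 := hI.smul_mem φ 𝔞 h _
  have hwi : w i = 1 := by
    show (↑u⁻¹ : T) * v i = 1
    rw [← hu, Units.inv_mul]
  let f : MvPolynomial (Fin (N + 1)) O →ₐ[O] T ⧸ 𝔞 :=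
    (Ideal.Quotient.mkₐ O 𝔞).comp (MvPolynomial.aeval w)
  have hf : ∀ G ∈ I ⊔ Ideal.span {MvPolynomial.X i - 1}, f G = 0 := by
    intro G hG
    have hle : I ⊔ Ideal.span {MvPolynomial.X i - 1} ≤ RingHom.ker f := by
      refine sup_le (fun H hH => ?_) ?_
      · rw [RingHom.mem_ker]
        exact Ideal.Quotient.eq_zero_iff_mem.2 (hw H hH)
      · rw [Ideal.span_le, Set.singleton_subset_iff, SetLike.mem_coe, RingHom.mem_ker]
        simp [f, hwi]
    exact hle hG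
  have _ := hI.smooth i
  obtain ⟨g, hg⟩ := Algebra.FormallySmooth.exists_mkₐ_comp_eq_of_isAdicComplete
    (Ideal.Quotient.liftₐ _ f hf)
  let q := Ideal.Quotient.mkₐ O (I ⊔ Ideal.span {MvPolynomial.X i - 1})
  let w' : Fin (N + 1) → T := fun a => g (q (MvPolynomial.X a))
  have hw' : MvPolynomial.aeval w' = g.comp q := MvPolynomial.algHom_ext fun a => by simp [w']
  have h0 : ∀ G ∈ I, MvPolynomial.eval₂ φ w' G ∈ (⊥ : Ideal T) := by
    intro G hG
    have h1 : q G = 0 := Ideal.Quotient.eq_zero_iff_mem.2 (Ideal.mem_sup_left hG)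
    have h2 : MvPolynomial.aeval w' G = 0 := by rw [hw', AlgHom.comp_apply, h1, map_zero]
    exact Ideal.mem_bot.2 h2
  refine ⟨(u : T) • w', fun G hG => Ideal.mem_bot.1 (hI.smul_mem φ ⊥ h0 _ G hG), fun a => ?_⟩
  have h1 : w' a - w a ∈ 𝔞 := by
    rw [← Ideal.Quotient.eq]
    have h2 := congr($hg (q (MvPolynomial.X a)))
    have h3 : f (MvPolynomial.X a) = Ideal.Quotient.mk 𝔞 (w a) := by simp [f]
    exact h2.trans h3
  have h2 : ((u : T) • w') a - v a = u * (w' a - w a) := by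
    show (u : T) * w' a - v a = u * (w' a - (↑u⁻¹ : T) * v a)
    rw [mul_sub, ← mul_assoc, Units.mul_inv, one_mul]
  rw [h2]
  exact Ideal.mul_mem_left _ _ h1

/-- geometric irreducibility in terms of points -/
theorem GoodModel.prime_pts (hI : GoodModel O I) {κ : Type} [Field κ] [IsAlgClosed κ]
    (φ : O →+* κ) (F G : MvPolynomial (Fin (N + 1)) κ)
    (h : ∀ v, (∀ H ∈ I, MvPolynomial.eval₂ φ v H = 0) → MvPolynomial.eval v (F * G) = 0) :
    (∀ v, (∀ H ∈ I, MvPolynomial.eval₂ φ v H = 0) → MvPolynomial.eval v F = 0) ∨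
      ∀ v, (∀ H ∈ I, MvPolynomial.eval₂ φ v H = 0) → MvPolynomial.eval v G = 0 := by
  let _ : Algebra O κ := φ.toAlgebra
  have hp : (I.map (MvPolynomial.map φ)).radical.IsPrime := hI.irred κ
  have key : ∀ H : MvPolynomial (Fin (N + 1)) κ, H ∈ (I.map (MvPolynomial.map φ)).radical ↔
      ∀ v, (∀ H ∈ I, MvPolynomial.eval₂ φ v H = 0) → MvPolynomial.eval v H = 0 := by
    intro H
    rw [← MvPolynomial.vanishingIdeal_zeroLocus_eq_radical (K := κ),
      MvPolynomial.mem_vanishingIdeal_iff]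
    refine forall_congr' fun v => ?_
    rw [MvPolynomial.mem_zeroLocus_iff]
    exact imp_congr (chl_map_iff φ (RingHom.id κ) v) Iff.rfl
  rw [← key, ← key]
  exact hp.mem_or_mem ((key _).2 h)

end ring

variable {p : ℕ} {K Λ : Type} [Field K] [CharZero K] [NormedField Λ] [IsUltrametricDist Λ]
  [IsAlgClosed Λ] [Algebra K Λ] [IsGalois K Λ] [Loc p K Λ]

variable {N : ℕ} {O : Type} [CommRing O] [Algebra O K] {I : Ideal (MvPolynomial (Fin (N + 1)) O)}
  {J : Ideal (MvPolynomial (Fin (N + 1)) K)}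

/-- the structure map to the integers of `E` -/
def oE (hO : ∀ c : O, ‖algebraMap K Λ (algebraMap O K c)‖ ≤ 1) (E : IntermediateField K Λ) :
    O →+* OL E :=
  ((algebraMap K Λ).comp (algebraMap O K)).codRestrict (OL E) fun c =>
    ⟨E.algebraMap_mem _, hO c⟩

theorem subtype_oE (hO : ∀ c : O, ‖algebraMap K Λ (algebraMap O K c)‖ ≤ 1)
    (E : IntermediateField K Λ) :
    (OL E).subtype.comp (oE hO E) = (algebraMap K Λ).comp (algebraMap O K) := rfl

theorem chl_mem_span {L : IntermediateField K Λ} {x d : OL L} :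
    x ∈ Ideal.span {d} ↔ ‖(x : Λ)‖ ≤ ‖(d : Λ)‖ := by
  rw [Ideal.mem_span_singleton']
  constructor
  · rintro ⟨a, rfl⟩
    rw [Subring.coe_mul, norm_mul]
    exact mul_le_of_le_one_left (norm_nonneg _) a.2.2
  · intro h
    by_cases hd : (d : Λ) = 0
    · rw [hd, norm_zero, norm_le_zero_iff] at h
      exact ⟨0, Subtype.ext (by rw [zero_mul, h]; rfl)⟩
    · refine ⟨⟨(x : Λ) / d, mem_OL.2 ⟨L.div_mem x.2.1 d.2.1, ?_⟩⟩, Subtype.ext ?_⟩
      · rw [norm_div]
        exact div_le_one_of_le₀ h (norm_nonneg _)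
      · exact div_mul_cancel₀ _ hd

theorem chl_smod {L : IntermediateField K Λ} {x y c : OL L} {n : ℕ} :
    x ≡ y [SMOD (Ideal.span {c} ^ n • ⊤ : Submodule (OL L) (OL L))] ↔
      ‖(x : Λ) - y‖ ≤ ‖(c : Λ)‖ ^ n := by
  rw [SModEq.sub_mem, smul_eq_mul, Ideal.mul_top, Ideal.span_singleton_pow, chl_mem_span,
    AddSubgroupClass.coe_sub, SubmonoidClass.coe_pow, norm_pow]

include p

theorem OL_adicComplete (L : IntermediateField K Λ) [FiniteDimensional K L] {c : OL L}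
    (hc : ‖(c : Λ)‖ < 1) : IsAdicComplete (Ideal.span {c}) (OL L) := by
  have ht : Filter.Tendsto (fun n : ℕ => ‖(c : Λ)‖ ^ n) Filter.atTop (nhds 0) :=
    tendsto_pow_atTop_nhds_zero_of_lt_one (norm_nonneg _) hc
  refine { haus' := fun x hx => ?_, prec' := fun f hf => ?_ }
  · have h1 : ‖(x : Λ)‖ ≤ 0 := ge_of_tendsto' ht fun n => by
      have := chl_smod.1 (hx n)
      simpa using this
    exact Subtype.ext (norm_le_zero_iff.1 h1)
  · have hf' : ∀ m n, m ≤ n → ‖(f m : Λ) - f n‖ ≤ ‖(c : Λ)‖ ^ m :=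
      fun m n h => chl_smod.1 (hf h)
    have hcau : CauchySeq fun n => (f n : Λ) :=
      cauchySeq_of_le_tendsto_0' (fun n => ‖(c : Λ)‖ ^ n)
        (fun n m h => by rw [dist_eq_norm]; exact hf' n m h) ht
    obtain ⟨y, hyL, hy⟩ := cauchySeq_tendsto_of_isComplete
      (Loc.complete (p := p) L inferInstance) (fun n => (f n).2.1) hcau
    have hy1 : ‖y‖ ≤ 1 := le_of_tendsto' hy.norm fun n => (f n).2.2
    refine ⟨⟨y, hyL, hy1⟩, fun n => chl_smod.2 ?_⟩
    refine le_of_tendsto ((tendsto_const_nhds (x := (f n : Λ))).sub hy).norm ?_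
    exact Filter.eventually_atTop.2 ⟨n, fun m hm => hf' n m hm⟩

theorem GoodModel.exists_lift (hI : GoodModel O I)
    (hJ : J = I.map (MvPolynomial.map (algebraMap O K)))
    (hO : ∀ c : O, ‖algebraMap K Λ (algebraMap O K c)‖ ≤ 1) {v : Fin (N + 1) → Λ} (hv : ‖v‖ = 1)
    {c : Λ} (hc : ‖c‖ ≤ 1)
    (h : ∀ G ∈ I, ‖MvPolynomial.eval₂ ((algebraMap K Λ).comp (algebraMap O K)) v G‖ < ‖c‖) :
    ∃ v', OnX J v' ∧ ∀ a, ‖v' a - v a‖ < ‖c‖ := by
  have hc0 : 0 < ‖c‖ := lt_of_le_of_lt (norm_nonneg _) (h 0 I.zero_mem)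
  let S : Set Λ := insert c (Set.range v)
  have _ : Finite S := ((Set.finite_range v).insert c).to_subtype
  let L : IntermediateField K Λ := IntermediateField.adjoin K S
  have _ : FiniteDimensional K L := IntermediateField.finiteDimensional_adjoin
    fun x _ => Algebra.IsIntegral.isIntegral x
  have hcL : c ∈ L := IntermediateField.subset_adjoin K S (Set.mem_insert _ _)
  have hvL : ∀ a, v a ∈ L := fun a =>
    IntermediateField.subset_adjoin K S (Set.mem_insert_of_mem _ ⟨a, rfl⟩)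
  obtain ⟨ϖ, hϖL, -, hϖ1, hϖ⟩ := Loc.unif (p := p) L inferInstance
  have hlt : ‖c * ϖ‖ < ‖c‖ := by
    rw [norm_mul]
    exact mul_lt_of_lt_one_right hc0 hϖ1
  let d : OL L := ⟨c * ϖ, mem_OL.2 ⟨L.mul_mem hcL hϖL, hlt.le.trans hc⟩⟩
  have _ := OL_adicComplete (p := p) L (c := d) (hlt.trans_le hc)
  let w : Fin (N + 1) → OL L := fun a => ⟨v a, mem_OL.2 ⟨hvL a, norm_apply_le hv a⟩⟩
  obtain ⟨i, hi⟩ := exists_norm_eq_one hv
  have hev : ∀ (z : Fin (N + 1) → OL L) (G : MvPolynomial (Fin (N + 1)) O),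
      ((MvPolynomial.eval₂ (oE hO L) z G : OL L) : Λ) =
        MvPolynomial.eval₂ ((algebraMap K Λ).comp (algebraMap O K)) (fun a => (z a : Λ)) G :=
    fun z G => MvPolynomial.eval₂_comp_left (OL L).subtype (oE hO L) z G
  obtain ⟨w', h1, h2⟩ := hI.exists_lift_ring (oE hO L) (Ideal.span {d}) (v := w) (i := i)
    (OL_isUnit.2 hi) fun G hG => by
      rw [chl_mem_span]
      have h3 : ‖((MvPolynomial.eval₂ (oE hO L) w G : OL L) : Λ)‖ < ‖c‖ := by
        rw [hev]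
        exact h G hG
      have h4 := hϖ _ (L.div_mem (MvPolynomial.eval₂ (oE hO L) w G).2.1 hcL)
        (by rw [norm_div, div_lt_one hc0]; exact h3)
      rw [norm_div, div_le_iff₀ hc0] at h4
      show _ ≤ ‖c * ϖ‖
      rw [norm_mul, mul_comm]
      exact h4
  refine ⟨fun a => (w' a : Λ), (onX_iff hJ).2 fun G hG => ?_, fun a => ?_⟩
  · rw [← hev, h1 G hG]
    rfl
  · exact lt_of_le_of_lt (chl_mem_span.1 (h2 a)) hlt

end Pool.Agent.ZeroCyc
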