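import Pool.Agent.Lib.MP_796ce4_ag.ZY.Cube
import Pool.Agent.Lib.MP_796ce4_ag.ZY.Cl
import Pool.Agent.Lib.MP_796ce4_ag.ZY.CvB

/-! Charts: the variety as a hypersurface `χ(y, T) = 0` over affine space. -/

namespace Pool.Agent.ZeroCyc

open Polynomial Module
open scoped Classical IntermediateField PowerSeries

set_option linter.unusedSectionVars false

variable {K Λ : Type} [Field K] [NormedField Λ] [IsUltrametricDist Λ] [Algebra K Λ] {N : ℕ}

/-- A monic hypersurface with a polynomial map to the cone over the variety. -/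
structure Chart (J : Ideal (MvPolynomial (Fin (N + 1)) K)) (B : IntermediateField K Λ) where
  d : ℕ
  δ : ℕ
  b : ℕ
  χ : MP d (OL B)
  α₀ : MP d (OL B)
  β₀ : MP d (OL B)
  α₁ : MP d (OL B)
  β₁ : MP d (OL B)
  pp : Fin (N + 1) → MP d (OL B)
  D₀ : MvPolynomial (Fin d) (OL B)
  i₀ : Fin (N + 1)
  monic : χ.Monic
  deg : χ.natDegree = δ
  pos : 0 < δ
  wt : ∀ i, (χ.coeff i).totalDegree ≤ b * (δ - i)
  e₀ : C D₀ = α₀ * χ + β₀ * derivative χ
  e₁ : C D₀ = α₁ * χ + β₁ * pp i₀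
  on : ∀ G ∈ J, mq (OL B).subtype χ ∣
    MvPolynomial.aeval (fun i => mq (OL B).subtype (pp i)) G
  ne : MvPolynomial.map (rL B) D₀ ≠ 0

/-- primitive integral vectors on the cone -/
def PrimX (J : Ideal (MvPolynomial (Fin (N + 1)) K)) (v : Fin (N + 1) → Λ) : Prop :=
  OnX J v ∧ ‖v‖ = 1

/-- a form that does not vanish identically on the special fibre -/
def NV (J : Ideal (MvPolynomial (Fin (N + 1)) K)) {B : IntermediateField K Λ}
    (Ξ : MvPolynomial (Fin (N + 1)) (OL B)) : Prop :=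
  (∃ k, Ξ.IsHomogeneous k) ∧ ∃ v, PrimX J v ∧ ‖MvPolynomial.eval₂ (OL B).subtype v Ξ‖ = 1

namespace Chart

variable {J : Ideal (MvPolynomial (Fin (N + 1)) K)} {B : IntermediateField K Λ} (𝒞 : Chart J B)

/-- the special fibre of the chart is geometrically irreducible -/
def Irr : Prop := Irreducible (mq (rL B) 𝒞.χ)

/-- homogeneous coordinates of the point `(y, h)` -/
noncomputable def pv (y : Fin 𝒞.d → Λ) (h : Λ) : Fin (N + 1) → Λ :=
  fun i => ev2 (OL B).subtype y h (𝒞.pp i)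

/-- the image of `(y, h)` in projective space -/
noncomputable def io (y : Fin 𝒞.d → Λ) (h : Λ) : PY Λ N := pj (𝒞.pv y h)

/-- integral points at which the special fibre of the chart is etale and the map is defined -/
structure Ep (y : Fin 𝒞.d → Λ) (h : Λ) : Prop where
  y_le : ∀ i, ‖y i‖ ≤ 1
  h_le : ‖h‖ ≤ 1
  on : ev2 (OL B).subtype y h 𝒞.χ = 0
  der : ‖ev2 (OL B).subtype y h (derivative 𝒞.χ)‖ = 1
  unit : ‖𝒞.pv y h 𝒞.i₀‖ = 1

/-- good points -/
structure Gd (y : Fin 𝒞.d → Λ) (h : Λ) : Prop where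
  y_le : ∀ i, ‖y i‖ ≤ 1
  h_le : ‖h‖ ≤ 1
  on : ev2 (OL B).subtype y h 𝒞.χ = 0
  unit : ‖MvPolynomial.eval₂ (OL B).subtype y 𝒞.D₀‖ = 1

/-- good points over `L` -/
structure GdL (L : IntermediateField K Λ) (y : Fin 𝒞.d → Λ) (h : Λ) : Prop where
  gd : 𝒞.Gd y h
  y_mem : ∀ i, y i ∈ L
  h_mem : h ∈ L

/-- good points of the special fibre -/
structure Gk (y : Fin 𝒞.d → kk Λ) (h : kk Λ) : Prop where
  on : ev2 (rL B) y h 𝒞.χ = 0
  unit : MvPolynomial.eval₂ (rL B) y 𝒞.D₀ ≠ 0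

/-- the points at which `Ξ` is a unit are good points of the chart -/
def Covers (Ξ : MvPolynomial (Fin (N + 1)) (OL B)) : Prop :=
  ∀ (L : IntermediateField K Λ) (v : Fin (N + 1) → Λ), B ≤ L → (∀ i, v i ∈ L) → PrimX J v →
    ‖MvPolynomial.eval₂ (OL B).subtype v Ξ‖ = 1 → ∃ y h, 𝒞.GdL L y h ∧ pj v = 𝒞.io y h

/-- the point is an etale point of the chart -/
def Adapted (P : Fin (N + 1) → Λ) : Prop :=
  ∃ y h, 𝒞.Ep y h ∧ pj P = 𝒞.io y h ∧ ∀ L : IntermediateField K Λ, B ≤ L → (∀ i, P i ∈ L) →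
    (∀ i, y i ∈ L) ∧ h ∈ L

/-- the root near `h₀` -/
noncomputable def hen (h₀ : Λ) (y : Fin 𝒞.d → Λ) : Λ :=
  if h : ∃ η, ev2 (OL B).subtype y η 𝒞.χ = 0 ∧ ‖η - h₀‖ < 1 then h.choose else 0

/-- the parametrisation of a residue disc -/
noncomputable def Jm (h₀ : Λ) : GA (Fin 𝒞.d → Λ) →+ (PY Λ N →₀ ℤ) :=
  (psh fun y => 𝒞.io y (𝒞.hen h₀ y)).comp AddMonoidAlgebra.coeffAddEquiv.toAddMonoidHom

/-- the unramified lift of a point of the special fibre -/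
noncomputable def lf (p : ℕ) (y : Fin 𝒞.d → kk Λ) (h : kk Λ) : PY Λ N :=
  𝒞.io (fun i => teich p (y i)) (𝒞.hen (teich p h) fun i => teich p (y i))

/-- lifts of divisors on a curve in the special fibre -/
noncomputable def Lf (p : ℕ) (lam : Fin 𝒞.d → (kk Λ)[X]) :
    (kk Λ × kk Λ →₀ ℤ) →+ (PY Λ N →₀ ℤ) :=
  psh fun Q => 𝒞.lf p (fun i => (lam i).eval Q.1) Q.2

/-- push-forward of divisors on a curve -/
noncomputable def Pf (lam : Fin 𝒞.d → Λ[X]) : (Λ × Λ →₀ ℤ) →+ (PY Λ N →₀ ℤ) :=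
  psh fun Q => 𝒞.io (fun i => (lam i).eval Q.1) Q.2

/-- the points of the residue disc over the roots of `μ` -/
noncomputable def blk (h₀ : Λ) (lam : Fin 𝒞.d → Λ[X]) (μ : Λ[X]) : PY Λ N →₀ ℤ :=
  𝒞.Jm h₀ (μ.roots.map fun t => sg fun i => (lam i).eval t).sum

/-- the weight bound -/
noncomputable def W : ℕ := (exists_wl_cv 𝒞.β₀ 𝒞.b).choose + 𝒞.b * 𝒞.δ + 𝒞.D₀.totalDegree

/-- the polynomial `D₀` along a curve -/
noncomputable def rho {S : Type} [CommRing S] (φ : OL B →+* S) (lam : Fin 𝒞.d → S[X]) : S[X] :=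
  MvPolynomial.eval₂ (C.comp φ) lam 𝒞.D₀

theorem wt_crv {S : Type} [CommRing S] [Nontrivial S] (φ : OL B →+* S) {lam : Fin 𝒞.d → S[X]}
    {e : ℕ} (he : ∀ i, (lam i).natDegree ≤ e) : Wt (𝒞.b * e) 𝒞.δ (cv φ lam 𝒞.χ) :=
  𝒞.deg ▸ wt_cv φ he 𝒞.monic (𝒞.deg.symm ▸ 𝒞.wt)

/-- the plane curve over the curve `y = lam(τ)` -/
noncomputable def crv {S : Type} [CommRing S] [Nontrivial S] (φ : OL B →+* S)
    (lam : Fin 𝒞.d → S[X]) (e : ℕ) (he : ∀ i, (lam i).natDegree ≤ e) : Cv S where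
  χ := cv φ lam 𝒞.χ
  α := cv φ lam 𝒞.α₀
  β := cv φ lam 𝒞.β₀
  ρ := 𝒞.rho φ lam
  δ := 𝒞.δ
  b := 𝒞.b * e
  w := 𝒞.W * e
  wt := 𝒞.wt_crv φ he
  rho := by
    rw [← cv_derivative, ← map_mul, ← map_mul, ← map_add, ← 𝒞.e₀]
    simp [cv, rho]
  deg := (natDegree_eval₂_le φ he _).trans (Nat.mul_le_mul_right _ (Nat.le_add_left _ _))
  wβ := ((exists_wl_cv 𝒞.β₀ 𝒞.b).choose_spec S φ lam e he).mono (by
    unfold W
    nlinarith [Nat.zero_le (𝒞.D₀.totalDegree * e)])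

/-- classes of products of differences over `L` -/
noncomputable def SigL (π : Λ) (L : IntermediateField K Λ) (s w : ℕ) : AddSubgroup (VV Λ J) :=
  ⨆ (y₀ : Fin 𝒞.d → Λ) (h₀ : Λ) (_ : 𝒞.GdL L y₀ h₀),
    (II (piFil 𝒞.d (fl1 L π)) y₀ s w).map ((clL J L).comp (𝒞.Jm h₀))

/-- classes of good points over `L` -/
noncomputable def TL (L : IntermediateField K Λ) : AddSubgroup (VV Λ J) :=
  AddSubgroup.closure {v | ∃ y h, 𝒞.GdL L y h ∧ v = clL J L (Finsupp.single (𝒞.io y h) 1)}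

variable {p : ℕ} (T : Tower p B)

/-- products of at most `s` differences of weight `w` over `U n` -/
noncomputable def Sig (n s w : ℕ) : AddSubgroup (VV Λ J) := 𝒞.SigL T.π (T.U n) s w

/-- the same over all unramified extensions -/
noncomputable def FF (s w : ℕ) : AddSubgroup (VV Λ J) := ⨆ (n : ℕ) (_ : 0 < n), 𝒞.Sig T n s w

/-- the weight filtration -/
noncomputable def Gw (w : ℕ) : AddSubgroup (VV Λ J) := ⨆ s : ℕ, 𝒞.FF T s w

/-- differences of congruent unramified good points -/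
noncomputable def Vu : AddSubgroup (VV Λ J) := 𝒞.Gw T 1

/-- unramified good points -/
noncomputable def UU : AddSubgroup (VV Λ J) := ⨆ (n : ℕ) (_ : 0 < n), 𝒞.TL (T.U n)

end Chart

/-- distinguished polynomials -/
structure Dist {L : IntermediateField K Λ} (μ : (OL L)[X]) : Prop where
  monic : μ.Monic
  lt : ∀ i < μ.natDegree, ‖(μ.coeff i : Λ)‖ < 1

end Pool.Agent.ZeroCyc
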