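import Pool.Agent.Lib.MP_796ce4_ag.ZY.ChB
import Pool.Agent.Lib.MP_796ce4_ag.ZY.ChL
import Pool.Agent.Lib.MP_796ce4_ag.ZY.ChartDefs

/-! The cone over a smooth model. -/

namespace Pool.Agent.ZeroCyc

open Polynomial Module
open scoped Classical IntermediateField PowerSeries

set_option linter.unusedSectionVars false

variable {p : ℕ} {K Λ : Type} [Field K] [CharZero K] [NormedField Λ] [IsUltrametricDist Λ]
  [IsAlgClosed Λ] [Algebra K Λ] [IsGalois K Λ] [Loc p K Λ]

variable {N : ℕ} {O : Type} [CommRing O] [Algebra O K] {I : Ideal (MvPolynomial (Fin (N + 1)) O)}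
  {J : Ideal (MvPolynomial (Fin (N + 1)) K)}

/-- the reductions of the primitive points form an irreducible set -/
def RedIrr (J : Ideal (MvPolynomial (Fin (N + 1)) K)) (Λ : Type) [NormedField Λ]
    [IsUltrametricDist Λ] [Algebra K Λ] : Prop :=
  ∀ F G : MvPolynomial (Fin (N + 1)) (kk Λ),
    (∀ v : Fin (N + 1) → Λ, PrimX J v → MvPolynomial.eval (fun a => rs (v a)) (F * G) = 0) →
    (∀ v : Fin (N + 1) → Λ, PrimX J v → MvPolynomial.eval (fun a => rs (v a)) F = 0) ∨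
      ∀ v : Fin (N + 1) → Λ, PrimX J v → MvPolynomial.eval (fun a => rs (v a)) G = 0

theorem PrimX.red {E : IntermediateField K Λ} {v : Fin (N + 1) → Λ} (hv : PrimX J v) :
    ∀ G ∈ vI (OL E).subtype {v | OnX J v},
      MvPolynomial.eval₂ (rL E) (fun a => rs (v a)) G = 0 := by
  intro G hG
  have h := (rs_mv (φ := (OL E).subtype) (ψ := rL E) (fun c => c.2.2) rL_apply
    (norm_apply_le hv.2) G).2
  rw [hG v hv.1, rs_zero] at h
  exact h.symm

theorem cht_map (hJ : J = I.map (MvPolynomial.map (algebraMap O K)))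
    (hO : ∀ c : O, ‖algebraMap K Λ (algebraMap O K c)‖ ≤ 1) (E : IntermediateField K Λ)
    {G : MvPolynomial (Fin (N + 1)) O} (hG : G ∈ I) :
    MvPolynomial.map (oE hO E) G ∈ vI (OL E).subtype {v | OnX J v} := by
  intro v hv
  rw [MvPolynomial.eval₂_map, subtype_oE]
  exact (onX_iff hJ).1 hv G hG

theorem cht_rs (hO : ∀ c : O, ‖algebraMap K Λ (algebraMap O K c)‖ ≤ 1) (E : IntermediateField K Λ)
    (c : O) : (rL E).comp (oE hO E) c = rs ((algebraMap K Λ).comp (algebraMap O K) c) :=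
  rL_apply _

theorem cht_red (hJ : J = I.map (MvPolynomial.map (algebraMap O K)))
    (hO : ∀ c : O, ‖algebraMap K Λ (algebraMap O K c)‖ ≤ 1) {v : Fin (N + 1) → Λ} (hv : PrimX J v) :
    ∀ G ∈ I, MvPolynomial.eval₂ ((rL ⊤).comp (oE hO ⊤)) (fun a => rs (v a)) G = 0 := by
  intro G hG
  rw [← MvPolynomial.eval₂_map]
  exact hv.red _ (cht_map hJ hO ⊤ hG)

theorem cht_norm {M : ℕ} {v : Fin M → Λ} (h : ∀ a, ‖v a‖ ≤ 1) {i : Fin M} (hi : rs (v i) ≠ 0) :
    ‖v‖ = 1 :=
  le_antisymm ((pi_norm_le_iff_of_nonneg zero_le_one).2 h)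
    ((rs_ne_zero.1 hi).ge.trans (norm_le_pi_norm v i))

theorem cht_near {x y : Λ} (hy : ‖y‖ ≤ 1) (h : ‖x - y‖ < 1) : ‖x‖ ≤ 1 ∧ rs x = rs y := by
  have h1 : ‖x‖ ≤ 1 := by
    rw [← sub_add_cancel x y]
    exact (IsUltrametricDist.norm_add_le_max _ _).trans (max_le h.le hy)
  exact ⟨h1, (rs_eq_iff h1 hy).2 h⟩

theorem GoodModel.cone (hI : GoodModel O I) (hJ : J = I.map (MvPolynomial.map (algebraMap O K)))
    (hO : ∀ c : O, ‖algebraMap K Λ (algebraMap O K c)‖ ≤ 1) (E : IntermediateField K Λ) :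
    Cone (OL E).subtype {v | OnX J v} := by
  refine ⟨Subring.subtype_injective _, fun c v hv => hI.onX_smul hJ v c hv, fun F G h => ?_,
    fun v hv => (onX_iff hJ).2 fun G hG => ?_⟩
  · have h1 := hI.prime_pts ((algebraMap K Λ).comp (algebraMap O K))
      (MvPolynomial.map (OL E).subtype F) (MvPolynomial.map (OL E).subtype G) fun v hv => by
        rw [← map_mul, MvPolynomial.eval_map]
        exact h v ((onX_iff hJ).2 hv)
    refine h1.imp (fun h2 v hv => ?_) fun h2 v hv => ?_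
    · rw [← MvPolynomial.eval_map]
      exact h2 v ((onX_iff hJ).1 hv)
    · rw [← MvPolynomial.eval_map]
      exact h2 v ((onX_iff hJ).1 hv)
  · have h1 := hv _ (cht_map hJ hO E hG)
    rwa [MvPolynomial.eval₂_map, subtype_oE] at h1

include p

/-- points of the special fibre lift -/
theorem GoodModel.exists_primX (hI : GoodModel O I)
    (hJ : J = I.map (MvPolynomial.map (algebraMap O K)))
    (hO : ∀ c : O, ‖algebraMap K Λ (algebraMap O K c)‖ ≤ 1) {x : Fin (N + 1) → kk Λ} (h0 : x ≠ 0)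
    (hx : ∀ G ∈ I, MvPolynomial.eval₂ ((rL ⊤).comp (oE hO ⊤)) x G = 0) :
    ∃ v : Fin (N + 1) → Λ, PrimX J v ∧ (fun a => rs (v a)) = x := by
  choose u hu1 hu2 using fun a => rs_surj (x a)
  obtain ⟨i, hi⟩ := Function.ne_iff.1 h0
  have e : (fun a => rs (u a)) = x := funext hu2
  obtain ⟨v, hv, hd⟩ := hI.exists_lift hJ hO (v := u) (cht_norm hu1 (i := i) (by rwa [hu2]))
    (c := 1) norm_one.le fun G hG => by
      obtain ⟨h1, h2⟩ := rs_mv (φ := (algebraMap K Λ).comp (algebraMap O K)) hO (cht_rs hO ⊤) hu1 G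
      rw [e, hx G hG] at h2
      rw [norm_one]
      exact (rs_eq_zero h1).1 h2
  rw [norm_one] at hd
  have h3 := fun a => cht_near (hu1 a) (hd a)
  refine ⟨v, ⟨hv, cht_norm (fun a => (h3 a).1) (i := i) ?_⟩, funext fun a => (h3 a).2.trans (hu2 a)⟩
  rwa [(h3 i).2, hu2]

theorem GoodModel.redIrr (hI : GoodModel O I) (hJ : J = I.map (MvPolynomial.map (algebraMap O K)))
    (hO : ∀ c : O, ‖algebraMap K Λ (algebraMap O K c)‖ ≤ 1) : RedIrr J Λ := by
  intro F G h
  by_cases hF : ∀ v : Fin (N + 1) → Λ, PrimX J v → MvPolynomial.eval (fun a => rs (v a)) F = 0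
  · exact Or.inl hF
  right
  push Not at hF
  obtain ⟨u, hu, hu0⟩ := hF
  obtain ⟨i, hi⟩ := exists_norm_eq_one hu.2
  have h1 := hI.prime_pts ((rL ⊤).comp (oE hO ⊤)) (F * MvPolynomial.X i) G fun x hx => by
    rw [mul_right_comm, map_mul]
    by_cases h0 : x = 0
    · rw [MvPolynomial.eval_X, h0, Pi.zero_apply, mul_zero]
    · obtain ⟨v, hv, rfl⟩ := hI.exists_primX hJ hO h0 hx
      rw [h v hv, zero_mul]
  rcases h1 with h1 | h1
  · have h2 := h1 _ (cht_red hJ hO hu)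
    rw [map_mul, MvPolynomial.eval_X] at h2
    exact absurd h2 (mul_ne_zero hu0 (rs_ne_zero.2 hi))
  · exact fun v hv => h1 _ (cht_red hJ hO hv)

/-- tangent vectors of the special fibre are tangent to families of points -/
theorem GoodModel.exists_near (hI : GoodModel O I)
    (hJ : J = I.map (MvPolynomial.map (algebraMap O K)))
    (hO : ∀ c : O, ‖algebraMap K Λ (algebraMap O K c)‖ ≤ 1) {P : Fin (N + 1) → Λ} (hP : PrimX J P)
    {c : Λ} (hc₀ : c ≠ 0) (hc : ‖c‖ < 1) {w : Fin (N + 1) → kk Λ}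
    (hw : w ∈ tanS ((rL ⊤).comp (oE hO ⊤)) I fun a => rs (P a)) :
    ∃ z : Fin (N + 1) → Λ, (∀ a, ‖z a‖ ≤ 1) ∧ (fun a => rs (z a)) = w ∧ OnX J (P + c • z) := by
  choose u hu1 hu2 using fun a => rs_surj (w a)
  have e : (fun a => rs (u a)) = w := funext hu2
  have hP1 := norm_apply_le hP.2
  have hp : 0 < ‖c‖ := norm_pos_iff.2 hc₀
  have n1 : ∀ a, ‖(P + c • u) a - P a‖ < 1 := by
    intro a
    rw [Pi.add_apply, add_sub_cancel_left, Pi.smul_apply, smul_eq_mul, norm_mul]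
    exact (mul_le_of_le_one_right hp.le (hu1 a)).trans_lt hc
  have n2 := fun a => cht_near (hP1 a) (n1 a)
  obtain ⟨i, hi⟩ := exists_norm_eq_one hP.2
  have n3 : ‖P + c • u‖ = 1 :=
    cht_norm (fun a => (n2 a).1) (i := i) (by rw [(n2 i).2]; exact rs_ne_zero.2 hi)
  obtain ⟨v, hv, hd⟩ := hI.exists_lift hJ hO n3 hc.le fun G hG => by
    obtain ⟨r, hr⟩ := taylor_smul (oE hO ⊤) (⟨c, trivial, hc.le⟩ : OL (⊤ : IntermediateField K Λ))
      (fun a => ⟨P a, trivial, hP1 a⟩) (fun a => ⟨u a, trivial, hu1 a⟩) G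
    have h1 := congrArg (OL (⊤ : IntermediateField K Λ)).subtype hr
    rw [map_add, map_add, map_mul, map_mul, map_pow, map_dG, MvPolynomial.eval₂_comp_left,
      MvPolynomial.eval₂_comp_left, subtype_oE] at h1
    change MvPolynomial.eval₂ _ (P + c • u) G =
      MvPolynomial.eval₂ _ P G + c * dG _ P u G + c ^ 2 * (r : Λ) at h1
    rw [(onX_iff hJ).1 hP.1 G hG, zero_add] at h1
    obtain ⟨h2, h3⟩ := rs_dG (φ := (algebraMap K Λ).comp (algebraMap O K)) hO (cht_rs hO ⊤) hP1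
      hu1 G
    rw [e, hw G hG] at h3
    have h4 := (rs_eq_zero h2).1 h3
    rw [h1]
    refine (IsUltrametricDist.norm_add_le_max _ _).trans_lt (max_lt ?_ ?_)
    · rw [norm_mul]
      exact mul_lt_of_lt_one_right hp h4
    · rw [norm_mul, norm_pow, pow_two, mul_assoc]
      exact mul_lt_of_lt_one_right hp ((mul_le_of_le_one_right hp.le r.2.2).trans_lt hc)
  have n4 : ∀ a, ‖(c⁻¹ • (v - P)) a - u a‖ < 1 := by
    intro a
    have e2 : (c⁻¹ • (v - P)) a - u a = c⁻¹ * (v a - (P + c • u) a) := by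
      simp only [Pi.smul_apply, Pi.sub_apply, Pi.add_apply, smul_eq_mul]
      field_simp
      ring
    rw [e2, norm_mul, norm_inv, inv_mul_lt_iff₀ hp, mul_one]
    exact hd a
  have n5 := fun a => cht_near (hu1 a) (n4 a)
  refine ⟨c⁻¹ • (v - P), fun a => (n5 a).1, funext fun a => (n5 a).2.trans (hu2 a), ?_⟩
  rwa [smul_smul, mul_inv_cancel₀ hc₀, one_smul, add_sub_cancel]

/-- a polydisc of points gives algebraically independent coordinates -/
theorem dimGe_of_near {M : ℕ} {Z : Set (Fin M → Λ)} (E : IntermediateField K Λ)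
    (T : Submodule (kk Λ) (Fin M → kk Λ)) {P : Fin M → Λ} {c : Λ} (hc₀ : c ≠ 0)
    (h : ∀ w ∈ T, ∃ z : Fin M → Λ, (∀ a, ‖z a‖ ≤ 1) ∧ (fun a => rs (z a)) = w ∧ P + c • z ∈ Z) :
    DimGe (OL E).subtype Z (finrank (kk Λ) T) := by
  obtain ⟨a, ha⟩ := exists_coords T
  refine ⟨fun k => MvPolynomial.X (a k), fun F hF => ?_⟩
  have e1 : ∀ v : Fin M → Λ, MvPolynomial.eval₂ (OL E).subtype v
      (MvPolynomial.aeval (fun k => MvPolynomial.X (a k)) F) =
        MvPolynomial.eval₂ (OL E).subtype (fun k => v (a k)) F := by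
    intro v
    have h1 := MvPolynomial.eval₂_comp_left (MvPolynomial.eval₂Hom (OL E).subtype v)
      MvPolynomial.C (fun k => MvPolynomial.X (a k)) F
    rw [MvPolynomial.eval₂Hom_comp_C] at h1
    refine h1.trans ?_
    congr 1
    funext k
    simp
  obtain ⟨F₁, e2⟩ : ∃ F₁ : MvPolynomial (Fin (finrank (kk Λ) T)) Λ, ∀ y, MvPolynomial.eval y F₁ =
      MvPolynomial.eval₂ (OL E).subtype (fun k => P (a k) + c * y k) F := by
    refine ⟨MvPolynomial.eval₂ (MvPolynomial.C.comp (OL E).subtype)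
      (fun k => MvPolynomial.C (P (a k)) + MvPolynomial.C c * MvPolynomial.X k) F, fun y => ?_⟩
    rw [MvPolynomial.eval₂_comp_left]
    congr 1
    · ext x
      simp
    · funext k
      simp
  by_cases h0 : F₁ = 0
  · refine eq_zero_of_eval₂ (Subring.subtype_injective (OL E)) fun u => ?_
    have h1 := e2 fun k => c⁻¹ * (u k - P (a k))
    rw [h0, map_zero] at h1
    simp only [mul_inv_cancel_left₀ hc₀, add_sub_cancel] at h1
    exact h1.symm
  exfalso
  obtain ⟨m, F₀, hm, hF₁, hF₀⟩ := exists_prim (K := K) (E := ⊤) h0 fun _ => trivial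
  apply hF₀
  refine MvPolynomial.funext fun y => ?_
  obtain ⟨w, hw, hy⟩ := ha y
  obtain ⟨z, hz1, hz2, hz3⟩ := h w hw
  have h1 := hF _ hz3
  rw [e1] at h1
  have h2 := (e2 fun k => z (a k)).trans h1
  rw [hF₁, map_mul, MvPolynomial.eval_C, MvPolynomial.eval_map] at h2
  have h3 := (rs_mv (φ := (OL (⊤ : IntermediateField K Λ)).subtype) (ψ := rL ⊤) (fun c => c.2.2)
    rL_apply (fun k => hz1 (a k)) F₀).2
  rw [(mul_eq_zero.1 h2).resolve_left hm, rs_zero] at h3
  have h4 : (fun k => rs (z (a k))) = y := funext fun k => (congrFun hz2 (a k)).trans (hy k)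
  rw [h4] at h3
  rw [MvPolynomial.eval_map, map_zero, ← h3]

theorem GoodModel.dimGe (hI : GoodModel O I) (hJ : J = I.map (MvPolynomial.map (algebraMap O K)))
    (hO : ∀ c : O, ‖algebraMap K Λ (algebraMap O K c)‖ ≤ 1) (E : IntermediateField K Λ)
    {P : Fin (N + 1) → Λ} (hP : PrimX J P) : DimGe (OL E).subtype {v | OnX J v} (finrank (kk Λ)
      (tanS (rL E) (vI (OL E).subtype {v | OnX J v}) fun a => rs (P a))) := by
  have hp : (p : Λ) ≠ 0 := norm_pos_iff.1 (norm_p_pos K)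
  refine dimGe_of_near E _ (P := P) hp fun w hw =>
    hI.exists_near hJ hO hP hp (Loc.norm_p K) fun G hG => ?_
  have h1 := hw _ (cht_map hJ hO E hG)
  rw [dG_map] at h1
  have e : (rL E).comp (oE hO E) = (rL ⊤).comp (oE hO ⊤) :=
    RingHom.ext fun c => (cht_rs hO E c).trans (cht_rs hO ⊤ c).symm
  rwa [e] at h1

end Pool.Agent.ZeroCyc
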