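import Pool.Agent.Lib.MP_796ce4_ag.ZY.ChI
import Pool.Agent.Lib.MP_796ce4_ag.ZY.ChT

/-! The special fibre of the hypersurface model. -/

namespace Pool.Agent.ZeroCyc

open Polynomial Module
open scoped Classical IntermediateField PowerSeries

set_option linter.unusedSectionVars false

variable {K Λ : Type} [Field K] [NormedField Λ] [IsUltrametricDist Λ] [IsAlgClosed Λ]
  [Algebra K Λ] {N : ℕ} {J : Ideal (MvPolynomial (Fin (N + 1)) K)} {E : IntermediateField K Λ}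

namespace Pre

variable (𝒬 : Pre (OL E).subtype {v : Fin (N + 1) → Λ | OnX J v})

/-- primitive points on the slice -/
def Pt (v : Fin (N + 1) → Λ) : Prop := PrimX J v ∧ lv (OL E).subtype 𝒬.s₀ v = 1

/-- the value of `f` at the image of `x` on the special fibre -/
noncomputable def vk (x : Fin (N + 1) → kk Λ) : MP 𝒬.d (kk Λ) →+* kk Λ :=
  ev2 (RingHom.id _) (fun k => lv (rL E) (𝒬.s k) x) (lv (rL E) 𝒬.H x)

/-- the value of `f` at the image of `v` -/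
noncomputable def vl (v : Fin (N + 1) → Λ) : MP 𝒬.d (OL E) →+* Λ :=
  ev2 (OL E).subtype (fun k => lv (OL E).subtype (𝒬.s k) v) (lv (OL E).subtype 𝒬.H v)

variable {𝒬}

theorem rs_vl {v : Fin (N + 1) → Λ} (hv : ∀ a, ‖v a‖ ≤ 1) (q : MP 𝒬.d (OL E)) :
    ‖𝒬.vl v q‖ ≤ 1 ∧ rs (𝒬.vl v q) = 𝒬.vk (fun a => rs (v a)) (mq (rL E) q) := by
  have h := rs_ev2' (fun k => (rs_lv hv (𝒬.s k)).1) (rs_lv hv 𝒬.H).1 q
  refine ⟨h.1, h.2.trans ?_⟩
  rw [vk, ev2_mq, RingHom.id_comp, (rs_lv hv 𝒬.H).2, funext fun k => (rs_lv hv (𝒬.s k)).2]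

theorem pt_smul (hc : ∀ (v : Fin (N + 1) → Λ) (c : Λ), OnX J v → OnX J (c • v))
    {v : Fin (N + 1) → Λ} (hv : PrimX J v) (h : ‖lv (OL E).subtype 𝒬.s₀ v‖ = 1) :
    𝒬.Pt ((lv (OL E).subtype 𝒬.s₀ v)⁻¹ • v) := by
  have h0 : lv (OL E).subtype 𝒬.s₀ v ≠ 0 := norm_ne_zero_iff.1 (h ▸ one_ne_zero)
  refine ⟨⟨hc _ _ hv.1, ?_⟩, ?_⟩
  · rw [norm_smul, norm_inv, h, hv.2, inv_one, mul_one]
  · rw [lv_smul, inv_mul_cancel₀ h0]

/-- every point of the special fibre of the hypersurface comes from a primitive point -/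
theorem exists_pt {y : Fin 𝒬.d → kk Λ} {h : kk Λ}
    (h0 : ev2 (RingHom.id _) y h (mq (rL E) 𝒬.χ) = 0) : ∃ v, 𝒬.Pt v ∧
      (fun k => lv (rL E) (𝒬.s k) fun a => rs (v a)) = y ∧
      lv (rL E) 𝒬.H (fun a => rs (v a)) = h := by
  rw [ev2_mq, RingHom.id_comp] at h0
  obtain ⟨y', h', hy, -, rfl, rfl, h1⟩ := exists_ev2_lift 𝒬.monicχ h0
  obtain ⟨v, hv, h2, rfl, rfl⟩ := 𝒬.surj y' h' h1
  have h3 : ∀ a, ‖v a‖ ≤ 1 := fun a => norm_le_of_ev2 hy (𝒬.monic a) (𝒬.root v hv h2 a)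
  exact ⟨v, ⟨⟨hv, norm_eq_one_of_lv h3 h2⟩, h2⟩, funext fun k => (rs_lv h3 _).2.symm,
    (rs_lv h3 _).2.symm⟩

theorem chh_lp {M : ℕ} (l : Fin M → OL E) (x : Fin M → kk Λ) :
    MvPolynomial.eval x (lp fun a => rL E (l a)) = lv (rL E) l x :=
  eval₂_lp (RingHom.id _) _ x

theorem chh_rs {M : ℕ} {v : Fin M → Λ} (hv : ∀ a, ‖v a‖ ≤ 1) {c : Λ} (h : ‖c‖ = 1) :
    (fun a => rs ((c⁻¹ • v) a)) = fun a => rs (v a) / rs c := by
  funext a
  have h0 : c ≠ 0 := norm_ne_zero_iff.1 (h ▸ one_ne_zero)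
  rw [eq_div_iff (rs_ne_zero.2 h), ← rs_mul _ h.le, Pi.smul_apply, smul_eq_mul, mul_right_comm,
    inv_mul_cancel₀ h0, one_mul]
  rw [Pi.smul_apply, norm_smul, norm_inv, h, inv_one, one_mul]
  exact hv a

theorem chh_mv {M : ℕ} {v : Fin M → Λ} (hv : ∀ a, ‖v a‖ ≤ 1) (Ξ : MvPolynomial (Fin M) (OL E)) :
    MvPolynomial.eval (fun a => rs (v a)) (MvPolynomial.map (rL E) Ξ) =
      rs (MvPolynomial.eval₂ (OL E).subtype v Ξ) := by
  rw [MvPolynomial.eval_map, (rs_mv (fun c => c.2.2) rL_apply hv Ξ).2]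

theorem chh_on {v : Fin (N + 1) → Λ} (hv : 𝒬.Pt v) :
    𝒬.vk (fun a => rs (v a)) (mq (rL E) 𝒬.χ) = 0 := by
  rw [← (rs_vl (norm_apply_le hv.1.2) 𝒬.χ).2, vl, 𝒬.on v hv.1.1 hv.2, rs_zero]

theorem chh_one {v : Fin (N + 1) → Λ} (hv : 𝒬.Pt v) : lv (rL E) 𝒬.s₀ (fun a => rs (v a)) = 1 := by
  rw [← (rs_lv (norm_apply_le hv.1.2) _).2, hv.2, rs_one]

theorem exists_poly (f : MP 𝒬.d (kk Λ)) : ∃ F : MvPolynomial (Fin (N + 1)) (kk Λ),
    ∀ x, MvPolynomial.eval x F = 𝒬.vk x f := by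
  refine ⟨ev2 MvPolynomial.C (fun k => lp fun a => rL E (𝒬.s k a)) (lp fun a => rL E (𝒬.H a)) f,
    fun x => ?_⟩
  rw [map_ev2, show (MvPolynomial.eval x).comp MvPolynomial.C = RingHom.id (kk Λ) from
    RingHom.ext fun a => MvPolynomial.eval_C a]
  simp only [chh_lp]
  rfl

theorem pt_prime (hc : ∀ (v : Fin (N + 1) → Λ) (c : Λ), OnX J v → OnX J (c • v))
    (hirr : RedIrr J Λ) (F G : MvPolynomial (Fin (N + 1)) (kk Λ))
    (h : ∀ v, 𝒬.Pt v → MvPolynomial.eval (fun a => rs (v a)) (F * G) = 0) :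
    (∀ v, 𝒬.Pt v → MvPolynomial.eval (fun a => rs (v a)) F = 0) ∨
      ∀ v, 𝒬.Pt v → MvPolynomial.eval (fun a => rs (v a)) G = 0 := by
  have key : ∀ F : MvPolynomial (Fin (N + 1)) (kk Λ), ∃ (D : ℕ) (F' : MvPolynomial (Fin (N + 1)) (kk Λ)),
      ∀ x, lv (rL E) 𝒬.s₀ x ≠ 0 → MvPolynomial.eval x F' =
        lv (rL E) 𝒬.s₀ x ^ D * MvPolynomial.eval (fun a => x a / lv (rL E) 𝒬.s₀ x) F := fun F => by
    obtain ⟨D, F', -, hF⟩ := exists_homog F (lp_isHomogeneous fun a => rL E (𝒬.s₀ a))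
      (MvPolynomial.isHomogeneous_X (kk Λ))
    refine ⟨D, F', fun x hx => ?_⟩
    have := hF (kk Λ) (RingHom.id _) x (by rwa [eval₂_lp])
    simp only [eval₂_lp, MvPolynomial.eval₂_X] at this
    exact this
  obtain ⟨D, F', hF⟩ := key F
  obtain ⟨D', G', hG⟩ := key G
  refine (hirr ((lp fun a => rL E (𝒬.s₀ a)) * F') G' fun v hv => ?_).imp (fun h' v hv => ?_)
    fun h' v hv => ?_
  · rw [map_mul, map_mul, chh_lp]
    by_cases h0 : lv (rL E) 𝒬.s₀ (fun a => rs (v a)) = 0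
    · rw [h0, zero_mul, zero_mul]
    have h1 := (rs_lv (norm_apply_le hv.2) 𝒬.s₀).2
    have h2 := rs_ne_zero.1 (h1 ▸ h0)
    have h3 := h _ (pt_smul hc hv h2)
    rw [chh_rs (norm_apply_le hv.2) h2, h1, map_mul] at h3
    rw [hF _ h0, hG _ h0]
    rcases mul_eq_zero.1 h3 with h3 | h3 <;> simp only [h3, mul_zero, zero_mul]
  · have := h' v hv.1
    rw [map_mul, chh_lp, hF _ (by rw [chh_one hv]; exact one_ne_zero), chh_one hv] at this
    simpa using this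
  · have := h' v hv.1
    rw [hG _ (by rw [chh_one hv]; exact one_ne_zero), chh_one hv] at this
    simpa using this

/-- the normalised point has the same reduction -/
theorem At.exists_pt (hc : ∀ (v : Fin (N + 1) → Λ) (c : Λ), OnX J v → OnX J (c • v))
    {P : Fin (N + 1) → Λ} (hP : PrimX J P) (h : 𝒬.At (rL E) fun a => rs (P a)) :
    ‖lv (OL E).subtype 𝒬.s₀ P‖ = 1 ∧ 𝒬.Pt ((lv (OL E).subtype 𝒬.s₀ P)⁻¹ • P) ∧
      (fun a => rs (((lv (OL E).subtype 𝒬.s₀ P)⁻¹ • P) a)) = fun a => rs (P a) := by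
  have h1 := (rs_lv (norm_apply_le hP.2) 𝒬.s₀).2.trans h.one
  have h2 := rs_ne_zero.1 (h1 ▸ one_ne_zero)
  refine ⟨h2, pt_smul hc hP h2, ?_⟩
  rw [chh_rs (norm_apply_le hP.2) h2, h1]
  simp only [div_one]

theorem At.irreducible (hc : ∀ (v : Fin (N + 1) → Λ) (c : Λ), OnX J v → OnX J (c • v))
    (hirr : RedIrr J Λ) {P : Fin (N + 1) → Λ} (hP : PrimX J P)
    (h : 𝒬.At (rL E) fun a => rs (P a)) : Irreducible (mq (rL E) 𝒬.χ) := by
  obtain ⟨-, h1, h2⟩ := h.exists_pt hc hP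
  refine irreducible_of_zero_prime (𝒬.monicχ.map _) (fun f g H => ?_) (h2 ▸ chh_on h1) ?_
  · obtain ⟨F, hF⟩ := 𝒬.exists_poly f
    obtain ⟨G, hG⟩ := 𝒬.exists_poly g
    refine (pt_prime (𝒬 := 𝒬) hc hirr F G fun v hv => ?_).imp (fun h' y η h0 => ?_)
      fun h' y η h0 => ?_
    · rw [map_mul, hF, hG, ← map_mul]
      exact H _ _ (chh_on hv)
    · obtain ⟨v, hv, rfl, rfl⟩ := Pre.exists_pt h0
      exact (hF _).symm.trans (h' v hv)
    · obtain ⟨v, hv, rfl, rfl⟩ := Pre.exists_pt h0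
      exact (hG _).symm.trans (h' v hv)
  · rw [show derivative (mq (rL E) 𝒬.χ) = mq (rL E) (derivative 𝒬.χ) from derivative_map _ _, ev2_mq]
    exact h.der

/-- a point at which `D` and a given form are units -/
theorem At.exists_unit (hc : ∀ (v : Fin (N + 1) → Λ) (c : Λ), OnX J v → OnX J (c • v))
    (hirr : RedIrr J Λ) {P : Fin (N + 1) → Λ} (hP : PrimX J P)
    (h : 𝒬.At (rL E) fun a => rs (P a)) {Ξ : MvPolynomial (Fin (N + 1)) (OL E)} (hΞ : NV J Ξ) :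
    ∃ v, 𝒬.Pt v ∧ ‖𝒬.vl v 𝒬.D‖ = 1 ∧ ‖MvPolynomial.eval₂ (OL E).subtype v Ξ‖ = 1 := by
  obtain ⟨⟨k, hk⟩, w, hw, hw'⟩ := hΞ
  obtain ⟨-, h1, h2⟩ := h.exists_pt hc hP
  obtain ⟨F, hF⟩ := 𝒬.exists_poly (mq (rL E) 𝒬.D)
  by_contra hn
  rcases pt_prime (𝒬 := 𝒬) hc hirr F (MvPolynomial.map (rL E) Ξ) (fun v hv => by
    rw [map_mul, hF, chh_mv (norm_apply_le hv.1.2), ← (rs_vl (norm_apply_le hv.1.2) 𝒬.D).2]
    by_contra h0
    exact hn ⟨v, hv, rs_ne_zero.1 (left_ne_zero_of_mul h0), rs_ne_zero.1 (right_ne_zero_of_mul h0)⟩)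
    with h' | h'
  · have := h' _ h1
    rw [h2, hF, vk, ev2_mq] at this
    exact h.hD this
  rcases hirr (lp fun a => rL E (𝒬.s₀ a)) (MvPolynomial.map (rL E) Ξ) (fun v hv => by
    rw [map_mul, chh_lp, ← (rs_lv (norm_apply_le hv.2) 𝒬.s₀).2, chh_mv (norm_apply_le hv.2)]
    by_contra h0
    have h3 := rs_ne_zero.1 (left_ne_zero_of_mul h0)
    have h4 := pt_smul hc hv h3
    have h5 := h' _ h4
    rw [chh_mv (norm_apply_le h4.1.2), eval₂_smul_homog hk] at h5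
    refine rs_ne_zero.2 ?_ h5
    rw [norm_mul, norm_pow, norm_inv, h3, rs_ne_zero.1 (right_ne_zero_of_mul h0), inv_one, one_pow,
      mul_one]) with h'' | h''
  · have := h'' P hP
    rw [chh_lp, h.one] at this
    exact one_ne_zero this
  · have := h'' w hw
    rw [chh_mv (norm_apply_le hw.2)] at this
    exact rs_ne_zero.2 hw' this

/-- the polynomial map takes values in the cone -/
theorem dvd_aeval (hc : ∀ (v : Fin (N + 1) → Λ) (c : Λ), OnX J v → OnX J (c • v)) :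
    ∀ G ∈ J, mq (OL E).subtype 𝒬.χ ∣
      MvPolynomial.aeval (fun i => mq (OL E).subtype (𝒬.pp i)) G := by
  intro G hG
  have e : MvPolynomial.aeval (fun i => mq (OL E).subtype (𝒬.pp i)) G =
      MvPolynomial.eval₂ (C.comp MvPolynomial.C) (fun i => mq (OL E).subtype (𝒬.pp i))
        (MvPolynomial.map (algebraMap K Λ) G) := by
    rw [MvPolynomial.eval₂_map]
    rfl
  rw [e]
  by_cases h0 : MvPolynomial.map (algebraMap K Λ) G = 0
  · rw [h0, MvPolynomial.eval₂_zero]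
    exact dvd_zero _
  obtain ⟨m, F₀, hm, hF, -⟩ := exists_prim (E := E) h0 fun m => by
    rw [MvPolynomial.coeff_map]
    exact E.algebraMap_mem _
  have h1 := 𝒬.dvd (MvPolynomial.eval₂ (C.comp MvPolynomial.C) 𝒬.pp F₀) fun v hv h => by
    have h2 := hc v (𝒬.vl v 𝒬.D) hv G hG
    rw [MvPolynomial.aeval_def, MvPolynomial.eval₂_eq_eval_map, hF, map_mul, MvPolynomial.eval_C,
      MvPolynomial.eval_map] at h2
    rw [MvPolynomial.eval₂_comp_left, ← (mul_eq_zero.1 h2).resolve_left hm]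
    congr 1
    · exact RingHom.ext fun a => (ev2_C _ _ _ _).trans (MvPolynomial.eval₂_C _ _ _)
    · exact funext fun a => 𝒬.pt v hv h a
  rw [hF, MvPolynomial.eval₂_mul]
  refine ((map_dvd (mq (OL E).subtype) h1).trans (dvd_of_eq ?_)).mul_left _
  rw [MvPolynomial.eval₂_comp_left, MvPolynomial.eval₂_map]
  congr 1
  exact RingHom.ext fun a => by simp

end Pre

end Pool.Agent.ZeroCyc
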