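import Pool.Agent.Lib.MP_796ce4_ag.ZY.Tow

/-! A finite extension is totally ramified over an unramified one. -/

namespace Pool.Agent.ZeroCyc

open Polynomial Module
open scoped Classical IntermediateField

set_option linter.unusedSectionVars false

variable {p : ℕ} {K Λ : Type} [Field K] [CharZero K] [NormedField Λ] [IsUltrametricDist Λ]
  [IsAlgClosed Λ] [Algebra K Λ] [IsGalois K Λ] [Loc p K Λ]

include p

theorem totram_digits {L₀ L : IntermediateField K Λ} (hle : L₀ ≤ L) {ϖ : Λ} (hϖ : ϖ ∈ L)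
    (h0 : ϖ ≠ 0) (hm : ∀ x ∈ L, ‖x‖ < 1 → ‖x‖ ≤ ‖ϖ‖)
    (hres : ∀ y ∈ L, ‖y‖ ≤ 1 → ∃ c ∈ L₀, ‖c‖ ≤ 1 ∧ ‖y - c‖ < 1) (k : ℕ) :
    ∀ y ∈ L, ‖y‖ ≤ 1 → ∃ c : ℕ → Λ, (∀ j, c j ∈ L₀ ∧ ‖c j‖ ≤ 1) ∧ ∃ y' ∈ L, ‖y'‖ ≤ 1 ∧
      y = ∑ j ∈ Finset.range k, c j * ϖ ^ j + ϖ ^ k * y' := by
  induction k with
  | zero => exact fun y hy h1 => ⟨0, fun _ => ⟨L₀.zero_mem, by simp⟩, y, hy, h1, by simp⟩
  | succ k ih =>
    intro y hy h1
    obtain ⟨c, hc, y', hy', h2, h3⟩ := ih y hy h1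
    obtain ⟨a, ha, ha1, h4⟩ := hres y' hy' h2
    have h5 : y' - a ∈ L := L.sub_mem hy' (hle ha)
    refine ⟨Function.update c k a, fun j => ?_, (y' - a) / ϖ, L.div_mem h5 hϖ, ?_, ?_⟩
    · by_cases hj : j = k
      · rw [hj, Function.update_self]; exact ⟨ha, ha1⟩
      · rw [Function.update_of_ne hj]; exact hc j
    · rw [norm_div, div_le_one (norm_pos_iff.2 h0)]
      exact hm _ h5 h4
    · rw [Finset.sum_range_succ, Function.update_self, Finset.sum_congr rfl fun j hj => by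
        rw [Function.update_of_ne (Finset.mem_range.1 hj).ne], h3]
      field_simp
      ring

theorem totram_poly {L₀ L : IntermediateField K Λ} [FiniteDimensional K L₀] (hle : L₀ ≤ L) {ϖ : Λ}
    (hϖ : ϖ ∈ L) (h0 : ϖ ≠ 0) (h1 : ‖ϖ‖ < 1) (hm : ∀ x ∈ L, ‖x‖ < 1 → ‖x‖ ≤ ‖ϖ‖)
    (hres : ∀ y ∈ L, ‖y‖ ≤ 1 → ∃ c ∈ L₀, ‖c‖ ≤ 1 ∧ ‖y - c‖ < 1) {y : Λ} (hy : y ∈ L)
    (hy1 : ‖y‖ ≤ 1) : ∃ R : Λ[X], Over L₀ R ∧ Intg R ∧ R.eval ϖ = y := by
  have : CharZero Λ := charZero_of_injective_algebraMap (algebraMap K Λ).injective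
  have hp : (p : Λ) ≠ 0 := Nat.cast_ne_zero.2 (Loc.prime (K := K) (Λ := Λ)).ne_zero
  have hp0 : 0 < ‖(p : Λ)‖ := norm_pos_iff.2 hp
  have hp1 : ‖(p : Λ)‖ < 1 := Loc.norm_p (K := K)
  obtain ⟨k, hk⟩ := exists_pow_lt_of_lt_one hp0 h1
  have step : ∀ w : {w : Λ // w ∈ L ∧ ‖w‖ ≤ 1}, ∃ (c : ℕ → Λ) (w' : {w : Λ // w ∈ L ∧ ‖w‖ ≤ 1}),
      (∀ j, c j ∈ L₀ ∧ ‖c j‖ ≤ 1) ∧
        (w : Λ) = ∑ j ∈ Finset.range k, c j * ϖ ^ j + p * (w' : Λ) := by
    rintro ⟨w, hw, hw1⟩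
    obtain ⟨c, hc, y', hy', h2, h3⟩ := totram_digits (p := p) hle hϖ h0 hm hres k w hw hw1
    refine ⟨c, ⟨ϖ ^ k * y' / p, L.div_mem (L.mul_mem (pow_mem hϖ k) hy') (natCast_mem L p), ?_⟩,
      hc, ?_⟩
    · rw [norm_div, div_le_one hp0, norm_mul, norm_pow]
      exact (mul_le_of_le_one_right (by positivity) h2).trans hk.le
    · simp only
      rw [mul_div_cancel₀ _ hp]
      exact h3
  choose c nx hc hw using step
  let w : ℕ → {w : Λ // w ∈ L ∧ ‖w‖ ≤ 1} := fun n => nx^[n] ⟨y, hy, hy1⟩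
  let S : ℕ → ℕ → Λ := fun j n => ∑ i ∈ Finset.range n, (p : Λ) ^ i * c (w i) j
  have hS : ∀ n, y = ∑ j ∈ Finset.range k, S j n * ϖ ^ j + (p : Λ) ^ n * (w n : Λ) := by
    intro n
    induction n with
    | zero => simp [S, w]
    | succ n ih =>
      have e : w (n + 1) = nx (w n) := Function.iterate_succ_apply' _ _ _
      rw [ih, hw (w n), e]
      simp only [S, Finset.sum_range_succ, add_mul, Finset.sum_add_distrib, mul_add,
        Finset.mul_sum]
      rw [add_assoc, pow_succ, mul_assoc]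
      simp only [mul_assoc]
  have hterm : ∀ j i, ‖(p : Λ) ^ i * c (w i) j‖ ≤ ‖(p : Λ)‖ ^ i := fun j i => by
    rw [norm_mul, norm_pow]
    exact mul_le_of_le_one_right (by positivity) (hc _ j).2
  have hlim : ∀ j, ∃ a ∈ L₀, ‖a‖ ≤ 1 ∧ Filter.Tendsto (S j) Filter.atTop (nhds a) := by
    intro j
    have hcau : CauchySeq (S j) := cauchySeq_of_le_geometric ‖(p : Λ)‖ 1 hp1 fun n => by
      rw [dist_comm, dist_eq_norm, one_mul]
      simp only [S, Finset.sum_range_succ, add_sub_cancel_left]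
      exact hterm j n
    obtain ⟨a, ha, hta⟩ := cauchySeq_tendsto_of_isComplete
      (Loc.complete (p := p) L₀ inferInstance) (u := S j) (fun n => L₀.sum_mem fun i _ =>
        L₀.mul_mem (pow_mem (natCast_mem L₀ p) i) (hc _ j).1) hcau
    refine ⟨a, ha, le_of_tendsto' hta.norm fun n => ?_, hta⟩
    exact IsUltrametricDist.norm_sum_le_of_forall_le_of_nonneg zero_le_one fun i _ =>
      (hterm j i).trans (pow_le_one₀ hp0.le hp1.le)
  choose a ha ha1 hta using hlim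
  refine ⟨∑ j ∈ Finset.range k, C (a j) * X ^ j,
    Over.sum fun j _ => (over_C (ha j)).mul (over_X.pow j),
    Intg.sum fun j _ => (intg_C (ha1 j)).mul (intg_X.pow j), ?_⟩
  have t1 : Filter.Tendsto (fun n => (p : Λ) ^ n * (w n : Λ)) Filter.atTop (nhds 0) := by
    refine squeeze_zero_norm (fun n => ?_) (tendsto_pow_atTop_nhds_zero_of_lt_one hp0.le hp1)
    rw [norm_mul, norm_pow]
    exact mul_le_of_le_one_right (by positivity) (w n).2.2
  have t2 := (tendsto_finsetSum (Finset.range k) fun j _ => (hta j).mul_const (ϖ ^ j)).add t1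
  simp only [← hS, add_zero] at t2
  rw [tendsto_nhds_unique tendsto_const_nhds t2]
  simp [eval_finsetSum]

omit p [IsAlgClosed Λ] in
theorem totram_coeff {T : Type} (s : Finset T) (a : T → Λ) (ha : ∀ t, ‖a t‖ < 1) :
    ∀ k < s.card, ‖(∏ t ∈ s, (X - C (a t))).coeff k‖ < 1 := by
  induction s using Finset.induction_on with
  | empty => simp
  | insert t s ht ih =>
    intro k hk
    have hi : Intg (∏ t ∈ s, (X - C (a t))) :=
      Intg.prod fun t _ => intg_X.sub (intg_C (ha t).le)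
    have h1 : ∀ j, ‖a t * (∏ t ∈ s, (X - C (a t))).coeff j‖ < 1 := fun j => by
      rw [norm_mul]
      exact mul_lt_one_of_nonneg_of_lt_one_left (norm_nonneg _) (ha t) (hi j)
    rw [Finset.card_insert_of_notMem ht] at hk
    rw [Finset.prod_insert ht, sub_mul, coeff_sub, coeff_C_mul]
    rcases k with _ | k
    · rw [coeff_X_mul_zero, zero_sub, norm_neg]
      exact h1 0
    · rw [coeff_X_mul, sub_eq_add_neg]
      exact (IsUltrametricDist.norm_add_le_max _ _).trans_lt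
        (max_lt (ih k (by omega)) (by rw [norm_neg]; exact h1 _))

theorem exists_totram {L₀ L : IntermediateField K Λ} [FiniteDimensional K L] (hle : L₀ ≤ L)
    (hres : ∀ y ∈ L, ‖y‖ ≤ 1 → ∃ c ∈ L₀, ‖c‖ ≤ 1 ∧ ‖y - c‖ < 1) :
    ∃ (e : ℕ) (ϖ : Λ) (s : Fin e → Λ ≃ₐ[K] Λ), 0 < e ∧ ϖ ∈ L ∧ ‖ϖ‖ < 1 ∧
      (∀ t, Fix L₀ (s t)) ∧ e * finrank K L₀ = finrank K L ∧
      Over L₀ (∏ t, (X - C (s t ϖ))) ∧ (Function.Injective fun t => s t ϖ) ∧
      (∀ k < e, ‖(∏ t, (X - C (s t ϖ))).coeff k‖ < 1) ∧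
      ∀ y ∈ L, ‖y‖ ≤ 1 → ∃ R : Λ[X], Over L₀ R ∧ Intg R ∧ R.eval ϖ = y := by
  have : FiniteDimensional K L₀ :=
    FiniteDimensional.of_injective (IntermediateField.inclusion hle).toLinearMap
      (IntermediateField.inclusion_injective hle)
  obtain ⟨ϖ, hϖ, h0, h1, hm⟩ := Loc.unif (p := p) L inferInstance
  have hpoly := fun y hy hy1 => totram_poly (p := p) hle hϖ h0 h1 hm hres (y := y) hy hy1
  have : CharZero L₀ := algebraRat.charZero L₀
  have hint : IsIntegral L₀ ϖ := Algebra.IsIntegral.isIntegral ϖ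
  have hL : IntermediateField.restrictScalars K L₀⟮ϖ⟯ = L := by
    apply le_antisymm
    · intro x hx
      have : L₀⟮ϖ⟯ ≤ IntermediateField.extendScalars hle :=
        IntermediateField.adjoin_simple_le_iff.2 hϖ
      exact this hx
    · have h2 : ∀ y ∈ L, ‖y‖ ≤ 1 → y ∈ L₀⟮ϖ⟯ := by
        intro y hy hy1
        obtain ⟨R, hR, -, rfl⟩ := hpoly y hy hy1
        obtain ⟨g, rfl⟩ := hR.exists_map
        rw [eval_map_algebraMap]
        exact IntermediateField.algebra_adjoin_le_adjoin _ _ (Polynomial.aeval_mem_adjoin_singleton _ _)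
      intro y hy
      rcases le_total ‖y‖ 1 with h | h
      · exact h2 y hy h
      · have := h2 y⁻¹ (L.inv_mem hy) (by rw [norm_inv]; exact inv_le_one_of_one_le₀ h)
        simpa using L₀⟮ϖ⟯.inv_mem this
  set g := (minpoly L₀ ϖ).map (algebraMap L₀ Λ) with hg
  have hnd : g.roots.Nodup := nodup_roots (minpoly.irreducible hint).separable.map
  have hcard : g.roots.toFinset.card = (minpoly L₀ ϖ).natDegree := by
    rw [Multiset.toFinset_card_of_nodup hnd, ← (IsAlgClosed.splits g).natDegree_eq_card_roots,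
      hg, natDegree_map]
  let r := (Finset.equivFinOfCardEq hcard).symm
  have hr : ∀ t, ∃ σ : Λ ≃ₐ[L₀] Λ, σ ϖ = r t := by
    intro t
    have h2 : aeval (r t : Λ) (minpoly L₀ ϖ) = 0 := by
      rw [← eval_map_algebraMap]
      exact (mem_roots'.1 (Multiset.mem_toFinset.1 (r t).2)).2
    exact minpoly.exists_algEquiv_of_root' hint.isAlgebraic h2
  choose σ hσ using hr
  have hprod : ∏ t, (X - C ((σ t).restrictScalars K ϖ)) = g := by
    simp only [AlgEquiv.restrictScalars_apply, hσ]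
    rw [Equiv.prod_comp r fun x => X - C (x : Λ), Finset.prod_coe_sort _ fun x => X - C x,
      Finset.prod_eq_multiset_prod, Multiset.toFinset_val, hnd.dedup]
    exact ((IsAlgClosed.splits g).eq_prod_roots_of_monic ((minpoly.monic hint).map _)).symm
  refine ⟨(minpoly L₀ ϖ).natDegree, ϖ, fun t => (σ t).restrictScalars K,
    minpoly.natDegree_pos hint, hϖ, h1,
    fun t x hx => (σ t).commutes ⟨x, hx⟩, ?_, ?_, ?_, ?_, hpoly⟩
  · rw [← IntermediateField.adjoin.finrank hint, mul_comm, finrank_mul_finrank, ← hL]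
    rfl
  · rw [hprod]
    intro n
    rw [hg, coeff_map]
    exact ((minpoly L₀ ϖ).coeff n).2
  · intro t t' h
    simp only [AlgEquiv.restrictScalars_apply, hσ] at h
    exact r.injective (Subtype.ext h)
  · intro k hk
    exact totram_coeff Finset.univ (fun t => (σ t).restrictScalars K ϖ)
      (fun t => by rw [Loc.norm_gal (p := p)]; exact h1) k (by simpa using hk)

end Pool.Agent.ZeroCyc
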