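import Pool.Agent.Lib.MP_796ce4_ag.ZY.ChDefs

/-! Integral extensions and linear algebra. -/

namespace Pool.Agent.ZeroCyc

open Polynomial Module
open scoped Classical IntermediateField PowerSeries

set_option linter.unusedSectionVars false

variable {R A : Type} [CommRing R] [CommRing A]

theorem isIntegral_of_elem {R' : Type} [CommRing R'] {φ : R →+* A} {φ' : R' →+* A}
    (hφ : φ.IsIntegral) (h : ∀ b, φ'.IsIntegralElem (φ b)) : φ'.IsIntegral := by
  intro a
  let := φ'.toAlgebra
  let ψ : R →+* integralClosure R' A := φ.codRestrict (integralClosure R' A) h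
  have h1 : ((algebraMap (integralClosure R' A) A).comp ψ).IsIntegralElem a := hφ a
  have h2 : IsIntegral (integralClosure R' A) a := RingHom.IsIntegralElem.of_comp h1
  exact isIntegral_trans (R := R') a h2

theorem lt_of_not_indep [IsDomain R] [IsDomain A] [Algebra R A]
    (hinj : Function.Injective (algebraMap R A)) {m n : ℕ} {f : Fin m → A}
    (hf : (MvPolynomial.aeval f : MvPolynomial (Fin m) R →ₐ[R] A).toRingHom.IsIntegral)
    (hd : ¬AlgebraicIndependent R f) {e : Fin n → A} (he : AlgebraicIndependent R e) :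
    n < m := by
  by_contra hlt
  have hle : m ≤ n := Nat.le_of_not_lt hlt
  have : FaithfulSMul R A := (faithfulSMul_iff_algebraMap_injective R A).2 hinj
  have hmem : ∀ p : MvPolynomial (Fin m) R,
      MvPolynomial.aeval f p ∈ Algebra.adjoin R (Set.range f) := fun p => by
    rw [Algebra.adjoin_range_eq_range_aeval]
    exact ⟨p, rfl⟩
  have : Algebra.IsIntegral (Algebra.adjoin R (Set.range f)) A := ⟨fun a => by
    let ψ : MvPolynomial (Fin m) R →+* Algebra.adjoin R (Set.range f) :=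
      (MvPolynomial.aeval f : MvPolynomial (Fin m) R →ₐ[R] A).toRingHom.codRestrict _ hmem
    have h1 : ((algebraMap (Algebra.adjoin R (Set.range f)) A).comp ψ).IsIntegralElem a := hf a
    exact RingHom.IsIntegralElem.of_comp h1⟩
  have h2 : Cardinal.mk (Fin m) ≤ Algebra.trdeg R A := by
    refine le_trans ?_ he.cardinalMk_le_trdeg
    simpa using hle
  exact hd (Algebra.IsAlgebraic.isTranscendenceBasis_of_le_trdeg_of_finite R f h2).1

/-- lying over for homomorphisms to an algebraically closed field -/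
theorem exists_ext_of_isIntegral {Ω : Type} [Field Ω] [IsAlgClosed Ω] {φ : R →+* A}
    (hφ : φ.IsIntegral) (ψ : R →+* Ω) (hk : RingHom.ker φ ≤ RingHom.ker ψ) :
    ∃ ψ' : A →+* Ω, ψ'.comp φ = ψ := by
  let := φ.toAlgebra
  have : Algebra.IsIntegral R A := ⟨hφ⟩
  have := RingHom.ker_isPrime ψ
  obtain ⟨Q, -, hQ, hQc⟩ := Ideal.exists_ideal_over_prime_of_isIntegral (RingHom.ker ψ)
    (⊥ : Ideal A) hk
  have : (Q.comap (algebraMap R A)).IsPrime := hQc ▸ RingHom.ker_isPrime ψ
  let χ : R ⧸ Q.comap (algebraMap R A) →+* Ω :=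
    Ideal.Quotient.lift _ ψ fun a ha => by rw [hQc] at ha; exact ha
  have hχ : Function.Injective χ := by
    rw [injective_iff_map_eq_zero]
    intro a ha
    obtain ⟨a, rfl⟩ := Ideal.Quotient.mk_surjective a
    rw [Ideal.Quotient.eq_zero_iff_mem, hQc]
    exact ha
  let := χ.toAlgebra
  have : IsTorsionFree (R ⧸ Q.comap (algebraMap R A)) Ω :=
    Module.isTorsionFree_iff_algebraMap_injective.2 hχ
  have : IsTorsionFree (R ⧸ Q.comap (algebraMap R A)) (A ⧸ Q) :=
    Module.isTorsionFree_iff_algebraMap_injective.2 Ideal.quotientMap_injective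
  let l : (A ⧸ Q) →ₐ[R ⧸ Q.comap (algebraMap R A)] Ω := IsAlgClosed.lift
  refine ⟨(l : (A ⧸ Q) →+* Ω).comp (Ideal.Quotient.mk Q), RingHom.ext fun r => ?_⟩
  exact l.commutes (Ideal.Quotient.mk _ r)

theorem chb_functional {κ : Type} [Field κ] {m : ℕ} {T : Submodule κ (Fin m → κ)} (hT : T ≠ ⊤) :
    ∃ w : Fin m → κ, w ≠ 0 ∧ ∀ x ∈ T, ∑ a, x a * w a = 0 := by
  obtain ⟨f, hf, hle⟩ := Submodule.exists_le_ker_of_lt_top T hT.lt_top
  have key : ∀ x : Fin m → κ, ∑ a, x a * f (fun j => if a = j then 1 else 0) = f x := fun x => by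
    rw [LinearMap.pi_apply_eq_sum_univ f x]
    rfl
  refine ⟨fun a => f fun j => if a = j then 1 else 0, fun h0 => hf (LinearMap.ext fun x => ?_),
    fun x hx => by rw [key]; exact hle hx⟩
  rw [← key, LinearMap.zero_apply]
  exact Finset.sum_eq_zero fun a _ => by rw [congrFun h0 a, Pi.zero_apply, mul_zero]

theorem exists_minor {κ ι : Type} [Field κ] {m : ℕ} (u : ι → Fin m → κ)
    (h : ∀ w : Fin m → κ, (∀ i, ∑ a, u i a * w a = 0) → w = 0) :
    ∃ a : Fin m → ι, (Matrix.of fun k => u (a k)).det ≠ 0 := by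
  have htop : Submodule.span κ (Set.range u) = ⊤ := by
    by_contra hT
    obtain ⟨w, hw, hw'⟩ := chb_functional hT
    exact hw (h w fun i => hw' _ (Submodule.subset_span ⟨i, rfl⟩))
  have hr : finrank κ (Submodule.span κ (Set.range u)) = m := by
    rw [htop, finrank_top, Module.finrank_fin_fun]
  obtain ⟨f, hf, -, hli⟩ := Submodule.exists_fun_fin_finrank_span_eq κ (Set.range u)
  choose a ha using hf
  refine ⟨fun k => a (Fin.cast hr.symm k), ?_⟩
  have h1 : LinearIndependent κ (Matrix.of fun k => u (a (Fin.cast hr.symm k))).row := by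
    have h2 := hli.comp (Fin.cast hr.symm) (Fin.cast_injective _)
    have h3 : (Matrix.of fun k => u (a (Fin.cast hr.symm k))).row = f ∘ Fin.cast hr.symm :=
      funext fun k => ha _
    rw [h3]
    exact h2
  exact ((Matrix.isUnit_iff_isUnit_det _).1 (Matrix.linearIndependent_rows_iff_isUnit.1 h1)).ne_zero

theorem top_of_perp {κ : Type} [Field κ] {r : R →+* κ} (hr : ∀ x, r x ≠ 0 → IsUnit x) {m : ℕ}
    (W : Submodule R (Fin m → R)) (h : ∀ w : Fin m → κ, (∀ u ∈ W, lv r u w = 0) → w = 0) :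
    W = ⊤ := by
  obtain ⟨a, ha⟩ := exists_minor (fun (x : W) i => r (x.1 i))
    fun w hw => h w fun u hu => hw ⟨u, hu⟩
  let N : Matrix (Fin m) (Fin m) R := Matrix.of fun k => (a k).1
  have hN : IsUnit N.det := hr _ (by rw [RingHom.map_det]; exact ha)
  refine eq_top_iff.2 fun x _ => ?_
  have h1 : x = Matrix.vecMul (Matrix.vecMul x N⁻¹) N := by
    rw [Matrix.vecMul_vecMul, Matrix.nonsing_inv_mul _ hN, Matrix.vecMul_one]
  rw [h1, Matrix.vecMul_eq_sum]
  exact W.sum_mem fun k _ => W.smul_mem _ (a k).2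

/-- coordinates that give an isomorphism on a subspace -/
theorem exists_coords {κ : Type} [Field κ] {M : ℕ} (T : Submodule κ (Fin M → κ)) :
    ∃ a : Fin (finrank κ T) → Fin M, ∀ z : Fin (finrank κ T) → κ, ∃ w ∈ T, ∀ k, w (a k) = z k := by
  let b := Module.finBasis κ T
  have hs : ∀ (c : Fin (finrank κ T) → κ) (i : Fin M),
      ((∑ k, c k • b k : T) : Fin M → κ) i = ∑ k, (b k : Fin M → κ) i * c k := fun c i => by
    rw [Submodule.coe_sum, Finset.sum_apply]
    exact Finset.sum_congr rfl fun k _ => by simp [mul_comm]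
  obtain ⟨a, ha⟩ := exists_minor (fun (i : Fin M) k => (b k : Fin M → κ) i) fun w hw => by
    have h1 : (∑ k, w k • b k : T) = 0 := Subtype.ext (funext fun i => by rw [hs]; exact hw i)
    exact funext (Fintype.linearIndependent_iff.1 b.linearIndependent w h1)
  refine ⟨a, fun z => ?_⟩
  let N : Matrix (Fin (finrank κ T)) (Fin (finrank κ T)) κ :=
    Matrix.of fun k l => (b l : Fin M → κ) (a k)
  have hN : IsUnit N.det := Ne.isUnit ha
  refine ⟨(∑ k, (N⁻¹.mulVec z) k • b k : T), Subtype.mem _, fun k => ?_⟩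
  rw [hs]
  have h1 : N.mulVec (N⁻¹.mulVec z) = z := by
    rw [Matrix.mulVec_mulVec, Matrix.mul_nonsing_inv _ hN, Matrix.one_mulVec]
  exact congrFun h1 k

theorem mv_integrallyClosed [IsDomain R] [IsIntegrallyClosed R] (d : ℕ) :
    IsIntegrallyClosed (MvPolynomial (Fin d) R) := by
  induction d with
  | zero => exact IsIntegrallyClosed.of_equiv (MvPolynomial.isEmptyRingEquiv R (Fin 0)).symm
  | succ d ih => exact IsIntegrallyClosed.of_equiv (MvPolynomial.finSuccEquiv R d).symm.toRingEquiv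

theorem chb_eval_lp {κ : Type} [Field κ] {M : ℕ} (l v : Fin M → κ) :
    MvPolynomial.eval v (lp l) = ∑ a, v a * l a := by
  simp [lp, mul_comm]

theorem chb_lp_ne {κ : Type} [Field κ] {M : ℕ} {l : Fin M → κ} (h : l ≠ 0) : lp l ≠ 0 := by
  intro h0
  refine h (funext fun a => ?_)
  have h1 := chb_eval_lp l (Pi.single a 1)
  rw [h0, map_zero] at h1
  simpa [Pi.single_apply] using h1.symm

/-- a linear form that separates a point from finitely many others -/
theorem Gr.exists_sep {κ : Type} [Field κ] {r : R →+* κ} (hr : Gr r) {M : ℕ}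
    {F : Set (Fin M → κ)} (hF : F.Finite) (x : Fin M → κ) :
    ∃ H : Fin M → R, ∀ x' ∈ F, lv r H x' = lv r H x → x' = x := by
  obtain ⟨H, hH⟩ := hr.avoid (∏ y ∈ hF.toFinset.erase x, lp (y - x))
    (Finset.prod_ne_zero_iff.2 fun y hy => chb_lp_ne (sub_ne_zero.2 (Finset.ne_of_mem_erase hy)))
  refine ⟨H, fun y hy h => ?_⟩
  by_contra hne
  rw [map_prod] at hH
  refine Finset.prod_ne_zero_iff.1 hH y (Finset.mem_erase.2 ⟨hne, hF.mem_toFinset.2 hy⟩) ?_
  rw [chb_eval_lp]
  simp only [Pi.sub_apply, mul_sub, Finset.sum_sub_distrib]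
  exact sub_eq_zero.2 h

/-- a vector outside finitely many proper subspaces and a hypersurface -/
theorem Gr.exists_out {κ ι : Type} [Field κ] [Finite ι] {r : R →+* κ} (hr : Gr r) {m : ℕ}
    (T : ι → Submodule κ (Fin m → κ)) (hT : ∀ k, T k ≠ ⊤) {Θ : MvPolynomial (Fin m) κ}
    (hΘ : Θ ≠ 0) : ∃ c : Fin m → R, MvPolynomial.eval (fun i => r (c i)) Θ ≠ 0 ∧
      (∀ i, r (c i) ≠ 0) ∧ ∀ k, (fun i => r (c i)) ∉ T k := by
  have := Fintype.ofFinite ι
  choose w hw hw' using fun k => chb_functional (hT k)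
  obtain ⟨c, hc⟩ := hr.avoid (Θ * (∏ i, MvPolynomial.X i) * ∏ k, lp (w k))
    (mul_ne_zero (mul_ne_zero hΘ (Finset.prod_ne_zero_iff.2 fun i _ => MvPolynomial.X_ne_zero i))
      (Finset.prod_ne_zero_iff.2 fun k _ => chb_lp_ne (hw k)))
  rw [map_mul, map_mul, map_prod, map_prod] at hc
  refine ⟨c, left_ne_zero_of_mul (left_ne_zero_of_mul hc), fun i => ?_, fun k hk => ?_⟩
  · have h1 := Finset.prod_ne_zero_iff.1 (right_ne_zero_of_mul (left_ne_zero_of_mul hc)) i
      (Finset.mem_univ i)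
    rwa [MvPolynomial.eval_X] at h1
  · refine Finset.prod_ne_zero_iff.1 (right_ne_zero_of_mul hc) k (Finset.mem_univ k) ?_
    rw [chb_eval_lp]
    exact hw' k _ hk

end Pool.Agent.ZeroCyc
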