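import Pool.Agent.Lib.MP_796ce4_ag.ZY.Fil

/-! Curvilinear cubes, and the reduction to vectors along the axes. -/

namespace Pool.Agent.ZeroCyc

open Polynomial Module
open scoped Classical IntermediateField PowerSeries

set_option linter.unusedSectionVars false

variable {M : Type} [AddCommGroup M] {fil : ℕ → AddSubgroup M} {y₀ : M}

theorem cc_sg_add (a b : M) : sg (a + b) = sg a * sg b := by
  rw [AddMonoidAlgebra.single_mul_single, one_mul]

theorem cc_sg_sum {T : Type} (t : Finset T) (u : T → M) :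
    sg (∑ j ∈ t, u j) = ∏ j ∈ t, sg (u j) := by
  induction t using Finset.induction_on with
  | empty => rw [Finset.sum_empty, Finset.prod_empty, AddMonoidAlgebra.one_def]
  | insert a t ha ih => rw [Finset.sum_insert ha, Finset.prod_insert ha, cc_sg_add, ih]

theorem cc_mul_dl {s w : ℕ} {x : GA M} (hx : x ∈ II fil y₀ s w) {v : M} (hv : v ∈ fil 1) :
    x * dl v ∈ II fil y₀ s w := by
  have h1 : sg v ∈ II fil 0 0 0 :=
    AddSubgroup.subset_closure ⟨v, 0, by simpa using hv, by simp, by simp, by simp, by simp⟩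
  have h2 := mul_mem_II hx h1
  rw [add_zero, add_zero, add_zero] at h2
  rw [dl, mul_sub, mul_one]
  exact sub_mem h2 hx

theorem cc_mul_prod {s w : ℕ} {T : Type} (t : Finset T) {v : T → M} (hv : ∀ j ∈ t, v j ∈ fil 1)
    {x : GA M} (hx : x ∈ II fil y₀ s w) : x * ∏ j ∈ t, dl (v j) ∈ II fil y₀ s w := by
  induction t using Finset.induction_on with
  | empty => simpa using hx
  | insert a t ha ih =>
    rw [Finset.prod_insert ha, mul_comm (dl (v a)), ← mul_assoc]
    exact cc_mul_dl (ih fun j hj => hv j (Finset.mem_insert_of_mem hj))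
      (hv a (Finset.mem_insert_self _ _))

/-- the term of a cover `F` which contains a subcover `G` with at most `s` members -/
theorem cc_cover (hf : Antitone fil) {ι : Type} [Fintype ι] {k : ι → ℕ} (hk : ∀ i, 0 < k i)
    {c : Finset ι → M} (hc : ∀ B : Finset ι, B.Nonempty → c B ∈ fil (∑ i ∈ B, k i)) {y : M}
    (hy : y - y₀ ∈ fil 1) {F G : Finset (Finset ι)} (hGF : G ⊆ F) (hF : ∀ B ∈ F, B.Nonempty)
    (hG : ∀ i, ∃ B ∈ G, i ∈ B) {s : ℕ} (hs : G.card ≤ s) :
    sg y * ∏ B ∈ F, dl (c B) ∈ II fil y₀ s (∑ i, k i) := by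
  have hpos : ∀ B ∈ F, 0 < ∑ i ∈ B, k i := fun B hB =>
    Finset.sum_pos (fun i _ => hk i) (hF B hB)
  have h1 := gen_mem_II (fil := fil) (ι := G) hy (k := fun B => ∑ i ∈ B.1, k i)
    (v := fun B => c B.1) (fun B => hpos B.1 (hGF B.2)) (fun B => hc B.1 (hF B.1 (hGF B.2)))
  rw [Finset.prod_coe_sort G (fun B => dl (c B)), Fintype.card_coe,
    Finset.sum_coe_sort G (fun B => ∑ i ∈ B, k i)] at h1
  have hw : ∑ i, k i ≤ ∑ B ∈ G, ∑ i ∈ B, k i := by
    have e : ∀ B : Finset ι, ∑ i ∈ B, k i = ∑ i, if i ∈ B then k i else 0 := fun B => by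
      rw [Finset.sum_ite_mem, Finset.univ_inter]
    rw [Finset.sum_congr rfl fun B _ => e B, Finset.sum_comm]
    refine Finset.sum_le_sum fun i _ => ?_
    obtain ⟨B, hB, hi⟩ := hG i
    have := Finset.single_le_sum (f := fun B : Finset ι => if i ∈ B then k i else 0)
      (fun _ _ => Nat.zero_le _) hB
    simpa only [if_pos hi] using this
  rw [← Finset.prod_sdiff hGF, mul_comm (∏ B ∈ F \ G, dl (c B)), ← mul_assoc]
  refine cc_mul_prod _ (fun B hB => ?_) (II_mono hs hw h1)
  have hB' := (Finset.mem_sdiff.1 hB).1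
  exact hf (hpos B hB') (hc B (hF B hB'))

/-- the alternating sum is a sum over the covers by nonempty sets -/
theorem cc_alt_eq {ι : Type} [Fintype ι] (c : Finset ι → M) :
    alt (fun A : Finset ι => sg (∑ B ∈ A.powerset, c B)) =
      ∑ F ∈ ((Finset.univ : Finset (Finset ι)).erase ∅).powerset,
        if ∀ i, ∃ B ∈ F, i ∈ B then sg (c ∅) * ∏ B ∈ F, dl (c B) else 0 := by
  have e : ∀ A : Finset ι, sg (∑ B ∈ A.powerset, c B) =
      ∑ F ∈ ((Finset.univ : Finset (Finset ι)).erase ∅).powerset,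
        if ∀ B ∈ F, B ⊆ A then sg (c ∅) * ∏ B ∈ F, dl (c B) else 0 := by
    intro A
    have e1 : ∏ B ∈ A.powerset.erase ∅, sg (c B) =
        ∏ B ∈ (Finset.univ : Finset (Finset ι)).erase ∅,
          (1 + if B ⊆ A then dl (c B) else 0) := by
      have e2 : A.powerset.erase ∅ =
          ((Finset.univ : Finset (Finset ι)).erase ∅).filter fun B => B ⊆ A := by
        ext B; simp
      rw [e2, Finset.prod_filter]
      refine Finset.prod_congr rfl fun B _ => ?_
      split_ifs
      · rw [dl]; ring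
      · rw [add_zero]
    rw [cc_sg_sum, ← Finset.mul_prod_erase _ _ (Finset.empty_mem_powerset A), e1,
      Finset.prod_one_add, Finset.mul_sum]
    refine Finset.sum_congr rfl fun F _ => ?_
    rw [Finset.prod_ite_zero]
    split_ifs
    · rfl
    · rw [mul_zero]
  rw [funext e, alt_sum]
  refine Finset.sum_congr rfl fun F _ => ?_
  split_ifs with hF
  · rw [alt, Finset.sum_eq_single Finset.univ]
    · rw [if_pos fun B _ => Finset.subset_univ B, Finset.card_univ, Nat.sub_self, pow_zero,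
        one_smul]
    · intro A _ hA
      rw [if_neg, smul_zero]
      intro h
      refine hA (Finset.eq_univ_iff_forall.2 fun i => ?_)
      obtain ⟨B, hB, hi⟩ := hF i
      exact h B hB hi
    · intro h; exact absurd (Finset.mem_univ _) h
  · push Not at hF
    obtain ⟨i, hi⟩ := hF
    refine alt_eq_zero i fun A => ?_
    refine if_congr (forall₂_congr fun B hB => ?_) rfl rfl
    exact Finset.subset_insert_iff_of_notMem (hi B hB)

theorem cc_single {ι : Type} {y c : Finset ι → M} (h : ∀ A, y A = ∑ B ∈ A.powerset, c B) (i : ι) :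
    y ∅ = c ∅ ∧ y {i} - y ∅ = c {i} := by
  have h0 : y ∅ = c ∅ := by rw [h, Finset.powerset_empty, Finset.sum_singleton]
  refine ⟨h0, ?_⟩
  have e : ({i} : Finset ι).powerset = {∅, {i}} := by
    ext B; simp [Finset.subset_singleton_iff]
  rw [h0, h, e, Finset.sum_pair (Finset.singleton_ne_empty i).symm, add_sub_cancel_left]

theorem IsCube.sub_mem {ι : Type} {k : ι → ℕ} {y : Finset ι → M} (h : IsCube fil k y) (i : ι) :
    y {i} - y ∅ ∈ fil (k i) := by
  obtain ⟨c, hc, hy⟩ := h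
  rw [(cc_single hy i).2]
  simpa using hc {i} (Finset.singleton_nonempty i)

theorem IsCube.alt_sub (hf : Antitone fil) {ι : Type} [Fintype ι] {k : ι → ℕ} (hk : ∀ i, 0 < k i)
    {y : Finset ι → M} (h : IsCube fil k y) (h0 : y ∅ - y₀ ∈ fil 1) :
    alt (fun A => sg (y A)) - sg (y ∅) * ∏ i, dl (y {i} - y ∅) ∈
      II fil y₀ (Fintype.card ι - 1) (∑ i, k i) := by
  obtain ⟨c, hc, hy⟩ := h
  have h00 : y ∅ = c ∅ := by rw [hy, Finset.powerset_empty, Finset.sum_singleton]
  set S : Finset (Finset ι) := Finset.univ.image fun i => {i} with hS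
  have hSm : S ∈ ((Finset.univ : Finset (Finset ι)).erase ∅).powerset := by
    rw [Finset.mem_powerset]
    intro B hB
    obtain ⟨i, -, rfl⟩ := Finset.mem_image.1 hB
    simp
  have hSc : ∀ i, ∃ B ∈ S, i ∈ B := fun i =>
    ⟨{i}, Finset.mem_image_of_mem _ (Finset.mem_univ i), Finset.mem_singleton_self i⟩
  have e1 : ∏ i, dl (y {i} - y ∅) = ∏ B ∈ S, dl (c B) := by
    rw [hS, Finset.prod_image fun i _ j _ hij => Finset.singleton_injective hij]
    exact Finset.prod_congr rfl fun i _ => by rw [(cc_single hy i).2]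
  have e2 : (fun A => sg (y A)) = fun A : Finset ι => sg (∑ B ∈ A.powerset, c B) :=
    funext fun A => by rw [hy]
  rw [e1, e2, cc_alt_eq, ← Finset.add_sum_erase _ _ hSm, if_pos hSc, h00, add_sub_cancel_left]
  rw [h00] at h0
  refine AddSubgroup.sum_mem _ fun F hF => ?_
  obtain ⟨hFS, hF⟩ := Finset.mem_erase.1 hF
  have hne : ∀ B ∈ F, B.Nonempty := fun B hB =>
    Finset.nonempty_iff_ne_empty.2 (Finset.mem_erase.1 (Finset.mem_powerset.1 hF hB)).1
  split_ifs with hcov
  swap
  · exact zero_mem _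
  obtain ⟨B₀, hB₀, h2⟩ : ∃ B₀ ∈ F, 2 ≤ B₀.card := by
    by_contra hcon
    push Not at hcon
    have h1 : ∀ B ∈ F, ∃ i, B = {i} := fun B hB =>
      Finset.card_eq_one.1 (by have := hcon B hB; have := (hne B hB).card_pos; omega)
    refine hFS (Finset.Subset.antisymm (fun B hB => ?_) fun B hB => ?_)
    · obtain ⟨i, rfl⟩ := h1 B hB
      exact Finset.mem_image_of_mem _ (Finset.mem_univ i)
    · obtain ⟨i, -, rfl⟩ := Finset.mem_image.1 hB
      obtain ⟨B', hB', hi⟩ := hcov i
      obtain ⟨j, rfl⟩ := h1 B' hB'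
      rw [Finset.mem_singleton.1 hi]
      exact hB'
  choose g hg hg' using hcov
  refine cc_cover hf hk hc h0 (G := insert B₀ (B₀ᶜ.image g)) ?_ hne (fun i => ?_) ?_
  · intro B hB
    rcases Finset.mem_insert.1 hB with rfl | hB
    · exact hB₀
    · obtain ⟨i, -, rfl⟩ := Finset.mem_image.1 hB
      exact hg i
  · by_cases hi : i ∈ B₀
    · exact ⟨B₀, Finset.mem_insert_self _ _, hi⟩
    · exact ⟨g i, Finset.mem_insert_of_mem
        (Finset.mem_image_of_mem _ (Finset.mem_compl.2 hi)), hg' i⟩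
  · have a1 := Finset.card_insert_le B₀ (B₀ᶜ.image g)
    have a2 : (B₀ᶜ.image g).card ≤ B₀ᶜ.card := Finset.card_image_le
    have a3 := Finset.card_compl B₀
    have a4 := Finset.card_le_univ B₀
    omega

theorem IsCube.alt_mem (hf : Antitone fil) {ι : Type} [Fintype ι] {k : ι → ℕ} (hk : ∀ i, 0 < k i)
    {y : Finset ι → M} (h : IsCube fil k y) (h0 : y ∅ - y₀ ∈ fil 1) :
    alt (fun A => sg (y A)) ∈ II fil y₀ (Fintype.card ι) (∑ i, k i) := by
  have h1 := II_mono (Nat.sub_le _ 1) le_rfl (h.alt_sub hf hk h0)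
  have h2 := gen_mem_II h0 hk h.sub_mem
  simpa using add_mem h1 h2

/-- coordinatewise filtration -/
def piFil {A : Type} [AddCommGroup A] (d : ℕ) (f : ℕ → AddSubgroup A) (n : ℕ) :
    AddSubgroup (Fin d → A) := AddSubgroup.pi Set.univ fun _ => f n

theorem cc_dl_sum {T : Type} (K : AddSubgroup M) (t : Finset T) {u : T → M} (hu : ∀ j, u j ∈ K) :
    ∃ p : T → M, (∀ j, p j ∈ K) ∧ dl (∑ j ∈ t, u j) = ∑ j ∈ t, sg (p j) * dl (u j) := by
  induction t using Finset.induction_on with
  | empty =>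
    refine ⟨0, fun _ => zero_mem _, ?_⟩
    rw [Finset.sum_empty, Finset.sum_empty, dl, AddMonoidAlgebra.one_def, sub_self]
  | insert a t ha ih =>
    obtain ⟨p, hp, e⟩ := ih
    refine ⟨fun j => if j = a then ∑ j ∈ t, u j else p j, fun j => ?_, ?_⟩
    · beta_reduce
      split_ifs
      · exact K.sum_mem fun j _ => hu j
      · exact hp j
    · have e' : ∑ j ∈ t, sg (if j = a then ∑ j ∈ t, u j else p j) * dl (u j) =
          ∑ j ∈ t, sg (p j) * dl (u j) := Finset.sum_congr rfl fun j hj => by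
        rw [if_neg fun h : j = a => ha (h ▸ hj)]
      beta_reduce
      rw [Finset.sum_insert ha, Finset.sum_insert ha, if_pos rfl, e', ← e, dl, dl, dl, cc_sg_add]
      ring

theorem cc_single_mem {A : Type} [AddCommGroup A] {d : ℕ} {f : ℕ → AddSubgroup A} {n : ℕ}
    (j : Fin d) {a : A} (ha : a ∈ f n) : (Pi.single j a : Fin d → A) ∈ piFil d f n := by
  intro i _
  by_cases h : i = j
  · subst h; simpa using ha
  · rw [Pi.single_eq_of_ne h]; exact (f n).zero_mem

/-- with more than `d` factors two of them may be taken along the same axis -/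
theorem II_le_axis {A : Type} [AddCommGroup A] {d : ℕ} {f : ℕ → AddSubgroup A} (hf : Antitone f)
    {y₀ : Fin d → A} {s w : ℕ} (hs : d ≤ s + 1) {H : AddSubgroup (GA (Fin d → A))}
    (h1 : II (piFil d f) y₀ (s + 1) w ≤ H)
    (h2 : ∀ (y : Fin d → A) (j : Fin d) (k₁ k₂ : ℕ) (a₁ a₂ : A) (k : Fin s → ℕ)
      (v : Fin s → Fin d → A), y - y₀ ∈ piFil d f 1 → w ≤ ∑ i, k i + (k₁ + k₂) → 0 < k₁ →
      0 < k₂ → a₁ ∈ f k₁ → a₂ ∈ f k₂ → (∀ i, 0 < k i) → (∀ i, v i ∈ piFil d f (k i)) →
      sg y * (∏ i, dl (v i)) * (dl (Pi.single j a₁) * dl (Pi.single j a₂)) ∈ H) :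
    II (piFil d f) y₀ (s + 2) w ≤ H := by
  refine II_le fun r hr y k v hy hw hk hv => ?_
  rcases Nat.lt_or_ge r (s + 2) with hlt | hge
  · exact h1 (II_mono (by rw [Fintype.card_fin]; omega) hw (gen_mem_II hy hk hv))
  obtain rfl : r = s + 2 := le_antisymm hr hge
  have hv' : ∀ i j, v i j ∈ f (k i) := fun i j => hv i j (Set.mem_univ j)
  have hex : ∀ i, ∃ p : Fin d → Fin d → A, (∀ j, p j ∈ piFil d f 1) ∧
      dl (v i) = ∑ j, sg (p j) * dl (Pi.single j (v i j)) := by
    intro i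
    have := cc_dl_sum (piFil d f 1) Finset.univ (u := fun j => Pi.single j (v i j))
      fun j => cc_single_mem j (hf (hk i) (hv' i j))
    rwa [Finset.univ_sum_single] at this
  choose p hp he using hex
  rw [Finset.prod_congr rfl fun i _ => he i, Finset.prod_univ_sum, Finset.mul_sum]
  refine AddSubgroup.sum_mem _ fun φ _ => ?_
  obtain ⟨i₁, i₂, hne, hφ⟩ := Fintype.exists_ne_map_eq_of_card_lt φ
    (by rw [Fintype.card_fin, Fintype.card_fin]; omega)
  obtain ⟨i₃, rfl⟩ := Fin.exists_succAbove_eq hne.symm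
  have key := h2 (y + ∑ i, p i (φ i)) (φ i₁) (k i₁) (k (i₁.succAbove i₃)) (v i₁ (φ i₁))
    (v (i₁.succAbove i₃) (φ i₁)) (fun j => k (i₁.succAbove (i₃.succAbove j)))
    (fun j => Pi.single (φ (i₁.succAbove (i₃.succAbove j)))
      (v (i₁.succAbove (i₃.succAbove j)) (φ (i₁.succAbove (i₃.succAbove j)))))
    (by
      rw [add_sub_right_comm]
      exact add_mem hy (AddSubgroup.sum_mem _ fun i _ => hp i _))
    (by
      rw [Fin.sum_univ_succAbove _ i₁, Fin.sum_univ_succAbove _ i₃] at hw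
      omega)
    (hk _) (hk _) (hv' _ _) (hv' _ _) (fun _ => hk _) (fun _ => cc_single_mem _ (hv' _ _))
  rw [Finset.prod_mul_distrib, ← cc_sg_sum, ← mul_assoc, ← cc_sg_add,
    Fin.prod_univ_succAbove _ i₁, Fin.prod_univ_succAbove _ i₃, ← hφ]
  convert key using 1
  ring

end Pool.Agent.ZeroCyc
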