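import Pool.Agent.Lib.MP_796ce4_ag.ZY.Res
import Pool.Agent.Lib.MP_796ce4_ag.ZY.CC

/-! Rings of cubes. -/

namespace Pool.Agent.ZeroCyc

open Polynomial Module
open scoped Classical IntermediateField PowerSeries

set_option linter.unusedSectionVars false

section defs

variable {K Λ ι : Type} [Field K] [NormedField Λ] [IsUltrametricDist Λ] [Algebra K Λ] [Fintype ι]

/-- elements of `L` of norm at most `‖π‖ ^ n` -/
def fl1 (L : IntermediateField K Λ) (π : Λ) (n : ℕ) : AddSubgroup Λ where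
  carrier := {x | x ∈ L ∧ ‖x‖ ≤ ‖π‖ ^ n}
  zero_mem' := ⟨L.zero_mem, by simp⟩
  add_mem' := fun h h' => ⟨L.add_mem h.1 h'.1,
    (IsUltrametricDist.norm_add_le_max _ _).trans (max_le h.2 h'.2)⟩
  neg_mem' := fun h => ⟨L.neg_mem h.1, by rw [norm_neg]; exact h.2⟩

theorem cube_fl1 {L : IntermediateField K Λ} {π : Λ} {n : ℕ} {x : Λ} :
    x ∈ fl1 L π n ↔ x ∈ L ∧ ‖x‖ ≤ ‖π‖ ^ n := Iff.rfl

theorem cube_mul {L : IntermediateField K Λ} {π : Λ} (hπ : ‖π‖ < 1) {k : ι → ℕ}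
    {c c' : Finset ι → Λ} (h : ∀ B, c B ∈ fl1 L π (∑ i ∈ B, k i))
    (h' : ∀ B, c' B ∈ fl1 L π (∑ i ∈ B, k i)) : ∃ c'' : Finset ι → Λ,
      (∀ B, c'' B ∈ fl1 L π (∑ i ∈ B, k i)) ∧ ∀ A : Finset ι,
        (∑ B ∈ A.powerset, c B) * ∑ B ∈ A.powerset, c' B = ∑ B ∈ A.powerset, c'' B := by
  refine ⟨fun B => ∑ q ∈ Finset.univ.filter fun q : Finset ι × Finset ι => q.1 ∪ q.2 = B,
    c q.1 * c' q.2, fun B => sum_mem fun q hq => ?_, fun A => ?_⟩
  · obtain rfl := (Finset.mem_filter.1 hq).2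
    refine ⟨L.mul_mem (h _).1 (h' _).1, ?_⟩
    rw [norm_mul]
    refine (mul_le_mul (h _).2 (h' _).2 (norm_nonneg _) (by positivity)).trans ?_
    rw [← pow_add]
    refine pow_le_pow_of_le_one (norm_nonneg _) hπ.le ?_
    rw [← Finset.sum_union_inter]
    exact Nat.le_add_right _ _
  · rw [Finset.sum_mul_sum, ← Finset.sum_product',
      ← Finset.sum_fiberwise_of_maps_to (t := A.powerset) (g := fun q => q.1 ∪ q.2)]
    · refine Finset.sum_congr rfl fun B hB => Finset.sum_congr ?_ fun _ _ => rfl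
      ext q
      simp only [Finset.mem_filter, Finset.mem_product, Finset.mem_powerset, Finset.mem_univ,
        true_and, and_iff_right_iff_imp]
      rintro rfl
      exact Finset.union_subset_iff.1 (Finset.mem_powerset.1 hB)
    · intro q hq
      rw [Finset.mem_product, Finset.mem_powerset, Finset.mem_powerset] at hq
      exact Finset.mem_powerset.2 (Finset.union_subset hq.1 hq.2)

theorem cube_single {L : IntermediateField K Λ} {π : Λ} {k : ι → ℕ} (B₀ : Finset ι) {x : Λ}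
    (h : x ∈ fl1 L π (∑ i ∈ B₀, k i)) :
    ∃ c : Finset ι → Λ, (∀ B, c B ∈ fl1 L π (∑ i ∈ B, k i)) ∧
      ∀ A : Finset ι, (if B₀ ⊆ A then x else 0) = ∑ B ∈ A.powerset, c B := by
  refine ⟨fun B => if B = B₀ then x else 0, fun B => ?_, fun A => ?_⟩
  · dsimp only
    split_ifs with hB
    · rwa [hB]
    · exact zero_mem _
  · rw [Finset.sum_ite_eq']
    simp only [Finset.mem_powerset]

theorem cube_const {L : IntermediateField K Λ} (π : Λ) (k : ι → ℕ) {x : Λ} (h : x ∈ OL L) :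
    ∃ c : Finset ι → Λ, (∀ B, c B ∈ fl1 L π (∑ i ∈ B, k i)) ∧
      ∀ A : Finset ι, x = ∑ B ∈ A.powerset, c B := by
  obtain ⟨c, h1, h2⟩ := cube_single (L := L) (π := π) (k := k) ∅ (x := x)
    ⟨h.1, by rw [Finset.sum_empty, pow_zero]; exact (mem_OL.1 h).2⟩
  exact ⟨c, h1, fun A => by rw [← h2, if_pos (Finset.empty_subset A)]⟩

/-- the ring of cubes with values in the integers of `L` -/
def CR (L : IntermediateField K Λ) {π : Λ} (hπ : ‖π‖ < 1) (k : ι → ℕ) : Subring (Finset ι → Λ) where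
  carrier := {y | ∃ c : Finset ι → Λ, (∀ B, c B ∈ fl1 L π (∑ i ∈ B, k i)) ∧
    ∀ A, y A = ∑ B ∈ A.powerset, c B}
  zero_mem' := cube_const π k (OL L).zero_mem
  one_mem' := cube_const π k (OL L).one_mem
  add_mem' := fun ⟨c, h, e⟩ ⟨c', h', e'⟩ => ⟨c + c', fun B => add_mem (h B) (h' B), fun A => by
    simp [e, e', Finset.sum_add_distrib]⟩
  neg_mem' := fun ⟨c, h, e⟩ => ⟨-c, fun B => neg_mem (h B), fun A => by simp [e]⟩
  mul_mem' := fun ⟨c, h, e⟩ ⟨c', h', e'⟩ => by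
    obtain ⟨c'', h1, h2⟩ := cube_mul hπ h h'
    exact ⟨c'', h1, fun A => by rw [Pi.mul_apply, e, e', h2]⟩

variable {L L' : IntermediateField K Λ} {π : Λ} {hπ : ‖π‖ < 1} {k : ι → ℕ}

/-- evaluation at a vertex -/
def evA (A : Finset ι) : CR L hπ k →+* Λ := (Pi.evalRingHom _ A).comp (CR L hπ k).subtype

variable (hπ k) in
/-- constant cubes -/
def cstC : OL L →+* CR L hπ k :=
  ((Pi.constRingHom (Finset ι) Λ).comp (OL L).subtype).codRestrict _ fun x => cube_const π k x.2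

theorem CR_mono (h : L ≤ L') : CR L hπ k ≤ CR L' hπ k :=
  fun _ ⟨c, h1, h2⟩ => ⟨c, fun B => ⟨h (h1 B).1, (h1 B).2⟩, h2⟩

theorem evA_apply (A : Finset ι) (y : CR L hπ k) : evA A y = (y : Finset ι → Λ) A := rfl
theorem evA_cstC (A : Finset ι) : (evA A).comp (cstC hπ k) = (OL L).subtype := rfl
theorem evA_mem (A : Finset ι) (y : CR L hπ k) : evA A y ∈ OL L := by
  obtain ⟨c, h, e⟩ := y.2
  rw [evA_apply, e]
  exact sum_mem fun B _ =>
    mem_OL.2 ⟨(h B).1, (h B).2.trans (pow_le_one₀ (norm_nonneg _) hπ.le)⟩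
theorem evA_sub_lt (hk : ∀ i, 0 < k i) (A : Finset ι) (y : CR L hπ k) :
    ‖evA A y - evA ∅ y‖ < 1 := by
  obtain ⟨c, h, e⟩ := y.2
  rw [evA_apply, evA_apply, e, e, Finset.powerset_empty, Finset.sum_singleton,
    ← Finset.sum_erase_add _ _ (Finset.empty_mem_powerset A), add_sub_cancel_right]
  refine gal1_sum_lt fun B hB => (h B).2.trans_lt (pow_lt_one₀ (norm_nonneg _) hπ ?_)
  exact (Finset.sum_pos (fun i _ => hk i)
    (Finset.nonempty_iff_ne_empty.2 (Finset.ne_of_mem_erase hB))).ne'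
theorem fl1_anti (hπ : ‖π‖ < 1) : Antitone (fl1 L π) :=
  fun _ _ h _ hx => ⟨hx.1, hx.2.trans (pow_le_pow_of_le_one (norm_nonneg _) hπ.le h)⟩
theorem piFil_anti (hπ : ‖π‖ < 1) (d : ℕ) : Antitone (piFil d (fl1 L π)) :=
  fun _ _ h _ hx i hi => fl1_anti hπ h (hx i hi)
theorem isCube_of_CR {d : ℕ} (y : Fin d → CR L hπ k) :
    IsCube (piFil d (fl1 L π)) k fun A i => evA A (y i) := by
  choose c h e using fun i => (y i).2
  refine ⟨fun B i => c i B, fun B _ i _ => h i B, fun A => funext fun i => ?_⟩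
  rw [Finset.sum_apply]
  exact e i A
/-- the cube that is `c` on the vertices containing `i` and `0` elsewhere -/
theorem exists_ind (hπ : ‖π‖ < 1) (i : ι) {c : Λ} (h : c ∈ fl1 L π (k i)) :
    ∃ y : CR L hπ k, ∀ A, evA A y = if i ∈ A then c else 0 := by
  obtain ⟨c', h1, h2⟩ := cube_single (L := L) (π := π) (k := k) {i} (x := c)
    (by rwa [Finset.sum_singleton])
  refine ⟨⟨fun A => if i ∈ A then c else 0, c', h1, fun A => ?_⟩, fun _ => rfl⟩
  rw [← h2]
  simp only [Finset.singleton_subset_iff]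
theorem exists_ind_poly (hπ : ‖π‖ < 1) (i : ι) {f : (OL L)[X]}
    (h : ∀ n, ‖(f.coeff n : Λ)‖ ≤ ‖π‖ ^ k i) : ∃ g : (CR L hπ k)[X], g.degree ≤ f.degree ∧
      ∀ A, g.map (evA A) = if i ∈ A then f.map (OL L).subtype else 0 := by
  choose y hy using fun n => exists_ind (L := L) (k := k) hπ i (c := f.coeff n)
    ⟨(f.coeff n).2.1, h n⟩
  have hc : ∀ m, (∑ n ∈ f.support, monomial n (y n)).coeff m =
      if m ∈ f.support then y m else 0 := by
    intro m
    simp only [finsetSum_coeff, coeff_monomial, Finset.sum_ite_eq']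
  refine ⟨∑ n ∈ f.support, monomial n (y n), ?_, fun A => ?_⟩
  · rw [degree_le_iff_coeff_zero]
    intro m hm
    rw [hc, if_neg (notMem_support_iff.2 (coeff_eq_zero_of_degree_lt hm))]
  · ext m
    rw [coeff_map, hc]
    by_cases hm : m ∈ f.support
    · rw [if_pos hm, hy]
      split_ifs
      · rw [coeff_map]
        rfl
      · rfl
    · rw [if_neg hm, map_zero]
      split_ifs
      · rw [coeff_map, notMem_support_iff.1 hm, map_zero]
      · rfl
/-- cubes that do not depend on the new direction -/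
theorem exists_optC (hπ : ‖π‖ < 1) (k : ι → ℕ) (k₁ : ℕ) :
    ∃ e : CR L hπ k →+* CR L hπ fun o : Option ι => o.elim k₁ k,
      ∀ A, (evA A).comp e = evA (Finset.eraseNone A) := by
  refine ⟨(RingHom.pi fun A : Finset (Option ι) => evA (Finset.eraseNone A)).codRestrict _
    fun y => ?_, fun _ => rfl⟩
  obtain ⟨c, h, e⟩ := y.2
  refine ⟨fun B => if none ∈ B then 0 else c (Finset.eraseNone B), fun B => ?_, fun A => ?_⟩
  · dsimp only
    split_ifs with hB
    · exact zero_mem _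
    · have e1 : ∑ o ∈ B, o.elim k₁ k = ∑ i ∈ Finset.eraseNone B, k i := by
        rw [Finset.sum_eraseNone]
        refine Finset.sum_congr rfl fun o ho => ?_
        cases o with
        | none => exact absurd ho hB
        | some i => rfl
      rw [e1]
      exact h _
  · change (y : Finset ι → Λ) (Finset.eraseNone A) = _
    rw [e, Finset.sum_ite, Finset.sum_const_zero, zero_add]
    refine Finset.sum_nbij' (fun B => B.map Function.Embedding.some) Finset.eraseNone ?_ ?_ ?_ ?_ ?_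
    · intro B hB
      rw [Finset.mem_powerset] at hB
      simp only [Finset.mem_filter, Finset.mem_powerset]
      refine ⟨fun o ho => ?_, by simp⟩
      obtain ⟨i, hi, rfl⟩ := Finset.mem_map.1 ho
      exact Finset.mem_eraseNone.1 (hB hi)
    · intro B hB
      simp only [Finset.mem_filter, Finset.mem_powerset] at hB ⊢
      exact Finset.eraseNone.monotone hB.1
    · intro B _
      exact Finset.eraseNone_map_some B
    · intro B hB
      simp only [Finset.mem_filter] at hB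
      rw [Finset.map_some_eraseNone, Finset.erase_eq_of_notMem hB.2]
    · intro B _
      rw [Finset.eraseNone_map_some]

theorem cube_coef {M : Type} [AddCommGroup M] (H : AddSubgroup M) {c : Finset ι → M}
    (h : ∀ A : Finset ι, ∑ B ∈ A.powerset, c B ∈ H) (A : Finset ι) : c A ∈ H := by
  induction A using Finset.strongInduction with
  | H A ih =>
    have h1 := h A
    rw [← Finset.sum_erase_add _ _ (Finset.mem_powerset_self A)] at h1
    refine (H.add_mem_cancel_left (sum_mem fun B hB => ih B ?_)).1 h1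
    rw [Finset.mem_erase, Finset.mem_powerset] at hB
    exact Finset.ssubset_iff_subset_ne.2 ⟨hB.2, hB.1⟩

theorem cube_adic {R T : Type} [CommRing R] [Fintype T] (I : Ideal R) (ev : T → R →+* Λ) {ρ : ℝ}
    (hρ0 : 0 ≤ ρ) (hρ : ρ < 1) (hinj : ∀ y, (∀ t, ev t y = 0) → y = 0) (h1 : ∀ y t, ‖ev t y‖ ≤ 1)
    (hI : ∀ y ∈ I, ∀ t, ‖ev t y‖ ≤ ρ)
    (hs : ∀ n : ℕ, ∃ δ : ℝ, 0 < δ ∧ ∀ y, (∀ t, ‖ev t y‖ ≤ δ) → y ∈ I ^ n)
    (hc : ∀ f : ℕ → R, (∀ t, CauchySeq fun n => ev t (f n)) →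
      ∃ y, ∀ t, Filter.Tendsto (fun n => ev t (f n)) Filter.atTop (nhds (ev t y))) :
    IsAdicComplete I R := by
  have hn : ∀ (n : ℕ), ∀ y ∈ I ^ n, ∀ t, ‖ev t y‖ ≤ ρ ^ n := by
    intro n
    induction n with
    | zero => exact fun y _ t => by rw [pow_zero]; exact h1 y t
    | succ n ih =>
      intro y hy t
      rw [pow_succ] at hy
      refine Submodule.mul_induction_on hy (fun a ha b hb => ?_) fun a b ha hb => ?_
      · rw [map_mul, norm_mul, pow_succ]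
        exact mul_le_mul (ih a ha t) (hI b hb t) (norm_nonneg _) (by positivity)
      · rw [map_add]
        exact (IsUltrametricDist.norm_add_le_max _ _).trans (max_le ha hb)
  have e : ∀ (n : ℕ) (x y : R), x ≡ y [SMOD (I ^ n • ⊤ : Submodule R R)] ↔ x - y ∈ I ^ n := by
    intro n x y
    rw [SModEq.sub_mem, smul_eq_mul, Ideal.mul_top]
  have ht := tendsto_pow_atTop_nhds_zero_of_lt_one hρ0 hρ
  refine { haus' := fun x hx => hinj x fun t => ?_, prec' := fun f hf => ?_ }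
  · refine norm_le_zero_iff.1 (ge_of_tendsto' ht fun n => hn n x ?_ t)
    simpa using (e n x 0).1 (hx n)
  · obtain ⟨y, hy⟩ := hc f fun t => by
      refine cauchySeq_of_le_tendsto_0' (fun n => ρ ^ n) (fun n m hnm => ?_) ht
      rw [dist_eq_norm, ← map_sub]
      exact hn n _ ((e n _ _).1 (hf hnm)) t
    refine ⟨y, fun n => ?_⟩
    obtain ⟨δ, hδ, h2⟩ := hs n
    have h3 : ∀ᶠ m in Filter.atTop, ∀ t, ‖ev t (f m - y)‖ ≤ δ := by
      refine Filter.eventually_all.2 fun t => ?_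
      filter_upwards [Metric.tendsto_nhds.1 (hy t) δ hδ] with m hm
      rw [map_sub, ← dist_eq_norm]
      exact hm.le
    obtain ⟨m, hm, hm'⟩ := (h3.and (Filter.eventually_ge_atTop n)).exists
    exact (hf hm').trans ((e n _ _).2 (h2 _ hm))

theorem cube_isUnit (hk : ∀ i, 0 < k i) (y : CR L hπ k) : IsUnit y ↔ ‖evA ∅ y‖ = 1 := by
  constructor
  · intro h
    obtain ⟨z, hz⟩ := h.exists_right_inv
    have h1 : ‖evA ∅ y‖ * ‖evA ∅ z‖ = 1 := by rw [← norm_mul, ← map_mul, hz, map_one, norm_one]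
    have h2 := (mem_OL.1 (evA_mem ∅ y)).2
    have h3 := (mem_OL.1 (evA_mem ∅ z)).2
    nlinarith [norm_nonneg (evA ∅ y), norm_nonneg (evA ∅ z)]
  · intro h
    have h1 : ∀ A, IsUnit (cstC hπ k ⟨evA A y, evA_mem A y⟩) := by
      intro A
      refine IsUnit.map _ (OL_isUnit.2 ?_)
      rw [← h]
      refine norm_eq_of_sub_lt ?_
      rw [h, norm_sub_rev]
      exact evA_sub_lt hk A y
    have h2 : ∏ A, (cstC hπ k ⟨evA A y, evA_mem A y⟩ - y) = 0 := by
      refine Subtype.ext (funext fun A => ?_)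
      change evA A _ = 0
      rw [map_prod]
      exact Finset.prod_eq_zero (Finset.mem_univ A) (by rw [map_sub]; exact sub_self _)
    refine isUnit_of_dvd_unit ?_ (IsUnit.prod_univ_iff.2 h1)
    rw [← Ideal.mem_span_singleton, ← Ideal.Quotient.eq_zero_iff_mem, ← map_zero
      (Ideal.Quotient.mk (Ideal.span {y})), ← h2, map_prod, map_prod]
    refine Finset.prod_congr rfl fun A _ => ?_
    rw [map_sub, Ideal.Quotient.eq_zero_iff_mem.2 (Ideal.mem_span_singleton_self y), sub_zero]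

theorem cube_one_sub {x : Λ} (h : ‖x‖ ≤ 1) (h' : ‖x‖ ≠ 1) : ‖1 - x‖ = 1 := by
  have := norm_eq_of_sub_lt (x := (1 : Λ)) (y := 1 - x)
    (by rw [sub_sub_cancel, norm_one]; exact lt_of_le_of_ne h h')
  rwa [norm_one] at this

variable (Λ) in
/-- closed balls -/
def cubeBall {δ : ℝ} (h : 0 ≤ δ) : AddSubgroup Λ where
  carrier := {x | ‖x‖ ≤ δ}
  zero_mem' := by simpa using h
  add_mem' := fun h h' => (IsUltrametricDist.norm_add_le_max _ _).trans (max_le h h')
  neg_mem' := fun h => by simpa using h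

variable (Λ) in
/-- Cauchy sequences -/
def cubeCau : AddSubgroup (ℕ → Λ) where
  carrier := {u | CauchySeq u}
  zero_mem' := cauchySeq_const 0
  add_mem' := fun h h' => CauchySeq.add h h'
  neg_mem' := fun h => CauchySeq.neg h

theorem cube_div {ϖ : Λ} (hϖ : ϖ ∈ OL L) (h0 : ϖ ≠ 0) (n : ℕ) (y : CR L hπ k)
    (h : ∀ A, ‖evA A y‖ ≤ ‖ϖ‖ ^ n * ‖π‖ ^ ∑ i, k i) : cstC hπ k ⟨ϖ, hϖ⟩ ^ n ∣ y := by
  obtain ⟨c, hc, e⟩ := y.2
  have hp : 0 < ‖ϖ‖ ^ n := pow_pos (norm_pos_iff.2 h0) n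
  have h1 : ∀ B, ‖c B‖ ≤ ‖ϖ‖ ^ n * ‖π‖ ^ ∑ i, k i :=
    cube_coef (cubeBall Λ (by positivity)) fun A => by rw [← e]; exact h A
  refine ⟨⟨fun A => (ϖ ^ n)⁻¹ * evA A y, fun B => (ϖ ^ n)⁻¹ * c B, fun B => ⟨?_, ?_⟩,
    fun A => ?_⟩, Subtype.ext (funext fun A => ?_)⟩
  · exact L.mul_mem (L.inv_mem (pow_mem hϖ.1 n)) (hc B).1
  · rw [norm_mul, norm_inv, norm_pow, inv_mul_le_iff₀ hp]
    refine (h1 B).trans (mul_le_mul_of_nonneg_left ?_ hp.le)
    exact pow_le_pow_of_le_one (norm_nonneg _) hπ.le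
      (Finset.sum_le_sum_of_subset (Finset.subset_univ B))
  · dsimp only
    rw [evA_apply, e, Finset.mul_sum]
  · change evA A y = evA (L := L) (hπ := hπ) (k := k) A (_ * _)
    rw [map_mul, map_pow]
    exact (mul_inv_cancel_left₀ (pow_ne_zero n h0) _).symm

theorem cube_lim (hL : IsComplete (L : Set Λ)) (f : ℕ → CR L hπ k)
    (hf : ∀ A, CauchySeq fun n => evA A (f n)) :
    ∃ y : CR L hπ k, ∀ A, Filter.Tendsto (fun n => evA A (f n)) Filter.atTop (nhds (evA A y)) := by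
  choose c hc e using fun n => (f n).2
  have h1 : ∀ B, CauchySeq fun n => c n B := by
    refine cube_coef (cubeCau Λ) (c := fun B n => c n B) fun A => ?_
    have e1 : (∑ B ∈ A.powerset, fun n => c n B) = fun n => evA A (f n) := by
      funext n
      rw [Finset.sum_apply, evA_apply, e]
    rw [e1]
    exact hf A
  choose a ha ht using fun B => cauchySeq_tendsto_of_isComplete hL (fun n => (hc n B).1) (h1 B)
  refine ⟨⟨fun A => ∑ B ∈ A.powerset, a B, a, fun B => ⟨ha B, ?_⟩, fun _ => rfl⟩, fun A => ?_⟩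
  · exact le_of_tendsto' (ht B).norm fun n => (hc n B).2
  · simp only [evA_apply, e]
    exact tendsto_finsetSum _ fun B _ => ht B

end defs

variable {p : ℕ} {K Λ : Type} [Field K] [CharZero K] [NormedField Λ] [IsUltrametricDist Λ]
  [IsAlgClosed Λ] [Algebra K Λ] [IsGalois K Λ] [Loc p K Λ]

include p

theorem CR_local {ι : Type} [Fintype ι] (L : IntermediateField K Λ) [FiniteDimensional K L]
    {π : Λ} (hπ : ‖π‖ < 1) (h0 : π ≠ 0) {k : ι → ℕ} (hk : ∀ i, 0 < k i) :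
    ∃ _ : IsLocalRing (CR L hπ k),
      IsAdicComplete (IsLocalRing.maximalIdeal (CR L hπ k)) (CR L hπ k) ∧
        (∀ y : CR L hπ k, y ∈ IsLocalRing.maximalIdeal (CR L hπ k) ↔ ‖evA ∅ y‖ < 1) ∧
        ∀ y : CR L hπ k, IsUnit y ↔ ‖evA ∅ y‖ = 1 := by
  have : Nontrivial (CR L hπ k) := (evA (L := L) (hπ := hπ) (k := k) ∅).domain_nontrivial
  have hle : ∀ (y : CR L hπ k) A, ‖evA A y‖ ≤ 1 := fun y A => (mem_OL.1 (evA_mem A y)).2
  have hloc : IsLocalRing (CR L hπ k) := by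
    refine IsLocalRing.of_isUnit_or_isUnit_one_sub_self fun y => ?_
    by_cases h : ‖evA ∅ y‖ = 1
    · exact Or.inl ((cube_isUnit hk y).2 h)
    · refine Or.inr ((cube_isUnit hk _).2 ?_)
      rw [map_sub, map_one]
      exact cube_one_sub (hle y ∅) h
  have hm : ∀ y : CR L hπ k, y ∈ IsLocalRing.maximalIdeal (CR L hπ k) ↔ ‖evA ∅ y‖ < 1 := by
    intro y
    rw [IsLocalRing.mem_maximalIdeal, mem_nonunits_iff, cube_isUnit hk]
    exact ⟨lt_of_le_of_ne (hle y ∅), ne_of_lt⟩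
  obtain ⟨ϖ, h1, h2, h3, h4⟩ := Loc.unif (K := K) (Λ := Λ) L inferInstance
  refine ⟨hloc, ?_, hm, cube_isUnit hk⟩
  refine cube_adic _ (fun A => evA A) (norm_nonneg ϖ) h3
    (fun y h => Subtype.ext (funext h)) hle (fun y hy A => h4 _ (evA_mem A y).1 ?_) (fun n => ?_)
    (cube_lim (Loc.complete (K := K) (Λ := Λ) L inferInstance))
  · have := gal1_add_lt (evA_sub_lt hk A y) ((hm y).1 hy)
    rwa [sub_add_cancel] at this
  · refine ⟨‖ϖ‖ ^ n * ‖π‖ ^ ∑ i, k i,
      mul_pos (pow_pos (norm_pos_iff.2 h2) _) (pow_pos (norm_pos_iff.2 h0) _), fun y hy => ?_⟩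
    exact Ideal.mem_of_dvd _ (cube_div (mem_OL.2 ⟨h1, h3.le⟩) h2 n y hy)
      (Ideal.pow_mem_pow ((hm _).2 h3) n)

theorem OL_local (L : IntermediateField K Λ) [FiniteDimensional K L] :
    ∃ _ : IsLocalRing (OL L), IsAdicComplete (IsLocalRing.maximalIdeal (OL L)) (OL L) ∧
      ∀ y : OL L, y ∈ IsLocalRing.maximalIdeal (OL L) ↔ ‖(y : Λ)‖ < 1 := by
  have hle : ∀ y : OL L, ‖(y : Λ)‖ ≤ 1 := fun y => (mem_OL.1 y.2).2
  have hloc : IsLocalRing (OL L) := by
    refine IsLocalRing.of_isUnit_or_isUnit_one_sub_self fun y => ?_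
    by_cases h : ‖(y : Λ)‖ = 1
    · exact Or.inl (OL_isUnit.2 h)
    · exact Or.inr (OL_isUnit.2 (cube_one_sub (hle y) h))
  have hm : ∀ y : OL L, y ∈ IsLocalRing.maximalIdeal (OL L) ↔ ‖(y : Λ)‖ < 1 := by
    intro y
    rw [IsLocalRing.mem_maximalIdeal, mem_nonunits_iff, OL_isUnit]
    exact ⟨lt_of_le_of_ne (hle y), ne_of_lt⟩
  obtain ⟨ϖ, h1, h2, h3, h4⟩ := Loc.unif (K := K) (Λ := Λ) L inferInstance
  refine ⟨hloc, ?_, hm⟩
  refine cube_adic _ (fun _ : Unit => (OL L).subtype) (norm_nonneg ϖ) h3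
    (fun y h => Subtype.ext (h ())) (fun y _ => hle y)
    (fun y hy _ => h4 _ y.2.1 ((hm y).1 hy)) (fun n => ?_) fun f hf => ?_
  · have hp : 0 < ‖ϖ‖ ^ n := pow_pos (norm_pos_iff.2 h2) n
    refine ⟨‖ϖ‖ ^ n, hp, fun y hy => ?_⟩
    refine Ideal.mem_of_dvd _ ?_
      (Ideal.pow_mem_pow ((hm ⟨ϖ, mem_OL.2 ⟨h1, h3.le⟩⟩).2 h3) n)
    refine ⟨⟨(ϖ ^ n)⁻¹ * y, mem_OL.2 ⟨L.mul_mem (L.inv_mem (pow_mem h1 n)) y.2.1, ?_⟩⟩,
      Subtype.ext (mul_inv_cancel_left₀ (pow_ne_zero n h2) _).symm⟩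
    rw [norm_mul, norm_inv, norm_pow, inv_mul_le_iff₀ hp, mul_one]
    exact hy ()
  · obtain ⟨a, ha, ht⟩ := cauchySeq_tendsto_of_isComplete
      (Loc.complete (K := K) (Λ := Λ) L inferInstance) (fun n => (f n).2.1) (hf ())
    exact ⟨⟨a, mem_OL.2 ⟨ha, le_of_tendsto' ht.norm fun n => hle (f n)⟩⟩, fun _ => ht⟩

end Pool.Agent.ZeroCyc
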