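import Pool.Agent.Lib.MP_796ce4_ag.ZY.CvD

/-! Specialisation of divisors. -/

namespace Pool.Agent.ZeroCyc

open Polynomial Module
open scoped Classical IntermediateField PowerSeries

set_option linter.unusedSectionVars false

/-- extension of a map on a subring by zero -/
noncomputable def xt {𝕜 κ : Type} [Field 𝕜] [Field κ] (V : Subring 𝕜) (ψ : V →+* κ) (x : 𝕜) : κ :=
  if h : x ∈ V then ψ ⟨x, h⟩ else 0

variable {𝕜 κ : Type} [Field 𝕜] [IsAlgClosed 𝕜] [Field κ] [IsAlgClosed κ] {V : Subring 𝕜}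
  {ψ : V →+* κ} {b δ m : ℕ} {χ G : V[X][X]}

theorem xt_coe (V : Subring 𝕜) (ψ : V →+* κ) (x : V) : xt V ψ x = ψ x := by
  unfold xt
  rw [dif_pos x.2]

theorem cvs_ee_inj (Q : V × V) (G : V[X][X]) :
    ee (pm V.subtype Q) (mp V.subtype G) = 0 ↔ ee Q G = 0 := by
  rw [← map_ee]
  exact map_eq_zero_iff _ Subtype.val_injective

theorem cvs_et {Q : V × V} (hq : Et (mp ψ χ) (pm ψ Q)) (h0 : On χ Q) :
    Et (mp V.subtype χ) (pm V.subtype Q) := by
  refine ⟨(cvs_ee_inj Q χ).2 h0, fun h => hq.2 ?_⟩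
  rw [← mp_derivative] at h ⊢
  rw [← map_ee, (cvs_ee_inj Q _).1 h, map_zero]

theorem cvs_ee_mapC {R : Type} [CommRing R] (Q : R × R) (E : R[X]) :
    ee Q (E.map C) = E.eval Q.2 := by
  rw [ee_eq_eval, Polynomial.map_map]
  have : (evalRingHom Q.1).comp C = RingHom.id R := by
    ext x
    simp
  rw [this, map_id]

theorem cvs_split {R : Type} [CommRing R] {χ G : R[X][X]} {Q : R × R} (h0 : ee Q χ = 0)
    (h1 : ee Q G = 0) : ∃ (E : R[X]) (H Gn : R[X][X]),
      χ.map (evalRingHom Q.1) = (X - C Q.2) * E ∧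
        E.map C * G - C (X - C Q.1) * Gn = χ * H := by
  rw [ee_eq_eval] at h0 h1
  obtain ⟨E, hE⟩ := dvd_iff_isRoot.2 h0
  obtain ⟨H, hH⟩ := dvd_iff_isRoot.2 h1
  have hc : (evalRingHom Q.1).comp C = RingHom.id R := by
    ext x
    simp
  have hz : (E.map C * G - χ * H.map C).map (evalRingHom Q.1) = 0 := by
    rw [Polynomial.map_sub, Polynomial.map_mul, Polynomial.map_mul, Polynomial.map_map,
      Polynomial.map_map, hc, map_id, map_id, hE, hH]
    ring
  have hd : C (X - C Q.1) ∣ E.map C * G - χ * H.map C := by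
    rw [C_dvd_iff_dvd_coeff]
    intro i
    refine dvd_iff_isRoot.2 ?_
    have := congrArg (fun p => p.coeff i) hz
    simpa only [coeff_map, coeff_zero, coe_evalRingHom, IsRoot.def] using this
  obtain ⟨Gn, hGn⟩ := hd
  exact ⟨E, H.map C, Gn, hE, by rw [← hGn]; ring⟩

theorem cvs_der {R : Type} [CommRing R] {χ : R[X][X]} {Q : R × R} {E : R[X]}
    (hE : χ.map (evalRingHom Q.1) = (X - C Q.2) * E) :
    ee Q (derivative χ) = E.eval Q.2 := by
  rw [ee_eq_eval, ← derivative_map, hE, derivative_mul]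
  simp

theorem cvs_aux (hm : χ.Monic) {q : κ × κ} (hq : Et (mp ψ χ) q) (n : ℕ) :
    ∀ (G : V[X][X]) (Z : V × V →₀ ℕ), Z.degree = n → (∀ Q, Z Q ≠ 0 → pm ψ Q = q ∧ On χ Q ∧
      Van (mp V.subtype χ) (pm V.subtype Q) (Z Q) (mp V.subtype G)) →
      Van (mp ψ χ) q n (mp ψ G) := by
  induction n with
  | zero => exact fun _ _ _ _ => van_zero
  | succ n ih =>
    intro G Z hd hZ
    have hne : Z ≠ 0 := by
      rintro rfl
      simp at hd
    obtain ⟨Q, hQ⟩ := Finsupp.ne_iff.1 hne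
    have hQ : Z Q ≠ 0 := hQ
    obtain ⟨hq1, hon, hv⟩ := hZ Q hQ
    have hmg : (mp V.subtype χ).Monic := hm.map _
    have hms : (mp ψ χ).Monic := hm.map _
    have het : ∀ Q', Z Q' ≠ 0 → Et (mp V.subtype χ) (pm V.subtype Q') := fun Q' h =>
      cvs_et (ψ := ψ) (by rw [(hZ Q' h).1]; exact hq) (hZ Q' h).2.1
    have hG0 : ee Q G = 0 := (cvs_ee_inj Q G).1
      ((van_one hmg (het Q hQ)).1 (hv.mono (Nat.one_le_iff_ne_zero.2 hQ)))
    obtain ⟨E, H, Gn, hE, hid⟩ := cvs_split hon hG0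
    have hEq : ψ (E.eval Q.2) ≠ 0 := by
      rw [← cvs_der hE, map_ee, mp_derivative, hq1]
      exact hq.2
    have hq2 : ∀ Q', Z Q' ≠ 0 → ψ Q'.2 = q.2 := fun Q' h => congrArg Prod.snd (hZ Q' h).1
    have hle : Finsupp.single Q 1 ≤ Z := Finsupp.single_le_iff.2 (Nat.one_le_iff_ne_zero.2 hQ)
    obtain ⟨Z', rfl⟩ := exists_add_of_le hle
    have hd' : Z'.degree = n := by
      rw [map_add, Finsupp.degree_single] at hd
      omega
    have hI := ih Gn Z' hd' fun Q' h' => by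
      have h : (Finsupp.single Q 1 + Z' : V × V →₀ ℕ) Q' ≠ 0 := by
        rw [Finsupp.add_apply]
        omega
      obtain ⟨a1, a2, a3⟩ := hZ Q' h
      refine ⟨a1, a2, ?_⟩
      have hdv : mp V.subtype χ ∣ mp V.subtype (E.map C) * mp V.subtype G -
          C (X - C (Q.1 : 𝕜)) * mp V.subtype Gn := by
        have := congrArg (mp V.subtype) hid
        rw [map_sub, map_mul, map_mul, map_mul, mp_C, Polynomial.map_sub, map_X, map_C] at this
        exact ⟨_, this⟩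
      have a4 := (a3.mul_left (mp V.subtype (E.map C))).congr hmg (het Q' h) hdv
      obtain ⟨o1, o2⟩ := oq_C (mp V.subtype χ) (pm V.subtype Q') (X_sub_C_ne_zero (Q.1 : 𝕜))
      refine Van.cancel o1 (a4.mono ?_)
      rw [o2, Finsupp.add_apply, rootMultiplicity_X_sub_C]
      by_cases e : Q = Q'
      · subst e
        rw [Finsupp.single_eq_same]
        split_ifs <;> omega
      · rw [if_neg]
        · omega
        · intro e1
          have e1 : Q'.1 = Q.1 := Subtype.val_injective e1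
          have e2 : Q'.2 - Q.2 ≠ 0 := fun e2 => e (Prod.ext e1.symm (sub_eq_zero.1 e2).symm)
          have a5 : ee Q' χ = 0 := a2
          rw [ee_eq_eval, e1, hE, eval_mul, eval_sub, eval_X, eval_C] at a5
          have a6 := (mul_eq_zero.1 a5).resolve_left e2
          apply hEq
          rw [← eval₂_hom, hq2 Q hQ, ← hq2 Q' h, eval₂_hom, a6, map_zero]
    have hq1' : ψ Q.1 = q.1 := congrArg Prod.fst hq1
    have hdv : mp ψ χ ∣ C (X - C q.1) * mp ψ Gn - mp ψ (E.map C) * mp ψ G := by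
      have := congrArg (mp ψ) hid
      rw [map_sub, map_mul, map_mul, map_mul, mp_C, Polynomial.map_sub, map_X, map_C, hq1'] at this
      exact dvd_sub_comm.1 ⟨_, this⟩
    have h1 : Van (mp ψ χ) q 1 (C (X - C q.1)) := by
      rw [van_one hms hq, ee_C]
      simp
    have h2 := (h1.mul hI).congr hms hq hdv
    have h3 : ee q (mp ψ (E.map C)) ≠ 0 := by
      rw [← hq1, ← map_ee, cvs_ee_mapC]
      exact hEq
    obtain ⟨o1, o2⟩ := oq_eq_zero hms hq h3
    refine Van.cancel o1 (h2.mono ?_)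
    omega

/-- the order at a point of the special fibre bounds the sum of the orders in its disc -/
theorem van_spec (hm : χ.Monic) {q : κ × κ} (hq : Et (mp ψ χ) q) (Z : V × V →₀ ℕ)
    (hZ : ∀ Q, Z Q ≠ 0 → pm ψ Q = q ∧ On χ Q ∧
      Van (mp V.subtype χ) (pm V.subtype Q) (Z Q) (mp V.subtype G)) :
    Van (mp ψ χ) q Z.degree (mp ψ G) := cvs_aux hm hq _ G Z rfl hZ

theorem dv_spec (hχ : Wt b δ χ) (h : Lead b m G)
    (hz : ∀ Q, On (mp V.subtype χ) Q → ee Q (mp V.subtype G) = 0 → Q.1 ∈ V ∧ Q.2 ∈ V)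
    (ha : Adm (mp ψ χ) (mp ψ G)) :
    Adm (mp V.subtype χ) (mp V.subtype G) ∧
      dv (mp ψ χ) (mp ψ G) = psh (pm (xt V ψ)) (dv (mp V.subtype χ) (mp V.subtype G)) := by
  have hχg := hχ.map V.subtype
  have hg := h.map V.subtype
  have hχs := hχ.map ψ
  have hs' := h.map ψ
  have hlift : ∀ Q, On (mp V.subtype χ) Q → ee Q (mp V.subtype G) = 0 →
      ∃ Q0 : V × V, pm V.subtype Q0 = Q ∧ On χ Q0 ∧ Et (mp ψ χ) (pm ψ Q0) := fun Q a1 a2 => by
    obtain ⟨b1, b2⟩ := hz Q a1 a2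
    have e : pm V.subtype ((⟨Q.1, b1⟩, ⟨Q.2, b2⟩) : V × V) = Q := rfl
    rw [← e] at a1 a2
    have c1 := (cvs_ee_inj _ χ).1 a1
    have c2 := (cvs_ee_inj _ G).1 a2
    refine ⟨_, e, c1, ha _ ?_ ?_⟩
    · show ee _ _ = 0
      rw [← map_ee, c1, map_zero]
    · rw [← map_ee, c2, map_zero]
  have hadm : Adm (mp V.subtype χ) (mp V.subtype G) := fun Q a1 a2 => by
    obtain ⟨Q0, rfl, c1, c2⟩ := hlift Q a1 a2
    exact cvs_et c2 c1
  refine ⟨hadm, (hs'.dv_eq hχs ?_ ?_).1⟩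
  swap
  · rw [degree_psh]
    exact (hg.degree_dv_eq_iff hχg).2 hadm
  set D := dv (mp V.subtype χ) (mp V.subtype G) with hD
  have hinj : Function.Injective (pm V.subtype : V × V → 𝕜 × 𝕜) :=
    Subtype.val_injective.prodMap Subtype.val_injective
  have hsup : ∀ Q, D Q ≠ 0 →
      ∃ Q0 : V × V, pm V.subtype Q0 = Q ∧ On χ Q0 ∧ Et (mp ψ χ) (pm ψ Q0) := fun Q a => by
    obtain ⟨a1, a2⟩ := (hg.dv_ne_zero hχg).1 a
    exact hlift Q a1.1 a2
  let D0 : V × V →₀ ℤ := Finsupp.comapDomain (pm V.subtype) D hinj.injOn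
  have hD0 : ∀ Q, D0 Q = D (pm V.subtype Q) := fun Q => rfl
  have hDD : psh (pm V.subtype) D0 = D :=
    Finsupp.mapDomain_comapDomain _ hinj D fun Q a => by
      obtain ⟨Q0, e, -⟩ := hsup Q (Finsupp.mem_support_iff.1 a)
      exact ⟨Q0, e⟩
  have hP : psh (pm (xt V ψ)) D = psh (pm ψ) D0 := by
    rw [← hDD, psh_psh]
    exact psh_congr fun x _ => Prod.ext (xt_coe V ψ x.1) (xt_coe V ψ x.2)
  have hs0 : ∀ Q, D0 Q ≠ 0 → On χ Q ∧ Et (mp ψ χ) (pm ψ Q) := fun Q a => by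
    obtain ⟨Q0, e, c⟩ := hsup _ a
    rwa [hinj e] at c
  rw [hP]
  intro q hq
  obtain ⟨x, hx, rfl⟩ := psh_ne_zero hq
  refine ⟨(hs0 x hx).2, ?_⟩
  let Z : V × V →₀ ℕ := (D0.filter fun Q => pm ψ Q = pm ψ x).mapRange Int.toNat rfl
  have hZ : ∀ Q, Z Q = if pm ψ Q = pm ψ x then (D0 Q).toNat else 0 := fun Q => by
    show ((D0.filter fun Q => pm ψ Q = pm ψ x) Q).toNat = _
    rw [Finsupp.filter_apply]
    split_ifs <;> rfl
  have hn : ∀ Q, 0 ≤ D0 Q := fun Q => dv_nonneg _ _ _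
  have hdeg : (psh (pm ψ) D0 (pm ψ x)).toNat = Z.degree := by
    have e1 : psh (pm ψ) D0 (pm ψ x) = ∑ Q ∈ D0.support, (Z Q : ℤ) := by
      show Finsupp.mapDomain (pm ψ) D0 (pm ψ x) = _
      rw [Finsupp.mapDomain, Finsupp.sum_apply, Finsupp.sum]
      refine Finset.sum_congr rfl fun Q _ => ?_
      rw [Finsupp.single_apply, hZ]
      split_ifs
      · exact (Int.toNat_of_nonneg (hn Q)).symm
      · rfl
    have e2 : Z.degree = ∑ Q ∈ D0.support, Z Q := by
      rw [Finsupp.degree_apply]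
      refine Finset.sum_subset (fun Q a => ?_) fun Q _ a => Finsupp.notMem_support_iff.1 a
      rw [Finsupp.mem_support_iff] at a ⊢
      intro e
      apply a
      rw [hZ, e]
      split_ifs <;> rfl
    rw [e1, e2, ← Nat.cast_sum, Int.toNat_natCast]
  rw [hdeg]
  refine van_spec hχ.monic (hs0 x hx).2 Z fun Q a => ?_
  rw [hZ] at a ⊢
  by_cases e : pm ψ Q = pm ψ x
  · rw [if_pos e] at a ⊢
    have a' : D0 Q ≠ 0 := fun e' => a (by rw [e']; rfl)
    exact ⟨e, (hs0 Q a').1, (hg.vanZ_dv hχg _ a').2⟩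
  · exact absurd (if_neg e) a

end Pool.Agent.ZeroCyc
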