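import Pool.Agent.Lib.MP_796ce4_ag.ZY.Base

/-! The group-theoretic criterion. -/

namespace Pool.Agent.ZeroCyc

open Polynomial Module
open scoped Classical IntermediateField

set_option linter.unusedSectionVars false

theorem gt2_appr {p : ℕ} [Fact p.Prime] (k : ℕ) (c : ℤ_[p]) :
    ∃ μ : ℤ_[p], c = (c.appr k : ℕ) + (p : ℤ_[p]) ^ k * μ := by
  obtain ⟨μ, h⟩ := Ideal.mem_span_singleton.1 (PadicInt.appr_spec k c)
  exact ⟨μ, by linear_combination h⟩

theorem gt2_fin {p : ℕ} [Fact p.Prime] {T : Type} [AddCommGroup T] [Module ℤ_[p] T]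
    [Module.Finite ℤ_[p] T] (h : ∀ t : T, ∃ c : ℤ_[p], c ≠ 0 ∧ c • t = 0) : Finite T := by
  have h' : ∀ t : T, ∃ k : ℕ, (p : ℤ_[p]) ^ k • t = 0 := fun t => by
    obtain ⟨c, hc, e⟩ := h t
    refine ⟨c.valuation, ?_⟩
    rw [PadicInt.unitCoeff_spec hc, mul_smul] at e
    exact (PadicInt.unitCoeff hc).isUnit.smul_eq_zero.1 e
  obtain ⟨n, g, hg⟩ := Module.Finite.exists_fin' ℤ_[p] T
  choose k hk using h'
  refine Finite.of_surjective (fun d : (i : Fin n) → Fin (p ^ k (g (Pi.single i 1))) =>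
    ∑ i, ((d i : ℕ) : ℤ_[p]) • g (Pi.single i 1)) fun t => ?_
  obtain ⟨c, rfl⟩ := hg t
  refine ⟨fun i => ⟨(c i).appr _, PadicInt.appr_lt _ _⟩, ?_⟩
  have e : c = ∑ i, c i • (Pi.single i 1 : Fin n → ℤ_[p]) := by
    ext j
    simp [Pi.single_apply]
  conv_rhs => rw [e, map_sum]
  refine Finset.sum_congr rfl fun i _ => ?_
  obtain ⟨μ, hμ⟩ := gt2_appr (k (g (Pi.single i 1))) (c i)
  rw [map_smul]
  conv_rhs => rw [hμ, add_smul, mul_comm, mul_smul, hk, smul_zero, add_zero]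

/-- a homomorphism from `ℤ_[p]` given by its values on `1` and on `p ^ a ℤ_[p]` -/
theorem gt2_hom {p : ℕ} [Fact p.Prime] {A : Type} [AddCommGroup A] (a : ℕ) (b : A)
    (ψ : ℤ_[p] →+ A) (h : ψ 1 = p ^ a • b) :
    ∃ φ : ℤ_[p] →+ A, ∀ (k : ℕ) (μ : ℤ_[p]), φ (k + (p : ℤ_[p]) ^ a * μ) = k • b + ψ μ := by
  let F : ℤ × ℤ_[p] →+ ℤ_[p] :=
    (Int.castAddHom ℤ_[p]).coprod (AddMonoidHom.mulLeft ((p : ℤ_[p]) ^ a))
  let G : ℤ × ℤ_[p] →+ A := (zmultiplesHom A b).coprod ψ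
  have hF : ∀ x : ℤ × ℤ_[p], F x = x.1 + (p : ℤ_[p]) ^ a * x.2 := fun x => rfl
  have hG : ∀ x : ℤ × ℤ_[p], G x = x.1 • b + ψ x.2 := fun x => rfl
  have hs : Function.Surjective F := fun c => by
    obtain ⟨μ, hμ⟩ := gt2_appr a c
    exact ⟨((c.appr a : ℕ), μ), by rw [hF, Int.cast_natCast]; exact hμ.symm⟩
  have hk : F.ker ≤ G.ker := by
    rintro ⟨k, μ⟩ hx
    rw [AddMonoidHom.mem_ker, hF] at hx
    rw [AddMonoidHom.mem_ker, hG]
    obtain ⟨j, hj⟩ := (PadicInt.pow_p_dvd_int_iff a k).1 ⟨-μ, by linear_combination hx⟩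
    have hp : (p : ℤ_[p]) ^ a ≠ 0 := pow_ne_zero _ (Nat.cast_ne_zero.2 (Fact.out : p.Prime).ne_zero)
    have e : μ = (-j) • (1 : ℤ_[p]) := by
      refine mul_left_cancel₀ hp ?_
      simp only [hj] at hx
      push_cast at hx
      simp only [zsmul_eq_mul, Int.cast_neg, mul_one]
      linear_combination hx
    simp only
    rw [e, map_zsmul, h, hj, ← natCast_zsmul, smul_smul, ← add_smul]
    push_cast
    rw [show (p : ℤ) ^ a * j + -j * (p : ℤ) ^ a = 0 by ring, zero_smul]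
  refine ⟨F.liftOfSurjective hs ⟨G, hk⟩, fun k μ => ?_⟩
  have := F.liftOfRightInverse_comp_apply _ (Function.rightInverse_surjInv hs) ⟨G, hk⟩ ((k : ℤ), μ)
  rw [hF, Int.cast_natCast] at this
  exact this.trans (by rw [hG, natCast_zsmul])

theorem gt2_split {A N H : Type} [AddCommGroup A] [AddCommGroup N] [AddCommGroup H] (g : A →+ N)
    (σ : H →+ A) (h1 : Function.Injective fun c => g (σ c)) (h2 : ∀ x, ∃ c, g (σ c) = g x) :
    Nonempty (A ≃+ H × g.ker) := by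
  refine ⟨(AddEquiv.ofBijective (σ.coprod g.ker.subtype) ⟨?_, fun x => ?_⟩).symm⟩
  · rw [injective_iff_map_eq_zero]
    rintro ⟨c, t⟩ e
    have e1 : σ c + (t : A) = 0 := e
    have e2 : g (σ c) = g (σ 0) := by
      have := congrArg g e1
      rwa [map_add, t.2, add_zero, ← map_zero σ] at this
    obtain rfl : c = 0 := h1 e2
    rw [map_zero, zero_add] at e1
    exact Prod.ext rfl (Subtype.ext e1)
  · obtain ⟨c, hc⟩ := h2 x
    refine ⟨(c, ⟨x - σ c, by rw [AddMonoidHom.mem_ker, map_sub, hc, sub_self]⟩), ?_⟩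
    show σ c + (x - σ c) = x
    abel

/-- a group with a finitely generated `ℤ_[p]`-module as a subgroup of finite index -/
theorem GT2 {p : ℕ} [Fact p.Prime] {A M : Type} [AddCommGroup A] [AddCommGroup M] [Module ℤ_[p] M]
    [Module.Finite ℤ_[p] M] (f : M →+ A) (hf : Function.Injective f) [f.range.FiniteIndex] :
    ∃ (n : ℕ) (F : Type) (_ : AddCommGroup F) (_ : Finite F),
      Nonempty (A ≃+ (Fin n → ℤ_[p]) × F) := by
  have hm0 : f.range.index ≠ 0 := AddSubgroup.FiniteIndex.index_ne_zero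
  obtain ⟨a, m', hm', hm⟩ :=
    Nat.exists_eq_pow_mul_and_not_dvd hm0 p (Fact.out : p.Prime).ne_one
  set m := f.range.index with hmdef
  have hu : IsUnit (m' : ℤ_[p]) := PadicInt.isUnit_iff.2 (PadicInt.norm_natCast_eq_one_iff.2
    ((Nat.Prime.coprime_iff_not_dvd (Fact.out : p.Prime)).2 hm'))
  obtain ⟨w, hw⟩ := hu.exists_right_inv
  have hex : ∀ x : A, ∃ y, f y = m • x := fun x => f.range.nsmul_index_mem x
  choose G0 hG0 using hex
  let G : A →+ M := AddMonoidHom.mk' G0 fun x y => hf (by rw [map_add, hG0, hG0, hG0, smul_add])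
  have hG : ∀ x, f (G x) = m • x := hG0
  have hGf : ∀ y, G (f y) = m • y := fun y => hf (by rw [hG, map_nsmul])
  let T := Submodule.torsion ℤ_[p] M
  let g : A →+ M ⧸ T := T.mkQ.toAddMonoidHom.comp G
  have hg : ∀ x, g x = T.mkQ (G x) := fun x => rfl
  have hgf : ∀ y, g (f y) = (m : ℤ_[p]) • T.mkQ y := fun y => by
    rw [hg, hGf, map_nsmul, Nat.cast_smul_eq_nsmul]
  have hmc : (m : ℤ_[p]) = (p : ℤ_[p]) ^ a * m' := by rw [hm]; push_cast; rfl
  have hTfin : Finite T := gt2_fin (p := p) fun t => by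
    obtain ⟨c, hc⟩ := t.2
    exact ⟨c, nonZeroDivisors.coe_ne_zero c, Subtype.ext hc⟩
  have hK : Finite g.ker := by
    refine (AddSubgroup.finite_iff_finite_and_finiteIndex (f.range.addSubgroupOf g.ker)).2
      ⟨?_, inferInstance⟩
    have hy : ∀ x : f.range.addSubgroupOf g.ker, ∃ t : T, f t = x.1.1 := by
      intro x
      obtain ⟨y, hy⟩ : ∃ y, f y = x.1.1 := x.2
      have h1 : (m : ℤ_[p]) • T.mkQ y = 0 := by rw [← hgf, hy]; exact x.1.2
      have h2 : T.mkQ y = 0 := (smul_eq_zero.1 h1).resolve_left (Nat.cast_ne_zero.2 hm0)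
      exact ⟨⟨y, (Submodule.Quotient.mk_eq_zero T).1 h2⟩, hy⟩
    choose t ht using hy
    exact Finite.of_injective t fun x x' e => Subtype.ext (Subtype.ext (by rw [← ht, ← ht, e]))
  let H : Submodule ℤ_[p] (M ⧸ T) :=
    { g.range with
      smul_mem' := by
        rintro c _ ⟨x, rfl⟩
        obtain ⟨μ, hμ⟩ := gt2_appr a c
        refine ⟨c.appr a • x + f ((w * μ) • G x), ?_⟩
        rw [map_add, map_nsmul, hgf, map_smul, ← hg, smul_smul, ← Nat.cast_smul_eq_nsmul ℤ_[p],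
          ← add_smul]
        congr 1
        rw [hmc]
        linear_combination -hμ + (p : ℤ_[p]) ^ a * μ * hw }
  have hφ : ∀ h : H, ∃ φ : ℤ_[p] →+ A, ∀ c, g (φ c) = c • (h : M ⧸ T) := fun h => by
    obtain ⟨x, hx⟩ : ∃ x, g x = w • (h : M ⧸ T) := (w • h).2
    obtain ⟨φ, hφ⟩ := gt2_hom (p := p) a (m' • x)
      (f.comp (LinearMap.toSpanSingleton ℤ_[p] M (G x)).toAddMonoidHom) (by
        show f ((1 : ℤ_[p]) • G x) = _
        rw [one_smul, hG, hm, mul_smul])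
    refine ⟨φ, fun c => ?_⟩
    obtain ⟨μ, hμ⟩ := gt2_appr a c
    rw [hμ, hφ, map_add, map_nsmul, map_nsmul]
    show _ + g (f (μ • G x)) = _
    rw [hgf, map_smul, ← hg, hx, ← Nat.cast_smul_eq_nsmul ℤ_[p], ← Nat.cast_smul_eq_nsmul ℤ_[p]]
    simp only [smul_smul, ← add_smul]
    congr 1
    rw [hmc]
    linear_combination ((c.appr a : ℤ_[p]) + (p : ℤ_[p]) ^ a * μ) * hw
  choose φ hφ using hφ
  let b := Module.finBasis ℤ_[p] H
  let σ : (Fin (finrank ℤ_[p] H) → ℤ_[p]) →+ A :=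
    ∑ i, (φ (b i)).comp (Pi.evalAddMonoidHom (fun _ => ℤ_[p]) i)
  have hσ : ∀ c, g (σ c) = (b.equivFun.symm c : H) := fun c => by
    rw [Basis.equivFun_symm_apply, Submodule.coe_sum, AddMonoidHom.finsetSum_apply, map_sum]
    exact Finset.sum_congr rfl fun i _ => hφ _ _
  refine ⟨_, g.ker, inferInstance, hK, gt2_split g σ (fun c c' e => ?_) fun x => ?_⟩
  · simp only [hσ] at e
    exact b.equivFun.symm.injective (Subtype.ext e)
  · exact ⟨b.equivFun ⟨g x, x, rfl⟩, by rw [hσ, LinearEquiv.symm_apply_apply]⟩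

end Pool.Agent.ZeroCyc
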