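import Pool.Agent.Lib.MP_796ce4_ag.ZY.Gen
import Pool.Agent.Lib.MP_796ce4_ag.ZY.Grp
import Pool.Agent.Lib.MP_796ce4_ag.ZY.Orb
import Pool.Agent.Lib.MP_796ce4_ag.ZY.GT

/-! Combination of the data of several charts. -/

namespace Pool.Agent.ZeroCyc

open Polynomial Module
open scoped Classical IntermediateField PowerSeries

set_option linter.unusedSectionVars false

variable {p : ℕ} {K Λ : Type} [Field K] [CharZero K] [NormedField Λ] [IsUltrametricDist Λ]
  [IsAlgClosed Λ] [Algebra K Λ] [IsGalois K Λ] [Loc p K Λ] [Fact p.Prime] [CharP (kk Λ) p]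

variable {N : ℕ} {J : Ideal (MvPolynomial (Fin (N + 1)) K)}

/-- what a chart over `B` provides -/
structure Pack (p : ℕ) (J : Ideal (MvPolynomial (Fin (N + 1)) K)) (B : IntermediateField K Λ)
    (V U : AddSubgroup (VV Λ J)) : Prop where
  le0 : V ≤ Azero Λ J
  nice : ∀ x ∈ V, Nice p V x
  fin : FinMod V (mulS p V)
  leA : U ≤ Atot Λ J
  finU : FinMod U V
  tor : ∀ x ∈ U, x.2 = 0 → ∃ m : ℕ, 0 < m ∧ m • x ∈ V
  pts : ∀ L : IntermediateField K Λ, B ≤ L → FiniteDimensional K L → ∀ y, XP J L y →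
    clL J L (Finsupp.single y 1) ∈ U

variable (T : Tower p (⊥ : IntermediateField K Λ))

theorem pack_pt {g j : ℕ} (hg : 0 < g) (hj : 0 < j) {V U : AddSubgroup (VV Λ J)}
    (h : Pack p J (T.U (g * j)) V U) {L : IntermediateField K Λ} [FiniteDimensional K L]
    (hL : T.U g ≤ L) {y : PY Λ N} (hy : XP J L y) :
    ∃ c, c ∣ j ∧ c • clL J L (Finsupp.single y 1) ∈ U := by
  obtain ⟨hfin, c, hc, e⟩ := T.finrank_sup hg hj hL
  refine ⟨c, hc, ?_⟩
  rw [← clL_eq_nsmul e]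
  exact h.pts _ le_sup_right hfin y (hy.mono le_sup_left)

theorem pack_tot {m : ℕ} (hm : 0 < m) {V U : AddSubgroup (VV Λ J)} (h : Pack p J (T.U m) V U)
    {x : VV Λ J} (hx : x ∈ Atot Λ J) : m • x ∈ U := by
  induction hx using AddSubgroup.closure_induction with
  | mem x hx =>
    obtain ⟨L, y, hL, hy, rfl⟩ := hx
    have h' : Pack p J (T.U (1 * m)) V U := by rwa [one_mul]
    obtain ⟨c, ⟨d, rfl⟩, hc⟩ := pack_pt T one_pos hm h' (L := L) (by rw [T.U_one]; exact bot_le) hy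
    rw [mul_comm, mul_smul]
    exact U.nsmul_mem hc d
  | zero => rw [smul_zero]; exact zero_mem _
  | add x y _ _ hx hy => exact (nsmul_add x y m).symm ▸ add_mem hx hy
  | neg x _ hx => exact (neg_nsmul x m).symm ▸ neg_mem hx

theorem pack_nice_mono {W : Type} [AddCommGroup W] {H H' : AddSubgroup W} {x : W}
    (h : Nice p H x) (hH : H ≤ H') : Nice p H' x :=
  ⟨hH h.mem, fun m hm => mulS_mono m hH (h.div m hm), h.ser.mono hH⟩

theorem Pack.gcd {m m' : ℕ} (hm : 0 < m) (hm' : 0 < m') {V U V' U' : AddSubgroup (VV Λ J)}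
    (h : Pack p J (T.U m) V U) (h' : Pack p J (T.U m') V' U') :
    Pack p J (T.U (m.gcd m')) (V ⊔ V') (U ⊔ U') := by
  refine ⟨sup_le h.le0 h'.le0, fun x hx => ?_,
    (h.fin.mono (mulS_mono p le_sup_left)).sup (h'.fin.mono (mulS_mono p le_sup_right)),
    sup_le h.leA h'.leA, (h.finU.mono le_sup_left).sup (h'.finU.mono le_sup_right),
    fun x hx h0 => ?_, fun L hL hfin y hy => ?_⟩
  · obtain ⟨a, ha, b, hb, rfl⟩ := AddSubgroup.mem_sup.1 hx
    exact (pack_nice_mono (h.nice a ha) le_sup_left).add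
      (pack_nice_mono (h'.nice b hb) le_sup_right)
  · obtain ⟨k, hk, hkx⟩ := h.tor (m • x) (pack_tot T hm h (sup_le h.leA h'.leA hx))
      (by rw [Prod.smul_snd, h0, smul_zero])
    refine ⟨k * m, Nat.mul_pos hk hm, ?_⟩
    rw [mul_smul]
    exact AddSubgroup.mem_sup_left hkx
  · have hg : 0 < m.gcd m' := Nat.gcd_pos_of_pos_left _ hm
    obtain ⟨j, j', hco, e, e'⟩ := Nat.exists_coprime m m'
    rw [mul_comm] at e e'
    have hj : 0 < j := Nat.pos_of_mul_pos_left (e ▸ hm)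
    have hj' : 0 < j' := Nat.pos_of_mul_pos_left (e' ▸ hm')
    obtain ⟨c, hc, hcU⟩ := pack_pt T hg hj (V := V) (U := U) (by rw [← e]; exact h) hL hy
    obtain ⟨c', hc', hcU'⟩ := pack_pt T hg hj' (V := V') (U := U') (by rw [← e']; exact h') hL hy
    refine mem_of_coprime fun l hl => ?_
    by_cases h1 : l ∣ c
    · refine ⟨c', fun h2 => hl.one_lt.ne' ?_, AddSubgroup.mem_sup_right hcU'⟩
      exact Nat.eq_one_of_dvd_coprimes hco (h1.trans hc) (h2.trans hc')
    · exact ⟨c, h1, AddSubgroup.mem_sup_left hcU⟩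

theorem zp_of_pack (h : ∀ (L : IntermediateField K Λ) (y : PY Λ N), FiniteDimensional K L →
    XP J L y → ∃ n, 0 < n ∧ T.U n ≤ L ∧ ∀ l, 2 ≤ l →
      ∃ i V U, Pack p J (T.U (n * l ^ i)) V U) :
    ∃ (n : ℕ) (F : Type) (_ : AddCommGroup F) (_ : Finite F),
      Nonempty ((Azero Λ J ⧸ maxDiv (Azero Λ J)) ≃+ (Fin n → ℤ_[p]) × F) := by
  have h' : ∀ (L : IntermediateField K Λ) (y : PY Λ N), FiniteDimensional K L →
      XP J L y → ∃ n, 0 < n ∧ T.U n ≤ L ∧ ∃ V U, Pack p J (T.U n) V U := by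
    intro L y hL hy
    obtain ⟨n, hn, hnL, hj⟩ := h L y hL hy
    obtain ⟨i, V, U, h1⟩ := hj 2 le_rfl
    obtain ⟨i', V', U', h2⟩ := hj 3 (by omega)
    have h3 := Pack.gcd T (Nat.mul_pos hn (by positivity)) (Nat.mul_pos hn (by positivity)) h1 h2
    have hco : Nat.gcd (2 ^ i) (3 ^ i') = 1 := Nat.Coprime.pow i i' (by norm_num)
    rw [Nat.gcd_mul_left, hco, mul_one] at h3
    exact ⟨n, hn, hnL, _, _, h3⟩
  by_cases hex : ∃ g, 0 < g ∧ ∃ V U, Pack p J (T.U g) V U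
  · obtain ⟨hg, V, U, hP⟩ := Nat.find_spec hex
    have hA : Atot Λ J ≤ U := by
      refine (AddSubgroup.closure_le _).2 ?_
      rintro _ ⟨L, y, hL, hy, rfl⟩
      obtain ⟨n, hn, hnL, V', U', hP'⟩ := h' L y hL hy
      have h1 : Nat.find hex ≤ (Nat.find hex).gcd n :=
        Nat.find_min' hex ⟨Nat.gcd_pos_of_pos_left _ hg, _, _, Pack.gcd T hg hn hP hP'⟩
      have h2 : Nat.find hex ∣ n := by
        rw [← le_antisymm (Nat.gcd_le_left n hg) h1]
        exact Nat.gcd_dvd_right _ _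
      exact hP.pts L ((T.mono hg hn h2).trans hnL) hL y hy
    have hA0 : Azero Λ J ≤ U := inf_le_left.trans hA
    obtain ⟨s, hs, hgen, hser⟩ := exists_ser hP.fin fun x hx =>
      ⟨x, hx, (hP.nice x hx).ser, by rw [sub_self]; exact zero_mem _⟩
    exact GT (Azero Λ J) V hP.le0
      (fin_of_torsion hP.finU hA0 fun a ha => hP.tor a (hA0 ha) ha.2)
      (fun m hm x hx => (hP.nice x hx).div m hm) s hs hgen hser
  · have hA : Atot Λ J ≤ ⊥ := by
      refine (AddSubgroup.closure_le _).2 ?_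
      rintro _ ⟨L, y, hL, hy, rfl⟩
      obtain ⟨n, hn, -, hP⟩ := h' L y hL hy
      exact absurd ⟨n, hn, hP⟩ hex
    exact GT (Azero Λ J) ⊥ bot_le
      ⟨{0}, fun a ha => ⟨0, Finset.mem_singleton_self _, by
        rw [sub_zero]; exact hA ha.1⟩⟩
      (fun _ _ => bot_le) ∅ (by simp) bot_le (by simp)

end Pool.Agent.ZeroCyc
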