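import Pool.Agent.Lib.MP_796ce4_ag.ZY.ChartB
import Pool.Agent.Lib.MP_796ce4_ag.ZY.Orb
import Pool.Agent.Lib.MP_796ce4_ag.ZY.Grp

/-! The filtration of a chart: basic properties and the finiteness of the graded pieces. -/

namespace Pool.Agent.ZeroCyc

open Polynomial Module
open scoped Classical IntermediateField PowerSeries

set_option linter.unusedSectionVars false

variable {p : ℕ} {K Λ : Type} [Field K] [CharZero K] [NormedField Λ] [IsUltrametricDist Λ]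
  [IsAlgClosed Λ] [Algebra K Λ] [IsGalois K Λ] [Loc p K Λ] [Fact p.Prime] [CharP (kk Λ) p]

variable {N : ℕ} {J : Ideal (MvPolynomial (Fin (N + 1)) K)} {B : IntermediateField K Λ}

namespace Chart

variable {𝒞 : Chart J B} {T : Tower p B} {n s s' w w' : ℕ} {y y' : Fin 𝒞.d → Λ} {h h' : Λ}
  {H : AddSubgroup (VV Λ J)}

variable (𝒞 T) in
/-- the filtration of affine space over `U n` -/
abbrev fl (n : ℕ) : ℕ → AddSubgroup (Fin 𝒞.d → Λ) := piFil 𝒞.d (fl1 (T.U n) T.π)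

theorem mem_fl {k : ℕ} {v : Fin 𝒞.d → Λ} :
    v ∈ 𝒞.fl T n k ↔ ∀ i, v i ∈ T.U n ∧ ‖v i‖ ≤ ‖T.π‖ ^ k :=
  (AddSubgroup.mem_pi _).trans ⟨fun h i => h i trivial, fun h i _ => h i⟩
theorem fl_anti : Antitone (𝒞.fl T n) := piFil_anti T.π_lt _
theorem mem_fl_one (hn : 0 < n) {v : Fin 𝒞.d → Λ} :
    v ∈ 𝒞.fl T n 1 ↔ ∀ i, v i ∈ T.U n ∧ ‖v i‖ < 1 := by
  rw [mem_fl, pow_one]
  exact forall_congr' fun i => and_congr_right fun hi =>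
    ⟨fun h => h.trans_lt T.π_lt, T.π_max_U hn hi⟩
theorem sigb_move {y₀ : Fin 𝒞.d → Λ} (hg : 𝒞.GdL (T.U n) y₀ h) (hy : y - y₀ ∈ 𝒞.fl T n 1) :
    𝒞.GdL (T.U n) y (𝒞.hen h y) ∧ 𝒞.Jm (𝒞.hen h y) = 𝒞.Jm h := by
  have h1 : ∀ i, ‖y i - y₀ i‖ < 1 := fun i =>
    ((mem_fl.1 hy i).2.trans_eq (pow_one _)).trans_lt T.π_lt
  refine ⟨hg.hen (T.le n) h1 fun i => ?_, Jm_congr (hg.gd.ep.hen_spec h1).2⟩
  have := (T.U n).add_mem (mem_fl.1 hy i).1 (hg.y_mem i)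
  rwa [Pi.sub_apply, sub_add_cancel] at this
theorem mem_Sig (hg : 𝒞.GdL (T.U n) y h) {x : GA (Fin 𝒞.d → Λ)} (hx : x ∈ II (𝒞.fl T n) y s w) :
    clL J (T.U n) (𝒞.Jm h x) ∈ 𝒞.Sig T n s w :=
  AddSubgroup.mem_iSup_of_mem y (AddSubgroup.mem_iSup_of_mem h
    (AddSubgroup.mem_iSup_of_mem hg ⟨x, hx, rfl⟩))
theorem Sig_mono (hs : s ≤ s') (hw : w' ≤ w) : 𝒞.Sig T n s w ≤ 𝒞.Sig T n s' w' :=
  iSup_mono fun _ => iSup_mono fun _ => iSup_mono fun _ => AddSubgroup.map_mono (II_mono hs hw)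
theorem Sig_le_FF (hn : 0 < n) : 𝒞.Sig T n s w ≤ 𝒞.FF T s w :=
  le_iSup₂ (f := fun n (_ : 0 < n) => 𝒞.Sig T n s w) n hn
theorem FF_le (hH : ∀ n, 0 < n → 𝒞.Sig T n s w ≤ H) : 𝒞.FF T s w ≤ H := iSup₂_le hH
theorem FF_mono (hs : s ≤ s') (hw : w' ≤ w) : 𝒞.FF T s w ≤ 𝒞.FF T s' w' :=
  iSup₂_mono fun _ _ => Sig_mono hs hw
theorem FF_le_Gw : 𝒞.FF T s w ≤ 𝒞.Gw T w := le_iSup (fun s => 𝒞.FF T s w) s
theorem Gw_anti (hw : w' ≤ w) : 𝒞.Gw T w ≤ 𝒞.Gw T w' := iSup_mono fun _ => FF_mono le_rfl hw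
theorem Gw_le_Vu (hw : 0 < w) : 𝒞.Gw T w ≤ 𝒞.Vu T := Gw_anti hw
theorem FF_zero (hw : 0 < w) : 𝒞.FF T 0 w = ⊥ :=
  eq_bot_iff.2 (FF_le fun _ _ => iSup_le fun _ => iSup₂_le fun _ _ => by
    rw [II_zero hw, AddSubgroup.map_bot])
theorem Sig_mul (hn : 0 < n) {j : ℕ} (hj : 0 < j) {x : VV Λ J} (hx : x ∈ 𝒞.Sig T n s w) :
    j • x ∈ 𝒞.Sig T (n * j) s w := by
  have hU : T.U n ≤ T.U (n * j) := T.mono hn (Nat.mul_pos hn hj) (dvd_mul_right n j)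
  have : 𝒞.Sig T n s w ≤ (𝒞.Sig T (n * j) s w).comap (nsmulAddMonoidHom j) := by
    refine iSup_le fun y => iSup₂_le fun h hg => ?_
    rintro _ ⟨x, hx, rfl⟩
    have h1 : x ∈ II (𝒞.fl T (n * j)) y s w := II_mono_fil (fil := 𝒞.fl T n)
      (fun k v hv => mem_fl.2 fun i => ⟨hU (mem_fl.1 hv i).1, (mem_fl.1 hv i).2⟩) hx
    have h2 := mem_Sig (hg.mono hU) h1
    rw [T.clL_mul hn hj] at h2
    exact h2
  exact this hx
theorem Sig_le_of_II (hH : ∀ y h, 𝒞.GdL (T.U n) y h → ∀ x ∈ II (𝒞.fl T n) y s w,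
    clL J (T.U n) (𝒞.Jm h x) ∈ H) : 𝒞.Sig T n s w ≤ H :=
  iSup_le fun y => iSup₂_le fun h hg => by
    rintro _ ⟨x, hx, rfl⟩
    exact hH y h hg x hx
theorem Sig_le (hH : ∀ y h, 𝒞.GdL (T.U n) y h → ∀ r ≤ s, ∀ (k : Fin r → ℕ)
    (v : Fin r → Fin 𝒞.d → Λ), w ≤ ∑ i, k i → (∀ i, 0 < k i) → (∀ i, v i ∈ 𝒞.fl T n (k i)) →
      clL J (T.U n) (𝒞.Jm h (sg y * ∏ i, dl (v i))) ∈ H) : 𝒞.Sig T n s w ≤ H := by
  refine Sig_le_of_II fun y₀ h hg => ?_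
  refine II_le (H := H.comap ((clL J (T.U n)).comp (𝒞.Jm h))) fun r hr y k v hy hw hk hv => ?_
  obtain ⟨h1, h2⟩ := sigb_move hg hy
  have := hH y _ h1 r hr k v hw hk hv
  rwa [h2] at this
/-- only products with the exact number of factors and the exact weight matter -/
theorem Sig_le_exact (hn : 0 < n) (hH : ∀ y h, 𝒞.GdL (T.U n) y h → ∀ (k : Fin (s + 1) → ℕ)
    (v : Fin (s + 1) → Fin 𝒞.d → Λ), ∑ i, k i = w → (∀ i, 0 < k i) →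
      (∀ i, v i ∈ 𝒞.fl T n (k i)) → clL J (T.U n) (𝒞.Jm h (sg y * ∏ i, dl (v i))) ∈ H)
    (h1 : 𝒞.FF T s w ≤ H) (h2 : 𝒞.Gw T (w + 1) ≤ H) : 𝒞.Sig T n (s + 1) w ≤ H := by
  refine Sig_le fun y h hg r hr k v hw hk hv => ?_
  have h0 := mem_Sig hg (gen_mem_II (y := y) (by rw [sub_self]; exact zero_mem _) hk hv)
  rw [Fintype.card_fin] at h0
  rcases hr.eq_or_lt with rfl | hr
  · rcases hw.eq_or_lt with hw | hw
    · exact hH y h hg k v hw.symm hk hv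
    · exact h2 (FF_le_Gw (Sig_le_FF hn (Sig_mono le_rfl hw h0)))
  · exact h1 (Sig_le_FF hn (Sig_mono (Nat.lt_succ_iff.1 hr) hw h0))
theorem FF_le_diff {m : ℕ} (hw : s * m < w) (hH : ∀ n, 0 < n → ∀ y h, 𝒞.GdL (T.U n) y h →
    ∀ v ∈ 𝒞.fl T n (m + 1), clL J (T.U n) (𝒞.Jm h (sg (y + v) - sg y)) ∈ H) :
    𝒞.FF T s w ≤ H := by
  refine FF_le fun n hn => Sig_le_of_II fun y₀ h hg => ?_
  refine II_le_diff (H := H.comap ((clL J (T.U n)).comp (𝒞.Jm h))) fl_anti hw fun y v hy hv => ?_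
  obtain ⟨h1, h2⟩ := sigb_move hg hy
  have := hH n hn y _ h1 v hv
  rwa [h2] at this
theorem Vu_le (hH : ∀ n, 0 < n → ∀ y h, 𝒞.GdL (T.U n) y h →
    ∀ v ∈ 𝒞.fl T n 1, clL J (T.U n) (𝒞.Jm h (sg (y + v) - sg y)) ∈ H) : 𝒞.Vu T ≤ H :=
  iSup_le fun _ => FF_le_diff (m := 0) (by simp) hH
theorem diff_mem_Vu (hn : 0 < n) (hg : 𝒞.GdL (T.U n) y h) (hg' : 𝒞.GdL (T.U n) y' h')
    (hy : ∀ i, ‖y' i - y i‖ < 1) (hh : ‖h' - h‖ < 1) :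
    clL J (T.U n) (Finsupp.single (𝒞.io y' h') 1 - Finsupp.single (𝒞.io y h) 1) ∈ 𝒞.Vu T := by
  have hv : y' - y ∈ 𝒞.fl T n 1 := (mem_fl_one hn).2 fun i =>
    ⟨(T.U n).sub_mem (hg'.y_mem i) (hg.y_mem i), hy i⟩
  have h0 := mem_Sig hg (gen_mem_II (ι := Fin 1) (y := y) (k := fun _ => 1) (v := fun _ => y' - y)
    (by rw [sub_self]; exact zero_mem _) (fun _ => one_pos) fun _ => hv)
  have h1 : sg y * ∏ _i : Fin 1, dl (y' - y) = sg y' - sg y := by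
    rw [Fin.prod_univ_one, dl, mul_sub, mul_one, AddMonoidAlgebra.single_mul_single, mul_one,
      add_sub_cancel]
  rw [h1, map_sub (𝒞.Jm h), Jm_sg, Jm_sg, hg.gd.ep.hen_eq hy hh hg'.gd.on, hg.gd.ep.hen_self,
    Fin.sum_univ_one] at h0
  exact FF_le_Gw (Sig_le_FF hn h0)
theorem sub_lf_mem (hn : 0 < n) (hg : 𝒞.GdL (T.U n) y h) : clL J (T.U n)
    (Finsupp.single (𝒞.io y h) 1 - Finsupp.single (𝒞.lf p (fun i => rs (y i)) (rs h)) 1) ∈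
      𝒞.Vu T := by
  obtain ⟨y', h', hg', h1, h2, h3⟩ := hg.gd.gk.exists_gdL T hn
    (fun i => T.rs_fixed hn (hg.y_mem i)) (T.rs_fixed hn hg.h_mem)
  rw [h3]
  exact diff_mem_Vu hn hg' hg (fun i => (rs_eq_iff (hg.gd.y_le i) (hg'.gd.y_le i)).1 (h1 i).symm)
    ((rs_eq_iff hg.gd.h_le hg'.gd.h_le).1 h2.symm)
theorem mem_TL {L : IntermediateField K Λ} (hg : 𝒞.GdL L y h) :
    clL J L (Finsupp.single (𝒞.io y h) 1) ∈ 𝒞.TL L :=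
  AddSubgroup.subset_closure ⟨y, h, hg, rfl⟩
theorem lf_mem_TL (hn : 0 < n) {a : Fin 𝒞.d → kk Λ} {c : kk Λ} (hk : 𝒞.Gk a c)
    (ha : ∀ i, fr (kk Λ) p (T.r * n) (a i) = a i) (hc : fr (kk Λ) p (T.r * n) c = c) :
    clL J (T.U n) (Finsupp.single (𝒞.lf p a c) 1) ∈ 𝒞.TL (T.U n) := by
  obtain ⟨y, h, hg, -, -, h3⟩ := hk.exists_gdL T hn ha hc
  rw [h3]
  exact mem_TL hg
theorem TL_le_UU (hn : 0 < n) : 𝒞.TL (T.U n) ≤ 𝒞.UU T :=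
  le_iSup₂ (f := fun n (_ : 0 < n) => 𝒞.TL (T.U n)) n hn
theorem TL_mul (hn : 0 < n) {j : ℕ} (hj : 0 < j) {x : VV Λ J} (hx : x ∈ 𝒞.TL (T.U n)) :
    j • x ∈ 𝒞.TL (T.U (n * j)) := by
  have : 𝒞.TL (T.U n) ≤ (𝒞.TL (T.U (n * j))).comap (nsmulAddMonoidHom j) := by
    refine (AddSubgroup.closure_le _).2 ?_
    rintro _ ⟨y, h, hg, rfl⟩
    have h2 := mem_TL (hg.mono (T.mono hn (Nat.mul_pos hn hj) (dvd_mul_right n j)))
    rw [T.clL_mul hn hj] at h2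
    exact h2
  exact this hx
/-- modulo `Vu` the group is generated by the lifts -/
theorem TL_le (hn : 0 < n) (h1 : 𝒞.Vu T ≤ H) (hH : ∀ a c, 𝒞.Gk a c →
    (∀ i, fr (kk Λ) p (T.r * n) (a i) = a i) → fr (kk Λ) p (T.r * n) c = c →
      clL J (T.U n) (Finsupp.single (𝒞.lf p a c) 1) ∈ H) : 𝒞.TL (T.U n) ≤ H := by
  refine (AddSubgroup.closure_le _).2 ?_
  rintro _ ⟨y, h, hg, rfl⟩
  have h2 := H.add_mem (h1 (sub_lf_mem hn hg)) (hH _ _ hg.gd.gk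
    (fun i => T.rs_fixed hn (hg.y_mem i)) (T.rs_fixed hn hg.h_mem))
  rwa [← map_add, sub_add_cancel] at h2
theorem UU_le (hH : ∀ n, 0 < n → 𝒞.TL (T.U n) ≤ H) : 𝒞.UU T ≤ H := iSup₂_le hH
theorem Vu_le_UU : 𝒞.Vu T ≤ 𝒞.UU T := by
  refine Vu_le fun n hn y h hg v hv => TL_le_UU hn ?_
  rw [map_sub, map_sub, Jm_sg, Jm_sg, hg.gd.ep.hen_self]
  exact sub_mem (mem_TL (sigb_move hg (by rwa [add_sub_cancel_left])).1) (mem_TL hg)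
theorem UU_le_Atot : 𝒞.UU T ≤ Atot Λ J := by
  refine UU_le fun n hn => (AddSubgroup.closure_le _).2 ?_
  rintro _ ⟨y, h, hg, rfl⟩
  exact AddSubgroup.subset_closure
    ⟨_, _, T.fin n hn, hg.gd.ep.xp (T.le n) hg.y_mem hg.h_mem, rfl⟩
theorem Vu_le_Azero : 𝒞.Vu T ≤ Azero Λ J := by
  refine le_inf (Vu_le_UU.trans UU_le_Atot) (Vu_le fun n _ y h _ v _ => ?_)
  rw [AddMonoidHom.mem_ker, AddMonoidHom.coe_snd, clL_snd, map_sub, Jm_sg, Jm_sg, map_sub,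
    Finsupp.degree_single, Finsupp.degree_single, sub_self, Int.cast_zero, mul_zero]
theorem sigb_fin {V A : Type} [AddCommGroup V] {S H : AddSubgroup V} (s : Finset A) (g : A → V)
    (h : ∀ H', H ≤ H' → (∀ a ∈ s, g a ∈ S → g a ∈ H') → S ≤ H') : FinMod S H :=
  ⟨(s.image g).filter fun x => x ∈ S, fun _ hx => (Finset.mem_filter.1 hx).2,
    h _ le_sup_right fun _ ha hg => AddSubgroup.mem_sup_left (AddSubgroup.subset_closure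
      (Finset.mem_coe.2 (Finset.mem_filter.2 ⟨Finset.mem_image_of_mem g ha, hg⟩)))⟩
theorem TL_fin (hn : 0 < n) : FinMod (𝒞.TL (T.U n)) (𝒞.Vu T) := by
  obtain ⟨S, -, hS⟩ := exists_finset_fixed (𝕜 := kk Λ) (p := p) (Nat.mul_pos T.r_pos hn)
  refine sigb_fin ((Fintype.piFinset fun _ : Fin 𝒞.d => S) ×ˢ S)
    (fun q => clL J (T.U n) (Finsupp.single (𝒞.lf p q.1 q.2) 1)) fun H hH hs =>
    TL_le hn hH fun a c hk ha hc => hs (a, c) ?_ (lf_mem_TL hn hk ha hc)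
  exact Finset.mem_product.2 ⟨Fintype.mem_piFinset.2 fun i => (hS _).2 (ha i), (hS _).2 hc⟩
theorem Sig_fin (hn : 0 < n) (s w : ℕ) :
    FinMod (𝒞.Sig T n (s + 1) w) (𝒞.FF T s w ⊔ 𝒞.Gw T (w + 1)) := by
  obtain ⟨S, -, hS⟩ := exists_finset_fixed (𝕜 := kk Λ) (p := p) (Nat.mul_pos T.r_pos hn)
  obtain ⟨R, hR1, hR2⟩ := Loc.resfin (K := K) (T.U n) (T.fin n hn)
  have hex : ∀ q : (Fin 𝒞.d → kk Λ) × kk Λ, (∃ y h, 𝒞.GdL (T.U n) y h ∧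
      ((fun i => rs (y i)), rs h) = q) → ∃ z : (Fin 𝒞.d → Λ) × Λ, 𝒞.GdL (T.U n) z.1 z.2 ∧
      ((fun i => rs (z.1 i)), rs z.2) = q := fun q ⟨y, h, hq⟩ => ⟨(y, h), hq⟩
  choose! z hz using hex
  refine sigb_fin (((Fintype.piFinset fun _ => S) ×ˢ S) ×ˢ
    ((Fintype.piFinset fun _ : Fin (s + 1) => Finset.range (w + 1)) ×ˢ
      (Fintype.piFinset fun _ : Fin (s + 1) => Fintype.piFinset fun _ : Fin 𝒞.d => R)))
    (fun q => clL J (T.U n) (𝒞.Jm (z q.1).2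
      (sg (z q.1).1 * ∏ i, dl fun j => T.π ^ q.2.1 i * q.2.2 i j))) fun H hH hs =>
    Sig_le_exact hn (fun y h hg k v hw hk hv => ?_) (le_sup_left.trans hH) (le_sup_right.trans hH)
  obtain ⟨hg₀, hq⟩ := hz _ ⟨y, h, hg, rfl⟩
  generalize hz₀ : z ((fun i => rs (y i)), rs h) = z₀ at hg₀ hq
  have hπ : ∀ i, 0 < ‖T.π‖ ^ k i := fun i => pow_pos (norm_pos_iff.2 T.π_ne) _
  have hπU : ∀ i, T.π ^ k i ∈ T.U n := fun i => pow_mem (T.le n T.π_mem) _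
  have ht : ∀ i j, ∃ t ∈ R, ‖v i j / T.π ^ k i - t‖ < 1 := fun i j =>
    hR2 _ ((T.U n).div_mem (mem_fl.1 (hv i) j).1 (hπU i)) (by
      rw [norm_div, norm_pow]
      exact (div_le_one (hπ i)).2 (mem_fl.1 (hv i) j).2)
  choose t ht1 ht2 using ht
  have hv' : ∀ i, (fun j => T.π ^ k i * t i j) ∈ 𝒞.fl T n (k i) := fun i => mem_fl.2 fun j =>
    ⟨(T.U n).mul_mem (hπU i) (hR1 _ (ht1 i j)).1, by
      rw [norm_mul, norm_pow]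
      exact mul_le_of_le_one_right (hπ i).le (hR1 _ (ht1 i j)).2⟩
  have hd : ∀ i, (v i - fun j => T.π ^ k i * t i j) ∈ 𝒞.fl T n (k i + 1) := fun i =>
    mem_fl.2 fun j => by
      have h1 := (mem_fl.1 (sub_mem (hv i) (hv' i)) j).1
      refine ⟨h1, T.norm_le_succ hn h1 ?_⟩
      have h2 : (v i - fun j => T.π ^ k i * t i j) j =
          T.π ^ k i * (v i j / T.π ^ k i - t i j) := by
        rw [mul_sub, mul_div_cancel₀ _ (pow_ne_zero _ T.π_ne), Pi.sub_apply]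
      rw [h2, norm_mul, norm_pow]
      exact mul_lt_of_lt_one_right (hπ i) (ht2 i j)
  have hy : y - z₀.1 ∈ 𝒞.fl T n 1 := (mem_fl_one hn).2 fun i =>
    ⟨(T.U n).sub_mem (hg.y_mem i) (hg₀.y_mem i), (rs_eq_iff (hg.gd.y_le i) (hg₀.gd.y_le i)).1
      (congrFun (Prod.ext_iff.1 hq).1 i).symm⟩
  have hh : 𝒞.Jm h = 𝒞.Jm z₀.2 :=
    Jm_congr ((rs_eq_iff hg.gd.h_le hg₀.gd.h_le).1 (Prod.ext_iff.1 hq).2.symm)
  have h0 : z₀.1 - z₀.1 ∈ 𝒞.fl T n 1 := by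
    rw [sub_self]
    exact zero_mem _
  have h1 := mem_Sig hg₀ (gen_mem_II h0 hk hv')
  have h2 := mem_Sig hg₀ (gen_sub_gen fl_anti h0 hy hk hv' hd)
  rw [Fintype.card_fin, hw] at h1 h2
  rw [map_sub, map_sub] at h2
  rw [hh, ← sub_add_cancel (clL J (T.U n) (𝒞.Jm z₀.2 (sg y * ∏ i, dl (v i))))
    (clL J (T.U n) (𝒞.Jm z₀.2 (sg z₀.1 * ∏ i, dl fun j => T.π ^ k i * t i j)))]
  have h3 := hs (((fun i => rs (y i)), rs h), k, t) (by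
    simp only [Finset.mem_product, Fintype.mem_piFinset, hS, Finset.mem_range]
    exact ⟨⟨fun i => T.rs_fixed hn (hg.y_mem i), T.rs_fixed hn hg.h_mem⟩, fun i =>
      Nat.lt_succ_of_le (hw ▸ Finset.single_le_sum (f := k) (fun _ _ => Nat.zero_le _)
        (Finset.mem_univ i)), ht1⟩)
  simp only [hz₀] at h3
  exact add_mem (hH (AddSubgroup.mem_sup_right (FF_le_Gw (Sig_le_FF hn h2)))) (h3 h1)

end Chart

end Pool.Agent.ZeroCyc
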