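import Pool.Agent.Lib.MP_796ce4_ag.ZY.ChartB
import Pool.Agent.Lib.MP_796ce4_ag.ZY.MR
import Pool.Agent.Lib.MP_796ce4_ag.ZY.Orb

/-! The basic relation on curves in a chart. -/

namespace Pool.Agent.ZeroCyc

open Polynomial Module
open scoped Classical IntermediateField PowerSeries

set_option linter.unusedSectionVars false

variable {p : ℕ} {K Λ : Type} [Field K] [CharZero K] [NormedField Λ] [IsUltrametricDist Λ]
  [IsAlgClosed Λ] [Algebra K Λ] [IsGalois K Λ] [Loc p K Λ]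

include p

variable {N : ℕ} {J : Ideal (MvPolynomial (Fin (N + 1)) K)} {B L : IntermediateField K Λ}

theorem mrc_lift {b m : ℕ} {G : Λ[X][X]} (hG : Lead b m G) (oG : Ov2 L G) :
    ∃ G₀ : L.toSubfield.toSubring[X][X], mp L.toSubfield.toSubring.subtype G₀ = G ∧
      Lead b m G₀ := by
  have h1 : ∀ i, Over L ((G - C (X ^ m)).coeff i) := by
    intro i
    rw [coeff_sub, coeff_C]
    refine (oG i).sub ?_
    split_ifs
    · exact over_X.pow m
    · exact fun n => by rw [coeff_zero]; exact L.zero_mem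
  obtain ⟨a, ha, ha'⟩ := WL.exists_lift (φ := L.toSubfield.toSubring.subtype) hG
    fun i j => ⟨⟨_, h1 i j⟩, rfl⟩
  refine ⟨a + C (X ^ m), ?_, ?_⟩
  · rw [map_add, ha, mp_C, Polynomial.map_pow, map_X, sub_add_cancel]
  · unfold Lead
    rwa [add_sub_cancel_right]

theorem mrc_aeval {d : ℕ} (lam : Fin d → Λ[X]) (f : Fin (N + 1) → MP d Λ)
    (F : MvPolynomial (Fin (N + 1)) K) :
    cv (RingHom.id Λ) lam (MvPolynomial.aeval f F) =
      MvPolynomial.aeval (fun i => cv (RingHom.id Λ) lam (f i)) F := by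
  rw [MvPolynomial.map_aeval, MvPolynomial.aeval_eq_eval₂Hom]
  congr 2
  ext1 x
  simp [cv, Polynomial.algebraMap_apply, MvPolynomial.algebraMap_apply]

namespace Chart

variable {𝒞 : Chart J B} {lam : Fin 𝒞.d → Λ[X]} {e m : ℕ} {G G' : Λ[X][X]}

theorem MRc [FiniteDimensional K L] (hB : B ≤ L) (hl : ∀ i, Over L (lam i))
    (he : ∀ i, (lam i).natDegree ≤ e) (hG : Lead (𝒞.b * e) m G) (hG' : Lead (𝒞.b * e) m G')
    (oG : Ov2 L G) (oG' : Ov2 L G') (hz : ∀ Q, On (𝒞.cL lam) Q → ee Q G = 0 ∨ ee Q G' = 0 →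
      𝒞.Ep (fun i => (lam i).eval Q.1) Q.2) :
    clL J L (𝒞.Pf lam (dv (𝒞.cL lam) G)) = clL J L (𝒞.Pf lam (dv (𝒞.cL lam) G')) := by
  obtain ⟨G₀, rfl, hG₀⟩ := mrc_lift (p := p) hG oG
  obtain ⟨G₁, rfl, hG₁⟩ := mrc_lift (p := p) hG' oG'
  choose lam₀ hlam using fun i => (gal1_iff (S := L.toSubfield.toSubring)).1 (hl i)
  let ψ : OL B →+* L.toSubfield.toSubring :=
    (OL B).subtype.codRestrict _ fun x => hB x.2.1
  have he₀ : ∀ i, (lam₀ i).natDegree ≤ e := fun i => by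
    rw [← natDegree_map_eq_of_injective L.toSubfield.toSubring.subtype_injective, hlam]
    exact he i
  have hcv : ∀ f, mp L.toSubfield.toSubring.subtype (cv ψ lam₀ f) = cv (OL B).subtype lam f := by
    intro f
    rw [mp_cv]
    simp only [hlam]
    rfl
  have key := MR (J := J) (L := L) (φ := L.toSubfield.toSubring.subtype) (fun x => x.2)
    (q := fun i => cv ψ lam₀ (𝒞.pp i)) (𝒞.wt_crv ψ he₀) hG₀ hG₁
  simp only [hcv, ee_cv] at key
  refine key (fun F hF => ?_) (fun Q h0 h1 => (hz Q h0 (Or.inl h1)).et)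
    (fun Q h0 h1 => (hz Q h0 (Or.inr h1)).et) fun Q h0 h1 h2 => ?_
  · have h1 := map_dvd (cv (RingHom.id Λ) lam) (𝒞.on F hF)
    rw [mrc_aeval (p := p)] at h1
    simpa only [cv_mq, RingHom.id_comp] using h1
  · have h3 := (hz Q h0 h1).unit
    have h4 : 𝒞.pv (fun i => (lam i).eval Q.1) Q.2 𝒞.i₀ = 0 := congrFun h2 𝒞.i₀
    rw [h4, norm_zero] at h3
    exact zero_ne_one h3

theorem dv_gal (hB : B ≤ L) (hl : ∀ i, Over L (lam i)) (he : ∀ i, (lam i).natDegree ≤ e)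
    (hG : Lead (𝒞.b * e) m G) (oG : Ov2 L G) (ha : Adm (𝒞.cL lam) G) {σ : Λ ≃ₐ[K] Λ}
    (hσ : Fix L σ) : psh (pm σ) (dv (𝒞.cL lam) G) = dv (𝒞.cL lam) G := by
  have h := (Lead.dv_map (𝒞.wt_crv (OL B).subtype he) hG ha (σ : Λ →+* Λ)).1
  rw [(ov2_cv hB hl 𝒞.χ).map_eq hσ, oG.map_eq hσ] at h
  exact h.symm

theorem Pf_gal (hB : B ≤ L) (hl : ∀ i, Over L (lam i)) {σ : Λ ≃ₐ[K] Λ} (hσ : Fix L σ)
    (D : Λ × Λ →₀ ℤ) : 𝒞.Pf lam (psh (pm σ) D) = galC σ (𝒞.Pf lam D) := by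
  change psh _ (psh _ D) = psh (galY σ) (psh _ D)
  rw [psh_psh, psh_psh]
  refine psh_congr fun Q _ => ?_
  simp only [Function.comp_apply]
  rw [← io_gal (hσ.mono hB)]
  simp only [(hl _).apply_eval hσ]
  rfl

/-- an invariant divisor of good points -/
theorem Pf_mem [FiniteDimensional K L] (hB : B ≤ L) (hl : ∀ i, Over L (lam i)) {D : Λ × Λ →₀ ℤ}
    (hD : ∀ σ, Fix L σ → psh (pm σ) D = D)
    (hg : ∀ Q, D Q ≠ 0 → 𝒞.Gd (fun i => (lam i).eval Q.1) Q.2) {H : AddSubgroup (VV Λ J)}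
    (hH : ∀ L' y h, L ≤ L' → FiniteDimensional K L' → 𝒞.GdL L' y h →
      clL J L' (Finsupp.single (𝒞.io y h) 1) ∈ H) : clL J L (𝒞.Pf lam D) ∈ H := by
  have h := orb_mem₂ L D hD
    (fun Q => Finsupp.single (𝒞.io (fun i => (lam i).eval Q.1) Q.2) 1) (fun σ Q hσ _ => by
      rw [galC_single, ← io_gal (hσ.mono hB)]
      simp only [(hl _).apply_eval hσ]
      rfl) H fun Q hQ L' hL hf h1 h2 =>
      hH L' _ _ hL hf ⟨hg Q hQ, fun i => ((hl i).mono hL).eval h1, h2⟩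
  simp only [Finsupp.smul_single, smul_eq_mul, mul_one] at h
  exact h

end Chart

end Pool.Agent.ZeroCyc
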