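import Pool.Agent.Lib.MP_796ce4_ag.ZY.GRa
import Pool.Agent.Lib.MP_796ce4_ag.ZY.MRc
import Pool.Agent.Lib.MP_796ce4_ag.ZY.SigB

/-! The general relation. -/

namespace Pool.Agent.ZeroCyc

open Polynomial Module
open scoped Classical IntermediateField PowerSeries

set_option linter.unusedSectionVars false

variable {p : ℕ} {K Λ : Type} [Field K] [CharZero K] [NormedField Λ] [IsUltrametricDist Λ]
  [IsAlgClosed Λ] [Algebra K Λ] [IsGalois K Λ] [Loc p K Λ] [Fact p.Prime] [CharP (kk Λ) p]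

variable {N : ℕ} {J : Ideal (MvPolynomial (Fin (N + 1)) K)} {B : IntermediateField K Λ}
  {ι : Type} [Fintype ι]

namespace Chart

variable {𝒞 : Chart J B} {T : Tower p B} {n : ℕ} {k : ι → ℕ} {lam : Fin 𝒞.d → (CU T n k)[X]}
  {e : ℕ} {G : (CU T n k)[X][X]} {μ u : (OL (T.U n))[X]} {Z : Finset ι → Λ × Λ →₀ ℤ}

/-- the description of the cycle attached to a moving zero that is rational over `U m` -/
structure MovZ (𝒞 : Chart J B) {T : Tower p B} {n : ℕ} {k : ι → ℕ}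
    (lam : Fin 𝒞.d → (CU T n k)[X]) (G : (CU T n k)[X][X]) (m : ℕ) (z : Λ × Λ)
    (pt : Finset ι → Λ × Λ) : Prop where
  gd : 𝒞.GdL (T.U m) (fun i => (lA lam ∅ i).eval z.1) z.2
  cube : IsCube (𝒞.fl T m) k fun A i => (lA lam A i).eval (pt A).1
  base : pt ∅ = z
  on : ∀ A, On (𝒞.cL (lA lam A)) (pt A)
  zero : ∀ A, ee (pt A) (mp (evA A) G) = 0
  mem : ∀ A, (pt A).1 ∈ T.U m
  near : ∀ A, ‖(pt A).1 - z.1‖ < 1 ∧ ‖(pt A).2 - z.2‖ < 1

variable (𝒞) in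
/-- the alternating sum of the points of a moving zero -/
noncomputable def cyc (lam : Fin 𝒞.d → (CU T n k)[X]) (z : Λ × Λ) (pt : Finset ι → Λ × Λ) :
    PY Λ N →₀ ℤ := 𝒞.Jm z.2 (alt fun A => sg fun i => (lA lam A i).eval (pt A).1)

theorem MovZ.mem_Sig {m : ℕ} {z : Λ × Λ} {pt : Finset ι → Λ × Λ} (h : 𝒞.MovZ lam G m z pt)
    (hk : ∀ i, 0 < k i) :
    clL J (T.U m) (𝒞.cyc lam z pt) ∈ 𝒞.Sig T m (Fintype.card ι) (∑ i, k i) := by
  refine Chart.mem_Sig h.gd (h.cube.alt_mem fl_anti hk ?_)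
  rw [h.base, sub_self]
  exact zero_mem _

theorem MovZ.sub_mem {m : ℕ} {z : Λ × Λ} {pt : Finset ι → Λ × Λ} (h : 𝒞.MovZ lam G m z pt)
    (hk : ∀ i, 0 < k i) : clL J (T.U m) (𝒞.cyc lam z pt) - clL J (T.U m) (𝒞.Jm z.2
      (sg (fun j => (lA lam ∅ j).eval z.1) * ∏ i, dl fun j =>
        (lA lam {i} j).eval (pt {i}).1 - (lA lam ∅ j).eval z.1)) ∈
      𝒞.Sig T m (Fintype.card ι - 1) (∑ i, k i) := by
  have h1 := Chart.mem_Sig h.gd (h.cube.alt_sub (y₀ := fun i => (lA lam ∅ i).eval z.1) fl_anti hk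
    (by rw [h.base, sub_self]; exact zero_mem _))
  rw [map_sub, map_sub, h.base] at h1
  exact h1

theorem gr_root_le (h : 𝒞.GRD lam e G μ u Z) {t : Λ} (ht : u.eval₂ (OL _).subtype t = 0) :
    ‖t‖ ≤ 1 :=
  (intg_map u).root_le (h.mon'.map _) (by rw [eval_map]; exact ht)

theorem gr_card (h : 𝒞.GRD lam e G μ u Z) {𝒵 : Finset (Λ × Λ)}
    (h1 : ∀ z, z ∈ 𝒵 ↔ u.eval₂ (OL _).subtype z.1 = 0 ∧ On (𝒞.cL (lA lam ∅)) z)
    (hgd : ∀ z ∈ 𝒵, 𝒞.Gd (fun i => (lA lam ∅ i).eval z.1) z.2) :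
    𝒵.card = 𝒞.δ * u.natDegree := by
  have hwt : Wt (𝒞.b * e) 𝒞.δ (𝒞.cL (lA lam ∅)) := 𝒞.wt_crv _ (natDegree_lA h.he ∅)
  have hm : (u.map (OL (T.U n)).subtype).Monic := h.mon'.map _
  have ha : Adm (𝒞.cL (lA lam ∅)) (C (u.map (OL (T.U n)).subtype)) := fun Q hQ h0 => by
    rw [ee_C, eval_map] at h0
    exact (hgd Q ((h1 Q).2 ⟨h0, hQ⟩)).ep.et
  have h2 := ((lead_C hm).degree_dv_eq_iff hwt).2 ha
  have h3 : dv (𝒞.cL (lA lam ∅)) (C (u.map (OL (T.U n)).subtype)) =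
      ∑ z ∈ 𝒵, Finsupp.single z 1 := by
    ext Q
    rw [dv_C hwt hm, Finsupp.finsetSum_apply]
    by_cases hQ : Q ∈ 𝒵
    · have h0 := ((h1 Q).1 hQ).1
      have h4 := (h.sep Q.1 (gr_root_le h h0) (by rw [h0]; simp)).2.1
      have h5 : 0 < (u.map (OL (T.U n)).subtype).rootMultiplicity Q.1 :=
        (rootMultiplicity_pos hm.ne_zero).2 (by rw [IsRoot, eval_map]; exact h0)
      have h6 : ¬1 < (u.map (OL (T.U n)).subtype).rootMultiplicity Q.1 := fun h6 => by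
        have := ((one_lt_rootMultiplicity_iff_isRoot hm.ne_zero).1 h6).2
        rw [IsRoot, derivative_map, eval_map] at this
        rw [this] at h4
        simp at h4
      rw [if_pos (hgd Q hQ).ep.et, Finset.sum_eq_single Q
        (fun z _ hz => Finsupp.single_eq_of_ne' hz) (fun h => absurd hQ h), Finsupp.single_eq_same]
      omega
    · rw [Finset.sum_eq_zero fun z hz => Finsupp.single_eq_of_ne' (fun h : z = Q => hQ (h ▸ hz))]
      split_ifs with h4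
      · rw [rootMultiplicity_eq_zero fun h0 => hQ ((h1 Q).2 ⟨by rwa [IsRoot, eval_map] at h0, h4.1⟩)]
        rfl
      · rfl
  rw [h3, map_sum, h.mon'.natDegree_map] at h2
  simp only [Finsupp.degree_single, Finset.sum_const, nsmul_eq_mul, mul_one] at h2
  exact_mod_cast h2

theorem GR (h : 𝒞.GRD lam e G μ u Z) (i₁ : ι) (hi : ∀ A, lA lam (insert i₁ A) = lA lam A) :
    ∃ (𝒵 : Finset (Λ × Λ)) (pt : Λ × Λ → Finset ι → Λ × Λ),
    (∀ z, z ∈ 𝒵 ↔ u.eval₂ (OL _).subtype z.1 = 0 ∧ On (𝒞.cL (lA lam ∅)) z) ∧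
    alt (fun A => clL J (T.U n) (𝒞.Pf (lA lam A) (Z A))) +
      clL J (T.U n) (∑ z ∈ 𝒵, 𝒞.cyc lam z (pt z)) = 0 ∧
    (∀ z ∈ 𝒵, pm (T.φ ^ n) z ∈ 𝒵 ∧ 𝒞.cyc lam (pm (T.φ ^ n) z) (pt (pm (T.φ ^ n) z)) =
      galC (T.φ ^ n) (𝒞.cyc lam z (pt z))) ∧
    ∀ z ∈ 𝒵, ∀ c, 0 < c → (pm (T.φ ^ n))^[c] z = z → 𝒞.MovZ lam G (n * c) z (pt z) := by
  obtain ⟨𝒵, pt, h1, h2, h3⟩ := h.exists_pt
  have hB : B ≤ T.U n := T.le n
  have := T.fin n h.hn
  have hl : ∀ A i, Over (T.U n) (lA lam A i) := fun A i => (over_lA A i).1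
  have hwt : ∀ A, Wt (𝒞.b * e) 𝒞.δ (𝒞.cL (lA lam A)) := fun A =>
    𝒞.wt_crv _ (natDegree_lA h.he A)
  have hld : ∀ A, Lead (𝒞.b * e) (μ.natDegree + u.natDegree) (mp (evA A) G) := fun A =>
    h.lead.map _
  have hov : ∀ A, Ov2 (T.U n) (mp (evA A) G) := fun A => ov2_mp (fun x => (evA_mem A x).1) G
  have hbase : ∀ z ∈ 𝒵, pt z ∅ = z := fun z hz => by
    refine (((h3 z hz).2 ∅).2.2.2.2 z ((h1 z).1 hz).2 ?_ (by simp) (by simp)).symm
    rw [h.base, ee_C, eval_map, eval₂_mul, ((h1 z).1 hz).1, mul_zero]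
  have hgd : ∀ z ∈ 𝒵, 𝒞.Gd (fun i => (lA lam ∅ i).eval z.1) z.2 := fun z hz => by
    have := ((h3 z hz).2 ∅).1
    rwa [hbase z hz] at this
  have hon : ∀ z ∈ 𝒵, ∀ A, On (𝒞.cL (lA lam A)) (pt z A) := fun z hz A =>
    on_cL.2 ((h3 z hz).2 A).1.on
  have hcyc : ∀ z ∈ 𝒵, 𝒞.cyc lam z (pt z) =
      alt fun A => 𝒞.Pf (lA lam A) (Finsupp.single (pt z A) 1) := fun z hz => by
    unfold cyc
    rw [map_alt]
    congr 1
    funext A
    obtain ⟨g1, -, g3, g4, -⟩ := (h3 z hz).2 A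
    rw [Jm_sg, Pf_single, (hgd z hz).ep.hen_eq
      (fun i => eval_lA_sub h.hk A i (gr_root_le h ((h1 z).1 hz).1) g3) g4 g1.on]
  have hcard := gr_card h h1 hgd
  have hzero : ∀ A Q, On (𝒞.cL (lA lam A)) Q → ee Q (mp (evA A) G) = 0 →
      𝒞.Gd (fun i => (lA lam A i).eval Q.1) Q.2 := fun A Q hQ h0 => by
    have ha : Adm (𝒞.cL (lA lam A)) (mp (evA A) G) := by
      rw [← (hld A).degree_dv_eq_iff (hwt A), h2 A, map_add, h.deg A, map_sum]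
      simp only [Finsupp.degree_single, Finset.sum_const, hcard]
      push_cast
      ring
    have h4 := ((hld A).dv_ne_zero (hwt A)).2 ⟨ha Q hQ h0, h0⟩
    rw [h2 A] at h4
    by_cases h5 : Z A Q = 0
    · rw [Finsupp.add_apply, h5, zero_add, Finsupp.finsetSum_apply] at h4
      obtain ⟨z, hz, h6⟩ := Finset.exists_ne_zero_of_sum_ne_zero h4
      obtain rfl : Q = pt z A := (Finsupp.single_apply_ne_zero.1 h6).1
      exact ((h3 z hz).2 A).1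
    · exact (h.supp A Q h5).1
  have hσ : Fix (T.U n) (T.φ ^ n) := T.fix_U n h.hn
  have hgal : ∀ {G' : Λ[X][X]} {Q : Λ × Λ}, Ov2 (T.U n) G' → ee Q G' = 0 →
      ee (pm (T.φ ^ n) Q) G' = 0 := fun {G' Q} ho h0 => by
    have := map_ee ((T.φ ^ n : Λ ≃ₐ[K] Λ) : Λ →+* Λ) Q G'
    rw [ho.map_eq hσ, h0, map_zero] at this
    exact this.symm
  have hZ : ∀ z ∈ 𝒵, pm (T.φ ^ n) z ∈ 𝒵 := fun z hz => by
    refine (h1 _).2 ⟨?_, hgal (ov2_cv hB (hl ∅) _) ((h1 z).1 hz).2⟩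
    have := (over_map u).apply_eval hσ z.1
    rw [eval_map, eval_map, ((h1 z).1 hz).1, map_zero] at this
    exact this.symm
  refine ⟨𝒵, pt, h1, ?_, fun z hz => ⟨hZ z hz, ?_⟩, fun z hz c hc hper => ?_⟩
  · have h4 : alt (fun A => clL J (T.U n)
        (𝒞.Pf (lA lam A) (dv (𝒞.cL (lA lam A)) (mp (evA A) G)))) = 0 := by
      refine alt_eq_zero i₁ fun A => ?_
      have h5 := hzero (insert i₁ A)
      rw [hi A] at h5 ⊢
      exact MRc hB (hl A) (natDegree_lA h.he A) (hld _) (hld A) (hov _) (hov A) fun Q hQ h0 =>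
        (h0.elim (h5 Q hQ) (hzero A Q hQ)).ep
    rw [← h4, map_sum, Finset.sum_congr rfl fun z hz => by rw [hcyc z hz, map_alt], ← alt_sum,
      ← alt_add]
    congr 1
    funext A
    rw [h2 A, map_add, map_add, map_sum, map_sum]
  · rw [hcyc z hz, hcyc _ (hZ z hz), map_alt]
    congr 1
    funext A
    obtain ⟨-, g2, g3, g4, -⟩ := (h3 z hz).2 A
    rw [← Pf_gal hB (hl A) hσ, psh_single, ← ((h3 _ (hZ z hz)).2 A).2.2.2.2 (pm (T.φ ^ n) (pt z A))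
      (hgal (ov2_cv hB (hl A) _) (hon z hz A)) (hgal (hov A) g2) (tow_gal_lt _ g3)
      (tow_gal_lt _ g4)]
  · obtain ⟨c', hc', m1, m2⟩ := (h3 z hz).1
    have hm : 0 < n * c := Nat.mul_pos h.hn hc
    have hm' : 0 < n * c' := Nat.mul_pos h.hn hc'
    have hnm : T.U n ≤ T.U (n * c) := T.mono h.hn hm (Dvd.intro _ rfl)
    rw [pm, Prod.map_iterate, ← AlgEquiv.coe_pow, ← pow_mul] at hper
    have k1 : z.1 ∈ T.U (n * c) := T.mem_U _ _ hm hm' _ m1 (congrArg Prod.fst hper)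
    have k2 : z.2 ∈ T.U (n * c) := T.mem_U _ _ hm hm' _ m2 (congrArg Prod.snd hper)
    obtain ⟨τ, η, e0, e1⟩ := h.exists_cube ((h1 z).1 hz).1 ((h1 z).1 hz).2 hm (Dvd.intro _ rfl) k1 k2
    have e2 : ∀ A, (evA A τ, evA A η) = pt z A := fun A =>
      ((h3 z hz).2 A).2.2.2.2 _ (e1 A).1 (e1 A).2 (e0 ▸ evA_sub_lt h.hk A τ)
        (e0 ▸ evA_sub_lt h.hk A η)
    refine ⟨⟨hgd z hz, fun i => ((hl ∅ i).mono hnm).eval k1, k2⟩, ?_, hbase z hz, hon z hz,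
      fun A => ((h3 z hz).2 A).2.1, fun A => e2 A ▸ (evA_mem A τ).1,
      fun A => ⟨((h3 z hz).2 A).2.2.1, ((h3 z hz).2 A).2.2.2.1⟩⟩
    have := isCube_of_CR fun i => (lam i).eval₂ (Subring.inclusion (CR_mono hnm)) τ
    convert this using 3 with A i
    rw [hom_eval₂, ← e2 A, lA, eval_map]
    rfl

/-- all moving zeros contribute to the filtration -/
theorem GR_mem (h : 𝒞.GRD lam e G μ u Z) (i₁ : ι) (hi : ∀ A, lA lam (insert i₁ A) = lA lam A) :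
    alt (fun A => clL J (T.U n) (𝒞.Pf (lA lam A) (Z A))) ∈
      𝒞.FF T (Fintype.card ι) (∑ i, k i) := by
  obtain ⟨𝒵, pt, -, h2, h3, h4⟩ := GR h i₁ hi
  rw [eq_neg_of_add_eq_zero_left h2]
  refine neg_mem (T.orbit_mem h.hn 𝒵 (pm ⇑(T.φ ^ n)) (fun z hz => (h3 z hz).1) ?_
    (fun z => 𝒞.cyc lam z (pt z)) (fun z hz => (h3 z hz).2) _ fun z hz c hc hper _ => ?_)
  · exact (Function.Injective.prodMap (T.φ ^ n).injective (T.φ ^ n).injective).injOn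
  · exact Sig_le_FF (Nat.mul_pos h.hn hc) ((h4 z hz c hc hper).mem_Sig h.hk)

end Chart

end Pool.Agent.ZeroCyc
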