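import Pool.Agent.Lib.MP_796ce4_ag.ZY.BXa
import Pool.Agent.Lib.MP_796ce4_ag.ZY.GR

/-! Block exchange and its consequences for the filtration. -/

namespace Pool.Agent.ZeroCyc

open Polynomial Module
open scoped Classical IntermediateField PowerSeries

set_option linter.unusedSectionVars false

variable {p : ℕ} {K Λ : Type} [Field K] [CharZero K] [NormedField Λ] [IsUltrametricDist Λ]
  [IsAlgClosed Λ] [Algebra K Λ] [IsGalois K Λ] [Loc p K Λ] [Fact p.Prime] [CharP (kk Λ) p]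

variable {N : ℕ} {J : Ideal (MvPolynomial (Fin (N + 1)) K)} {B : IntermediateField K Λ}

namespace Chart

variable {𝒞 : Chart J B} {T : Tower p B} {n : ℕ}

theorem BX {ι : Type} [Fintype ι] {k : ι → ℕ} {lam : Fin 𝒞.d → (CU T n k)[X]} {h₀ : Λ}
    {μ μ' : (OL (T.U n))[X]} {k₁ : ℕ} (hn : 0 < n) (hk : ∀ i, 0 < k i)
    (hg : 𝒞.GdL (T.U n) (fun i => (lA lam ∅ i).eval 0) h₀) (hμ : Dist μ) (hμ' : Dist μ')
    (hd : μ'.natDegree = μ.natDegree) (hk₁ : 0 < k₁)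
    (hc : ∀ i, ‖((μ' - μ).coeff i : Λ)‖ ≤ ‖T.π‖ ^ k₁) :
    alt (fun A => clL J (T.U n) (𝒞.blk h₀ (lA lam A) (μ'.map (OL _).subtype) -
      𝒞.blk h₀ (lA lam A) (μ.map (OL _).subtype))) ∈
      𝒞.FF T (Fintype.card ι + 1) (∑ i, k i + k₁) := by
  obtain ⟨lam', e, G, u, Z, hG, h1, h2⟩ := exists_GRD hn hk hg hμ hμ' hd hk₁ hc
  have h3 := GR_mem hG none fun A => by
    rw [h1, h1]
    congr 1
    ext i
    simp
  rw [alt_option, Fintype.card_option, Fintype.sum_option, add_comm (Option.elim _ _ _)] at h3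
  simp only [Option.elim_some, Option.elim_none] at h3
  convert h3 using 3 with A
  rw [h1, h1, Finset.eraseNone_insertNone, Finset.eraseNone_map_some, ← map_sub, ← map_sub, h2,
    map_sub (𝒞.Pf _), Pf_bz, Pf_bz]

/-- two parallel differences -/
theorem S3 (hn : 0 < n) {y : Fin 𝒞.d → Λ} {h : Λ} (hg : 𝒞.GdL (T.U n) y h) (j : Fin 𝒞.d)
    {k₁ k₂ : ℕ} (h₁ : 0 < k₁) (h₂ : 0 < k₂) {a₁ a₂ : Λ} (ha₁ : a₁ ∈ fl1 (T.U n) T.π k₁)
    (ha₂ : a₂ ∈ fl1 (T.U n) T.π k₂) {s : ℕ} {k : Fin s → ℕ} {v : Fin s → Fin 𝒞.d → Λ}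
    (hk : ∀ i, 0 < k i) (hv : ∀ i, v i ∈ 𝒞.fl T n (k i)) :
    clL J (T.U n) (𝒞.Jm h (sg y * (∏ i, dl (v i)) *
      (dl (Pi.single j a₁) * dl (Pi.single j a₂)))) ∈
      𝒞.FF T (s + 1) (∑ i, k i + (k₁ + k₂)) := by
  have hπ := T.π_lt
  have hlt : ∀ {a : Λ} {m : ℕ}, 0 < m → a ∈ fl1 (T.U n) T.π m → ‖a‖ < 1 := fun hm ha =>
    ha.2.trans_lt (pow_lt_one₀ (norm_nonneg _) hπ hm.ne')
  choose ind hind using fun (i : Fin s) (j' : Fin 𝒞.d) =>
    exists_ind (L := T.U n) (k := k) hπ i (c := v i j') (mem_fl.1 (hv i) j')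
  obtain ⟨lam, hlam⟩ : ∃ lam : Fin 𝒞.d → (CU T n k)[X], ∀ (A : Finset (Fin s)) (t : Λ),
      (fun i => (lA lam A i).eval t) = y + ∑ i ∈ A, v i + Pi.single j t := by
    refine ⟨fun j' => C (cstC hπ k ⟨y j', hg.y_mem j', hg.gd.y_le j'⟩ + ∑ i, ind i j') +
      if j' = j then X else 0, fun A t => funext fun j' => ?_⟩
    have h1 : evA A (cstC hπ k (⟨y j', hg.y_mem j', hg.gd.y_le j'⟩ : OL (T.U n))) = y j' :=
      DFunLike.congr_fun (evA_cstC (L := T.U n) (hπ := hπ) (k := k) A)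
        ⟨y j', hg.y_mem j', hg.gd.y_le j'⟩
    rw [lA, Polynomial.map_add, map_C, eval_add, eval_C, map_add, h1, map_sum, Pi.add_apply,
      Pi.add_apply, Finset.sum_apply, Pi.single_apply]
    congr 1
    · simp only [hind, Finset.sum_ite_mem, Finset.univ_inter]
    · split_ifs <;> simp
  let b₁ : OL (T.U n) := ⟨a₁, ha₁.1, (hlt h₁ ha₁).le⟩
  let b₂ : OL (T.U n) := ⟨a₂, ha₂.1, (hlt h₂ ha₂).le⟩
  have hb : ‖((b₁ + b₂ : OL (T.U n)) : Λ)‖ < 1 :=
    (IsUltrametricDist.norm_add_le_max a₁ a₂).trans_lt (max_lt (hlt h₁ ha₁) (hlt h₂ ha₂))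
  have h0 : ‖((0 : OL (T.U n)) : Λ)‖ < 1 := by simp
  have key := BX (lam := lam) (h₀ := h) (μ := (X - C 0) * (X - C (b₁ + b₂)))
    (μ' := (X - C b₁) * (X - C b₂)) (k₁ := k₁ + k₂) hn hk (by rw [hlam]; simpa using hg)
    ((dist_X_sub h0).mul (dist_X_sub hb))
    ((dist_X_sub (hlt h₁ ha₁)).mul (dist_X_sub (hlt h₂ ha₂)))
    (by rw [(monic_X_sub_C _).natDegree_mul (monic_X_sub_C _),
      (monic_X_sub_C _).natDegree_mul (monic_X_sub_C _)]; simp only [natDegree_X_sub_C])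
    (by omega) fun i => by
      have e : (X - C b₁) * (X - C b₂) - (X - C 0) * (X - C (b₁ + b₂)) = C (b₁ * b₂) := by
        rw [map_zero, map_add, map_mul]; ring
      rw [e, coeff_C]
      split_ifs
      · rw [pow_add]
        exact (norm_mul a₁ a₂).le.trans (mul_le_mul ha₁.2 ha₂.2 (norm_nonneg _) (by positivity))
      · simp
  rw [Fintype.card_fin] at key
  have hblk : ∀ (A : Finset (Fin s)) (c c' : OL (T.U n)),
      𝒞.blk h (lA lam A) (((X - C c) * (X - C c')).map (OL _).subtype) =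
        𝒞.Jm h (sg (y + ∑ i ∈ A, v i + Pi.single j (c : Λ)) +
          sg (y + ∑ i ∈ A, v i + Pi.single j (c' : Λ))) := fun A c c' => by
    rw [blk, Polynomial.map_mul, Polynomial.map_sub, Polynomial.map_sub, map_X, map_C, map_C,
      roots_mul (mul_ne_zero (X_sub_C_ne_zero _) (X_sub_C_ne_zero _)), roots_X_sub_C,
      roots_X_sub_C, Multiset.map_add, Multiset.map_singleton, Multiset.map_singleton,
      Multiset.sum_add, Multiset.sum_singleton, Multiset.sum_singleton, hlam, hlam]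
    rfl
  have e := map_alt (((clL J (T.U n)).comp (𝒞.Jm h)).comp
    (AddMonoidHom.mulRight (-(dl (Pi.single j a₁) * dl (Pi.single j a₂)))))
    fun A : Finset (Fin s) => sg (y + ∑ i ∈ A, v i)
  rw [alt_sg] at e
  rw [← neg_mem_iff, ← map_neg, ← map_neg, ← mul_neg]
  refine e ▸ ?_
  convert key using 3 with A
  rw [hblk, hblk, ← map_sub]
  simp only [AddMonoidHom.comp_apply, AddMonoidHom.coe_mulRight]
  congr 2
  have hsg : ∀ x x' : Fin 𝒞.d → Λ, sg (x + x') = sg x * sg x' := fun x x' => by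
    rw [AddMonoidAlgebra.single_mul_single, mul_one]
  have h3 : ((b₁ + b₂ : OL (T.U n)) : Λ) = a₁ + a₂ := rfl
  rw [h3, Pi.single_add, ZeroMemClass.coe_zero, Pi.single_zero, add_zero, hsg _ (Pi.single j _),
    hsg _ (Pi.single j _), hsg _ (_ + _), hsg (Pi.single j _), dl, dl]
  ring

theorem FF_succ_le {s w : ℕ} (hs : 𝒞.d ≤ s + 1) : 𝒞.FF T (s + 2) w ≤ 𝒞.FF T (s + 1) w := by
  refine FF_le fun n hn => Sig_le_of_II fun y h hg x hx => ?_
  refine II_le_axis (fl1_anti T.π_lt) hs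
    (H := (𝒞.FF T (s + 1) w).comap ((clL J (T.U n)).comp (𝒞.Jm h)))
    (fun x hx => Sig_le_FF hn (mem_Sig hg hx))
    (fun y' j k₁ k₂ a₁ a₂ k v hy hw h₁ h₂ ha₁ ha₂ hk hv => ?_) hx
  have h3 := (mem_fl_one hn).1 hy
  have h4 : ∀ i, ‖y' i - y i‖ < 1 := fun i => (h3 i).2
  have h5 := hg.hen (T.le n) h4 fun i => by
    simpa using add_mem (h3 i).1 (hg.y_mem i)
  have h6 := FF_mono le_rfl hw (S3 hn h5 j h₁ h₂ ha₁ ha₂ hk hv)
  rwa [Jm_congr (hg.gd.ep.hen_spec h4).2] at h6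

theorem Gw_le_FF (w : ℕ) : 𝒞.Gw T w ≤ 𝒞.FF T (𝒞.d + 1) w := by
  have h1 : ∀ m, 𝒞.FF T (𝒞.d + m + 1) w ≤ 𝒞.FF T (𝒞.d + 1) w := fun m => by
    induction m with
    | zero => exact le_rfl
    | succ m ih => exact (FF_succ_le (s := 𝒞.d + m) (by omega)).trans ih
  exact iSup_le fun s => (FF_mono (by omega) le_rfl).trans (h1 s)

/-- the case of a single curve -/
theorem BX0 (hn : 0 < n) {lam : Fin 𝒞.d → (OL (T.U n))[X]} {h₀ : Λ}
    (hg : 𝒞.GdL (T.U n) (fun i => (lam i).eval₂ (OL _).subtype 0) h₀) {μ μ' : (OL (T.U n))[X]}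
    (hμ : Dist μ) (hμ' : Dist μ') (hd : μ'.natDegree = μ.natDegree) :
    clL J (T.U n) (𝒞.blk h₀ (fun i => (lam i).map (OL _).subtype) (μ'.map (OL _).subtype) -
      𝒞.blk h₀ (fun i => (lam i).map (OL _).subtype) (μ.map (OL _).subtype)) ∈ 𝒞.Vu T := by
  have hl : ∀ A : Finset (Fin 0),
      lA (T := T) (fun i => (lam i).map (cstC T.π_lt fun _ : Fin 0 => 1)) A =
        fun i => (lam i).map (OL _).subtype := fun A => funext fun i => by
    rw [lA, Polynomial.map_map, evA_cstC]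
  have key := BX (lam := fun i => (lam i).map (cstC T.π_lt fun _ : Fin 0 => 1)) (h₀ := h₀)
    (k₁ := 1) hn (fun _ => one_pos) (by simpa only [hl, eval_map] using hg) hμ hμ' hd one_pos
    fun i => by
      rw [pow_one]
      refine T.π_max_U hn ((μ' - μ).coeff i).2.1 ?_
      rw [coeff_sub]
      rcases lt_trichotomy i μ.natDegree with hi | rfl | hi
      · rw [AddSubgroupClass.coe_sub, sub_eq_add_neg]
        refine (IsUltrametricDist.norm_add_le_max _ _).trans_lt (max_lt (hμ'.lt i (hd ▸ hi)) ?_)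
        rw [norm_neg]
        exact hμ.lt i hi
      · rw [hμ.monic.coeff_natDegree, ← hd, hμ'.monic.coeff_natDegree]
        simp
      · rw [coeff_eq_zero_of_natDegree_lt hi, coeff_eq_zero_of_natDegree_lt (hd ▸ hi)]
        simp
  rw [alt_empty, hl] at key
  exact Gw_le_Vu (Nat.succ_pos _) (FF_le_Gw key)

end Chart

end Pool.Agent.ZeroCyc
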