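import Pool.Agent.Lib.MP_796ce4_ag.ZY.PRa
import Pool.Agent.Lib.MP_796ce4_ag.ZY.GR

/-! Propagation. -/

namespace Pool.Agent.ZeroCyc

open Polynomial Module
open scoped Classical IntermediateField PowerSeries

set_option linter.unusedSectionVars false

variable {p : ℕ} {K Λ : Type} [Field K] [CharZero K] [NormedField Λ] [IsUltrametricDist Λ]
  [IsAlgClosed Λ] [Algebra K Λ] [IsGalois K Λ] [Loc p K Λ] [Fact p.Prime] [CharP (kk Λ) p]

variable {N : ℕ} {J : Ideal (MvPolynomial (Fin (N + 1)) K)} {B : IntermediateField K Λ}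

theorem pr_iter (σ : Λ ≃ₐ[K] Λ) (a i : ℕ) (z : Λ × Λ) :
    (pm (σ ^ a : Λ ≃ₐ[K] Λ))^[i] z = ((σ ^ (a * i)) z.1, (σ ^ (a * i)) z.2) := by
  rw [pm, Prod.map_iterate, pow_mul, AlgEquiv.coe_pow (σ ^ a) i]
  rfl

theorem pr_inj (σ : Λ ≃ₐ[K] Λ) : Function.Injective (pm σ) := σ.injective.prodMap σ.injective

namespace Chart

variable {𝒞 : Chart J B} {T : Tower p B}

theorem pr_fl_mono {n m k : ℕ} (hn : 0 < n) (hm : 0 < m) (h : n ∣ m) {v : Fin 𝒞.d → Λ}
    (hv : v ∈ 𝒞.fl T n k) : v ∈ 𝒞.fl T m k :=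
  mem_fl.2 fun i => ⟨T.mono hn hm h (mem_fl.1 hv i).1, (mem_fl.1 hv i).2⟩

/-- the cycle of a moving zero over the generator -/
theorem pr_loc {a D s : ℕ} (hn : 0 < a * D) {k : Fin (s + 1) → ℕ} {y : Fin 𝒞.d → Λ} {h : Λ}
    {v : Fin (s + 1) → Fin 𝒞.d → Λ} {ζ : Λ} {lam : Fin 𝒞.d → (CU T a k)[X]}
    {G : (CU T a k)[X][X]} {u : (OL (T.U a))[X]} (P : 𝒞.PRD D y h v ζ lam G u)
    (hv : ∀ i, v i ∈ 𝒞.fl T (a * D) (k i)) {m : ℕ} (hm : 0 < m) (hd : a * D ∣ m) {η : Λ}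
    {pt : Finset (Fin (s + 1)) → Λ × Λ} (hz : 𝒞.MovZ lam G m (ζ, η) pt) :
    clL J (T.U m) (𝒞.cyc lam (ζ, η) pt) - clL J (T.U m) (𝒞.Jm η
      (sg y * ∏ i, dl (if i = 0 ∧ η ≠ h then 0 else v i))) ∈
      𝒞.FF T s (∑ i, k i) ⊔ 𝒞.Gw T (∑ i, k i + 1) := by
  have hk := P.grd.hk
  have hy : (fun j => (lA lam ∅ j).eval ζ) = y := funext P.val
  have h1 := hz.sub_mem hk
  have hg := hz.gd
  have ho := hz.on ∅
  rw [hz.base] at ho
  simp only [P.val, Fintype.card_fin, Nat.add_sub_cancel] at h1 hg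
  have h2 := gen_sub_gen (fil := 𝒞.fl T m) (y₀ := y) (y := y) (y' := y) fl_anti
    (by rw [sub_self]; exact zero_mem _) (by rw [sub_self]; exact zero_mem _) hk
    (v := fun i => if i = 0 ∧ η ≠ h then 0 else v i)
    (v' := fun i j => (lA lam {i} j).eval (pt {i}).1 - y j)
    (fun i => by
      split_ifs
      · exact zero_mem _
      · exact pr_fl_mono hn hm hd (hv i))
    (fun i => P.main m η i (pt {i}) hm hd ho (hz.on _) (hz.zero _) (hz.mem _) (hz.near _).1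
      (hz.near _).2)
  have h3 := FF_le_Gw (Sig_le_FF hm (mem_Sig hg h2))
  rw [map_sub, map_sub] at h3
  have h4 := add_mem (AddSubgroup.mem_sup_left (T := 𝒞.Gw T (∑ i, k i + 1)) (Sig_le_FF hm h1))
    (AddSubgroup.mem_sup_right h3)
  rwa [sub_add_sub_cancel] at h4

theorem PR {a D : ℕ} (hD : 0 < D) (ha : 2 * D * (𝒞.b * 𝒞.δ + 𝒞.D₀.totalDegree + 1) ≤ a)
    (s w : ℕ) : 𝒞.Sig T (a * D) (s + 1) w ≤ (⨆ c ∈ Finset.Icc 1 𝒞.δ, 𝒞.Sig T (a * c) (s + 1) w) ⊔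
      (𝒞.FF T s w ⊔ 𝒞.Gw T (w + 1)) := by
  have ha0 : 0 < a := lt_of_lt_of_le (by positivity) ha
  have hn : 0 < a * D := Nat.mul_pos ha0 hD
  refine Sig_le_exact hn (fun y h hg k v hw hk hv => ?_) (le_sup_left.trans le_sup_right)
    (le_sup_right.trans le_sup_right)
  subst hw
  obtain ⟨ζ, lam, G, u, P⟩ := exists_PRD hD ha hg hk hv
  obtain ⟨𝒵, pt, hZ, hrel, hgal, hmov⟩ := GR P.grd 0 fun A =>
    (congrArg (lA lam) (Finset.ext fun i => by simp only [Finset.mem_insert])).trans (P.ind A)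
  set ψ : Λ × Λ → Λ × Λ := pm (T.φ ^ a : Λ ≃ₐ[K] Λ) with hψ
  have hinj : Function.Injective ψ := pr_inj _
  have hit : ∀ i z, ψ^[i] z = ((T.φ ^ (a * i)) z.1, (T.φ ^ (a * i)) z.2) := pr_iter T.φ a
  have horb : ∀ z ∈ 𝒵, ∀ i, ψ^[i] z ∈ 𝒵 ∧ ∀ L : IntermediateField K Λ,
      clL J L (𝒞.cyc lam (ψ^[i] z) (pt (ψ^[i] z))) = clL J L (𝒞.cyc lam z (pt z)) := by
    intro z hz i
    induction i with
    | zero => exact ⟨hz, fun _ => rfl⟩
    | succ i ih =>
      rw [Function.iterate_succ_apply']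
      exact ⟨(hgal _ ih.1).1, fun L => by rw [(hgal _ ih.1).2, clL_gal, ih.2]⟩
  have hζ : (T.φ ^ (a * D)) ζ = ζ := T.fix_U _ hn _ P.mem
  have hz0 : (ζ, h) ∈ 𝒵 := (hZ _).2 ⟨P.root, on_cL.2 (by simpa only [P.val] using hg.gd.on)⟩
  have hp0 : ψ^[D] (ζ, h) = (ζ, h) := by rw [hit, hζ, T.fix_U _ hn _ hg.h_mem]
  set O := (Finset.range D).image fun i => ψ^[i] (ζ, h) with hO
  have hmO : ∀ z, z ∈ O ↔ ∃ i, ψ^[i] (ζ, h) = z := fun z => by
    rw [hO, Finset.mem_image]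
    refine ⟨fun ⟨i, _, e⟩ => ⟨i, e⟩, fun ⟨i, e⟩ =>
      ⟨i % D, Finset.mem_range.2 (Nat.mod_lt _ hD), ?_⟩⟩
    rw [← e]
    exact Function.IsPeriodicPt.iterate_mod_apply hp0 i
  have hOZ : O ⊆ 𝒵 := fun z hz => by
    obtain ⟨i, rfl⟩ := (hmO z).1 hz
    exact (horb _ hz0 i).1
  have hmain : clL J (T.U a) (∑ z ∈ O, 𝒞.cyc lam z (pt z)) =
      clL J (T.U (a * D)) (𝒞.cyc lam (ζ, h) (pt (ζ, h))) := by
    rw [hO, Finset.sum_image, map_sum, Finset.sum_congr rfl fun i _ => (horb _ hz0 i).2 _,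
      Finset.sum_const, Finset.card_range, T.clL_mul ha0 hD]
    intro i hi j hj e
    refine P.inj i (by simpa using hi) j (by simpa using hj) ?_
    simpa only [hit] using congrArg Prod.fst e
  have hrest : clL J (T.U a) (∑ z ∈ 𝒵 \ O, 𝒞.cyc lam z (pt z)) ∈
      (⨆ c ∈ Finset.Icc 1 𝒞.δ, 𝒞.Sig T (a * c) (s + 1) (∑ i, k i)) ⊔
        (𝒞.FF T s (∑ i, k i) ⊔ 𝒞.Gw T (∑ i, k i + 1)) := by
    refine T.orbit_mem ha0 _ ψ (fun z hz => ?_) hinj.injOn _
      (fun z hz => (hgal z (Finset.mem_sdiff.1 hz).1).2) _ fun z hz c hc hper hmin => ?_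
    · obtain ⟨h1, h2⟩ := Finset.mem_sdiff.1 hz
      refine Finset.mem_sdiff.2 ⟨(hgal z h1).1, fun h3 => h2 ?_⟩
      obtain ⟨i, e⟩ := (hmO _).1 h3
      refine (hmO _).2 ⟨i + (D - 1), hinj ?_⟩
      rw [← Function.iterate_succ_apply' ψ, show (i + (D - 1)).succ = i + D by omega,
        Function.iterate_add_apply, hp0, e]
    obtain ⟨h1, h2⟩ := Finset.mem_sdiff.1 hz
    rcases P.roots _ ((hZ z).1 h1).1 with h3 | ⟨i, hi, h3⟩
    · have hf : ∀ i, (ψ^[i] z).1 = z.1 := fun i => by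
        rw [hit, pow_mul]
        exact (T.fix_U a ha0).pow i _ h3
      have hlt : ∀ i j, i < j → j < c → (ψ^[i] z).2 ≠ (ψ^[j] z).2 := fun i j hij hj e => by
        refine hmin (j - i) (by omega) (by omega) (hinj.iterate i ?_)
        rw [← Function.iterate_add_apply, show i + (j - i) = j by omega]
        exact Prod.ext (by rw [hf, hf]) e.symm
      have hc' : c ≤ 𝒞.δ := by
        have h4 := card_fibre_le (𝒞.wt_crv (OL B).subtype (natDegree_lA P.grd.he ∅)) (t := z.1)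
          ((Finset.range c).image fun i => (ψ^[i] z).2) (fun y hy => by
            obtain ⟨i, -, rfl⟩ := Finset.mem_image.1 hy
            rw [← hf i]
            exact ((hZ _).1 (horb z h1 i).1).2)
        rwa [Finset.card_image_of_injOn, Finset.card_range] at h4
        intro i hi j hj e
        rcases lt_trichotomy i j with h5 | h5 | h5
        · exact absurd e (hlt i j h5 (by simpa using hj))
        · exact h5
        · exact absurd e.symm (hlt j i h5 (by simpa using hi))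
      have h4 := (hmov z h1 c hc hper).mem_Sig hk
      rw [Fintype.card_fin] at h4
      exact AddSubgroup.mem_sup_left ((le_iSup₂_of_le (f := fun c (_ : c ∈ Finset.Icc 1 𝒞.δ) =>
        𝒞.Sig T (a * c) (s + 1) (∑ i, k i)) c (Finset.mem_Icc.2 ⟨hc, hc'⟩) le_rfl) h4)
    · have h4 : (ψ^[D - i] z).1 = ζ := by
        rw [hit, h3]
        change (T.φ ^ (a * (D - i)) * T.φ ^ (a * i)) ζ = ζ
        rw [← pow_add, ← mul_add, Nat.sub_add_cancel hi.le, hζ]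
      obtain ⟨h5, h6⟩ := horb z h1 (D - i)
      have h7 : ψ^[c] (ψ^[D - i] z) = ψ^[D - i] z := by
        rw [← Function.iterate_add_apply, add_comm, Function.iterate_add_apply, hper]
      have h8 : (ψ^[D - i] z).2 ≠ h := fun e => h2 ((hmO z).2 ⟨(c - 1) * (D - i), by
        rw [← h4, ← e, Prod.mk.eta, ← Function.iterate_add_apply, ← Nat.succ_mul,
          show (c - 1).succ = c by omega]
        exact (show Function.IsPeriodicPt ψ c z from hper).mul_const _⟩)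
      rw [← h6]
      generalize ψ^[D - i] z = z' at h4 h5 h7 h8
      obtain ⟨ζ', η⟩ := z'
      obtain rfl : ζ' = ζ := h4
      have h9 : D ∣ c := by
        have e1 : Function.IsPeriodicPt (T.φ ^ a : Λ ≃ₐ[K] Λ) D ζ' := by
          rwa [pow_mul, AlgEquiv.coe_pow] at hζ
        have e2 : Function.IsPeriodicPt (T.φ ^ a : Λ ≃ₐ[K] Λ) c ζ' := by
          have := congrArg Prod.fst h7
          rwa [hit, pow_mul, AlgEquiv.coe_pow] at this
        refine Nat.dvd_of_mod_eq_zero (P.inj _ (Nat.mod_lt _ hD) 0 hD ?_)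
        rw [pow_mul, AlgEquiv.coe_pow, mul_zero, pow_zero]
        exact e2.mod e1
      have h10 := pr_loc hn P hv (Nat.mul_pos ha0 hc) (Nat.mul_dvd_mul_left a h9)
        (hmov _ h5 c hc h7)
      rw [Finset.prod_eq_zero (Finset.mem_univ 0) (by
        rw [if_pos ⟨rfl, h8⟩, dl]; exact sub_self _), mul_zero, map_zero, map_zero, sub_zero] at h10
      exact AddSubgroup.mem_sup_right h10
  have h1 := pr_loc hn P hv hn dvd_rfl (hmov _ hz0 D hD hp0)
  simp only [ne_eq, not_true_eq_false, and_false, if_false] at h1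
  have h2 : clL J (T.U (a * D)) (𝒞.cyc lam (ζ, h) (pt (ζ, h))) =
      -clL J (T.U a) (∑ z ∈ 𝒵 \ O, 𝒞.cyc lam z (pt z)) := by
    rw [← Finset.sum_sdiff hOZ, map_add, hmain] at hrel
    simp only [Pi.zero_apply, map_zero, alt, smul_zero, Finset.sum_const_zero, zero_add] at hrel
    exact eq_neg_of_add_eq_zero_right hrel
  have h3 := sub_mem (neg_mem hrest) (AddSubgroup.mem_sup_right h1)
  rwa [← h2, sub_sub_cancel] at h3

theorem FF_fin (s w : ℕ) :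
    FinMod (𝒞.FF T (s + 1) w) (𝒞.FF T s w ⊔ 𝒞.Gw T (w + 1)) := by
  obtain ⟨M, hM⟩ := tower_lemma (fun n => 𝒞.Sig T n (s + 1) w) (𝒞.FF T s w ⊔ 𝒞.Gw T (w + 1)) 𝒞.δ
    (fun D => 2 * D * (𝒞.b * 𝒞.δ + 𝒞.D₀.totalDegree + 1))
    (fun n j hn hj x hx => Sig_mul hn hj hx) fun a D _ hD ha => PR hD ha s w
  exact FinMod.of_le_sup (FinMod.biSup _ fun m hm => Sig_fin (Finset.mem_Icc.1 hm).1 s w)
    (iSup₂_le fun m hm => Sig_le_FF (Finset.mem_Icc.1 hm).1) (FF_le hM)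

theorem FF_fin' (s : ℕ) {w : ℕ} (hw : 0 < w) : FinMod (𝒞.FF T s w) (𝒞.Gw T (w + 1)) := by
  induction s with
  | zero => exact FinMod.of_le (by rw [FF_zero hw]; exact bot_le)
  | succ s ih =>
    obtain ⟨s₁, h1, h2⟩ := FF_fin (𝒞 := 𝒞) (T := T) s w
    obtain ⟨s₂, h3, h4⟩ := ih
    refine ⟨s₁ ∪ s₂, fun x hx => (Finset.mem_union.1 hx).elim (h1 x) fun h =>
      FF_mono s.le_succ le_rfl (h3 x h), h2.trans ?_⟩
    rw [Finset.coe_union, AddSubgroup.closure_union, sup_assoc]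
    exact sup_le_sup_left (sup_le h4 le_sup_right) _

end Chart

end Pool.Agent.ZeroCyc
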