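import Pool.Agent.Lib.MP_796ce4_ag.ZY.LinA
import Pool.Agent.Lib.MP_796ce4_ag.ZY.Gen
import Pool.Agent.Lib.MP_796ce4_ag.ZY.PR
import Pool.Agent.Lib.MP_796ce4_ag.ZY.BX

/-! The group of congruent differences: divisibility and finiteness. -/

namespace Pool.Agent.ZeroCyc

open Polynomial Module
open scoped Classical IntermediateField PowerSeries

set_option linter.unusedSectionVars false

variable {p : ℕ} {K Λ : Type} [Field K] [CharZero K] [NormedField Λ] [IsUltrametricDist Λ]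
  [IsAlgClosed Λ] [Algebra K Λ] [IsGalois K Λ] [Loc p K Λ] [Fact p.Prime] [CharP (kk Λ) p]

variable {N : ℕ} {J : Ideal (MvPolynomial (Fin (N + 1)) K)} {B : IntermediateField K Λ}

/-- the nice elements -/
def niceG {V : Type} [AddCommGroup V] (p : ℕ) (H : AddSubgroup V) : AddSubgroup V where
  carrier := {x | Nice p H x}
  zero_mem' := nice_zero p H
  add_mem' := Nice.add
  neg_mem' := Nice.neg

theorem lin_shift {σ F : Type} [Field F] [Infinite F] {Θ : MvPolynomial σ F} (h : Θ ≠ 0)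
    (b : σ → F) : ∃ Θ' : MvPolynomial σ F, Θ' ≠ 0 ∧ ∀ e : σ → F, MvPolynomial.eval e Θ' ≠ 0 →
      MvPolynomial.eval e Θ ≠ 0 ∧ MvPolynomial.eval (fun i => e i - b i) Θ ≠ 0 := by
  have h1 : ∀ e : σ → F, MvPolynomial.eval e
      (MvPolynomial.bind₁ (fun i => MvPolynomial.X i - MvPolynomial.C (b i)) Θ) =
      MvPolynomial.eval (fun i => e i - b i) Θ := by
    intro e
    clear h
    induction Θ using MvPolynomial.induction_on with
    | C a => simp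
    | add f g hf hg => rw [map_add, map_add, map_add, hf, hg]
    | mul_X f i hf =>
      rw [map_mul, map_mul, map_mul, hf]
      simp
  refine ⟨Θ * MvPolynomial.bind₁ (fun i => MvPolynomial.X i - MvPolynomial.C (b i)) Θ,
    mul_ne_zero h fun h0 => h (MvPolynomial.funext fun e => ?_), fun e he => ?_⟩
  · have h2 := h1 fun i => e i + b i
    rw [h0] at h2
    simpa using h2.symm
  · rw [map_mul, h1] at he
    exact ⟨left_ne_zero_of_mul he, right_ne_zero_of_mul he⟩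

namespace Chart

variable {𝒞 : Chart J B} {T : Tower p B} {n : ℕ}

theorem line (hI : 𝒞.Irr) (hn : 0 < n) {y : Fin 𝒞.d → Λ} {h : Λ} (hg : 𝒞.GdL (T.U n) y h)
    {k : ℕ} (hk : 0 < k) {v : Fin 𝒞.d → Λ} (hv : v ∈ 𝒞.fl T n k) :
    Nice p (𝒞.Vu T) (clL J (T.U n) (𝒞.Jm h (sg (y + v) - sg y))) ∧
      (‖T.π‖ ^ k < ‖(p : Λ)‖ ^ 2 →
        clL J (T.U n) (𝒞.Jm h (sg (y + v) - sg y)) ∈ mulS p (𝒞.Vu T)) := by
  rw [mem_fl] at hv
  have hx0 : T.π ^ k ≠ 0 := pow_ne_zero k T.π_ne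
  have hx1 : ‖T.π ^ k‖ < 1 := by
    rw [norm_pow]
    exact pow_lt_one₀ (norm_nonneg _) T.π_lt hk.ne'
  have hxm : ∀ m, T.π ^ k ∈ T.U m := fun m => pow_mem (T.le m T.π_mem) k
  have hv1 : ∀ i, ‖(y + v) i - y i‖ < 1 := fun i => by
    rw [Pi.add_apply, add_sub_cancel_left]
    exact (hv i).2.trans_lt (by rwa [norm_pow] at hx1)
  have hw1 : ∀ i, ‖v i / T.π ^ k‖ ≤ 1 := fun i => by
    rw [norm_div, norm_pow]
    exact div_le_one_of_le₀ (hv i).2 (pow_nonneg (norm_nonneg _) k)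
  have hwm : ∀ i, v i / T.π ^ k ∈ T.U n := fun i => div_mem (hv i).1 (hxm n)
  obtain ⟨Θ, hΘ, hirr⟩ := Gk.bertini hI hg.gd.gk
  obtain ⟨Θ', hΘ', hsh⟩ := lin_shift hΘ fun i => rs (v i / T.π ^ k)
  obtain ⟨n₀, hn₀⟩ := T.exists_eval_ne hΘ'
  have hgv : 𝒞.Gd (y + v) (𝒞.hen h (y + v)) := hg.gd.hen hv1
  have hJ : 𝒞.Jm (𝒞.hen h (y + v)) = 𝒞.Jm h := Jm_congr (hg.gd.ep.hen_spec hv1).2
  have hrs : ∀ i, rs ((y + v) i) = rs (y i) := fun i =>
    (rs_eq_iff (hgv.y_le i) (hg.gd.y_le i)).2 (hv1 i)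
  have key : ∀ j, n₀ + (cst 𝒞.δ 𝒞.b 𝒞.W + 𝒞.δ * (3 * cst 𝒞.δ 𝒞.b 𝒞.W + 1)) ^ 2 + 1 ≤ j →
      j • clL J (T.U n) (𝒞.Jm h (sg (y + v) - sg y)) ∈ niceG p (𝒞.Vu T) ∧
      (‖T.π‖ ^ k < ‖(p : Λ)‖ ^ 2 →
        j • clL J (T.U n) (𝒞.Jm h (sg (y + v) - sg y)) ∈ mulS p (𝒞.Vu T)) := by
    intro j hj
    have hj0 : 0 < j := by omega
    have hm : 0 < n * j := Nat.mul_pos hn hj0
    have hjm : j ≤ n * j := Nat.le_mul_of_pos_left j hn
    have hle : T.U n ≤ T.U (n * j) := T.mono hn hm (dvd_mul_right n j)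
    have hq : (cst 𝒞.δ 𝒞.b 𝒞.W + 𝒞.δ * (3 * cst 𝒞.δ 𝒞.b 𝒞.W + 1)) ^ 2 ≤ p ^ (T.r * (n * j)) := by
      have h1 : T.r * (n * j) < p ^ (T.r * (n * j)) :=
        Nat.lt_pow_self (Fact.out : p.Prime).one_lt
      have h2 : n * j ≤ T.r * (n * j) := Nat.le_mul_of_pos_left _ T.r_pos
      omega
    obtain ⟨e, he⟩ := hn₀ (n * j) (by omega)
    obtain ⟨he1, he2⟩ := hsh _ he
    simp only [rL_apply] at he1 he2
    have g1 : 𝒞.GdL (T.U (n * j)) y h := hg.mono hle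
    have g2 : 𝒞.GdL (T.U (n * j)) (y + v) (𝒞.hen h (y + v)) :=
      GdL.hen (p := p) g1 (T.le _) hv1 fun i => add_mem (g1.y_mem i) (hle (hv i).1)
    have l1 := line1 hm g1 (e := fun i => (e i : Λ)) (fun i => (e i).2) (hirr _ he1) hq
      (hxm _) hx1
    have l2 := line1 hm g2 (e := fun i => (e i : Λ) - v i / T.π ^ k)
      (fun i => sub_mem (e i).2 (mem_OL.2 ⟨hle (hwm i), hw1 i⟩))
      (by
        have h3 : ∀ i, rs ((e i : Λ) - v i / T.π ^ k) = rs (e i : Λ) - rs (v i / T.π ^ k) :=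
          fun i => rs_sub (mem_OL.1 (e i).2).2 (hw1 i)
        simp only [hrs, h3]
        exact hirr _ he2) hq (hxm _) hx1
    have e1 : y + v + T.π ^ k • (fun i => (e i : Λ) - v i / T.π ^ k) =
        y + T.π ^ k • fun i => (e i : Λ) := by
      funext i
      simp only [Pi.add_apply, Pi.smul_apply, smul_eq_mul]
      field_simp
      ring
    rw [hJ, e1] at l2
    have e2 : j • clL J (T.U n) (𝒞.Jm h (sg (y + v) - sg y)) =
        clL J (T.U (n * j)) (𝒞.Jm h (sg (y + T.π ^ k • fun i => (e i : Λ)) - sg y)) -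
        clL J (T.U (n * j)) (𝒞.Jm h (sg (y + T.π ^ k • fun i => (e i : Λ)) - sg (y + v))) := by
      rw [← T.clL_mul hn hj0, ← map_sub, ← map_sub, sub_sub_sub_cancel_left]
    rw [e2, norm_pow] at *
    exact ⟨(niceG p (𝒞.Vu T)).sub_mem l1.1 l2.1, fun hp => sub_mem (l1.2 hp) (l2.2 hp)⟩
  exact ⟨mem_of_eventually (H := niceG p (𝒞.Vu T)) fun j hj => ⟨j, dvd_rfl, (key j hj).1⟩,
    fun hp => mem_of_eventually fun j hj => ⟨j, dvd_rfl, (key j hj).2 hp⟩⟩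

theorem Vu_nice (hI : 𝒞.Irr) {x : VV Λ J} (hx : x ∈ 𝒞.Vu T) : Nice p (𝒞.Vu T) x :=
  Vu_le (H := niceG p (𝒞.Vu T)) (fun _ hn _ _ hg _ hv => (line hI hn hg one_pos hv).1) hx

theorem exists_Gw_le (hI : 𝒞.Irr) : ∃ w, 𝒞.Gw T w ≤ mulS p (𝒞.Vu T) := by
  have : CharZero Λ := charZero_of_injective_algebraMap (algebraMap K Λ).injective
  have hp : 0 < ‖(p : Λ)‖ ^ 2 :=
    pow_pos (norm_pos_iff.2 (Nat.cast_ne_zero.2 (Fact.out : p.Prime).ne_zero)) 2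
  obtain ⟨m, hm⟩ := exists_pow_lt_of_lt_one hp T.π_lt
  have hm' : ‖T.π‖ ^ (m + 1) < ‖(p : Λ)‖ ^ 2 :=
    (pow_le_pow_of_le_one (norm_nonneg _) T.π_lt.le (Nat.le_succ m)).trans_lt hm
  exact ⟨(𝒞.d + 1) * m + 1, (Gw_le_FF _).trans (FF_le_diff (Nat.lt_succ_self _)
    fun _ hn _ _ hg _ hv => (line hI hn hg (Nat.succ_pos m) hv).2 hm')⟩

theorem lin_fin (w : ℕ) : FinMod (𝒞.Vu T) (𝒞.Gw T (w + 1)) := by
  induction w with
  | zero => exact FinMod.of_le le_rfl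
  | succ w ih =>
    exact ih.trans ((FF_fin' (𝒞.d + 1) (Nat.succ_pos w)).of_le_sup FF_le_Gw
      ((Gw_le_FF _).trans le_sup_left)) (Gw_le_Vu (Nat.succ_pos w))

theorem Vu_fin (hI : 𝒞.Irr) : FinMod (𝒞.Vu T) (mulS p (𝒞.Vu T)) := by
  obtain ⟨w, hw⟩ := exists_Gw_le (T := T) hI
  exact (lin_fin w).mono ((Gw_anti (Nat.le_succ w)).trans hw)

end Chart

end Pool.Agent.ZeroCyc
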