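import Pool.Agent.Lib.MP_796ce4_ag.ZY.GRa
import Pool.Agent.Lib.MP_796ce4_ag.ZY.SigB
import Pool.Agent.Lib.MP_796ce4_ag.ZY.Gen

/-! Propagation: the curve and the function. -/

namespace Pool.Agent.ZeroCyc

open Polynomial Module
open scoped Classical IntermediateField PowerSeries

set_option linter.unusedSectionVars false

variable {p : ℕ} {K Λ : Type} [Field K] [CharZero K] [NormedField Λ] [IsUltrametricDist Λ]
  [IsAlgClosed Λ] [Algebra K Λ] [IsGalois K Λ] [Loc p K Λ] [Fact p.Prime] [CharP (kk Λ) p]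

variable {N : ℕ} {J : Ideal (MvPolynomial (Fin (N + 1)) K)} {B : IntermediateField K Λ}

/-- products of incongruent linear factors -/
theorem pra_sep {I : Type} [Fintype I] {z : I → Λ} (hz : ∀ i, ‖z i‖ ≤ 1)
    (hd : ∀ i j, ‖z i - z j‖ < 1 → i = j) {τ : Λ} (hτ : ‖τ‖ ≤ 1)
    (h : ‖(∏ i, (X - C (z i))).eval τ‖ < 1) :
    (∃ i, ‖τ - z i‖ < 1) ∧ ‖(derivative (∏ i, (X - C (z i)))).eval τ‖ = 1 := by
  have hle : ∀ i, ‖τ - z i‖ ≤ 1 := fun i => (gal1_O Λ).sub_mem hτ (hz i)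
  have key : ∀ s : Finset I, (∀ i ∈ s, ¬‖τ - z i‖ < 1) →
      ‖(∏ i ∈ s, (X - C (z i))).eval τ‖ = 1 := fun s hs => by
    rw [eval_prod, norm_prod]
    refine Finset.prod_eq_one fun i hi => ?_
    rw [eval_sub, eval_X, eval_C]
    exact le_antisymm (hle i) (not_lt.1 (hs i hi))
  have h1 : ∃ i, ‖τ - z i‖ < 1 := by
    by_contra hc
    rw [key _ fun i _ e => hc ⟨i, e⟩] at h
    exact lt_irrefl _ h
  refine ⟨h1, ?_⟩
  obtain ⟨i, hi⟩ := h1
  have h2 := key (Finset.univ.erase i) fun j hj e =>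
    (Finset.mem_erase.1 hj).1 (hd j i (gal1_trans_lt (tow_symm e) hi))
  have h3 : Intg (∏ j ∈ Finset.univ.erase i, (X - C (z j))) :=
    Intg.prod fun j _ => intg_X.sub (intg_C (hz j))
  rw [← Finset.mul_prod_erase _ _ (Finset.mem_univ i), ← h2]
  refine norm_eq_of_sub_lt ?_
  rw [h2, derivative_mul, derivative_X_sub_C, one_mul, eval_add, eval_mul, eval_sub, eval_X, eval_C,
    sub_add_cancel_left, norm_neg]
  exact tow_mul_lt hi (h3.derivative.eval_le hτ)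

/-- the first order estimate for a moving zero -/
theorem pra_est {u l : Λ[X]} (hu : Intg u) (hl : Intg l) {ζ τ c α ε : Λ} (hζ : ‖ζ‖ ≤ 1)
    (hτ : ‖τ - ζ‖ < 1) (h0 : u.eval ζ = 0) (hd : ‖u.derivative.eval ζ‖ = 1) (hc0 : c ≠ 0)
    (hc : ‖c‖ < 1) (hα : ‖α‖ ≤ 1) (he : u.eval τ + c * α = 0)
    (hκ : ‖α + ε * u.derivative.eval ζ‖ < 1) :
    ‖l.eval τ - l.eval ζ - ε * c * l.derivative.eval ζ‖ < ‖c‖ := by
  have hτ1 : ‖τ‖ ≤ 1 := gal1_le_one hζ (tow_symm hτ)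
  have hp : 0 < ‖c‖ := norm_pos_iff.2 hc0
  have h1 := hu.taylor_le hζ hτ1
  have h2 := hl.taylor_le hζ hτ1
  have hn := norm_nonneg (τ - ζ)
  have hcα : ‖c * α‖ ≤ ‖c‖ := by
    rw [norm_mul]
    exact mul_le_of_le_one_right hp.le hα
  have h3 : ‖τ - ζ‖ ≤ ‖c‖ := by
    by_contra hlt
    rw [not_le] at hlt
    have e : (τ - ζ) * u.derivative.eval ζ =
        -(c * α) - (u.eval τ - u.eval ζ - (τ - ζ) * u.derivative.eval ζ) := by
      linear_combination he - h0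
    have h4 : ‖(τ - ζ) * u.derivative.eval ζ‖ < ‖τ - ζ‖ := by
      rw [e]
      refine gal1_sub_lt ?_ (h1.trans_lt (by nlinarith))
      rw [norm_neg]
      exact hcα.trans_lt hlt
    rw [norm_mul, hd, mul_one] at h4
    exact lt_irrefl _ h4
  have h5 : ‖τ - ζ‖ ^ 2 < ‖c‖ := (pow_le_pow_left₀ hn h3 2).trans_lt (by
    rw [sq]
    exact mul_lt_of_lt_one_right hp hc)
  have h6 : ‖τ - ζ - ε * c‖ < ‖c‖ := by
    have e : (τ - ζ - ε * c) * u.derivative.eval ζ = -(c * (α + ε * u.derivative.eval ζ)) -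
        (u.eval τ - u.eval ζ - (τ - ζ) * u.derivative.eval ζ) := by
      linear_combination he - h0
    have h4 : ‖(τ - ζ - ε * c) * u.derivative.eval ζ‖ < ‖c‖ := by
      rw [e]
      refine gal1_sub_lt ?_ (h1.trans_lt h5)
      rw [norm_neg, norm_mul]
      exact mul_lt_of_lt_one_right hp hκ
    rwa [norm_mul, hd, mul_one] at h4
  have e : l.eval τ - l.eval ζ - ε * c * l.derivative.eval ζ =
      (l.eval τ - l.eval ζ - (τ - ζ) * l.derivative.eval ζ) +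
        (τ - ζ - ε * c) * l.derivative.eval ζ := by ring
  rw [e]
  refine gal1_add_lt (h2.trans_lt h5) ?_
  rw [norm_mul]
  exact (mul_le_of_le_one_right (norm_nonneg _) (hl.derivative.eval_le hζ)).trans_lt h6

theorem pra_div (T : Tower p B) {n k : ℕ} {x : Λ} (hx : x ∈ T.U n) (h : ‖x‖ ≤ ‖T.π‖ ^ k) :
    x / T.π ^ k ∈ OL (T.U n) := by
  refine mem_OL.2 ⟨div_mem hx (pow_mem (T.le n T.π_mem) k), ?_⟩
  rw [norm_div, norm_pow]
  exact div_le_one_of_le₀ h (by positivity)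

/-- Hermite interpolation at a generator -/
theorem Tower.exists_hermite (T : Tower p B) {a D : ℕ} (ha : 0 < a) (hD : 0 < D) {ζ : Λ}
    {μ : (OL (T.U a))[X]} (hζ : ζ ∈ T.U (a * D)) (h1 : ‖ζ‖ ≤ 1) (hm : μ.Monic)
    (hd : μ.natDegree = D) (h0 : μ.eval₂ (OL _).subtype ζ = 0)
    (hu : ‖(derivative μ).eval₂ (OL _).subtype ζ‖ = 1)
    (hR : ∀ x ∈ T.U (a * D), ‖x‖ ≤ 1 →
      ∃ R : (OL (T.U a))[X], R.natDegree < D ∧ R.eval₂ (OL _).subtype ζ = x)
    {x x' : Λ} (hx : x ∈ OL (T.U (a * D))) (hx' : x' ∈ OL (T.U (a * D))) :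
    ∃ R : (OL (T.U a))[X], R.natDegree ≤ 2 * D ∧ R.eval₂ (OL _).subtype ζ = x ∧
      (derivative R).eval₂ (OL _).subtype ζ = x' := by
  have hle : T.U a ≤ T.U (a * D) := T.mono ha (Nat.mul_pos ha hD) (dvd_mul_right a D)
  have hmem : ∀ f : (OL (T.U a))[X], f.eval₂ (OL _).subtype ζ ∈ T.U (a * D) := fun f =>
    eval₂_mem (fun c => hle c.2.1) hζ f
  have hle1 : ∀ f : (OL (T.U a))[X], ‖f.eval₂ (OL _).subtype ζ‖ ≤ 1 := fun f =>
    norm_eval₂_le (fun c => c.2.2) h1 f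
  have hne : (derivative μ).eval₂ (OL _).subtype ζ ≠ 0 := fun e => by
    rw [e, norm_zero] at hu
    exact zero_ne_one hu
  obtain ⟨R₀, hR₀, e₀⟩ := hR x hx.1 hx.2
  obtain ⟨S, hS, e₁⟩ := hR ((x' - (derivative R₀).eval₂ (OL _).subtype ζ) /
    (derivative μ).eval₂ (OL _).subtype ζ) (div_mem (sub_mem hx'.1 (hmem _)) (hmem _)) (by
      rw [norm_div, hu, div_one]
      exact (gal1_O Λ).sub_mem hx'.2 (hle1 _))
  refine ⟨R₀ + μ * S, ?_, ?_, ?_⟩
  · refine (natDegree_add_le _ _).trans (max_le (by omega) (natDegree_mul_le.trans (by omega)))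
  · rw [eval₂_add, eval₂_mul, h0, e₀, zero_mul, add_zero]
  · rw [derivative_add, derivative_mul, eval₂_add, eval₂_add, eval₂_mul, eval₂_mul, h0, e₁,
      zero_mul, add_zero, mul_div_cancel₀ _ hne, add_sub_cancel]

namespace Chart

variable {𝒞 : Chart J B} {T : Tower p B}

/-- The data for the propagation of the product `[y] ∏ ([v i] - 1)`. -/
structure PRD (𝒞 : Chart J B) {T : Tower p B} {a s : ℕ} (D : ℕ) {k : Fin (s + 1) → ℕ}
    (y : Fin 𝒞.d → Λ) (h : Λ) (v : Fin (s + 1) → Fin 𝒞.d → Λ) (ζ : Λ)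
    (lam : Fin 𝒞.d → (CU T a k)[X]) (G : (CU T a k)[X][X]) (u : (OL (T.U a))[X]) : Prop where
  grd : 𝒞.GRD lam (2 * D) G 1 u 0
  ind : ∀ A, lA lam (insert 0 A) = lA lam A
  mem : ζ ∈ T.U (a * D)
  root : u.eval₂ (OL _).subtype ζ = 0
  inj : ∀ i < D, ∀ j < D, (T.φ ^ (a * i)) ζ = (T.φ ^ (a * j)) ζ → i = j
  roots : ∀ t, u.eval₂ (OL _).subtype t = 0 → t ∈ T.U a ∨ ∃ i < D, t = (T.φ ^ (a * i)) ζ
  val : ∀ j, (lA lam ∅ j).eval ζ = y j
  main : ∀ (m : ℕ) (η : Λ) (i : Fin (s + 1)) (Q : Λ × Λ), 0 < m → a * D ∣ m →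
    On (𝒞.cL (lA lam ∅)) (ζ, η) → On (𝒞.cL (lA lam {i})) Q → ee Q (mp (evA {i}) G) = 0 →
    Q.1 ∈ T.U m → ‖Q.1 - ζ‖ < 1 → ‖Q.2 - η‖ < 1 →
      (fun j => (lA lam {i} j).eval Q.1 - y j) - (if i = 0 ∧ η ≠ h then 0 else v i) ∈
        𝒞.fl T m (k i + 1)

/-- a function that separates the point `h` of the fibre from the other points -/
theorem pra_fun {L L' : IntermediateField K Λ} (hB : B ≤ L') {D : ℕ} {y : Fin 𝒞.d → Λ} {h : Λ}
    (hg : 𝒞.GdL L' y h) {ζ : Λ} (hR : ∀ x ∈ L', ‖x‖ ≤ 1 →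
      ∃ R : (OL L)[X], R.natDegree < D ∧ R.eval₂ (OL _).subtype ζ = x) {c : Λ} (hc : c ∈ L')
    (hc1 : ‖c‖ ≤ 1) : ∃ A : (OL L)[X][X], (∀ i, (A.coeff i).natDegree ≤ D - 1) ∧
      A.natDegree ≤ 𝒞.δ ∧ ∀ η, ev2 (OL B).subtype y η 𝒞.χ = 0 →
        e2 (OL _).subtype ζ η A = if η = h then c else 0 := by
  set f : Λ[X] := 𝒞.χ.map (MvPolynomial.eval₂Hom (OL B).subtype y) with hf
  have fo : Over L' f := fun i => by
    rw [hf, coeff_map]
    exact mv_mem (fun x => hB x.2.1) hg.y_mem _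
  have fi : Intg f := fun i => by
    rw [hf, coeff_map]
    exact (rs_mv (ψ := rL B) (fun x => x.2.2) rL_apply hg.gd.y_le _).1
  have fd : f.natDegree = 𝒞.δ := by rw [hf, 𝒞.monic.natDegree_map, 𝒞.deg]
  have f0 : f.eval h = 0 := by rw [hf, ← ev2_eq_eval]; exact hg.gd.on
  have f1 : ‖f.derivative.eval h‖ = 1 := by
    rw [hf, derivative_map, ← ev2_eq_eval]; exact hg.gd.ep.der
  have fne : f.derivative.eval h ≠ 0 := fun e => by
    rw [e, norm_zero] at f1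
    exact zero_ne_one f1
  set E : Λ[X] := f /ₘ (X - C h) with hE
  have fE : (X - C h) * E = f := mul_divByMonic_eq_iff_isRoot.2 f0
  have Eh : E.eval h = f.derivative.eval h := by
    rw [← fE, derivative_mul, derivative_X_sub_C]
    simp
  have Ed : E.natDegree = 𝒞.δ - 1 := by
    rw [hE, natDegree_divByMonic _ (monic_X_sub_C h), fd, natDegree_X_sub_C]
  set g : Λ[X] := C (c / f.derivative.eval h) * E with hgd
  have go : Over L' g := (over_C (div_mem hc (fo.derivative.eval hg.h_mem))).mul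
    (fo.divByMonic (over_X.sub (over_C hg.h_mem)) (monic_X_sub_C h))
  have gi : Intg g := (intg_C (by rw [norm_div, f1, div_one]; exact hc1)).mul
    (fi.divByMonic (intg_X.sub (intg_C hg.gd.h_le)) (monic_X_sub_C h))
  have gd : g.natDegree < 𝒞.δ := by
    have : g.natDegree ≤ E.natDegree := natDegree_C_mul_le _ E
    have := 𝒞.pos
    omega
  choose R hR1 hR2 using fun i => hR (g.coeff i) (go i) (gi i)
  have hco : ∀ i, (∑ j ∈ Finset.range 𝒞.δ, monomial j (R j)).coeff i =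
      if i ∈ Finset.range 𝒞.δ then R i else 0 := fun i => by
    rw [finsetSum_coeff]
    simp only [coeff_monomial]
    exact Finset.sum_ite_eq' _ _ _
  refine ⟨∑ j ∈ Finset.range 𝒞.δ, monomial j (R j), fun i => ?_, ?_, fun η hη => ?_⟩
  · rw [hco]
    split_ifs
    · have := hR1 i
      omega
    · simp
  · refine natDegree_le_iff_coeff_eq_zero.2 fun i hi => ?_
    rw [hco, if_neg (by rw [Finset.mem_range]; omega)]
  · have e : (∑ j ∈ Finset.range 𝒞.δ, monomial j (R j)).map (eval₂RingHom (OL L).subtype ζ) =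
        g := by
      ext i
      rw [coeff_map, hco]
      split_ifs with hi
      · exact hR2 i
      · rw [Finset.mem_range] at hi
        rw [map_zero, coeff_eq_zero_of_natDegree_lt (by omega)]
    rw [e2_eq_eval, e, hgd, eval_mul, eval_C]
    split_ifs with hh
    · rw [hh, Eh, div_mul_cancel₀ _ fne]
    · rw [ev2_eq_eval, ← hf, ← fE, eval_mul, eval_sub, eval_X, eval_C] at hη
      rw [(mul_eq_zero.1 hη).resolve_left (sub_ne_zero.2 hh), mul_zero]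

/-- the family of curves -/
theorem pra_lam {a s e : ℕ} {k : Fin (s + 1) → ℕ} (l₀ : Fin 𝒞.d → (OL (T.U a))[X])
    (V : Fin (s + 1) → Fin 𝒞.d → (OL (T.U a))[X]) (h₀ : ∀ j, (l₀ j).natDegree ≤ e)
    (hV : ∀ i j, (V i j).natDegree ≤ e) : ∃ lam : Fin 𝒞.d → (CU T a k)[X],
      (∀ j, (lam j).natDegree ≤ e) ∧ ∀ A j, lA lam A j = (l₀ j).map (OL _).subtype +
        ∑ i ∈ Finset.univ.erase 0,
          if i ∈ A then C (T.π ^ k i) * (V i j).map (OL _).subtype else 0 := by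
  have hπ : T.π ∈ OL (T.U a) := ⟨T.le a T.π_mem, T.π_lt.le⟩
  have hex : ∀ i j, ∃ g : (CU T a k)[X], g.natDegree ≤ e ∧ ∀ A, g.map (evA A) =
      if i ∈ A then C (T.π ^ k i) * (V i j).map (OL _).subtype else 0 := fun i j => by
    obtain ⟨g, h1, h2⟩ := exists_ind_poly (k := k) T.π_lt i
      (f := C ((⟨T.π, hπ⟩ : OL (T.U a)) ^ k i) * V i j) fun n => by
        rw [coeff_C_mul, Subring.coe_mul, Subring.coe_pow, norm_mul, norm_pow]
        exact mul_le_of_le_one_right (by positivity) ((V i j).coeff n).2.2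
    refine ⟨g, (natDegree_le_natDegree h1).trans ((natDegree_C_mul_le _ _).trans (hV i j)),
      fun A => ?_⟩
    rw [h2, Polynomial.map_mul, map_C]
    split_ifs <;> rfl
  choose g hg1 hg2 using hex
  refine ⟨fun j => (l₀ j).map (cstC T.π_lt k) + ∑ i ∈ Finset.univ.erase 0, g i j, fun j => ?_,
    fun A j => ?_⟩
  · exact (natDegree_add_le _ _).trans (max_le (natDegree_map_le.trans (h₀ j))
      (natDegree_sum_le_of_forall_le _ _ fun i _ => hg1 i j))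
  · unfold lA
    rw [Polynomial.map_add, Polynomial.map_map, evA_cstC, Polynomial.map_sum]
    exact congrArg _ (Finset.sum_congr rfl fun i _ => hg2 i j A)

/-- the family of functions -/
theorem pra_G {a s b : ℕ} {k : Fin (s + 1) → ℕ} {u : (OL (T.U a))[X]} (hu : u.Monic)
    {A₀ : (OL (T.U a))[X][X]} (hA : WL b 0 u.natDegree A₀) : ∃ G : (CU T a k)[X][X],
      Lead b u.natDegree G ∧ ∀ A, mp (evA A) G = C (u.map (OL _).subtype) +
        C (C (if 0 ∈ A then T.π ^ k 0 else 0)) * mp (OL _).subtype A₀ := by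
  obtain ⟨c, hc⟩ := exists_ind (L := T.U a) (k := k) T.π_lt 0 (c := T.π ^ k 0)
    ⟨pow_mem (T.le a T.π_mem) _, (norm_pow _ _).le⟩
  refine ⟨C (u.map (cstC T.π_lt k)) + C (C c) * mp (cstC T.π_lt k) A₀, ?_, fun A => ?_⟩
  · have h1 := lead_C (b := b) (hu.map (cstC T.π_lt k))
    rw [hu.natDegree_map] at h1
    exact h1.add ((hA.map _).C_mul (k := 0) (natDegree_C c).le)
  · rw [map_add, map_mul, mp_C, mp_C, mp_mp, Polynomial.map_map, evA_cstC, map_C, hc]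
    split_ifs <;> rfl

/-- the polynomial `u` -/
theorem pra_u {a D M : ℕ} (ha : 0 < a) {ζ : Λ} {μ ρ : (OL (T.U a))[X]} (h1 : ‖ζ‖ ≤ 1)
    (hi : ∀ i < D, ∀ j < D, ‖(T.φ ^ (a * i)) ζ - (T.φ ^ (a * j)) ζ‖ < 1 → i = j) (hm : μ.Monic)
    (hd : μ.natDegree = D)
    (hμ : μ.map (OL _).subtype = ∏ i ∈ Finset.range D, (X - C ((T.φ ^ (a * i)) ζ)))
    (hρ : ‖ρ.eval₂ (OL _).subtype ζ‖ = 1) (hM : M + (ρ.natDegree + D) ≤ a) :
    ∃ u : (OL (T.U a))[X], u.Monic ∧ u.natDegree = D + M ∧ μ ∣ u ∧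
      (∀ t, u.eval₂ (OL _).subtype t = 0 → t ∈ T.U a ∨ ∃ i < D, t = (T.φ ^ (a * i)) ζ) ∧
      ∀ τ : Λ, ‖τ‖ ≤ 1 → ‖u.eval₂ (OL _).subtype τ‖ < 1 → ‖ρ.eval₂ (OL _).subtype τ‖ = 1 ∧
        ‖(derivative u).eval₂ (OL _).subtype τ‖ = 1 := by
  have hrs : ∀ x : Λ, ‖x‖ ≤ 1 → rs (ρ.eval₂ (OL _).subtype x) = (ρ.map (rL _)).eval (rs x) :=
    fun x hx => by rw [eval_map]; exact rs_eval₂ (fun c => c.2.2) rL_apply hx ρ
  have hne : ρ.map (rL _) ≠ 0 := fun e => by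
    have := hrs ζ h1
    rw [e, eval_zero] at this
    exact rs_ne_zero.2 hρ this
  have hn : ∀ i, ‖(T.φ ^ (a * i)) ζ‖ ≤ 1 := fun i => by rw [Loc.norm_gal]; exact h1
  obtain ⟨τ, hτ1, hτ2⟩ := T.exists_many ha ((ρ.map (rL _)).roots.toFinset ∪
    (Finset.range D).image fun i => rs ((T.φ ^ (a * i)) ζ)) (s := M) (by
      have a1 := Finset.card_union_le (ρ.map (rL (T.U a))).roots.toFinset
        ((Finset.range D).image fun i => rs ((T.φ ^ (a * i)) ζ))
      have a2 := Multiset.toFinset_card_le (ρ.map (rL (T.U a))).roots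
      have a3 := card_roots' (ρ.map (rL (T.U a)))
      have a4 : (ρ.map (rL (T.U a))).natDegree ≤ ρ.natDegree := natDegree_map_le
      have a5 := Finset.card_image_le (s := Finset.range D)
        (f := fun i => rs ((T.φ ^ (a * i)) ζ))
      rw [Finset.card_range] at a5
      omega)
  let z : Fin D ⊕ Fin M → Λ := Sum.elim (fun i => (T.φ ^ (a * i)) ζ) fun j => τ j
  have hz : ∀ x, ‖z x‖ ≤ 1 := by
    rintro (i | j)
    · exact hn i
    · exact (τ j).2.2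
  have hx : ∀ (i : Fin D) (j : Fin M), ¬‖(T.φ ^ (a * i)) ζ - τ j‖ < 1 := fun i j e =>
    hτ1 j (Finset.mem_union_right _ (Finset.mem_image.2 ⟨i, Finset.mem_range.2 i.2, by
      rw [rL_apply]; exact (rs_eq_iff (hn i) (τ j).2.2).2 e⟩))
  have hzd : ∀ x x', ‖z x - z x'‖ < 1 → x = x' := by
    rintro (i | j) (i' | j') e
    · exact congrArg _ (Fin.ext (hi i i.2 i' i'.2 e))
    · exact absurd e (hx i j')
    · exact absurd (tow_symm e) (hx i' j)
    · refine congrArg _ (hτ2 ?_)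
      change rL _ (τ j) = rL _ (τ j')
      rw [rL_apply, rL_apply]
      exact (rs_eq_iff (τ j).2.2 (τ j').2.2).2 e
  have hzρ : ∀ x, ‖(ρ.map (OL _).subtype).eval (z x)‖ = 1 := by
    rintro (i | j)
    · change ‖(ρ.map (OL _).subtype).eval ((T.φ ^ (a * i)) ζ)‖ = 1
      rw [← (over_map ρ).apply_eval (σ := T.φ ^ (a * i))
        (by rw [pow_mul]; exact (T.fix_U a ha).pow i), Loc.norm_gal, eval_map]
      exact hρ
    · change ‖(ρ.map (OL _).subtype).eval (τ j : Λ)‖ = 1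
      rw [eval_map, ← rs_ne_zero, hrs _ (τ j).2.2, ← rL_apply]
      exact fun e => hτ1 j (Finset.mem_union_left _
        (Multiset.mem_toFinset.2 ((mem_roots hne).2 e)))
  have hu : (μ * ∏ j, (X - C (τ j))).map (OL _).subtype = ∏ x, (X - C (z x)) := by
    rw [Fintype.prod_sum_type, Polynomial.map_mul, hμ, Polynomial.map_prod, Finset.prod_range]
    simp only [Polynomial.map_sub, map_X, map_C]
    rfl
  have hm' : (∏ j, (X - C (τ j))).Monic := monic_prod_of_monic _ _ fun j _ => monic_X_sub_C _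
  refine ⟨μ * ∏ j, (X - C (τ j)), hm.mul hm', ?_, dvd_mul_right _ _, fun t ht => ?_,
    fun t ht h => ?_⟩
  · rw [hm.natDegree_mul hm', hd, natDegree_finsetProd_X_sub_C_eq_card, Finset.card_univ,
      Fintype.card_fin]
  · rw [← eval_map, hu, eval_prod] at ht
    obtain ⟨x, -, hx⟩ := Finset.prod_eq_zero_iff.1 ht
    rw [eval_sub, eval_X, eval_C, sub_eq_zero] at hx
    rcases x with i | j
    · exact Or.inr ⟨i, i.2, hx⟩
    · exact Or.inl (hx ▸ (τ j).2.1)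
  · rw [← eval_map, hu] at h
    obtain ⟨⟨x, h2⟩, h3⟩ := pra_sep hz hzd ht h
    refine ⟨?_, by rw [← eval_map, ← derivative_map, hu]; exact h3⟩
    rw [← eval_map, ← hzρ x]
    refine norm_eq_of_sub_lt ?_
    rw [hzρ x]
    exact ((intg_map ρ).eval_sub_le (hz x) ht).trans_lt (tow_symm h2)

theorem exists_PRD {a D s : ℕ} (hD : 0 < D)
    (ha : 2 * D * (𝒞.b * 𝒞.δ + 𝒞.D₀.totalDegree + 1) ≤ a) {y : Fin 𝒞.d → Λ} {h : Λ}
    (hg : 𝒞.GdL (T.U (a * D)) y h) {k : Fin (s + 1) → ℕ} (hk : ∀ i, 0 < k i)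
    {v : Fin (s + 1) → Fin 𝒞.d → Λ} (hv : ∀ i, v i ∈ 𝒞.fl T (a * D) (k i)) :
    ∃ (ζ : Λ) (lam : Fin 𝒞.d → (CU T a k)[X]) (G : (CU T a k)[X][X]) (u : (OL (T.U a))[X]),
      𝒞.PRD D y h v ζ lam G u := by
  have ha0 : 0 < a := lt_of_lt_of_le (by positivity) ha
  have haD : 0 < a * D := Nat.mul_pos ha0 hD
  obtain ⟨ζ, μ, hζ, h1, hi, hm, hd, hμ, hR⟩ := T.exists_gen ha0 hD
  have hn : ∀ i, ‖(T.φ ^ (a * i)) ζ‖ ≤ 1 := fun i => by rw [Loc.norm_gal]; exact h1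
  have hμ0 : μ.eval₂ (OL _).subtype ζ = 0 := by
    rw [← eval_map, hμ, eval_prod]
    exact Finset.prod_eq_zero (Finset.mem_range.2 hD) (by simp)
  have hμ1 : ‖(derivative μ).eval₂ (OL _).subtype ζ‖ = 1 := by
    rw [← eval_map, hμ, Finset.prod_range] at hμ0
    rw [← eval_map, ← derivative_map, hμ, Finset.prod_range]
    exact (pra_sep (fun i : Fin D => hn i) (fun i j e => Fin.ext (hi i i.2 j j.2 e)) h1
      (by rw [hμ0, norm_zero]; exact zero_lt_one)).2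
  have hw : ∀ i j, v i j / T.π ^ k i ∈ OL (T.U (a * D)) := fun i j =>
    pra_div T (mem_fl.1 (hv i) j).1 (mem_fl.1 (hv i) j).2
  have hπk : ∀ i, T.π ^ k i ≠ 0 := fun i => pow_ne_zero _ T.π_ne
  choose l₀ hl1 hl2 hl3 using fun j => T.exists_hermite ha0 hD hζ h1 hm hd hμ0 hμ1 hR
    (x := y j) ⟨hg.y_mem j, hg.gd.y_le j⟩ (hw 0 j)
  choose V hV1 hV2 using fun i j => hR _ (hw i j).1 (hw i j).2
  obtain ⟨lam, he, hlam⟩ := pra_lam (k := k) l₀ V hl1 fun i j => by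
    have := hV1 i j
    omega
  have hl0 : ∀ j, lA lam ∅ j = (l₀ j).map (OL _).subtype := fun j => by rw [hlam]; simp
  have hind : ∀ A, lA lam (insert 0 A) = lA lam A := fun A => by
    funext j
    rw [hlam, hlam]
    refine congrArg _ (Finset.sum_congr rfl fun i hi => if_congr ?_ rfl rfl)
    rw [Finset.mem_insert, or_iff_right (Finset.mem_erase.1 hi).1]
  have hval : ∀ j, (lA lam ∅ j).eval ζ = y j := fun j => by rw [hl0, eval_map, hl2]
  have hρ : (𝒞.rho (inc (T.le a)) l₀).map (OL _).subtype = 𝒞.rho (OL B).subtype (lA lam ∅) := by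
    rw [map_rho, subtype_inc]
    exact congrArg _ (funext fun j => (hl0 j).symm)
  obtain ⟨u, hu, hud, hμu, hroots, hsep⟩ := pra_u (M := 𝒞.b * (2 * D) * 𝒞.δ)
    (ρ := 𝒞.rho (inc (T.le a)) l₀) ha0 h1 hi hm hd hμ
    (by rw [← eval_map, hρ, eval_rho, funext hval]; exact hg.gd.unit) (by
      have : (𝒞.rho (inc (T.le a)) l₀).natDegree ≤ 𝒞.D₀.totalDegree * (2 * D) :=
        natDegree_eval₂_le _ hl1 _
      nlinarith)
  have hu0 : u.eval₂ (OL _).subtype ζ = 0 := by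
    obtain ⟨w, rfl⟩ := hμu
    rw [eval₂_mul, hμ0, zero_mul]
  have hu1 := (hsep ζ h1 (by rw [hu0, norm_zero]; exact zero_lt_one)).2
  obtain ⟨A₀, hA1, hA2, hA3⟩ := pra_fun (T.le _) hg hR
    (c := -(derivative u).eval₂ (OL _).subtype ζ)
    (neg_mem (eval₂_mem (fun c => T.mono ha0 haD (dvd_mul_right a D) c.2.1) hζ _))
    (by rw [norm_neg, hu1])
  obtain ⟨G, hG1, hG2⟩ := pra_G (k := k) (b := 𝒞.b * (2 * D)) hu (A₀ := A₀)
    ((WL_of_le hA1 hA2).mono (by omega))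
  have hee : ∀ A (Q : Λ × Λ), ee Q (mp (evA A) G) = (u.map (OL _).subtype).eval Q.1 +
      (if 0 ∈ A then T.π ^ k 0 else 0) * e2 (OL _).subtype Q.1 Q.2 A₀ := fun A Q => by
    rw [hG2, map_add, map_mul, ee_C, ee_C, eval_C, ee_mp]
  refine ⟨ζ, lam, G, u, ⟨ha0, hk, he, monic_one, hu, ?_, ?_, fun τ hτ hl => ?_,
    fun A Q hQ => absurd rfl hQ, fun A => by simp, fun A Q hQ => absurd rfl hQ⟩, hind, hζ, hu0,
    fun i h2 j h3 e => hi i h2 j h3 (by rw [e, sub_self, norm_zero]; exact zero_lt_one), hroots,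
    hval, fun m η i Q hm0 hdv hη hQ hz hmem hq1 hq2 => ?_⟩
  · rw [natDegree_one, zero_add]
    exact hG1
  · rw [hG2, one_mul]
    simp
  · obtain ⟨h2, h3⟩ := hsep τ hτ hl
    refine ⟨by rw [← hρ, eval_map]; exact h2, h3, by simp⟩
  have hud' : ‖(u.map (OL _).subtype).derivative.eval ζ‖ = 1 := by
    rw [derivative_map, eval_map]; exact hu1
  have hu0' : (u.map (OL _).subtype).eval ζ = 0 := by rw [eval_map]; exact hu0
  rw [hee] at hz
  by_cases h0 : i = 0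
  · subst h0
    have hs : lA lam {0} = lA lam ∅ := hind ∅
    have hle : T.U (a * D) ≤ T.U m := T.mono haD hm0 hdv
    have hle' : T.U a ≤ T.U m := T.mono ha0 hm0 ((dvd_mul_right a D).trans hdv)
    have hχ : ev2 (OL B).subtype y η 𝒞.χ = 0 := by
      have := on_cL.1 hη
      rwa [funext hval] at this
    have hη1 : ‖η‖ ≤ 1 := root_le hg.gd.y_le hχ
    have hQ1 : ‖Q.1‖ ≤ 1 := gal1_le_one h1 (tow_symm hq1)
    have hQ2 : ‖Q.2‖ ≤ 1 := gal1_le_one hη1 (tow_symm hq2)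
    obtain ⟨b1, b2⟩ := rs_e2 (φ := (OL (T.U a)).subtype) (ψ := rL _) (fun c => c.2.2) rL_apply
      hQ1 hQ2 A₀
    obtain ⟨b3, b4⟩ := rs_e2 (φ := (OL (T.U a)).subtype) (ψ := rL _) (fun c => c.2.2) rL_apply
      h1 hη1 A₀
    have b5 : ‖e2 (OL _).subtype Q.1 Q.2 A₀ - e2 (OL _).subtype ζ η A₀‖ < 1 := by
      rw [← rs_eq_iff b1 b3, b2, b4, (rs_eq_iff hQ1 h1).2 hq1, (rs_eq_iff hQ2 hη1).2 hq2]
    rw [if_pos (Finset.mem_singleton_self 0)] at hz
    refine mem_fl.2 fun j => ?_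
    have hmem' : ((fun j => (lA lam {0} j).eval Q.1 - y j) -
        if (0 : Fin (s + 1)) = 0 ∧ η ≠ h then 0 else v 0) j ∈ T.U m := by
      refine sub_mem (sub_mem (((over_lA _ j).1.mono hle').eval hmem) (hle (hg.y_mem j))) ?_
      split_ifs
      · exact zero_mem _
      · exact hle (mem_fl.1 (hv 0) j).1
    refine ⟨hmem', T.norm_le_succ hm0 hmem' ?_⟩
    have b6 := pra_est (ε := if η = h then 1 else 0) (intg_map u) (intg_map (l₀ j)) h1 hq1 hu0'
      hud' (hπk 0) (by rw [norm_pow]; exact pow_lt_one₀ (norm_nonneg _) T.π_lt (hk 0).ne') b1 hz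
      (by
        rw [hA3 η hχ] at b5
        rw [derivative_map, eval_map]
        split_ifs at b5 ⊢
        · rwa [one_mul, ← sub_neg_eq_add]
        · rwa [zero_mul, ← sub_neg_eq_add, neg_zero])
    rw [norm_pow, derivative_map, eval_map _ ζ, eval_map _ ζ, hl2, hl3, mul_assoc,
      mul_div_cancel₀ _ (hπk 0)] at b6
    rw [hs, Pi.sub_apply, hl0]
    by_cases hh : η = h
    · rw [if_pos hh, one_mul] at b6
      rwa [if_neg fun e => e.2 hh]
    · rw [if_neg hh, zero_mul] at b6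
      rwa [if_pos ⟨rfl, hh⟩]
  · rw [if_neg (by rw [Finset.mem_singleton]; exact Ne.symm h0), zero_mul, add_zero] at hz
    have hQζ : ζ = Q.1 := (intg_map u).root_unique h1 hu0' hz hud' (tow_symm hq1)
    rw [if_neg fun e => h0 e.1, ← hQζ]
    have : (fun j => (lA lam {i} j).eval ζ - y j) - v i = 0 := by
      funext j
      rw [Pi.sub_apply, hlam]
      simp only [Finset.mem_singleton]
      rw [Finset.sum_ite_eq', if_pos (Finset.mem_erase.2 ⟨h0, Finset.mem_univ _⟩), eval_add,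
        eval_mul, eval_C, eval_map, eval_map, hl2, hV2, mul_div_cancel₀ _ (hπk i), Pi.zero_apply]
      ring
    rw [this]
    exact zero_mem _

end Chart

end Pool.Agent.ZeroCyc
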