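import Pool.Agent.Lib.MP_796ce4_ag.ZY.ChartDefs

/-! Basic properties of charts. -/

namespace Pool.Agent.ZeroCyc

open Polynomial Module
open scoped Classical IntermediateField PowerSeries

set_option linter.unusedSectionVars false

section

variable {K Λ : Type} [Field K] [NormedField Λ] [IsUltrametricDist Λ] [Algebra K Λ] {N : ℕ}
  {J : Ideal (MvPolynomial (Fin (N + 1)) K)} {B L : IntermediateField K Λ}

/-- coefficients in `L` -/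
def Ov2 (L : IntermediateField K Λ) (G : Λ[X][X]) : Prop := ∀ i, Over L (G.coeff i)

/-- integral coefficients -/
def In2 (G : Λ[X][X]) : Prop := ∀ i, Intg (G.coeff i)

theorem ov2_mp {R : Type} [CommRing R] {φ : R →+* Λ} (h : ∀ x, φ x ∈ L) (G : R[X][X]) :
    Ov2 L (mp φ G) := fun i j => by
  rw [coe_mapRingHom, coeff_map, coe_mapRingHom, coeff_map]
  exact h _
theorem in2_mp {R : Type} [CommRing R] {φ : R →+* Λ} (h : ∀ x, ‖φ x‖ ≤ 1) (G : R[X][X]) :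
    In2 (mp φ G) := fun i j => by
  rw [coe_mapRingHom, coeff_map, coe_mapRingHom, coeff_map]
  exact h _
theorem Ov2.map_eq {G : Λ[X][X]} (h : Ov2 L G) {σ : Λ ≃ₐ[K] Λ} (hσ : Fix L σ) :
    mp (σ : Λ →+* Λ) G = G := by
  ext i : 1
  rw [coe_mapRingHom, coeff_map]
  exact (h i).map_eq hσ
theorem chartb_le (x : OL L) : ‖(OL L).subtype x‖ ≤ 1 := x.2.2
theorem chartb_r (x : OL L) : rL L x = rs ((OL L).subtype x) := rL_apply x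
theorem chartb_near {x x' : Λ} (hx : ‖x‖ ≤ 1) (h : ‖x' - x‖ < 1) : ‖x'‖ ≤ 1 ∧ rs x' = rs x := by
  have h1 := gal1_le_one hx (by rwa [norm_sub_rev])
  exact ⟨h1, (rs_eq_iff h1 hx).2 h⟩
theorem chartb_one {a b : Λ} (ha : ‖a‖ ≤ 1) (hb : ‖b‖ ≤ 1) (h : ‖a * b‖ = 1) : ‖b‖ = 1 := by
  rw [norm_mul] at h
  nlinarith [norm_nonneg a, norm_nonneg b]
theorem chartb_dist {μ : (OL L)[X]} (h : Dist μ) : μ.map (rL L) = X ^ μ.natDegree := by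
  ext i
  rw [coeff_map, coeff_X_pow]
  rcases lt_trichotomy i μ.natDegree with h1 | rfl | h1
  · rw [if_neg h1.ne, rL_apply, rs_eq_zero (μ.coeff i).2.2]
    exact h.lt i h1
  · rw [h.monic.coeff_natDegree, map_one, if_pos rfl]
  · rw [coeff_eq_zero_of_natDegree_lt h1, map_zero, if_neg h1.ne']
theorem chartb_dist' {μ : (OL L)[X]} (hm : μ.Monic) {n : ℕ} (h : μ.map (rL L) = X ^ n) :
    Dist μ := by
  have h1 : μ.natDegree = n := by rw [← hm.natDegree_map (rL L), h, natDegree_X_pow]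
  refine ⟨hm, fun i hi => (rs_eq_zero (μ.coeff i).2.2).1 ?_⟩
  rw [← rL_apply, ← coeff_map, h, coeff_X_pow, if_neg (h1 ▸ hi.ne)]
theorem chartb_lead {R S : Type} [CommRing R] [CommRing S] {φ : R →+* S} {b m : ℕ} {G : S[X][X]}
    (hG : Lead b m G) (h : ∀ i j, (G.coeff i).coeff j ∈ φ.range) :
    ∃ G' : R[X][X], mp φ G' = G ∧ Lead b m G' := by
  obtain ⟨a, h1, h2⟩ := WL.exists_lift (φ := φ) hG fun i j => by
    rw [coeff_sub, coeff_sub]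
    refine φ.range.sub_mem (h i j) ⟨((C (X ^ m) : R[X][X]).coeff i).coeff j, ?_⟩
    rw [← coeff_map, ← coe_mapRingHom, ← coeff_map, map_C, map_pow, coe_mapRingHom, map_X]
  refine ⟨a + C (X ^ m), ?_, by rwa [Lead, add_sub_cancel_right]⟩
  rw [map_add, h1, mp_C, Polynomial.map_pow, map_X, sub_add_cancel]
theorem Dist.norm_eval {μ : (OL L)[X]} (h : Dist μ) {τ : Λ} (hτ : ‖τ‖ = 1) :
    ‖μ.eval₂ (OL L).subtype τ‖ = 1 := by
  rw [← rs_ne_zero, rs_eval₂ chartb_le chartb_r hτ.le, eval₂_eq_eval_map, chartb_dist h, eval_pow,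
    eval_X]
  exact pow_ne_zero _ (rs_ne_zero.2 hτ)
theorem Dist.root_lt {μ : (OL L)[X]} (h : Dist μ) {τ : Λ} (hτ : μ.eval₂ (OL L).subtype τ = 0) :
    ‖τ‖ < 1 := by
  have h1 := (intg_map μ).root_le (h.monic.map _) (by rwa [← eval₂_eq_eval_map])
  refine h1.lt_of_ne fun h2 => ?_
  have h3 := h.norm_eval h2
  rw [hτ, norm_zero] at h3
  exact zero_ne_one h3
theorem Dist.mul {μ μ' : (OL L)[X]} (h : Dist μ) (h' : Dist μ') : Dist (μ * μ') :=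
  chartb_dist' (h.monic.mul h'.monic)
    (by rw [Polynomial.map_mul, chartb_dist h, chartb_dist h', ← pow_add])
theorem dist_X_pow (e : ℕ) : Dist (X ^ e : (OL L)[X]) :=
  chartb_dist' (monic_X_pow e) (by rw [Polynomial.map_pow, map_X])
theorem dist_X_sub {a : OL L} (h : ‖(a : Λ)‖ < 1) : Dist (X - C a) :=
  chartb_dist' (monic_X_sub_C a) (n := 1) (by
    rw [Polynomial.map_sub, map_X, map_C, rL_apply, (rs_eq_zero a.2.2).2 h, C_0, sub_zero, pow_one])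
theorem Dist.isDistinguishedAt {μ : (OL L)[X]} (h : Dist μ) {R : Type} [CommRing R]
    [IsLocalRing R] (φ : OL L →+* R)
    (hφ : ∀ x : OL L, ‖(x : Λ)‖ < 1 → φ x ∈ IsLocalRing.maximalIdeal R) :
    (μ.map φ).IsDistinguishedAt (IsLocalRing.maximalIdeal R) := by
  refine ⟨⟨fun {n} hn => ?_⟩, h.monic.map φ⟩
  rw [coeff_map]
  exact hφ _ (h.lt n (hn.trans_le natDegree_map_le))
theorem rs_coe_top (x : Λ) : (x ∈ OL (⊤ : IntermediateField K Λ) ↔ ‖x‖ ≤ 1) ∧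
    rs x = if h : x ∈ OL (⊤ : IntermediateField K Λ) then rL ⊤ ⟨x, h⟩ else 0 := by
  have h1 : x ∈ OL (⊤ : IntermediateField K Λ) ↔ ‖x‖ ≤ 1 :=
    ⟨fun h => h.2, fun h => mem_OL.2 ⟨IntermediateField.mem_top, h⟩⟩
  refine ⟨h1, ?_⟩
  split_ifs with h
  · exact (rL_apply (L := (⊤ : IntermediateField K Λ)) ⟨x, h⟩).symm
  · rw [rs, dif_neg (h1.not.1 h)]

namespace Chart

variable {𝒞 : Chart J B} {y y' : Fin 𝒞.d → Λ} {h h' h₀ : Λ}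

variable (𝒞) in
/-- the plane curve over a curve with coefficients in `Λ` -/
noncomputable abbrev cL (lam : Fin 𝒞.d → Λ[X]) : Λ[X][X] := cv (OL B).subtype lam 𝒞.χ

theorem chartb_mv (hy : ∀ i, ‖y i‖ ≤ 1) (g : MvPolynomial (Fin 𝒞.d) (OL B)) :
    ‖MvPolynomial.eval₂ (OL B).subtype y g‖ ≤ 1 ∧ rs (MvPolynomial.eval₂ (OL B).subtype y g) =
      MvPolynomial.eval₂ (rL B) (fun i => rs (y i)) g := rs_mv chartb_le chartb_r hy g
theorem chartb_ev (hy : ∀ i, ‖y i‖ ≤ 1) (hh : ‖h‖ ≤ 1) (f : MP 𝒞.d (OL B)) :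
    ‖ev2 (OL B).subtype y h f‖ ≤ 1 ∧
      rs (ev2 (OL B).subtype y h f) = ev2 (rL B) (fun i => rs (y i)) (rs h) f :=
  ⟨norm_eval₂_le (φ := MvPolynomial.eval₂Hom (OL B).subtype y) (fun c => (chartb_mv hy c).1) hh f,
    rs_eval₂ (φ := MvPolynomial.eval₂Hom (OL B).subtype y)
      (ψ := MvPolynomial.eval₂Hom (rL B) fun i => rs (y i)) (fun c => (chartb_mv hy c).1)
      (fun c => (chartb_mv hy c).2.symm) hh f⟩
theorem chartb_cong (hy : ∀ i, ‖y i‖ ≤ 1) (hh : ‖h‖ ≤ 1) (hy' : ∀ i, ‖y' i - y i‖ < 1)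
    (hh' : ‖h' - h‖ < 1) (f : MP 𝒞.d (OL B)) :
    rs (ev2 (OL B).subtype y' h' f) = rs (ev2 (OL B).subtype y h f) := by
  rw [(chartb_ev hy hh f).2, (chartb_ev (fun i => (chartb_near (hy i) (hy' i)).1)
    (chartb_near hh hh').1 f).2, (chartb_near hh hh').2,
    funext fun i => (chartb_near (hy i) (hy' i)).2]
theorem chartb_intg (hy : ∀ i, ‖y i‖ ≤ 1) (f : MP 𝒞.d (OL B)) :
    Intg (f.map (MvPolynomial.eval₂Hom (OL B).subtype y)) := fun n => by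
  rw [coeff_map]
  exact (chartb_mv hy _).1
theorem chartb_over (hB : B ≤ L) (hy : ∀ i, y i ∈ L) (f : MP 𝒞.d (OL B)) :
    Over L (f.map (MvPolynomial.eval₂Hom (OL B).subtype y)) := fun n => by
  rw [coeff_map]
  exact mv_mem (fun c => hB c.2.1) hy _
theorem chartb_der {S : Type} [CommRing S] (φ : OL B →+* S) (y : Fin 𝒞.d → S) (h : S) :
    (𝒞.χ.map (MvPolynomial.eval₂Hom φ y)).derivative.eval h = ev2 φ y h (derivative 𝒞.χ) := by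
  rw [derivative_map, ev2_eq_eval]
theorem chartb_e {S : Type} [CommRing S] {φ : OL B →+* S} {y : Fin 𝒞.d → S} {h : S}
    (h0 : ev2 φ y h 𝒞.χ = 0) :
    MvPolynomial.eval₂ φ y 𝒞.D₀ = ev2 φ y h 𝒞.β₀ * ev2 φ y h (derivative 𝒞.χ) ∧
      MvPolynomial.eval₂ φ y 𝒞.D₀ = ev2 φ y h 𝒞.β₁ * ev2 φ y h (𝒞.pp 𝒞.i₀) := by
  have h1 := congrArg (ev2 φ y h) 𝒞.e₀
  have h2 := congrArg (ev2 φ y h) 𝒞.e₁
  rw [ev2_C, map_add, map_mul, map_mul, h0, mul_zero, zero_add] at h1 h2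
  exact ⟨h1, h2⟩
theorem chartb_fix {σ : Λ ≃ₐ[K] Λ} (hσ : Fix B σ) :
    (σ : Λ →+* Λ).comp (OL B).subtype = (OL B).subtype := RingHom.ext fun x => hσ x x.2.1
theorem chartb_gal {σ : Λ ≃ₐ[K] Λ} (hσ : Fix B σ) (y : Fin 𝒞.d → Λ) (h : Λ) (f : MP 𝒞.d (OL B)) :
    ev2 (OL B).subtype (fun i => σ (y i)) (σ h) f = σ (ev2 (OL B).subtype y h f) := by
  have h1 := map_ev2 (OL B).subtype (σ : Λ →+* Λ) y h f
  rw [chartb_fix hσ] at h1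
  exact h1.symm

theorem on_cL {lam : Fin 𝒞.d → Λ[X]} {Q : Λ × Λ} : On (𝒞.cL lam) Q ↔
    ev2 (OL B).subtype (fun i => (lam i).eval Q.1) Q.2 𝒞.χ = 0 := by
  rw [On, ee_cv]
theorem eval₂_rho {S S' : Type} [CommRing S] [CommRing S'] (φ : OL B →+* S) (ψ : S →+* S')
    (lam : Fin 𝒞.d → S[X]) (t : S') : (𝒞.rho φ lam).eval₂ ψ t =
      MvPolynomial.eval₂ (ψ.comp φ) (fun i => (lam i).eval₂ ψ t) 𝒞.D₀ := by
  have h1 : (eval₂RingHom ψ t).comp (C.comp φ) = ψ.comp φ := RingHom.ext fun x => eval₂_C _ _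
  have h2 := MvPolynomial.eval₂_comp_left (eval₂RingHom ψ t) (C.comp φ) lam 𝒞.D₀
  rw [h1] at h2
  exact h2
theorem eval_rho {S : Type} [CommRing S] (φ : OL B →+* S) (lam : Fin 𝒞.d → S[X]) (t : S) :
    (𝒞.rho φ lam).eval t = MvPolynomial.eval₂ φ (fun i => (lam i).eval t) 𝒞.D₀ :=
  eval₂_rho φ (RingHom.id S) lam t
theorem map_rho {S S' : Type} [CommRing S] [CommRing S'] (φ : OL B →+* S) (ψ : S →+* S')
    (lam : Fin 𝒞.d → S[X]) :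
    (𝒞.rho φ lam).map ψ = 𝒞.rho (ψ.comp φ) fun i => (lam i).map ψ := by
  have h1 : (mapRingHom ψ).comp (C.comp φ) = C.comp (ψ.comp φ) := RingHom.ext fun x => map_C _
  have h2 := MvPolynomial.eval₂_comp_left (mapRingHom ψ) (C.comp φ) lam 𝒞.D₀
  rw [h1] at h2
  exact h2
theorem crv_map {S S' : Type} [CommRing S] [CommRing S'] [Nontrivial S] [Nontrivial S']
    (φ : OL B →+* S) (ψ : S →+* S') (lam : Fin 𝒞.d → S[X]) (e : ℕ)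
    (he : ∀ i, (lam i).natDegree ≤ e) : (𝒞.crv φ lam e he).map ψ =
      𝒞.crv (ψ.comp φ) (fun i => (lam i).map ψ) e fun i => natDegree_map_le.trans (he i) := by
  simp only [Cv.map, crv, mp_cv, map_rho]
theorem crv_gp {lam : Fin 𝒞.d → (kk Λ)[X]} {e : ℕ} {he : ∀ i, (lam i).natDegree ≤ e}
    {Q : kk Λ × kk Λ} :
    (𝒞.crv (rL B) lam e he).Gp Q ↔ 𝒞.Gk (fun i => (lam i).eval Q.1) Q.2 := by
  have h1 : (𝒞.crv (rL B) lam e he).Gp Q ↔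
    ee Q (cv (rL B) lam 𝒞.χ) = 0 ∧ (𝒞.rho (rL B) lam).eval Q.1 ≠ 0 := Iff.rfl
  rw [h1, ee_cv, eval_rho]
  exact ⟨fun h => ⟨h.1, h.2⟩, fun h => ⟨h.1, h.2⟩⟩
theorem Gd.ep (hg : 𝒞.Gd y h) : 𝒞.Ep y h := by
  have h1 := chartb_ev hg.y_le hg.h_le
  exact ⟨hg.y_le, hg.h_le, hg.on, chartb_one (h1 _).1 (h1 _).1 ((chartb_e hg.on).1 ▸ hg.unit),
    chartb_one (h1 _).1 (h1 _).1 ((chartb_e hg.on).2 ▸ hg.unit)⟩
theorem Ep.et {lam : Fin 𝒞.d → Λ[X]} {Q : Λ × Λ} (hg : 𝒞.Ep (fun i => (lam i).eval Q.1) Q.2) :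
    Et (𝒞.cL lam) Q := by
  refine ⟨on_cL.2 hg.on, fun h => ?_⟩
  rw [← cv_derivative, ee_cv] at h
  have h1 := hg.der
  rw [h, norm_zero] at h1
  exact zero_ne_one h1
theorem Ep.primX (hg : 𝒞.Ep y h) : PrimX J (𝒞.pv y h) := by
  refine ⟨fun G hG => ?_, le_antisymm ((pi_norm_le_iff_of_nonneg zero_le_one).2 fun i =>
    (chartb_ev hg.y_le hg.h_le _).1) (hg.unit ▸ norm_le_pi_norm _ _)⟩
  have h1 := map_dvd (ev2 (RingHom.id Λ) y h) (𝒞.on G hG)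
  have h2 : (ev2 (RingHom.id Λ) y h).comp (algebraMap K (MP 𝒞.d Λ)) = algebraMap K Λ :=
    RingHom.ext fun c => by
      rw [RingHom.comp_apply, Polynomial.algebraMap_apply, ev2_C, MvPolynomial.algebraMap_apply,
        MvPolynomial.eval₂_C, RingHom.id_apply]
  rw [ev2_mq, RingHom.id_comp, hg.on, zero_dvd_iff, MvPolynomial.map_aeval, h2] at h1
  simp only [ev2_mq, RingHom.id_comp] at h1
  exact h1
theorem Ep.xp (hg : 𝒞.Ep y h) (hB : B ≤ L) (hy : ∀ i, y i ∈ L) (hh : h ∈ L) :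
    XP J L (𝒞.io y h) := by
  refine ⟨𝒞.pv y h, fun h0 => ?_, hg.primX.1, fun i => ?_, rfl⟩
  · have h1 := hg.primX.2
    rw [h0, norm_zero] at h1
    exact zero_ne_one h1
  · rw [pv, ev2_eq_eval]
    exact (chartb_over hB hy _).eval hh
theorem root_le (hy : ∀ i, ‖y i‖ ≤ 1) (h0 : ev2 (OL B).subtype y h 𝒞.χ = 0) : ‖h‖ ≤ 1 :=
  (chartb_intg hy _).root_le (𝒞.monic.map _) ((ev2_eq_eval _ _ _ _).symm.trans h0)
theorem Gd.congr (hg : 𝒞.Gd y h) (hy : ∀ i, ‖y' i - y i‖ < 1)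
    (h0 : ev2 (OL B).subtype y' h' 𝒞.χ = 0) : 𝒞.Gd y' h' := by
  have h1 := fun i => chartb_near (hg.y_le i) (hy i)
  refine ⟨fun i => (h1 i).1, root_le (fun i => (h1 i).1) h0, h0, rs_ne_zero.1 ?_⟩
  rw [(chartb_mv (fun i => (h1 i).1) _).2, funext fun i => (h1 i).2, ← (chartb_mv hg.y_le _).2]
  exact rs_ne_zero.2 hg.unit
theorem Ep.congr (hg : 𝒞.Ep y h) (hy : ∀ i, ‖y' i - y i‖ < 1) (hh : ‖h' - h‖ < 1)
    (h0 : ev2 (OL B).subtype y' h' 𝒞.χ = 0) : 𝒞.Ep y' h' := by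
  have h1 := chartb_cong hg.y_le hg.h_le hy hh
  exact ⟨fun i => (chartb_near (hg.y_le i) (hy i)).1, (chartb_near hg.h_le hh).1, h0,
    rs_ne_zero.1 ((h1 _).trans_ne (rs_ne_zero.2 hg.der)),
    rs_ne_zero.1 ((h1 _).trans_ne (rs_ne_zero.2 hg.unit))⟩
theorem Ep.unique (hg : 𝒞.Ep y h) (hh : ‖h' - h‖ < 1) (h0 : ev2 (OL B).subtype y h' 𝒞.χ = 0) :
    h' = h :=
  ((chartb_intg hg.y_le 𝒞.χ).root_unique hg.h_le
    ((ev2_eq_eval _ _ _ _).symm.trans hg.on) ((ev2_eq_eval _ _ _ _).symm.trans h0)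
    (chartb_der _ y h ▸ hg.der) (by rwa [norm_sub_rev])).symm
theorem hen_congr (hh : ‖h₀ - h‖ < 1) : 𝒞.hen h₀ = 𝒞.hen h := by
  have key : ∀ P Q : Λ → Prop, P = Q →
      (if h : ∃ η, P η then h.choose else 0) = if h : ∃ η, Q η then h.choose else 0 := by
    rintro P Q rfl
    rfl
  funext y
  exact key _ _ (funext fun η => propext (and_congr_right fun _ =>
    ⟨fun h1 => gal1_trans_lt h1 hh, fun h1 => gal1_trans_lt h1 (by rwa [norm_sub_rev])⟩))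
theorem Jm_congr (hh : ‖h₀ - h‖ < 1) : 𝒞.Jm h₀ = 𝒞.Jm h := by
  rw [Jm, Jm, hen_congr hh]
theorem Jm_sg (h₀ : Λ) (y : Fin 𝒞.d → Λ) :
    𝒞.Jm h₀ (sg y) = Finsupp.single (𝒞.io y (𝒞.hen h₀ y)) 1 :=
  psh_single _ y 1
theorem chartb_spec (h1 : ∃ η, ev2 (OL B).subtype y η 𝒞.χ = 0 ∧ ‖η - h₀‖ < 1) :
    ev2 (OL B).subtype y (𝒞.hen h₀ y) 𝒞.χ = 0 ∧ ‖𝒞.hen h₀ y - h₀‖ < 1 := by
  rw [hen, dif_pos h1]
  exact h1.choose_spec
theorem Ep.hen_eq (hg : 𝒞.Ep y h₀) (hy : ∀ i, ‖y' i - y i‖ < 1) (hh : ‖h' - h₀‖ < 1)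
    (h0 : ev2 (OL B).subtype y' h' 𝒞.χ = 0) : 𝒞.hen h₀ y' = h' := by
  have h1 := chartb_spec ⟨h', h0, hh⟩
  exact (hg.congr hy hh h0).unique (gal1_trans_lt h1.2 (by rwa [norm_sub_rev])) h1.1
theorem Ep.hen_self (hg : 𝒞.Ep y h) : 𝒞.hen h y = h :=
  hg.hen_eq (fun i => by simp) (by simp) hg.on
theorem Gd.gk (hg : 𝒞.Gd y h) : 𝒞.Gk (fun i => rs (y i)) (rs h) :=
  ⟨by rw [← (chartb_ev hg.y_le hg.h_le _).2, hg.on, rs_zero],
    (chartb_mv hg.y_le _).2 ▸ rs_ne_zero.2 hg.unit⟩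
theorem Gk.gd (hk : 𝒞.Gk (fun i => rs (y i)) (rs h)) (hy : ∀ i, ‖y i‖ ≤ 1)
    (h0 : ev2 (OL B).subtype y h 𝒞.χ = 0) : 𝒞.Gd y h :=
  ⟨hy, root_le hy h0, h0, rs_ne_zero.1 ((chartb_mv hy _).2.trans_ne hk.unit)⟩
theorem Gk.der {a : Fin 𝒞.d → kk Λ} {c c' : kk Λ} (hk : 𝒞.Gk a c) (h0 : ev2 (rL B) a c' 𝒞.χ = 0) :
    ev2 (rL B) a c' (derivative 𝒞.χ) ≠ 0 :=
  right_ne_zero_of_mul ((chartb_e h0).1 ▸ hk.unit)
theorem GdL.mono {L' : IntermediateField K Λ} (hg : 𝒞.GdL L y h) (hL : L ≤ L') :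
    𝒞.GdL L' y h :=
  ⟨hg.gd, fun i => hL (hg.y_mem i), hL hg.h_mem⟩
theorem pv_gal {σ : Λ ≃ₐ[K] Λ} (hσ : Fix B σ) (y : Fin 𝒞.d → Λ) (h : Λ) :
    𝒞.pv (fun i => σ (y i)) (σ h) = σ ∘ 𝒞.pv y h := funext fun _ => chartb_gal hσ y h _
theorem io_gal {σ : Λ ≃ₐ[K] Λ} (hσ : Fix B σ) (y : Fin 𝒞.d → Λ) (h : Λ) :
    𝒞.io (fun i => σ (y i)) (σ h) = galY σ (𝒞.io y h) := by
  rw [io, io, galY_pj, pv_gal hσ]
theorem ov2_cv (hB : B ≤ L) {lam : Fin 𝒞.d → Λ[X]} (hl : ∀ i, Over L (lam i))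
    (f : MP 𝒞.d (OL B)) : Ov2 L (cv (OL B).subtype lam f) := fun i => by
  rw [cv, coe_mapRingHom, coeff_map]
  generalize f.coeff i = g
  induction g using MvPolynomial.induction_on with
  | C a => rw [MvPolynomial.eval₂Hom_C]; exact over_C (hB a.2.1)
  | add p q hp hq => rw [map_add]; exact hp.add hq
  | mul_X p n hp => rw [map_mul, MvPolynomial.eval₂Hom_X']; exact hp.mul (hl n)
/-- common zeros with a leading function are integral -/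
theorem zero_le {lam : Fin 𝒞.d → Λ[X]} (hl : ∀ i, Intg (lam i)) {e m : ℕ}
    (he : ∀ i, (lam i).natDegree ≤ e) {G : Λ[X][X]} (hG : Lead (𝒞.b * e) m G) (iG : In2 G)
    {Q : Λ × Λ} (h0 : On (𝒞.cL lam) Q) (h1 : ee Q G = 0) : ‖Q.1‖ ≤ 1 ∧ ‖Q.2‖ ≤ 1 := by
  have ht : ∀ x : Λ, x ∈ (⊤ : IntermediateField K Λ) := fun _ => IntermediateField.mem_top
  choose l hl1 hl2 using fun i => exists_OL_poly (L := (⊤ : IntermediateField K Λ))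
    (fun n => ht _) (hl i)
  obtain ⟨G', rfl, hG'⟩ := chartb_lead (φ := (OL (⊤ : IntermediateField K Λ)).subtype) hG
    fun i j => ⟨⟨_, ht _, iG i j⟩, rfl⟩
  rw [ee_mp] at h1
  have h2 := val_zero (v := NormedField.valuation) (fun c => by exact_mod_cast chartb_le c)
    (𝒞.wt_crv (inc (le_top : B ≤ ⊤)) fun i => (hl2 i).1.trans_le (he i)) hG' (by
      rw [e2_cv, subtype_inc]
      simpa only [eval₂_eq_eval_map, hl1] using on_cL.1 h0) h1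
  exact_mod_cast h2
theorem Pf_single (lam : Fin 𝒞.d → Λ[X]) (Q : Λ × Λ) (n : ℤ) : 𝒞.Pf lam (Finsupp.single Q n) =
    Finsupp.single (𝒞.io (fun i => (lam i).eval Q.1) Q.2) n :=
  psh_single _ Q n
theorem Lf_single (p : ℕ) (lam : Fin 𝒞.d → (kk Λ)[X]) (Q : kk Λ × kk Λ) (n : ℤ) :
    𝒞.Lf p lam (Finsupp.single Q n) =
      Finsupp.single (𝒞.lf p (fun i => (lam i).eval Q.1) Q.2) n :=
  psh_single _ Q n

variable [IsAlgClosed Λ]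

theorem chartb_hen (hy : ∀ i, ‖y i‖ ≤ 1) (hh : ‖h₀‖ ≤ 1)
    (h0 : rs (ev2 (OL B).subtype y h₀ 𝒞.χ) = 0) :
    ev2 (OL B).subtype y (𝒞.hen h₀ y) 𝒞.χ = 0 ∧ ‖𝒞.hen h₀ y - h₀‖ < 1 := by
  rw [rs_eq_zero (chartb_ev hy hh _).1, ev2_eq_eval] at h0
  obtain ⟨x, h1, h2⟩ := (chartb_intg hy _).exists_root_near (𝒞.monic.map _) h0
  exact chartb_spec ⟨x, (ev2_eq_eval _ _ _ _).trans h1, h2⟩
theorem Ep.hen_spec (hg : 𝒞.Ep y h₀) (hy : ∀ i, ‖y' i - y i‖ < 1) :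
    ev2 (OL B).subtype y' (𝒞.hen h₀ y') 𝒞.χ = 0 ∧ ‖𝒞.hen h₀ y' - h₀‖ < 1 :=
  chartb_hen (fun i => (chartb_near (hg.y_le i) (hy i)).1) hg.h_le (by
    rw [chartb_cong hg.y_le hg.h_le hy (by simp), hg.on, rs_zero])
theorem Gd.hen (hg : 𝒞.Gd y h₀) (hy : ∀ i, ‖y' i - y i‖ < 1) : 𝒞.Gd y' (𝒞.hen h₀ y') :=
  hg.congr hy (hg.ep.hen_spec hy).1
theorem Gk.lift (hk : 𝒞.Gk (fun i => rs (y i)) (rs h₀)) (hy : ∀ i, ‖y i‖ ≤ 1) (hh : ‖h₀‖ ≤ 1) :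
    𝒞.Gd y (𝒞.hen h₀ y) ∧ ‖𝒞.hen h₀ y - h₀‖ < 1 := by
  have h1 := chartb_hen hy hh ((chartb_ev hy hh _).2.trans hk.on)
  exact ⟨⟨hy, root_le hy h1.1, h1.1, rs_ne_zero.1 ((chartb_mv hy _).2.trans_ne hk.unit)⟩, h1.2⟩
/-- the fibre through a good point -/
theorem Gd.fibre (hg : 𝒞.Gd y h) : ∃ s : Finset Λ, s.card = 𝒞.δ ∧ h ∈ s ∧
    (∀ a ∈ s, 𝒞.Gd y a) ∧ ∀ a ∈ s, ∀ a' ∈ s, ‖a - a'‖ < 1 → a = a' := by
  set f := 𝒞.χ.map (MvPolynomial.eval₂Hom (OL B).subtype y) with hf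
  have hm : f.Monic := 𝒞.monic.map _
  have h1 : ∀ a, f.IsRoot a → 𝒞.Gd y a := fun a ha =>
    hg.congr (fun i => by simp) ((ev2_eq_eval _ _ _ _).trans ha)
  have h2 : ∀ a, a ∈ f.roots.toFinset ↔ f.IsRoot a := fun a => by
    rw [Multiset.mem_toFinset, mem_roots hm.ne_zero]
  refine ⟨f.roots.toFinset, ?_, (h2 h).2 ((ev2_eq_eval _ _ _ _).symm.trans hg.on),
    fun a ha => h1 a ((h2 a).1 ha), fun a ha a' ha' h3 =>
      (h1 a' ((h2 a').1 ha')).ep.unique h3 (h1 a ((h2 a).1 ha)).on⟩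
  rw [Multiset.toFinset_card_of_nodup, IsAlgClosed.card_roots_eq_natDegree, hf,
    𝒞.monic.natDegree_map, 𝒞.deg]
  refine Multiset.nodup_iff_count_le_one.2 fun a => not_lt.1 fun h3 => ?_
  rw [count_roots, one_lt_rootMultiplicity_iff_isRoot hm.ne_zero] at h3
  have h4 := (h1 a h3.1).ep.der
  rw [← chartb_der, h3.2, norm_zero] at h4
  exact zero_ne_one h4
theorem exists_gk : ∃ a c, 𝒞.Gk a c := by
  obtain ⟨a, ha⟩ : ∃ a, MvPolynomial.eval a (MvPolynomial.map (rL B) 𝒞.D₀) ≠ 0 := by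
    by_contra h
    push Not at h
    exact 𝒞.ne (MvPolynomial.funext fun a => by rw [h, map_zero])
  obtain ⟨c, hc⟩ := IsAlgClosed.exists_root (𝒞.χ.map (MvPolynomial.eval₂Hom (rL B) a)) (by
    rw [𝒞.monic.degree_map, degree_eq_natDegree 𝒞.monic.ne_zero, 𝒞.deg]
    exact_mod_cast 𝒞.pos.ne')
  exact ⟨a, c, (ev2_eq_eval _ _ _ _).trans hc, by rwa [MvPolynomial.eval_map] at ha⟩

end Chart

end

variable {p : ℕ} {K Λ : Type} [Field K] [CharZero K] [NormedField Λ] [IsUltrametricDist Λ]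
  [IsAlgClosed Λ] [Algebra K Λ] [IsGalois K Λ] [Loc p K Λ] [Fact p.Prime] [CharP (kk Λ) p]

variable {N : ℕ} {J : Ideal (MvPolynomial (Fin (N + 1)) K)} {B L : IntermediateField K Λ}

theorem Tower.fr_base (T : Tower p B) (n : ℕ) :
    (fr (kk Λ) p (T.r * n)).comp (rL B) = rL B := RingHom.ext fun x => by
  rw [RingHom.comp_apply, rL_apply, ← T.rs_φ, T.φ_fix.pow n _ x.2.1]
theorem Tower.exists_lift_poly (T : Tower p B) {n : ℕ} (hn : 0 < n) {f : (kk Λ)[X]}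
    (hf : f.map (fr (kk Λ) p (T.r * n)) = f) :
    ∃ g : (OL (T.U n))[X], g.map (rL _) = f ∧ g.natDegree = f.natDegree :=
  exists_natDegree_eq_of_mem_lifts ((lifts_iff_coeff_lifts f).2 fun i =>
    T.exists_lift hn (by rw [← coeff_map, hf]))
theorem Tower.exists_lift_lead (T : Tower p B) {n : ℕ} (hn : 0 < n) {b m : ℕ} {G : (kk Λ)[X][X]}
    (hG : Lead b m G) (hf : mp (fr (kk Λ) p (T.r * n)) G = G) :
    ∃ G' : (OL (T.U n))[X][X], mp (rL _) G' = G ∧ Lead b m G' :=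
  chartb_lead hG fun i j =>
    T.exists_lift hn (by rw [← coeff_map, ← coe_mapRingHom, ← coeff_map, ← coe_mapRingHom, hf])
/-- simple roots of unramified polynomials are unramified -/
theorem Tower.root_mem (T : Tower p B) {n : ℕ} (hn : 0 < n) {f : Λ[X]} (hf : Over (T.U n) f)
    (hi : Intg f) {x : Λ} (hx : ‖x‖ ≤ 1) (h0 : f.eval x = 0) (h1 : ‖f.derivative.eval x‖ = 1) :
    ∃ j, 0 < j ∧ x ∈ T.U (n * j) := by
  obtain ⟨j, hj, h2⟩ := (algP_kk (p := p) K).per_finset (Nat.mul_pos T.r_pos hn) {rs x}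
  have h3 := h2 _ (Finset.mem_singleton_self _)
  rw [mul_assoc] at h3
  obtain ⟨t, ht⟩ := T.exists_lift (Nat.mul_pos hn hj) h3
  exact ⟨j, hj, hensel_mem (hf.mono (T.mono hn (Nat.mul_pos hn hj) (dvd_mul_right n j))) hi hx h0 h1
    t.2.1 ((rs_eq_iff hx t.2.2).1 (ht.symm.trans (rL_apply t)))⟩

namespace Chart

variable {𝒞 : Chart J B} {y y' : Fin 𝒞.d → Λ} {h h' h₀ : Λ} {a : Fin 𝒞.d → kk Λ} {c : kk Λ}

include p in
theorem Ep.gal (hg : 𝒞.Ep y h) {σ : Λ ≃ₐ[K] Λ} (hσ : Fix B σ) :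
    𝒞.Ep (fun i => σ (y i)) (σ h) :=
  ⟨fun i => (Loc.norm_gal σ _).trans_le (hg.y_le i), (Loc.norm_gal σ _).trans_le hg.h_le,
    by rw [chartb_gal hσ, hg.on, map_zero], by rw [chartb_gal hσ, Loc.norm_gal, hg.der],
    by rw [pv_gal hσ, Function.comp_apply, Loc.norm_gal, hg.unit]⟩
include p in
theorem Gd.gal (hg : 𝒞.Gd y h) {σ : Λ ≃ₐ[K] Λ} (hσ : Fix B σ) :
    𝒞.Gd (fun i => σ (y i)) (σ h) :=
  ⟨(hg.ep.gal hσ).y_le, (hg.ep.gal hσ).h_le, (hg.ep.gal hσ).on, by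
    rw [← ev2_C _ _ (σ h), chartb_gal hσ, Loc.norm_gal, ev2_C, hg.unit]⟩
include p in
theorem Ep.mem (hg : 𝒞.Ep y h) (hB : B ≤ L) (hy : ∀ i, y i ∈ L) (hh : h₀ ∈ L)
    (h1 : ‖h - h₀‖ < 1) : h ∈ L :=
  hensel_mem (chartb_over hB hy 𝒞.χ) (chartb_intg hg.y_le _) hg.h_le
    ((ev2_eq_eval _ _ _ _).symm.trans hg.on) (chartb_der _ y h ▸ hg.der) hh h1
include p in
theorem GdL.hen (hg : 𝒞.GdL L y h₀) (hB : B ≤ L) (hy : ∀ i, ‖y' i - y i‖ < 1)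
    (hy' : ∀ i, y' i ∈ L) : 𝒞.GdL L y' (𝒞.hen h₀ y') :=
  ⟨hg.gd.hen hy, hy', (hg.gd.hen hy).ep.mem hB hy' hg.h_mem (hg.gd.ep.hen_spec hy).2⟩
theorem chartb_teich (hk : 𝒞.Gk a c) :
    𝒞.Gd (fun i => teich p (a i)) (𝒞.hen (teich p c) fun i => teich p (a i)) ∧
      ‖(𝒞.hen (teich p c) fun i => teich p (a i)) - teich p c‖ < 1 :=
  Gk.lift (by simpa only [(teich_spec (p := p) K _).2] using hk) (fun _ => (teich_spec K _).1)
    (teich_spec K _).1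
theorem chartb_lf (hk : 𝒞.Gk a c) {σ : Λ ≃ₐ[K] Λ} (hσ : Fix B σ) :
    𝒞.io (fun i => σ (teich p (a i))) (𝒞.hen (σ (teich p c)) fun i => σ (teich p (a i))) =
      galY σ (𝒞.lf p a c) := by
  obtain ⟨h1, h2⟩ := chartb_teich (p := p) hk
  rw [lf, ← io_gal hσ, ← hen_congr (tow_gal_lt σ h2), (h1.gal hσ).ep.hen_self]
theorem lf_gal (hg : 𝒞.Gd y h) {σ : Λ ≃ₐ[K] Λ} (hσ : Fix B σ) :
    𝒞.lf p (fun i => rs (σ (y i))) (rs (σ h)) =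
      galY σ (𝒞.lf p (fun i => rs (y i)) (rs h)) := by
  rw [← chartb_lf hg.gk hσ, lf]
  simp only [teich_gal]
theorem Gk.fr (hk : 𝒞.Gk a c) (T : Tower p B) (n : ℕ) :
    𝒞.Gk (fun i => fr (kk Λ) p (T.r * n) (a i)) (fr (kk Λ) p (T.r * n) c) := by
  have h1 := map_ev2 (rL B) (ZeroCyc.fr (kk Λ) p (T.r * n)) a c
  rw [T.fr_base] at h1
  refine ⟨by rw [← h1, hk.on, map_zero], ?_⟩
  rw [← ev2_C _ _ (ZeroCyc.fr (kk Λ) p (T.r * n) c), ← h1, ev2_C]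
  exact (_root_.map_ne_zero _).2 hk.unit
theorem Gk.lf_fr (hk : 𝒞.Gk a c) (T : Tower p B) (n : ℕ) :
    𝒞.lf p (fun i => ZeroCyc.fr (kk Λ) p (T.r * n) (a i)) (ZeroCyc.fr (kk Λ) p (T.r * n) c) =
      galY (T.φ ^ n) (𝒞.lf p a c) := by
  rw [← chartb_lf hk (T.φ_fix.pow n), lf]
  simp only [T.teich_fr]
theorem Gk.exists_gdL (hk : 𝒞.Gk a c) (T : Tower p B) {n : ℕ} (hn : 0 < n)
    (ha : ∀ i, ZeroCyc.fr (kk Λ) p (T.r * n) (a i) = a i)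
    (hc : ZeroCyc.fr (kk Λ) p (T.r * n) c = c) : ∃ y h, 𝒞.GdL (T.U n) y h ∧
      (∀ i, rs (y i) = a i) ∧ rs h = c ∧ 𝒞.lf p a c = 𝒞.io y h := by
  obtain ⟨h1, h2⟩ := chartb_teich (p := p) hk
  have h3 := fun i => T.teich_mem hn (ha i)
  exact ⟨_, _, ⟨h1, h3, h1.ep.mem (T.le n) h3 (T.teich_mem hn hc) h2⟩, fun _ => (teich_spec K _).2,
    (chartb_near (teich_spec K _).1 h2).2.trans (teich_spec K _).2, rfl⟩
theorem crv_inv (T : Tower p B) (n : ℕ) {lam : Fin 𝒞.d → (kk Λ)[X]} {e : ℕ}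
    (he : ∀ i, (lam i).natDegree ≤ e) (hl : ∀ i, (lam i).map (fr (kk Λ) p (T.r * n)) = lam i) :
    (𝒞.crv (rL B) lam e he).Inv (fr (kk Λ) p (T.r * n)) ∧ ∀ f : MP 𝒞.d (OL B),
      mp (fr (kk Λ) p (T.r * n)) (cv (rL B) lam f) = cv (rL B) lam f := by
  have h1 : ∀ f : MP 𝒞.d (OL B),
      mp (fr (kk Λ) p (T.r * n)) (cv (rL B) lam f) = cv (rL B) lam f := fun f => by
    rw [mp_cv, T.fr_base, funext hl]
  refine ⟨⟨h1 _, (map_rho _ _ _).trans ?_⟩, h1⟩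
  rw [T.fr_base, funext hl]
  rfl
/-- generic lines through a good point of the special fibre -/
theorem Gk.bertini (hI : 𝒞.Irr) (hk : 𝒞.Gk a c) : ∃ Θ : MvPolynomial (Fin 𝒞.d) (kk Λ), Θ ≠ 0 ∧
    ∀ e : Fin 𝒞.d → kk Λ, MvPolynomial.eval e Θ ≠ 0 →
      Irreducible (cv (rL B) (fun i => C (a i) + C (e i) * X) 𝒞.χ) := by
  have hd : (mq (rL B) 𝒞.χ).natDegree = 𝒞.δ := (𝒞.monic.natDegree_map _).trans 𝒞.deg
  obtain ⟨Θ, h0, h1⟩ := ZeroCyc.bertini (b := 𝒞.b) (χ := mq (rL B) 𝒞.χ) (𝒞.monic.map _) (fun i => by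
    rw [hd, coe_mapRingHom, coeff_map]
    exact (Finset.sup_mono (MvPolynomial.support_map_subset _ _)).trans (𝒞.wt i)) hI a
    fun c' hc' => by
      rw [coe_mapRingHom, derivative_map, ← coe_mapRingHom, ev2_mq, RingHom.id_comp]
      rw [ev2_mq, RingHom.id_comp] at hc'
      exact hk.der hc'
  refine ⟨Θ, h0, fun e he => ?_⟩
  have h2 := h1 e he
  rwa [cv_mq, RingHom.id_comp] at h2

end Chart

end Pool.Agent.ZeroCyc
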