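import Pool.Agent.Lib.MP_796ce4_ag.ZY.ML2
import Pool.Agent.Lib.MP_796ce4_ag.ZY.FfM
import Pool.Agent.Lib.MP_796ce4_ag.ZY.Gen

/-! Lifting relations from the special fibre. -/

namespace Pool.Agent.ZeroCyc

open Polynomial Module
open scoped Classical IntermediateField PowerSeries

set_option linter.unusedSectionVars false

theorem lr_zero {𝕜 : Type} [Field 𝕜] {χ G G' : 𝕜[X][X]} {Q : 𝕜 × 𝕜} (hd : χ ∣ G - G')
    (hQ : ee Q χ = 0) (h0 : ee Q G = 0) : ee Q G' = 0 := by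
  obtain ⟨s, hs⟩ := hd
  have e := congrArg (ee Q) hs
  rw [map_sub, h0, map_mul, hQ, zero_mul, zero_sub] at e
  exact neg_eq_zero.1 e

/-- a relation on a component extends to the whole curve -/
theorem lr_factor {𝕜 : Type} [Field 𝕜] [IsAlgClosed 𝕜] (c : Cv 𝕜) {χ₁ χ₂ a : 𝕜[X][X]} {u : 𝕜[X]}
    (h : c.χ = χ₁ * χ₂) (h₁ : χ₁.Monic) (h₂ : χ₂.Monic) (hu : u.Monic) (hcop : IsCoprime u c.ρ)
    (hwl : WL c.b c.w u.natDegree a) :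
    Lead c.b u.natDegree (C u + c.β * derivative χ₁ * χ₂ * a) ∧
    (∀ Q, On c.χ Q → ee Q (C u + c.β * derivative χ₁ * χ₂ * a) = 0 ∨ ee Q (C u) = 0 →
      c.ρ.eval Q.1 ≠ 0) ∧
    dv c.χ (C u + c.β * derivative χ₁ * χ₂ * a) - dv c.χ (C u) =
      dv χ₁ (C u + C c.ρ * a) - dv χ₁ (C u) := by
  have hL : Lead c.b u.natDegree (C u + c.β * derivative χ₁ * χ₂ * a) :=
    (lead_C hu).add (((c.factor_wl h h₁ h₂).1.mul hwl).mono (by omega))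
  have hr : C c.ρ = (c.α * χ₂ + c.β * derivative χ₂) * χ₁ + c.β * χ₂ * derivative χ₁ := by
    rw [c.rho, h, derivative_mul]
    ring
  have d₁ : χ₁ ∣ (C u + c.β * derivative χ₁ * χ₂ * a) - (C u + C c.ρ * a) :=
    ⟨-((c.α * χ₂ + c.β * derivative χ₂) * a), by rw [hr]; ring⟩
  have d₂ : χ₂ ∣ (C u + c.β * derivative χ₁ * χ₂ * a) - C u :=
    ⟨c.β * derivative χ₁ * a, by ring⟩
  generalize C u + c.β * derivative χ₁ * χ₂ * a = G at hL d₁ d₂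
  have hz : ∀ Q, On c.χ Q → ee Q G = 0 ∨ ee Q (C u) = 0 → c.ρ.eval Q.1 ≠ 0 := by
    intro Q hQ h0 hρ
    refine (Cv.cop_iff (c := c)).1 hcop Q.1 ?_ hρ
    rw [← ee_C]
    rcases h0 with h0 | h0
    · unfold On at hQ
      rw [h, map_mul] at hQ
      rcases mul_eq_zero.1 hQ with hQ | hQ
      · have e := lr_zero d₁ hQ h0
        rwa [map_add, map_mul, ee_C Q c.ρ, hρ, zero_mul, add_zero] at e
      · exact lr_zero d₂ hQ h0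
    · exact h0
  refine ⟨hL, hz, ?_⟩
  have hχ := c.wt
  have a₁ : Adm c.χ G := fun Q hQ h0 => Cv.Gp.et ⟨hQ, hz Q hQ (Or.inl h0)⟩
  have a₂ : Adm c.χ (C u) := Cv.adm_C hcop
  rw [h] at hχ a₁ a₂
  rw [h, (hL.dv_split hχ h₁ h₂ a₁).1, ((lead_C hu).dv_split hχ h₁ h₂ a₂).1, dv_congr h₁ d₁,
    dv_congr h₂ d₂]
  abel

theorem lr_map_fr {p : ℕ} [Fact p.Prime] {𝕜 : Type} [Field 𝕜] [CharP 𝕜 p] {r : ℕ} {f : 𝕜[X]}
    (h : f.map (fr 𝕜 p r) = f) (m : ℕ) : f.map (fr 𝕜 p (r * m)) = f := by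
  ext i
  rw [coeff_map]
  refine fr_fixed_mul ?_ m
  rw [← coeff_map, h]

theorem lr_eval_fr {𝕜 : Type} [Field 𝕜] {F : 𝕜 →+* 𝕜} {f : 𝕜[X]} (h : f.map F = f) (t : 𝕜) :
    f.eval (F t) = F (f.eval t) := by
  conv_lhs => rw [← h]
  rw [eval_map, eval₂_at_apply]

variable {p : ℕ} {K Λ : Type} [Field K] [CharZero K] [NormedField Λ] [IsUltrametricDist Λ]
  [IsAlgClosed Λ] [Algebra K Λ] [IsGalois K Λ] [Loc p K Λ] [Fact p.Prime] [CharP (kk Λ) p]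

variable {N : ℕ} {J : Ideal (MvPolynomial (Fin (N + 1)) K)} {B : IntermediateField K Λ}

namespace Chart

variable {𝒞 : Chart J B} {T : Tower p B} {n e : ℕ} {lam : Fin 𝒞.d → (kk Λ)[X]}

theorem LR0 (hn : 0 < n) (he : ∀ i, (lam i).natDegree ≤ e)
    (hl : ∀ i, (lam i).map (fr (kk Λ) p (T.r * n)) = lam i) {m : ℕ} {G G' : (kk Λ)[X][X]}
    (hG : Lead (𝒞.b * e) m G) (hG' : Lead (𝒞.b * e) m G')
    (fG : mp (fr (kk Λ) p (T.r * n)) G = G) (fG' : mp (fr (kk Λ) p (T.r * n)) G' = G')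
    (hz : ∀ Q, On (cv (rL B) lam 𝒞.χ) Q → ee Q G = 0 ∨ ee Q G' = 0 →
      (𝒞.rho (rL B) lam).eval Q.1 ≠ 0) : clL J (T.U n)
      (𝒞.Lf p lam (dv (cv (rL B) lam 𝒞.χ) G - dv (cv (rL B) lam 𝒞.χ) G')) ∈ 𝒞.Vu T := by
  choose l hl1 hl2 using fun i => T.exists_lift_poly hn (hl i)
  obtain ⟨A, rfl, hA⟩ := T.exists_lift_lead hn hG fG
  obtain ⟨A', rfl, hA'⟩ := T.exists_lift_lead hn hG' fG'
  have he' : ∀ i, (l i).natDegree ≤ e := fun i => (hl2 i).le.trans (he i)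
  obtain rfl : lam = fun i => (l i).map (rL _) := funext fun i => (hl1 i).symm
  obtain ⟨g1, r1⟩ := RED (𝒞 := 𝒞) (T := T) hn he' hA fun Q h0 h1 => hz Q h0 (Or.inl h1)
  obtain ⟨g2, r2⟩ := RED (𝒞 := 𝒞) (T := T) hn he' hA' fun Q h0 h1 => hz Q h0 (Or.inr h1)
  have := T.fin n hn
  have key := MRc (p := p) (𝒞 := 𝒞) (T.le n) (fun i => over_map (l i))
    (fun i => natDegree_map_le.trans (he' i)) (hA.map (OL _).subtype) (hA'.map (OL _).subtype)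
    (ov2_mp (fun x => x.2.1) A) (ov2_mp (fun x => x.2.1) A')
    fun Q h0 h1 => (h1.elim (g1 Q h0) (g2 Q h0)).ep
  have hs := sub_mem r2 r1
  rw [map_sub, map_sub, key] at hs
  rw [map_sub, map_sub]
  convert hs using 1
  abel

theorem LR (hn : 0 < n) (he : ∀ i, (lam i).natDegree ≤ e)
    (hl : ∀ i, (lam i).map (fr (kk Λ) p (T.r * n)) = lam i) {χ₁ χ₂ : (kk Λ)[X][X]}
    (h : (𝒞.crv (rL B) lam e he).χ = χ₁ * χ₂) (h₁ : χ₁.Monic) (h₂ : χ₂.Monic)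
    (f₁ : mp (fr (kk Λ) p (T.r * n)) χ₁ = χ₁) (f₂ : mp (fr (kk Λ) p (T.r * n)) χ₂ = χ₂)
    {D : kk Λ × kk Λ →₀ ℤ} (hD : D ∈ ((𝒞.crv (rL B) lam e he).factor χ₁ χ₂ h h₁ h₂).PP)
    (hF : psh (pm (fr (kk Λ) p (T.r * n))) D = D) :
    clL J (T.U n) (𝒞.Lf p lam D) ∈ 𝒞.Vu T := by
  obtain ⟨hI, hI'⟩ := crv_inv T n he hl
  have hI₁ : ((𝒞.crv (rL B) lam e he).factor χ₁ χ₂ h h₁ h₂).Inv (fr (kk Λ) p (T.r * n)) :=
    ⟨f₁, hI.ρ⟩
  obtain ⟨u, a, hw, fu, fa, rfl⟩ := Cv.exists_inv_wit hI₁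
    ((algP_kk K).per (Nat.mul_pos T.r_pos hn)) hD hF
  obtain ⟨hL, hz, hd⟩ := lr_factor _ h h₁ h₂ hw.monic hw.cop hw.wl
  have fC : mp (fr (kk Λ) p (T.r * n)) (C u) = C u := by rw [mp_C, fu]
  have fβ : mp (fr (kk Λ) p (T.r * n)) (𝒞.crv (rL B) lam e he).β = (𝒞.crv (rL B) lam e he).β :=
    hI' 𝒞.β₀
  have key := LR0 (T := T) hn he hl hL (lead_C hw.monic)
    (by rw [map_add, map_mul, map_mul, map_mul, mp_derivative, fC, fβ, f₁, f₂, fa]) fC hz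
  exact hd ▸ key

/-- the lift of a rational good point of a component -/
theorem lr_closure (hn : 0 < n) (he : ∀ i, (lam i).natDegree ≤ e)
    (hl : ∀ i, (lam i).map (fr (kk Λ) p (T.r * n)) = lam i) {χ₁ χ₂ : (kk Λ)[X][X]}
    (h : (𝒞.crv (rL B) lam e he).χ = χ₁ * χ₂) (h₁ : χ₁.Monic) (h₂ : χ₂.Monic)
    {D : kk Λ × kk Λ →₀ ℤ} (hD : D ∈ AddSubgroup.closure {D | ∃ Q,
      ((𝒞.crv (rL B) lam e he).factor χ₁ χ₂ h h₁ h₂).Gp Q ∧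
        pm (fr (kk Λ) p (T.r * n)) Q = Q ∧ D = Finsupp.single Q 1}) :
    psh (pm (fr (kk Λ) p (T.r * n))) D = D ∧ clL J (T.U n) (𝒞.Lf p lam D) ∈ 𝒞.TL (T.U n) := by
  induction hD using AddSubgroup.closure_induction with
  | mem D hD =>
    obtain ⟨Q, hQ, hf, rfl⟩ := hD
    refine ⟨by rw [psh_single, hf], ?_⟩
    have hg : (𝒞.crv (rL B) lam e he).Gp Q := by
      refine ⟨?_, hQ.2⟩
      have h0 : ee Q χ₁ = 0 := hQ.1
      unfold On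
      rw [h, map_mul, h0, zero_mul]
    rw [Lf_single]
    refine lf_mem_TL hn (crv_gp.1 hg) (fun i => ?_) (congrArg Prod.snd hf)
    rw [← lr_eval_fr (hl i)]
    exact congrArg (fun t => (lam i).eval t) (congrArg Prod.fst hf)
  | zero => exact ⟨map_zero _, by rw [map_zero, map_zero]; exact zero_mem _⟩
  | add x y _ _ hx hy =>
    exact ⟨by rw [map_add, hx.1, hy.1], by rw [map_add, map_add]; exact add_mem hx.2 hy.2⟩
  | neg x _ hx =>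
    exact ⟨by rw [map_neg, hx.1], by rw [map_neg, map_neg]; exact neg_mem hx.2⟩

/-- the lift of the norm of a point -/
theorem lr_nrm (hn : 0 < n) (hl : ∀ i, (lam i).map (fr (kk Λ) p (T.r * n)) = lam i)
    {Q : kk Λ × kk Λ} (hk : 𝒞.Gk (fun i => (lam i).eval Q.1) Q.2) {j : ℕ} (hj : 0 < j) :
    clL J (T.U n) (𝒞.Lf p lam (nrm (pm (fr (kk Λ) p (T.r * n))) j Q)) =
      clL J (T.U (n * j)) (Finsupp.single (𝒞.lf p (fun i => (lam i).eval Q.1) Q.2) 1) := by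
  rw [T.clL_mul hn hj, nrm, map_sum, map_sum, ← Finset.card_range j, ← Finset.sum_const,
    Finset.card_range]
  refine Finset.sum_congr rfl fun i _ => ?_
  rw [pm_fr_iterate, Lf_single, eq_comm, ← clL_gal (T.φ ^ (n * i)) (Finsupp.single _ 1),
    galC_single, ← hk.lf_fr T (n * i), ← mul_assoc, eq_comm]
  congr 3
  funext s
  exact lr_eval_fr (lr_map_fr (hl s) i) Q.1

theorem FPR : ∃ β : ℕ → ℕ, ∀ a D, 0 < a → 0 < D → β D ≤ a →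
    𝒞.TL (T.U (a * D)) ≤ (⨆ c ∈ Finset.Icc 1 𝒞.δ, 𝒞.TL (T.U (a * c))) ⊔ 𝒞.Vu T := by
  refine ⟨fun D => 4 * cst 𝒞.δ (𝒞.b * D) (𝒞.W * D) ^ 2 + 1, fun a D ha hD hβ => ?_⟩
  have haD := Nat.mul_pos ha hD
  refine TL_le haD le_sup_right fun a₀ c₀ hk ha₀ hc₀ => ?_
  obtain ⟨y, h, hg, hy, -, -⟩ := hk.exists_gdL T haD ha₀ hc₀
  obtain ⟨ζ, -, hζ, hζ1, -, -, -, -, hR⟩ := T.exists_gen ha hD
  choose R hR1 hR2 using fun i => hR (y i) (hg.y_mem i) (hg.gd.y_le i)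
  obtain ⟨lam, hlam⟩ : ∃ lam : Fin 𝒞.d → (kk Λ)[X], lam = fun i => (R i).map (rL _) := ⟨_, rfl⟩
  have he : ∀ i, (lam i).natDegree ≤ D := fun i => by
    rw [hlam]
    exact natDegree_map_le.trans (hR1 i).le
  have hl : ∀ i, (lam i).map (fr (kk Λ) p (T.r * a)) = lam i := fun i => by
    rw [hlam]
    simp only [Polynomial.map_map, T.fr_rL ha]
  have hev : (fun i => (lam i).eval (rs ζ)) = a₀ := funext fun i => by
    rw [hlam, ← hy i, ← hR2 i, rs_eval₂ (fun x => x.2.2) rL_apply hζ1]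
    exact eval_map _ _
  subst hev
  have hQ : (𝒞.crv (rL B) lam D he).Gp (rs ζ, c₀) := crv_gp.2 hk
  have hQD : pm (fr (kk Λ) p (T.r * (a * D))) (rs ζ, c₀) = (rs ζ, c₀) :=
    Prod.ext (T.rs_fixed haD hζ) hc₀
  obtain ⟨k, χ₁, χ₂, hk0, hkδ, ⟨D', hD'⟩, h, h₁, h₂, hi, f₁, f₂, hon⟩ :=
    exists_component (𝒞.crv (rL B) lam D he).wt.monic (fr_bijective (T.r * a))
      (crv_inv T a he hl).1.χ hQ.et hD (by rw [fr_pow, mul_assoc]; exact hQD)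
  rw [fr_pow, mul_assoc] at f₁ f₂
  rw [(𝒞.crv (rL B) lam D he).wt.deg] at hkδ
  have hak := Nat.mul_pos ha hk0
  have hD'0 : 0 < D' := Nat.pos_of_mul_pos_left (hD' ▸ hD)
  have hl' : ∀ i, (lam i).map (fr (kk Λ) p (T.r * (a * k))) = lam i := fun i => by
    rw [← mul_assoc]
    exact lr_map_fr (hl i) k
  have hI : ((𝒞.crv (rL B) lam D he).factor χ₁ χ₂ h h₁ h₂).Inv (fr (kk Λ) p (T.r * (a * k))) :=
    ⟨f₁, (crv_inv T (a * k) he hl').1.ρ⟩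
  have hρ : ((𝒞.crv (rL B) lam D he).factor χ₁ χ₂ h h₁ h₂).ρ ≠ 0 := fun h0 =>
    hQ.2 (by rw [show (𝒞.crv (rL B) lam D he).ρ = 0 from h0, eval_zero])
  have hq : 4 * ((𝒞.crv (rL B) lam D he).factor χ₁ χ₂ h h₁ h₂).c0 ^ 2 < p ^ (T.r * (a * k)) := by
    have h1 : ((𝒞.crv (rL B) lam D he).factor χ₁ χ₂ h h₁ h₂).c0 ≤
        cst 𝒞.δ (𝒞.b * D) (𝒞.W * D) :=
      cst_mono ((𝒞.crv (rL B) lam D he).factor_wl h h₁ h₂).2 le_rfl le_rfl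
    have h2 : a ≤ T.r * (a * k) :=
      (Nat.le_mul_of_pos_right a hk0).trans (Nat.le_mul_of_pos_left _ T.r_pos)
    have h3 : T.r * (a * k) < p ^ (T.r * (a * k)) :=
      Nat.lt_pow_self (Fact.out : p.Prime).one_lt
    have h4 := Nat.mul_le_mul_left 4 (Nat.pow_le_pow_left h1 2)
    have h5 : 4 * cst 𝒞.δ (𝒞.b * D) (𝒞.W * D) ^ 2 + 1 ≤ a := hβ
    omega
  have hZ := nrm_mem (F := pm (fr (kk Λ) p (T.r * (a * k))))
    (S := {Q | ((𝒞.crv (rL B) lam D he).factor χ₁ χ₂ h h₁ h₂).Gp Q})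
    (fun Q hQ => hI.gp (RingHom.injective _) hQ) (r := D') (y := (rs ζ, c₀)) ⟨hon, hQ.2⟩
    (by rw [pm_fr_iterate, mul_assoc, mul_assoc, ← hD']; exact hQD)
  obtain ⟨Z₁, hZ₁, Z₂, hZ₂, hZ'⟩ := AddSubgroup.mem_sup.1 (ff_gen hρ hi (algP_kk K)
    (Nat.mul_pos T.r_pos hak) hI hq (Cv.mem_DvF.2 ⟨hZ.2.1, hZ.2.2.1⟩))
  obtain ⟨g₁, m₁⟩ := lr_closure hak he hl' h h₁ h₂ hZ₁
  have g₂ : psh (pm (fr (kk Λ) p (T.r * (a * k)))) Z₂ = Z₂ := by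
    have e₁ := hZ.2.2.1
    rw [← hZ', map_add, g₁] at e₁
    exact add_left_cancel e₁
  have m₂ := LR hak he hl' h h₁ h₂ f₁ f₂ hZ₂ g₂
  have e₂ := lr_nrm (Q := (rs ζ, c₀)) hak hl' hk hD'0
  rw [mul_assoc, ← hD', ← hZ', map_add, map_add] at e₂
  rw [← e₂]
  refine AddSubgroup.add_mem_sup ?_ m₂
  exact le_iSup₂ (f := fun c (_ : c ∈ Finset.Icc 1 𝒞.δ) => 𝒞.TL (T.U (a * c))) k
    (Finset.mem_Icc.2 ⟨hk0, hkδ⟩) m₁

theorem UU_fin : FinMod (𝒞.UU T) (𝒞.Vu T) := by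
  obtain ⟨β, hβ⟩ := FPR (𝒞 := 𝒞) (T := T)
  obtain ⟨M, hM⟩ := tower_lemma (fun n => 𝒞.TL (T.U n)) (𝒞.Vu T) 𝒞.δ β
    (fun n j hn hj x hx => TL_mul hn hj hx) hβ
  exact (FinMod.biSup (Finset.Icc 1 M) fun t ht => TL_fin (Finset.mem_Icc.1 ht).1).of_le_sup
    (iSup₂_le fun m hm => TL_le_UU (Finset.mem_Icc.1 hm).1) (UU_le hM)

end Chart

end Pool.Agent.ZeroCyc
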