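import Pool.Agent.Lib.MP_796ce4_ag.ZY.CvH

/-! Blocks of zeros over a complete local ring. -/

namespace Pool.Agent.ZeroCyc

open Polynomial Module
open scoped Classical IntermediateField PowerSeries

set_option linter.unusedSectionVars false

open IsLocalRing

variable {R : Type} [CommRing R] [IsLocalRing R]

theorem wb_unit_of_sub {x y : R} (hy : IsUnit y) (h : x - y ∈ maximalIdeal R) : IsUnit x := by
  by_contra hx
  have h1 : x ∈ maximalIdeal R := hx
  have h2 : y ∈ maximalIdeal R := by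
    have := (maximalIdeal R).sub_mem h1 h
    simpa using this
  exact h2 hy

theorem wb_isUnit_mk {μ f : R[X]} (hμ : μ.IsDistinguishedAt (maximalIdeal R))
    (hf : IsUnit (f.eval 0)) : IsUnit (AdjoinRoot.mk μ f) := by
  by_contra hu
  obtain ⟨M, hM, hle⟩ := exists_max_ideal_of_mem_nonunits (mem_nonunits_iff.2 hu)
  have : Module.Finite R (AdjoinRoot μ) := hμ.monic.finite_adjoinRoot
  have hc : M.comap (algebraMap R (AdjoinRoot μ)) = maximalIdeal R :=
    eq_maximalIdeal (Ideal.isMaximal_comap_of_isIntegral_of_isMaximal M)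
  have hm : ∀ r ∈ maximalIdeal R, algebraMap R (AdjoinRoot μ) r ∈ M := fun r hr => by
    rw [← hc] at hr; exact hr
  have hroot : AdjoinRoot.root μ ^ μ.natDegree ∈ M := by
    have h0 : aeval (AdjoinRoot.root μ) μ = 0 := by
      rw [AdjoinRoot.aeval_eq, AdjoinRoot.mk_self]
    rw [aeval_eq_sum_range, Finset.sum_range_succ, hμ.monic.coeff_natDegree, one_smul] at h0
    rw [eq_neg_of_add_eq_zero_right h0]
    refine M.neg_mem (M.sum_mem fun i hi => ?_)
    rw [Algebra.smul_def]
    exact M.mul_mem_right _ (hm _ (hμ.mem (Finset.mem_range.1 hi)))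
  have hr : AdjoinRoot.root μ ∈ M := hM.isPrime.mem_of_pow_mem _ hroot
  have h1 : algebraMap R (AdjoinRoot μ) (f.eval 0) ∈ M := by
    have h2 : AdjoinRoot.mk μ f = AdjoinRoot.root μ * AdjoinRoot.mk μ f.divX +
        algebraMap R (AdjoinRoot μ) (f.eval 0) := by
      conv_lhs => rw [← X_mul_divX_add f]
      rw [map_add, map_mul, AdjoinRoot.mk_X, AdjoinRoot.mk_C, coeff_zero_eq_eval_zero]
      rfl
    have h3 := M.sub_mem hle (M.mul_mem_right (AdjoinRoot.mk μ f.divX) hr)
    rwa [h2, add_sub_cancel_left] at h3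
  exact hM.ne_top (M.eq_top_of_isUnit_mem h1 (hf.map _))

theorem exists_inv_mod {μ f : R[X]} (hμ : μ.IsDistinguishedAt (maximalIdeal R))
    (hf : IsUnit (f.eval 0)) : ∃ c : R[X], c.natDegree ≤ μ.natDegree ∧ μ ∣ c * f - 1 := by
  obtain ⟨d, hd⟩ := (wb_isUnit_mk hμ hf).exists_left_inv
  obtain ⟨c, rfl⟩ := AdjoinRoot.mk_surjective d
  refine ⟨c %ₘ μ, natDegree_modByMonic_le c hμ.monic, ?_⟩
  have h1 : AdjoinRoot.mk μ (c %ₘ μ) = AdjoinRoot.mk μ c := by
    rw [AdjoinRoot.mk_eq_mk, modByMonic_eq_sub_mul_div]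
    exact ⟨-(c /ₘ μ), by ring⟩
  rw [← AdjoinRoot.mk_eq_zero, map_sub, map_mul, h1, hd, map_one, sub_self]

variable [IsAdicComplete (maximalIdeal R) R] {χ G : R[X][X]}

/-- reduction of power series modulo a distinguished polynomial -/
theorem wb_exists_hom {μ : R[X]} (hμ : μ.IsDistinguishedAt (maximalIdeal R)) :
    ∃ π : R⟦X⟧ →+* R[X] ⧸ Ideal.span {μ}, ∀ p : R[X], π p = Ideal.Quotient.mk _ p := by
  refine ⟨hμ.algEquivQuotient.symm.toRingEquiv.toRingHom.comp (Ideal.Quotient.mk _), fun p => ?_⟩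
  change hμ.algEquivQuotient.symm (Ideal.Quotient.mk _ (p : R⟦X⟧)) = _
  rw [AlgEquiv.symm_apply_eq]
  rfl

/-- evaluation of power series at an element of the maximal ideal -/
theorem wb_exists_ev {a : R} (ha : a ∈ maximalIdeal R) :
    ∃ ev : R⟦X⟧ →+* R, ∀ p : R[X], ev p = p.eval a := by
  have hμ : (X - C a : R[X]).IsDistinguishedAt (maximalIdeal R) := by
    refine ⟨⟨fun {n} hn => ?_⟩, monic_X_sub_C a⟩
    rw [natDegree_X_sub_C, Nat.lt_one_iff] at hn
    subst hn
    simpa using ha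
  obtain ⟨π, hπ⟩ := wb_exists_hom hμ
  refine ⟨(Ideal.Quotient.lift _ (evalRingHom a) fun p hp => ?_).comp π, fun p => ?_⟩
  · obtain ⟨q, rfl⟩ := Ideal.mem_span_singleton.1 hp
    simp
  · rw [RingHom.comp_apply, hπ, Ideal.Quotient.lift_mk]
    rfl

/-- the branch through a lift of the point -/
theorem wb_branch (hm : χ.Monic) {t y : R} (h0 : ee (t, y) χ ∈ maximalIdeal R)
    (h1 : IsUnit (ee (t, y) (derivative χ))) :
    ∃ η : R⟦X⟧, χ.eval₂ (sh t) η = 0 ∧ PowerSeries.constantCoeff η - y ∈ maximalIdeal R := by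
  rw [ee_eq_eval] at h0 h1
  rw [← derivative_map] at h1
  obtain ⟨y', hy', hyy⟩ := HenselianRing.is_henselian (I := maximalIdeal R)
    (χ.map (evalRingHom t)) (hm.map _) y h0 (h1.map _)
  have h2 : IsUnit ((derivative (χ.map (evalRingHom t))).eval y') :=
    wb_unit_of_sub h1 ((maximalIdeal R).mem_of_dvd (sub_dvd_eval_sub _ _ _) hyy)
  have hc : (PowerSeries.constantCoeff : R⟦X⟧ →+* R).comp (sh t) = evalRingHom t :=
    RingHom.ext fun u => constantCoeff_sh t u
  obtain ⟨η, hη, hη0⟩ := exists_hensel_series (f := χ.map (sh t)) (hm.map _) (y := y')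
    (by rw [eval₂_map, hc, eval₂_eq_eval_map]; exact hy')
    (by rw [derivative_map, eval₂_map, hc, eval₂_eq_eval_map, ← derivative_map]; exact h2)
  exact ⟨η, by rw [eval₂_eq_eval_map]; exact hη, by rw [hη0]; exact hyy⟩

theorem exists_block (hm : χ.Monic) {y : R} (h0 : ee (0, y) χ ∈ maximalIdeal R)
    (h1 : IsUnit (ee (0, y) (derivative χ))) {μ : R[X]}
    (hμ : μ.IsDistinguishedAt (maximalIdeal R)) :
    ∃ η : R[X], η.eval 0 - y ∈ maximalIdeal R ∧ μ ∣ χ.eval η := by
  obtain ⟨η, hη, hη0⟩ := wb_branch hm h0 h1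
  obtain ⟨π, hπ⟩ := wb_exists_hom hμ
  obtain ⟨r, hr⟩ := Ideal.Quotient.mk_surjective
    (π (PowerSeries.mk fun p => PowerSeries.coeff (p + 1) η))
  refine ⟨X * r + C (PowerSeries.constantCoeff η), by simpa using hη0, ?_⟩
  have h2 : π η = Ideal.Quotient.mk _ (X * r + C (PowerSeries.constantCoeff η)) := by
    conv_lhs => rw [PowerSeries.eq_X_mul_shift_add_const η]
    rw [map_add, map_mul, map_add, map_mul, hr, ← hπ X, ← hπ (C _), coe_X, coe_C]
  have h3 : π.comp (sh (0 : R)) = Ideal.Quotient.mk _ := RingHom.ext fun u => by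
    rw [RingHom.comp_apply, sh_eq_taylor, taylor_zero, hπ]
  have h4 := congrArg π hη
  rw [hom_eval₂, h3, h2, eval₂_hom, map_zero, Ideal.Quotient.eq_zero_iff_mem,
    Ideal.mem_span_singleton] at h4
  exact h4

theorem exists_simple (hm : χ.Monic) {Q₀ : R × R} (h0 : ee Q₀ χ ∈ maximalIdeal R)
    (h1 : IsUnit (ee Q₀ (derivative χ))) {u : R[X]}
    (hG : ∀ i j, ((G - C u).coeff i).coeff j ∈ maximalIdeal R) (hu : u.eval Q₀.1 ∈ maximalIdeal R)
    (hu' : IsUnit (u.derivative.eval Q₀.1)) : ∃ Q : R × R, Q.1 - Q₀.1 ∈ maximalIdeal R ∧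
      Q.2 - Q₀.2 ∈ maximalIdeal R ∧ ee Q χ = 0 ∧ ee Q G = 0 := by
  obtain ⟨t, y⟩ := Q₀
  simp only at hu hu' ⊢
  obtain ⟨η, hη, hη0⟩ := wb_branch hm h0 h1
  set g : R⟦X⟧ := G.eval₂ (sh t) η with hg
  have hred : g.map (residue R) = (sh t u).map (residue R) := by
    have h2 : PowerSeries.map (residue R) ((G - C u).eval₂ (sh t) η) = 0 := by
      rw [hom_eval₂, eval₂_eq_sum, Polynomial.sum_def]
      refine Finset.sum_eq_zero fun i _ => ?_
      have h3 : ((G - C u).coeff i).map (residue R) = 0 := by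
        ext j
        rw [coeff_map, coeff_zero, residue_eq_zero_iff]
        exact hG i j
      rw [RingHom.comp_apply, map_sh, h3, map_zero, zero_mul]
    rw [eval₂_sub, eval₂_C, map_sub, sub_eq_zero] at h2
    exact h2
  have hord : (g.map (residue R)).order = (1 : ℕ) := by
    rw [hred, PowerSeries.order_eq_nat]
    constructor
    · rw [PowerSeries.coeff_map, sh_eq_taylor, coeff_coe, taylor_coeff_one, ne_eq,
        residue_eq_zero_iff]
      exact fun h => h hu'
    · intro i hi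
      rw [Nat.lt_one_iff] at hi
      subst hi
      rw [PowerSeries.coeff_map, sh_eq_taylor, coeff_coe, taylor_coeff_zero, residue_eq_zero_iff]
      exact hu
  have hne : g.map (residue R) ≠ 0 := by
    intro h
    rw [h, PowerSeries.order_zero] at hord
    exact absurd hord (by simp)
  obtain ⟨f, h, H⟩ := PowerSeries.exists_isWeierstrassFactorization hne
  have hdeg : f.natDegree = 1 := by
    rw [H.natDegree_eq_toNat_order_map, hord]; rfl
  have ha : -f.coeff 0 ∈ maximalIdeal R :=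
    (maximalIdeal R).neg_mem (H.isDistinguishedAt.mem (by omega))
  have hf : f = X + C (f.coeff 0) := H.isDistinguishedAt.monic.eq_X_add_C hdeg
  obtain ⟨ev, hev⟩ := wb_exists_ev ha
  have hsh : ev.comp (sh t) = evalRingHom (t + -f.coeff 0) := RingHom.ext fun p => by
    rw [RingHom.comp_apply, sh_eq_taylor, hev, taylor_eval, add_comm]
    rfl
  have key : ∀ A : R[X][X], ee (t + -f.coeff 0, ev η) A = ev (A.eval₂ (sh t) η) := fun A => by
    rw [ee_eq_eval, hom_eval₂, hsh, eval₂_eq_eval_map]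
  refine ⟨(t + -f.coeff 0, ev η), by simpa using ha, ?_, by rw [key, hη, map_zero], ?_⟩
  · have h2 : ev η = -f.coeff 0 * ev (PowerSeries.mk fun p => PowerSeries.coeff (p + 1) η) +
        PowerSeries.constantCoeff η := by
      conv_lhs => rw [PowerSeries.eq_X_mul_shift_add_const η]
      rw [map_add, map_mul, ← coe_X, ← coe_C, hev, hev, eval_X, eval_C]
    simp only
    rw [h2, add_sub_assoc]
    exact (maximalIdeal R).add_mem ((maximalIdeal R).mul_mem_right _ ha) hη0
  · rw [key, ← hg, H.eq_mul, map_mul, hev]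
    have : f.eval (-f.coeff 0) = 0 := by
      conv_lhs => enter [2]; rw [hf]
      simp
    rw [this, zero_mul]

end Pool.Agent.ZeroCyc
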