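import Pool.Agent.Lib.MP_796ce4_ag.ZY.MRc
import Pool.Agent.Lib.MP_796ce4_ag.ZY.WB

/-! Moving an etale point of a chart to good points: the curve and the functions. -/

namespace Pool.Agent.ZeroCyc

open Polynomial Module
open scoped Classical IntermediateField PowerSeries

set_option linter.unusedSectionVars false

/-- a polynomial curve with prescribed jet that is not contained in a hypersurface -/
theorem exists_kron {κ : Type} [Field κ] {d : ℕ} {g : MvPolynomial (Fin d) κ} (hg : g ≠ 0)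
    (R : Fin d → κ[X]) {μ : κ[X]} (hμ : μ ≠ 0) : ∃ n : Fin d → ℕ,
      MvPolynomial.eval₂ C (fun i => R i + μ * X ^ n i) g ≠ 0 := by
  by_contra hcon
  push Not at hcon
  apply hg
  apply MvPolynomial.map_injective (C : κ →+* κ[X]) C_injective
  rw [map_zero]
  refine MvPolynomial.funext_set (fun i => Set.range fun n : ℕ => R i + μ * X ^ n) ?_ ?_
  · intro i
    refine Set.infinite_range_of_injective fun a b hab => ?_
    have h1 : (X : κ[X]) ^ a = X ^ b := mul_left_cancel₀ hμ (add_left_cancel hab)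
    simpa using congrArg natDegree h1
  · intro x hx
    choose n hn using fun i => hx i (Set.mem_univ i)
    have hx' : x = fun i => R i + μ * X ^ n i := funext fun i => (hn i).symm
    rw [map_zero, MvPolynomial.eval_map, hx']
    exact hcon n

section aux

variable {K Λ : Type} [Field K] [NormedField Λ] [IsUltrametricDist Λ] [Algebra K Λ]
  {L : IntermediateField K Λ}

theorem ml1a_le (c : OL L) : ‖(OL L).subtype c‖ ≤ 1 := c.2.2

theorem ml1a_rL (c : OL L) : rL L c = rs ((OL L).subtype c) := rL_apply c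

theorem ml1a_add_lt {x y : Λ} (hx : ‖x‖ < 1) (hy : ‖y‖ < 1) : ‖x + y‖ < 1 :=
  (IsUltrametricDist.norm_add_le_max _ _).trans_lt (max_lt hx hy)

theorem ml1a_sub_lt {x y : Λ} (hx : ‖x‖ < 1) (hy : ‖y‖ < 1) : ‖x - y‖ < 1 := by
  rw [sub_eq_add_neg]
  exact ml1a_add_lt hx (by rwa [norm_neg])

theorem ml1a_add_le {x y : Λ} (hx : ‖x‖ ≤ 1) (hy : ‖y‖ ≤ 1) : ‖x + y‖ ≤ 1 :=
  (IsUltrametricDist.norm_add_le_max _ _).trans (max_le hx hy)

theorem ml1a_sub_le {x y : Λ} (hx : ‖x‖ ≤ 1) (hy : ‖y‖ ≤ 1) : ‖x - y‖ ≤ 1 := by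
  rw [sub_eq_add_neg]
  exact ml1a_add_le hx (by rwa [norm_neg])

theorem ml1a_trans {x y z : Λ} (h : ‖x - y‖ < 1) (h' : ‖y - z‖ < 1) : ‖x - z‖ < 1 := by
  have := ml1a_add_lt h h'
  rwa [sub_add_sub_cancel] at this

theorem ml1a_one {x y : Λ} (hx : ‖x‖ = 1) (h : ‖y - x‖ < 1) : ‖y‖ = 1 := by
  have e : y = x + (y - x) := by ring
  rw [e, IsUltrametricDist.norm_add_eq_max_of_norm_ne_norm (by rw [hx]; exact h.ne'), hx]
  exact max_eq_left h.le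

theorem ml1a_le_of {x y : Λ} (hx : ‖x‖ ≤ 1) (h : ‖y - x‖ < 1) : ‖y‖ ≤ 1 := by
  have := ml1a_add_le hx h.le
  rwa [add_sub_cancel] at this

theorem ml1a_mul_lt {x y : Λ} (hx : ‖x‖ < 1) (hy : ‖y‖ ≤ 1) : ‖x * y‖ < 1 := by
  rw [norm_mul]
  exact mul_lt_one_of_nonneg_of_lt_one_left (norm_nonneg _) hx hy

theorem ml1a_ev_le {t : Λ} (ht : ‖t‖ ≤ 1) (u : (OL L)[X]) : ‖u.eval₂ (OL L).subtype t‖ ≤ 1 :=
  norm_eval₂_le ml1a_le ht u

theorem ml1a_ev_congr {t t' : Λ} (ht : ‖t‖ < 1) (ht' : ‖t'‖ < 1) (u : (OL L)[X]) :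
    ‖u.eval₂ (OL L).subtype t - u.eval₂ (OL L).subtype t'‖ < 1 := by
  rw [← rs_eq_iff (ml1a_ev_le ht.le u) (ml1a_ev_le ht'.le u), rs_eval₂ ml1a_le ml1a_rL ht.le,
    rs_eval₂ ml1a_le ml1a_rL ht'.le, (rs_eq_zero ht.le).2 ht, (rs_eq_zero ht'.le).2 ht']

theorem ml1a_e2_le {t y : Λ} (ht : ‖t‖ ≤ 1) (hy : ‖y‖ ≤ 1) (a : (OL L)[X][X]) :
    ‖e2 (OL L).subtype t y a‖ ≤ 1 := (rs_e2 ml1a_le ml1a_rL ht hy a).1

theorem ml1a_e2_congr {t t' y y' : Λ} (ht : ‖t‖ < 1) (ht' : ‖t'‖ < 1) (hy : ‖y‖ ≤ 1)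
    (hy' : ‖y' - y‖ < 1) (a : (OL L)[X][X]) :
    ‖e2 (OL L).subtype t' y' a - e2 (OL L).subtype t y a‖ < 1 := by
  have h' := ml1a_le_of hy hy'
  rw [← rs_eq_iff (ml1a_e2_le ht'.le h' a) (ml1a_e2_le ht.le hy a),
    (rs_e2 ml1a_le ml1a_rL ht.le hy a).2, (rs_e2 ml1a_le ml1a_rL ht'.le h' a).2,
    (rs_eq_zero ht.le).2 ht, (rs_eq_zero ht'.le).2 ht', (rs_eq_iff h' hy).2 hy']

/-- the part of `ρ` without zeros in the open disc -/
theorem ml1a_rho {ρ : (OL L)[X]} (h : ρ.map (rL L) ≠ 0) : ∃ ρ₀ : (OL L)[X],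
    (∀ t : Λ, ‖t‖ < 1 → ‖ρ₀.eval₂ (OL L).subtype t‖ = 1) ∧
      ∀ t : Λ, ‖t‖ = 1 → ‖ρ₀.eval₂ (OL L).subtype t‖ = 1 → ‖ρ.eval₂ (OL L).subtype t‖ = 1 := by
  obtain ⟨q, hq, hq'⟩ := exists_eq_pow_rootMultiplicity_mul_and_not_dvd _ h 0
  generalize rootMultiplicity 0 (ρ.map (rL L)) = k at hq
  rw [C_0, sub_zero] at hq hq'
  have h0 : (ρ /ₘ X ^ k).map (rL L) = q := by
    rw [map_divByMonic _ (monic_X_pow k), hq, Polynomial.map_pow, map_X,
      mul_divByMonic_cancel_left _ (monic_X_pow k)]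
  refine ⟨ρ /ₘ X ^ k, fun t ht => ?_, fun t ht h1 => ?_⟩
  · rw [← rs_ne_zero, rs_eval₂ ml1a_le ml1a_rL ht.le, (rs_eq_zero ht.le).2 ht, ← eval_map, h0,
      ← coeff_zero_eq_eval_zero]
    exact fun e => hq' (X_dvd_iff.2 e)
  · rw [← rs_ne_zero, rs_eval₂ ml1a_le ml1a_rL ht.le, ← eval_map, h0] at h1
    rw [← rs_ne_zero, rs_eval₂ ml1a_le ml1a_rL ht.le, ← eval_map, hq, eval_mul, eval_pow, eval_X]
    exact mul_ne_zero (pow_ne_zero _ (rs_ne_zero.2 ht)) h1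

/-- the function with a block of zeros -/
noncomputable def ml1a_G {R : Type} [CommRing R] (μ ρ η : R[X]) (j : ℕ) : R[X][X] :=
  C (μ * X ^ j) + C ρ * (C μ + X - C η)

theorem ml1a_G_eval (μ ρ η : (OL L)[X]) (j : ℕ) (Q : Λ × Λ) :
    ee Q (mp (OL L).subtype (ml1a_G μ ρ η j)) = μ.eval₂ (OL L).subtype Q.1 * Q.1 ^ j +
      ρ.eval₂ (OL L).subtype Q.1 *
        (μ.eval₂ (OL L).subtype Q.1 + Q.2 - η.eval₂ (OL L).subtype Q.1) := by
  rw [ee_mp, ml1a_G]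
  simp only [map_add, map_mul, map_sub, map_pow, e2_C, e2_X, eval₂_X]

theorem ml1a_G_lead {R : Type} [CommRing R] [Nontrivial R] {μ : R[X]} (hμ : μ.Monic)
    (ρ η : R[X]) (b : ℕ) : ∃ j, 0 < j ∧ ρ.natDegree < μ.natDegree + j ∧
      Lead b (μ.natDegree + j) (ml1a_G μ ρ η j) := by
  obtain ⟨M, hM⟩ := exists_WL b 0 (C ρ * (C μ + X - C η))
  refine ⟨M + ρ.natDegree + 1, by omega, by omega, ?_⟩
  have h1 := lead_C (b := b) (hμ.mul (monic_X_pow (M + ρ.natDegree + 1)))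
  rw [hμ.natDegree_mul (monic_X_pow _), natDegree_X_pow] at h1
  exact h1.add (hM.mono (by omega))

/-- the order of the function in the residue disc -/
theorem ml1a_oq {χ : (OL L)[X][X]} (hm : χ.Monic) {μ ρ η : (OL L)[X]} (hμ : μ.Monic)
    (hη : μ * μ ∣ χ.eval η) {j : ℕ} (hj : 0 < j) {Q : Λ × Λ} (h1 : ‖Q.1‖ < 1) (h2 : ‖Q.2‖ ≤ 1)
    (hQ : Et (mp (OL L).subtype χ) Q) (hd : ‖ee Q (derivative (mp (OL L).subtype χ))‖ = 1)
    (h3 : ‖Q.2 - η.eval₂ (OL L).subtype Q.1‖ < 1) (h4 : ‖μ.eval₂ (OL L).subtype Q.1‖ < 1)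
    (h5 : ‖ρ.eval₂ (OL L).subtype Q.1‖ = 1)
    (hG : jq (mp (OL L).subtype χ) Q (mp (OL L).subtype (ml1a_G μ ρ η j)) ≠ 0) :
    oq (mp (OL L).subtype χ) Q (mp (OL L).subtype (ml1a_G μ ρ η j)) =
      (μ.map (OL L).subtype).rootMultiplicity Q.1 := by
  obtain ⟨ν, hν⟩ := hη
  obtain ⟨E, hE⟩ : ∃ E, χ = (X - C η) * E + C (μ * μ * ν) :=
    ⟨χ /ₘ (X - C η), by rw [← hν, ← modByMonic_X_sub_C_eq_C_eval, add_comm, modByMonic_add_div]⟩
  have hm' : (mp (OL L).subtype χ).Monic := hm.map _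
  have hE1 : ‖e2 (OL L).subtype Q.1 Q.2 E‖ = 1 := by
    refine ml1a_one hd ?_
    have e : derivative χ = E + (X - C η) * derivative E := by
      rw [hE]
      simp only [derivative_add, derivative_mul, derivative_sub, derivative_X, derivative_C]
      ring
    rw [← mp_derivative, ee_mp, e, map_add, sub_add_cancel_left, norm_neg, map_mul, map_sub,
      e2_X, e2_C]
    exact ml1a_mul_lt h3 (ml1a_e2_le h1.le h2 _)
  set U : (OL L)[X][X] := C (X ^ j + ρ) * E - C (μ * (ρ * ν)) with hU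
  have hU1 : ‖e2 (OL L).subtype Q.1 Q.2 U‖ = 1 := by
    have a1 : ‖(X ^ j + ρ).eval₂ (OL L).subtype Q.1‖ = 1 := by
      refine ml1a_one h5 ?_
      rw [eval₂_add, add_sub_cancel_right, eval₂_X_pow, norm_pow]
      exact pow_lt_one₀ (norm_nonneg _) h1 hj.ne'
    refine ml1a_one (x := e2 (OL L).subtype Q.1 Q.2 (C (X ^ j + ρ) * E)) ?_ ?_
    · rw [map_mul, e2_C, norm_mul, a1, hE1, one_mul]
    · rw [hU, map_sub, sub_sub_cancel_left, norm_neg, e2_C, eval₂_mul]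
      exact ml1a_mul_lt h4 (ml1a_ev_le h1.le _)
  have key : ml1a_G μ ρ η j * E - C μ * U = χ * C ρ := by
    rw [hU, hE, ml1a_G]
    simp only [map_mul, map_add]
    ring
  have hj' : jq (mp (OL L).subtype χ) Q
      (mp (OL L).subtype (ml1a_G μ ρ η j) * mp (OL L).subtype E) =
      jq (mp (OL L).subtype χ) Q (C (μ.map (OL L).subtype) * mp (OL L).subtype U) := by
    refine jq_congr hm' hQ ⟨mp (OL L).subtype (C ρ), ?_⟩
    rw [← mp_C, ← map_mul, ← map_mul, ← map_sub, key, map_mul]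
  have e1 := oq_eq_zero (G := mp (OL L).subtype E) hm' hQ (by
    rw [ee_mp, ← norm_ne_zero_iff, hE1]; exact one_ne_zero)
  have e2 := oq_eq_zero (G := mp (OL L).subtype U) hm' hQ (by
    rw [ee_mp, ← norm_ne_zero_iff, hU1]; exact one_ne_zero)
  have e3 := oq_C (mp (OL L).subtype χ) Q (hμ.map (OL L).subtype).ne_zero
  have e4 := oq_mul hG e1.1
  have e5 := oq_mul e3.1 e2.1
  rw [e1.2, add_zero] at e4
  rw [e2.2, add_zero, e3.2] at e5
  rw [← e4, ← e5, oq, oq, hj']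

end aux

variable {p : ℕ} {K Λ : Type} [Field K] [CharZero K] [NormedField Λ] [IsUltrametricDist Λ]
  [IsAlgClosed Λ] [Algebra K Λ] [IsGalois K Λ] [Loc p K Λ]

include p

variable {N : ℕ} {J : Ideal (MvPolynomial (Fin (N + 1)) K)} {B L : IntermediateField K Λ}

/-- the approximation of the branch -/
theorem ml1a_eta [FiniteDimensional K L] {χ : (OL L)[X][X]} (hm : χ.Monic) {μ : (OL L)[X]}
    (hμ : Dist μ) {h₀ ϖ h : Λ} (hh : h₀ ∈ L) (hϖ : ‖ϖ‖ < 1) (h2 : ‖h‖ ≤ 1) (h1 : ‖h - h₀‖ < 1)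
    (h3 : e2 (OL L).subtype ϖ h χ = 0) (h4 : ‖e2 (OL L).subtype ϖ h (derivative χ)‖ = 1) :
    ∃ η : (OL L)[X], μ * μ ∣ χ.eval η ∧
      ∀ t : Λ, ‖t‖ < 1 → ‖η.eval₂ (OL L).subtype t - h‖ < 1 := by
  obtain ⟨_, _, hmax⟩ := OL_local (p := p) L
  have h1' : ‖h₀ - h‖ < 1 := by rwa [norm_sub_rev]
  have z : ‖(0 : Λ)‖ < 1 := by simp
  let y : OL L := ⟨h₀, hh, ml1a_le_of h2 h1'⟩
  have ev : ∀ a : (OL L)[X][X], ((ee (0, y) a : OL L) : Λ) = e2 (OL L).subtype 0 h₀ a := by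
    intro a
    have := map_ee (OL L).subtype (0, y) a
    rw [ee_mp] at this
    exact this
  have hd := (hμ.mul hμ).isDistinguishedAt (RingHom.id (OL L)) fun x hx => (hmax x).2 hx
  rw [Polynomial.map_id] at hd
  obtain ⟨η, e1, e2⟩ := exists_block (y := y) hm ((hmax _).2 (by
      have := ml1a_e2_congr hϖ z h2 h1' χ
      rwa [h3, sub_zero, ← ev] at this))
    (OL_isUnit.2 (by
      rw [ev]
      exact ml1a_one h4 (ml1a_e2_congr hϖ z h2 h1' _))) hd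
  refine ⟨η, e2, fun t ht => ml1a_trans (ml1a_ev_congr ht z η) (ml1a_trans ?_ h1')⟩
  have e3 := (hmax _).1 e1
  have e4 : η.eval₂ (OL L).subtype 0 = ((η.eval 0 : OL L) : Λ) := by
    have := eval₂_at_apply (p := η) (OL L).subtype 0
    rw [map_zero] at this
    exact this
  rw [e4]
  exact e3

namespace Chart

variable {𝒞 : Chart J B}

/-- the curve -/
theorem ml1a_lam (hB : B ≤ L) (R : Fin 𝒞.d → (OL L)[X]) {μ : (OL L)[X]} (hμ : μ.Monic) :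
    ∃ n : Fin 𝒞.d → ℕ, (𝒞.rho (inc hB) fun i => R i + μ * X ^ n i).map (rL L) ≠ 0 := by
  obtain ⟨n, hn⟩ := exists_kron 𝒞.ne (fun i => (R i).map (rL L)) (hμ.map (rL L)).ne_zero
  refine ⟨n, ?_⟩
  rw [map_rho, rL_inc, rho]
  rw [MvPolynomial.eval₂_map] at hn
  simpa only [Polynomial.map_add, Polynomial.map_mul, Polynomial.map_pow, map_X] using hn

/-- The functions: `G'` has good zeros, `G` has good zeros and one block of simple zeros. -/
theorem exists_ml1 [FiniteDimensional K L] (hB : B ≤ L) {R : Fin 𝒞.d → (OL L)[X]} {h₀ : Λ}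
    (hh : h₀ ∈ L) {μ : (OL L)[X]} (hμ : Dist μ) (hs : (μ.map (OL L).subtype).Separable)
    {ϖ h : Λ} (hϖ : μ.eval₂ (OL L).subtype ϖ = 0)
    (hg : 𝒞.Ep (fun i => (R i).eval₂ (OL L).subtype ϖ) h) (h1 : ‖h - h₀‖ < 1) :
    ∃ (lam : Fin 𝒞.d → Λ[X]) (e m : ℕ) (G G' : Λ[X][X]) (D : Λ × Λ →₀ ℤ),
      (∀ i, Over L (lam i)) ∧ (∀ i, (lam i).natDegree ≤ e) ∧
      (∀ i t, μ.eval₂ (OL L).subtype t = 0 → (lam i).eval t = (R i).eval₂ (OL L).subtype t) ∧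
      Lead (𝒞.b * e) m G ∧ Lead (𝒞.b * e) m G' ∧ Ov2 L G ∧ Ov2 L G' ∧
      (∀ Q, On (𝒞.cL lam) Q → ee Q G = 0 → 𝒞.Ep (fun i => (lam i).eval Q.1) Q.2) ∧
      (∀ Q, On (𝒞.cL lam) Q → ee Q G' = 0 → 𝒞.Gd (fun i => (lam i).eval Q.1) Q.2) ∧
      (∀ Q, D Q ≠ 0 → 𝒞.Gd (fun i => (lam i).eval Q.1) Q.2) ∧
      dv (𝒞.cL lam) G = D + ∑ t ∈ (μ.map (OL L).subtype).roots.toFinset,
        Finsupp.single (t, 𝒞.hen h₀ fun i => (lam i).eval t) 1 := by
  obtain ⟨n, hn⟩ := ml1a_lam hB R hμ.monic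
  obtain ⟨ρ, r1, r2⟩ := ml1a_rho hn
  obtain ⟨l, hl⟩ : ∃ l : Fin 𝒞.d → (OL L)[X], l = fun i => R i + μ * X ^ n i := ⟨_, rfl⟩
  rw [← hl] at r2
  obtain ⟨lam, hlam⟩ : ∃ lam : Fin 𝒞.d → Λ[X], lam = fun i => (l i).map (OL L).subtype :=
    ⟨_, rfl⟩
  have lev : ∀ i t, (lam i).eval t = (l i).eval₂ (OL L).subtype t := fun i t => by
    rw [hlam, eval_map]
  have lroot : ∀ i t, μ.eval₂ (OL L).subtype t = 0 →
      (lam i).eval t = (R i).eval₂ (OL L).subtype t := fun i t ht => by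
    rw [lev, hl]
    simp only [eval₂_add, eval₂_mul, ht, zero_mul, add_zero]
  have hϖ1 := hμ.root_lt hϖ
  have lnear : ∀ t : Λ, ‖t‖ < 1 → ∀ i, ‖(lam i).eval t - (R i).eval₂ (OL L).subtype ϖ‖ < 1 :=
    fun t ht i => by
      rw [← lroot i ϖ hϖ, lev, lev]
      exact ml1a_ev_congr ht hϖ1 _
  have hχ : mp (OL L).subtype (cv (inc hB) l 𝒞.χ) = 𝒞.cL lam := by
    rw [mp_cv, subtype_inc, hlam]
  have hm : (cv (inc hB) l 𝒞.χ).Monic := 𝒞.monic.map _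
  have lϖ : (fun i => (l i).eval₂ (OL L).subtype ϖ) = fun i => (R i).eval₂ (OL L).subtype ϖ :=
    funext fun i => by rw [← lev, lroot i ϖ hϖ]
  obtain ⟨η, hη, hη'⟩ := ml1a_eta (p := p) hm hμ hh hϖ1 hg.h_le h1
    (by rw [e2_cv, subtype_inc, lϖ]; exact hg.on)
    (by rw [← cv_derivative, e2_cv, subtype_inc, lϖ]; exact hg.der)
  obtain ⟨e, he⟩ : ∃ e, ∀ i, (lam i).natDegree ≤ e :=
    ⟨Finset.univ.sup fun i => (lam i).natDegree, fun i =>
      Finset.le_sup (f := fun i => (lam i).natDegree) (Finset.mem_univ i)⟩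
  obtain ⟨j, hj, hρ, hG⟩ := ml1a_G_lead hμ.monic ρ η (𝒞.b * e)
  have hG1 := hG.map (OL L).subtype
  have hG2 : Lead (𝒞.b * e) (μ.natDegree + j)
      (mp (OL L).subtype (C (X ^ (μ.natDegree + j) + ρ))) := by
    have a1 : ρ.degree < (X ^ (μ.natDegree + j) : (OL L)[X]).degree := by
      rw [degree_X_pow]
      exact degree_le_natDegree.trans_lt (by exact_mod_cast hρ)
    have a2 := lead_C (b := 𝒞.b * e) ((monic_X_pow (μ.natDegree + j)).add_of_left a1)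
    rw [natDegree_add_eq_left_of_degree_lt a1, natDegree_X_pow] at a2
    exact a2.map _
  have li : ∀ i, Intg (lam i) := fun i => by rw [hlam]; exact intg_map _
  have hw : Wt (𝒞.b * e) 𝒞.δ (𝒞.cL lam) := 𝒞.wt_crv (OL B).subtype he
  have gd : ∀ Q : Λ × Λ, On (𝒞.cL lam) Q → ‖Q.1‖ = 1 → ‖Q.2‖ ≤ 1 →
      ‖ρ.eval₂ (OL L).subtype Q.1‖ = 1 → 𝒞.Gd (fun i => (lam i).eval Q.1) Q.2 := by
    intro Q q0 q1 q2 q3
    refine ⟨fun i => by rw [lev]; exact ml1a_ev_le q1.le _, q2, on_cL.1 q0, ?_⟩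
    have := r2 _ q1 q3
    rw [eval₂_rho, subtype_inc] at this
    simpa only [lev] using this
  have mu : ∀ t : Λ, ‖t‖ < 1 → ‖μ.eval₂ (OL L).subtype t‖ < 1 := fun t ht => by
    have := ml1a_ev_congr ht hϖ1 μ
    rwa [hϖ, sub_zero] at this
  have zG : ∀ Q : Λ × Λ, On (𝒞.cL lam) Q → ee Q (mp (OL L).subtype (ml1a_G μ ρ η j)) = 0 →
      (‖Q.1‖ = 1 ∧ 𝒞.Gd (fun i => (lam i).eval Q.1) Q.2) ∨ (‖Q.1‖ < 1 ∧ ‖Q.2 - h‖ < 1) := by
    intro Q q0 q1
    obtain ⟨q2, q3⟩ := zero_le li he hG1 (in2_mp ml1a_le _) q0 q1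
    rw [ml1a_G_eval, add_eq_zero_iff_eq_neg] at q1
    have q4 := congrArg norm q1
    rw [norm_neg, norm_mul, norm_mul, norm_pow] at q4
    rcases q2.eq_or_lt with q5 | q5
    · refine Or.inl ⟨q5, gd Q q0 q5 q3 ?_⟩
      rw [hμ.norm_eval q5, q5, one_pow, one_mul] at q4
      refine (ml1a_ev_le q2 _).eq_or_lt.resolve_right fun q6 => ?_
      have q7 := ml1a_mul_lt q6 (ml1a_sub_le (ml1a_add_le (ml1a_ev_le q2 μ) q3) (ml1a_ev_le q2 η))
      rw [norm_mul, ← q4] at q7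
      exact lt_irrefl _ q7
    · refine Or.inr ⟨q5, ml1a_trans ?_ (hη' _ q5)⟩
      rw [r1 _ q5, one_mul] at q4
      have q6 : ‖μ.eval₂ (OL L).subtype Q.1 + Q.2 - η.eval₂ (OL L).subtype Q.1‖ < 1 := by
        rw [← q4]
        exact mul_lt_one_of_nonneg_of_lt_one_left (norm_nonneg _) (mu _ q5)
          (pow_le_one₀ (norm_nonneg _) q2)
      have q7 := ml1a_sub_lt q6 (mu _ q5)
      rwa [add_sub_assoc, add_sub_cancel_left] at q7
  have ord : ∀ Q : Λ × Λ, On (𝒞.cL lam) Q → ‖Q.1‖ < 1 → ‖Q.2 - h‖ < 1 →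
      dv (𝒞.cL lam) (mp (OL L).subtype (ml1a_G μ ρ η j)) Q =
        (μ.map (OL L).subtype).rootMultiplicity Q.1 := by
    intro Q q0 q1 q2
    have q3 := hg.congr (lnear _ q1) q2 (on_cL.1 q0)
    have q4 := q3.et
    rw [hG1.dv_apply hw, if_pos q4]
    have q5 := hG1.jq_ne hw q4
    have q6 : ‖ee Q (derivative (𝒞.cL lam))‖ = 1 := by
      rw [← cv_derivative, ee_cv]
      exact q3.der
    rw [← hχ] at q4 q5 q6 ⊢
    congr 1
    exact ml1a_oq hm hμ.monic hη hj q1 q3.h_le q4 q6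
      (ml1a_trans q2 (by rw [norm_sub_rev]; exact hη' _ q1)) (mu _ q1) (r1 _ q1) q5
  have hen0 : 𝒞.hen h₀ = 𝒞.hen h := hen_congr (by rwa [norm_sub_rev])
  have m0 : μ.map (OL L).subtype ≠ 0 := (hμ.monic.map _).ne_zero
  have rt : ∀ t, t ∈ (μ.map (OL L).subtype).roots.toFinset ↔ μ.eval₂ (OL L).subtype t = 0 :=
    fun t => by rw [Multiset.mem_toFinset, mem_roots m0, IsRoot.def, eval_map]
  refine ⟨lam, e, μ.natDegree + j, mp (OL L).subtype (ml1a_G μ ρ η j),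
    mp (OL L).subtype (C (X ^ (μ.natDegree + j) + ρ)),
    (dv (𝒞.cL lam) (mp (OL L).subtype (ml1a_G μ ρ η j))).filter fun Q => ‖Q.1‖ = 1,
    fun i => by rw [hlam]; exact over_map _, he, lroot, hG1, hG2, ov2_mp (fun x => x.2.1) _,
    ov2_mp (fun x => x.2.1) _, fun Q q0 q1 => ?_, fun Q q0 q1 => ?_, fun Q q0 => ?_, ?_⟩
  · rcases zG Q q0 q1 with q | q
    · exact q.2.ep
    · exact hg.congr (lnear _ q.1) q.2 (on_cL.1 q0)
  · obtain ⟨q2, q3⟩ := zero_le li he hG2 (in2_mp ml1a_le _) q0 q1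
    rw [ee_mp, e2_C, eval₂_add, eval₂_X_pow, add_eq_zero_iff_eq_neg] at q1
    have q4 := congrArg norm q1
    rw [norm_neg, norm_pow] at q4
    rcases q2.eq_or_lt with q5 | q5
    · exact gd Q q0 q5 q3 (by rw [← q4, q5, one_pow])
    · rw [r1 _ q5] at q4
      exact absurd q4 (pow_lt_one₀ (norm_nonneg _) q5 (by omega)).ne
  · rw [Finsupp.filter_apply] at q0
    split_ifs at q0 with q1
    · obtain ⟨q2, q3⟩ := (hG1.dv_ne_zero hw).1 q0
      exact ((zG Q q2.1 q3).resolve_right fun q => q.1.ne q1).2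
    · exact absurd rfl q0
  · ext Q
    rw [Finsupp.add_apply, Finsupp.filter_apply, Finsupp.finsetSum_apply]
    by_cases q0 : μ.eval₂ (OL L).subtype Q.1 = 0 ∧ Q.2 = 𝒞.hen h₀ fun i => (lam i).eval Q.1
    · have q1 := hμ.root_lt q0.1
      have q2 := hg.hen_spec (lnear _ q1)
      rw [← hen0, ← q0.2] at q2
      rw [if_neg q1.ne, zero_add, ord Q (on_cL.2 q2.1) q1 q2.2,
        Finset.sum_eq_single_of_mem Q.1 ((rt _).2 q0.1), ← q0.2, Finsupp.single_eq_same]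
      · have q3 := rootMultiplicity_le_one_of_separable hs Q.1
        have q4 := (rootMultiplicity_pos m0 (x := Q.1)).2 (by rw [IsRoot.def, eval_map]; exact q0.1)
        omega
      · intro t _ ht
        exact Finsupp.single_eq_of_ne fun e => ht (congrArg Prod.fst e).symm
    · rw [Finset.sum_eq_zero, add_zero]
      · split_ifs with q1
        · rfl
        · by_contra q2
          obtain ⟨q3, q4⟩ := (hG1.dv_ne_zero hw).1 q2
          obtain ⟨q5, q6⟩ := (zG Q q3.1 q4).resolve_left fun q => q1 q.1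
          rw [ord Q q3.1 q5 q6, Int.natCast_eq_zero] at q2
          have q7 := (rootMultiplicity_pos m0).1 (Nat.pos_of_ne_zero q2)
          rw [IsRoot.def, eval_map] at q7
          exact q0 ⟨q7, by rw [hen0, hg.hen_eq (lnear _ q5) q6 (on_cL.1 q3.1)]⟩
      · intro t ht
        refine Finsupp.single_eq_of_ne fun e => q0 ?_
        rw [e]
        exact ⟨(rt _).1 ht, rfl⟩

end Chart

end Pool.Agent.ZeroCyc
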