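import Pool.Agent.Lib.MP_796ce4_ag.ZY.LR

/-! Unramified classes of degree zero are torsion modulo the congruent differences. -/

namespace Pool.Agent.ZeroCyc

open Polynomial Module
open scoped Classical IntermediateField PowerSeries

set_option linter.unusedSectionVars false

variable {p : ℕ} {K Λ : Type} [Field K] [CharZero K] [NormedField Λ] [IsUltrametricDist Λ]
  [IsAlgClosed Λ] [Algebra K Λ] [IsGalois K Λ] [Loc p K Λ] [Fact p.Prime] [CharP (kk Λ) p]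

variable {N : ℕ} {J : Ideal (MvPolynomial (Fin (N + 1)) K)} {B : IntermediateField K Λ}

theorem ftor_ne {κ σ : Type} [Field κ] [Infinite κ] {Θ : MvPolynomial σ κ} (h : Θ ≠ 0) :
    ∃ x, MvPolynomial.eval x Θ ≠ 0 := by
  by_contra h0
  push Not at h0
  exact h (MvPolynomial.funext fun x => by rw [h0, map_zero])

theorem ftor_shift {κ σ : Type} [Field κ] [Infinite κ] {Θ : MvPolynomial σ κ} (h : Θ ≠ 0)
    (a : σ → κ) : ∃ Φ : MvPolynomial σ κ, Φ ≠ 0 ∧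
      ∀ x, MvPolynomial.eval x Φ = MvPolynomial.eval (fun i => x i - a i) Θ := by
  have e : ∀ x : σ → κ, MvPolynomial.eval x
      (MvPolynomial.bind₁ (fun i => MvPolynomial.X i - MvPolynomial.C (a i)) Θ) =
      MvPolynomial.eval (fun i => x i - a i) Θ := by
    intro x
    have := MvPolynomial.aeval_bind₁ x (fun i => MvPolynomial.X i - MvPolynomial.C (a i)) Θ
    simpa [MvPolynomial.aeval_eq_eval] using this
  refine ⟨_, fun h0 => ?_, e⟩
  obtain ⟨x, hx⟩ := ftor_ne h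
  have := e fun i => x i + a i
  rw [h0, map_zero] at this
  exact hx (by simpa using this.symm)

/-- elements that are multiples of `ω` up to torsion modulo `H` -/
def ftor_grp {V : Type} [AddCommGroup V] (H : AddSubgroup V) (ω : V) : AddSubgroup V where
  carrier := {x | ∃ (z : ℤ) (m : ℕ), 0 < m ∧ m • (x - z • ω) ∈ H}
  zero_mem' := ⟨0, 1, one_pos, by simp⟩
  add_mem' := by
    rintro x y ⟨z, m, hm, h⟩ ⟨z', m', hm', h'⟩
    refine ⟨z + z', m * m', Nat.mul_pos hm hm', ?_⟩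
    refine (congrArg (· ∈ H) ?_).mp (add_mem (nsmul_mem h m') (nsmul_mem h' m))
    module
  neg_mem' := by
    rintro x ⟨z, m, hm, h⟩
    refine ⟨-z, m, hm, ?_⟩
    refine (congrArg (· ∈ H) ?_).mp (neg_mem h)
    module

namespace Chart

variable {𝒞 : Chart J B} {T : Tower p B} {a a' : Fin 𝒞.d → kk Λ} {c c' : kk Λ}

/-- two points on an irreducible line -/
theorem tor_line (hk : 𝒞.Gk a c) (hk' : 𝒞.Gk a' c')
    (hi : Irreducible (cv (rL B) (fun i => C (a i) + C (a' i - a i) * X) 𝒞.χ)) {n : ℕ} (hn : 0 < n)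
    (ha : ∀ i, fr (kk Λ) p (T.r * n) (a i) = a i) (hc : fr (kk Λ) p (T.r * n) c = c)
    (ha' : ∀ i, fr (kk Λ) p (T.r * n) (a' i) = a' i) (hc' : fr (kk Λ) p (T.r * n) c' = c') :
    ∃ m : ℕ, 0 < m ∧ m • clL J (T.U n)
      (Finsupp.single (𝒞.lf p a c) 1 - Finsupp.single (𝒞.lf p a' c') 1) ∈ 𝒞.Vu T := by
  set lam : Fin 𝒞.d → (kk Λ)[X] := fun i => C (a i) + C (a' i - a i) * X with hlam
  have he : ∀ i, (lam i).natDegree ≤ 1 := fun i => by
    simp only [lam]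
    compute_degree
  have hl : ∀ i, (lam i).map (fr (kk Λ) p (T.r * n)) = lam i := fun i => by
    simp only [lam, Polynomial.map_add, Polynomial.map_mul, Polynomial.map_sub, map_C, map_X,
      map_sub, ha, ha']
  have h0 : (fun i => (lam i).eval 0) = a := by
    funext i
    simp [lam]
  have h1 : (fun i => (lam i).eval 1) = a' := by
    funext i
    simp [lam]
  have hχ : (𝒞.crv (rL B) lam 1 he).χ = cv (rL B) lam 𝒞.χ * 1 := (mul_one _).symm
  have hm : (cv (rL B) lam 𝒞.χ).Monic := (𝒞.wt_crv (rL B) he).monic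
  obtain ⟨hI, hf⟩ := crv_inv T n he hl
  have g0 : ((𝒞.crv (rL B) lam 1 he).factor _ 1 hχ hm monic_one).Gp (0, c) :=
    (crv_gp (he := he) (Q := (0, c))).2 (by rw [h0]; exact hk)
  have g1 : ((𝒞.crv (rL B) lam 1 he).factor _ 1 hχ hm monic_one).Gp (1, c') :=
    (crv_gp (he := he) (Q := (1, c'))).2 (by rw [h1]; exact hk')
  have hs : ∀ Q, ((𝒞.crv (rL B) lam 1 he).factor _ 1 hχ hm monic_one).Gp Q →
      Finsupp.single Q (1 : ℤ) ∈ ((𝒞.crv (rL B) lam 1 he).factor _ 1 hχ hm monic_one).Dv := by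
    intro Q hQ Q' hQ'
    rw [Finsupp.single_apply_ne_zero] at hQ'
    rw [hQ'.1]
    exact hQ
  have hF : psh (pm (fr (kk Λ) p (T.r * n)))
      (Finsupp.single ((0 : kk Λ), c) (1 : ℤ) - Finsupp.single (1, c') 1) =
      Finsupp.single (0, c) 1 - Finsupp.single (1, c') 1 := by
    rw [map_sub, psh_single, psh_single]
    simp only [pm, Prod.map, map_zero, map_one, hc, hc']
  have hρ : ((𝒞.crv (rL B) lam 1 he).factor _ 1 hχ hm monic_one).ρ ≠ 0 := fun h =>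
    g0.2 (by rw [h, eval_zero])
  obtain ⟨m, hm0, hP⟩ := Cv.ff_torsion hρ hi (algP_kk K) (Nat.mul_pos T.r_pos hn) ⟨hI.χ, hI.ρ⟩
    (Cv.mem_DvF.2 ⟨sub_mem (hs _ g0) (hs _ g1), hF⟩) (by simp)
  refine ⟨m, hm0, ?_⟩
  have := LR hn he hl hχ hm monic_one (hf _) (map_one _) hP (by rw [map_nsmul, hF])
  rw [map_nsmul, map_nsmul, map_sub, Lf_single, Lf_single, h0, h1] at this
  exact this

theorem tor_pair (hI : 𝒞.Irr) (hk : 𝒞.Gk a c) (hk' : 𝒞.Gk a' c') : ∃ m : ℕ, 0 < m ∧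
    m • clL J (T.U 1) (Finsupp.single (𝒞.lf p a c) 1 - Finsupp.single (𝒞.lf p a' c') 1) ∈
      𝒞.Vu T := by
  obtain ⟨Θ, hΘ, hb⟩ := hk.bertini hI
  obtain ⟨Θ', hΘ', hb'⟩ := hk'.bertini hI
  obtain ⟨Φ, hΦ, e⟩ := ftor_shift hΘ a
  obtain ⟨Φ', hΦ', e'⟩ := ftor_shift hΘ' a'
  obtain ⟨x, hx⟩ := ftor_ne (mul_ne_zero 𝒞.ne (mul_ne_zero hΦ hΦ'))
  rw [map_mul, map_mul, e, e', MvPolynomial.eval_map] at hx
  have hm : (𝒞.χ.map (MvPolynomial.eval₂Hom (rL B) x)).Monic := 𝒞.monic.map _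
  obtain ⟨y, hy⟩ := IsAlgClosed.exists_root (𝒞.χ.map (MvPolynomial.eval₂Hom (rL B) x)) (by
    rw [degree_eq_natDegree hm.ne_zero, 𝒞.monic.natDegree_map, 𝒞.deg]
    exact_mod_cast 𝒞.pos.ne')
  have hk'' : 𝒞.Gk x y := ⟨by rw [ev2_eq_eval]; exact hy, left_ne_zero_of_mul hx⟩
  obtain ⟨n, hn, hfix⟩ := T.exists_fixed_finset
    (Finset.univ.image a ∪ Finset.univ.image a' ∪ Finset.univ.image x ∪ {c, c', y})
  obtain ⟨m, hm0, h⟩ := tor_line (T := T) hk hk''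
    (hb _ (left_ne_zero_of_mul (right_ne_zero_of_mul hx))) hn
    (fun i => hfix _ (by simp)) (hfix _ (by simp)) (fun i => hfix _ (by simp)) (hfix _ (by simp))
  obtain ⟨m', hm0', h'⟩ := tor_line (T := T) hk' hk''
    (hb' _ (right_ne_zero_of_mul (right_ne_zero_of_mul hx))) hn
    (fun i => hfix _ (by simp)) (hfix _ (by simp)) (fun i => hfix _ (by simp)) (hfix _ (by simp))
  have hcl := fun D => T.clL_mul (J := J) one_pos hn D
  rw [one_mul] at hcl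
  rw [hcl, map_sub] at h h'
  refine ⟨m * m' * n, by positivity, ?_⟩
  have := sub_mem (nsmul_mem h m') (nsmul_mem h' m)
  rw [map_sub]
  refine (congrArg (· ∈ 𝒞.Vu T) ?_).mp this
  module

theorem UU_tor (hI : 𝒞.Irr) {x : VV Λ J} (hx : x ∈ 𝒞.UU T) (h0 : x.2 = 0) :
    ∃ m : ℕ, 0 < m ∧ m • x ∈ 𝒞.Vu T := by
  obtain ⟨a₀, c₀, hk₀⟩ := exists_gk (𝒞 := 𝒞)
  have hle : 𝒞.UU T ≤ ftor_grp (𝒞.Vu T) (clL J (T.U 1) (Finsupp.single (𝒞.lf p a₀ c₀) 1)) := by
    refine UU_le fun n hn => TL_le hn (fun v hv => ⟨0, 1, one_pos, by simpa using hv⟩) ?_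
    intro a c hk _ _
    obtain ⟨m, hm, h⟩ := tor_pair (T := T) hI hk hk₀
    have hcl := fun D => T.clL_mul (J := J) one_pos hn D
    rw [one_mul] at hcl
    refine ⟨n, m, hm, ?_⟩
    rw [map_sub] at h
    rw [hcl]
    refine (congrArg (· ∈ 𝒞.Vu T) ?_).mp (nsmul_mem h n)
    module
  obtain ⟨z, m, hm, h⟩ := hle hx
  have h2 : (m • (x - z • clL J (T.U 1) (Finsupp.single (𝒞.lf p a₀ c₀) 1))).2 = 0 :=
    (Vu_le_Azero h).2
  have := T.fin 1 one_pos
  have h3 : (finrank K (T.U 1) : ℚ) ≠ 0 := Nat.cast_ne_zero.2 finrank_pos.ne'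
  have hz : z = 0 := by
    rw [Prod.smul_snd, Prod.snd_sub, Prod.smul_snd, clL_snd, h0] at h2
    simpa [hm.ne', h3] using h2
  refine ⟨m, hm, ?_⟩
  rwa [hz, zero_zsmul, sub_zero] at h

end Chart

end Pool.Agent.ZeroCyc
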