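import Pool.Agent.Lib.MP_796ce4_ag.ZY.ChA

/-! Irreducible monic hypersurfaces. -/

namespace Pool.Agent.ZeroCyc

open Polynomial Module
open scoped Classical IntermediateField PowerSeries

set_option linter.unusedSectionVars false

theorem exists_bezout {R R' : Type} [CommRing R] [CommRing R'] [IsDomain R']
    [IsIntegrallyClosed R'] (φ : R →+* R') {χ g : R[X]} (hm : χ.Monic)
    (hi : Irreducible (χ.map φ)) (hg : ¬χ.map φ ∣ g.map φ) :
    ∃ (D : R) (α β : R[X]), C D = α * χ + β * g ∧ φ D ≠ 0 := by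
  have hm0 : χ.natDegree ≠ 0 := by
    intro h
    have h1 : χ = 1 := eq_one_of_monic_natDegree_zero hm h
    rw [h1, Polynomial.map_one] at hi
    exact hi.not_isUnit isUnit_one
  obtain ⟨a, b, -, -, hab⟩ :=
    exists_mul_add_mul_eq_C_resultant χ g (le_refl χ.natDegree) (le_refl g.natDegree) (Or.inl hm0)
  refine ⟨resultant χ g χ.natDegree g.natDegree, a, b, by rw [← hab]; ring, ?_⟩
  intro h0
  let ι : R' →+* FractionRing R' := algebraMap R' (FractionRing R')
  have hι : Function.Injective ι := IsFractionRing.injective R' (FractionRing R')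
  have hm' : (χ.map φ).Monic := hm.map φ
  have hi' : Irreducible ((χ.map φ).map ι) :=
    (hm'.irreducible_iff_irreducible_map_fraction_map (K := FractionRing R')).1 hi
  have hg' : ¬(χ.map φ).map ι ∣ (g.map φ).map ι := fun h => hg ((map_dvd_map ι hι hm').1 h)
  have hc : IsCoprime ((χ.map φ).map ι) ((g.map φ).map ι) := hi'.coprime_iff_not_dvd.2 hg'
  have hne := resultant_ne_zero _ _ hc
  have hd : ((χ.map φ).map ι).natDegree = χ.natDegree := by
    rw [hm'.natDegree_map, hm.natDegree_map]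
  have hle : ((g.map φ).map ι).natDegree ≤ g.natDegree :=
    natDegree_map_le.trans natDegree_map_le
  obtain ⟨k, hk⟩ := Nat.exists_eq_add_of_le hle
  have h2 : resultant ((χ.map φ).map ι) ((g.map φ).map ι) χ.natDegree g.natDegree = 0 := by
    rw [resultant_map_map, resultant_map_map, h0, map_zero]
  rw [hk, resultant_add_right_deg _ _ _ _ k le_rfl, ← hd, (hm'.map ι).coeff_natDegree, one_pow,
    one_mul] at h2
  exact hne h2

variable {κ : Type} [Field κ] [IsAlgClosed κ] {d : ℕ}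

theorem exists_ev2_eq_zero {q : MP d κ} (hm : q.Monic) (h : q ≠ 1) (y : Fin d → κ) :
    ∃ η, ev2 (RingHom.id κ) y η q = 0 := by
  have hd : (q.map (MvPolynomial.eval₂Hom (RingHom.id κ) y)).degree ≠ 0 := by
    rw [hm.degree_map]
    intro h0
    exact h (eq_one_of_monic_natDegree_zero hm (natDegree_eq_zero_iff_degree_le_zero.2 h0.le))
  obtain ⟨η, hη⟩ := IsAlgClosed.exists_root _ hd
  exact ⟨η, by rw [ev2_eq_eval]; exact hη⟩

theorem dvd_of_vanish {q f : MP d κ} (hm : q.Monic) (hi : Irreducible q)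
    (h : ∀ y η, ev2 (RingHom.id κ) y η q = 0 → ev2 (RingHom.id κ) y η f = 0) : q ∣ f := by
  by_contra hn
  have hq1 : q ≠ 1 := fun h1 => hi.not_isUnit (h1 ▸ isUnit_one)
  obtain ⟨D, α, β, hD, hD0⟩ := exists_bezout (RingHom.id (MvPolynomial (Fin d) κ)) (g := f) hm
    (by rwa [Polynomial.map_id]) (by rwa [Polynomial.map_id, Polynomial.map_id])
  apply hD0
  rw [RingHom.id_apply]
  refine eq_zero_of_eval₂ (φ := RingHom.id κ) Function.injective_id fun y => ?_
  obtain ⟨η, hη⟩ := exists_ev2_eq_zero hm hq1 y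
  rw [← ev2_C (RingHom.id κ) y η D, hD, map_add, map_mul, map_mul, hη, h y η hη, mul_zero,
    mul_zero, add_zero]

/-- a non-trivial monic polynomial has a monic irreducible factor -/
theorem chi_factor {g : MP d κ} (hm : g.Monic) (h : g ≠ 1) :
    ∃ q : MP d κ, q.Monic ∧ Irreducible q ∧ q ∣ g := by
  have hu : ¬IsUnit g := fun hu => h (hm.eq_one_of_isUnit hu)
  obtain ⟨q, hq, hqg⟩ := WfDvdMonoid.exists_irreducible_factor hu hm.ne_zero
  obtain ⟨u, hu⟩ := hm.isUnit_leadingCoeff_of_dvd hqg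
  have hC : IsUnit (C (↑u⁻¹ : MvPolynomial (Fin d) κ)) := isUnit_C.2 (Units.isUnit _)
  refine ⟨C (↑u⁻¹ : MvPolynomial (Fin d) κ) * q, ?_, (irreducible_isUnit_mul hC).2 hq,
    (hC.mul_left_dvd).2 hqg⟩
  rw [Monic, leadingCoeff_mul, leadingCoeff_C, ← hu, Units.inv_mul]

theorem irreducible_of_zero_prime {χ : MP d κ} (hm : χ.Monic)
    (hp : ∀ f g : MP d κ,
      (∀ y η, ev2 (RingHom.id κ) y η χ = 0 → ev2 (RingHom.id κ) y η (f * g) = 0) →
      (∀ y η, ev2 (RingHom.id κ) y η χ = 0 → ev2 (RingHom.id κ) y η f = 0) ∨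
      ∀ y η, ev2 (RingHom.id κ) y η χ = 0 → ev2 (RingHom.id κ) y η g = 0)
    {y₀ : Fin d → κ} {η₀ : κ} (h0 : ev2 (RingHom.id κ) y₀ η₀ χ = 0)
    (h1 : ev2 (RingHom.id κ) y₀ η₀ (derivative χ) ≠ 0) : Irreducible χ := by
  have hχ1 : χ ≠ 1 := by
    intro h
    rw [h, map_one] at h0
    exact one_ne_zero h0
  have key : ∀ c : MP d κ, c ≠ 0 →
      (∀ y η, ev2 (RingHom.id κ) y η χ = 0 → ev2 (RingHom.id κ) y η c = 0) →
      ∃ q : MP d κ, Irreducible q ∧
        ∀ y η, ev2 (RingHom.id κ) y η χ = 0 → ev2 (RingHom.id κ) y η q = 0 := by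
    intro c
    induction c using WfDvdMonoid.induction_on_irreducible with
    | zero => exact fun h => absurd rfl h
    | unit u hu =>
      intro _ hv
      exact absurd (hv y₀ η₀ h0) (hu.map (ev2 (RingHom.id κ) y₀ η₀)).ne_zero
    | mul a i ha hi ih =>
      intro _ hv
      rcases hp i a hv with h | h
      · exact ⟨i, hi, h⟩
      · exact ih ha h
  obtain ⟨q', hq', hv'⟩ := key χ hm.ne_zero fun _ _ h => h
  have van : ∀ g : MP d κ, g.Monic → g ≠ 1 → g ∣ χ → ev2 (RingHom.id κ) y₀ η₀ g = 0 := by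
    intro g hg hg1 hgχ
    obtain ⟨q, hqm, hqi, hqg⟩ := chi_factor hg hg1
    have hd : q ∣ q' := dvd_of_vanish hqm hqi fun y η h => hv' y η (by
      obtain ⟨c, hc⟩ := hqg.trans hgχ
      rw [hc, map_mul, h, zero_mul])
    obtain ⟨c, hc⟩ := (hqi.dvd_symm hq' hd).trans hqg
    rw [hc, map_mul, hv' y₀ η₀ h0, zero_mul]
  rw [irreducible_of_monic hm hχ1]
  intro f g hf hg hfg
  by_contra hn
  rw [not_or] at hn
  apply h1
  rw [← hfg, derivative_mul, map_add, map_mul, map_mul,
    van f hf hn.1 (Dvd.intro g hfg), van g hg hn.2 (Dvd.intro_left f hfg), mul_zero, zero_mul,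
    add_zero]

end Pool.Agent.ZeroCyc
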