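import Pool.Agent.Lib.MP_796ce4_ag.ZY.Base

/-! The local setting for a finite extension of the p-adic numbers. -/

namespace Pool.Agent.ZeroCyc

open Polynomial Module
open scoped Classical IntermediateField

set_option linter.unusedSectionVars false

variable (p : ℕ) [Fact p.Prime] (K Λ : Type) [Field K] [NormedField Λ] [IsUltrametricDist Λ]
  [IsAlgClosed Λ] [NormedAlgebra ℚ_[p] Λ] [Algebra ℚ_[p] K] [Algebra K Λ]
  [IsScalarTower ℚ_[p] K Λ] [FiniteDimensional ℚ_[p] K] [Algebra.IsAlgebraic K Λ]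

theorem locinst_fin (L : IntermediateField K Λ) (hL : FiniteDimensional K L) :
    ∃ V : Submodule ℚ_[p] Λ, FiniteDimensional ℚ_[p] V ∧ (V : Set Λ) = L := by
  refine ⟨(L.toSubalgebra.toSubmodule).restrictScalars ℚ_[p], ?_, rfl⟩
  have h : FiniteDimensional ℚ_[p] L := Module.Finite.trans K L
  exact h

include p in
theorem locinst_compact (L : IntermediateField K Λ) (hL : FiniteDimensional K L) :
    IsCompact {x : Λ | x ∈ L ∧ ‖x‖ ≤ 1} := by
  obtain ⟨V, hV, e⟩ := locinst_fin p K Λ L hL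
  have : ProperSpace V := FiniteDimensional.proper ℚ_[p] V
  have h := (isCompact_closedBall (0 : V) 1).image continuous_subtype_val
  have e' : ∀ x : Λ, x ∈ V ↔ x ∈ L := fun x => by
    rw [← SetLike.mem_coe, e, SetLike.mem_coe]
  have : {x : Λ | x ∈ L ∧ ‖x‖ ≤ 1} = Subtype.val '' Metric.closedBall (0 : V) 1 := by
    ext x
    constructor
    · rintro ⟨h1, h2⟩
      exact ⟨⟨x, (e' x).2 h1⟩, by simpa using h2, rfl⟩
    · rintro ⟨y, hy, rfl⟩
      exact ⟨(e' _).1 y.2, by simpa using hy⟩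
  rw [this]
  exact h

theorem locinst_norm_p : ‖(p : Λ)‖ < 1 ∧ (p : Λ) ≠ 0 := by
  have h : (p : Λ) = algebraMap ℚ_[p] Λ p := by simp
  rw [h]
  refine ⟨by rw [norm_algebraMap']; exact Padic.norm_p_lt_one, ?_⟩
  rw [_root_.map_ne_zero]
  exact_mod_cast (Fact.out : p.Prime).ne_zero

theorem loc_of_padic : Loc p K Λ := by
  have : Algebra.IsAlgebraic ℚ_[p] Λ := Algebra.IsAlgebraic.trans ℚ_[p] K Λ
  obtain ⟨hp1, hp0⟩ := locinst_norm_p p Λ
  refine ⟨Fact.out, hp1, fun σ x => ?_, fun L hL => ?_, fun L hL => ?_, fun L hL => ?_⟩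
  · rw [NormedAlgebra.norm_eq_spectralNorm ℚ_[p], NormedAlgebra.norm_eq_spectralNorm ℚ_[p] x]
    exact (spectralNorm_eq_of_equiv (σ.restrictScalars ℚ_[p]) x).symm
  · obtain ⟨V, hV, e⟩ := locinst_fin p K Λ L hL
    rw [← e]
    exact V.complete_of_finiteDimensional
  · have h := (locinst_compact p K Λ L hL).inter_right (IsUltrametricDist.isClosed_ball (0 : Λ) 1)
    have hm : (p : Λ) ∈ {x : Λ | x ∈ L ∧ ‖x‖ ≤ 1} ∩ Metric.ball 0 1 :=
      ⟨⟨natCast_mem L p, hp1.le⟩, by simpa using hp1⟩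
    obtain ⟨w, hw, hmax⟩ := h.exists_isMaxOn ⟨_, hm⟩ continuous_norm.continuousOn
    refine ⟨w, hw.1.1, fun hc => ?_, by simpa using hw.2, fun x hx h1 =>
      hmax (show x ∈ {x : Λ | x ∈ L ∧ ‖x‖ ≤ 1} ∩ Metric.ball 0 1 from
        ⟨⟨hx, h1.le⟩, by simpa using h1⟩)⟩
    have h2 : ‖(p : Λ)‖ ≤ ‖w‖ := hmax hm
    rw [hc, norm_zero] at h2
    exact hp0 (norm_le_zero_iff.1 h2)
  · obtain ⟨t, h1, h2, h3⟩ := (locinst_compact p K Λ L hL).finite_cover_balls one_pos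
    refine ⟨h2.toFinset, fun x hx => h1 (h2.mem_toFinset.1 hx), fun x hx hx1 => ?_⟩
    obtain ⟨y, hy, hxy⟩ := Set.mem_iUnion₂.1 (h3 ⟨hx, hx1⟩)
    exact ⟨y, h2.mem_toFinset.2 hy, by rwa [Metric.mem_ball, dist_eq_norm] at hxy⟩

theorem norm_le_one_of_isIntegral [Algebra ℤ_[p] K] [IsScalarTower ℤ_[p] ℚ_[p] K] {x : K}
    (hx : IsIntegral ℤ_[p] x) : ‖algebraMap K Λ x‖ ≤ 1 := by
  obtain ⟨g, hg, h0⟩ := hx
  by_contra hc
  rw [not_le] at hc
  set y := algebraMap K Λ x with hy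
  set φ : ℤ_[p] →+* Λ := (algebraMap K Λ).comp (algebraMap ℤ_[p] K) with hφ
  have hφ1 : ∀ a, ‖φ a‖ ≤ 1 := fun a => by
    rw [hφ, RingHom.comp_apply, IsScalarTower.algebraMap_apply ℤ_[p] ℚ_[p] K,
      ← IsScalarTower.algebraMap_apply ℚ_[p] K Λ, norm_algebraMap']
    exact a.2
  have h1 : eval₂ φ y g = 0 := by
    rw [hφ, hy, ← Polynomial.hom_eval₂, h0, map_zero]
  rw [eval₂_eq_sum_range, Finset.sum_range_succ, hg.coeff_natDegree, map_one, one_mul] at h1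
  have h2 : ‖y ^ g.natDegree‖ = ‖∑ i ∈ Finset.range g.natDegree, φ (g.coeff i) * y ^ i‖ := by
    rw [eq_neg_of_add_eq_zero_right h1, norm_neg]
  have h3 : ‖∑ i ∈ Finset.range g.natDegree, φ (g.coeff i) * y ^ i‖ ≤ ‖y‖ ^ g.natDegree / ‖y‖ := by
    refine IsUltrametricDist.norm_sum_le_of_forall_le_of_nonneg (by positivity) fun i hi => ?_
    rw [norm_mul, norm_pow, le_div_iff₀ (by linarith)]
    have h4 : ‖y‖ ^ (i + 1) ≤ ‖y‖ ^ g.natDegree :=
      pow_le_pow_right₀ hc.le (Finset.mem_range.1 hi)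
    have h5 : ‖φ (g.coeff i)‖ * ‖y‖ ^ (i + 1) ≤ ‖y‖ ^ (i + 1) :=
      mul_le_of_le_one_left (by positivity) (hφ1 _)
    rw [mul_assoc, ← pow_succ]
    linarith
  rw [← h2, norm_pow, le_div_iff₀ (by linarith)] at h3
  have h6 : 0 < ‖y‖ ^ g.natDegree := by positivity
  nlinarith

end Pool.Agent.ZeroCyc
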