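import Pool.Agent.Lib.MP_796ce4_ag.ZY.ChG
import Pool.Agent.Lib.MP_796ce4_ag.ZY.ChK
import Pool.Agent.Lib.MP_796ce4_ag.ZY.ChQ

/-! Existence of charts. -/

namespace Pool.Agent.ZeroCyc

open Polynomial Module
open scoped Classical IntermediateField PowerSeries

set_option linter.unusedSectionVars false

variable {p : ℕ} {K Λ : Type} [Field K] [CharZero K] [NormedField Λ] [IsUltrametricDist Λ]
  [IsAlgClosed Λ] [Algebra K Λ] [IsGalois K Λ] [Loc p K Λ] [Fact p.Prime] [CharP (kk Λ) p]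

variable {N : ℕ} {O : Type} [CommRing O] [Algebra O K] {I : Ideal (MvPolynomial (Fin (N + 1)) O)}
  {J : Ideal (MvPolynomial (Fin (N + 1)) K)}

theorem exists_chart (hI : GoodModel O I) (hJ : J = I.map (MvPolynomial.map (algebraMap O K)))
    (hO : ∀ c : O, ‖algebraMap K Λ (algebraMap O K c)‖ ≤ 1) {B : IntermediateField K Λ}
    [FiniteDimensional K B] (T : Tower p B) {Ξ : MvPolynomial (Fin (N + 1)) (OL B)} (hΞ : NV J Ξ)
    {P : Fin (N + 1) → Λ} (hP : PrimX J P) {n : ℕ} (hn : 0 < n)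
    (hres : ∀ i, ∃ c ∈ T.U n, ‖P i - c‖ < 1) {l : ℕ} (hl : 2 ≤ l) :
    ∃ i, ∃ 𝒞 : Chart J (T.U (n * l ^ i)), 𝒞.Irr ∧ 𝒞.Adapted P ∧
      (∀ y h, 𝒞.Gd y h → ‖MvPolynomial.eval₂ (OL B).subtype (𝒞.pv y h) Ξ‖ = 1) ∧
      ∃ Ξ', NV J Ξ' ∧ 𝒞.Covers Ξ' := by
  have hx : ∀ a, ∃ c : OL (T.Ui n l), rL _ c = rs (P a) := fun a => by
    obtain ⟨c, hc, h⟩ := hres a
    have h1 := norm_apply_le hP.2 a
    have h2 : ‖c‖ ≤ 1 := gal1_le_one h1 h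
    have h3 : c ∈ T.Ui n l := T.le_Ui n l 0 (by rwa [pow_zero, mul_one])
    exact ⟨⟨c, h3, h2⟩, by rw [rL_apply]; exact ((rs_eq_iff h1 h2).2 h).symm⟩
  choose x hx using hx
  have e : (fun a => rL _ (x a)) = fun a => rs (P a) := funext hx
  have := OL_integrallyClosed (T.Ui n l)
  obtain ⟨𝒬, h𝒬⟩ := (hI.cone hJ hO (T.Ui n l)).exists_pre (T.gr_Ui hn hl) (x := x) (by
    obtain ⟨i, hi⟩ := exists_norm_eq_one hP.2
    rw [e]
    exact fun h0 => rs_ne_zero.2 hi (congrFun h0 i)) (e ▸ hP.red) (e ▸ hI.dimGe hJ hO _ hP)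
  rw [e] at h𝒬
  obtain ⟨i, h⟩ := 𝒬.descend (e := fun i => inc (T.le_Ui n l i))
    (fun i => Subring.inclusion_injective _) (T.eventually_mem hn hl) h𝒬
  rw [subtype_inc, rL_inc] at h
  obtain ⟨𝒬', h'⟩ := h
  have hB : B ≤ T.U (n * l ^ i) := T.le _
  have e2 : ∀ v : Fin (N + 1) → Λ,
      MvPolynomial.eval₂ (OL _).subtype v (MvPolynomial.map (inc hB) Ξ) =
        MvPolynomial.eval₂ (OL B).subtype v Ξ := fun v => by
    rw [MvPolynomial.eval₂_map, subtype_inc]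
  have hΞ' : NV J (MvPolynomial.map (inc hB) Ξ) := by
    obtain ⟨⟨k, hk⟩, v, hv, h1⟩ := hΞ
    exact ⟨⟨k, hk.map _⟩, v, hv, by rwa [e2]⟩
  obtain ⟨𝒞, h1, h2, h3, h4⟩ := h'.exists_chart (hI.onX_smul hJ) (hI.redIrr hJ hO) hP hΞ'
  exact ⟨i, 𝒞, h1, h2, fun y h hg => by rw [← e2]; exact h3 y h hg, h4⟩

end Pool.Agent.ZeroCyc
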