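import Pool.Agent.Lib.MP_796ce4_ag.ZY.BX
import Pool.Agent.Lib.MP_796ce4_ag.ZY.CvS

/-! Moving good points to unramified points; reduction of divisors. -/

namespace Pool.Agent.ZeroCyc

open Polynomial Module
open scoped Classical IntermediateField PowerSeries

set_option linter.unusedSectionVars false

variable {p : ℕ} {K Λ : Type} [Field K] [CharZero K] [NormedField Λ] [IsUltrametricDist Λ]
  [IsAlgClosed Λ] [Algebra K Λ] [IsGalois K Λ] [Loc p K Λ] [Fact p.Prime] [CharP (kk Λ) p]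

variable {N : ℕ} {J : Ideal (MvPolynomial (Fin (N + 1)) K)} {B L : IntermediateField K Λ}

namespace Chart

variable {𝒞 : Chart J B} {T : Tower p B} {n : ℕ} {y : Fin 𝒞.d → Λ} {h : Λ}

theorem ml2_blk_pow (h₀ : Λ) (lam : Fin 𝒞.d → Λ[X]) (e : ℕ) :
    𝒞.blk h₀ lam (X ^ e) = e • Finsupp.single
      (𝒞.io (fun i => (lam i).eval 0) (𝒞.hen h₀ fun i => (lam i).eval 0)) (1 : ℤ) := by
  rw [blk, roots_X_pow, Multiset.map_nsmul, Multiset.sum_nsmul, map_nsmul, Multiset.map_singleton,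
    Multiset.sum_singleton, Jm_sg]

theorem ml2_blk_prod (h₀ : Λ) (lam : Fin 𝒞.d → Λ[X]) {e : ℕ} (a : Fin e → Λ) :
    𝒞.blk h₀ lam (∏ t, (X - C (a t))) = ∑ t, Finsupp.single
      (𝒞.io (fun i => (lam i).eval (a t)) (𝒞.hen h₀ fun i => (lam i).eval (a t))) (1 : ℤ) := by
  have h1 : (∏ t, (X - C (a t)) : Λ[X]).roots = Finset.univ.val.map a := by
    rw [← roots_multiset_prod_X_sub_C (Finset.univ.val.map a), Multiset.map_map]
    rfl
  rw [blk, h1, Multiset.map_map]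
  change 𝒞.Jm h₀ (∑ t, sg fun i => (lam i).eval (a t)) = _
  rw [map_sum]
  exact Finset.sum_congr rfl fun t _ => Jm_sg _ _

theorem ml2_main [FiniteDimensional K L] (hB : B ≤ L) (hg : 𝒞.GdL L y h) :
    ∃ (n e : ℕ) (y₀ : Fin 𝒞.d → Λ) (h₀ : Λ), 0 < n ∧ e * finrank K (T.U n) = finrank K L ∧
      𝒞.GdL (T.U n) y₀ h₀ ∧ (∀ i, rs (y₀ i) = rs (y i)) ∧ rs h₀ = rs h ∧
      clL J L (Finsupp.single (𝒞.io y₀ h₀) 1 - Finsupp.single (𝒞.io y h) 1) ∈ 𝒞.Vu T := by
  have : FiniteDimensional K B :=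
    FiniteDimensional.of_injective (IntermediateField.inclusion hB).toLinearMap
      (IntermediateField.inclusion_injective hB)
  obtain ⟨n, hn, -, hle, hres⟩ := T.exists_res (m := 1) (L := L) one_pos (T.U_one.symm ▸ hB)
  obtain ⟨e, ϖ, s, -, -, hϖ, hs, hrk, hov, -, hco, hR⟩ := exists_totram (p := p) hle hres
  choose R hR1 hR2 hR3 using fun i => hR (y i) (hg.y_mem i) (hg.gd.y_le i)
  choose lam hlam _ using fun i => exists_OL_poly (hR1 i) (hR2 i)
  have hsϖ : ∀ t, ‖s t ϖ‖ < 1 := fun t => by rw [Loc.norm_gal (p := p)]; exact hϖ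
  have hint : Intg (∏ t, (X - C (s t ϖ))) :=
    Intg.prod fun t _ => intg_X.sub (intg_C (hsϖ t).le)
  obtain ⟨μ, hμ1, hμ2, hμ3⟩ := exists_OL_poly hov hint
  have hdeg : μ.natDegree = e := by
    rw [hμ2, natDegree_finsetProd_X_sub_C_eq_card, Finset.card_univ, Fintype.card_fin]
  have hμ : Dist μ := ⟨hμ3 (monic_prod_X_sub_C _ _), fun i hi => by
    have := hco i (hdeg ▸ hi)
    rwa [← hμ1, coeff_map] at this⟩
  have hy0 : ∀ i, ‖(R i).eval 0 - y i‖ < 1 := fun i => by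
    rw [← hR3 i]
    refine ((hR2 i).eval_sub_le (by simp) hϖ.le).trans_lt ?_
    rwa [zero_sub, norm_neg]
  have hgd : 𝒞.Gd (fun i => (R i).eval 0) (𝒞.hen h fun i => (R i).eval 0) := hg.gd.hen hy0
  have hh0 := (hg.gd.ep.hen_spec hy0).2
  have hym : ∀ i, (R i).eval 0 ∈ T.U n := fun i => (hR1 i).eval (zero_mem _)
  generalize (𝒞.hen h fun i => (R i).eval 0) = h₀ at hgd hh0
  have hhm : h₀ ∈ T.U n := by
    obtain ⟨c, hc, -, hc'⟩ := hres h hg.h_mem hg.gd.h_le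
    exact hgd.ep.mem (p := p) (T.le n) hym hc (tow_tri hh0 hc')
  have hg0 : 𝒞.GdL (T.U n) (fun i => (R i).eval 0) h₀ := ⟨hgd, hym, hhm⟩
  refine ⟨n, e, _, h₀, hn, hrk, hg0, fun i => (rs_eq_iff (hgd.y_le i) (hg.gd.y_le i)).2 (hy0 i),
    (rs_eq_iff hgd.h_le hg.gd.h_le).2 hh0, ?_⟩
  have hlam' : (fun i => (lam i).map (OL _).subtype) = R := funext hlam
  have key := BX0 (𝒞 := 𝒞) (T := T) hn (lam := lam) (h₀ := h₀) (by
    have : (fun i => (lam i).eval₂ (OL _).subtype 0) = fun i => (R i).eval 0 :=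
      funext fun i => by rw [← hlam i, eval_map]
    rw [this]
    exact hg0) hμ (dist_X_pow e) (by rw [hdeg, natDegree_X_pow])
  rw [hlam', hμ1, Polynomial.map_pow, map_X, ml2_blk_pow, ml2_blk_prod, hgd.ep.hen_self] at key
  have h1 : ∀ t, Finsupp.single (𝒞.io (fun i => (R i).eval (s t ϖ))
      (𝒞.hen h₀ fun i => (R i).eval (s t ϖ))) (1 : ℤ) =
        galC (s t) (Finsupp.single (𝒞.io y h) 1) := by
    intro t
    have hB' : Fix B (s t) := (hs t).mono (T.le n)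
    have e1 : (fun i => (R i).eval (s t ϖ)) = fun i => s t (y i) :=
      funext fun i => by rw [← (hR1 i).apply_eval (hs t), hR3]
    have e2 : 𝒞.hen h₀ (fun i => s t (y i)) = s t h := by
      refine hgd.ep.hen_eq (fun i => ?_) ?_ (hg.gd.gal (p := p) hB').on
      · rw [← hs t _ (hym i), ← map_sub, Loc.norm_gal (p := p)]
        exact tow_symm (hy0 i)
      · rw [← hs t _ hhm, ← map_sub, Loc.norm_gal (p := p)]
        exact tow_symm hh0
    rw [e1, e2, galC_single, io_gal hB']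
  rw [Finset.sum_congr rfl fun t _ => h1 t, map_sub, map_nsmul, map_sum] at key
  simp only [clL_gal] at key
  rw [Finset.sum_const, Finset.card_univ, Fintype.card_fin] at key
  rw [clL_eq_nsmul hrk, map_sub, nsmul_sub]
  exact key

theorem ML2 [FiniteDimensional K L] (hB : B ≤ L) (hg : 𝒞.GdL L y h) : clL J L
    (Finsupp.single (𝒞.io y h) 1 - Finsupp.single (𝒞.lf p (fun i => rs (y i)) (rs h)) 1) ∈
      𝒞.Vu T := by
  obtain ⟨n, e, y₀, h₀, hn, hrk, hg0, e1, e2, key⟩ := ml2_main (T := T) hB hg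
  have h1 := (𝒞.Vu T).nsmul_mem (sub_lf_mem (T := T) hn hg0) e
  rw [← clL_eq_nsmul hrk, funext e1, e2] at h1
  have := (𝒞.Vu T).sub_mem h1 key
  rw [← map_sub] at this
  convert this using 2
  abel

theorem ML2_UU [FiniteDimensional K L] (hB : B ≤ L) (hg : 𝒞.GdL L y h) :
    clL J L (Finsupp.single (𝒞.io y h) 1) ∈ 𝒞.UU T := by
  obtain ⟨n, e, y₀, h₀, hn, hrk, hg0, -, -, key⟩ := ml2_main (T := T) hB hg
  have h1 := (𝒞.UU T).nsmul_mem (TL_le_UU (T := T) hn (mem_TL hg0)) e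
  rw [← clL_eq_nsmul hrk] at h1
  have := (𝒞.UU T).sub_mem h1 (Vu_le_UU key)
  rwa [← map_sub, sub_sub_cancel] at this

theorem ml2_psh_sub {A E : Type} (f g : A → E) (D : A →₀ ℤ) : psh f D - psh g D =
    D.sum fun a n => n • (Finsupp.single (f a) (1 : ℤ) - Finsupp.single (g a) 1) := by
  change D.mapDomain f - D.mapDomain g = _
  rw [Finsupp.mapDomain, Finsupp.mapDomain, ← Finsupp.sum_sub]
  refine Finsupp.sum_congr fun a _ => ?_
  rw [smul_sub, Finsupp.smul_single_one, Finsupp.smul_single_one]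

/-- a divisor and the lift of its reduction -/
theorem RED (hn : 0 < n) {lam : Fin 𝒞.d → (OL (T.U n))[X]} {e m : ℕ}
    (he : ∀ i, (lam i).natDegree ≤ e) {G : (OL (T.U n))[X][X]} (hG : Lead (𝒞.b * e) m G)
    (hz : ∀ Q, On (cv (rL B) (fun i => (lam i).map (rL _)) 𝒞.χ) Q → ee Q (mp (rL _) G) = 0 →
      (𝒞.rho (rL B) fun i => (lam i).map (rL _)).eval Q.1 ≠ 0) :
    (∀ Q, On (𝒞.cL fun i => (lam i).map (OL _).subtype) Q → ee Q (mp (OL _).subtype G) = 0 →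
      𝒞.Gd (fun i => ((lam i).map (OL _).subtype).eval Q.1) Q.2) ∧
    clL J (T.U n) (𝒞.Pf (fun i => (lam i).map (OL _).subtype)
        (dv (𝒞.cL fun i => (lam i).map (OL _).subtype) (mp (OL _).subtype G)) -
      𝒞.Lf p (fun i => (lam i).map (rL _))
        (dv (cv (rL B) (fun i => (lam i).map (rL _)) 𝒞.χ) (mp (rL _) G))) ∈ 𝒞.Vu T := by
  have := T.fin n hn
  have hφ : ∀ c : OL (T.U n), ‖(OL (T.U n)).subtype c‖ ≤ 1 := fun c => c.2.2
  have hψ : ∀ c : OL (T.U n), rL (T.U n) c = rs ((OL (T.U n)).subtype c) := fun c => rL_apply c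
  have heΛ : ∀ i, ((lam i).map (OL (T.U n)).subtype).natDegree ≤ e :=
    fun i => natDegree_map_le.trans (he i)
  have heκ : ∀ i, ((lam i).map (rL (T.U n))).natDegree ≤ e :=
    fun i => natDegree_map_le.trans (he i)
  have hle : ∀ Q, On (𝒞.cL fun i => (lam i).map (OL _).subtype) Q →
      ee Q (mp (OL _).subtype G) = 0 → ‖Q.1‖ ≤ 1 ∧ ‖Q.2‖ ≤ 1 := fun Q h0 h1 =>
    zero_le (fun i => intg_map (lam i)) heΛ (hG.map _) (in2_mp hφ G) h0 h1
  have hrs : ∀ {t : Λ}, ‖t‖ ≤ 1 → (fun i => ((lam i).map (rL (T.U n))).eval (rs t)) =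
      fun i => rs (((lam i).map (OL (T.U n)).subtype).eval t) := fun ht =>
    funext fun i => by rw [eval_map, eval_map, rs_eval₂ hφ hψ ht]
  have hgd : ∀ Q, On (𝒞.cL fun i => (lam i).map (OL _).subtype) Q →
      ee Q (mp (OL _).subtype G) = 0 →
      𝒞.Gd (fun i => ((lam i).map (OL _).subtype).eval Q.1) Q.2 := by
    intro Q h0 h1
    obtain ⟨a1, a2⟩ := hle Q h0 h1
    have b0 : On (cv (rL B) (fun i => (lam i).map (rL _)) 𝒞.χ) (rs Q.1, rs Q.2) := by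
      have c1 := (rs_e2 hφ hψ a1 a2 (cv (inc (T.le n)) lam 𝒞.χ)).2
      rw [← ee_mp, ← ee_mp _ (rs Q.1, rs Q.2), mp_cv, mp_cv, subtype_inc, rL_inc] at c1
      rw [On, ← c1, show ee Q _ = 0 from h0, rs_zero]
    have b1 : ee (rs Q.1, rs Q.2) (mp (rL _) G) = 0 := by
      have c1 := (rs_e2 hφ hψ a1 a2 G).2
      rw [← ee_mp, ← ee_mp _ (rs Q.1, rs Q.2)] at c1
      rw [← c1, h1, rs_zero]
    have b2 : 𝒞.Gk (fun i => ((lam i).map (rL (T.U n))).eval (rs Q.1)) (rs Q.2) :=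
      (crv_gp (he := heκ) (Q := (rs Q.1, rs Q.2))).1 ⟨b0, hz _ b0 b1⟩
    rw [hrs a1] at b2
    exact b2.gd (fun i => (intg_map (lam i)).eval_le a1) (on_cL.1 h0)
  refine ⟨hgd, ?_⟩
  have hU : T.U n ≤ ⊤ := le_top
  have hBt : B ≤ ⊤ := le_top
  have c1 : ∀ i, ((lam i).map (inc hU)).map (OL ⊤).subtype = (lam i).map (OL _).subtype :=
    fun i => by rw [Polynomial.map_map, subtype_inc]
  have c2 : ∀ i, ((lam i).map (inc hU)).map (rL ⊤) = (lam i).map (rL _) :=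
    fun i => by rw [Polynomial.map_map, rL_inc]
  have spec := dv_spec (V := OL (⊤ : IntermediateField K Λ)) (ψ := rL ⊤)
    (𝒞.wt_crv (inc hBt) (lam := fun i => (lam i).map (inc hU))
      fun i => natDegree_map_le.trans (he i)) (hG.map (inc hU))
  simp only [mp_cv, mp_mp, subtype_inc, rL_inc, c1, c2] at spec
  obtain ⟨hadm, hdv⟩ := spec
    (fun Q h0 h1 => ⟨(rs_coe_top _).1.2 (hle Q h0 h1).1, (rs_coe_top _).1.2 (hle Q h0 h1).2⟩)
    (fun Q h0 h1 => Cv.Gp.et (c := 𝒞.crv (rL B) _ e heκ) ⟨h0, hz Q h0 h1⟩)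
  have hxt : xt (OL (⊤ : IntermediateField K Λ)) (rL ⊤) = rs :=
    funext fun x => (rs_coe_top x).2.symm
  rw [hxt] at hdv
  have hD := fun Q => (Lead.dv_ne_zero (Q := Q) (𝒞.wt_crv (OL B).subtype heΛ)
    (hG.map (OL (T.U n)).subtype)).1
  have hinv := fun σ (hσ : Fix (T.U n) σ) => dv_gal (p := p) (T.le n) (fun i => over_map (lam i))
    heΛ (hG.map _) (ov2_mp (fun x => x.2.1) G) hadm hσ
  rw [hdv, Lf, psh_psh, Pf]
  generalize dv (cv (OL B).subtype (fun i => (lam i).map (OL _).subtype) 𝒞.χ)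
    (mp (OL _).subtype G) = D at hD hinv ⊢
  have hgd' : ∀ Q, D Q ≠ 0 → 𝒞.Gd (fun i => ((lam i).map (OL _).subtype).eval Q.1) Q.2 :=
    fun Q hQ => hgd Q (hD Q hQ).1.1 (hD Q hQ).2
  rw [psh_congr (D := D) (f := _ ∘ _) (g := fun Q => 𝒞.lf p
    (fun i => rs (((lam i).map (OL (T.U n)).subtype).eval Q.1)) (rs Q.2)) (fun Q hQ => by
      rw [← hrs (hle Q (hD Q hQ).1.1 (hD Q hQ).2).1]
      rfl), ml2_psh_sub]
  refine orb_mem₂ (T.U n) D hinv _ (fun σ Q hσ hQ => ?_) _ fun Q hQ L' hL' _ h1 h2 => ?_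
  · have hB' : Fix B σ := hσ.mono (T.le n)
    have e1 : (fun i => ((lam i).map (OL (T.U n)).subtype).eval (pm σ Q).1) =
        fun i => σ (((lam i).map (OL (T.U n)).subtype).eval Q.1) :=
      funext fun i => ((over_map (lam i)).apply_eval hσ Q.1).symm
    have e2 : (fun i => rs (((lam i).map (OL (T.U n)).subtype).eval (pm σ Q).1)) =
        fun i => rs (σ (((lam i).map (OL (T.U n)).subtype).eval Q.1)) :=
      funext fun i => congrArg rs (congrFun e1 i)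
    rw [map_sub, galC_single, galC_single, ← io_gal hB', ← lf_gal (hgd' Q hQ) hB', e1, e2]
    rfl
  · exact ML2 ((T.le n).trans hL')
      ⟨hgd' Q hQ, fun i => ((over_map (lam i)).mono hL').eval h1, h2⟩

end Chart

end Pool.Agent.ZeroCyc
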