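import Pool.Agent.Lib.MP_796ce4_ag.ZY.ML1a
import Pool.Agent.Lib.MP_796ce4_ag.ZY.ML2
import Pool.Agent.Lib.MP_796ce4_ag.ZY.ChMain

/-! Every point is equivalent to a combination of unramified good points. -/

namespace Pool.Agent.ZeroCyc

open Polynomial Module
open scoped Classical IntermediateField PowerSeries

set_option linter.unusedSectionVars false

variable {p : ℕ} {K Λ : Type} [Field K] [CharZero K] [NormedField Λ] [IsUltrametricDist Λ]
  [IsAlgClosed Λ] [Algebra K Λ] [IsGalois K Λ] [Loc p K Λ] [Fact p.Prime] [CharP (kk Λ) p]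

variable {N : ℕ} {J : Ideal (MvPolynomial (Fin (N + 1)) K)} {B L : IntermediateField K Λ}

/-- the graph of a polynomial over the roots of another one is an invariant divisor -/
theorem ml1_inv {f g : Λ[X]} (hf : Over L f) (hf0 : f ≠ 0) (hg : Over L g) {σ : Λ ≃ₐ[K] Λ}
    (hσ : Fix L σ) : psh (pm σ) (∑ t ∈ f.roots.toFinset, Finsupp.single (t, g.eval t) 1) =
      ∑ t ∈ f.roots.toFinset, Finsupp.single (t, g.eval t) 1 := by
  have hm : ∀ τ : Λ ≃ₐ[K] Λ, Fix L τ → ∀ t ∈ f.roots.toFinset, τ t ∈ f.roots.toFinset := by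
    intro τ hτ t ht
    rw [Multiset.mem_toFinset, mem_roots hf0, IsRoot.def] at ht ⊢
    rw [← hf.apply_eval hτ, ht, map_zero]
  rw [map_sum]
  refine Finset.sum_nbij' (fun t => σ t) (fun t => σ⁻¹ t) (hm σ hσ) (hm _ hσ.inv)
    (fun t _ => σ.symm_apply_apply t) (fun t _ => σ.apply_symm_apply t) fun t _ => ?_
  rw [psh_single, ← hg.apply_eval hσ]
  rfl

include p in
theorem Chart.ML1 {𝒞 : Chart J B} {L₀ : IntermediateField K Λ} [FiniteDimensional K L]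
    (hB : B ≤ L₀) (hle : L₀ ≤ L) (hres : ∀ y ∈ L, ‖y‖ ≤ 1 → ∃ c ∈ L₀, ‖c‖ ≤ 1 ∧ ‖y - c‖ < 1)
    {y : Fin 𝒞.d → Λ} {h : Λ} (hg : 𝒞.Ep y h) (hy : ∀ i, y i ∈ L) (hh : h ∈ L)
    {H : AddSubgroup (VV Λ J)} (hH : ∀ L' y h, L₀ ≤ L' → FiniteDimensional K L' → 𝒞.GdL L' y h →
      clL J L' (Finsupp.single (𝒞.io y h) 1) ∈ H) :
    clL J L (Finsupp.single (𝒞.io y h) 1) ∈ H := by
  have : FiniteDimensional K L₀ :=
    FiniteDimensional.of_injective (IntermediateField.inclusion hle).toLinearMap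
      (IntermediateField.inclusion_injective hle)
  obtain ⟨e, ϖ, s, he, -, hϖ1, hs, hrk, hov, hinj, hco, hpoly⟩ := exists_totram (p := p) hle hres
  have hsep : (∏ t, (X - C (s t ϖ))).Separable := separable_prod_X_sub_C_iff.2 hinj
  have hμm : (∏ t, (X - C (s t ϖ))).Monic := monic_prod_of_monic _ _ fun t _ => monic_X_sub_C _
  have hμd : (∏ t, (X - C (s t ϖ))).natDegree = e := by
    rw [natDegree_prod_of_monic _ _ fun t _ => monic_X_sub_C _]
    simp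
  have hμi : Intg (∏ t, (X - C (s t ϖ))) := Intg.prod fun t _ =>
    intg_X.sub (intg_C (by rw [Loc.norm_gal (p := p)]; exact hϖ1.le))
  have hZ : (∏ t, (X - C (s t ϖ))).roots.toFinset = Finset.univ.image fun t => s t ϖ := by
    ext t
    rw [Multiset.mem_toFinset, mem_roots hμm.ne_zero, IsRoot.def, eval_prod,
      Finset.prod_eq_zero_iff, Finset.mem_image]
    simp only [eval_sub, eval_X, eval_C, sub_eq_zero]
    exact exists_congr fun _ => and_congr_right fun _ => eq_comm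
  have hr : ∀ t, (∏ t, (X - C (s t ϖ))).eval (s t ϖ) = 0 := fun t => by
    rw [eval_prod]
    exact Finset.prod_eq_zero (Finset.mem_univ t) (by simp)
  have hr0 : (∏ t, (X - C (s t ϖ))).eval ϖ = 0 := (s ⟨0, he⟩).injective (by
    rw [hov.apply_eval (hs _), hr, map_zero])
  obtain ⟨μ, hμ, hd, hm⟩ := exists_OL_poly hov hμi
  have hD : Dist μ := ⟨hm hμm, fun i hi => by
    have := hco i (by rwa [hd, hμd] at hi)
    rwa [← hμ, coeff_map] at this⟩
  have eμ : ∀ t, μ.eval₂ (OL L₀).subtype t = (∏ t, (X - C (s t ϖ))).eval t := fun t => by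
    rw [← hμ, eval_map]
  choose R' oR iR eR using fun i => hpoly (y i) (hy i) (hg.y_le i)
  choose R hR _ _ using fun i => exists_OL_poly (oR i) (iR i)
  have hRe : ∀ i t, (R i).eval₂ (OL L₀).subtype t = (R' i).eval t := fun i t => by
    rw [← hR, eval_map]
  obtain ⟨g, og, -, eg⟩ := hpoly h hh hg.h_le
  obtain ⟨h₀, hh₀, -, h1⟩ := hres h hh hg.h_le
  obtain ⟨lam, e', m, G, G', D, hl, hle', hlam, hG, hG', oG, oG', zG, zG', hDg, hdv⟩ :=
    Chart.exists_ml1 (p := p) (𝒞 := 𝒞) hB (R := R) hh₀ hD (by rwa [hμ]) (ϖ := ϖ) (h := h)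
      (by rw [eμ, hr0]) (by simpa only [hRe, eR] using hg) h1
  have hls : ∀ t, (fun i => (lam i).eval (s t ϖ)) = fun i => s t (y i) := fun t => funext fun i => by
    rw [hlam i _ (by rw [eμ, hr]), hRe, ← (oR i).apply_eval (hs t), eR]
  have hgs : ∀ t, g.eval (s t ϖ) = s t h := fun t => by rw [← og.apply_eval (hs t), eg]
  have hS : ∑ t ∈ (μ.map (OL L₀).subtype).roots.toFinset,
      Finsupp.single (t, 𝒞.hen h₀ fun i => (lam i).eval t) (1 : ℤ) =
      ∑ t ∈ (∏ t, (X - C (s t ϖ))).roots.toFinset, Finsupp.single (t, g.eval t) 1 := by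
    rw [hμ]
    refine Finset.sum_congr rfl fun t ht => ?_
    rw [hZ] at ht
    obtain ⟨t, -, rfl⟩ := Finset.mem_image.1 ht
    have h2 : ‖h₀ - s t h‖ < 1 := by
      rw [← hs t h₀ hh₀, ← map_sub, Loc.norm_gal (p := p), norm_sub_rev]
      exact h1
    rw [hls, hgs, Chart.hen_congr h2, (hg.gal (p := p) ((hs t).mono hB)).hen_self]
  rw [hS] at hdv
  have aG : Adm (𝒞.cL lam) G := fun Q h0 h2 => (zG Q h0 h2).et
  have aG' : Adm (𝒞.cL lam) G' := fun Q h0 h2 => (zG' Q h0 h2).ep.et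
  have m1 : clL J L₀ (𝒞.Pf lam (dv (𝒞.cL lam) G')) ∈ H :=
    Chart.Pf_mem (p := p) hB hl (fun σ hσ => Chart.dv_gal (p := p) hB hl hle' hG' oG' aG' hσ)
      (fun Q hQ => by
        obtain ⟨h2, h3⟩ := (hG'.dv_ne_zero (𝒞.wt_crv _ hle')).1 hQ
        exact zG' Q h2.1 h3) hH
  have m2 : clL J L₀ (𝒞.Pf lam D) ∈ H := Chart.Pf_mem (p := p) hB hl (fun σ hσ => by
    have h2 := Chart.dv_gal (p := p) hB hl hle' hG oG aG hσ
    rw [hdv, map_add, ml1_inv hov hμm.ne_zero og hσ] at h2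
    exact add_right_cancel h2) hDg hH
  rw [← Chart.MRc (p := p) hB hl hle' hG hG' oG oG' fun Q h0 h2 =>
    h2.elim (zG Q h0) fun h3 => (zG' Q h0 h3).ep, hdv, map_add, map_add] at m1
  have m3 := (H.add_mem_cancel_left m2).1 m1
  rw [hZ, Finset.sum_image fun a _ b _ hab => hinj hab, map_sum, map_sum,
    Finset.sum_congr rfl (g := fun _ => clL J L₀ (Finsupp.single (𝒞.io y h) 1)) fun t _ => by
      rw [Chart.Pf_single]
      dsimp only
      rw [hls, hgs, Chart.io_gal ((hs t).mono hB), ← galC_single, clL_gal],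
    Finset.sum_const, Finset.card_univ, Fintype.card_fin] at m3
  rwa [clL_eq_nsmul hrk]

variable {O : Type} [CommRing O] [Algebra O K] {I : Ideal (MvPolynomial (Fin (N + 1)) O)}

theorem GoodModel.smul (hI : GoodModel O I) (hJ : J = I.map (MvPolynomial.map (algebraMap O K)))
    (v : Fin (N + 1) → Λ) (c : Λ) (h : OnX J v) : OnX J (c • v) := hI.onX_smul hJ v c h

theorem XP.exists_prim (hJ : ∀ (v : Fin (N + 1) → Λ) (c : Λ), OnX J v → OnX J (c • v))
    {y : PY Λ N} (hy : XP J L y) : ∃ P, PrimX J P ∧ (∀ i, P i ∈ L) ∧ y = pj P := by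
  obtain ⟨v, hv0, hv, hvL, rfl⟩ := hy
  obtain ⟨i, hi⟩ := Finite.exists_max fun i => ‖v i‖
  have h1 : ‖v‖ = ‖v i‖ :=
    le_antisymm ((pi_norm_le_iff_of_nonneg (norm_nonneg _)).2 hi) (norm_le_pi_norm v i)
  have h2 : v i ≠ 0 := by
    rw [← norm_ne_zero_iff, ← h1, norm_ne_zero_iff]
    exact hv0
  refine ⟨(v i)⁻¹ • v, ⟨hJ _ _ hv, ?_⟩, fun j => L.mul_mem (L.inv_mem (hvL i)) (hvL j),
    (pj_smul (inv_ne_zero h2) v).symm⟩
  rw [norm_smul, norm_inv, h1, inv_mul_cancel₀ (norm_ne_zero_iff.2 h2)]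

theorem mem_UU (hI : GoodModel O I) (hJ : J = I.map (MvPolynomial.map (algebraMap O K)))
    (hO : ∀ c : O, ‖algebraMap K Λ (algebraMap O K c)‖ ≤ 1) [FiniteDimensional K B]
    (T : Tower p B) {𝒞 : Chart J B} {Ξ : MvPolynomial (Fin (N + 1)) (OL B)} (hΞ : NV J Ξ)
    (hc : 𝒞.Covers Ξ) [FiniteDimensional K L] (hB : B ≤ L) {y : PY Λ N} (hy : XP J L y) :
    clL J L (Finsupp.single y 1) ∈ 𝒞.UU T := by
  obtain ⟨P, hP, hPL, rfl⟩ := hy.exists_prim fun v c h => hI.onX_smul hJ v c h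
  obtain ⟨n, hn, -, hnL, hres⟩ := T.exists_res (m := 1) one_pos (L := L) (T.U_one.le.trans hB)
  refine mem_of_coprime fun l hl => ?_
  obtain ⟨i, 𝒞', -, ⟨y', h', hE, hio, hmem⟩, hunit, -⟩ := exists_chart hI hJ hO T hΞ hP hn
    (fun a => by
      obtain ⟨c, hc, -, h⟩ := hres (P a) (hPL a) ((norm_le_pi_norm P a).trans hP.2.le)
      exact ⟨c, hc, h⟩) (l := l + 1) (Nat.succ_le_succ hl.one_le)
  have hj : 0 < (l + 1) ^ i := pow_pos l.succ_pos i
  obtain ⟨hfin, c, hcd, hrk⟩ := T.finrank_sup hn hj hnL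
  refine ⟨c, fun h => hl.one_lt.ne' (Nat.dvd_one.1 ((Nat.dvd_add_right dvd_rfl).1
    (hl.dvd_of_dvd_pow (h.trans hcd)))), ?_⟩
  rw [← clL_eq_nsmul hrk, hio]
  obtain ⟨n', hn', hdvd, hn'L, hres'⟩ := T.exists_res (Nat.mul_pos hn hj)
    (L := L ⊔ T.U (n * (l + 1) ^ i)) le_sup_right
  have hle := T.mono (Nat.mul_pos hn hj) hn' hdvd
  obtain ⟨hy', hh'⟩ := hmem (L ⊔ T.U (n * (l + 1) ^ i)) le_sup_right fun a =>
    (le_sup_left : L ≤ _) (hPL a)
  refine Chart.ML1 (p := p) hle hn'L hres' hE hy' hh' fun L'' y'' h'' hL'' hf hg => ?_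
  have hB'' : B ≤ L'' := (T.le n').trans hL''
  obtain ⟨y₁, h₁, hg₁, e₁⟩ := hc L'' (𝒞'.pv y'' h'') hB'' (fun a => eval₂_mem (fun u =>
    mv_mem (fun x => hL'' (hle x.2.1)) hg.y_mem u) hg.h_mem _) hg.gd.ep.primX (hunit _ _ hg.gd)
  rw [show 𝒞'.io y'' h'' = 𝒞.io y₁ h₁ from e₁]
  exact Chart.ML2_UU hB'' hg₁

end Pool.Agent.ZeroCyc
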