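import Pool.Agent.Lib.MP_796ce4_ag.ZY.GRa
import Pool.Agent.Lib.MP_796ce4_ag.ZY.Gen

/-! Block exchange: the function and the block divisors. -/

namespace Pool.Agent.ZeroCyc

open Polynomial Module
open scoped Classical IntermediateField PowerSeries

set_option linter.unusedSectionVars false

/-- the algebra behind the correction term -/
theorem bxa_alg {R : Type} [CommRing R] [IsLocalRing R]
    [IsAdicComplete (IsLocalRing.maximalIdeal R) R] {χ : R[X][X]} (hm : χ.Monic) {y : R}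
    (h0 : ee (0, y) χ ∈ IsLocalRing.maximalIdeal R) (h1 : IsUnit (ee (0, y) (derivative χ)))
    {μ μ' : R[X]} (hμ : μ.IsDistinguishedAt (IsLocalRing.maximalIdeal R))
    (hμ' : μ'.IsDistinguishedAt (IsLocalRing.maximalIdeal R)) :
    ∃ (η η' c : R[X]) (χ₂ : R[X][X]), η.eval 0 - y ∈ IsLocalRing.maximalIdeal R ∧
      η'.eval 0 - y ∈ IsLocalRing.maximalIdeal R ∧ μ' ∣ χ.eval η' ∧
      C μ ∣ χ - (X - C η) * χ₂ ∧ μ' ∣ c * χ₂.eval η' - 1 := by
  obtain ⟨η, e1, e2⟩ := exists_block hm h0 h1 hμ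
  obtain ⟨η', e1', e2'⟩ := exists_block hm h0 h1 hμ'
  have hdec : χ = C (χ.eval η) + (X - C η) * (χ /ₘ (X - C η)) := by
    rw [← modByMonic_X_sub_C_eq_C_eval, modByMonic_add_div]
  generalize χ /ₘ (X - C η) = χ₂ at hdec
  have hu : IsUnit ((χ₂.eval η').eval 0) := by
    by_contra hu
    have hu : (χ₂.eval η').eval 0 ∈ IsLocalRing.maximalIdeal R :=
      (IsLocalRing.mem_maximalIdeal _).2 hu
    have a1 : (χ₂.eval η').eval 0 = (χ₂.map (evalRingHom 0)).eval (η'.eval 0) :=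
      (eval_map_apply (evalRingHom (0 : R)) η').symm
    have a2 : ee (0, y) χ₂ ∈ IsLocalRing.maximalIdeal R := by
      rw [ee_eq_eval]
      obtain ⟨z, hz⟩ := sub_dvd_eval_sub (η'.eval 0) y (χ₂.map (evalRingHom 0))
      have : (χ₂.map (evalRingHom 0)).eval y = (χ₂.eval η').eval 0 - (η'.eval 0 - y) * z := by
        rw [a1, ← hz]; ring
      rw [this]
      exact sub_mem hu (Ideal.mul_mem_right _ _ e1')
    have a3 : ee (0, y) (derivative χ) =
        ee (0, y) χ₂ - (η.eval 0 - y) * ee (0, y) (derivative χ₂) := by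
      rw [hdec, derivative_add, derivative_C, derivative_mul, derivative_X_sub_C, zero_add,
        one_mul, map_add, map_mul, map_sub, ee_X, ee_C]
      ring
    have a4 : ee (0, y) (derivative χ) ∈ IsLocalRing.maximalIdeal R := by
      rw [a3]
      exact sub_mem a2 (Ideal.mul_mem_right _ _ e1)
    exact (IsLocalRing.mem_maximalIdeal _).1 a4 h1
  obtain ⟨c, -, hc⟩ := exists_inv_mod hμ' hu
  refine ⟨η, η', c, χ₂, e1, e1', e2', ?_, hc⟩
  have : χ - (X - C η) * χ₂ = C (χ.eval η) := by rw [sub_eq_iff_eq_add]; exact hdec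
  rw [this]
  exact _root_.map_dvd C e2

theorem bxa_sum_apply {A : Type} (f : A → A) (s : Multiset A) (Q : A × A) :
    (s.map fun t => Finsupp.single (t, f t) (1 : ℤ)).sum Q =
      if Q.2 = f Q.1 then (s.count Q.1 : ℤ) else 0 := by
  obtain ⟨t₀, h⟩ := Q
  induction s using Multiset.induction_on with
  | empty => simp
  | cons a s ih =>
    rw [Multiset.map_cons, Multiset.sum_cons, Finsupp.add_apply, ih, Finsupp.single_apply,
      Multiset.count_cons]
    by_cases h1 : a = t₀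
    · subst h1
      by_cases h2 : h = f a
      · simp [h2, add_comm]
      · simp [h2, Ne.symm h2]
    · simp [h1, Ne.symm h1]

theorem bxa_map_eval {R S : Type} [CommRing R] [CommRing S] (φ : R →+* S) (a : R[X][X])
    (η : R[X]) : (a.eval η).map φ = (mp φ a).eval (η.map φ) :=
  (map_mapRingHom_eval_map φ a η).symm

theorem bxa_van_C {𝕜 : Type} [Field 𝕜] (χ : 𝕜[X][X]) (Q : 𝕜 × 𝕜) {u : 𝕜[X]} (hu : u ≠ 0) :
    Van χ Q (u.rootMultiplicity Q.1) (C u) := (oq_C χ Q hu).2 ▸ van_oq χ Q (C u)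

theorem bxa_van_mul {𝕜 : Type} [Field 𝕜] (χ : 𝕜[X][X]) (Q : 𝕜 × 𝕜) {μ : 𝕜[X]} (hμ : μ ≠ 0)
    (u : 𝕜[X]) : Van χ Q (μ.rootMultiplicity Q.1) (C (μ * u)) := by
  rw [mul_comm, map_mul]
  exact (bxa_van_C χ Q hμ).mul_left _

theorem bxa_van_main {𝕜 : Type} [Field 𝕜] {χ a : 𝕜[X][X]} {Q : 𝕜 × 𝕜} {μ' u : 𝕜[X]} (hμ : μ' ≠ 0)
    (μ : 𝕜[X]) (h : Van χ Q (μ'.rootMultiplicity Q.1) (a - C u)) :
    Van χ Q (μ'.rootMultiplicity Q.1) (C (μ * u) + C (μ' - μ) * a) := by
  have : C (μ * u) + C (μ' - μ) * a = C (μ' * u) + C (μ' - μ) * (a - C u) := by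
    simp only [map_mul, map_sub]
    ring
  rw [this]
  exact (bxa_van_mul χ Q hμ u).add (h.mul_left _)

variable {p : ℕ} {K Λ : Type} [Field K] [CharZero K] [NormedField Λ] [IsUltrametricDist Λ]
  [IsAlgClosed Λ] [Algebra K Λ] [IsGalois K Λ] [Loc p K Λ] [Fact p.Prime] [CharP (kk Λ) p]

variable {N : ℕ} {J : Ideal (MvPolynomial (Fin (N + 1)) K)} {B : IntermediateField K Λ}
  {ι : Type} [Fintype ι]

namespace Chart

variable {𝒞 : Chart J B}

variable (𝒞) in
/-- the points of the plane curve in a residue disc over the roots of `μ` -/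
noncomputable def bz (h₀ : Λ) (lam : Fin 𝒞.d → Λ[X]) (μ : Λ[X]) : Λ × Λ →₀ ℤ :=
  (μ.roots.map fun t => Finsupp.single (t, 𝒞.hen h₀ fun i => (lam i).eval t) (1 : ℤ)).sum

theorem Pf_bz (h₀ : Λ) (lam : Fin 𝒞.d → Λ[X]) (μ : Λ[X]) :
    𝒞.Pf lam (𝒞.bz h₀ lam μ) = 𝒞.blk h₀ lam μ := by
  rw [bz, blk, map_multiset_sum, map_multiset_sum, Multiset.map_map, Multiset.map_map]
  congr 1
  refine Multiset.map_congr rfl fun t _ => ?_
  rw [Function.comp_apply, Function.comp_apply, Pf_single, Jm_sg]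

theorem bz_apply (h₀ : Λ) (lam : Fin 𝒞.d → Λ[X]) (μ : Λ[X]) (Q : Λ × Λ) : 𝒞.bz h₀ lam μ Q =
    if Q.2 = 𝒞.hen h₀ fun i => (lam i).eval Q.1 then (μ.rootMultiplicity Q.1 : ℤ) else 0 := by
  rw [bz, bxa_sum_apply (fun t => 𝒞.hen h₀ fun i => (lam i).eval t), count_roots]

theorem degree_bz (h₀ : Λ) (lam : Fin 𝒞.d → Λ[X]) (μ : Λ[X]) :
    (𝒞.bz h₀ lam μ).degree = μ.natDegree := by
  rw [bz, map_multiset_sum, Multiset.map_map, ← IsAlgClosed.card_roots_eq_natDegree]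
  simp

variable {T : Tower p B} {n : ℕ} {k : ι → ℕ} {lam : Fin 𝒞.d → (CU T n k)[X]} {h₀ : Λ}
  {μ μ' : (OL (T.U n))[X]} {k₁ : ℕ}

theorem bxa_near (hk : ∀ i, 0 < k i) (A : Finset ι) {η : (CU T n k)[X]} {t : Λ} (ht : ‖t‖ < 1)
    (h : ‖evA ∅ (η.eval 0) - h₀‖ < 1) : ‖(η.map (evA A)).eval t - h₀‖ < 1 := by
  have hi : Intg (η.map (evA A)) := fun j => by
    rw [coeff_map]; exact (evA_mem A _).2
  have a1 : ‖(η.map (evA A)).eval t - (η.map (evA A)).eval 0‖ < 1 :=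
    (hi.eval_sub_le ht.le (by simp)).trans_lt (by simpa using ht)
  have a2 : (η.map (evA A)).eval 0 = evA A (η.eval 0) := by
    rw [← eval_map_apply (evA A) 0, map_zero]
  rw [a2] at a1
  exact tow_tri a1 (tow_tri (evA_sub_lt hk A _) h)

theorem bxa_y (hk : ∀ i, 0 < k i) (A : Finset ι) {t : Λ} (ht : ‖t‖ < 1) (i : Fin 𝒞.d) :
    ‖(lA lam A i).eval t - (lA lam ∅ i).eval 0‖ < 1 :=
  eval_lA_sub hk A i (by simp) (by simpa using ht)

/-- the correction term, before multiplication by `μ' - μ` -/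
theorem exists_corr (hn : 0 < n) (hk : ∀ i, 0 < k i) {e : ℕ} (he : ∀ i, (lam i).natDegree ≤ e)
    (hg : 𝒞.GdL (T.U n) (fun i => (lA lam ∅ i).eval 0) h₀) (hμ : Dist μ) (hμ' : Dist μ') :
    ∃ M : ℕ, ∀ u : (OL (T.U n))[X], ∃ a : (CU T n k)[X][X], WL (𝒞.b * e) 0 M a ∧ ∀ A t,
      (μ'.eval₂ (OL _).subtype t = 0 →
        Van (𝒞.cL (lA lam A)) (t, 𝒞.hen h₀ fun i => (lA lam A i).eval t)
          ((μ'.map (OL _).subtype).rootMultiplicity t)
          (mp (evA A) a - C (u.map (OL _).subtype))) ∧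
      ∀ η, μ.eval₂ (OL _).subtype t = 0 → On (𝒞.cL (lA lam A)) (t, η) → ¬‖η - h₀‖ < 1 →
        Van (𝒞.cL (lA lam A)) (t, η) ((μ.map (OL _).subtype).rootMultiplicity t)
          (mp (evA A) a) := by
  have := T.fin n hn
  obtain ⟨_, hcomp, hmax, hunit⟩ := CR_local (T.U n) T.π_lt T.π_ne hk
  let cs : OL (T.U n) →+* CU T n k := cstC T.π_lt k
  have hcs (A : Finset ι) (x : OL (T.U n)) : evA A (cs x) = x :=
    RingHom.congr_fun (evA_cstC (hπ := T.π_lt) (k := k) A) x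
  have hcm (A : Finset ι) (f : (OL (T.U n))[X]) :
      (f.map cs).map (evA A) = f.map (OL _).subtype := by rw [Polynomial.map_map, evA_cstC]
  let φ : OL B →+* CU T n k := cs.comp (inc (T.le n))
  have hφ (A : Finset ι) : (evA A).comp φ = (OL B).subtype := by
    rw [← RingHom.comp_assoc, evA_cstC, subtype_inc]
  have hχ (A : Finset ι) (f : MP 𝒞.d (OL B)) :
      mp (evA A) (cv φ lam f) = cv (OL B).subtype (lA lam A) f := by
    rw [mp_cv, hφ]; rfl
  have hm : (cv φ lam 𝒞.χ).Monic := (𝒞.wt_crv φ he).monic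
  have hmA (A : Finset ι) : (𝒞.cL (lA lam A)).Monic :=
    (𝒞.wt_crv _ (natDegree_lA he A)).monic
  let y₀ : CU T n k := cs ⟨h₀, hg.h_mem, hg.gd.h_le⟩
  have hy₀ : evA ∅ y₀ = h₀ := hcs ∅ _
  have hee (f : MP 𝒞.d (OL B)) : evA ∅ (ee (0, y₀) (cv φ lam f)) =
      ev2 (OL B).subtype (fun i => (lA lam ∅ i).eval 0) h₀ f := by
    rw [map_ee, hχ, ee_cv]
    simp only [pm, Prod.map, map_zero, hy₀]
  have hD {ν : (OL (T.U n))[X]} (hν : Dist ν) :=
    hν.isDistinguishedAt cs fun x hx => (hmax _).2 (by rwa [hcs])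
  obtain ⟨η, η', c, χ₂, e1, e1', e2, e3, e4⟩ := bxa_alg hm (y := y₀)
    ((hmax _).2 (by rw [hee, hg.gd.on]; simp))
    ((hunit _).2 (by rw [← cv_derivative, hee, hg.gd.ep.der])) (hD hμ) (hD hμ')
  rw [hmax, map_sub, hy₀] at e1 e1'
  obtain ⟨M, hM⟩ := exists_WL (𝒞.b * e) 0 χ₂
  refine ⟨M + (μ'.map cs).natDegree, fun u => ⟨C ((u.map cs * c) %ₘ μ'.map cs) * χ₂,
    hM.C_mul (natDegree_modByMonic_le _ (hμ'.monic.map cs)), fun A t => ⟨fun ht => ?_,
      fun h ht hon hne => ?_⟩⟩⟩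
  · have ht1 := hμ'.root_lt ht
    have hy := bxa_y (lam := lam) hk A ht1
    have d0 : μ'.map (OL _).subtype ∣ (𝒞.cL (lA lam A)).eval (η'.map (evA A)) := by
      have := Polynomial.map_dvd (evA A) e2
      rwa [hcm, bxa_map_eval, hχ] at this
    have hon : On (𝒞.cL (lA lam A)) (t, (η'.map (evA A)).eval t) := by
      obtain ⟨z, hz⟩ := d0
      have := eval_map_apply (p := 𝒞.cL (lA lam A)) (evalRingHom t) (η'.map (evA A))
      rw [hz, map_mul, coe_evalRingHom, eval_map (p := μ'), ht, zero_mul] at this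
      rw [On, ee_eq_eval]
      exact this
    have hon' := on_cL.1 hon
    have hh := hg.gd.ep.hen_eq hy (bxa_near hk A ht1 e1') hon'
    have het := Ep.et (lam := lA lam A) (Q := (t, _)) (hg.gd.hen hy).ep
    refine van_of_dvd (hmA A) het
      (hμ'.monic.map _).ne_zero (η := η'.map (evA A)) hh.symm d0 ?_
    have d1 : μ'.map cs ∣ (C ((u.map cs * c) %ₘ μ'.map cs) * χ₂ - C (u.map cs)).eval η' := by
      have : (C ((u.map cs * c) %ₘ μ'.map cs) * χ₂ - C (u.map cs)).eval η' =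
          ((u.map cs * c) %ₘ μ'.map cs - u.map cs * c) * χ₂.eval η' +
            u.map cs * (c * χ₂.eval η' - 1) := by
        rw [eval_sub, eval_mul, eval_C, eval_C]; ring
      rw [this]
      exact dvd_add ((dvd_modByMonic_sub _ _).mul_right _) (e4.mul_left _)
    have := Polynomial.map_dvd (evA A) d1
    rwa [hcm, bxa_map_eval, map_sub, mp_C, hcm] at this
  · have ht1 := hμ.root_lt ht
    have hy := bxa_y (lam := lam) hk A ht1
    have d0 : C (μ.map (OL _).subtype) ∣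
        𝒞.cL (lA lam A) - (X - C (η.map (evA A))) * mp (evA A) χ₂ := by
      have := _root_.map_dvd (mp (evA A)) e3
      rwa [mp_C, hcm, map_sub, map_mul, map_sub, mp_C, hχ, coe_mapRingHom (mapRingHom _),
        map_X, ← coe_mapRingHom] at this
    rw [map_mul]
    have hon' := on_cL.1 hon
    have het := Ep.et (lam := lA lam A) (Q := (t, h)) (hg.gd.congr hy hon').ep
    refine (van_of_cofactor (hmA A) het
      (hμ.monic.map _).ne_zero (fun e => hne ?_) d0).mul_left _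
    have := bxa_near hk A ht1 e1
    rwa [e] at this

/-- the value of a sum of blocks over incongruent points -/
theorem bxa_sum (hk : ∀ i, 0 < k i) (A : Finset ι) {S : Finset Λ}
    (hS : ∀ a ∈ S, 𝒞.Gd (fun i => (lA lam ∅ i).eval 0) a)
    (hS' : ∀ a ∈ S, ∀ a' ∈ S, ‖a - a'‖ < 1 → a = a') {ν : Λ → (OL (T.U n))[X]}
    (hν : ∀ a, Dist (ν a)) {Q : Λ × Λ}
    (hQ : (∑ a ∈ S, 𝒞.bz a (lA lam A) ((ν a).map (OL _).subtype)) Q ≠ 0) :
    ∃ a ∈ S, (ν a).eval₂ (OL _).subtype Q.1 = 0 ∧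
      Q.2 = (𝒞.hen a fun i => (lA lam A i).eval Q.1) ∧ ‖Q.2 - a‖ < 1 ∧
      𝒞.Gd (fun i => (lA lam A i).eval Q.1) Q.2 ∧
      ((∑ a ∈ S, 𝒞.bz a (lA lam A) ((ν a).map (OL _).subtype)) Q).toNat =
        ((ν a).map (OL _).subtype).rootMultiplicity Q.1 := by
  rw [Finsupp.finsetSum_apply] at hQ ⊢
  obtain ⟨a, ha, h1⟩ := Finset.exists_ne_zero_of_sum_ne_zero hQ
  rw [bz_apply] at h1
  have h2 : Q.2 = 𝒞.hen a fun i => (lA lam A i).eval Q.1 := by
    by_contra h; exact h1 (if_neg h)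
  have h3 : (ν a).eval₂ (OL _).subtype Q.1 = 0 := by
    by_contra h
    refine h1 ?_
    rw [if_pos h2, rootMultiplicity_eq_zero (by rwa [IsRoot, eval_map]), Nat.cast_zero]
  have hy := bxa_y (lam := lam) hk A ((hν a).root_lt h3)
  have h4 : ‖Q.2 - a‖ < 1 := h2 ▸ ((hS a ha).ep.hen_spec hy).2
  refine ⟨a, ha, h3, h2, h4, h2 ▸ (hS a ha).hen hy, ?_⟩
  rw [Finset.sum_eq_single_of_mem a ha, bz_apply, if_pos h2, Int.toNat_natCast]
  intro a' ha' hne
  rw [bz_apply, if_neg]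
  intro h5
  have h6 : ‖Q.2 - a'‖ < 1 := h5 ▸ ((hS a' ha').ep.hen_spec hy).2
  exact hne (hS' a' ha' a ha (tow_tri (tow_symm h6) h4))

theorem exists_GRD (hn : 0 < n) (hk : ∀ i, 0 < k i)
    (hg : 𝒞.GdL (T.U n) (fun i => (lA lam ∅ i).eval 0) h₀) (hμ : Dist μ) (hμ' : Dist μ')
    (hd : μ'.natDegree = μ.natDegree) (hk₁ : 0 < k₁)
    (hc : ∀ i, ‖((μ' - μ).coeff i : Λ)‖ ≤ ‖T.π‖ ^ k₁) :
    ∃ (lam' : Fin 𝒞.d → (CU T n fun o : Option ι => o.elim k₁ k)[X]) (e : ℕ)
      (G : (CU T n fun o : Option ι => o.elim k₁ k)[X][X]) (u : (OL (T.U n))[X])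
      (Z : Finset (Option ι) → Λ × Λ →₀ ℤ), 𝒞.GRD lam' e G μ u Z ∧
      (∀ A, lA lam' A = lA lam (Finset.eraseNone A)) ∧ ∀ A : Finset ι,
        Z (Finset.insertNone A) - Z (A.map Function.Embedding.some) =
          𝒞.bz h₀ (lA lam A) (μ'.map (OL _).subtype) -
            𝒞.bz h₀ (lA lam A) (μ.map (OL _).subtype) := by
  let e : ℕ := Finset.univ.sup fun i => (lam i).natDegree
  have he (i : Fin 𝒞.d) : (lam i).natDegree ≤ e :=
    Finset.le_sup (f := fun i => (lam i).natDegree) (Finset.mem_univ i)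
  obtain ⟨M, hM⟩ := exists_corr hn hk he hg hμ hμ'
  obtain ⟨E, hE⟩ := exists_optC (L := T.U n) T.π_lt k k₁
  have hl (A : Finset (Option ι)) :
      lA (T := T) (n := n) (fun i => (lam i).map E) A = lA lam (Finset.eraseNone A) := by
    funext i
    simp only [lA, Polynomial.map_map, hE]
  choose lam₀ hlam₀ using fun i =>
    exists_OL_poly (over_lA (lam := lam) ∅ i).1 (over_lA (lam := lam) ∅ i).2
  have hρ : (𝒞.rho (inc (T.le n)) lam₀).map (OL _).subtype =
      𝒞.rho (OL B).subtype (lA lam ∅) := by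
    rw [map_rho, subtype_inc]
    exact congrArg _ (funext fun i => (hlam₀ i).1)
  generalize 𝒞.rho (inc (T.le n)) lam₀ = ρ at hρ
  have hρ0 : (X * ρ).map (rL _) ≠ 0 := by
    rw [Polynomial.map_mul, map_X]
    refine mul_ne_zero X_ne_zero fun h => ?_
    have a1 := eval_map_apply (p := ρ) (rL _) 0
    have a2 := eval_map_apply (p := ρ) (OL _).subtype 0
    rw [h, eval_zero, rL_apply] at a1
    rw [hρ, map_zero, eval_rho] at a2
    exact rs_ne_zero.2 ((congrArg norm a2).symm.trans hg.gd.unit) a1.symm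
  obtain ⟨u, hu, huM, hsep⟩ := T.exists_sep hn hρ0 M
  obtain ⟨a, haW, ha⟩ := hM u
  obtain ⟨g, hgd, hgA⟩ := exists_ind_poly (k := fun o : Option ι => o.elim k₁ k) T.π_lt none hc
  obtain ⟨S, hS1, hS2, hS3, hS4⟩ := hg.gd.fibre
  let cs : OL (T.U n) →+* CU T n fun o : Option ι => o.elim k₁ k := cstC T.π_lt _
  have : Nontrivial (CU T n fun o : Option ι => o.elim k₁ k) := (evA ∅).domain_nontrivial
  have hG (A : Finset (Option ι)) : mp (evA A) (C ((μ * u).map cs) + C g * mp E a) =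
      C (μ.map (OL _).subtype * u.map (OL _).subtype) + C (g.map (evA A)) *
        mp (evA (Finset.eraseNone A)) a := by
    rw [map_add, map_mul, mp_C, mp_C, mp_mp, hE, Polynomial.map_map, evA_cstC, Polynomial.map_mul]
  have hg1 {A : Finset (Option ι)} (hA : none ∈ A) :
      g.map (evA A) = μ'.map (OL _).subtype - μ.map (OL _).subtype := by
    rw [hgA, if_pos hA, Polynomial.map_sub]
  have hg0 {A : Finset (Option ι)} (hA : none ∉ A) : g.map (evA A) = 0 := by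
    rw [hgA, if_neg hA]
  let ν : Finset (Option ι) → Λ → (OL (T.U n))[X] := fun A h' =>
    if h' = h₀ ∧ none ∈ A then μ' else μ
  have hν (A : Finset (Option ι)) (h' : Λ) :
      Dist (ν A h') ∧ (ν A h').natDegree = μ.natDegree := by
    simp only [ν]
    split_ifs
    exacts [⟨hμ', hd⟩, ⟨hμ, rfl⟩]
  have hk' : ∀ o : Option ι, 0 < o.elim k₁ k := fun o => by
    cases o
    exacts [hk₁, hk _]
  refine ⟨fun i => (lam i).map E, e, C ((μ * u).map cs) + C g * mp E a, u, fun A =>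
    ∑ h' ∈ S, 𝒞.bz h' (lA lam (Finset.eraseNone A)) ((ν A h').map (OL _).subtype),
    ⟨hn, hk', fun i => natDegree_map_le.trans (he i), hμ.monic, hu, ?_, ?_, fun τ h1 h2 => ?_,
      fun A Q hQ => ?_, fun A => ?_, fun A Q hQ => ?_⟩, hl, fun A => ?_⟩
  · have := lead_C (b := 𝒞.b * e) ((hμ.monic.mul hu).map cs)
    rw [(hμ.monic.mul hu).natDegree_map, hμ.monic.natDegree_mul hu] at this
    refine this.add (((haW.map E).C_mul (k := μ.natDegree) ?_).mono (by omega))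
    exact (natDegree_le_natDegree hgd).trans ((natDegree_sub_le _ _).trans (max_le hd.le le_rfl))
  · rw [hG, hg0 (Finset.notMem_empty _), map_zero, zero_mul, add_zero, Polynomial.map_mul]
  · obtain ⟨b1, b2⟩ := hsep τ h1 h2
    have b3 : ‖ρ.eval₂ (OL _).subtype τ‖ ≤ 1 := norm_eval₂_le (fun c => c.2.2) h1 ρ
    rw [eval₂_mul, eval₂_X, norm_mul] at b1
    have b4 : ‖τ‖ = 1 := le_antisymm h1 (by nlinarith [norm_nonneg τ])
    rw [b4, one_mul, ← eval_map, hρ] at b1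
    rw [hl, Finset.eraseNone_empty]
    exact ⟨b1, b2, hμ.norm_eval b4⟩
  · obtain ⟨h', m1, m2, m3, m4, m5, m6⟩ := bxa_sum hk _ hS3 hS4 (fun x => (hν A x).1) hQ
    rw [hl, m6, hG]
    have het := Ep.et m5.ep
    refine ⟨het, ?_⟩
    by_cases hA : none ∈ A
    · rw [hg1 hA]
      by_cases hh : h' = h₀
      · have hv : ν A h' = μ' := if_pos ⟨hh, hA⟩
        rw [hv] at m2 ⊢
        have b1 := (ha (Finset.eraseNone A) Q.1).1 m2
        rw [← hh, ← m3, Prod.mk.eta] at b1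
        exact bxa_van_main (hμ'.monic.map _).ne_zero _ b1
      · have hv : ν A h' = μ := if_neg fun h => hh h.1
        rw [hv] at m2 ⊢
        have b1 := (ha (Finset.eraseNone A) Q.1).2 Q.2 m2 het.1
          fun h => hh (hS4 h' m1 h₀ hS2 (tow_tri (tow_symm m4) h))
        rw [Prod.mk.eta] at b1
        exact (bxa_van_mul _ Q (hμ.monic.map _).ne_zero _).add (b1.mul_left _)
    · have hv : ν A h' = μ := if_neg fun h => hA h.2
      rw [hv, hg0 hA, map_zero, zero_mul, add_zero]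
      exact bxa_van_mul _ Q (hμ.monic.map _).ne_zero _
  · rw [map_sum, Finset.sum_congr rfl fun h' _ => (degree_bz h' _ _).trans
      (congrArg _ (((hν A h').1.monic.natDegree_map _).trans (hν A h').2)), Finset.sum_const,
      hS1, nsmul_eq_mul]
  · obtain ⟨h', m1, m2, m3, m4, m5, m6⟩ := bxa_sum hk _ hS3 hS4 (fun x => (hν A x).1) hQ
    rw [hl]
    refine ⟨m5, ?_⟩
    have b1 := (hν A h').1.root_lt m2
    by_cases hh : h' = h₀ ∧ none ∈ A
    · have hv : ν A h' = μ' := if_pos hh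
      rw [hv] at m2
      have b2 : ‖((μ' - μ).map (OL _).subtype).eval Q.1‖ < 1 := tow_eval_lt (fun j => by
        rw [coeff_map]
        exact (hc j).trans_lt (pow_lt_one₀ (norm_nonneg _) T.π_lt hk₁.ne')) b1.le
      rwa [eval_map, eval₂_sub, m2, zero_sub, norm_neg] at b2
    · have hv : ν A h' = μ := if_neg hh
      rw [hv] at m2
      rw [m2]; simp
  · simp only [Finset.eraseNone_insertNone, Finset.eraseNone_map_some]
    rw [← Finset.sum_sub_distrib, Finset.sum_eq_single_of_mem h₀ hS2]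
    · simp [ν]
    · intro h' _ hne
      simp [ν, hne]

end Chart

end Pool.Agent.ZeroCyc
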