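import Pool.Agent.Lib.MP_796ce4_ag.ZY.Defs

/-!
Internal definitions: the local setting, unramified towers.
-/

namespace Pool.Agent.ZeroCyc

open Polynomial Module
open scoped Classical IntermediateField

/-- What is used of a `p`-adic field `K` and its normed algebraic closure `Λ`. -/
class Loc (p : outParam ℕ) (K Λ : Type) [Field K] [NormedField Λ] [Algebra K Λ] : Prop where
  prime : p.Prime
  norm_p : ‖(p : Λ)‖ < 1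
  norm_gal : ∀ (σ : Λ ≃ₐ[K] Λ) (x : Λ), ‖σ x‖ = ‖x‖
  complete : ∀ L : IntermediateField K Λ, FiniteDimensional K L → IsComplete (L : Set Λ)
  unif : ∀ L : IntermediateField K Λ, FiniteDimensional K L →
    ∃ ϖ ∈ L, ϖ ≠ 0 ∧ ‖ϖ‖ < 1 ∧ ∀ x ∈ L, ‖x‖ < 1 → ‖x‖ ≤ ‖ϖ‖
  resfin : ∀ L : IntermediateField K Λ, FiniteDimensional K L →
    ∃ s : Finset Λ, (∀ t ∈ s, t ∈ L ∧ ‖t‖ ≤ 1) ∧ ∀ x ∈ L, ‖x‖ ≤ 1 → ∃ t ∈ s, ‖x - t‖ < 1

section field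

variable {K Λ : Type} [Field K] [Field Λ] [Algebra K Λ]

/-- `σ` fixes `L` pointwise -/
def Fix (L : IntermediateField K Λ) (σ : Λ ≃ₐ[K] Λ) : Prop := ∀ x ∈ L, σ x = x

/-- the polynomial has coefficients in `L` -/
def Over (L : IntermediateField K Λ) (g : Λ[X]) : Prop := ∀ n, g.coeff n ∈ L

/-- A finite family of automorphisms over `L` that realises the `L`-embeddings of `L'`. -/
structure Fam (L L' : IntermediateField K Λ) {T : Type} [Fintype T] (s : T → Λ ≃ₐ[K] Λ) :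
    Prop where
  le : L ≤ L'
  fix : ∀ t, Fix L (s t)
  card : Fintype.card T * finrank K L = finrank K L'
  perm : ∀ σ, Fix L σ → ∃ ρ : Equiv.Perm T, ∀ t, ∀ x ∈ L', σ (s t x) = s (ρ t) x

end field

/-- multiples `m • x`, `x ∈ H` -/
def mulS {A : Type} [AddCommGroup A] (m : ℕ) (H : AddSubgroup A) : AddSubgroup A :=
  H.map (nsmulAddMonoidHom m)

section normed

variable {K Λ : Type} [Field K] [NormedField Λ] [Algebra K Λ]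

/-- integral coefficients -/
def Intg (g : Λ[X]) : Prop := ∀ n, ‖g.coeff n‖ ≤ 1

/-- The tower of unramified extensions `U n` of `L`, with a Frobenius `φ` and a uniformiser `π`. -/
structure Tower (p : ℕ) (L : IntermediateField K Λ) where
  r : ℕ
  φ : Λ ≃ₐ[K] Λ
  U : ℕ → IntermediateField K Λ
  r_pos : 0 < r
  φ_fix : Fix L φ
  φ_pow : ∀ x : Λ, ‖x‖ ≤ 1 → ‖φ x - x ^ p ^ r‖ < 1
  le : ∀ n, L ≤ U n
  fin : ∀ n, 0 < n → FiniteDimensional K (U n)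
  rank : ∀ n, 0 < n → finrank K (U n) = n * finrank K L
  fix_U : ∀ n, 0 < n → Fix (U n) (φ ^ n)
  mem_U : ∀ n N, 0 < n → 0 < N → ∀ x ∈ U N, (φ ^ n) x = x → x ∈ U n
  perm : ∀ n, 0 < n → ∀ σ, Fix L σ → ∃ j : ℕ, ∀ x ∈ U n, σ x = (φ ^ j) x
  stab : ∀ n, 0 < n → ∀ x ∈ U n, φ x ∈ U n
  lift : ∀ n, 0 < n → ∀ x : Λ, ‖x‖ ≤ 1 → ‖x ^ p ^ (r * n) - x‖ < 1 → ∃ t ∈ U n, ‖x - t‖ < 1
  alg : ∀ x : Λ, ‖x‖ ≤ 1 → ∃ n, 0 < n ∧ ‖x ^ p ^ (r * n) - x‖ < 1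
  unr : ∀ n, 0 < n → ∀ x ∈ U n, ∃ y ∈ L, ‖x‖ = ‖y‖
  π : Λ
  π_mem : π ∈ L
  π_ne : π ≠ 0
  π_lt : ‖π‖ < 1
  π_max : ∀ x ∈ L, ‖x‖ < 1 → ‖x‖ ≤ ‖π‖

end normed

end Pool.Agent.ZeroCyc
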