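import Pool.Agent.Lib.MP_796ce4_ag.ZY.ChA
import Pool.Agent.Lib.MP_796ce4_ag.ZY.ChB

/-! Noether normalisation by linear forms. -/

namespace Pool.Agent.ZeroCyc

open Polynomial Module
open scoped Classical IntermediateField PowerSeries

set_option linter.unusedSectionVars false

variable {S R κ ι : Type} [CommRing S] [CommRing R] [Algebra S R] [Field κ] {M : ℕ}

/-- the ring is integral over the linear forms, which are injective on the given subspaces -/
structure NGood (r : S →+* κ) (x : Fin M → R) (T : ι → Submodule κ (Fin M → κ)) {m : ℕ}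
    (L : Fin m → Fin M → S) : Prop where
  int : (MvPolynomial.aeval fun j => lv (algebraMap S R) (L j) x :
    MvPolynomial (Fin m) S →ₐ[S] R).toRingHom.IsIntegral
  inj : ∀ k, ∀ w ∈ T k, (∀ j, lv r (L j) w = 0) → w = 0

variable {r : S →+* κ} {x : Fin M → R} {T : ι → Submodule κ (Fin M → κ)}

/-- projection from a point off a hypersurface is finite -/
theorem nn_int {m e : ℕ} {f : Fin (m + 1) → R}
    (hf : (MvPolynomial.aeval f : MvPolynomial (Fin (m + 1)) S →ₐ[S] R).toRingHom.IsIntegral)
    {F : MvPolynomial (Fin (m + 1)) S} (hF : F.IsHomogeneous e) (h0 : MvPolynomial.aeval f F = 0)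
    {c : Fin (m + 1) → S} (hc : IsUnit (MvPolynomial.eval c F)) (hl : IsUnit (c (Fin.last m))) :
    (MvPolynomial.aeval fun j : Fin m => algebraMap S R (c (Fin.last m)) * f j.castSucc -
      algebraMap S R (c j.castSucc) * f (Fin.last m) :
        MvPolynomial (Fin m) S →ₐ[S] R).toRingHom.IsIntegral := by
  obtain ⟨u, hu⟩ := hl.exists_left_inv
  obtain ⟨v, hv⟩ := hc.exists_left_inv
  set φ : MvPolynomial (Fin m) S →+* R := (MvPolynomial.aeval fun j : Fin m =>
    algebraMap S R (c (Fin.last m)) * f j.castSucc - algebraMap S R (c j.castSucc) * f (Fin.last m) :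
      MvPolynomial (Fin m) S →ₐ[S] R).toRingHom with hφ
  have hC : ∀ s, φ (MvPolynomial.C s) = algebraMap S R s := fun s => by simp [hφ]
  have hu' : algebraMap S R u * algebraMap S R (c (Fin.last m)) = 1 := by
    rw [← map_mul, hu, map_one]
  let a : Fin (m + 1) → MvPolynomial (Fin m) S :=
    Fin.lastCases 0 fun j => MvPolynomial.C u * MvPolynomial.X j
  have ha : ∀ j, φ (a j) + algebraMap S R (c j) * (algebraMap S R u * f (Fin.last m)) = f j := by
    intro j
    refine Fin.lastCases ?_ (fun j => ?_) j
    · simp only [a, Fin.lastCases_last, map_zero, zero_add]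
      linear_combination f (Fin.last m) * hu'
    · have e : φ (MvPolynomial.X j) = algebraMap S R (c (Fin.last m)) * f j.castSucc -
          algebraMap S R (c j.castSucc) * f (Fin.last m) := by simp [hφ]
      simp only [a, Fin.lastCases_castSucc, map_mul, hC, e]
      linear_combination f j.castSucc * hu'
  obtain ⟨h1, h2⟩ := homog_top hF (MvPolynomial.C : S →+* MvPolynomial (Fin m) S) a
    fun j => MvPolynomial.C (c j)
  set Φ := MvPolynomial.eval₂ (C.comp (MvPolynomial.C : S →+* MvPolynomial (Fin m) S))
    (fun j => C (a j) + C (MvPolynomial.C (c j)) * X) F with hΦ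
  have h3 : Φ.coeff e = MvPolynomial.C (MvPolynomial.eval c F) := by
    rw [h2, MvPolynomial.eval, MvPolynomial.coe_eval₂Hom, MvPolynomial.eval₂_comp_left]
    rfl
  have h4 : Φ.eval₂ φ (algebraMap S R u * f (Fin.last m)) = 0 := by
    rw [← coe_eval₂RingHom, hΦ, MvPolynomial.eval₂_comp_left, ← h0, MvPolynomial.aeval_def]
    congr 1
    · ext s
      simp [hC]
    · funext j
      simp only [Function.comp, map_add, map_mul, coe_eval₂RingHom, eval₂_C, eval₂_X, hC]
      exact ha j
  have ht : φ.IsIntegralElem (algebraMap S R u * f (Fin.last m)) := by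
    refine ⟨C (MvPolynomial.C v) * Φ, monic_of_natDegree_le_of_coeff_eq_one e
      ((natDegree_C_mul_le _ _).trans h1) ?_, ?_⟩
    · rw [coeff_C_mul, h3, ← map_mul, hv, map_one]
    · rw [eval₂_mul, h4, mul_zero]
  have hS : ∀ s, φ.IsIntegralElem (algebraMap S R s) := fun s => hC s ▸ φ.isIntegralElem_map
  have hj : ∀ j, φ.IsIntegralElem (f j) := fun j =>
    ha j ▸ (φ.isIntegralElem_map).add φ ((hS _).mul φ ht)
  refine isIntegral_of_elem hf fun b => ?_
  induction b using MvPolynomial.induction_on with
  | C s => simpa using hS s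
  | add p q hp hq => rw [map_add]; exact hp.add φ hq
  | mul_X p j hp => rw [map_mul]; exact hp.mul φ (by simpa using hj j)

theorem NGood.step [Finite ι] (hr : Gr r) {m e : ℕ} {L : Fin (m + 1) → Fin M → S}
    (h : NGood r x T L) (hT : ∀ k, finrank κ (T k) ≤ m) {F : MvPolynomial (Fin (m + 1)) S}
    (hF : F.IsHomogeneous e) (hF' : MvPolynomial.map r F ≠ 0)
    (h0 : MvPolynomial.aeval (fun j => lv (algebraMap S R) (L j) x) F = 0) :
    ∃ L' : Fin m → Fin M → S, NGood r x T L' := by
  let A : (Fin M → κ) →ₗ[κ] Fin (m + 1) → κ :=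
    { toFun := fun w j => lv r (L j) w
      map_add' := fun w w' => funext fun j => lv_add _ _ _ _
      map_smul' := fun c w => funext fun j => lv_smul _ _ _ _ }
  obtain ⟨c, h1, h2, h3⟩ := hr.exists_out (fun k => (T k).map A) (fun k e => by
    have := (Submodule.finrank_map_le A (T k)).trans (hT k)
    rw [e, finrank_top, Module.finrank_fin_fun] at this
    omega) hF'
  have h4 : r (MvPolynomial.eval c F) ≠ 0 := by
    rwa [MvPolynomial.eval_map, ← (by
      rw [MvPolynomial.eval, MvPolynomial.coe_eval₂Hom, MvPolynomial.eval₂_comp_left]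
      rfl : r (MvPolynomial.eval c F) = MvPolynomial.eval₂ r (fun i => r (c i)) F)] at h1
  refine ⟨fun j => c (Fin.last m) • L j.castSucc - c j.castSucc • L (Fin.last m), ?_,
    fun k w hw h5 => ?_⟩
  · simp only [lv_sub_left, lv_smul_left]
    exact nn_int h.int hF h0 (hr.loc _ h4) (hr.loc _ (h2 _))
  · simp only [lv_sub_left, lv_smul_left, sub_eq_zero] at h5
    by_cases h6 : lv r (L (Fin.last m)) w = 0
    · refine h.inj k w hw fun j => Fin.lastCases h6 (fun j => ?_) j
      have := h5 j
      rw [h6, mul_zero] at this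
      exact (mul_eq_zero.1 this).resolve_left (h2 _)
    · refine (h3 k ⟨(r (c (Fin.last m)) / lv r (L (Fin.last m)) w) • w,
        Submodule.smul_mem _ _ hw, funext fun j => ?_⟩).elim
      change lv r (L j) (_ • w) = _
      rw [lv_smul, div_mul_eq_mul_div, div_eq_iff h6]
      exact Fin.lastCases rfl (fun j => h5 j) j

theorem exists_normalization [IsDomain S] [IsDomain R] [Finite ι] (hr : Gr r)
    (hinj : Function.Injective (algebraMap S R))
    (hx : Function.Surjective (MvPolynomial.aeval x : MvPolynomial (Fin M) S →ₐ[S] R))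
    (hhom : ∀ (m : ℕ) (L : Fin m → Fin M → S) (F : MvPolynomial (Fin m) S),
      MvPolynomial.aeval (fun j => lv (algebraMap S R) (L j) x) F = 0 → ∀ k,
        MvPolynomial.aeval (fun j => lv (algebraMap S R) (L j) x)
          (MvPolynomial.homogeneousComponent k F) = 0)
    (hT : ∀ k, ∃ e : Fin (finrank κ (T k)) → R, AlgebraicIndependent S e) :
    ∃ (m : ℕ) (L : Fin m → Fin M → S), NGood r x T L ∧
      AlgebraicIndependent S fun j => lv (algebraMap S R) (L j) x := by
  have key : ∀ (m : ℕ) (L : Fin m → Fin M → S), NGood r x T L →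
      ∃ (m : ℕ) (L : Fin m → Fin M → S), NGood r x T L ∧
        AlgebraicIndependent S fun j => lv (algebraMap S R) (L j) x := by
    intro m
    induction m with
    | zero => exact fun L h => ⟨0, L, h, algebraicIndependent_empty_type_iff.2 hinj⟩
    | succ m ih =>
      intro L h
      by_cases hd : AlgebraicIndependent S fun j => lv (algebraMap S R) (L j) x
      · exact ⟨_, L, h, hd⟩
      have hT' : ∀ k, finrank κ (T k) ≤ m := fun k => by
        obtain ⟨e, he⟩ := hT k
        exact Nat.lt_succ_iff.1 (lt_of_not_indep hinj h.int hd he)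
      rw [algebraicIndependent_iff, not_forall] at hd
      obtain ⟨F, hF⟩ := hd
      rw [Classical.not_imp] at hF
      obtain ⟨e, -, he⟩ := Finset.exists_ne_zero_of_sum_ne_zero
        (by rw [MvPolynomial.sum_homogeneousComponent F]; exact hF.2)
      obtain ⟨c, F₀, hc, e1, e2⟩ := hr.prim _ he
      have h1 : F₀.IsHomogeneous e := fun d hd =>
        MvPolynomial.homogeneousComponent_isHomogeneous e F (by
          rw [e1, MvPolynomial.coeff_C_mul]; exact mul_ne_zero hc hd)
      have h2 := hhom _ L F hF.1 e
      rw [e1, map_mul, MvPolynomial.aeval_C] at h2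
      obtain ⟨L', hL'⟩ := h.step hr hT' h1 e2
        ((mul_eq_zero.1 h2).resolve_left ((map_ne_zero_iff _ hinj).2 hc))
      exact ih L' hL'
  refine key M (fun a => Pi.single a 1) ⟨?_, fun k w _ h => funext fun a => ?_⟩
  · simp only [lv_single]
    exact RingHom.isIntegral_of_surjective _ hx
  · exact (lv_single r a w).symm.trans (h a)

end Pool.Agent.ZeroCyc
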