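import Pool.Agent.Lib.MP_796ce4_ag.ZY.CvB

/-! Linear projections of a cone. -/

namespace Pool.Agent.ZeroCyc

open Polynomial Module
open scoped Classical IntermediateField PowerSeries

set_option linter.unusedSectionVars false

section lin

variable {S T T' : Type} [CommRing S] [CommRing T] [CommRing T'] {M : ℕ}

/-- the value of a linear form -/
def lv (φ : S →+* T) (l : Fin M → S) (v : Fin M → T) : T := ∑ a, φ (l a) * v a

/-- a linear form as a polynomial -/
noncomputable def lp (l : Fin M → S) : MvPolynomial (Fin M) S :=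
  ∑ a, MvPolynomial.C (l a) * MvPolynomial.X a

/-- the differential of `G` at `x` in the direction `w` -/
noncomputable def dG (φ : S →+* T) (x w : Fin M → T) (G : MvPolynomial (Fin M) S) : T :=
  ∑ a, MvPolynomial.eval₂ φ x (MvPolynomial.pderiv a G) * w a

/-- the polynomials that vanish on `Z` -/
def vI (φ : S →+* T) (Z : Set (Fin M → T)) : Ideal (MvPolynomial (Fin M) S) where
  carrier := {G | ∀ v ∈ Z, MvPolynomial.eval₂ φ v G = 0}
  zero_mem' := fun _ _ => MvPolynomial.eval₂_zero _ _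
  add_mem' := fun h h' v hv => by rw [MvPolynomial.eval₂_add, h v hv, h' v hv, add_zero]
  smul_mem' := fun c G h v hv => by rw [smul_eq_mul, MvPolynomial.eval₂_mul, h v hv, mul_zero]

theorem mem_vI {φ : S →+* T} {Z : Set (Fin M → T)} {G : MvPolynomial (Fin M) S} :
    G ∈ vI φ Z ↔ ∀ v ∈ Z, MvPolynomial.eval₂ φ v G = 0 := Iff.rfl

theorem eval₂_lp (φ : S →+* T) (l : Fin M → S) (v : Fin M → T) :
    MvPolynomial.eval₂ φ v (lp l) = lv φ l v := by
  simp [lp, lv, MvPolynomial.eval₂_sum]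

theorem lp_isHomogeneous (l : Fin M → S) : (lp l).IsHomogeneous 1 :=
  MvPolynomial.IsHomogeneous.sum _ _ _ fun a _ => (MvPolynomial.isHomogeneous_X S a).C_mul _

theorem map_lv (ψ : T →+* T') (φ : S →+* T) (l : Fin M → S) (v : Fin M → T) :
    ψ (lv φ l v) = lv (ψ.comp φ) l fun a => ψ (v a) := by
  simp [lv]

theorem lv_comp (ψ : T →+* T') (φ : S →+* T) (l : Fin M → S) (v : Fin M → T') :
    lv ψ (fun a => φ (l a)) v = lv (ψ.comp φ) l v := rfl

theorem lv_smul (φ : S →+* T) (l : Fin M → S) (c : T) (v : Fin M → T) :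
    lv φ l (c • v) = c * lv φ l v := by
  simp only [lv, Finset.mul_sum, Pi.smul_apply, smul_eq_mul]
  exact Finset.sum_congr rfl fun a _ => by ring

theorem lv_add (φ : S →+* T) (l : Fin M → S) (v w : Fin M → T) :
    lv φ l (v + w) = lv φ l v + lv φ l w := by
  simp only [lv, Pi.add_apply, mul_add, Finset.sum_add_distrib]

theorem lv_smul_left (φ : S →+* T) (c : S) (l : Fin M → S) (v : Fin M → T) :
    lv φ (c • l) v = φ c * lv φ l v := by
  simp only [lv, Finset.mul_sum, Pi.smul_apply, smul_eq_mul, map_mul, mul_assoc]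

theorem lv_sub_left (φ : S →+* T) (l l' : Fin M → S) (v : Fin M → T) :
    lv φ (l - l') v = lv φ l v - lv φ l' v := by
  simp only [lv, Pi.sub_apply, map_sub, sub_mul, Finset.sum_sub_distrib]

theorem lv_single (φ : S →+* T) (a : Fin M) (v : Fin M → T) : lv φ (Pi.single a 1) v = v a := by
  simp [lv, Pi.single_apply, apply_ite φ]

theorem dG_lp (φ : S →+* T) (x w : Fin M → T) (l : Fin M → S) : dG φ x w (lp l) = lv φ l w := by
  simp [dG, lp, lv, Pi.single_apply]

theorem dG_sub_C (φ : S →+* T) (x w : Fin M → T) (G : MvPolynomial (Fin M) S) (c : S) :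
    dG φ x w (G - MvPolynomial.C c) = dG φ x w G := by
  simp [dG]

/-- the common kernel of the differentials of the elements of `I` -/
def tanS (φ : S →+* T) (I : Ideal (MvPolynomial (Fin M) S)) (x : Fin M → T) :
    Submodule T (Fin M → T) where
  carrier := {w | ∀ G ∈ I, dG φ x w G = 0}
  zero_mem' := fun G _ => by simp [dG]
  add_mem' := fun {w w'} h h' G hG => by
    have e : dG φ x (w + w') G = dG φ x w G + dG φ x w' G := by
      simp only [dG, Pi.add_apply, mul_add, Finset.sum_add_distrib]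
    rw [e, h G hG, h' G hG, add_zero]
  smul_mem' := fun c w h G hG => by
    have e : dG φ x (c • w) G = c * dG φ x w G := by
      simp only [dG, Finset.mul_sum, Pi.smul_apply, smul_eq_mul]
      exact Finset.sum_congr rfl fun a _ => by ring
    rw [e, h G hG, mul_zero]

theorem mem_tanS {φ : S →+* T} {I : Ideal (MvPolynomial (Fin M) S)} {x w : Fin M → T} :
    w ∈ tanS φ I x ↔ ∀ G ∈ I, dG φ x w G = 0 := Iff.rfl

end lin

/-- a valuation ring with an infinite residue field inside `κ` -/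
structure Gr {S κ : Type} [CommRing S] [Field κ] (r : S →+* κ) : Prop where
  loc : ∀ x, r x ≠ 0 → IsUnit x
  prim : ∀ {σ : Type} (F : MvPolynomial σ S), F ≠ 0 →
    ∃ (c : S) (F₀ : MvPolynomial σ S), c ≠ 0 ∧ F = MvPolynomial.C c * F₀ ∧
      MvPolynomial.map r F₀ ≠ 0
  avoid : ∀ {σ : Type} [Finite σ] (Θ : MvPolynomial σ κ), Θ ≠ 0 →
    ∃ c : σ → S, MvPolynomial.eval (fun i => r (c i)) Θ ≠ 0

section pre

variable {S κ Λ : Type} [CommRing S] [Field κ] [Field Λ] {M : ℕ}

/-- an irreducible closed cone defined over `S` -/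
structure Cone (ι : S →+* Λ) (Z : Set (Fin M → Λ)) : Prop where
  inj : Function.Injective ι
  smul : ∀ (c : Λ) (v : Fin M → Λ), v ∈ Z → c • v ∈ Z
  prime : ∀ F G, F * G ∈ vI ι Z → F ∈ vI ι Z ∨ G ∈ vI ι Z
  closed : ∀ v, (∀ G ∈ vI ι Z, MvPolynomial.eval₂ ι v G = 0) → v ∈ Z

/-- the dimension of the cone is at least `n` -/
def DimGe (ι : S →+* Λ) (Z : Set (Fin M → Λ)) (n : ℕ) : Prop :=
  ∃ e : Fin n → MvPolynomial (Fin M) S, ∀ F : MvPolynomial (Fin n) S,
    MvPolynomial.aeval e F ∈ vI ι Z → F = 0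

/-- a finite linear projection of the cone -/
structure Proj (ι : S →+* Λ) (Z : Set (Fin M → Λ)) where
  d : ℕ
  s₀ : Fin M → S
  s : Fin d → Fin M → S
  mi : Fin M → MP d S
  monic : ∀ a, (mi a).Monic
  root : ∀ v ∈ Z, lv ι s₀ v = 1 → ∀ a, ev2 ι (fun k => lv ι (s k) v) (v a) (mi a) = 0
  indep : ∀ F : MvPolynomial (Fin d) S,
    (∀ v ∈ Z, lv ι s₀ v = 1 → MvPolynomial.eval₂ ι (fun k => lv ι (s k) v) F = 0) → F = 0

/-- a finite linear projection together with a primitive element -/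
structure Pre (ι : S →+* Λ) (Z : Set (Fin M → Λ)) extends Proj ι Z where
  H : Fin M → S
  χ : MP d S
  D : MP d S
  pp : Fin M → MP d S
  monicχ : χ.Monic
  on : ∀ v ∈ Z, lv ι s₀ v = 1 → ev2 ι (fun k => lv ι (s k) v) (lv ι H v) χ = 0
  pt : ∀ v ∈ Z, lv ι s₀ v = 1 → ∀ a, ev2 ι (fun k => lv ι (s k) v) (lv ι H v) (pp a) =
    ev2 ι (fun k => lv ι (s k) v) (lv ι H v) D * v a
  dvd : ∀ q : MP d S,
    (∀ v ∈ Z, lv ι s₀ v = 1 → ev2 ι (fun k => lv ι (s k) v) (lv ι H v) q = 0) → χ ∣ q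
  surj : ∀ y h, ev2 ι y h χ = 0 →
    ∃ v ∈ Z, lv ι s₀ v = 1 ∧ (fun k => lv ι (s k) v) = y ∧ lv ι H v = h

/-- the projection is etale and the hypersurface model is exact at the point `x` -/
structure Pre.At {ι : S →+* Λ} {Z : Set (Fin M → Λ)} (𝒬 : Pre ι Z) (r : S →+* κ)
    (x : Fin M → κ) : Prop where
  one : lv r 𝒬.s₀ x = 1
  hD : ev2 r (fun k => lv r (𝒬.s k) x) (lv r 𝒬.H x) 𝒬.D ≠ 0
  der : ev2 r (fun k => lv r (𝒬.s k) x) (lv r 𝒬.H x) (derivative 𝒬.χ) ≠ 0

end pre

end Pool.Agent.ZeroCyc
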