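import Pool.Agent.Lib.MP_796ce4_ag.ZY.ChN

/-! A primitive element that generates the ring near a given point. -/

namespace Pool.Agent.ZeroCyc

open Polynomial Module
open scoped Classical IntermediateField PowerSeries

set_option linter.unusedSectionVars false

variable {S A κ : Type} [CommRing S] [CommRing A] [Field κ] {M d : ℕ} [Algebra S A]
  [Algebra (MvPolynomial (Fin d) S) A] [IsScalarTower S (MvPolynomial (Fin d) S) A]

theorem map_aeval_eq_ev2 {T : Type} [CommRing T] (ψ : A →+* T) (h : A) (q : MP d S) :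
    ψ (aeval h q) = ev2 (ψ.comp (algebraMap S A))
      (fun k => ψ (algebraMap (MvPolynomial (Fin d) S) A (MvPolynomial.X k))) (ψ h) q := by
  have e : ψ.comp (algebraMap (MvPolynomial (Fin d) S) A) = MvPolynomial.eval₂Hom
      (ψ.comp (algebraMap S A))
      (fun k => ψ (algebraMap (MvPolynomial (Fin d) S) A (MvPolynomial.X k))) := by
    refine MvPolynomial.ringHom_ext (fun c => ?_) fun k => ?_
    · rw [MvPolynomial.eval₂Hom_C, RingHom.comp_apply, RingHom.comp_apply,
        IsScalarTower.algebraMap_apply S (MvPolynomial (Fin d) S) A, MvPolynomial.algebraMap_eq]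
    · rw [MvPolynomial.eval₂Hom_X', RingHom.comp_apply]
  rw [aeval_def, hom_eval₂, e]
  rfl

theorem che_map_aeval {T : Type} [CommRing T] (ψ : A →+* T) (g : Fin M → A)
    (G : MvPolynomial (Fin M) S) : ψ (MvPolynomial.aeval g G) =
      MvPolynomial.eval₂ (ψ.comp (algebraMap S A)) (fun a => ψ (g a)) G := by
  rw [MvPolynomial.aeval_def, MvPolynomial.eval₂_comp_left]
  rfl

theorem che_alg (c : S) :
    algebraMap (MvPolynomial (Fin d) S) A (MvPolynomial.C c) = algebraMap S A c := by
  rw [IsScalarTower.algebraMap_apply S (MvPolynomial (Fin d) S) A, MvPolynomial.algebraMap_eq]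

theorem che_finite {g : Fin M → A}
    (hg : Function.Surjective (MvPolynomial.aeval g : MvPolynomial (Fin M) S →ₐ[S] A))
    {mi : Fin M → MP d S} (hm : ∀ a, (mi a).Monic) (hmi : ∀ a, aeval (g a) (mi a) = 0) :
    Module.Finite (MvPolynomial (Fin d) S) A := by
  have h1 : Algebra.FiniteType S A := Algebra.FiniteType.of_surjective _ hg
  have h2 : Algebra.FiniteType (MvPolynomial (Fin d) S) A :=
    Algebra.FiniteType.of_restrictScalars_finiteType S _ A
  have h3 : Algebra.IsIntegral (MvPolynomial (Fin d) S) A := ⟨fun z => by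
    obtain ⟨G, rfl⟩ := hg z
    induction G using MvPolynomial.induction_on with
    | C c =>
      rw [MvPolynomial.aeval_C, ← che_alg (d := d)]
      exact isIntegral_algebraMap
    | add p q hp hq =>
      rw [map_add]
      exact hp.add hq
    | mul_X p a hp =>
      rw [map_mul, MvPolynomial.aeval_X]
      exact hp.mul ⟨mi a, hm a, hmi a⟩⟩
  exact Algebra.IsIntegral.finite

theorem che_fibre (r : S →+* κ) (y : Fin d → κ) {mi : Fin M → MP d S} (hm : ∀ a, (mi a).Monic) :
    {x' : Fin M → κ | ∀ a, ev2 r y (x' a) (mi a) = 0}.Finite := by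
  refine (Set.Finite.pi' fun a => Polynomial.finite_setOfPred_isRoot
    ((hm a).map (MvPolynomial.eval₂Hom r y)).ne_zero).subset fun x' hx' a => ?_
  have := hx' a
  rwa [ev2_eq_eval] at this

theorem che_lv {r : S →+* κ} {g : Fin M → A} (ψ₀ : A →+* κ) (hψ : ψ₀.comp (algebraMap S A) = r)
    {x : Fin M → S} (hx : ∀ a, ψ₀ (g a) = r (x a)) (l : Fin M → S) :
    ψ₀ (algebraMap S A (lv (RingHom.id S) l x)) = ψ₀ (lv (algebraMap S A) l g) := by
  rw [← RingHom.comp_apply, hψ, map_lv, map_lv, hψ, RingHom.comp_id, funext hx]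

theorem che_cot {r : S →+* κ} (hr : Gr r) {g : Fin M → A}
    (hg : Function.Surjective (MvPolynomial.aeval g : MvPolynomial (Fin M) S →ₐ[S] A))
    {s : Fin d → Fin M → S} (hy : ∀ k, algebraMap (MvPolynomial (Fin d) S) A (MvPolynomial.X k) =
      lv (algebraMap S A) (s k) g)
    (ψ₀ : A →+* κ) (hψ : ψ₀.comp (algebraMap S A) = r) {x : Fin M → S}
    (hx : ∀ a, ψ₀ (g a) = r (x a))
    (htan : ∀ w : Fin M → κ, (∀ G : MvPolynomial (Fin M) S, MvPolynomial.aeval g G = 0 →
      dG r (fun a => r (x a)) w G = 0) → (∀ k, lv r (s k) w = 0) → w = 0) :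
    RingHom.ker ψ₀ ≤ RingHom.ker ψ₀ ^ 2 ⊔
      (RingHom.ker (ψ₀.comp (algebraMap (MvPolynomial (Fin d) S) A))).map
        (algebraMap (MvPolynomial (Fin d) S) A) := by
  refine ker_le_sq_sup hr.loc hg ψ₀ hψ hx _ (Ideal.map_le_iff_le_comap.2 fun c hc => hc)
    (fun c hc => ?_) fun w hw => htan w (fun G hG => hw G (hG ▸ Ideal.zero_mem _)) fun k => ?_
  · rw [← che_alg (d := d)]
    refine Ideal.mem_map_of_mem _ ?_
    rw [RingHom.mem_ker, RingHom.comp_apply, che_alg, ← RingHom.comp_apply, hψ, hc]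
  · rw [← dG_lp r fun a => r (x a), ← dG_sub_C _ _ _ _ (lv (RingHom.id S) (s k) x)]
    refine hw _ ?_
    have e : MvPolynomial.aeval g (lp (s k) - MvPolynomial.C (lv (RingHom.id S) (s k) x)) =
        algebraMap (MvPolynomial (Fin d) S) A
          (MvPolynomial.X k - MvPolynomial.C (lv (RingHom.id S) (s k) x)) := by
      rw [map_sub, map_sub, hy, che_alg, MvPolynomial.aeval_C, MvPolynomial.aeval_def, eval₂_lp]
    rw [e]
    refine Ideal.mem_map_of_mem _ ?_
    rw [RingHom.mem_ker, RingHom.comp_apply, map_sub, map_sub, hy, che_alg, che_lv ψ₀ hψ hx,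
      sub_self]

theorem exists_prim_elt [IsDomain S] [IsIntegrallyClosed S] [IsDomain A] [IsAlgClosed κ]
    {r : S →+* κ} (hr : Gr r) {g : Fin M → A}
    (hg : Function.Surjective (MvPolynomial.aeval g : MvPolynomial (Fin M) S →ₐ[S] A))
    {s : Fin d → Fin M → S} (hy : ∀ k, algebraMap (MvPolynomial (Fin d) S) A (MvPolynomial.X k) =
      lv (algebraMap S A) (s k) g)
    (hinj : Function.Injective (algebraMap (MvPolynomial (Fin d) S) A))
    {mi : Fin M → MP d S} (hm : ∀ a, (mi a).Monic) (hmi : ∀ a, aeval (g a) (mi a) = 0)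
    (ψ₀ : A →+* κ) (hψ : ψ₀.comp (algebraMap S A) = r) {x : Fin M → S}
    (hx : ∀ a, ψ₀ (g a) = r (x a))
    (htan : ∀ w : Fin M → κ, (∀ G : MvPolynomial (Fin M) S, MvPolynomial.aeval g G = 0 →
      dG r (fun a => r (x a)) w G = 0) → (∀ k, lv r (s k) w = 0) → w = 0) :
    ∃ (H : Fin M → S) (χ D : MP d S) (pp : Fin M → MP d S), χ.Monic ∧
      aeval (lv (algebraMap S A) H g) χ = 0 ∧
      (∀ q : MP d S, aeval (lv (algebraMap S A) H g) q = 0 → χ ∣ q) ∧
      (∀ a, aeval (lv (algebraMap S A) H g) (pp a) = aeval (lv (algebraMap S A) H g) D * g a) ∧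
      ψ₀ (aeval (lv (algebraMap S A) H g) D) ≠ 0 ∧
      ψ₀ (aeval (lv (algebraMap S A) H g) (derivative χ)) ≠ 0 := by
  obtain ⟨H, hH⟩ := hr.exists_sep (che_fibre r
    (fun k => ψ₀ (algebraMap (MvPolynomial (Fin d) S) A (MvPolynomial.X k))) hm) fun a => r (x a)
  set h : A := lv (algebraMap S A) H g with hh
  have hfin := che_finite hg hm hmi
  have hcot := che_cot hr hg hy ψ₀ hψ hx htan
  have hic := mv_integrallyClosed (R := S) d
  have hfs : FaithfulSMul (MvPolynomial (Fin d) S) A :=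
    (faithfulSMul_iff_algebraMap_injective _ _).2 hinj
  have hint : IsIntegral (MvPolynomial (Fin d) S) h := Algebra.IsIntegral.isIntegral h
  have hdvd : ∀ q : MP d S, aeval h q = 0 → minpoly (MvPolynomial (Fin d) S) h ∣ q :=
    fun q hq => minpoly.isIntegrallyClosed_dvd hint hq
  let _ : Algebra (MP d S) A := (aeval h : MP d S →ₐ[MvPolynomial (Fin d) S] A).toRingHom.toAlgebra
  have hal : ∀ q : MP d S, algebraMap (MP d S) A q = aeval h q := fun _ => rfl
  have hC : ∀ c : MvPolynomial (Fin d) S,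
      algebraMap (MP d S) A (C c) = algebraMap (MvPolynomial (Fin d) S) A c := fun c => by
    rw [hal, aeval_C]
  have : IsScalarTower (MvPolynomial (Fin d) S) (MP d S) A :=
    IsScalarTower.of_algebraMap_eq fun c => (hC c).symm
  have : Module.Finite (MP d S) A :=
    Module.Finite.of_restrictScalars_finite (MvPolynomial (Fin d) S) _ A
  have hres : ∀ a : A, ∃ q : MP d S,
      ψ₀ (algebraMap (MP d S) A q) = ψ₀ a ∧ (ψ₀ a ≠ 0 → IsUnit q) := by
    intro a
    obtain ⟨G, rfl⟩ := hg a
    have e : r (MvPolynomial.eval x G) = ψ₀ (MvPolynomial.aeval g G) := by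
      rw [che_map_aeval, hψ, funext hx, ← MvPolynomial.eval₂_id, MvPolynomial.eval₂_comp_left,
        RingHom.comp_id]
      rfl
    refine ⟨C (MvPolynomial.C (MvPolynomial.eval x G)), ?_, fun h0 => ?_⟩
    · rw [hC, che_alg, ← RingHom.comp_apply, hψ, e]
    · exact ((hr.loc _ (e ▸ h0)).map MvPolynomial.C).map C
  have huniq : ∀ ψ : A →+* κ, ψ.comp (algebraMap (MP d S) A) = ψ₀.comp (algebraMap (MP d S) A) →
      ψ = ψ₀ := by
    intro ψ hψ'
    have h1 : ∀ c, ψ (algebraMap (MvPolynomial (Fin d) S) A c) =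
        ψ₀ (algebraMap (MvPolynomial (Fin d) S) A c) := fun c => by
      rw [← hC]
      exact RingHom.congr_fun hψ' (C c)
    have h2 : ψ.comp (algebraMap S A) = r := by
      rw [← hψ]
      ext c
      rw [RingHom.comp_apply, RingHom.comp_apply, ← che_alg (d := d), h1]
    have h3 : ψ h = ψ₀ h := by
      have := RingHom.congr_fun hψ' X
      rwa [RingHom.comp_apply, RingHom.comp_apply, hal, aeval_X] at this
    have h4 : (fun a => ψ (g a)) = fun a => r (x a) := by
      refine hH _ (fun a => ?_) ?_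
      · have := map_aeval_eq_ev2 ψ (g a) (mi a)
        rw [hmi, map_zero, h2, funext fun k => h1 (MvPolynomial.X k)] at this
        exact this.symm
      · rw [hh, map_lv, map_lv, h2, hψ, funext hx] at h3
        exact h3
    ext a
    obtain ⟨G, rfl⟩ := hg a
    rw [che_map_aeval, che_map_aeval, h2, hψ, h4, funext hx]
  have hle := ker_le_map (R := MP d S) ψ₀ hres huniq (hcot.trans (sup_le_sup_left
    (Ideal.map_le_iff_le_comap.2 fun c hc => by
      rw [Ideal.mem_comap, ← hC]
      refine Ideal.mem_map_of_mem _ ?_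
      rw [RingHom.mem_ker, RingHom.comp_apply, hC]
      exact hc) _))
  obtain ⟨D, hD, hD'⟩ := exists_conductor (R := MP d S) ψ₀
    (fun a => (hres a).imp fun q hq => hq.1) hle
  choose pp hpp using fun a => hD' (g a)
  refine ⟨H, minpoly _ h, D, pp, minpoly.monic hint, minpoly.aeval _ _, hdvd, hpp, hD, ?_⟩
  refine der_ne_zero ψ₀ h (minpoly.aeval _ _) hdvd hD hD'
    (c := MvPolynomial.C (lv (RingHom.id S) H x)) ?_ hcot
  rw [che_alg, che_lv ψ₀ hψ hx]

end Pool.Agent.ZeroCyc
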