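import Pool.Agent.Lib.MP_796ce4_ag.ZY.ChA
import Pool.Agent.Lib.MP_796ce4_ag.ZY.ChB

/-! Nakayama's lemma at an unramified point. -/

namespace Pool.Agent.ZeroCyc

open Polynomial Module
open scoped Classical IntermediateField PowerSeries

set_option linter.unusedSectionVars false

variable {R A κ : Type} [CommRing R] [CommRing A] [Algebra R A] [Field κ]

/-- the fibre is reduced and consists of one point -/
theorem ker_le_map [Module.Finite R A] [IsAlgClosed κ] (ψ₀ : A →+* κ)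
    (hres : ∀ a : A, ∃ q : R, ψ₀ (algebraMap R A q) = ψ₀ a ∧ (ψ₀ a ≠ 0 → IsUnit q))
    (huniq : ∀ ψ : A →+* κ, ψ.comp (algebraMap R A) = ψ₀.comp (algebraMap R A) → ψ = ψ₀)
    (hcot : RingHom.ker ψ₀ ≤ RingHom.ker ψ₀ ^ 2 ⊔
      (RingHom.ker (ψ₀.comp (algebraMap R A))).map (algebraMap R A)) :
    RingHom.ker ψ₀ ≤ (RingHom.ker (ψ₀.comp (algebraMap R A))).map (algebraMap R A) := by
  generalize hρ : ψ₀.comp (algebraMap R A) = ρ at huniq hcot ⊢
  have hρ' : ∀ q, ψ₀ (algebraMap R A q) = ρ q := fun q => by rw [← hρ]; rfl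
  have hm : (RingHom.ker ρ).IsMaximal := by
    rw [Ideal.isMaximal_iff]
    refine ⟨by simp [RingHom.mem_ker], fun J x hJ hx hxJ => ?_⟩
    obtain ⟨q, hq, hu⟩ := hres (algebraMap R A x)
    rw [hρ', hρ'] at hq
    have h1 : x - q ∈ J := hJ (by rw [RingHom.mem_ker, map_sub, hq, sub_self])
    have h2 : q ∈ J := by simpa using J.sub_mem hxJ h1
    rw [(Ideal.eq_top_of_isUnit_mem J h2 (hu (by rw [hρ']; exact hx)))]
    exact Submodule.mem_top
  have hrad : RingHom.ker ψ₀ ≤ ((RingHom.ker ρ).map (algebraMap R A)).radical := by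
    rw [Ideal.radical_eq_sInf]
    refine le_sInf ?_
    rintro P ⟨hP, hP'⟩
    have h1 : RingHom.ker ρ = P.comap (algebraMap R A) :=
      hm.eq_of_le (Ideal.comap_ne_top _ hP'.ne_top) (Ideal.map_le_iff_le_comap.1 hP)
    have h2 : P.IsMaximal := Ideal.isMaximal_of_isIntegral_of_isMaximal_comap (R := R) P (h1 ▸ hm)
    have h3 : ((Ideal.Quotient.mk P).comp (algebraMap R A)).IsIntegral :=
      RingHom.IsIntegral.trans _ _ (fun a => Algebra.IsIntegral.isIntegral a)
        (RingHom.isIntegral_of_surjective _ Ideal.Quotient.mk_surjective)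
    obtain ⟨ψ', hψ'⟩ := exists_ext_of_isIntegral h3 ρ (by
      rw [← RingHom.comap_ker, Ideal.mk_ker, h1])
    have h4 := huniq (ψ'.comp (Ideal.Quotient.mk P)) (by rw [RingHom.comp_assoc, hψ'])
    have h5 : P ≤ RingHom.ker ψ₀ := fun a ha => by
      rw [← h4, RingHom.mem_ker, RingHom.comp_apply, Ideal.Quotient.eq_zero_iff_mem.2 ha, map_zero]
    exact (h2.eq_of_le (RingHom.ker_ne_top ψ₀) h5).ge
  generalize RingHom.ker ρ = 𝔪 at hm hrad hcot ⊢
  have hN : IsNoetherianRing (A ⧸ 𝔪.map (algebraMap R A)) := by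
    let _ := Ideal.Quotient.field 𝔪
    have : Module.Finite (R ⧸ 𝔪) (A ⧸ 𝔪.map (algebraMap R A)) :=
      Module.Finite.of_restrictScalars_finite R _ _
    exact IsNoetherianRing.of_finite (R ⧸ 𝔪) _
  generalize 𝔪.map (algebraMap R A) = J at hN hrad hcot ⊢
  generalize RingHom.ker ψ₀ = 𝔫 at hrad hcot ⊢
  obtain ⟨k, hk⟩ : ∃ k : ℕ, (𝔫.map (Ideal.Quotient.mk J)) ^ k ≤ ⊥ := by
    refine Ideal.exists_pow_le_of_le_radical_of_fg ?_ (IsNoetherian.noetherian _)
    rw [Ideal.map_le_iff_le_comap, Ideal.comap_radical, ← RingHom.ker_eq_comap_bot, Ideal.mk_ker]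
    exact hrad
  rw [← Ideal.map_pow, Ideal.map_le_iff_le_comap, ← RingHom.ker_eq_comap_bot, Ideal.mk_ker] at hk
  have key : ∀ j : ℕ, 𝔫 ≤ 𝔫 ^ (j + 1) ⊔ J := by
    intro j
    induction j with
    | zero => simp
    | succ j ih =>
      refine hcot.trans (sup_le ?_ le_sup_right)
      rw [pow_two, pow_succ' 𝔫 (j + 1)]
      refine (Ideal.mul_mono_right ih).trans ?_
      rw [Ideal.mul_sup]
      exact sup_le_sup_left Ideal.mul_le_right _
  exact (key k).trans (sup_le ((Ideal.pow_le_pow_right (Nat.le_succ k)).trans hk) le_rfl)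

/-- the conductor does not vanish at the point -/
theorem exists_conductor [Module.Finite R A] (ψ₀ : A →+* κ)
    (hres : ∀ a : A, ∃ q : R, ψ₀ (algebraMap R A q) = ψ₀ a)
    (h : RingHom.ker ψ₀ ≤ (RingHom.ker (ψ₀.comp (algebraMap R A))).map (algebraMap R A)) :
    ∃ D : R, ψ₀ (algebraMap R A D) ≠ 0 ∧
      ∀ a : A, ∃ q : R, algebraMap R A q = algebraMap R A D * a := by
  have h1 : (⊤ : Submodule R A) ≤
      1 ⊔ RingHom.ker (ψ₀.comp (algebraMap R A)) • (⊤ : Submodule R A) := by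
    intro a _
    obtain ⟨q, hq⟩ := hres a
    refine Submodule.mem_sup.2 ⟨algebraMap R A q, Submodule.algebraMap_mem q, a - algebraMap R A q,
      ?_, by ring⟩
    rw [Ideal.smul_top_eq_map]
    exact h (by rw [RingHom.mem_ker, map_sub, hq, sub_self])
  obtain ⟨D, hD, hD'⟩ := Submodule.exists_sub_one_mem_and_smul_le_of_fg_of_le_sup
    Module.Finite.fg_top le_rfl h1
  refine ⟨D, fun h0 => ?_, fun a => ?_⟩
  · rw [RingHom.mem_ker, map_sub, map_one, RingHom.comp_apply, h0] at hD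
    simp at hD
  · obtain ⟨q, hq⟩ := Submodule.mem_one.1
      (hD' (Submodule.smul_mem_pointwise_smul a D ⊤ Submodule.mem_top))
    exact ⟨q, by rw [hq, Algebra.smul_def]⟩

/-- the root is simple -/
theorem der_ne_zero (ψ₀ : A →+* κ) (h : A) {χ D : R[X]} (hχ₀ : aeval h χ = 0)
    (hχ : ∀ q : R[X], aeval h q = 0 → χ ∣ q) (hD : ψ₀ (aeval h D) ≠ 0)
    (hD' : ∀ a : A, ∃ q : R[X], aeval h q = aeval h D * a) {c : R}
    (hc : ψ₀ (algebraMap R A c) = ψ₀ h)
    (hcot : RingHom.ker ψ₀ ≤ RingHom.ker ψ₀ ^ 2 ⊔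
      (RingHom.ker (ψ₀.comp (algebraMap R A))).map (algebraMap R A)) :
    ψ₀ (aeval h (derivative χ)) ≠ 0 := by
  intro h0
  have hz : ∀ q : R[X], aeval h q = 0 → ψ₀ (aeval h (derivative q)) = 0 := fun q hq => by
    obtain ⟨s, rfl⟩ := hχ q hq
    simp [derivative_mul, h0, hχ₀]
  have hadd : ∀ a b : A,
      (∃ q : R[X], aeval h q = aeval h D ^ 2 * a ∧ ψ₀ (aeval h (derivative q)) = 0) →
      (∃ q : R[X], aeval h q = aeval h D ^ 2 * b ∧ ψ₀ (aeval h (derivative q)) = 0) →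
      ∃ q : R[X], aeval h q = aeval h D ^ 2 * (a + b) ∧ ψ₀ (aeval h (derivative q)) = 0 := by
    rintro a b ⟨q, h1, h2⟩ ⟨q', h1', h2'⟩
    exact ⟨q + q', by rw [map_add, h1, h1', mul_add], by simp [h2, h2']⟩
  have key : ∀ a ∈ RingHom.ker ψ₀,
      ∃ q : R[X], aeval h q = aeval h D ^ 2 * a ∧ ψ₀ (aeval h (derivative q)) = 0 := by
    intro a ha
    obtain ⟨y, hy, z, hz', rfl⟩ := Submodule.mem_sup.1 (hcot ha)
    refine hadd _ _ ?_ ?_
    · rw [pow_two] at hy
      refine Submodule.mul_induction_on hy (fun a1 h1 a2 h2 => ?_) hadd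
      obtain ⟨q1, hq1⟩ := hD' a1
      obtain ⟨q2, hq2⟩ := hD' a2
      rw [RingHom.mem_ker] at h1 h2
      exact ⟨q1 * q2, by rw [map_mul, hq1, hq2]; ring, by simp [derivative_mul, hq1, hq2, h1, h2]⟩
    · have h1 : z ∈ RingHom.ker (ψ₀.comp (algebraMap R A)) • (⊤ : Submodule R A) := by
        rw [Ideal.smul_top_eq_map]
        exact hz'
      refine Submodule.smul_induction_on h1 (fun r hr a _ => ?_) hadd
      obtain ⟨q, hq⟩ := hD' (aeval h D * a)
      rw [RingHom.mem_ker, RingHom.comp_apply] at hr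
      exact ⟨C r * q, by rw [map_mul, hq, aeval_C, Algebra.smul_def]; ring, by simp [hr]⟩
  obtain ⟨q, h1, h2⟩ := key (h - algebraMap R A c) (by rw [RingHom.mem_ker, map_sub, hc, sub_self])
  have h3 := hz (q - D ^ 2 * (X - C c)) (by simp [h1])
  simp [derivative_mul, h2, hc] at h3
  exact hD h3

/-- no tangent vectors means that the cotangent space vanishes -/
theorem ker_le_sq_sup {r : R →+* κ} (hr : ∀ x, r x ≠ 0 → IsUnit x) {M : ℕ} {g : Fin M → A}
    (hg : Function.Surjective (MvPolynomial.aeval g : MvPolynomial (Fin M) R →ₐ[R] A))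
    (ψ₀ : A →+* κ) (hψ : ψ₀.comp (algebraMap R A) = r) {x : Fin M → R}
    (hx : ∀ a, ψ₀ (g a) = r (x a)) (𝔟 : Ideal A) (h𝔟 : 𝔟 ≤ RingHom.ker ψ₀)
    (h𝔟' : ∀ c, r c = 0 → algebraMap R A c ∈ 𝔟)
    (htan : ∀ w : Fin M → κ, (∀ G : MvPolynomial (Fin M) R, MvPolynomial.aeval g G ∈ 𝔟 →
      dG r (fun a => r (x a)) w G = 0) → w = 0) :
    RingHom.ker ψ₀ ≤ RingHom.ker ψ₀ ^ 2 ⊔ 𝔟 := by
  have hr' : ∀ c, ψ₀ (algebraMap R A c) = r c := fun c => by rw [← hψ]; rfl
  obtain ⟨z, hz⟩ : ∃ z : Fin M → A, z = fun a => g a - algebraMap R A (x a) := ⟨_, rfl⟩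
  have hzn : ∀ a, z a ∈ RingHom.ker ψ₀ := fun a => by
    rw [hz, RingHom.mem_ker, map_sub, hx, hr', sub_self]
  have hT : ∀ G : MvPolynomial (Fin M) R, MvPolynomial.aeval g G -
      algebraMap R A (MvPolynomial.eval x G) - lv (algebraMap R A)
        (fun a => MvPolynomial.eval x (MvPolynomial.pderiv a G)) z ∈ RingHom.ker ψ₀ ^ 2 := fun G => by
    have h1 := taylor_mem (algebraMap R A) _ (algebraMap R A ∘ x) z hzn G
    have h2 : algebraMap R A ∘ x + z = g := by
      funext a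
      simp [hz]
    rw [h2, ← MvPolynomial.eval₂_comp, dG] at h1
    simp only [← MvPolynomial.eval₂_comp] at h1
    exact h1
  have hl : ∀ u : Fin M → R, lv (algebraMap R A) u z ∈ RingHom.ker ψ₀ := fun u =>
    Ideal.sum_mem _ fun a _ => Ideal.mul_mem_left _ _ (hzn a)
  have hc : ∀ G : MvPolynomial (Fin M) R, MvPolynomial.aeval g G ∈ RingHom.ker ψ₀ →
      algebraMap R A (MvPolynomial.eval x G) ∈ 𝔟 := fun G hG => by
    refine h𝔟' _ ?_
    have h1 := Ideal.pow_le_self two_ne_zero (hT G)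
    have h2 := hl fun a => MvPolynomial.eval x (MvPolynomial.pderiv a G)
    rw [RingHom.mem_ker] at h1 h2 hG
    rw [map_sub, map_sub, h2, hG, hr'] at h1
    simpa using h1
  let W : Submodule R (Fin M → R) :=
    { carrier := {u | lv (algebraMap R A) u z ∈ RingHom.ker ψ₀ ^ 2 ⊔ 𝔟}
      zero_mem' := by simp [lv]
      add_mem' := fun {u u'} h h' => by
        have e : lv (algebraMap R A) (u + u') z =
            lv (algebraMap R A) u z + lv (algebraMap R A) u' z := by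
          simp only [lv, Pi.add_apply, map_add, add_mul, Finset.sum_add_distrib]
        rw [Set.mem_ofPred_eq, e]
        exact Ideal.add_mem _ h h'
      smul_mem' := fun c u h => by
        rw [Set.mem_ofPred_eq, lv_smul_left]
        exact Ideal.mul_mem_left _ _ h }
  have hW : W = ⊤ := by
    refine top_of_perp hr W fun w hw => htan w fun G hG => ?_
    have h1 : (fun a => MvPolynomial.eval x (MvPolynomial.pderiv a G)) ∈ W := by
      have h2 := Ideal.sub_mem _ (Ideal.sub_mem _ (Ideal.mem_sup_right hG)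
        (Ideal.mem_sup_right (hc G (h𝔟 hG)))) (Ideal.mem_sup_left (T := 𝔟) (hT G))
      rw [sub_sub_cancel] at h2
      exact h2
    have h3 := hw _ h1
    rw [lv] at h3
    simp only [MvPolynomial.eval₂_comp r x] at h3
    exact h3
  intro a ha
  obtain ⟨G, rfl⟩ := hg a
  have h1 : (fun a => MvPolynomial.eval x (MvPolynomial.pderiv a G)) ∈ W := by
    rw [hW]
    exact Submodule.mem_top
  have h2 := Ideal.add_mem _ (Ideal.add_mem _ (Ideal.mem_sup_left (T := 𝔟) (hT G)) h1)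
    (Ideal.mem_sup_right (hc G ha))
  rwa [sub_add_cancel, sub_add_cancel] at h2

end Pool.Agent.ZeroCyc
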