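import Pool.Agent.Lib.MP_796ce4_ag.ZY.Base

/-! Plane curves `χ(τ, T) = 0`, monic in `T`: weights, orders of vanishing, divisors. -/

namespace Pool.Agent.ZeroCyc

open Polynomial Module
open scoped Classical IntermediateField PowerSeries

set_option linter.unusedSectionVars false

section ring

variable {R S : Type} [CommRing R] [CommRing S]

/-- every monomial `τ ^ j T ^ i` of `a` has `j + b i + w < m` -/
def WL (b w m : ℕ) (a : R[X][X]) : Prop :=
  ∀ i j, (a.coeff i).coeff j ≠ 0 → j + b * i + w < m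

/-- `G = τ ^ m +` terms of lower weight -/
def Lead (b m : ℕ) (G : R[X][X]) : Prop := WL b 0 m (G - C (X ^ m))

/-- monic of degree `δ` in `T` and of weight at most `b δ` -/
structure Wt (b δ : ℕ) (χ : R[X][X]) : Prop where
  monic : χ.Monic
  deg : χ.natDegree = δ
  wt : WL b 0 (b * δ + 1) χ

/-- map on the coefficients -/
noncomputable abbrev mp (φ : R →+* S) : R[X][X] →+* S[X][X] := mapRingHom (mapRingHom φ)

/-- evaluation at `(τ, η)` along `φ` -/
noncomputable def e2 (φ : R →+* S) (τ η : S) : R[X][X] →+* S :=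
  eval₂RingHom (eval₂RingHom φ τ) η

/-- evaluation at a point -/
noncomputable def ee (Q : R × R) : R[X][X] →+* R := e2 (RingHom.id R) Q.1 Q.2

/-- the point lies on the curve -/
def On (χ : R[X][X]) (Q : R × R) : Prop := ee Q χ = 0

/-- the point lies on the curve and the projection to `τ` is etale there -/
def Et (χ : R[X][X]) (Q : R × R) : Prop := ee Q χ = 0 ∧ ee Q (derivative χ) ≠ 0

/-- expansion at `τ = t` -/
noncomputable def sh (t : R) : R[X] →+* R⟦X⟧ :=
  eval₂RingHom PowerSeries.C (PowerSeries.C t + PowerSeries.X)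

/-- A curve with a polynomial `ρ(τ)` that vanishes under all non-etale points. -/
structure Cv (R : Type) [CommRing R] where
  χ : R[X][X]
  α : R[X][X]
  β : R[X][X]
  ρ : R[X]
  δ : ℕ
  b : ℕ
  w : ℕ
  wt : Wt b δ χ
  rho : C ρ = α * χ + β * derivative χ
  deg : ρ.natDegree ≤ w
  wβ : WL b (b * δ) (w + 1) β

/-- the degree from which on Riemann-Roch is exact -/
def cst (δ b w : ℕ) : ℕ := δ * w + 2 * b * δ ^ 2 + 1

namespace Cv

/-- the degree from which on Riemann-Roch is exact -/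
def c0 (c : Cv R) : ℕ := cst c.δ c.b c.w

/-- the dimension of the generalised Jacobian -/
def g0 (c : Cv R) : ℕ := c.δ * c.w + ∑ i ∈ Finset.range c.δ, c.b * i

/-- good points -/
def Gp (c : Cv R) (Q : R × R) : Prop := On c.χ Q ∧ c.ρ.eval Q.1 ≠ 0

/-- data of a principal divisor -/
structure Wit (c : Cv R) (u : R[X]) (a : R[X][X]) : Prop where
  monic : u.Monic
  cop : IsCoprime u c.ρ
  wl : WL c.b c.w u.natDegree a

/-- the function `u + ρ a` -/
noncomputable def G (c : Cv R) (u : R[X]) (a : R[X][X]) : R[X][X] := C u + C c.ρ * a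

/-- the curve is defined over the fixed ring of `F` -/
structure Inv (c : Cv R) (F : R →+* R) : Prop where
  χ : mp F c.χ = c.χ
  ρ : c.ρ.map F = c.ρ

end Cv

end ring

/-- push-forward of divisors -/
noncomputable def psh {A B : Type} (f : A → B) : (A →₀ ℤ) →+ (B →₀ ℤ) :=
  Finsupp.mapDomain.addMonoidHom f

/-- map on both coordinates -/
def pm {A B : Type} (f : A → B) : A × A → B × B := Prod.map f f

section field

variable {𝕜 : Type} [Field 𝕜]

/-- the branch through an etale point -/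
noncomputable def hs (χ : 𝕜[X][X]) (Q : 𝕜 × 𝕜) : 𝕜⟦X⟧ :=
  if h : ∃ η : 𝕜⟦X⟧, χ.eval₂ (sh Q.1) η = 0 ∧ PowerSeries.constantCoeff η = Q.2 then h.choose
  else 0

/-- expansion along the branch -/
noncomputable def jq (χ : 𝕜[X][X]) (Q : 𝕜 × 𝕜) : 𝕜[X][X] →+* 𝕜⟦X⟧ :=
  eval₂RingHom (sh Q.1) (hs χ Q)

/-- vanishing to order `n` -/
def Van (χ : 𝕜[X][X]) (Q : 𝕜 × 𝕜) (n : ℕ) (G : 𝕜[X][X]) : Prop :=
  PowerSeries.X ^ n ∣ jq χ Q G

/-- order of vanishing -/
noncomputable def oq (χ : 𝕜[X][X]) (Q : 𝕜 × 𝕜) (G : 𝕜[X][X]) : ℕ := (jq χ Q G).order.toNat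

/-- the divisor of zeros at the etale points -/
noncomputable def dv (χ G : 𝕜[X][X]) : 𝕜 × 𝕜 →₀ ℤ :=
  if h : (Function.support fun Q => if Et χ Q then (oq χ Q G : ℤ) else 0).Finite then
    Finsupp.ofSupportFinite _ h else 0

/-- all zeros on the curve are etale points -/
def Adm (χ G : 𝕜[X][X]) : Prop := ∀ Q, On χ Q → ee Q G = 0 → Et χ Q

/-- vanishing along a divisor supported at etale points -/
def VanZ (χ : 𝕜[X][X]) (Z : 𝕜 × 𝕜 →₀ ℤ) (G : 𝕜[X][X]) : Prop :=
  ∀ Q, Z Q ≠ 0 → Et χ Q ∧ Van χ Q (Z Q).toNat G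

/-- reduced polynomials of bounded weight -/
def Wsp (b δ w m : ℕ) : Submodule 𝕜 𝕜[X][X] where
  carrier := {a | a.degree < δ ∧ WL b w m a}
  zero_mem' := ⟨by simp, fun i j h => absurd (by simp) h⟩
  add_mem' := fun {a a'} h h' => ⟨(degree_add_le _ _).trans_lt (max_lt h.1 h'.1), fun i j e => by
    by_cases h1 : (a.coeff i).coeff j = 0
    · exact h'.2 i j fun h2 => e (by rw [coeff_add, coeff_add, h1, h2, add_zero])
    · exact h.2 i j h1⟩
  smul_mem' := fun c a h => ⟨(degree_smul_le _ _).trans_lt h.1, fun i j e =>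
    h.2 i j fun h1 => e (by rw [coeff_smul, coeff_smul, h1, smul_zero])⟩

namespace Cv

/-- divisors supported at good points -/
def Dv (c : Cv 𝕜) : AddSubgroup (𝕜 × 𝕜 →₀ ℤ) where
  carrier := {D | ∀ Q, D Q ≠ 0 → c.Gp Q}
  zero_mem' := fun _ h => absurd rfl h
  add_mem' := fun {a b} ha hb Q h => by
    by_cases h1 : a Q = 0
    · exact hb Q fun h2 => h (by rw [Finsupp.add_apply, h1, h2, add_zero])
    · exact ha Q h1
  neg_mem' := fun {a} ha Q h => ha Q fun h1 => h (by rw [Finsupp.neg_apply, h1, neg_zero])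

/-- principal divisors -/
noncomputable def PP (c : Cv 𝕜) : AddSubgroup (𝕜 × 𝕜 →₀ ℤ) :=
  AddSubgroup.closure {D | ∃ u a, c.Wit u a ∧ D = dv c.χ (c.G u a) - dv c.χ (C u)}

/-- the `a` of bounded weight vanishing along `Z` -/
def Vs (c : Cv 𝕜) (m : ℕ) (Z : 𝕜 × 𝕜 →₀ ℤ) : Submodule 𝕜 𝕜[X][X] where
  carrier := {a | a ∈ Wsp c.b c.δ c.w m ∧ ∀ Q, Z Q ≠ 0 → Van c.χ Q (Z Q).toNat a}
  zero_mem' := ⟨Submodule.zero_mem _, fun Q _ => by simp [Van]⟩
  add_mem' := fun {a a'} h h' => ⟨Submodule.add_mem _ h.1 h'.1, fun Q e => by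
    unfold Van; rw [map_add]; exact dvd_add (h.2 Q e) (h'.2 Q e)⟩
  smul_mem' := fun r a h => ⟨Submodule.smul_mem _ _ h.1, fun Q e => by
    have : r • a = C (C r) * a := by rw [Algebra.smul_def]; rfl
    unfold Van; rw [this, map_mul]; exact (h.2 Q e).mul_left _⟩

/-- effective divisors in the class of `D` -/
def Eff (c : Cv 𝕜) (D : 𝕜 × 𝕜 →₀ ℤ) : Set (𝕜 × 𝕜 →₀ ℤ) := {D' | 0 ≤ D' ∧ D' - D ∈ c.PP}

end Cv

end field

end Pool.Agent.ZeroCyc
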