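import Pool.Agent.Lib.MP_796ce4_ag.ZY.CvP

/-! Dimensions of the weight spaces and independence of conditions. -/

namespace Pool.Agent.ZeroCyc

open Polynomial Module
open scoped Classical IntermediateField PowerSeries

set_option linter.unusedSectionVars false

variable {𝕜 : Type} [Field 𝕜] {b δ w m : ℕ}

theorem cvi_equiv (b δ w m : ℕ) : Nonempty (Wsp (𝕜 := 𝕜) b δ w m ≃ₗ[𝕜]
    ∀ i : Fin δ, Fin (m - (w + b * i)) → 𝕜) := by
  let f : Wsp (𝕜 := 𝕜) b δ w m →ₗ[𝕜] ∀ i : Fin δ, Fin (m - (w + b * i)) → 𝕜 :=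
    { toFun := fun a i j => (a.1.coeff i).coeff j
      map_add' := fun a a' => by ext; simp
      map_smul' := fun c a => by ext; simp }
  refine ⟨LinearEquiv.ofBijective f ⟨fun a a' h => ?_, fun g => ?_⟩⟩
  · ext i j
    by_contra h0
    have h1 : ((a - a').1.coeff i).coeff j ≠ 0 := by simpa [sub_eq_zero] using h0
    have h2 := (a - a').2.2 i j h1
    have h3 : i < δ := by
      by_contra h3
      exact h1 (by rw [(degree_lt_iff_coeff_zero _ _).1 (a - a').2.1 i (not_lt.1 h3), coeff_zero])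
    exact h0 (congrFun (congrFun h ⟨i, h3⟩) ⟨j, by dsimp only; omega⟩)
  · let p := (degreeLTEquiv 𝕜[X] δ).symm fun i => ((degreeLTEquiv 𝕜 _).symm (g i)).1
    have h1 : ∀ i : Fin δ, p.1.coeff i = ((degreeLTEquiv 𝕜 _).symm (g i)).1 :=
      congrFun ((degreeLTEquiv 𝕜[X] δ).apply_symm_apply _)
    refine ⟨⟨p, mem_degreeLT.1 p.2, fun i j h => ?_⟩, funext fun i => ?_⟩
    · have h3 : i < δ := by
        by_contra h3
        exact h (by simp [(degree_lt_iff_coeff_zero _ _).1 (mem_degreeLT.1 p.2) i (not_lt.1 h3)])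
      rw [h1 ⟨i, h3⟩] at h
      by_contra h4
      exact h ((degree_lt_iff_coeff_zero _ _).1 (mem_degreeLT.1 (Subtype.prop _)) j
        (by dsimp only; omega))
    · rw [← (degreeLTEquiv 𝕜 _).apply_symm_apply (g i)]
      exact funext fun j => congrArg (coeff · j) (h1 i)

theorem Wsp_finite (b δ w m : ℕ) : FiniteDimensional 𝕜 (Wsp (𝕜 := 𝕜) b δ w m) := by
  exact Module.Finite.equiv (cvi_equiv b δ w m).some.symm
theorem finrank_Wsp : finrank 𝕜 (Wsp (𝕜 := 𝕜) b δ w m) =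
    ∑ i ∈ Finset.range δ, (m - (w + b * i)) := by
  rw [(cvi_equiv b δ w m).some.finrank_eq, finrank_pi_fintype, Finset.sum_range]
  simp
theorem le_finrank_Wsp : δ * m ≤ finrank 𝕜 (Wsp (𝕜 := 𝕜) b δ w m) +
    (δ * w + ∑ i ∈ Finset.range δ, b * i) := by
  rw [finrank_Wsp, ← Finset.card_range δ, ← smul_eq_mul, ← smul_eq_mul, ← Finset.sum_const,
    ← Finset.sum_const, Finset.card_range, ← Finset.sum_add_distrib, ← Finset.sum_add_distrib]
  exact Finset.sum_le_sum fun i _ => by omega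
theorem finrank_Wsp_eq (h : w + b * δ ≤ m) : finrank 𝕜 (Wsp (𝕜 := 𝕜) b δ w m) +
    (δ * w + ∑ i ∈ Finset.range δ, b * i) = δ * m := by
  rw [finrank_Wsp, ← Finset.card_range δ, ← smul_eq_mul, ← smul_eq_mul, ← Finset.sum_const,
    ← Finset.sum_const, Finset.card_range, ← Finset.sum_add_distrib, ← Finset.sum_add_distrib]
  refine Finset.sum_congr rfl fun i hi => ?_
  have := Nat.mul_le_mul_left b (Finset.mem_range.1 hi).le
  omega

/-- a submodule of full rank with generators of small weight fills up all higher weights -/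
theorem exists_sub_mem (N : Submodule 𝕜[X] 𝕜[X][X]) {k : ℕ} (v : Fin δ → 𝕜[X][X])
    (hv : LinearIndependent 𝕜[X] v) (hN : ∀ i, v i ∈ N) (hW : ∀ i, v i ∈ Wsp b δ 0 (k + 1))
    {a : 𝕜[X][X]} (ha : a.degree < δ) : ∃ a' ∈ Wsp (𝕜 := 𝕜) b δ 0 k, a - a' ∈ N := by
  obtain ⟨D, c, hD, e⟩ : ∃ (D : 𝕜[X]) (c : Fin δ → 𝕜[X]), D.Monic ∧ D • a = ∑ i, c i • v i := by
    by_contra hn
    have h1 := hv.finCons' a v fun D y hy e => by
      by_contra hD
      obtain ⟨c, rfl⟩ := (Submodule.mem_span_range_iff_exists_fun _).1 hy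
      refine hn ⟨D * C D.leadingCoeff⁻¹, fun i => -(C D.leadingCoeff⁻¹ * c i),
        monic_mul_leadingCoeff_inv hD, ?_⟩
      rw [mul_comm, mul_smul, eq_neg_of_add_eq_zero_left e]
      simp [Finset.mul_sum, mul_assoc, smul_eq_C_mul]
    let u : Fin (δ + 1) → degreeLT 𝕜[X] δ := fun i => ⟨Fin.cons (α := fun _ => 𝕜[X][X]) a v i,
      mem_degreeLT.2 (Fin.cases ha (fun i => (hW i).1) i)⟩
    have := Module.Finite.equiv (degreeLTEquiv 𝕜[X] δ).symm
    have h2 := (LinearIndependent.of_comp (degreeLT 𝕜[X] δ).subtype (v := u)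
      h1).fintype_card_le_finrank
    simp [(degreeLTEquiv 𝕜[X] δ).finrank_eq] at h2
  refine ⟨a - ∑ i, (c i /ₘ D) • v i, ⟨?_, WL.of_C_mul hD ?_⟩, ?_⟩
  · exact mem_degreeLT.1 (sub_mem (mem_degreeLT.2 ha)
      (Submodule.sum_mem _ fun i _ => Submodule.smul_mem _ _ (mem_degreeLT.2 (hW i).1)))
  · have h1 : C D * (a - ∑ i, (c i /ₘ D) • v i) = ∑ i, C (c i %ₘ D) * v i := by
      rw [← smul_eq_C_mul, smul_sub, e, Finset.smul_sum, ← Finset.sum_sub_distrib]
      refine Finset.sum_congr rfl fun i _ => ?_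
      rw [← smul_eq_C_mul, smul_smul, ← sub_smul, modByMonic_eq_sub_mul_div]
    rw [h1]
    refine WL.sum fun i _ => ((WL_C' ((degree_modByMonic_lt _ hD).trans_eq
      (degree_eq_natDegree hD.ne_zero))).mul (hW i).2).mono (by omega)
  · rw [sub_sub_cancel]
    exact N.sum_mem fun i _ => N.smul_mem _ (hN i)

end Pool.Agent.ZeroCyc
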