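import Pool.Agent.Lib.MP_796ce4_ag.ZY.CvP

/-! Invariant witnesses and specialisation of principal divisors. -/

namespace Pool.Agent.ZeroCyc

open Polynomial Module
open scoped Classical IntermediateField PowerSeries

set_option linter.unusedSectionVars false

theorem cvq_period {𝕜 : Type} [Field 𝕜] {F : 𝕜 →+* 𝕜} (hper : ∀ x, ∃ n, 0 < n ∧ (F ^ n) x = x)
    (S : Finset 𝕜) : ∃ n, 0 < n ∧ ∀ x ∈ S, (F ^ n) x = x := by
  induction S using Finset.induction_on with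
  | empty => exact ⟨1, one_pos, by simp⟩
  | insert y S _ ih =>
    obtain ⟨n, hn, h⟩ := ih
    obtain ⟨m, hm, h'⟩ := hper y
    refine ⟨n * m, Nat.mul_pos hn hm, fun x hx => ?_⟩
    rw [RingHom.coe_pow] at h h' ⊢
    rcases Finset.mem_insert.1 hx with rfl | hx
    · exact Function.IsPeriodicPt.const_mul h' n
    · exact Function.IsPeriodicPt.mul_const (h x hx) m

theorem cvq_lift {𝕜 : Type} [Field 𝕜] {V : Subring 𝕜} {u : 𝕜[X]} (h : ∀ i, u.coeff i ∈ V) :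
    ∃ u₀ : V[X], u₀.map V.subtype = u :=
  (mem_lifts u).1 ((lifts_iff_coeff_lifts u).2 fun i => ⟨⟨_, h i⟩, rfl⟩)

namespace Cv

theorem cvq_inv {𝕜 : Type} [Field 𝕜] {c : Cv 𝕜} {F : 𝕜 →+* 𝕜} (hF : c.Inv F)
    (hper : ∀ x, ∃ n, 0 < n ∧ (F ^ n) x = x) {u₀ : 𝕜[X]} (hm : u₀.Monic)
    (hc : IsCoprime u₀ c.ρ) :
    ∃ u : 𝕜[X], u.Monic ∧ IsCoprime u c.ρ ∧ u₀ ∣ u ∧ u.map F = u := by
  obtain ⟨n, hn, h⟩ := cvq_period hper u₀.finite_range_coeff.toFinset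
  have h1 : u₀.map (F ^ n) = u₀ := by
    ext i
    rw [coeff_map]
    exact h _ (by simp)
  have h0 : u₀.map (F ^ 0) = u₀ := by
    ext i
    simp
  refine ⟨∏ i ∈ Finset.range n, u₀.map (F ^ i), monic_prod_of_monic _ _ fun i _ => hm.map _,
    IsCoprime.prod_left fun i _ => ?_, ?_, ?_⟩
  · have h2 := hc.map (mapRingHom (F ^ i))
    rwa [coe_mapRingHom, (hF.pow i).ρ] at h2
  · have h2 := Finset.dvd_prod_of_mem (fun i => u₀.map (F ^ i)) (Finset.mem_range.2 hn)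
    rwa [h0] at h2
  · have h2 := (Finset.prod_range_succ (fun i => u₀.map (F ^ i)) n).symm.trans
      (Finset.prod_range_succ' (fun i => u₀.map (F ^ i)) n)
    rw [h1, h0] at h2
    rw [Polynomial.map_prod, mul_right_cancel₀ hm.ne_zero h2]
    refine Finset.prod_congr rfl fun i _ => ?_
    rw [Polynomial.map_map, pow_succ', RingHom.mul_def]

/-- an invariant principal divisor has invariant witnesses -/
theorem exists_inv_wit {𝕜 : Type} [Field 𝕜] [IsAlgClosed 𝕜] {c : Cv 𝕜} {F : 𝕜 →+* 𝕜}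
    (hF : c.Inv F) (hper : ∀ x, ∃ n, 0 < n ∧ (F ^ n) x = x) {D : 𝕜 × 𝕜 →₀ ℤ} (h : D ∈ c.PP)
    (hD : psh (pm F) D = D) : ∃ u a, c.Wit u a ∧ u.map F = u ∧ mp F a = a ∧
      D = dv c.χ (c.G u a) - dv c.χ (C u) := by
  obtain ⟨u₀, hm₀, hc₀, hle⟩ := exists_u (c.Dv.neg_mem (PP_le h))
  obtain ⟨u, hm, hc, ⟨v, rfl⟩, hu⟩ := cvq_inv hF hper hm₀ hc₀
  have hv : v.Monic := hm₀.of_mul_monic_left hm
  have h0 : 0 ≤ D + dv c.χ (C (u₀ * v)) := by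
    rw [C_mul, Lead.dv_mul c.wt (lead_C hm₀) (lead_C hv), ← add_assoc]
    exact add_nonneg (neg_le_iff_add_nonneg'.1 hle) (dv_nonneg _ _)
  obtain ⟨a, hw, ha, hDa⟩ := exists_wit hm hc h h0
  refine ⟨_, a, hw, hu, ?_, hDa⟩
  refine Wit.unique ⟨hm, hc, hw.wl.map F⟩ hw (degree_map_le.trans_lt ha) ha ?_
  have h1 : c.G (u₀ * v) (mp F a) = mp F (c.G (u₀ * v) a) := by
    rw [G, G, map_add, map_mul (mp F), mp_C, mp_C, hu, hF.ρ]
  have h2 := hF.dv_map (lead_C hm) (adm_C hc)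
  rw [mp_C, hu] at h2
  rw [h1, hF.dv_map hw.lead hw.adm, ← eq_sub_iff_add_eq.1 hDa, map_add, hD, ← h2]

/-- an invariant polynomial of positive degree with good fibres -/
theorem exists_inv_u {𝕜 : Type} [Field 𝕜] [IsAlgClosed 𝕜] {c : Cv 𝕜} (hρ : c.ρ ≠ 0) {F : 𝕜 →+* 𝕜}
    (hF : c.Inv F) (hper : ∀ x, ∃ n, 0 < n ∧ (F ^ n) x = x) :
    ∃ u : 𝕜[X], u.Monic ∧ IsCoprime u c.ρ ∧ 0 < u.natDegree ∧ u.map F = u := by
  obtain ⟨t, ht⟩ : ∃ t, c.ρ.eval t ≠ 0 := by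
    by_contra hcon
    push Not at hcon
    exact hρ (Polynomial.funext fun t => by rw [hcon t, eval_zero])
  have hc : IsCoprime (X - C t) c.ρ := cop_iff.2 fun s hs => by
    rw [eval_sub, eval_X, eval_C, sub_eq_zero] at hs
    rwa [hs]
  obtain ⟨u, hm, hc', hd, hu⟩ := cvq_inv hF hper (monic_X_sub_C t) hc
  refine ⟨u, hm, hc', ?_, hu⟩
  have h1 := natDegree_le_of_dvd hd hm.ne_zero
  rwa [natDegree_X_sub_C] at h1

theorem cvq_spec {𝕜 κ : Type} [Field 𝕜] [IsAlgClosed 𝕜] [Field κ] [IsAlgClosed κ] {V : Subring 𝕜}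
    (ψ : V →+* κ) (c : Cv V) {u p q : 𝕜[X]} {a : 𝕜[X][X]} (hw : (c.map V.subtype).Wit u a)
    (hb : p * u + q * (c.map V.subtype).ρ = 1) (hu : ∀ i, u.coeff i ∈ V) (hp : ∀ i, p.coeff i ∈ V)
    (hq : ∀ i, q.coeff i ∈ V) (ha : ∀ i j, (a.coeff i).coeff j ∈ V)
    (hz : ∀ Q, On (c.map V.subtype).χ Q → ee Q ((c.map V.subtype).G u a) = 0 →
      Q.1 ∈ V ∧ Q.2 ∈ V)
    (hz' : ∀ Q, On (c.map V.subtype).χ Q → ee Q (C u) = 0 → Q.1 ∈ V ∧ Q.2 ∈ V) :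
    psh (pm (xt V ψ)) (dv (c.map V.subtype).χ ((c.map V.subtype).G u a) -
      dv (c.map V.subtype).χ (C u)) ∈ (c.map ψ).PP := by
  obtain ⟨u, rfl⟩ := cvq_lift hu
  obtain ⟨p, rfl⟩ := cvq_lift hp
  obtain ⟨q, rfl⟩ := cvq_lift hq
  obtain ⟨a, rfl, hwl⟩ := hw.wl.exists_lift (φ := V.subtype) fun i j => ⟨⟨_, ha i j⟩, rfl⟩
  have hinj : Function.Injective V.subtype := Subtype.val_injective
  have hw₀ : c.Wit u a := by
    refine ⟨monic_of_injective hinj hw.monic, ⟨p, q, map_injective _ hinj ?_⟩, ?_⟩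
    · rw [Polynomial.map_add, Polynomial.map_mul, Polynomial.map_mul, Polynomial.map_one]
      exact hb
    · rwa [natDegree_map_eq_of_injective hinj] at hwl
  have hw₁ := hw₀.map ψ
  have h1 := (dv_spec (ψ := ψ) c.wt hw₀.lead (by rw [map_G]; exact hz)
    (by rw [map_G]; exact hw₁.adm)).2
  have h2 := (dv_spec (ψ := ψ) c.wt (lead_C hw₀.monic) (by rw [mp_C]; exact hz')
    (by rw [mp_C]; exact adm_C hw₁.cop)).2
  rw [map_G, map_G] at h1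
  rw [mp_C, mp_C] at h2
  refine AddSubgroup.subset_closure ⟨_, _, hw₁, ?_⟩
  rw [map_sub]
  exact congrArg₂ (· - ·) h1.symm h2.symm

/-- a principal divisor specialises along every map from a large enough subring -/
theorem exists_spec {k 𝕜 : Type} [CommRing k] [Field 𝕜] [IsAlgClosed 𝕜] (c : Cv k) (ι : k →+* 𝕜)
    {D : 𝕜 × 𝕜 →₀ ℤ} (h : D ∈ (c.map ι).PP) : ∃ S : Finset 𝕜, ∀ (V : Subring 𝕜)
      (ι₀ : k →+* V) (κ : Type) [Field κ] [IsAlgClosed κ] (ψ : V →+* κ), (∀ x ∈ S, x ∈ V) →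
      V.subtype.comp ι₀ = ι → psh (pm (xt V ψ)) D ∈ (c.map (ψ.comp ι₀)).PP := by
  obtain ⟨u, a, hw, -, rfl⟩ := mem_PP.1 h
  obtain ⟨p, q, hb⟩ := hw.cop
  have hZ := (Lead.finite_zeros (c.map ι).wt hw.lead).union
    (Lead.finite_zeros (c.map ι).wt (lead_C hw.monic))
  have hS := (((u.finite_range_coeff.union p.finite_range_coeff).union q.finite_range_coeff).union
    (a.finite_range_coeff.biUnion fun s _ => s.finite_range_coeff)).union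
    ((hZ.image Prod.fst).union (hZ.image Prod.snd))
  refine ⟨hS.toFinset, fun V ι₀ κ _ _ ψ hV hι => ?_⟩
  subst hι
  simp only [Set.Finite.mem_toFinset] at hV
  clear hZ h
  rw [← map_map] at hw hb hV ⊢
  rw [← map_map]
  refine cvq_spec ψ (c.map ι₀) hw hb (fun i => hV _ ?_) (fun i => hV _ ?_) (fun i => hV _ ?_)
    (fun i j => hV _ ?_) (fun Q h1 h2 => ⟨hV _ ?_, hV _ ?_⟩) (fun Q h1 h2 => ⟨hV _ ?_, hV _ ?_⟩)
  · exact Or.inl (Or.inl (Or.inl (Or.inl ⟨i, rfl⟩)))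
  · exact Or.inl (Or.inl (Or.inl (Or.inr ⟨i, rfl⟩)))
  · exact Or.inl (Or.inl (Or.inr ⟨i, rfl⟩))
  · exact Or.inl (Or.inr (Set.mem_biUnion ⟨i, rfl⟩ ⟨j, rfl⟩))
  · exact Or.inr (Or.inl ⟨Q, Or.inl ⟨h1, h2⟩, rfl⟩)
  · exact Or.inr (Or.inr ⟨Q, Or.inl ⟨h1, h2⟩, rfl⟩)
  · exact Or.inr (Or.inl ⟨Q, Or.inr ⟨h1, h2⟩, rfl⟩)
  · exact Or.inr (Or.inr ⟨Q, Or.inr ⟨h1, h2⟩, rfl⟩)

end Cv

end Pool.Agent.ZeroCyc
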