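import Pool.Agent.Lib.MP_796ce4_ag.ZY.CvV
import Pool.Agent.Lib.MP_796ce4_ag.ZY.CvH

/-! The degree of the divisor of a leading function. -/

namespace Pool.Agent.ZeroCyc

open Polynomial Module
open scoped Classical IntermediateField PowerSeries

set_option linter.unusedSectionVars false

variable {𝕜 𝕜' : Type} [Field 𝕜] [IsAlgClosed 𝕜] [Field 𝕜'] [IsAlgClosed 𝕜'] {b δ m m' : ℕ}
  {χ χ₁ χ₂ G G' : 𝕜[X][X]} {Q : 𝕜 × 𝕜} {Z : 𝕜 × 𝕜 →₀ ℤ}

/-- distinct roots in a domain split off -/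
theorem cvr_factor {R A : Type} [CommRing R] [IsDomain R] {f : R[X]} (hf : f.Monic) (η : A → R)
    (s : Finset A) (h0 : ∀ y ∈ s, f.eval (η y) = 0) (hi : Set.InjOn η s) :
    ∃ f' : R[X], f'.Monic ∧ f = (∏ y ∈ s, (X - C (η y))) * f' := by
  induction s using Finset.induction_on with
  | empty => exact ⟨f, hf, by simp⟩
  | insert a s ha ih =>
    obtain ⟨f', hm, e⟩ := ih (fun y hy => h0 y (Finset.mem_insert_of_mem hy))
      (hi.mono (by simp))
    have h1 := h0 a (Finset.mem_insert_self a s)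
    rw [e, eval_mul, eval_prod] at h1
    have h2 : ∏ y ∈ s, eval (η a) (X - C (η y)) ≠ 0 := by
      refine Finset.prod_ne_zero_iff.2 fun y hy h => ha ?_
      rw [eval_sub, eval_X, eval_C, sub_eq_zero] at h
      rwa [hi (by simp) (by simp [hy]) h]
    obtain ⟨f'', e'⟩ := dvd_iff_isRoot.2 ((mul_eq_zero.1 h1).resolve_left h2)
    refine ⟨f'', (monic_X_sub_C (η a)).of_mul_monic_left (e' ▸ hm), ?_⟩
    rw [Finset.prod_insert ha, e, e']; ring

theorem cvr_res_prod {R A : Type} [CommRing R] [IsDomain R] (η : A → R) (s : Finset A)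
    {f' : R[X]} (hf : f'.Monic) (g : R[X]) {n : ℕ} (hn : g.natDegree ≤ n) :
    resultant ((∏ y ∈ s, (X - C (η y))) * f') g ((∏ y ∈ s, (X - C (η y))) * f').natDegree n =
      (∏ y ∈ s, g.eval (η y)) * resultant f' g f'.natDegree n := by
  have hp : (∏ y ∈ s, (X - C (η y))).Monic := monic_prod_of_monic _ _ fun y _ => monic_X_sub_C _
  rw [hp.natDegree_mul hf, resultant_mul_left _ _ _ _ hn,
    resultant_prod_left _ _ _ _ (by simp) hn]
  congr 1
  refine Finset.prod_congr rfl fun y _ => ?_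
  rw [natDegree_X_sub_C, resultant_X_sub_C_left _ _ _ hn]

theorem cvr_res_ne {f g : 𝕜[X]} (hf : f.Monic) {n : ℕ} (hn : g.natDegree ≤ n) :
    resultant f g f.natDegree n ≠ 0 ↔ ∀ y, f.eval y = 0 → g.eval y ≠ 0 := by
  rw [resultant_eq_prod_eval _ _ _ hn (IsAlgClosed.splits f), hf.leadingCoeff, one_pow, one_mul,
    Ne, Multiset.prod_eq_zero_iff, Multiset.mem_map]
  constructor
  · exact fun h y h0 h1 => h ⟨y, (mem_roots hf.ne_zero).2 h0, h1⟩
  · rintro h ⟨y, h0, h1⟩
    exact h y ((mem_roots hf.ne_zero).1 h0) h1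

theorem cvr_map_sh (t : 𝕜) (a : 𝕜[X][X]) :
    (a.map (sh t)).map PowerSeries.constantCoeff = a.map (evalRingHom t) := by
  rw [Polynomial.map_map]
  congr 1
  exact RingHom.ext fun u => constantCoeff_sh t u

/-- the local form: the multiplicity of a root of the resultant -/
theorem res_mult (hm : χ.Monic) (hr : resultant χ G ≠ 0) (t : 𝕜) (s : Finset 𝕜)
    (hs : ∀ y ∈ s, Et χ (t, y)) :
    (∀ y ∈ s, jq χ (t, y) G ≠ 0) ∧
      ∑ y ∈ s, oq χ (t, y) G ≤ (resultant χ G).rootMultiplicity t ∧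
      (∑ y ∈ s, oq χ (t, y) G = (resultant χ G).rootMultiplicity t ↔
        ∀ y, On χ (t, y) → ee (t, y) G = 0 → y ∈ s) := by
  set η : 𝕜 → 𝕜⟦X⟧ := fun y => ZeroCyc.hs χ (t, y) with hη
  have hc : ∀ y ∈ s, PowerSeries.constantCoeff (η y) = y := fun y hy => (hs_spec hm (hs y hy)).2
  obtain ⟨f', hf', e⟩ := cvr_factor (hm.map (sh t)) η s
    (fun y hy => by rw [eval_map]; exact (hs_spec hm (hs y hy)).1)
    (fun y hy y' hy' h => by rw [← hc y hy, h, hc y' hy'])
  have hn : (G.map (sh t)).natDegree ≤ G.natDegree := natDegree_map_le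
  set R' := resultant f' (G.map (sh t)) f'.natDegree G.natDegree with hR'
  have h1 : sh t (resultant χ G) = (∏ y ∈ s, jq χ (t, y) G) * R' := by
    rw [← resultant_map_map, ← hm.natDegree_map (sh t), e, cvr_res_prod η s hf' _ hn]
    congr 1
    exact Finset.prod_congr rfl fun y _ => by rw [eval_map]; rfl
  obtain ⟨h2, h3⟩ := oq_C χ (t, 0) hr
  rw [oq, jq_C] at h3
  rw [jq_C] at h2
  simp only at h2 h3
  rw [h1] at h2 h3
  have h4 : ∀ y ∈ s, jq χ (t, y) G ≠ 0 := Finset.prod_ne_zero_iff.1 (left_ne_zero_of_mul h2)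
  have h5 : R' ≠ 0 := right_ne_zero_of_mul h2
  have h6 : ∑ y ∈ s, oq χ (t, y) G + R'.order.toNat = (resultant χ G).rootMultiplicity t := by
    rw [← h3, PowerSeries.order_mul, PowerSeries.order_prod, ← PowerSeries.coe_toNat_order h5,
      ← Finset.sum_congr rfl fun y hy => PowerSeries.coe_toNat_order (h4 y hy), ← Nat.cast_sum,
      ← Nat.cast_add, ENat.toNat_natCast, ENat.toNat_natCast]
    rfl
  have h7 : R'.order.toNat = 0 ↔ PowerSeries.constantCoeff R' ≠ 0 := by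
    rw [Ne, ← PowerSeries.order_ne_zero_iff_constCoeff_eq_zero, not_not, ENat.toNat_eq_zero,
      PowerSeries.order_eq_top]
    exact or_iff_left h5
  have h8 : χ.map (evalRingHom t) =
      (∏ y ∈ s, (X - C y)) * f'.map PowerSeries.constantCoeff := by
    rw [← cvr_map_sh, e, Polynomial.map_mul, Polynomial.map_prod]
    congr 1
    exact Finset.prod_congr rfl fun y hy => by rw [Polynomial.map_sub, map_X, map_C, hc y hy]
  have h9 : ∀ y, (f'.map PowerSeries.constantCoeff).eval y = 0 ↔ On χ (t, y) ∧ y ∉ s := by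
    intro y
    rw [On, ee_eq_eval]
    simp only
    constructor
    · intro h
      refine ⟨by rw [h8, eval_mul, h, mul_zero], fun hy => (hs y hy).2 ?_⟩
      rw [ee_eq_eval, ← derivative_map]
      simp only
      rw [h8, derivative_mul, eval_add, eval_mul, eval_mul, h, mul_zero, zero_add, eval_prod,
        Finset.prod_eq_zero hy (by simp), zero_mul]
    · rintro ⟨h, hy⟩
      rw [h8, eval_mul, eval_prod] at h
      refine (mul_eq_zero.1 h).resolve_left (Finset.prod_ne_zero_iff.2 fun y' hy' h' => hy ?_)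
      rw [eval_sub, eval_X, eval_C, sub_eq_zero] at h'
      rwa [h']
  refine ⟨h4, by omega, ?_⟩
  have h10 : PowerSeries.constantCoeff R' ≠ 0 ↔
      ∀ y, On χ (t, y) → ee (t, y) G = 0 → y ∈ s := by
    rw [hR', ← resultant_map_map, ← hf'.natDegree_map PowerSeries.constantCoeff, cvr_map_sh,
      cvr_res_ne (hf'.map _) natDegree_map_le]
    refine forall_congr' fun y => ?_
    rw [h9, ee_eq_eval]
    tauto
  rw [← h10, ← h7]
  omega

theorem Lead.jq_ne (hχ : Wt b δ χ) (h : Lead b m G) (hQ : Et χ Q) : jq χ Q G ≠ 0 :=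
  (res_mult hχ.monic (h.res hχ).1.ne_zero Q.1 {Q.2} (by simpa using hQ)).1 Q.2 (by simp)

theorem cvr_root (hχ : Wt b δ χ) (h : Lead b m G) (h0 : On χ Q) (h1 : ee Q G = 0) :
    Q.1 ∈ (resultant χ G).roots ∧ Q.2 ∈ (χ.map (evalRingHom Q.1)).roots := by
  have hr := (h.res hχ).1.ne_zero
  refine ⟨?_, (mem_roots (hχ.monic.map _).ne_zero).2 (by rw [IsRoot, ← ee_eq_eval]; exact h0)⟩
  have := (res_mult hχ.monic hr Q.1 ∅ (by simp)).2.2
  rw [mem_roots hr, ← rootMultiplicity_pos hr, Nat.pos_iff_ne_zero]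
  intro e
  simpa using this.1 (by simpa using e.symm) Q.2 h0 h1

/-- a finite set of second coordinates -/
noncomputable def cvrY (χ G : 𝕜[X][X]) : Finset 𝕜 :=
  (resultant χ G).roots.toFinset.biUnion fun t => (χ.map (evalRingHom t)).roots.toFinset

theorem cvr_mem (hχ : Wt b δ χ) (h : Lead b m G) (h0 : On χ Q) (h1 : ee Q G = 0) :
    Q ∈ (resultant χ G).roots.toFinset ×ˢ cvrY χ G := by
  obtain ⟨h2, h3⟩ := cvr_root hχ h h0 h1
  rw [Finset.mem_product, cvrY, Finset.mem_biUnion]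
  exact ⟨Multiset.mem_toFinset.2 h2, Q.1, Multiset.mem_toFinset.2 h2, Multiset.mem_toFinset.2 h3⟩

theorem cvr_supp (hχ : Wt b δ χ) (h : Lead b m G)
    (h0 : (if Et χ Q then (oq χ Q G : ℤ) else 0) ≠ 0) :
    Q ∈ (resultant χ G).roots.toFinset ×ˢ cvrY χ G := by
  by_cases hQ : Et χ Q
  · refine cvr_mem hχ h hQ.1 (by_contra fun h1 => h0 ?_)
    rw [if_pos hQ, (oq_eq_zero hχ.monic hQ h1).2, Nat.cast_zero]
  · exact absurd (if_neg hQ) h0

theorem Lead.dv_apply (hχ : Wt b δ χ) (h : Lead b m G) (Q : 𝕜 × 𝕜) :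
    dv χ G Q = if Et χ Q then (oq χ Q G : ℤ) else 0 := by
  have : (Function.support fun Q => if Et χ Q then (oq χ Q G : ℤ) else 0).Finite :=
    (Finset.finite_toSet _).subset fun Q hQ => cvr_supp hχ h hQ
  rw [dv, dif_pos this, Finsupp.ofSupportFinite_coe]

theorem Lead.finite_zeros (hχ : Wt b δ χ) (h : Lead b m G) :
    {Q | On χ Q ∧ ee Q G = 0}.Finite :=
  (Finset.finite_toSet _).subset fun _ hQ => cvr_mem hχ h hQ.1 hQ.2

theorem cvr_degree (hχ : Wt b δ χ) (h : Lead b m G) :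
    (dv χ G).degree = ((∑ t ∈ (resultant χ G).roots.toFinset,
      ∑ y ∈ (cvrY χ G).filter fun y => Et χ (t, y), oq χ (t, y) G : ℕ) : ℤ) := by
  rw [Finsupp.degree_apply, Finset.sum_subset (s₂ := (resultant χ G).roots.toFinset ×ˢ cvrY χ G)
    (fun Q hQ => cvr_supp hχ h (by rw [← h.dv_apply hχ]; exact Finsupp.mem_support_iff.1 hQ))
    (fun Q _ hQ => Finsupp.notMem_support_iff.1 hQ), Finset.sum_product, Nat.cast_sum]
  refine Finset.sum_congr rfl fun t _ => ?_
  rw [Nat.cast_sum, Finset.sum_filter]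
  exact Finset.sum_congr rfl fun y _ => h.dv_apply hχ _

theorem cvr_sum_mult (hχ : Wt b δ χ) (h : Lead b m G) :
    ∑ t ∈ (resultant χ G).roots.toFinset, (resultant χ G).rootMultiplicity t = δ * m := by
  rw [← (h.res hχ).2, (IsAlgClosed.splits _).natDegree_eq_card_roots,
    ← Multiset.toFinset_sum_count_eq]
  exact Finset.sum_congr rfl fun t _ => (count_roots _).symm

theorem cvr_local (hχ : Wt b δ χ) (h : Lead b m G) (t : 𝕜) :
    ∑ y ∈ (cvrY χ G).filter fun y => Et χ (t, y), oq χ (t, y) G ≤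
        (resultant χ G).rootMultiplicity t ∧
      (∑ y ∈ (cvrY χ G).filter fun y => Et χ (t, y), oq χ (t, y) G =
        (resultant χ G).rootMultiplicity t ↔ ∀ y, On χ (t, y) → ee (t, y) G = 0 →
          y ∈ (cvrY χ G).filter fun y => Et χ (t, y)) :=
  (res_mult hχ.monic (h.res hχ).1.ne_zero t _ fun _ hy => (Finset.mem_filter.1 hy).2).2

theorem Lead.degree_dv_le (hχ : Wt b δ χ) (h : Lead b m G) : (dv χ G).degree ≤ δ * m := by
  rw [cvr_degree hχ h, ← Nat.cast_mul, Nat.cast_le, ← cvr_sum_mult hχ h]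
  exact Finset.sum_le_sum fun t _ => (cvr_local hχ h t).1

theorem Lead.degree_dv_eq_iff (hχ : Wt b δ χ) (h : Lead b m G) :
    (dv χ G).degree = δ * m ↔ Adm χ G := by
  rw [cvr_degree hχ h, ← Nat.cast_mul, Nat.cast_inj, ← cvr_sum_mult hχ h,
    Finset.sum_eq_sum_iff_of_le fun t _ => (cvr_local hχ h t).1]
  constructor
  · intro H Q h0 h1
    exact (Finset.mem_filter.1 ((cvr_local hχ h Q.1).2.1
      (H Q.1 (Multiset.mem_toFinset.2 (cvr_root hχ h h0 h1).1)) Q.2 h0 h1)).2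
  · intro H t _
    exact (cvr_local hχ h t).2.2 fun y h0 h1 => Finset.mem_filter.2
      ⟨(Finset.mem_product.1 (cvr_mem hχ h h0 h1)).2, H _ h0 h1⟩

end Pool.Agent.ZeroCyc
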