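import Pool.Agent.Lib.MP_796ce4_ag.ZY.CvW

/-! Valuations at infinity, weights of factors, the resultant. -/

namespace Pool.Agent.ZeroCyc

open Polynomial Module
open scoped Classical IntermediateField PowerSeries

set_option linter.unusedSectionVars false

section val

variable {R F Γ : Type} [CommRing R] [Field F] [LinearOrderedCommGroupWithZero Γ]
  {v : Valuation F Γ} {φ : R →+* F} {τ η : F} {b δ m : ℕ} {χ a G : R[X][X]}

theorem cvv_inner (hφ : ∀ c, v (φ c) ≤ 1) {s : Γ} (hs : 1 ≤ s) (hτ : v τ ≤ s) {u : R[X]} {k : ℕ}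
    (h : ∀ j, u.coeff j ≠ 0 → j ≤ k) : v (u.eval₂ φ τ) ≤ s ^ k := by
  rw [eval₂_eq_sum, Polynomial.sum]
  refine v.map_sum_le fun j hj => ?_
  rw [map_mul, map_pow]
  calc v (φ (u.coeff j)) * v τ ^ j ≤ 1 * s ^ j := mul_le_mul' (hφ _) (pow_le_pow_left' hτ _)
    _ ≤ s ^ k := by rw [one_mul]; exact pow_le_pow_right₀ hs (h j (mem_support_iff.1 hj))

theorem cvv_root {r : Γ} (hm : χ.Monic)
    (hr : ∀ i < χ.natDegree, v ((χ.coeff i).eval₂ φ τ) ≤ r ^ (χ.natDegree - i))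
    (h0 : e2 φ τ η χ = 0) : v η ≤ r := by
  by_contra hc
  rw [not_le] at hc
  have hη : 0 < v η := zero_le.trans_lt hc
  have e : e2 φ τ η χ = η ^ χ.natDegree +
      ∑ i ∈ Finset.range χ.natDegree, (χ.coeff i).eval₂ φ τ * η ^ i := by
    conv_lhs => rw [hm.as_sum]
    simp only [map_add, map_pow, map_sum, map_mul, e2_C, e2_X]
  have h1 : v (∑ i ∈ Finset.range χ.natDegree, (χ.coeff i).eval₂ φ τ * η ^ i) <
      v (η ^ χ.natDegree) := by
    rw [map_pow]
    refine v.map_sum_lt' (pow_pos hη _) fun i hi => ?_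
    have hi' := Finset.mem_range.1 hi
    rw [map_mul, map_pow]
    calc v ((χ.coeff i).eval₂ φ τ) * v η ^ i ≤ r ^ (χ.natDegree - i) * v η ^ i :=
          mul_le_mul' (hr i hi') le_rfl
      _ < v η ^ (χ.natDegree - i) * v η ^ i :=
          mul_lt_mul_of_pos_right (pow_lt_pow_left₀ hc zero_le (by omega)) (pow_pos hη _)
      _ = v η ^ χ.natDegree := by rw [← pow_add, Nat.sub_add_cancel hi'.le]
  have h2 := v.map_add_eq_of_lt_left h1
  rw [← e, h0, map_zero, map_pow] at h2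
  exact (pow_pos hη _).ne h2

theorem val_root (hφ : ∀ c, v (φ c) ≤ 1) (hτ : 1 < v τ) (hχ : Wt b δ χ) (h0 : e2 φ τ η χ = 0) :
    v η ≤ v τ ^ b := by
  refine cvv_root hχ.monic (fun i hi => ?_) h0
  rw [← pow_mul]
  refine cvv_inner hφ hτ.le le_rfl fun j hj => ?_
  have := hχ.wt i j hj
  rw [hχ.deg, Nat.mul_sub]
  omega

theorem val_WL (hφ : ∀ c, v (φ c) ≤ 1) (hτ : 1 < v τ) (hη : v η ≤ v τ ^ b) (h : WL b 0 m a) :
    v (e2 φ τ η a) < v τ ^ m := by
  have h0 : 0 < v τ := zero_lt_one.trans hτ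
  have e : e2 φ τ η a = ∑ i ∈ a.support, (a.coeff i).eval₂ φ τ * η ^ i := by
    conv_lhs => rw [a.as_sum_support_C_mul_X_pow]
    simp only [map_pow, map_sum, map_mul, e2_C, e2_X]
  rw [e]
  refine v.map_sum_lt' (pow_pos h0 _) fun i hi => ?_
  have h1 : a.coeff i ≠ 0 := mem_support_iff.1 hi
  have h2 := h i _ (leadingCoeff_ne_zero.2 h1)
  rw [map_mul, map_pow]
  calc v ((a.coeff i).eval₂ φ τ) * v η ^ i ≤ v τ ^ (a.coeff i).natDegree * (v τ ^ b) ^ i :=
        mul_le_mul' (cvv_inner hφ hτ.le le_rfl fun j hj => le_natDegree_of_ne_zero hj)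
          (pow_le_pow_left' hη _)
    _ = v τ ^ ((a.coeff i).natDegree + b * i) := by rw [← pow_mul, ← pow_add]
    _ < v τ ^ m := pow_lt_pow_right₀ hτ (by omega)

theorem cvv_lead_sub (hφ : ∀ c, v (φ c) ≤ 1) (hτ : 1 < v τ) (hη : v η ≤ v τ ^ b)
    (h : Lead b m G) : v (e2 φ τ η G - τ ^ m) < v τ ^ m := by
  have := val_WL hφ hτ hη h
  rwa [map_sub, e2_C, eval₂_X_pow] at this

theorem cvv_eq_of_sub {x y : F} (h : v (x - y) < v y) : v x = v y := by
  have := v.map_add_eq_of_lt_left h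
  rwa [add_sub_cancel] at this

theorem val_lead (hφ : ∀ c, v (φ c) ≤ 1) (hτ : 1 < v τ) (hη : v η ≤ v τ ^ b) (h : Lead b m G) :
    v (e2 φ τ η G) = v τ ^ m := by
  have := cvv_lead_sub hφ hτ hη h
  rw [← map_pow] at this ⊢
  exact cvv_eq_of_sub this

/-- common zeros of the curve and of a leading function are integral -/
theorem val_zero (hφ : ∀ c, v (φ c) ≤ 1) (hχ : Wt b δ χ) (h : Lead b m G) (h0 : e2 φ τ η χ = 0)
    (h1 : e2 φ τ η G = 0) : v τ ≤ 1 ∧ v η ≤ 1 := by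
  have hτ : v τ ≤ 1 := by
    by_contra hc
    rw [not_le] at hc
    have := val_lead hφ hc (val_root hφ hc hχ h0) h
    rw [h1, map_zero] at this
    exact (pow_pos (zero_lt_one.trans hc) _).ne this
  refine ⟨hτ, cvv_root hχ.monic (fun i _ => ?_) h0⟩
  rw [one_pow, ← one_pow (χ.coeff i).natDegree]
  exact cvv_inner hφ le_rfl hτ fun j hj => le_natDegree_of_ne_zero hj

theorem cvv_prod_coeff {r : Γ} (s : Multiset F) (hs : ∀ y ∈ s, v y ≤ r) (i : ℕ) :
    v ((s.map fun y => X - C y).prod.coeff i) * r ^ i ≤ r ^ s.card := by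
  induction s using Multiset.induction_on generalizing i with
  | empty =>
    rcases i with _ | i
    · simp
    · simp [coeff_one]
  | cons y s ih =>
    have hy := hs y (Multiset.mem_cons_self _ _)
    have ih' := ih fun z hz => hs z (Multiset.mem_cons_of_mem hz)
    rw [Multiset.map_cons, Multiset.prod_cons, Multiset.card_cons, sub_mul, coeff_sub, coeff_C_mul]
    have h2 : v (y * (s.map fun y => X - C y).prod.coeff i) * r ^ i ≤ r ^ (s.card + 1) := by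
      rw [map_mul, mul_assoc, pow_succ']
      exact mul_le_mul' hy (ih' i)
    have h1 : v ((X * (s.map fun y => X - C y).prod).coeff i) * r ^ i ≤ r ^ (s.card + 1) := by
      rcases i with _ | i
      · simp
      · rw [coeff_X_mul, pow_succ, ← mul_assoc, pow_succ]
        exact mul_le_mul' (ih' i) le_rfl
    refine (mul_le_mul' (v.map_sub _ _) le_rfl).trans ?_
    rw [max_mul]
    exact max_le h1 h2

theorem cvv_prod_sub {t : F} (ht : t ≠ 0) (s : Multiset F) (hs : ∀ y ∈ s, v (y - t) < v t) :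
    v (s.prod - t ^ s.card) < v (t ^ s.card) := by
  have h0 : 0 < v t := (Valuation.pos_iff v).2 ht
  induction s using Multiset.induction_on with
  | empty => simp
  | cons y s ih =>
    have hy := hs y (Multiset.mem_cons_self _ _)
    have ih' := ih fun z hz => hs z (Multiset.mem_cons_of_mem hz)
    have h1 := cvv_eq_of_sub ih'
    have h2 : 0 < v (t ^ s.card) := by rw [map_pow]; exact pow_pos h0 _
    rw [Multiset.prod_cons, Multiset.card_cons, pow_succ',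
      show y * s.prod - t * t ^ s.card = (y - t) * s.prod + t * (s.prod - t ^ s.card) by ring,
      map_mul]
    refine v.map_add_lt ?_ ?_
    · rw [map_mul, h1]
      exact mul_lt_mul_of_pos_right hy h2
    · rw [map_mul]
      exact mul_lt_mul_of_pos_left ih' h0

end val

variable {𝕜 : Type} [Field 𝕜] {b δ m : ℕ} {χ χ₁ χ₂ G : 𝕜[X][X]}

theorem cvv_poly {F Γ : Type} [Field F] [LinearOrderedCommGroupWithZero Γ] {v : Valuation F Γ}
    {φ : 𝕜 →+* F} {τ : F} (hφ : ∀ c, v (φ c) ≤ 1) (hτ : 1 < v τ) {u : 𝕜[X]} (hu : u ≠ 0) :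
    v (u.eval₂ φ τ) = v τ ^ u.natDegree := by
  have h0 : 0 < v τ := zero_lt_one.trans hτ
  have h1 : v (φ u.leadingCoeff) = 1 := by
    refine le_antisymm (hφ _) ?_
    have h2 := hφ u.leadingCoeff⁻¹
    have h3 : 0 < v (φ u.leadingCoeff) :=
      (Valuation.pos_iff v).2 ((map_ne_zero φ).2 (leadingCoeff_ne_zero.2 hu))
    rwa [map_inv₀, map_inv₀, inv_le_one₀ h3] at h2
  have h2 : v (φ u.leadingCoeff * τ ^ u.natDegree) = v τ ^ u.natDegree := by
    rw [map_mul, h1, one_mul, map_pow]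
  rw [eval₂_eq_sum_range, Finset.sum_range_succ, coeff_natDegree, ← h2]
  refine v.map_add_eq_of_lt_right ?_
  rw [h2]
  refine v.map_sum_lt' (pow_pos h0 _) fun j hj => ?_
  rw [map_mul, map_pow]
  calc v (φ (u.coeff j)) * v τ ^ j ≤ 1 * v τ ^ j := mul_le_mul' (hφ _) le_rfl
    _ < v τ ^ u.natDegree := by
      rw [one_mul]; exact pow_lt_pow_right₀ hτ (Finset.mem_range.1 hj)

/-- a place at infinity of an algebraic closure of the rational function field -/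
theorem cvv_exists (𝕜 : Type) [Field 𝕜] :
    ∃ (B : ValuationSubring (AlgebraicClosure (RatFunc 𝕜)))
      (φ : 𝕜 →+* AlgebraicClosure (RatFunc 𝕜)) (τ : AlgebraicClosure (RatFunc 𝕜)),
      (∀ c, B.valuation (φ c) ≤ 1) ∧ 1 < B.valuation τ := by
  let ψ : 𝕜[X] →+* AlgebraicClosure (RatFunc 𝕜) :=
    (algebraMap (RatFunc 𝕜) _).comp (algebraMap 𝕜[X] (RatFunc 𝕜))
  have hψ : Function.Injective ψ :=
    (algebraMap (RatFunc 𝕜) _).injective.comp (IsFractionRing.injective 𝕜[X] (RatFunc 𝕜))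
  have hI : Ideal.span {(⟨ψ X, X, rfl⟩ : ψ.range)} ≠ ⊤ := by
    rw [Ne, Ideal.span_singleton_eq_top, isUnit_iff_exists_inv]
    rintro ⟨⟨_, f, rfl⟩, hf⟩
    have h1 : ψ (X * f) = ψ 1 := by
      rw [map_mul, map_one]; exact congrArg Subtype.val hf
    exact not_isUnit_X (IsUnit.of_mul_eq_one _ (hψ h1))
  obtain ⟨B, hB, hB'⟩ := Ideal.image_subset_nonunits_valuationSubring _ hI
  have h1 : B.valuation (ψ X) < 1 :=
    (B.mem_nonunits_iff).1 (hB' ⟨_, Ideal.subset_span rfl, rfl⟩)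
  have h2 : 0 < B.valuation (ψ X) :=
    (Valuation.pos_iff _).2 ((map_ne_zero_iff ψ hψ).2 X_ne_zero)
  refine ⟨B, ψ.comp C, (ψ X)⁻¹, fun c => (B.valuation_le_one_iff _).2 (hB ⟨C c, rfl⟩), ?_⟩
  rw [map_inv₀]
  exact (one_lt_inv₀ h2).2 h1

theorem cvv_mem_roots {F : Type} [Field F] {φ : 𝕜 →+* F} {τ η : F} (hm : χ.Monic)
    (h : η ∈ (χ.map (eval₂RingHom φ τ)).roots) : e2 φ τ η χ = 0 := by
  rw [e2_eq_eval]
  exact (mem_roots (hm.map _).ne_zero).1 h

theorem Wt.of_mul (hχ : Wt b δ (χ₁ * χ₂)) (h₁ : χ₁.Monic) (h₂ : χ₂.Monic) :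
    Wt b χ₁.natDegree χ₁ := by
  refine ⟨h₁, rfl, fun i j hj => ?_⟩
  obtain ⟨B, φ, τ, hφ, hτ⟩ := cvv_exists 𝕜
  have hs : (χ₁.map (eval₂RingHom φ τ)).Splits := IsAlgClosed.splits _
  have h1 := cvv_prod_coeff (v := B.valuation) (r := B.valuation τ ^ b)
    (χ₁.map (eval₂RingHom φ τ)).roots (fun y hy => val_root hφ hτ hχ (by
      rw [map_mul, cvv_mem_roots h₁ hy, zero_mul])) i
  have h2 : χ₁.coeff i ≠ 0 := fun e => hj (by rw [e, coeff_zero])
  rw [← hs.eq_prod_roots_of_monic (h₁.map _), ← hs.natDegree_eq_card_roots, h₁.natDegree_map,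
    coeff_map, coe_eval₂RingHom, cvv_poly hφ hτ h2, ← pow_mul, ← pow_mul, ← pow_add,
    pow_le_pow_iff_right₀ hτ] at h1
  have := le_natDegree_of_ne_zero hj
  omega

theorem Lead.res (hχ : Wt b δ χ) (h : Lead b m G) :
    (resultant χ G).Monic ∧ (resultant χ G).natDegree = δ * m := by
  obtain ⟨B, φ, τ, hφ, hτ⟩ := cvv_exists 𝕜
  have hs : (χ.map (eval₂RingHom φ τ)).Splits := IsAlgClosed.splits _
  have hτ0 : τ ≠ 0 := (Valuation.pos_iff _).1 (zero_lt_one.trans hτ)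
  have h1 := resultant_eq_prod_eval (χ.map (eval₂RingHom φ τ)) (G.map (eval₂RingHom φ τ))
    G.natDegree natDegree_map_le hs
  rw [(hχ.monic.map _).leadingCoeff, one_pow, one_mul, hχ.monic.natDegree_map,
    resultant_map_map, coe_eval₂RingHom] at h1
  have h2 := cvv_prod_sub (v := B.valuation) (pow_ne_zero m hτ0)
    ((χ.map (eval₂RingHom φ τ)).roots.map (G.map (eval₂RingHom φ τ)).eval) (fun y hy => by
      obtain ⟨η, hη, rfl⟩ := Multiset.mem_map.1 hy
      rw [← e2_eq_eval, map_pow]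
      exact cvv_lead_sub hφ hτ (val_root hφ hτ hχ (cvv_mem_roots hχ.monic hη)) h)
  rw [← h1, Multiset.card_map, ← hs.natDegree_eq_card_roots, hχ.monic.natDegree_map, hχ.deg,
    ← pow_mul, mul_comm m δ, map_pow, ← eval₂_X_pow (f := φ) (x := τ), ← eval₂_sub] at h2
  have h3 : (resultant χ G - X ^ (δ * m)).degree < (X ^ (δ * m) : 𝕜[X]).degree := by
    rw [degree_X_pow]
    by_cases h0 : resultant χ G - X ^ (δ * m) = 0
    · rw [h0, degree_zero]; exact WithBot.bot_lt_coe _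
    · rw [← hχ.deg] at h0
      rw [← hχ.deg, cvv_poly hφ hτ h0, pow_lt_pow_iff_right₀ hτ] at h2
      rw [← hχ.deg, degree_eq_natDegree h0]
      exact_mod_cast h2
  have e : resultant χ G = X ^ (δ * m) + (resultant χ G - X ^ (δ * m)) := by ring
  refine ⟨by rw [e]; exact (monic_X_pow _).add_of_left h3, ?_⟩
  rw [e, natDegree_add_eq_left_of_degree_lt h3, natDegree_X_pow]

theorem cvv_deg_add (c : Cv 𝕜) (h : c.χ = χ₁ * χ₂) (h₁ : χ₁.Monic) (h₂ : χ₂.Monic) :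
    c.δ = χ₁.natDegree + χ₂.natDegree ∧ Wt c.b χ₁.natDegree χ₁ ∧ Wt c.b χ₂.natDegree χ₂ :=
  ⟨by rw [← c.wt.deg, h, h₁.natDegree_mul h₂], Wt.of_mul (h ▸ c.wt) h₁ h₂,
    Wt.of_mul (χ₂ := χ₁) (δ := c.δ) (by rw [mul_comm, ← h]; exact c.wt) h₂ h₁⟩

/-- the curve data of a component -/
noncomputable def Cv.factor (c : Cv 𝕜) (χ₁ χ₂ : 𝕜[X][X]) (h : c.χ = χ₁ * χ₂) (h₁ : χ₁.Monic)
    (h₂ : χ₂.Monic) : Cv 𝕜 where
  χ := χ₁
  α := c.α * χ₂ + c.β * derivative χ₂
  β := c.β * χ₂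
  ρ := c.ρ
  δ := χ₁.natDegree
  b := c.b
  w := c.w
  wt := Wt.of_mul (h ▸ c.wt) h₁ h₂
  rho := by rw [c.rho, h, derivative_mul]; ring
  deg := c.deg
  wβ := by
    obtain ⟨e, -, w2⟩ := cvv_deg_add c h h₁ h₂
    refine (c.wβ.mul w2.wt).mono ?_
    rw [e, mul_add]
    omega

theorem Cv.factor_wl (c : Cv 𝕜) (h : c.χ = χ₁ * χ₂) (h₁ : χ₁.Monic) (h₂ : χ₂.Monic) :
    WL c.b 0 (c.w + 1) (c.β * derivative χ₁ * χ₂) ∧ χ₁.natDegree ≤ c.δ := by
  obtain ⟨e, w1, w2⟩ := cvv_deg_add c h h₁ h₂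
  refine ⟨((c.wβ.mul w1.derivative).mul w2.wt).mono ?_, by omega⟩
  rw [e, mul_add]
  omega

end Pool.Agent.ZeroCyc
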