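import Mathlib

/-!
Zero-cycles of degree zero modulo rational equivalence on a closed subvariety of projective space.
-/

namespace Pool.Agent.ZeroCyc

open scoped Classical IntermediateField LinearAlgebra.Projectivization

/-- An `Λ`-valued point of the smooth complete curve with function field `F / K`: a normalised
discrete valuation `v` of `F` and a ring homomorphism over `K` from its valuation ring to `Λ`. -/
structure Place (K F Λ : Type) [Field K] [Field F] [Field Λ] [Algebra K F] [Algebra K Λ] where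
  v : Valuation F (WithZero (Multiplicative ℤ))
  surj : Function.Surjective v
  ev : v.integer →+* Λ
  ev_alg : ∀ c : K, ∃ h, ev ⟨algebraMap K F c, h⟩ = algebraMap K Λ c

variable {K : Type} [Field K] {N : ℕ} (J : Ideal (MvPolynomial (Fin (N + 1)) K))

/-- the vector `g` of homogeneous coordinates is a zero of the ideal `J` -/
def OnX {F : Type} [Field F] [Algebra K F] (g : Fin (N + 1) → F) : Prop :=
  ∀ G ∈ J, MvPolynomial.aeval g G = 0

/-- the point with homogeneous coordinates `g` in `F` specialises to `y` at the place `P` -/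
def Sp {F Λ : Type} [Field F] [Field Λ] [Algebra K F] [Algebra K Λ] (P : Place K F Λ)
    (g : Fin (N + 1) → F) (y : ℙ Λ (Fin (N + 1) → Λ)) : Prop :=
  ∃ (c : F) (hc : ∀ i, c * g i ∈ P.v.integer) (h : (fun i => P.ev ⟨c * g i, hc i⟩) ≠ 0),
    y = Projectivization.mk Λ _ h

variable (Λ : Type) [Field Λ] [Algebra K Λ]

/-- Cycles rationally equivalent to zero: generated by the push-forwards `g_* div f` of principal
divisors along the maps `g` from smooth complete curves to the variety. -/
noncomputable def RatEq : AddSubgroup (ℙ Λ (Fin (N + 1) → Λ) →₀ ℤ) :=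
  AddSubgroup.closure {D | ∃ (F : Type) (_ : Field F) (_ : Algebra K F) (t : F),
    Transcendental K t ∧ FiniteDimensional K⟮t⟯ F ∧ ∃ (g : Fin (N + 1) → F) (f : F),
      g ≠ 0 ∧ OnX J g ∧ f ≠ 0 ∧
        ∀ y, D y = ∑ᶠ (P : Place K F Λ) (_ : Sp P g y), -WithZero.log (P.v f)}

/-- Zero-cycles of degree zero: Galois-invariant finitely supported functions on the `Λ`-points of
the variety with total sum `0`. -/
noncomputable def Cyc0 : AddSubgroup (ℙ Λ (Fin (N + 1) → Λ) →₀ ℤ) where
  carrier := {D | (∀ y, D y ≠ 0 → OnX J y.rep) ∧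
    (∀ (σ : Λ ≃ₐ[K] Λ) (v : Fin (N + 1) → Λ) (h : v ≠ 0) (h' : σ ∘ v ≠ 0),
      D (Projectivization.mk Λ _ h') = D (Projectivization.mk Λ v h)) ∧ D.degree = 0}
  zero_mem' := ⟨fun _ h => absurd rfl h, fun _ _ _ _ => rfl, map_zero _⟩
  add_mem' := fun {a b} ha hb => ⟨fun y h => by
    by_cases h1 : a y = 0
    · exact hb.1 y fun h2 => h (by rw [Finsupp.add_apply, h1, h2, add_zero])
    · exact ha.1 y h1, fun σ v h h' => by
    rw [Finsupp.add_apply, Finsupp.add_apply, ha.2.1, hb.2.1], by
    rw [map_add, ha.2.2, hb.2.2, add_zero]⟩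
  neg_mem' := fun {a} ha => ⟨fun y h => ha.1 y fun h1 => h (by rw [Finsupp.neg_apply, h1, neg_zero]),
    fun σ v h h' => by rw [Finsupp.neg_apply, Finsupp.neg_apply, ha.2.1], by
    rw [map_neg, ha.2.2, neg_zero]⟩

/-- The degree-zero Chow group of zero-cycles. -/
abbrev A0 : Type := Cyc0 J Λ ⧸ (RatEq J Λ).addSubgroupOf (Cyc0 J Λ)

/-- The maximal divisible subgroup. -/
noncomputable def maxDiv (A : Type) [AddCommGroup A] : AddSubgroup A :=
  sSup {H | ∀ n : ℕ, n ≠ 0 → ∀ x ∈ H, ∃ y ∈ H, n • y = x}

/-- `I` is a homogeneous ideal that defines a smooth projective scheme over `O` with geometrically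
irreducible fibres. -/
structure GoodModel (O : Type) [CommRing O] (I : Ideal (MvPolynomial (Fin (N + 1)) O)) : Prop where
  hom : ∀ G ∈ I, ∀ n, MvPolynomial.homogeneousComponent n G ∈ I
  smooth : ∀ i, Algebra.Smooth O
    (MvPolynomial (Fin (N + 1)) O ⧸ (I ⊔ Ideal.span {MvPolynomial.X i - 1}))
  irred : ∀ (κ : Type) [Field κ] [IsAlgClosed κ] [Algebra O κ],
    (I.map (MvPolynomial.map (algebraMap O κ))).radical.IsPrime

end Pool.Agent.ZeroCyc
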