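import Pool.Agent.Lib.MP_796ce4_ag.ZY.CvJ

/-! The twisted Frobenius on a linear system. -/

namespace Pool.Agent.ZeroCyc

open Polynomial Module
open scoped Classical IntermediateField PowerSeries

set_option linter.unusedSectionVars false

variable {𝕜 : Type} [Field 𝕜] [IsAlgClosed 𝕜]

namespace Cv

theorem ffc_smul (t : 𝕜) (a : 𝕜[X][X]) : t • a = C (C t) * a := by
  rw [Algebra.smul_def]
  rfl

/-- pairs `(t, a)` such that `t u + ρ a` vanishes along `Z` -/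
def ffc_W (c : Cv 𝕜) (u : 𝕜[X]) (Z : 𝕜 × 𝕜 →₀ ℤ) : Submodule 𝕜 (𝕜 × 𝕜[X][X]) where
  carrier := {x | x.2 ∈ Wsp c.b c.δ c.w u.natDegree ∧
    ∀ Q, Z Q ≠ 0 → Van c.χ Q (Z Q).toNat (c.G (C x.1 * u) x.2)}
  zero_mem' := ⟨zero_mem _, fun Q _ => by simp [Van, G]⟩
  add_mem' := fun {x y} hx hy => ⟨add_mem hx.1 hy.1, fun Q hQ => by
    convert (hx.2 Q hQ).add (hy.2 Q hQ) using 1
    simp only [G, Prod.fst_add, Prod.snd_add, map_add, map_mul]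
    ring⟩
  smul_mem' := fun t x hx => ⟨Submodule.smul_mem _ _ hx.1, fun Q hQ => by
    convert (hx.2 Q hQ).mul_left (C (C t)) using 1
    simp only [G, Prod.smul_fst, Prod.smul_snd, ffc_smul, smul_eq_mul, map_mul]
    ring⟩

theorem ffc_fin (c : Cv 𝕜) (u : 𝕜[X]) (Z : 𝕜 × 𝕜 →₀ ℤ) : FiniteDimensional 𝕜 (ffc_W c u Z) := by
  have h1 : ((⊤ : Submodule 𝕜 𝕜).prod (Wsp (𝕜 := 𝕜) c.b c.δ c.w u.natDegree)).FG :=
    Submodule.FG.prod Module.Finite.fg_top (Module.Finite.iff_fg.1 (Wsp_finite _ _ _ _))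
  have h2 := Module.Finite.iff_fg.2 h1
  exact Submodule.finiteDimensional_of_le (S₂ := (⊤ : Submodule 𝕜 𝕜).prod
    (Wsp (𝕜 := 𝕜) c.b c.δ c.w u.natDegree)) fun x hx => ⟨trivial, hx.1⟩

theorem ffc_ker {c : Cv 𝕜} {u : 𝕜[X]} {Z : 𝕜 × 𝕜 →₀ ℤ} (hZ : Z ∈ c.Dv) :
    finrank 𝕜 (LinearMap.ker ((LinearMap.fst 𝕜 _ _).comp (ffc_W c u Z).subtype)) =
      finrank 𝕜 (c.Vs u.natDegree Z) := by
  let g := ((LinearMap.snd 𝕜 𝕜 _).comp (ffc_W c u Z).subtype).comp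
      (LinearMap.ker ((LinearMap.fst 𝕜 _ _).comp (ffc_W c u Z).subtype)).subtype
  have hg : Function.Injective g := by
    intro x y hxy
    have h1 : x.1.1.1 = 0 := x.2
    have h2 : y.1.1.1 = 0 := y.2
    exact Subtype.ext (Subtype.ext (Prod.ext (h1.trans h2.symm) hxy))
  have hr : LinearMap.range g = c.Vs u.natDegree Z := by
    ext a
    constructor
    · rintro ⟨x, rfl⟩
      refine ⟨x.1.2.1, fun Q hQ => ?_⟩
      have h1 : x.1.1.1 = 0 := x.2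
      have h2 := x.1.2.2 Q hQ
      obtain ⟨h3, h4⟩ := oq_eq_zero (G := C c.ρ) c.wt.monic (hZ Q hQ).et
        (by rw [ee_C]; exact (hZ Q hQ).2)
      refine Van.cancel h3 ?_
      rw [h4, zero_add]
      change Van c.χ Q (Z Q).toNat (C c.ρ * x.1.1.2)
      simpa [G, h1] using h2
    · intro ha
      refine ⟨⟨⟨(0, a), ha.1, fun Q hQ => ?_⟩, rfl⟩, rfl⟩
      simpa [G] using (ha.2 Q hQ).mul_left (C c.ρ)
  rw [← LinearMap.finrank_range_of_inj hg, hr]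

theorem ffc_uniq {c : Cv 𝕜} {V : 𝕜[X]} (hV : V ≠ 0) {m : ℕ} {a a' s : 𝕜[X][X]}
    (ha : a ∈ Wsp c.b c.δ c.w m) (ha' : a' ∈ Wsp c.b c.δ c.w m) (h : c.χ ∣ C V * a - s)
    (h' : c.χ ∣ C V * a' - s) : a = a' := by
  have h1 : c.χ ∣ C V * (a - a') := by
    convert dvd_sub h h' using 1
    ring
  have h2 := eq_zero_of_dvd_of_degree_lt h1 (by
    rw [degree_C_mul hV, degree_eq_natDegree c.wt.monic.ne_zero, c.wt.deg]
    exact (sub_mem ha ha').1)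
  exact sub_eq_zero.1 ((mul_eq_zero.1 h2).resolve_left (C_ne_zero.2 hV))

/-- the numerator of the twisted Frobenius -/
noncomputable def ffc_s (F : 𝕜 →+* 𝕜) (c : Cv 𝕜) (u v : 𝕜[X]) (a0 : 𝕜[X][X]) (t : 𝕜)
    (a : 𝕜[X][X]) : 𝕜[X][X] :=
  C u * (C (C (F t) * u.map F) * a0 + mp F a * c.G v a0)

theorem ffc_prod {F : 𝕜 →+* 𝕜} {c : Cv 𝕜} (hF : c.Inv F) (u v : 𝕜[X]) (a0 : 𝕜[X][X]) (t : 𝕜)
    (a : 𝕜[X][X]) : c.G (C (F t) * u * (u.map F * v)) (ffc_s F c u v a0 t a) =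
      mp F (c.G (C t * u) a) * C u * c.G v a0 := by
  simp only [G, ffc_s, map_add, map_mul, mp_C, hF.ρ, map_C]
  ring

theorem ffc_cop {F : 𝕜 →+* 𝕜} {c : Cv 𝕜} (hF : c.Inv F) {u : 𝕜[X]} (hu : IsCoprime u c.ρ) :
    IsCoprime (u.map F) c.ρ := by
  have h := hu.map (mapRingHom F)
  rwa [coe_mapRingHom, hF.ρ] at h

theorem ffc_dvC {F : 𝕜 →+* 𝕜} {c : Cv 𝕜} (hF : c.Inv F) {u v : 𝕜[X]} (hu : u.Monic)
    (hu' : IsCoprime u c.ρ) (hv : v.Monic) :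
    dv c.χ (C (u.map F * v)) = psh (pm F) (dv c.χ (C u)) + dv c.χ (C v) := by
  rw [C_mul, (lead_C (hu.map F)).dv_mul c.wt (lead_C hv), ← mp_C,
    hF.dv_map (lead_C hu) (adm_C hu')]

theorem ffc_step {F : 𝕜 →+* 𝕜} {c : Cv 𝕜} (hF : c.Inv F) {u v : 𝕜[X]} {a0 : 𝕜[X][X]}
    {D : 𝕜 × 𝕜 →₀ ℤ} (hu : u.Monic) (hu' : IsCoprime u c.ρ)
    (hle : D ≤ dv c.χ (C u)) (hw : c.Wit v a0)
    (e0 : psh (pm F) D - D = dv c.χ (c.G v a0) - dv c.χ (C v)) (t : 𝕜) {a : 𝕜[X][X]}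
    (ha : a ∈ Wsp c.b c.δ c.w u.natDegree)
    (hv : VanZ c.χ (dv c.χ (C u) - D) (c.G (C t * u) a)) :
    ∃ a' ∈ Wsp c.b c.δ c.w u.natDegree,
      c.χ ∣ C (u.map F * v) * a' - ffc_s F c u v a0 t a ∧
      VanZ c.χ (dv c.χ (C u) - D) (c.G (C (F t) * u) a') := by
  have h0 : 0 ≤ dv c.χ (C u) - D := sub_nonneg.2 hle
  refine exists_div hu ((hu.map F).mul hw.monic) ((ffc_cop hF hu').mul_left hw.cop) (F t) ?_ h0 ?_
  · rw [(hu.map F).natDegree_mul hw.monic, hu.natDegree_map, add_comm u.natDegree (_ + _)]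
    refine WL.C_mul le_rfl (WL.add ?_ ?_)
    · rw [add_comm]
      exact WL.C_mul ((natDegree_C_mul_le _ _).trans natDegree_map_le) hw.wl
    · exact ((ha.2.map F).mul hw.lead.wl).mono (by omega)
  · have h1 : VanZ c.χ (psh (pm F) (dv c.χ (C u) - D)) (mp F (c.G (C t * u) a)) := by
      intro Q' hQ'
      obtain ⟨Q, hQ, rfl⟩ := psh_ne_zero hQ'
      rw [psh_apply_inj (f := pm F) (F.injective.prodMap F.injective)]
      have h2 := And.intro ((Et.map F).2 (hv Q hQ).1) ((hv Q hQ).2.map c.wt.monic (hv Q hQ).1 F)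
      rwa [hF.χ] at h2
    have h2 := (h1.mul ((lead_C hu).vanZ_dv c.wt) (psh_nonneg _ h0) (dv_nonneg _ _)).mul
      (hw.lead.vanZ_dv c.wt) (add_nonneg (psh_nonneg _ h0) (dv_nonneg _ _)) (dv_nonneg _ _)
    rw [ffc_prod hF]
    convert h2 using 1
    rw [ffc_dvC hF hu hu' hw.monic, map_sub]
    linear_combination (norm := abel) e0

theorem ffc_dv {F : 𝕜 →+* 𝕜} {c : Cv 𝕜} (hF : c.Inv F) {u v : 𝕜[X]} {a0 a a' : 𝕜[X][X]}
    {D : 𝕜 × 𝕜 →₀ ℤ} (hu : u.Monic) (hu' : IsCoprime u c.ρ) (hw : c.Wit v a0)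
    (e0 : psh (pm F) D - D = dv c.χ (c.G v a0) - dv c.χ (C v)) (ha : c.Wit u a)
    (ha' : c.Wit u a') (h : c.χ ∣ C (u.map F * v) * a' - ffc_s F c u v a0 1 a) :
    dv c.χ (c.G u a') - (dv c.χ (C u) - D) =
      psh (pm F) (dv c.χ (c.G u a) - (dv c.χ (C u) - D)) := by
  have h1 : c.χ ∣ C (u.map F * v) * c.G u a' - mp F (c.G u a) * C u * c.G v a0 := by
    have h2 := ffc_prod hF u v a0 1 a
    rw [map_one, C_1, one_mul] at h2
    rw [← h2]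
    convert h.mul_left (C c.ρ) using 1
    simp only [G, map_mul]
    ring
  have h2 := dv_congr c.wt.monic h1
  rw [(lead_C ((hu.map F).mul hw.monic)).dv_mul c.wt ha'.lead,
    ((ha.lead.map F).mul (lead_C hu)).dv_mul c.wt hw.lead, (ha.lead.map F).dv_mul c.wt (lead_C hu),
    ffc_dvC hF hu hu' hw.monic, hF.dv_map ha.lead ha.adm] at h2
  rw [map_sub, map_sub]
  linear_combination (norm := abel) h2 - e0

end Cv

end Pool.Agent.ZeroCyc
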