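import Pool.Agent.Lib.MP_796ce4_ag.ZY.CvW

/-! The Euler product recursion and power sums. -/

namespace Pool.Agent.ZeroCyc

open Polynomial Module
open scoped Classical IntermediateField PowerSeries

set_option linter.unusedSectionVars false

section euler

variable {Y : Type}

/-- invariant effective divisors of degree `n` supported in `S` -/
def InvEff (F : Y → Y) (S : Set Y) (n : ℕ) : Set (Y →₀ ℤ) :=
  {D | 0 ≤ D ∧ (∀ y, D y ≠ 0 → y ∈ S) ∧ psh F D = D ∧ D.degree = n}

/-- the norm of a point -/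
noncomputable def nrm (F : Y → Y) (r : ℕ) (y : Y) : Y →₀ ℤ :=
  ∑ i ∈ Finset.range r, Finsupp.single (F^[i] y) 1

/-- coefficients of the `L`-series -/
noncomputable def aL (F : Y → Y) (S : Set Y) (θ : (Y →₀ ℤ) → ℂ) (n : ℕ) : ℂ :=
  ∑ᶠ D ∈ InvEff F S n, θ D

/-- character sums -/
noncomputable def sL (F : Y → Y) (S : Set Y) (θ : (Y →₀ ℤ) → ℂ) (r : ℕ) : ℂ :=
  ∑ᶠ y ∈ {y | y ∈ S ∧ F^[r] y = y}, θ (nrm F r y)

variable {F : Y → Y} {S : Set Y}

theorem ffe_nrm_apply (F : Y → Y) (r : ℕ) (y z : Y) :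
    nrm F r y z = (((Finset.range r).filter fun i => F^[i] y = z).card : ℤ) := by
  rw [nrm, Finsupp.finsetSum_apply]
  simp only [Finsupp.single_apply]
  rw [Finset.sum_boole]

theorem ffe_nrm_nonneg (F : Y → Y) (r : ℕ) (y : Y) : 0 ≤ nrm F r y := fun z => by
  rw [ffe_nrm_apply]
  exact Int.natCast_nonneg _

theorem ffe_nrm_degree (F : Y → Y) (r : ℕ) (y : Y) : (nrm F r y).degree = r := by
  rw [nrm, map_sum]
  simp

theorem ffe_nrm_ne (F : Y → Y) {r : ℕ} {y z : Y} (h : nrm F r y z ≠ 0) :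
    ∃ i, F^[i] y = z := by
  rw [ffe_nrm_apply, Nat.cast_ne_zero, Finset.card_ne_zero] at h
  obtain ⟨i, hi⟩ := h
  exact ⟨i, (Finset.mem_filter.1 hi).2⟩

theorem ffe_nrm_sub (F : Y → Y) (r : ℕ) (y : Y) :
    psh F (nrm F r y) - nrm F r y = Finsupp.single (F^[r] y) 1 - Finsupp.single y 1 := by
  rw [nrm, map_sum, ← Finset.sum_sub_distrib]
  simp only [psh_single]
  have := Finset.sum_range_sub (fun i => (Finsupp.single (F^[i] y) 1 : Y →₀ ℤ)) r
  simpa only [Function.iterate_succ_apply', Function.iterate_zero_apply] using this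

theorem nrm_mem (hS : ∀ y ∈ S, F y ∈ S) {r : ℕ} {y : Y} (hy : y ∈ S) (h : F^[r] y = y) :
    nrm F r y ∈ InvEff F S r := by
  refine ⟨ffe_nrm_nonneg F r y, fun z hz => ?_, ?_, ffe_nrm_degree F r y⟩
  · obtain ⟨i, rfl⟩ := ffe_nrm_ne F hz
    clear hz
    induction i with
    | zero => exact hy
    | succ i ih => rw [Function.iterate_succ_apply']; exact hS _ ih
  · rw [← sub_eq_zero, ffe_nrm_sub, h, sub_self]
theorem psh_nrm_sub (F : Y → Y) (r : ℕ) (y : Y) :
    psh F (nrm F r y) - nrm F r y = Finsupp.single (F^[r] y) 1 - Finsupp.single y 1 :=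
  ffe_nrm_sub F r y

theorem ffe_apply_iter (hF : Function.Injective F) {D : Y →₀ ℤ} (hD : psh F D = D) (i : ℕ)
    (y : Y) : D (F^[i] y) = D y := by
  induction i with
  | zero => rfl
  | succ i ih =>
    rw [Function.iterate_succ_apply', ← ih]
    conv_lhs => rw [← hD]
    exact psh_apply_inj hF D _

theorem exists_period (hF : Function.Injective F) {D : Y →₀ ℤ} (hD : psh F D = D) {y : Y}
    (hy : D y ≠ 0) : ∃ n, 0 < n ∧ n ≤ D.support.card ∧ F^[n] y = y := by
  have key : ∀ i j : ℕ, i < j → j < D.support.card + 1 → F^[i] y = F^[j] y →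
      ∃ n, 0 < n ∧ n ≤ D.support.card ∧ F^[n] y = y := by
    intro i j hij hj h
    obtain ⟨c, rfl⟩ := Nat.exists_eq_add_of_lt hij
    refine ⟨c + 1, by omega, by omega, (hF.iterate i) ?_⟩
    rw [← Function.iterate_add_apply, ← add_assoc, ← h]
  obtain ⟨i, hi, j, hj, hij, h⟩ := Finset.exists_ne_map_eq_of_card_lt_of_maps_to
    (s := Finset.range (D.support.card + 1)) (t := D.support) (by simp) (f := fun i => F^[i] y)
    (fun i _ => by
      rw [Finset.mem_coe, Finsupp.mem_support_iff, ffe_apply_iter hF hD]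
      exact hy)
  rcases lt_or_gt_of_ne hij with h1 | h1
  · exact key i j h1 (Finset.mem_range.1 hj) h
  · exact key j i h1 (Finset.mem_range.1 hi) h.symm

theorem ffe_degree_nonneg {D : Y →₀ ℤ} (h : 0 ≤ D) : 0 ≤ D.degree := by
  rw [Finsupp.degree_apply]
  exact Finset.sum_nonneg fun y _ => h y

theorem ffe_degree_mono {D D' : Y →₀ ℤ} (h : D ≤ D') : D.degree ≤ D'.degree := by
  have := ffe_degree_nonneg (sub_nonneg.2 h)
  rw [map_sub] at this
  linarith

theorem ffe_le_degree {D : Y →₀ ℤ} (h : 0 ≤ D) (y : Y) : D y ≤ D.degree := by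
  have h1 : Finsupp.single y (D y) ≤ D := by
    intro z
    rw [Finsupp.single_apply]
    split_ifs with hz
    · rw [hz]
    · exact h z
  simpa using ffe_degree_mono h1

theorem ffe_card_le {D : Y →₀ ℤ} (h : 0 ≤ D) : (D.support.card : ℤ) ≤ D.degree := by
  rw [Finsupp.degree_apply, Finset.card_eq_sum_ones, Nat.cast_sum]
  refine Finset.sum_le_sum fun y hy => ?_
  have h1 : (0 : ℤ) ≤ D y := h y
  have h2 := Finsupp.mem_support_iff.1 hy
  push_cast
  omega

/-- the points of period at most `n` -/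
theorem ffe_exists_T (hfin : ∀ r, 0 < r → {y | y ∈ S ∧ F^[r] y = y}.Finite) (n : ℕ) :
    ∃ T : Finset Y, ∀ y, y ∈ T ↔ ∃ M < n, y ∈ S ∧ F^[M + 1] y = y := by
  refine ⟨(Finset.range n).biUnion fun M => (hfin (M + 1) M.succ_pos).toFinset, fun y => ?_⟩
  simp

theorem ffe_supp (hF : Function.Injective F) {n : ℕ} {D : Y →₀ ℤ} (hD : D ∈ InvEff F S n) {y : Y}
    (hy : D y ≠ 0) : ∃ M < n, y ∈ S ∧ F^[M + 1] y = y := by
  obtain ⟨h0, h1, h2, h3⟩ := hD
  obtain ⟨r, hr, hr', h⟩ := exists_period hF h2 hy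
  have := ffe_card_le h0
  obtain ⟨M, rfl⟩ := Nat.exists_eq_succ_of_ne_zero hr.ne'
  exact ⟨M, by omega, h1 y hy, h⟩

theorem invEff_finite (hF : Function.Injective F)
    (hfin : ∀ r, 0 < r → {y | y ∈ S ∧ F^[r] y = y}.Finite) (n : ℕ) : (InvEff F S n).Finite := by
  obtain ⟨T, hT⟩ := ffe_exists_T hfin n
  refine (Set.finite_Icc (0 : Y →₀ ℤ) (∑ y ∈ T, Finsupp.single y (n : ℤ))).subset fun D hD => ?_
  refine ⟨hD.1, fun z => ?_⟩
  rw [Finsupp.finsetSum_apply]
  simp only [Finsupp.single_apply]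
  rw [Finset.sum_ite_eq']
  by_cases hz : D z = 0
  · rw [hz]
    split_ifs
    · exact Int.natCast_nonneg _
    · exact le_rfl
  · rw [if_pos ((hT z).2 (ffe_supp hF hD hz)), ← hD.2.2.2]
    exact ffe_le_degree hD.1 z
theorem aL_zero (F : Y → Y) (S : Set Y) {θ : (Y →₀ ℤ) → ℂ} (h0 : θ 0 = 1) : aL F S θ 0 = 1 := by
  have : InvEff F S 0 = {0} := by
    ext D
    constructor
    · rintro ⟨h1, -, -, h4⟩
      exact (eq_of_le_of_degree h1 (by rw [h4]; simp)).symm
    · rintro rfl
      exact ⟨le_rfl, fun y hy => (hy rfl).elim, map_zero _, by simp⟩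
  rw [aL, this, finsum_mem_singleton, h0]

theorem ffe_nrm_mul {d : ℕ} {y : Y} (h : F^[d] y = y) (c : ℕ) :
    nrm F (c * d) y = c • nrm F d y := by
  induction c with
  | zero => simp [nrm]
  | succ c ih =>
    have h1 : F^[c * d] y = y := by
      rw [mul_comm, Function.iterate_mul]
      exact Function.iterate_fixed h c
    rw [add_mul, one_mul, succ_nsmul, ← ih, nrm, Finset.sum_range_add]
    congr 1
    refine Finset.sum_congr rfl fun i _ => ?_
    rw [add_comm, Function.iterate_add_apply, h1]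

theorem ffe_nrm_le_iff (hF : Function.Injective F) {D : Y →₀ ℤ} (h0 : 0 ≤ D) (hD : psh F D = D)
    {y : Y} (hd : 0 < Function.minimalPeriod F y) (c : ℕ) :
    nrm F (c * Function.minimalPeriod F y) y ≤ D ↔ (c : ℤ) ≤ D y := by
  rw [ffe_nrm_mul (Function.iterate_minimalPeriod (f := F) (x := y))]
  constructor
  · intro h
    have h1 : (c : ℤ) * nrm F (Function.minimalPeriod F y) y y ≤ D y := by simpa using h y
    have h2 : 1 ≤ nrm F (Function.minimalPeriod F y) y y := by
      rw [ffe_nrm_apply, Nat.one_le_cast, Finset.one_le_card]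
      exact ⟨0, Finset.mem_filter.2 ⟨Finset.mem_range.2 hd, rfl⟩⟩
    have h3 : (0 : ℤ) ≤ c := Int.natCast_nonneg c
    nlinarith
  · intro h z
    have h1 : nrm F (Function.minimalPeriod F y) y z ≤ 1 := by
      rw [ffe_nrm_apply, Nat.cast_le_one, Finset.card_le_one]
      intro i hi j hj
      rw [Finset.mem_filter, Finset.mem_range] at hi hj
      exact Function.iterate_injOn_Iio_minimalPeriod hi.1 hj.1 (hi.2.trans hj.2.symm)
    change (c • nrm F (Function.minimalPeriod F y) y) z ≤ D z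
    rw [Finsupp.smul_apply, nsmul_eq_mul]
    by_cases hz : nrm F (Function.minimalPeriod F y) y z = 0
    · rw [hz, mul_zero]
      exact h0 z
    · obtain ⟨i, rfl⟩ := ffe_nrm_ne F hz
      rw [ffe_apply_iter hF hD]
      have h3 : (0 : ℤ) ≤ c := Int.natCast_nonneg c
      nlinarith

theorem ffe_count (hF : Function.Injective F) {n : ℕ} {D : Y →₀ ℤ} (hD : D ∈ InvEff F S n) {y : Y}
    {r : ℕ} (hr : F^[r + 1] y = y) :
    (((Finset.range n).filter fun M => F^[M + 1] y = y ∧ nrm F (M + 1) y ≤ D).card : ℤ) = D y := by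
  obtain ⟨h0, -, h2, h3⟩ := hD
  have hd : 0 < Function.minimalPeriod F y :=
    Function.IsPeriodicPt.minimalPeriod_pos r.succ_pos hr
  have hy : (0 : ℤ) ≤ D y := h0 y
  have key : ((Finset.range n).filter fun M => F^[M + 1] y = y ∧ nrm F (M + 1) y ≤ D) =
      (Finset.range (D y).toNat).image fun c => (c + 1) * Function.minimalPeriod F y - 1 := by
    ext M
    rw [Finset.mem_filter, Finset.mem_range, Finset.mem_image]
    constructor
    · rintro ⟨-, h4, h5⟩
      obtain ⟨c, hc⟩ := Function.IsPeriodicPt.minimalPeriod_dvd (f := F) (x := y) h4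
      rw [mul_comm] at hc
      obtain _ | c := c
      · omega
      rw [hc, ffe_nrm_le_iff hF h0 h2 hd] at h5
      exact ⟨c, Finset.mem_range.2 (by omega), by omega⟩
    · rintro ⟨c, hc, hM⟩
      have h6 : 0 < (c + 1) * Function.minimalPeriod F y := Nat.mul_pos c.succ_pos hd
      have h7 : M + 1 = (c + 1) * Function.minimalPeriod F y := by omega
      have h8 : nrm F (M + 1) y ≤ D := by
        rw [h7, ffe_nrm_le_iff hF h0 h2 hd]
        have := Finset.mem_range.1 hc
        omega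
      have h9 := ffe_degree_mono h8
      rw [ffe_nrm_degree, h3] at h9
      refine ⟨by omega, ?_, h8⟩
      rw [h7]
      exact (Function.isPeriodicPt_minimalPeriod F y).const_mul (c + 1)
  rw [key, Finset.card_image_of_injective, Finset.card_range, Int.toNat_of_nonneg hy]
  intro a b hab
  have h6 : 0 < (a + 1) * Function.minimalPeriod F y := Nat.mul_pos a.succ_pos hd
  have h7 : 0 < (b + 1) * Function.minimalPeriod F y := Nat.mul_pos b.succ_pos hd
  have h8 : (a + 1) * Function.minimalPeriod F y = (b + 1) * Function.minimalPeriod F y := by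
    simp only at hab
    omega
  have := Nat.eq_of_mul_eq_mul_right hd h8
  omega

theorem ffe_shift {θ : (Y →₀ ℤ) → ℂ}
    (hθ : ∀ m n, ∀ D ∈ InvEff F S m, ∀ D' ∈ InvEff F S n, θ (D + D') = θ D * θ D') {m n : ℕ}
    (hmn : m ≤ n) {N : Y →₀ ℤ} (hN : N ∈ InvEff F S m) (h1 : (InvEff F S (n - m)).Finite)
    (h2 : (InvEff F S n).Finite) :
    θ N * aL F S θ (n - m) = ∑ D ∈ h2.toFinset, if N ≤ D then θ D else 0 := by
  rw [aL, finsum_mem_eq_finite_toFinset_sum _ h1, Finset.mul_sum, ← Finset.sum_filter]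
  refine Finset.sum_nbij' (fun D => N + D) (fun D => D - N) ?_ ?_ ?_ ?_ ?_
  · intro D hD
    rw [Set.Finite.mem_toFinset] at hD
    rw [Finset.mem_filter, Set.Finite.mem_toFinset]
    refine ⟨⟨add_nonneg hN.1 hD.1, fun y hy => ?_, by rw [map_add, hN.2.2.1, hD.2.2.1], ?_⟩,
      le_add_of_nonneg_right hD.1⟩
    · by_cases h : N y = 0
      · exact hD.2.1 y fun h' => hy (by rw [Finsupp.add_apply, h, h', add_zero])
      · exact hN.2.1 y h
    · rw [map_add, hN.2.2.2, hD.2.2.2]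
      omega
  · intro D hD
    rw [Finset.mem_filter, Set.Finite.mem_toFinset] at hD
    rw [Set.Finite.mem_toFinset]
    refine ⟨sub_nonneg.2 hD.2, fun y hy => ?_, by rw [map_sub, hN.2.2.1, hD.1.2.2.1], ?_⟩
    · by_cases h : N y = 0
      · exact hD.1.2.1 y fun h' => hy (by rw [Finsupp.sub_apply, h, h', sub_zero])
      · exact hN.2.1 y h
    · rw [map_sub, hN.2.2.2, hD.1.2.2.2]
      omega
  · intro D _
    simp
  · intro D _
    simp
  · intro D hD
    rw [Set.Finite.mem_toFinset] at hD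
    exact (hθ _ _ N hN D hD).symm

theorem euler (hF : Function.Injective F) (hS : ∀ y ∈ S, F y ∈ S)
    (hfin : ∀ r, 0 < r → {y | y ∈ S ∧ F^[r] y = y}.Finite) {θ : (Y →₀ ℤ) → ℂ}
    (hθ : ∀ m n, ∀ D ∈ InvEff F S m, ∀ D' ∈ InvEff F S n, θ (D + D') = θ D * θ D') (n : ℕ) :
    (n : ℂ) * aL F S θ n = ∑ M ∈ Finset.range n, sL F S θ (M + 1) * aL F S θ (n - (M + 1)) := by
  obtain ⟨T, hT⟩ := ffe_exists_T hfin n
  have hE := invEff_finite hF hfin n
  have h1 : ∀ M ∈ Finset.range n, sL F S θ (M + 1) * aL F S θ (n - (M + 1)) =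
      ∑ y ∈ T, ∑ D ∈ hE.toFinset,
        if F^[M + 1] y = y ∧ nrm F (M + 1) y ≤ D then θ D else 0 := by
    intro M hM
    have hM' := Finset.mem_range.1 hM
    have e : {y | y ∈ S ∧ F^[M + 1] y = y} = ↑(T.filter fun y => F^[M + 1] y = y) := by
      ext y
      rw [Finset.coe_filter, Set.mem_ofPred_eq, Set.mem_ofPred_eq, hT]
      exact ⟨fun h => ⟨⟨M, hM', h⟩, h.2⟩, fun h => ⟨h.1.choose_spec.2.1, h.2⟩⟩
    rw [sL, e, finsum_mem_coe_finset, Finset.sum_mul, Finset.sum_filter]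
    refine Finset.sum_congr rfl fun y hy => ?_
    by_cases h : F^[M + 1] y = y
    · rw [if_pos h, ffe_shift hθ hM' (nrm_mem hS ((hT y).1 hy).choose_spec.2.1 h)
        (invEff_finite hF hfin _) hE]
      simp only [h, true_and]
    · simp only [h, false_and, if_false, Finset.sum_const_zero]
  rw [Finset.sum_congr rfl h1, aL, finsum_mem_eq_finite_toFinset_sum _ hE, Finset.mul_sum,
    Finset.sum_comm, Finset.sum_congr rfl fun y _ => Finset.sum_comm, Finset.sum_comm]
  refine Finset.sum_congr rfl fun D hD => ?_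
  rw [Set.Finite.mem_toFinset] at hD
  have h2 : ∀ y ∈ T, (∑ M ∈ Finset.range n,
      if F^[M + 1] y = y ∧ nrm F (M + 1) y ≤ D then θ D else 0) = (D y : ℂ) * θ D := by
    intro y hy
    obtain ⟨r, -, -, hr⟩ := (hT y).1 hy
    rw [← Finset.sum_filter, Finset.sum_const, nsmul_eq_mul, ← ffe_count hF hD hr, Int.cast_natCast]
  rw [Finset.sum_congr rfl h2, ← Finset.sum_mul, ← Int.cast_sum]
  congr 1
  have h3 : ∑ y ∈ T, D y = n := by
    rw [← hD.2.2.2, Finsupp.degree_apply]
    refine (Finset.sum_subset (fun y hy => ?_) fun y _ hy => ?_).symm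
    · exact (hT y).2 (ffe_supp hF hD (Finsupp.mem_support_iff.1 hy))
    · exact Finsupp.notMem_support_iff.1 hy
  rw [h3, Int.cast_natCast]

end euler

end Pool.Agent.ZeroCyc
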