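import Pool.Agent.Lib.MP_796ce4_ag.ZY.FfS
import Pool.Agent.Lib.MP_796ce4_ag.ZY.FfE
import Pool.Agent.Lib.MP_796ce4_ag.ZY.CvJ
import Pool.Agent.Lib.MP_796ce4_ag.ZY.CvQ
import Pool.Agent.Lib.MP_796ce4_ag.ZY.CvB
import Pool.Agent.Lib.MP_796ce4_ag.ZY.FfC1

/-! Counting invariant effective divisors in an invariant class. -/

namespace Pool.Agent.ZeroCyc

open Polynomial Module
open scoped Classical IntermediateField PowerSeries

set_option linter.unusedSectionVars false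

variable {p : ℕ} [Fact p.Prime] {𝕜 κ : Type} [Field 𝕜] [CharP 𝕜 p] [IsAlgClosed 𝕜] [Field κ]
  [CharP κ p] [IsAlgClosed κ] {r : ℕ}

namespace Cv

/-- invariant divisors supported at good points -/
noncomputable def DvF {𝕜 : Type} [Field 𝕜] (c : Cv 𝕜) (F : 𝕜 →+* 𝕜) : AddSubgroup (𝕜 × 𝕜 →₀ ℤ) :=
  c.Dv ⊓ (psh (pm F) - AddMonoidHom.id _).ker

theorem mem_DvF {c : Cv 𝕜} {F : 𝕜 →+* 𝕜} {D : 𝕜 × 𝕜 →₀ ℤ} :
    D ∈ c.DvF F ↔ D ∈ c.Dv ∧ psh (pm F) D = D := by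
  unfold DvF
  rw [AddSubgroup.mem_inf, AddMonoidHom.mem_ker, AddMonoidHom.sub_apply, AddMonoidHom.id_apply,
    sub_eq_zero]

theorem finite_fixed (c : Cv 𝕜) (hr : 0 < r) (n : ℕ) (hn : 0 < n) :
    {y | y ∈ {Q | c.Gp Q} ∧ (pm (fr 𝕜 p r))^[n] y = y}.Finite := by
  obtain ⟨s, -, hs⟩ := exists_finset_fixed (𝕜 := 𝕜) (p := p) (Nat.mul_pos hr hn)
  refine (s ×ˢ s).finite_toSet.subset fun y hy => ?_
  have h := hy.2
  rw [pm_fr_iterate] at h
  rw [Finset.mem_coe, Finset.mem_product, hs, hs]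
  exact ⟨congrArg Prod.fst h, congrArg Prod.snd h⟩

theorem card_inv_eff {c : Cv 𝕜} (hi : Irreducible c.χ) (hr : 0 < r) (hF : c.Inv (fr 𝕜 p r))
    {D : 𝕜 × 𝕜 →₀ ℤ} (hD : D ∈ c.Dv) (h : psh (pm (fr 𝕜 p r)) D - D ∈ c.PP) {n : ℕ}
    (hn : D.degree = n) (hc : c.c0 ≤ n) :
    Nat.card {D' // D' ∈ c.Eff D ∧ psh (pm (fr 𝕜 p r)) D' = D'} = (p ^ r) ^ (n - c.g0) := by
  obtain ⟨u, hu, hu', hle⟩ := exists_u hD
  obtain ⟨v, a0, hw, -, e0⟩ := mem_PP.1 h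
  set Z := dv c.χ (C u) - D with hZdef
  have h0 : 0 ≤ Z := sub_nonneg.2 hle
  have hZ : Z ∈ c.Dv := c.Dv.sub_mem (dv_C_mem hu hu') hD
  have hd : Z.degree + n = c.δ * u.natDegree := by
    rw [hZdef, map_sub, degree_dv_C hu hu', hn]
    ring
  have hex := fun x : ffc_W c u Z => ffc_step hF hu hu' hle hw e0 x.1.1 x.2.1
    (fun Q hQ => ⟨(hZ Q hQ).et, x.2.2 Q hQ⟩)
  choose a' ha' hdvd hvan using hex
  have hV : u.map (fr 𝕜 p r) * v ≠ 0 := ((hu.map _).mul hw.monic).ne_zero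
  let T : ffc_W c u Z → ffc_W c u Z := fun x =>
    ⟨(fr 𝕜 p r x.1.1, a' x), ha' x, fun Q hQ => (hvan x Q hQ).2⟩
  have hadd : ∀ x y, T (x + y) = T x + T y := by
    intro x y
    refine Subtype.ext (Prod.ext (map_add (fr 𝕜 p r) x.1.1 y.1.1) ?_)
    change a' (x + y) = a' x + a' y
    refine ffc_uniq hV (ha' _) (add_mem (ha' _) (ha' _)) (hdvd _) ?_
    have e : ffc_s (fr 𝕜 p r) c u v a0 (x + y).1.1 (x + y).1.2 =
        ffc_s (fr 𝕜 p r) c u v a0 x.1.1 x.1.2 + ffc_s (fr 𝕜 p r) c u v a0 y.1.1 y.1.2 := by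
      change ffc_s _ c u v a0 (x.1.1 + y.1.1) (x.1.2 + y.1.2) = _
      simp only [ffc_s, map_add, map_mul]
      ring
    rw [e]
    convert dvd_add (hdvd x) (hdvd y) using 1
    ring
  have hsmul : ∀ (t : 𝕜) x, T (t • x) = t ^ p ^ r • T x := by
    intro t x
    refine Subtype.ext (Prod.ext ?_ ?_)
    · change fr 𝕜 p r (t * x.1.1) = t ^ p ^ r * fr 𝕜 p r x.1.1
      rw [map_mul, fr_apply]
    change a' (t • x) = t ^ p ^ r • a' x
    refine ffc_uniq hV (ha' _) (Submodule.smul_mem _ _ (ha' _)) (hdvd _) ?_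
    have e : ffc_s (fr 𝕜 p r) c u v a0 (t • x).1.1 (t • x).1.2 =
        C (C (t ^ p ^ r)) * ffc_s (fr 𝕜 p r) c u v a0 x.1.1 x.1.2 := by
      change ffc_s _ c u v a0 (t * x.1.1) (t • x.1.2) = _
      rw [← fr_apply, ffc_smul]
      simp only [ffc_s, map_mul, mp_C, map_C]
      ring
    rw [e, ffc_smul]
    convert (hdvd x).mul_left (C (C (t ^ p ^ r))) using 1
    ring
  let Θ : ffc_W c u Z →+ ffc_W c u Z := AddMonoidHom.mk' T hadd
  have hinj : Function.Injective Θ := by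
    rw [injective_iff_map_eq_zero]
    intro x hx
    have h1 : fr 𝕜 p r x.1.1 = 0 := congrArg (fun y : ffc_W c u Z => y.1.1) hx
    have h2 : a' x = 0 := congrArg (fun y : ffc_W c u Z => y.1.2) hx
    have h3 := hdvd x
    have h4 : c.χ ∣ C u * c.G v a0 * mp (fr 𝕜 p r) x.1.2 := by
      convert h3.mul_left (-1) using 1
      simp only [ffc_s, h1, h2, map_zero, zero_mul, zero_add]
      ring
    have h5 : WL c.b 0 0 (mp (fr 𝕜 p r) x.1.2) := by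
      refine Lead.cancel c.wt ((lead_C hu).mul hw.lead) (degree_map_le.trans_lt x.2.1.1) ?_
      rw [(modByMonic_eq_zero_iff_dvd c.wt.monic).2 h4]
      exact WL_zero
    refine Subtype.ext (Prod.ext ((fr 𝕜 p r).injective (h1.trans (map_zero _).symm))
      (mp_injective (fr 𝕜 p r).injective ?_))
    rw [h5.eq_zero le_rfl]
    exact (map_zero _).symm
  let l : ffc_W c u Z →ₗ[𝕜] 𝕜 := (LinearMap.fst 𝕜 _ _).comp (ffc_W c u Z).subtype
  have hl : ∃ x, l x = 1 := by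
    obtain ⟨a, ha, hv⟩ := exists_G hi hZ h0 (m := u.natDegree) (by omega) u
    exact ⟨⟨(1, a), ha, fun Q hQ => by simpa using (hv Q hQ).2⟩, rfl⟩
  have hfin := ffc_fin c u Z
  have hcard := card_fixed_affine hr Θ hinj hsmul l hl fun x => fr_apply r x.1.1
  have hker : finrank 𝕜 (LinearMap.ker l) = n - c.g0 := by
    have h1 := finrank_Vs hi hZ h0 (m := u.natDegree) (by omega)
    rw [ffc_ker hZ]
    omega
  rw [← hker, ← hcard]
  have hwit : ∀ x : ffc_W c u Z, c.Wit u x.1.2 := fun x => ⟨hu, hu', x.2.1.2⟩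
  have hkey : ∀ x : ffc_W c u Z, x.1.1 = 1 → dv c.χ (c.G u (a' x)) - Z =
      psh (pm (fr 𝕜 p r)) (dv c.χ (c.G u x.1.2) - Z) := by
    intro x hx
    have h1 := hdvd x
    rw [hx] at h1
    exact ffc_dv hF hu hu' hw e0 (hwit x) ⟨hu, hu', (ha' x).2⟩ h1
  symm
  refine Nat.card_eq_of_bijective (fun x => ⟨dv c.χ (c.G u x.1.1.2) - Z, ⟨?_, ?_⟩, ?_⟩) ⟨?_, ?_⟩
  · refine sub_nonneg.2 ((hwit x.1).lead.le_dv c.wt fun Q hQ => ⟨(hZ Q hQ).et, ?_⟩)
    have h1 := x.1.2.2 Q hQ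
    have h2 : x.1.1.1 = 1 := x.2.2
    rw [h2] at h1
    simpa using h1
  · refine mem_PP.2 ⟨u, _, hwit x.1, x.1.2.1.1, ?_⟩
    linear_combination (norm := abel) -hZdef
  · rw [← hkey x.1 x.2.2]
    have h1 : a' x.1 = x.1.1.2 := congrArg (fun y : ffc_W c u Z => y.1.2) x.2.1
    rw [h1]
  · intro x y hxy
    have h1 := sub_left_injective (congrArg Subtype.val hxy)
    have h2 : x.1.1.1 = 1 := x.2.2
    have h3 : y.1.1.1 = 1 := y.2.2
    exact Subtype.ext (Subtype.ext (Prod.ext (h2.trans h3.symm)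
      ((hwit x.1).unique (hwit y.1) x.1.2.1.1 y.1.2.1.1 h1)))
  · rintro ⟨D', ⟨h1, h2⟩, h3⟩
    obtain ⟨a, ha, hda, e⟩ := exists_wit hu hu' h2 (by
      have : D' - D + dv c.χ (C u) = D' + Z := by rw [hZdef]; abel
      rw [this]
      exact add_nonneg h1 h0)
    have e' : dv c.χ (c.G u a) - Z = D' := by
      rw [hZdef]
      linear_combination (norm := abel) -e
    have hv : VanZ c.χ Z (c.G u a) := ha.lead.vanZ_of_le c.wt h0 (sub_nonneg.1 (e' ▸ h1))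
    let x : ffc_W c u Z := ⟨(1, a), ⟨hda, ha.wl⟩, fun Q hQ => by simpa using (hv Q hQ).2⟩
    refine ⟨⟨x, ?_, rfl⟩, Subtype.ext e'⟩
    refine Subtype.ext (Prod.ext (map_one (fr 𝕜 p r)) ?_)
    change a' x = a
    refine Wit.unique ⟨hu, hu', (ha' x).2⟩ ha (ha' x).1 hda (sub_left_injective (b := Z) ?_)
    change dv c.χ (c.G u (a' x)) - Z = dv c.χ (c.G u a) - Z
    rw [hkey x rfl]
    change psh _ (dv c.χ (c.G u a) - Z) = _
    rw [e', h3]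

theorem ffc_E {c : Cv κ} (hρ : c.ρ ≠ 0) (hi : Irreducible c.χ) (hκ : AlgP κ p)
    (hr : 0 < r) (hF : c.Inv (fr κ p r)) :
    ∃ E ∈ c.DvF (fr κ p r), ∃ d : ℕ, 0 < d ∧ E.degree = d := by
  obtain ⟨u, hu, hu', hpos, hinv⟩ := exists_inv_u hρ hF (hκ.per hr)
  refine ⟨dv c.χ (C u), mem_DvF.2 ⟨dv_C_mem hu hu', ?_⟩, c.δ * u.natDegree,
    Nat.mul_pos ?_ hpos, ?_⟩
  · rw [← hF.dv_map (lead_C hu) (adm_C hu'), mp_C, hinv]
  · rw [← c.wt.deg]
    exact c.wt.monic.natDegree_pos.2 hi.ne_one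
  · rw [degree_dv_C hu hu']
    push_cast
    rfl

theorem ffc_finite (c : Cv 𝕜) (hr : 0 < r) (n : ℕ) :
    (InvEff (pm (fr 𝕜 p r)) {Q | c.Gp Q} n).Finite :=
  invEff_finite ((fr 𝕜 p r).injective.prodMap (fr 𝕜 p r).injective) (finite_fixed c hr) n

theorem ffc_mem {c : Cv 𝕜} {F : 𝕜 →+* 𝕜} {n : ℕ} {D : 𝕜 × 𝕜 →₀ ℤ}
    (h : D ∈ InvEff (pm F) {Q | c.Gp Q} n) : D ∈ c.DvF F := mem_DvF.2 ⟨h.2.1, h.2.2.1⟩

theorem ffc_card {c : Cv 𝕜} (hi : Irreducible c.χ) (hr : 0 < r) (hF : c.Inv (fr 𝕜 p r))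
    {E : 𝕜 × 𝕜 →₀ ℤ} (hE : E ∈ c.DvF (fr 𝕜 p r)) {n : ℕ} (hn : E.degree = n) (hc : c.c0 ≤ n) :
    ((ffc_finite (p := p) c hr n).toFinset.filter fun D => D - E ∈ c.PP).card =
      (p ^ r) ^ (n - c.g0) := by
  have hE' := mem_DvF.1 hE
  rw [← card_inv_eff hi hr hF hE'.1 (by rw [hE'.2, sub_self]; exact zero_mem _) hn hc]
  refine (Nat.subtype_card _ fun D => ?_).symm
  rw [Finset.mem_filter, Set.Finite.mem_toFinset]
  constructor
  · rintro ⟨h1, h2⟩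
    exact ⟨⟨h1.1, h2⟩, h1.2.2.1⟩
  · rintro ⟨⟨h1, h2⟩, h3⟩
    have h4 : D ∈ c.Dv := by simpa using add_mem (PP_le h2) hE'.1
    refine ⟨⟨h1, h4, h3, ?_⟩, h2⟩
    have h5 := degree_PP h2
    rw [map_sub, hn] at h5
    omega

/-- an invariant class over a larger field comes from an invariant divisor over the small one -/
theorem exists_inv_rep {c : Cv κ} (hρ : c.ρ ≠ 0) (hi : Irreducible c.χ) (hκ : AlgP κ p)
    (hr : 0 < r) (hF : c.Inv (fr κ p r)) (e : κ →+* 𝕜) {D : 𝕜 × 𝕜 →₀ ℤ} (hD : D ∈ (c.map e).Dv)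
    (h : psh (pm (fr 𝕜 p r)) D - D ∈ (c.map e).PP) :
    ∃ D₀ ∈ c.DvF (fr κ p r), D - psh (pm e) D₀ ∈ (c.map e).PP := by
  obtain ⟨E, hE, d, hd, hdeg⟩ := ffc_E hρ hi hκ hr hF
  have hinj : Function.Injective (pm e : κ × κ → 𝕜 × 𝕜) := e.injective.prodMap e.injective
  have hcomm : ∀ X : κ × κ →₀ ℤ, psh (pm (fr 𝕜 p r)) (psh (pm e) X) =
      psh (pm e) (psh (pm (fr κ p r)) X) := by
    intro X
    rw [psh_psh, psh_psh]
    refine psh_congr fun x _ => Prod.ext ?_ ?_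
    · exact (RingHom.congr_fun (fr_comp e r) x.1).symm
    · exact (RingHom.congr_fun (fr_comp e r) x.2).symm
  set k : ℕ := (c.map e).c0 + D.degree.natAbs with hk
  have hE' := mem_DvF.1 hE
  have hD1 : D + k • psh (pm e) E ∈ (c.map e).Dv := add_mem hD (nsmul_mem (psh_Dv e hE'.1) k)
  have hdeg1 : (D + k • psh (pm e) E).degree = D.degree + k * d := by
    rw [map_add, map_nsmul, degree_psh, hdeg, nsmul_eq_mul]
  have hk' : (k : ℤ) ≤ k * d := by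
    have : (1 : ℤ) ≤ d := by exact_mod_cast hd
    nlinarith [Int.natCast_nonneg k]
  have hcard := card_inv_eff (c.irreducible_map hρ hi e) hr (hF.map e) hD1
    (n := (D.degree + k * d).toNat) (by
      rw [map_add, map_nsmul, hcomm, hE'.2, add_sub_add_right_eq_sub]
      exact h) (by rw [hdeg1]; omega) (by omega)
  obtain ⟨D', ⟨-, h2⟩, h3⟩ := (Nat.card_ne_zero.1 (by
    rw [hcard]
    exact pow_ne_zero _ (pow_ne_zero _ (Fact.out : p.Prime).ne_zero))).1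
  have hD' : D' ∈ (c.map e).Dv := by simpa using add_mem (PP_le h2) hD1
  have hsup : (D'.support : Set (𝕜 × 𝕜)) ⊆ Set.range (pm e) := by
    intro y hy
    obtain ⟨m, hm, -, hy'⟩ := exists_period
      ((fr 𝕜 p r).injective.prodMap (fr 𝕜 p r).injective) h3 (Finsupp.mem_support_iff.1 hy)
    change (pm (fr 𝕜 p r))^[m] y = y at hy'
    rw [pm_fr_iterate] at hy'
    obtain ⟨y1, e1⟩ := mem_range_of_fixed e (Nat.mul_pos hr hm) (congrArg Prod.fst hy')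
    obtain ⟨y2, e2⟩ := mem_range_of_fixed e (Nat.mul_pos hr hm) (congrArg Prod.snd hy')
    exact ⟨(y1, y2), Prod.ext e1 e2⟩
  obtain ⟨D'', hD''⟩ : ∃ D'', psh (pm e) D'' = D' :=
    ⟨_, Finsupp.mapDomain_comapDomain (pm e) hinj D' hsup⟩
  refine ⟨D'' - k • E, sub_mem (mem_DvF.2 ⟨fun Q hQ => ?_, ?_⟩) (nsmul_mem hE k), ?_⟩
  · have h4 := hD' (pm e Q) (by rw [← hD'', psh_apply_inj hinj]; exact hQ)
    refine ⟨e.injective ?_, fun h0 => h4.2 ?_⟩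
    · rw [map_ee, map_zero]
      exact h4.1
    · change (c.ρ.map e).eval (e Q.1) = 0
      rw [eval_map, eval₂_hom, h0, map_zero]
  · refine Finsupp.mapDomain_injective hinj ?_
    change psh (pm e) _ = psh (pm e) _
    rw [← hcomm, hD'', h3]
  · convert neg_mem h2 using 1
    rw [map_sub, map_nsmul, hD'']
    abel

/-- translation of the coefficients of the `L`-series -/
theorem aL_add {c : Cv 𝕜} (hi : Irreducible c.χ) (hr : 0 < r) (hF : c.Inv (fr 𝕜 p r))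
    {θ : (𝕜 × 𝕜 →₀ ℤ) → ℂ}
    (hθ : ∀ D ∈ c.DvF (fr 𝕜 p r), ∀ D' ∈ c.DvF (fr 𝕜 p r), θ (D + D') = θ D * θ D')
    (hP : ∀ D ∈ c.DvF (fr 𝕜 p r), D ∈ c.PP → θ D = 1) {D₀ : 𝕜 × 𝕜 →₀ ℤ}
    (hD : D₀ ∈ c.DvF (fr 𝕜 p r)) {e n : ℕ} (he : D₀.degree = e) (hn : c.c0 ≤ n) :
    aL (pm (fr 𝕜 p r)) {Q | c.Gp Q} θ (n + e) =
      ((p ^ r : ℕ) : ℂ) ^ e * θ D₀ * aL (pm (fr 𝕜 p r)) {Q | c.Gp Q} θ n := by
  unfold aL
  rw [finsum_mem_eq_finite_toFinset_sum _ (ffc_finite c hr (n + e)),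
    finsum_mem_eq_finite_toFinset_sum _ (ffc_finite c hr n)]
  set A := (ffc_finite (p := p) c hr n).toFinset with hA
  set B := (ffc_finite (p := p) c hr (n + e)).toFinset with hB
  have hg := c.g0_add_lt
  have h1 : ∑ D ∈ A, ∑ D' ∈ B, (if D' - (D + D₀) ∈ c.PP then θ D' else 0) =
      (((p ^ r) ^ (n + e - c.g0) : ℕ) : ℂ) * θ D₀ * ∑ D ∈ A, θ D := by
    rw [Finset.mul_sum]
    refine Finset.sum_congr rfl fun D hD' => ?_
    have m1 := (Set.Finite.mem_toFinset _).1 hD'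
    have m2 := add_mem (ffc_mem m1) hD
    rw [← ffc_card hi hr hF m2 (n := n + e) (by
      rw [map_add, m1.2.2.2, he]
      push_cast
      rfl) (by omega), ← Finset.sum_filter, mul_assoc, ← nsmul_eq_mul, ← Finset.sum_const]
    refine Finset.sum_congr rfl fun D' hD'' => ?_
    obtain ⟨m3, m4⟩ := Finset.mem_filter.1 hD''
    have m5 := sub_mem (ffc_mem ((Set.Finite.mem_toFinset _).1 m3)) m2
    have m6 := hθ _ m2 _ m5
    rw [add_sub_cancel, hP _ m5 m4, mul_one, hθ _ (ffc_mem m1) _ hD] at m6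
    rw [m6, mul_comm]
  have h2 : ∑ D ∈ A, ∑ D' ∈ B, (if D' - (D + D₀) ∈ c.PP then θ D' else 0) =
      (((p ^ r) ^ (n - c.g0) : ℕ) : ℂ) * ∑ D' ∈ B, θ D' := by
    rw [Finset.sum_comm, Finset.mul_sum]
    refine Finset.sum_congr rfl fun D' hD' => ?_
    have m1 := (Set.Finite.mem_toFinset _).1 hD'
    rw [← ffc_card hi hr hF (sub_mem (ffc_mem m1) hD) (n := n) (by
      rw [map_sub, m1.2.2.2, he]
      push_cast
      ring) hn, ← Finset.sum_filter, Finset.sum_const, nsmul_eq_mul]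
    congr 3
    refine Finset.filter_congr fun D _ => ?_
    rw [← neg_mem_iff, show -(D' - (D + D₀)) = D - (D' - D₀) by abel]
  have h3 : (((p ^ r) ^ (n - c.g0) : ℕ) : ℂ) ≠ 0 :=
    Nat.cast_ne_zero.2 (pow_ne_zero _ (pow_ne_zero _ (Fact.out : p.Prime).ne_zero))
  apply mul_left_cancel₀ h3
  rw [← h2, h1, show n + e - c.g0 = n - c.g0 + e by omega, pow_add]
  push_cast
  ring

/-- finitely many invariant classes in each degree -/
theorem finite_classes {c : Cv κ} (hρ : c.ρ ≠ 0) (hi : Irreducible c.χ) (hκ : AlgP κ p)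
    (hr : 0 < r) (hF : c.Inv (fr κ p r)) : ∃ s : Finset (κ × κ →₀ ℤ),
      (∀ x ∈ s, x ∈ c.DvF (fr κ p r)) ∧
      ∀ D ∈ c.DvF (fr κ p r), D.degree = 0 → ∃ x ∈ s, D - x ∈ c.PP := by
  obtain ⟨E, hE, d, hd, hdeg⟩ := ffc_E hρ hi hκ hr hF
  refine ⟨(ffc_finite (p := p) c hr (c.c0 * d)).toFinset.image fun D' => D' - c.c0 • E,
    fun x hx => ?_, fun D hD h0 => ?_⟩
  · obtain ⟨D', hD', rfl⟩ := Finset.mem_image.1 hx
    exact sub_mem (ffc_mem ((Set.Finite.mem_toFinset _).1 hD')) (nsmul_mem hE _)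
  · have h1 := ffc_card hi hr hF (add_mem hD (nsmul_mem hE c.c0)) (n := c.c0 * d) (by
      rw [map_add, map_nsmul, h0, hdeg, nsmul_eq_mul]
      push_cast
      ring) (Nat.le_mul_of_pos_right _ hd)
    obtain ⟨D', hD'⟩ := Finset.card_pos.1
      (h1 ▸ pow_pos (pow_pos (Fact.out : p.Prime).pos r) (c.c0 * d - c.g0))
    obtain ⟨m1, m2⟩ := Finset.mem_filter.1 hD'
    refine ⟨_, Finset.mem_image_of_mem _ m1, ?_⟩
    convert neg_mem m2 using 1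
    abel

theorem ff_torsion {c : Cv κ} (hρ : c.ρ ≠ 0) (hi : Irreducible c.χ) (hκ : AlgP κ p)
    (hr : 0 < r) (hF : c.Inv (fr κ p r)) {D : κ × κ →₀ ℤ} (hD : D ∈ c.DvF (fr κ p r))
    (h0 : D.degree = 0) : ∃ n : ℕ, 0 < n ∧ n • D ∈ c.PP := by
  obtain ⟨s, -, hs⟩ := finite_classes hρ hi hκ hr hF
  have h1 : ∀ n : ℕ, ∃ x : s, n • D - x ∈ c.PP := fun n => by
    obtain ⟨x, hx, h⟩ := hs (n • D) (nsmul_mem hD n) (by rw [map_nsmul, h0, smul_zero])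
    exact ⟨⟨x, hx⟩, h⟩
  choose f hf using h1
  have key : ∀ i j, i < j → f i = f j → ∃ n : ℕ, 0 < n ∧ n • D ∈ c.PP := by
    intro i j hij e
    obtain ⟨n, rfl⟩ := Nat.exists_eq_add_of_lt hij
    refine ⟨n + 1, n.succ_pos, ?_⟩
    convert sub_mem (hf (i + n + 1)) (hf i) using 1
    rw [e, add_assoc, add_nsmul D i]
    abel
  obtain ⟨i, j, hij, e⟩ := Finite.exists_ne_map_eq_of_infinite f
  rcases lt_or_gt_of_ne hij with h | h
  · exact key i j h e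
  · exact key j i h e.symm

end Cv

end Pool.Agent.ZeroCyc
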