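import Pool.Agent.Lib.MP_796ce4_ag.ZY.FfS
import Pool.Agent.Lib.MP_796ce4_ag.ZY.CvB

/-! Points of a Galois cover of the line as embeddings into Laurent series. -/

namespace Pool.Agent.ZeroCyc

open Polynomial Module
open scoped Classical IntermediateField PowerSeries

set_option linter.unusedSectionVars false

open scoped LaurentSeries

variable {κ E : Type} [Field κ] [Field E] [Algebra (RatFunc κ) E] [Algebra κ E]
  [IsScalarTower κ (RatFunc κ) E]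

variable (κ E) in
/-- the coordinate of the line -/
noncomputable def tE : E := algebraMap (RatFunc κ) E RatFunc.X

/-- `t₀ + s` -/
noncomputable def lin (t₀ : κ) : κ⸨X⸩ := HahnSeries.C t₀ + HahnSeries.single 1 1

variable (E) in
/-- unramified points over `t₀` -/
def Emb (t₀ : κ) : Set (E →ₐ[κ] κ⸨X⸩) := {j | j (tE κ E) = lin t₀}

/-- `Φ` fixes `t` and raises the constants to the power `Q` -/
structure SemiL (κ : Type) {E : Type} [Field κ] [Field E] [Algebra (RatFunc κ) E] [Algebra κ E]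
    (Φ : E ≃+* E) (Q : ℕ) : Prop where
  t : Φ (tE κ E) = tE κ E
  c : ∀ c : κ, Φ (algebraMap κ E c) = algebraMap κ E (c ^ Q)

/-- the point is fixed by the Frobenius attached to `Φ` -/
def FixE (Φ : E ≃+* E) (Q : ℕ) (j : E →ₐ[κ] κ⸨X⸩) : Prop :=
  ∀ e k, (j (Φ e)).coeff k = (j e).coeff k ^ Q

variable (κ) in
/-- the fixed points -/
def FixS (Φ : E ≃+* E) (Q : ℕ) : Set (E →ₐ[κ] κ⸨X⸩) := {j | (∃ t₀, j ∈ Emb E t₀) ∧ FixE Φ Q j}

/-- first `σ`, then `Φ` -/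
noncomputable def twi (Φ : E ≃+* E) (σ : E ≃ₐ[RatFunc κ] E) : E ≃+* E := σ.toRingEquiv.trans Φ

/-- the point moved by `σ` -/
noncomputable def mvE (j : E →ₐ[κ] κ⸨X⸩) (σ : E ≃ₐ[RatFunc κ] E) : E →ₐ[κ] κ⸨X⸩ :=
  j.comp (σ.restrictScalars κ).toAlgHom

/-- pole order at most `n` -/
def Reg (n : ℕ) (x : κ⸨X⸩) : Prop := ∀ k : ℤ, k < -n → x.coeff k = 0

theorem sta_coeff_lin (t₀ : κ) : (lin t₀).coeff 0 = t₀ := by
  simp [lin]
theorem lin_injective : Function.Injective (lin : κ → κ⸨X⸩) := fun a b h => by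
  rw [← sta_coeff_lin a, h, sta_coeff_lin]
theorem coeff_lin (t₀ : κ) : (lin t₀).coeff 0 = t₀ := sta_coeff_lin t₀
theorem lin_eq (t₀ : κ) :
    lin t₀ = HahnSeries.ofPowerSeries ℤ κ (PowerSeries.C t₀ + PowerSeries.X) := by
  rw [map_add, HahnSeries.ofPowerSeries_C, HahnSeries.ofPowerSeries_X, lin]
theorem reg_zero_iff {x : κ⸨X⸩} : Reg 0 x ↔ x ∈ (HahnSeries.ofPowerSeries ℤ κ).range := by
  constructor
  · intro h
    refine ⟨PowerSeries.mk fun n => x.coeff n, HahnSeries.ext (funext fun k => ?_)⟩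
    rw [PowerSeries.coeff_coe]
    split_ifs with hk
    · exact (h k (by simpa using hk)).symm
    · rw [PowerSeries.coeff_mk, Int.natAbs_of_nonneg (not_lt.1 hk)]
  · rintro ⟨f, rfl⟩ k hk
    rw [PowerSeries.coeff_coe, if_pos (by simpa using hk)]
theorem Reg.add {n : ℕ} {x y : κ⸨X⸩} (h : Reg n x) (h' : Reg n y) : Reg n (x + y) :=
  fun k hk => by rw [HahnSeries.coeff_add, h k hk, h' k hk, add_zero]
theorem Reg.mul {n m : ℕ} {x y : κ⸨X⸩} (h : Reg n x) (h' : Reg m y) : Reg (n + m) (x * y) := by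
  intro k hk
  rw [HahnSeries.coeff_mul]
  refine Finset.sum_eq_zero fun ij hij => ?_
  have h3 := (Finset.mem_antidiagonal.1 hij).2.2
  by_cases h4 : ij.1 < -n
  · rw [h _ h4, zero_mul]
  · rw [h' ij.2 (by push_cast at hk; omega), mul_zero]
theorem Reg.mono {n m : ℕ} {x : κ⸨X⸩} (h : Reg n x) (hm : n ≤ m) : Reg m x :=
  fun k hk => h k (by omega)
theorem Reg.coeff_mul {x y : κ⸨X⸩} (h : Reg 0 x) (h' : Reg 0 y) :
    (x * y).coeff 0 = x.coeff 0 * y.coeff 0 := by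
  obtain ⟨f, rfl⟩ := reg_zero_iff.1 h
  obtain ⟨g, rfl⟩ := reg_zero_iff.1 h'
  rw [← map_mul, PowerSeries.coeff_coe, PowerSeries.coeff_coe, PowerSeries.coeff_coe]
  simp
theorem Emb.aeval {t₀ : κ} {j : E →ₐ[κ] κ⸨X⸩} (h : j ∈ Emb E t₀) (u : κ[X]) :
    j (aeval (tE κ E) u) = HahnSeries.ofPowerSeries ℤ κ (sh t₀ u) := by
  have h1 : j (tE κ E) = lin t₀ := h
  rw [← aeval_algHom_apply, h1, lin_eq, sh, coe_eval₂RingHom, hom_eval₂, aeval_def]
  rfl
theorem Emb.mv {t₀ : κ} {j : E →ₐ[κ] κ⸨X⸩} (h : j ∈ Emb E t₀) (σ : E ≃ₐ[RatFunc κ] E) :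
    mvE j σ ∈ Emb E t₀ := by
  change j (σ (algebraMap _ _ _)) = _
  rw [σ.commutes]
  exact h
theorem mvE_injective (j : E →ₐ[κ] κ⸨X⸩) : Function.Injective (mvE j) := fun _ _ h =>
  AlgEquiv.ext fun x => j.injective (DFunLike.congr_fun h x)
theorem SemiL.tw {Φ : E ≃+* E} {Q : ℕ} (h : SemiL κ Φ Q) (σ : E ≃ₐ[RatFunc κ] E) :
    SemiL κ (twi Φ σ) Q := by
  refine ⟨?_, fun c => ?_⟩
  · change Φ (σ (algebraMap _ _ _)) = _
    rw [σ.commutes]
    exact h.t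
  · change Φ ((σ.restrictScalars κ) _) = _
    rw [AlgEquiv.commutes, h.c]
theorem SemiL.pow {Φ : E ≃+* E} {Q : ℕ} (h : SemiL κ Φ Q) (n : ℕ) :
    SemiL κ (Φ ^ n) (Q ^ n) := by
  induction n with
  | zero => exact ⟨rfl, fun c => by rw [pow_zero, pow_zero, pow_one]; rfl⟩
  | succ n ih =>
    refine ⟨?_, fun c => ?_⟩
    · rw [pow_succ, RingAut.mul_apply, h.t, ih.t]
    · rw [pow_succ, RingAut.mul_apply, h.c, ih.c, ← pow_mul, pow_succ']
theorem FixE.base {Φ : E ≃+* E} {Q : ℕ} (h : SemiL κ Φ Q) {t₀ : κ} {j : E →ₐ[κ] κ⸨X⸩}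
    (hj : j ∈ Emb E t₀) (hf : FixE Φ Q j) : t₀ ^ Q = t₀ := by
  have h1 : j (tE κ E) = lin t₀ := hj
  have h2 := hf (tE κ E) 0
  rw [h.t, h1, coeff_lin] at h2
  exact h2.symm
/-- elements integral over a ring of regular elements are regular -/
theorem reg_of_isIntegral (j : E →ₐ[κ] κ⸨X⸩) {s : Set E} (hs : ∀ x ∈ s, Reg 0 (j x)) {f : E}
    (hf : IsIntegral (Algebra.adjoin κ s) f) : Reg 0 (j f) := by
  have h1 : ∀ x ∈ Algebra.adjoin κ s, j x ∈ (HahnSeries.ofPowerSeries ℤ κ).range := by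
    intro x hx
    induction hx using Algebra.adjoin_induction with
    | mem x hx => exact reg_zero_iff.1 (hs x hx)
    | algebraMap c => exact ⟨algebraMap κ _ c, (j.commutes c).symm⟩
    | add x y _ _ hx hy => rw [map_add]; exact add_mem hx hy
    | mul x y _ _ hx hy => rw [map_mul]; exact mul_mem hx hy
  obtain ⟨P, hP, hP0⟩ := hf
  obtain ⟨q, hq, -, hqm⟩ := lifts_and_natDegree_eq_and_monic (f := algebraMap κ⟦X⟧ κ⸨X⸩)
    (p := P.map ((j : E →+* κ⸨X⸩).comp (algebraMap (Algebra.adjoin κ s) E)))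
    ((lifts_iff_coeff_lifts _).2 fun n => by rw [coeff_map]; exact h1 _ (P.coeff n).2)
    (hP.map _)
  refine reg_zero_iff.2 (IsIntegrallyClosed.isIntegral_iff.1 ⟨q, hqm, ?_⟩)
  rw [← eval_map, hq, eval_map]
  exact (hom_eval₂ P _ (j : E →+* κ⸨X⸩) f).symm.trans (by rw [hP0, map_zero])

theorem sta_ext {A : Type} [Field A] {f g : RatFunc κ →+* A}
    (h1 : ∀ c, f (algebraMap κ _ c) = g (algebraMap κ _ c)) (h2 : f RatFunc.X = g RatFunc.X) :
    f = g :=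
  IsLocalization.ringHom_ext (nonZeroDivisors κ[X])
    (Polynomial.ringHom_ext (fun c => by simpa using h1 c) (by simpa using h2))

theorem sta_range {Ψ : E →+* E} (ht : Ψ (tE κ E) = tE κ E)
    (hc : ∀ c : κ, ∃ c', Ψ (algebraMap κ E c) = algebraMap κ E c') (x : RatFunc κ) :
    ∃ y, Ψ (algebraMap (RatFunc κ) E x) = algebraMap (RatFunc κ) E y := by
  have h1 : ∀ u : κ[X], ∃ y, Ψ (algebraMap (RatFunc κ) E (algebraMap κ[X] _ u)) =
      algebraMap (RatFunc κ) E y := by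
    intro u
    induction u using Polynomial.induction_on with
    | C c =>
      obtain ⟨c', h⟩ := hc c
      rw [IsScalarTower.algebraMap_apply κ (RatFunc κ) E,
        IsScalarTower.algebraMap_apply κ (RatFunc κ) E] at h
      exact ⟨_, h⟩
    | add u v hu hv =>
      obtain ⟨y, hy⟩ := hu
      obtain ⟨z, hz⟩ := hv
      exact ⟨y + z, by simp only [map_add, hy, hz]⟩
    | monomial n c hu =>
      obtain ⟨y, hy⟩ := hu
      refine ⟨y * RatFunc.X, ?_⟩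
      rw [pow_succ, ← mul_assoc, map_mul, map_mul, map_mul, hy, RatFunc.algebraMap_X, map_mul]
      exact congrArg _ ht
  induction x using RatFunc.induction_on with
  | f u v _ =>
    obtain ⟨y, hy⟩ := h1 u
    obtain ⟨z, hz⟩ := h1 v
    exact ⟨y / z, by simp only [map_div₀, hy, hz]⟩

/-- a ring homomorphism applied to the coefficients -/
noncomputable def staMap (φ : κ →+* κ) : κ⸨X⸩ →+* κ⸨X⸩ where
  toFun x := x.map φ
  map_one' := HahnSeries.map_one φ.toMonoidWithZeroHom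
  map_mul' _ _ := HahnSeries.map_mul φ.toNonUnitalRingHom
  map_zero' := HahnSeries.map_zero φ.toMonoidWithZeroHom.toZeroHom
  map_add' _ _ := HahnSeries.map_add φ.toAddMonoidHom

theorem sta_coeff_map (φ : κ →+* κ) (x : κ⸨X⸩) (k : ℤ) : (staMap φ x).coeff k = φ (x.coeff k) :=
  rfl

theorem sta_map_single (φ : κ →+* κ) (a : ℤ) (c : κ) :
    staMap φ (HahnSeries.single a c) = HahnSeries.single a (φ c) :=
  HahnSeries.map_single φ.toMonoidWithZeroHom.toZeroHom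

variable [FiniteDimensional (RatFunc κ) E] [IsGalois (RatFunc κ) E]

theorem Emb.exists_mvE {t₀ : κ} {j j' : E →ₐ[κ] κ⸨X⸩} (h : j ∈ Emb E t₀) (h' : j' ∈ Emb E t₀) :
    ∃ σ, j' = mvE j σ := by
  have h1 : (j' : E →+* κ⸨X⸩).comp (algebraMap (RatFunc κ) E) =
      (j : E →+* κ⸨X⸩).comp (algebraMap (RatFunc κ) E) := by
    refine sta_ext (fun c => ?_) (h'.trans h.symm)
    simp only [RingHom.comp_apply, ← IsScalarTower.algebraMap_apply, RingHom.coe_coe,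
      AlgHom.commutes]
  let _ : Algebra E κ⸨X⸩ := (j : E →+* κ⸨X⸩).toAlgebra
  let _ : Algebra (RatFunc κ) κ⸨X⸩ :=
    ((j : E →+* κ⸨X⸩).comp (algebraMap (RatFunc κ) E)).toAlgebra
  have : IsScalarTower (RatFunc κ) E κ⸨X⸩ := IsScalarTower.of_algebraMap_eq fun _ => rfl
  let ψ : E →ₐ[RatFunc κ] κ⸨X⸩ := ⟨j', fun x => DFunLike.congr_fun h1 x⟩
  exact ⟨ψ.restrictNormal' E, AlgHom.ext fun x => (ψ.restrictNormal_commutes E x).symm⟩
theorem emb_finite (t₀ : κ) : (Emb E t₀).Finite := by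
  rcases (Emb E t₀).eq_empty_or_nonempty with h | ⟨j, hj⟩
  · rw [h]
    exact Set.finite_empty
  · exact (Set.finite_range (mvE j)).subset fun j' hj' =>
      (Emb.exists_mvE hj hj').imp fun _ h => h.symm
theorem SemiL.conj {p : ℕ} [Fact p.Prime] [CharP κ p] [IsAlgClosed κ] {Φ : E ≃+* E} {n : ℕ}
    (h : SemiL κ Φ (p ^ n)) (σ : E ≃ₐ[RatFunc κ] E) :
    (∃ σ' : E ≃ₐ[RatFunc κ] E, ∀ x, σ (Φ x) = Φ (σ' x)) ∧
      ∃ σ' : E ≃ₐ[RatFunc κ] E, ∀ x, σ (Φ.symm x) = Φ.symm (σ' x) := by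
  have key : ∀ Ψ : E ≃+* E, Ψ (tE κ E) = tE κ E →
      (∀ c : κ, ∃ c', Ψ (algebraMap κ E c) = algebraMap κ E c') →
      ∃ σ' : E ≃ₐ[RatFunc κ] E, ∀ x, σ (Ψ x) = Ψ (σ' x) := by
    intro Ψ ht hc
    refine ⟨AlgEquiv.ofRingEquiv (f := Ψ.trans (σ.toRingEquiv.trans Ψ.symm)) fun x => ?_,
      fun x => (Ψ.apply_symm_apply _).symm⟩
    obtain ⟨y, hy⟩ := sta_range (Ψ := (Ψ : E →+* E)) ht hc x
    change Ψ.symm (σ (Ψ _)) = _
    rw [RingEquiv.symm_apply_eq]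
    exact (congrArg σ hy).trans ((σ.commutes y).trans hy.symm)
  refine ⟨key Φ h.t fun c => ⟨_, h.c c⟩, key Φ.symm (Φ.symm_apply_eq.2 h.t.symm) fun c => ?_⟩
  obtain ⟨c', rfl⟩ := (fr_bijective (𝕜 := κ) (p := p) n).2 c
  exact ⟨c', Φ.symm_apply_eq.2 (by rw [h.c, fr_apply])⟩
theorem existsUnique_fixE {p : ℕ} [Fact p.Prime] [CharP κ p] [IsAlgClosed κ] {Φ : E ≃+* E} {n : ℕ}
    (h : SemiL κ Φ (p ^ n)) {t₀ : κ} (ht : t₀ ^ p ^ n = t₀) {j : E →ₐ[κ] κ⸨X⸩}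
    (hj : j ∈ Emb E t₀) : ∃! σ : E ≃ₐ[RatFunc κ] E, FixE (twi Φ σ) (p ^ n) j := by
  let ψ : E →ₐ[κ] κ⸨X⸩ :=
    ⟨(staMap (fr κ p n)).comp ((j : E →+* κ⸨X⸩).comp (Φ.symm : E →+* E)), fun c => by
      obtain ⟨c', rfl⟩ := (fr_bijective (𝕜 := κ) (p := p) n).2 c
      have h1 : Φ.symm (algebraMap κ E (fr κ p n c')) = algebraMap κ E c' :=
        Φ.symm_apply_eq.2 (by rw [h.c, fr_apply])
      change staMap _ (j (Φ.symm _)) = _
      rw [h1, j.commutes, LaurentSeries.algebraMap_apply, LaurentSeries.algebraMap_apply]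
      exact sta_map_single _ 0 c'⟩
  have h1 : ψ ∈ Emb E t₀ := by
    have h2 : j (tE κ E) = lin t₀ := hj
    change staMap _ (j (Φ.symm _)) = _
    rw [Φ.symm_apply_eq.2 h.t.symm, h2, lin, map_add, HahnSeries.C_apply, sta_map_single,
      sta_map_single, map_one, fr_apply, ht]
  obtain ⟨σ₀, h2⟩ := Emb.exists_mvE hj h1
  obtain ⟨σ, h3⟩ := (h.conj σ₀).1
  have h4 : FixE (twi Φ σ) (p ^ n) j := fun e k => by
    have h5 : staMap (fr κ p n) (j (Φ.symm (Φ e))) = j (σ₀ (Φ e)) := DFunLike.congr_fun h2 (Φ e)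
    rw [Φ.symm_apply_apply, h3] at h5
    change (j (Φ (σ e))).coeff k = _
    rw [← h5, sta_coeff_map, fr_apply]
  exact ⟨σ, h4, fun τ h5 => AlgEquiv.ext fun e => Φ.injective (j.injective
    (HahnSeries.ext (funext fun k => (h5 e k).trans (h4 e k).symm)))⟩
theorem fixS_finite {p : ℕ} [Fact p.Prime] [CharP κ p] {Φ : E ≃+* E} {n : ℕ} (hn : 0 < n)
    (h : SemiL κ Φ (p ^ n)) : (FixS κ Φ (p ^ n)).Finite := by
  have h1 := FiniteField.X_pow_card_pow_sub_X_ne_zero κ hn.ne' (Fact.out : p.Prime).one_lt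
  refine ((finite_setOfPred_isRoot h1).biUnion fun t₀ _ => emb_finite (E := E) t₀).subset ?_
  rintro j ⟨⟨t₀, hj⟩, hf⟩
  exact Set.mem_biUnion (x := t₀) (by simpa [sub_eq_zero] using FixE.base h hj hf) hj

end Pool.Agent.ZeroCyc
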