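import Pool.Agent.Lib.MP_796ce4_ag.ZY.FfL
import Pool.Agent.Lib.MP_796ce4_ag.ZY.StA

/-! The semilinear automorphism, the Galois closure, places. -/

namespace Pool.Agent.ZeroCyc

open Polynomial Module
open scoped Classical IntermediateField PowerSeries

set_option linter.unusedSectionVars false

open scoped LaurentSeries

variable {p : ℕ} [Fact p.Prime] {κ : Type} [Field κ] [CharP κ p] [IsAlgClosed κ] {r : ℕ}

theorem ffg_comp {E : Type} [Field E] [Algebra (RatFunc κ) E] [Algebra κ E]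
    [IsScalarTower κ (RatFunc κ) E] :
    (algebraMap (RatFunc κ) E).comp (algebraMap κ[X] (RatFunc κ)) =
      eval₂RingHom (algebraMap κ E) (tE κ E) := by
  refine Polynomial.ringHom_ext (fun a => ?_) ?_
  · rw [RingHom.comp_apply, coe_eval₂RingHom, eval₂_C, IsScalarTower.algebraMap_apply κ (RatFunc κ) E,
      RatFunc.algebraMap_C, RatFunc.algebraMap_eq_C]
  · rw [RingHom.comp_apply, coe_eval₂RingHom, eval₂_X, RatFunc.algebraMap_X, tE]

theorem ffg_aeval {E : Type} [Field E] [Algebra (RatFunc κ) E] [Algebra κ E]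
    [IsScalarTower κ (RatFunc κ) E] (u : κ[X]) :
    algebraMap (RatFunc κ) E (algebraMap κ[X] (RatFunc κ) u) = aeval (tE κ E) u :=
  RingHom.congr_fun (ffg_comp (κ := κ) (E := E)) u

variable (κ p) in
/-- Frobenius on the constants -/
noncomputable def ffgF (m : ℕ) : RatFunc κ ≃+* RatFunc κ :=
  IsFractionRing.ringEquivOfRingEquiv
    (mapEquiv (RingEquiv.ofBijective (fr κ p m) (fr_bijective m)))

theorem ffgF_poly (m : ℕ) (u : κ[X]) :
    ffgF p κ m (algebraMap κ[X] (RatFunc κ) u) = algebraMap κ[X] (RatFunc κ) (u.map (fr κ p m)) := by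
  rw [ffgF, IsFractionRing.ringEquivOfRingEquiv_algebraMap]
  rfl

theorem ffgF_add (m n : ℕ) :
    (ffgF p κ m : RatFunc κ →+* RatFunc κ).comp (ffgF p κ n : RatFunc κ →+* RatFunc κ) =
      (ffgF p κ (m + n) : RatFunc κ →+* RatFunc κ) := by
  refine IsLocalization.ringHom_ext (nonZeroDivisors κ[X]) (RingHom.ext fun u => ?_)
  simp only [RingHom.comp_apply, RingHom.coe_coe, ffgF_poly, Polynomial.map_map, fr,
    iterateFrobenius_add]

theorem ffg_semi_aeval {n : ℕ} {Φ : Om κ ≃+* Om κ} (hΦ : SemiL κ Φ (p ^ n)) (u : κ[X]) :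
    Φ (aeval (tO κ) u) = aeval (tO κ) (u.map (fr κ p n)) := by
  have h : (Φ : Om κ →+* Om κ).comp (algebraMap κ (Om κ)) =
      (algebraMap κ (Om κ)).comp (fr κ p n) :=
    RingHom.ext fun c => by
      rw [RingHom.comp_apply, RingHom.comp_apply, fr_apply]; exact hΦ.c c
  rw [aeval_def, aeval_def, eval₂_map, ← h]
  have := hom_eval₂ u (algebraMap κ (Om κ)) (Φ : Om κ →+* Om κ) (tO κ)
  rw [show (Φ : Om κ →+* Om κ) (tO κ) = tO κ from hΦ.t] at this
  exact this

theorem ffg_semi_comp {n : ℕ} {Φ : Om κ ≃+* Om κ} (hΦ : SemiL κ Φ (p ^ n)) :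
    (Φ : Om κ →+* Om κ).comp (algebraMap (RatFunc κ) (Om κ)) =
      (algebraMap (RatFunc κ) (Om κ)).comp (ffgF p κ n) := by
  refine IsLocalization.ringHom_ext (nonZeroDivisors κ[X]) (RingHom.ext fun u => ?_)
  simp only [RingHom.comp_apply, RingHom.coe_coe, ffgF_poly, ffg_aeval]
  exact ffg_semi_aeval hΦ u

theorem ffg_semi_root {n : ℕ} {Φ : Om κ ≃+* Om κ} (hΦ : SemiL κ Φ (p ^ n)) (f : (RatFunc κ)[X])
    (y : Om κ) : Φ (aeval y f) = aeval (Φ y) (f.map (ffgF p κ n : RatFunc κ →+* RatFunc κ)) := by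
  rw [aeval_def, aeval_def, eval₂_map, ← ffg_semi_comp hΦ]
  exact hom_eval₂ f (algebraMap (RatFunc κ) (Om κ)) (Φ : Om κ →+* Om κ) y

theorem ffg_per_poly (hκ : AlgP κ p) (hr : 0 < r) (U : Finset κ[X]) :
    ∃ n, 0 < n ∧ ∀ u ∈ U, u.map (fr κ p (r * n)) = u := by
  obtain ⟨n, hn, h⟩ := hκ.per_finset hr (U.biUnion coeffs)
  refine ⟨n, hn, fun u hu => Polynomial.ext fun i => ?_⟩
  rw [coeff_map]
  by_cases h0 : u.coeff i = 0
  · rw [h0, map_zero]
  · exact h _ (Finset.mem_biUnion.2 ⟨u, hu, coeff_mem_coeffs h0⟩)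

theorem ffg_per_rat (hκ : AlgP κ p) (hr : 0 < r) (f : (RatFunc κ)[X]) :
    ∃ n, 0 < n ∧ f.map (ffgF p κ (r * n) : RatFunc κ →+* RatFunc κ) = f := by
  obtain ⟨n, hn, h⟩ := ffg_per_poly hκ hr (f.coeffs.image RatFunc.num ∪ f.coeffs.image RatFunc.denom)
  refine ⟨n, hn, Polynomial.ext fun i => ?_⟩
  rw [coeff_map]
  by_cases h0 : f.coeff i = 0
  · rw [h0, map_zero]
  · have hm := coeff_mem_coeffs h0
    have h1 := h _ (Finset.mem_union_left _ (Finset.mem_image_of_mem RatFunc.num hm))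
    have h2 := h _ (Finset.mem_union_right _ (Finset.mem_image_of_mem RatFunc.denom hm))
    conv_lhs => rw [← RatFunc.num_div_denom (f.coeff i)]
    rw [map_div₀, RingHom.coe_coe, ffgF_poly, ffgF_poly, h1, h2, RatFunc.num_div_denom]

theorem ffg_shift {M : Type} [CommMonoidWithZero M] [IsCancelMulZero M] (g : ℕ → M) (n : ℕ)
    (h0 : g 0 ≠ 0) (hn : g n = g 0) :
    ∏ i ∈ Finset.range n, g (i + 1) = ∏ i ∈ Finset.range n, g i := by
  apply mul_right_cancel₀ h0
  rw [← Finset.prod_range_succ', Finset.prod_range_succ, hn]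

theorem exists_semiL {c : Cv κ} (hi : Irreducible c.χ) (hF : c.Inv (fr κ p r)) {η : Om κ}
    (hη : On (c.map (algebraMap κ (Om κ))).χ (tO κ, η)) :
    ∃ Φ : Om κ ≃+* Om κ, SemiL κ Φ (p ^ r) ∧ Φ η = η := by
  let Φ₁ : Om κ ≃+* Om κ := IsAlgClosure.equivOfEquiv (Om κ) (Om κ) (ffgF p κ r)
  have hc : ∀ a : κ, algebraMap κ (Om κ) a =
      algebraMap (RatFunc κ) (Om κ) (algebraMap κ[X] (RatFunc κ) (C a)) := fun a => by
    rw [ffg_aeval, aeval_C]
  have h1 : SemiL κ Φ₁ (p ^ r) := by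
    constructor
    · rw [tE, IsAlgClosure.equivOfEquiv_algebraMap, ← RatFunc.algebraMap_X, ffgF_poly, map_X]
    · intro a
      rw [hc, IsAlgClosure.equivOfEquiv_algebraMap, ffgF_poly, map_C, fr_apply, ← hc]
  set χK := c.χ.map (algebraMap κ[X] (RatFunc κ)) with hχK
  have hm : χK.Monic := c.wt.monic.map _
  have hirr : Irreducible χK := (c.wt.monic.irreducible_iff_irreducible_map_fraction_map).1 hi
  have h0 : aeval η χK = 0 := by
    have h2 : ee (tO κ, η) (mp (algebraMap κ (Om κ)) c.χ) = 0 := hη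
    rw [ee_mp] at h2
    rw [aeval_def, hχK, eval₂_map, ffg_comp]
    exact h2
  have hinv : χK.map (ffgF p κ r : RatFunc κ →+* RatFunc κ) = χK := by
    have h2 : c.χ.map (mapRingHom (fr κ p r)) = c.χ := hF.χ
    conv_rhs => rw [hχK, ← h2]
    rw [hχK, Polynomial.map_map, Polynomial.map_map]
    congr 1
    exact RingHom.ext fun u => ffgF_poly r u
  have h3 : aeval (Φ₁ η) (minpoly (RatFunc κ) η) = 0 := by
    rw [← minpoly.eq_of_irreducible_of_monic hirr h0 hm, ← hinv, ← ffg_semi_root h1, h0, map_zero]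
  obtain ⟨σ, hσ⟩ := minpoly.exists_algEquiv_of_root (Algebra.IsAlgebraic.isAlgebraic η) h3
  refine ⟨Φ₁.trans σ.toRingEquiv, ⟨?_, fun a => ?_⟩, hσ⟩
  · change σ (Φ₁ _) = _
    rw [h1.t, tE, AlgEquiv.commutes]
  · change σ (Φ₁ _) = _
    rw [h1.c, hc, AlgEquiv.commutes]

theorem exists_galois (hκ : AlgP κ p) (hr : 0 < r) {Φ : Om κ ≃+* Om κ} (hΦ : SemiL κ Φ (p ^ r))
    (S : Finset (Om κ)) (hS : ∀ x ∈ S, IsSeparable (RatFunc κ) x) :
    ∃ E : IntermediateField (RatFunc κ) (Om κ), FiniteDimensional (RatFunc κ) E ∧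
      IsGalois (RatFunc κ) E ∧ (∀ x ∈ S, x ∈ E) ∧ ∀ x, Φ x ∈ E ↔ x ∈ E := by
  have hint : ∀ x : Om κ, IsIntegral (RatFunc κ) x := fun x => Algebra.IsIntegral.isIntegral x
  set f : (RatFunc κ)[X] := ∏ x ∈ S, minpoly (RatFunc κ) x with hf
  have hf0 : f ≠ 0 := Finset.prod_ne_zero_iff.2 fun x _ => minpoly.ne_zero (hint x)
  obtain ⟨n, hn, hper⟩ := ffg_per_rat hκ hr f
  let g : ℕ → (RatFunc κ)[X] := fun i => f.map (ffgF p κ (r * i) : RatFunc κ →+* RatFunc κ)
  have hg0 : ∀ i, g i ≠ 0 := fun i => Polynomial.map_ne_zero hf0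
  have hgs : ∀ i, (g i).map (ffgF p κ r : RatFunc κ →+* RatFunc κ) = g (i + 1) := fun i => by
    simp only [g]
    rw [Polynomial.map_map, ffgF_add, mul_add, mul_one, add_comm]
  have hgz : g 0 = f := by
    have h1 : (g 0).map (ffgF p κ (r * n) : RatFunc κ →+* RatFunc κ) =
        f.map (ffgF p κ (r * n) : RatFunc κ →+* RatFunc κ) := by
      simp only [g]
      rw [Polynomial.map_map, ffgF_add, mul_zero, add_zero]
    exact Polynomial.map_injective _ (RingHom.injective _) h1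
  set P : (RatFunc κ)[X] := ∏ i ∈ Finset.range n, g i with hP
  have hP0 : P ≠ 0 := Finset.prod_ne_zero_iff.2 fun i _ => hg0 i
  have hPinv : P.map (ffgF p κ r : RatFunc κ →+* RatFunc κ) = P := by
    rw [hP, Polynomial.map_prod]
    simp only [hgs]
    exact ffg_shift g n (hg0 0) (hper.trans hgz.symm)
  have hroot : ∀ y, Φ y ∈ P.rootSet (Om κ) ↔ y ∈ P.rootSet (Om κ) := fun y => by
    rw [mem_rootSet_of_ne hP0, mem_rootSet_of_ne hP0]
    conv_lhs => rw [← hPinv, ← ffg_semi_root hΦ]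
    exact map_eq_zero_iff _ Φ.injective
  have hbase : ∀ a, Φ (algebraMap (RatFunc κ) (Om κ) a) =
      algebraMap (RatFunc κ) (Om κ) (ffgF p κ r a) := RingHom.congr_fun (ffg_semi_comp hΦ)
  let E := IntermediateField.adjoin (RatFunc κ) (P.rootSet (Om κ))
  have hsp : P.IsSplittingField (RatFunc κ) E :=
    IntermediateField.adjoin_rootSet_isSplittingField (IsAlgClosed.splits _)
  have hN : Normal (RatFunc κ) E := Normal.of_isSplittingField P
  have hsep : Algebra.IsSeparable (RatFunc κ) E := by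
    refine (IntermediateField.isSeparable_adjoin_iff_isSeparable _ _).2 fun y hy => ?_
    rw [mem_rootSet_of_ne hP0, hP, map_prod, Finset.prod_eq_zero_iff] at hy
    obtain ⟨i, -, hi⟩ := hy
    simp only [g, hf] at hi
    rw [Polynomial.map_prod, map_prod, Finset.prod_eq_zero_iff] at hi
    obtain ⟨x, hx, hi⟩ := hi
    exact (Separable.map (hS x hx)).of_dvd (minpoly.dvd _ _ hi)
  have key : ∀ Ψ : Om κ ≃+* Om κ, (∀ y ∈ P.rootSet (Om κ), Ψ y ∈ P.rootSet (Om κ)) →
      (∀ a, ∃ b, Ψ (algebraMap (RatFunc κ) (Om κ) a) = algebraMap (RatFunc κ) (Om κ) b) →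
      ∀ x ∈ E, Ψ x ∈ E := by
    intro Ψ h1 h2 x hx
    induction hx using IntermediateField.adjoin_induction with
    | mem x hx => exact IntermediateField.subset_adjoin _ _ (h1 x hx)
    | algebraMap a =>
      obtain ⟨b, hb⟩ := h2 a
      rw [hb]; exact E.algebraMap_mem b
    | add x y _ _ hx hy => rw [map_add]; exact add_mem hx hy
    | inv x _ hx => rw [map_inv₀]; exact inv_mem hx
    | mul x y _ _ hx hy => rw [map_mul]; exact mul_mem hx hy
  refine ⟨E, IsSplittingField.finiteDimensional E P, IsGalois.mk, fun x hx => ?_, fun x => ⟨fun hx => ?_,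
    key Φ (fun y hy => (hroot y).2 hy) (fun a => ⟨_, hbase a⟩) x⟩⟩
  · refine IntermediateField.subset_adjoin _ _ ?_
    rw [mem_rootSet_of_ne hP0, hP, map_prod, Finset.prod_eq_zero_iff]
    refine ⟨0, Finset.mem_range.2 hn, ?_⟩
    rw [hgz, hf, map_prod, Finset.prod_eq_zero_iff]
    exact ⟨x, hx, minpoly.aeval _ x⟩
  · have := key Φ.symm (fun y hy => (hroot _).1 (by rwa [Φ.apply_symm_apply]))
      (fun a => ⟨(ffgF p κ r).symm a, by
        rw [RingEquiv.symm_apply_eq, hbase, RingEquiv.apply_symm_apply]⟩) _ hx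
    rwa [Φ.symm_apply_apply] at this

/-- the elements integral over `κ[t, 1 / g(t)]` -/
noncomputable def intR (g : κ[X]) : Subring (Om κ) :=
  (integralClosure (Algebra.adjoin κ {tO κ, (aeval (tO κ) g)⁻¹}) (Om κ)).toSubring

theorem ffg_mem {g : κ[X]} {x : Om κ} :
    x ∈ intR g ↔ IsIntegral (Algebra.adjoin κ {tO κ, (aeval (tO κ) g)⁻¹}) x := Iff.rfl

theorem ffg_aeval_mem (g u : κ[X]) :
    aeval (tO κ) u ∈ Algebra.adjoin κ {tO κ, (aeval (tO κ) g)⁻¹} :=
  Algebra.adjoin_mono (Set.singleton_subset_iff.2 (Set.mem_insert _ _))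
    (aeval_mem_adjoin_singleton κ (tO κ))

theorem ffg_aeval_ne {u : κ[X]} (hu : u ≠ 0) : aeval (tO κ) u ≠ 0 := by
  have := ffg_aeval (E := Om κ) u
  change _ = aeval (tO κ) u at this
  rw [← this]
  exact (_root_.map_ne_zero _).2 (RatFunc.algebraMap_ne_zero hu)

theorem exists_intR (hκ : AlgP κ p) (hr : 0 < r) (S : Finset (Om κ)) :
    ∃ g : κ[X], g ≠ 0 ∧ g.map (fr κ p r) = g ∧ ∀ x ∈ S, x ∈ intR g := by
  set g₀ : κ[X] := ∏ x ∈ S, ∏ a ∈ (minpoly (RatFunc κ) x).coeffs, a.denom with hg₀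
  have h0 : g₀ ≠ 0 := Finset.prod_ne_zero_iff.2 fun x _ => Finset.prod_ne_zero_iff.2 fun a _ =>
    a.denom_ne_zero
  obtain ⟨n, hn, hper⟩ := ffg_per_poly hκ hr {g₀}
  let G : ℕ → κ[X] := fun i => g₀.map (fr κ p (r * i))
  have hG0 : ∀ i, G i ≠ 0 := fun i => Polynomial.map_ne_zero h0
  have hGz : G 0 = g₀ := by
    simp only [G, fr, mul_zero, iterateFrobenius_zero, Polynomial.map_id]
  have hGs : ∀ i, (G i).map (fr κ p r) = G (i + 1) := fun i => by
    simp only [G, fr]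
    rw [Polynomial.map_map, ← iterateFrobenius_add, mul_add, mul_one, add_comm]
  set g := ∏ i ∈ Finset.range n, G i with hg
  have hg0 : g ≠ 0 := Finset.prod_ne_zero_iff.2 fun i _ => hG0 i
  refine ⟨g, hg0, ?_, fun x hx => ?_⟩
  · rw [hg, Polynomial.map_prod]
    simp only [hGs]
    exact ffg_shift G n (hG0 0) ((hper g₀ (Finset.mem_singleton_self _)).trans hGz.symm)
  · have hint : IsIntegral (RatFunc κ) x := Algebra.IsIntegral.isIntegral x
    set A := Algebra.adjoin κ {tO κ, (aeval (tO κ) g)⁻¹} with hA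
    have hl : (minpoly (RatFunc κ) x).map (algebraMap (RatFunc κ) (Om κ)) ∈
        lifts (algebraMap A (Om κ)) := by
      rw [lifts_iff_coeff_lifts]
      intro k
      rw [coeff_map]
      by_cases hk : (minpoly (RatFunc κ) x).coeff k = 0
      · rw [hk, map_zero]; exact ⟨0, map_zero _⟩
      set a := (minpoly (RatFunc κ) x).coeff k
      have hd0 : g₀ ∣ g := hGz ▸ Finset.dvd_prod_of_mem G (Finset.mem_range.2 hn)
      have hd : a.denom ∣ g :=
        ((Finset.dvd_prod_of_mem _ (coeff_mem_coeffs hk)).trans (Finset.dvd_prod_of_mem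
          (fun x => ∏ a ∈ (minpoly (RatFunc κ) x).coeffs, a.denom) hx)).trans hd0
      obtain ⟨e, he⟩ := hd
      have he0 : e ≠ 0 := by
        rintro rfl
        exact hg0 (by rw [he, mul_zero])
      refine ⟨⟨_, mul_mem (mul_mem (ffg_aeval_mem g a.num) (ffg_aeval_mem g e))
        (Algebra.subset_adjoin (Set.mem_insert_of_mem _ rfl))⟩, ?_⟩
      change aeval (tO κ) a.num * aeval (tO κ) e * (aeval (tO κ) g)⁻¹ = _
      conv_rhs => rw [← RatFunc.num_div_denom a]
      rw [map_div₀, ffg_aeval, ffg_aeval, he, map_mul]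
      have h1 := ffg_aeval_ne a.denom_ne_zero
      have h2 := ffg_aeval_ne he0
      change _ = aeval (tO κ) a.num / aeval (tO κ) a.denom
      field_simp
    obtain ⟨q, hq, -, hqm⟩ := lifts_and_natDegree_eq_and_monic hl ((minpoly.monic hint).map _)
    refine ffg_mem.2 ⟨q, hqm, ?_⟩
    rw [← eval_map, hq, eval_map, ← aeval_def, minpoly.aeval]

theorem ffg_of_mem {g : κ[X]} {x : Om κ}
    (h : x ∈ Algebra.adjoin κ {tO κ, (aeval (tO κ) g)⁻¹}) : x ∈ intR g :=
  ffg_mem.2 (isIntegral_algebraMap (x := (⟨x, h⟩ : Algebra.adjoin κ {tO κ, (aeval (tO κ) g)⁻¹})))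

theorem algebraMap_mem_intR (g : κ[X]) (a : κ) : algebraMap κ (Om κ) a ∈ intR g :=
  ffg_of_mem (Subalgebra.algebraMap_mem _ a)

theorem intR_semiL {g : κ[X]} {n : ℕ} (hg : g.map (fr κ p n) = g) {Φ : Om κ ≃+* Om κ}
    (hΦ : SemiL κ Φ (p ^ n)) {x : Om κ} (hx : x ∈ intR g) : Φ x ∈ intR g := by
  set A := Algebra.adjoin κ {tO κ, (aeval (tO κ) g)⁻¹} with hA
  have h1 : ∀ y ∈ A, Φ y ∈ A := by
    intro y hy
    induction hy using Algebra.adjoin_induction with
    | mem y hy =>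
      refine Algebra.subset_adjoin ?_
      rcases hy with rfl | rfl
      · exact Or.inl hΦ.t
      · exact Or.inr (by rw [map_inv₀, ffg_semi_aeval hΦ, hg]; rfl)
    | algebraMap a => rw [hΦ.c]; exact A.algebraMap_mem _
    | add x y _ _ hx hy => rw [map_add]; exact add_mem hx hy
    | mul x y _ _ hx hy => rw [map_mul]; exact mul_mem hx hy
  let φ : A →+* A := ((Φ : Om κ →+* Om κ).comp (algebraMap A (Om κ))).codRestrict A
    fun y => h1 y y.2
  exact ffg_mem.2 (IsIntegral.map_of_comp_eq φ (Φ : Om κ →+* Om κ) rfl (ffg_mem.1 hx))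

/-- a homomorphism to an algebraically closed field extends along an integral extension -/
theorem ffg_extend {B R : Type} [CommRing B] [CommRing R] [IsDomain R] [Algebra B R]
    [Algebra.IsIntegral B R] (hi : Function.Injective (algebraMap B R)) (ψ₀ : B →+* κ) :
    ∃ ψ : R →+* κ, ∀ b, ψ (algebraMap B R b) = ψ₀ b := by
  have := RingHom.ker_isPrime ψ₀
  obtain ⟨Q, hQ, hQ'⟩ := Ideal.exists_ideal_over_prime_of_isIntegral_of_isDomain (S := R)
    (RingHom.ker ψ₀) (by rw [(RingHom.injective_iff_ker_eq_bot _).1 hi]; exact bot_le)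
  let χ : B ⧸ Q.comap (algebraMap B R) →+* κ :=
    Ideal.Quotient.lift _ ψ₀ fun a ha => by rw [hQ'] at ha; exact ha
  have hχ : Function.Injective χ := by
    refine (injective_iff_map_eq_zero χ).2 fun a ha => ?_
    obtain ⟨a, rfl⟩ := Ideal.Quotient.mk_surjective a
    rw [Ideal.Quotient.eq_zero_iff_mem, hQ']
    exact ha
  let : Algebra (B ⧸ Q.comap (algebraMap B R)) κ := χ.toAlgebra
  have : Module.IsTorsionFree (B ⧸ Q.comap (algebraMap B R)) κ :=
    Module.isTorsionFree_iff_algebraMap_injective.2 hχ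
  have : Module.IsTorsionFree (B ⧸ Q.comap (algebraMap B R)) (R ⧸ Q) :=
    Module.isTorsionFree_iff_algebraMap_injective.2 Ideal.algebraMap_quotient_injective
  let l : (R ⧸ Q) →ₐ[B ⧸ Q.comap (algebraMap B R)] κ := IsAlgClosed.lift
  refine ⟨(l : (R ⧸ Q) →+* κ).comp (Ideal.Quotient.mk Q), fun b => ?_⟩
  exact l.commutes (Ideal.Quotient.mk _ b)

/-- a point of the cover extends to a place -/
theorem exists_place {g : κ[X]} {t₀ : κ} (ht : g.eval t₀ ≠ 0)
    (E : IntermediateField (RatFunc κ) (Om κ)) {j : E →ₐ[κ] κ⸨X⸩} (hj : j ∈ Emb E t₀) :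
    ∃ ψ : intR g →+* κ, ∀ (x : E) (hx : (x : Om κ) ∈ intR g),
      Reg 0 (j x) ∧ ψ ⟨x, hx⟩ = (j x).coeff 0 := by
  set A' := Algebra.adjoin κ {tO κ, (aeval (tO κ) g)⁻¹} with hA'
  set A := Algebra.adjoin κ {tE κ E, (aeval (tE κ E) g)⁻¹} with hA
  let v : E →ₐ[κ] Om κ := E.val.restrictScalars κ
  have hv : Function.Injective v := Subtype.val_injective
  have hvt : v (tE κ E) = tO κ := rfl
  have hmap : A.map v = A' := by
    rw [hA, AlgHom.map_adjoin, Set.image_pair, map_inv₀, ← aeval_algHom_apply, hvt]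
  have hsurj : ∀ y : A', ∃ x : A, ((x : E) : Om κ) = y := by
    rintro ⟨y, hy⟩
    rw [← hmap] at hy
    obtain ⟨x, hx, rfl⟩ := hy
    exact ⟨⟨x, hx⟩, rfl⟩
  let e : A' ≃ₐ[κ] A := ((A.equivMapOfInjective v hv).trans (Subalgebra.equivOfEq _ _ hmap)).symm
  have he : ∀ y : A', ((e y : E) : Om κ) = y := fun y => by
    have h1 : (((A.equivMapOfInjective v hv).trans (Subalgebra.equivOfEq _ _ hmap)) (e y) : Om κ) =
        y := by rw [AlgEquiv.apply_symm_apply]
    exact h1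
  have hreg : ∀ x : E, (x : Om κ) ∈ intR g → Reg 0 (j x) := by
    intro x hx
    refine reg_of_isIntegral j (s := {tE κ E, (aeval (tE κ E) g)⁻¹}) ?_ ?_
    · rintro y (rfl | rfl)
      · rw [show j (tE κ E) = lin t₀ from hj, lin_eq]
        exact reg_zero_iff.2 ⟨_, rfl⟩
      · have hu : IsUnit (sh t₀ g) := by
          rw [PowerSeries.isUnit_iff_constantCoeff, constantCoeff_sh]
          exact ht.isUnit
        obtain ⟨u, hu⟩ := hu
        rw [map_inv₀, Emb.aeval hj, ← hu]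
        refine reg_zero_iff.2 ⟨(u⁻¹ : κ⟦X⟧ˣ), ?_⟩
        refine eq_inv_of_mul_eq_one_left ?_
        rw [← map_mul, Units.inv_mul, map_one]
    · have h1 : IsIntegral A (algebraMap E (Om κ) x) :=
        IsIntegral.map_of_comp_eq (e : A' →+* A) (RingHom.id (Om κ)) (RingHom.ext he)
          (ffg_mem.1 hx)
      exact (isIntegral_algebraMap_iff (algebraMap E (Om κ)).injective).1 h1
  let B : Subring E := (intR g).comap (algebraMap E (Om κ))
  let ψ₀ : B →+* κ :=
    { toFun := fun x => (j x).coeff 0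
      map_one' := by simp
      map_mul' := fun x y => by
        rw [Subring.coe_mul, map_mul]
        exact Reg.coeff_mul (hreg _ x.2) (hreg _ y.2)
      map_zero' := by simp
      map_add' := fun x y => by rw [Subring.coe_add, map_add, HahnSeries.coeff_add] }
  let ι : B →+* intR g := ((algebraMap E (Om κ)).comp B.subtype).codRestrict _ fun x => x.2
  let : Algebra B (intR g) := ι.toAlgebra
  have hι : Function.Injective (algebraMap B (intR g)) := fun x y h =>
    Subtype.ext (Subtype.ext (congrArg (Subtype.val : intR g → Om κ) h))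
  let φ : A' →+* B := ((algebraMap A E).comp (e : A' →+* A)).codRestrict B fun y => by
    change ((e y : E) : Om κ) ∈ intR g
    rw [he]
    exact ffg_of_mem y.2
  have : Algebra.IsIntegral B (intR g) := ⟨fun y => by
    obtain ⟨q, hq, h0⟩ := ffg_mem.1 y.2
    refine ⟨q.map φ, hq.map _, ?_⟩
    apply Subtype.ext
    have h1 := hom_eval₂ q ((algebraMap B (intR g)).comp φ) (intR g).subtype y
    have h2 : (intR g).subtype.comp ((algebraMap B (intR g)).comp φ) = algebraMap A' (Om κ) :=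
      RingHom.ext he
    rw [h2] at h1
    rw [eval₂_map]
    exact h1.trans h0⟩
  obtain ⟨ψ, hψ⟩ := ffg_extend hι ψ₀
  exact ⟨ψ, fun x hx => ⟨hreg x hx, hψ ⟨x, hx⟩⟩⟩

end Pool.Agent.ZeroCyc
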