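import Pool.Agent.Lib.MP_796ce4_ag.ZY.StA

/-! A plane model of the cover; unramified points exist over almost all `t₀`. -/

namespace Pool.Agent.ZeroCyc

open Polynomial Module
open scoped Classical IntermediateField PowerSeries

set_option linter.unusedSectionVars false

open scoped LaurentSeries

variable {κ E : Type} [Field κ] [IsAlgClosed κ] [Field E] [Algebra (RatFunc κ) E] [Algebra κ E]
  [IsScalarTower κ (RatFunc κ) E] [FiniteDimensional (RatFunc κ) E] [IsGalois (RatFunc κ) E]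

variable (κ E) in
theorem stb_model : ∃ (T : E) (χ : κ[X][X]), χ.Monic ∧
    χ.map (algebraMap κ[X] (RatFunc κ)) = minpoly (RatFunc κ) T ∧ (RatFunc κ)⟮T⟯ = ⊤ := by
  let _ : Algebra κ[X] E :=
    ((algebraMap (RatFunc κ) E).comp (algebraMap κ[X] (RatFunc κ))).toAlgebra
  have : IsScalarTower κ[X] (RatFunc κ) E := IsScalarTower.of_algebraMap_eq fun _ => rfl
  obtain ⟨T0, hT0⟩ := Field.exists_primitive_element (RatFunc κ) E
  have halg : IsAlgebraic κ[X] T0 :=
    (IsFractionRing.isAlgebraic_iff κ[X] (RatFunc κ) E).2 (Algebra.IsAlgebraic.isAlgebraic T0)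
  obtain ⟨y, hy, hint⟩ := halg.exists_integral_multiple
  refine ⟨y • T0, minpoly κ[X] (y • T0), minpoly.monic hint,
    (minpoly.isIntegrallyClosed_eq_field_fractions' (RatFunc κ) hint).symm, ?_⟩
  rw [eq_top_iff, ← hT0, IntermediateField.adjoin_simple_le_iff]
  have hy' : algebraMap κ[X] (RatFunc κ) y ≠ 0 := RatFunc.algebraMap_ne_zero hy
  have h1 : T0 = (algebraMap κ[X] (RatFunc κ) y)⁻¹ • (y • T0) := by
    rw [← IsScalarTower.algebraMap_smul (RatFunc κ) y T0, smul_smul, inv_mul_cancel₀ hy', one_smul]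
  have h2 := IntermediateField.smul_mem (RatFunc κ)⟮y • T0⟯
    (IntermediateField.mem_adjoin_simple_self (RatFunc κ) (y • T0))
    (x := (algebraMap κ[X] (RatFunc κ) y)⁻¹)
  rwa [← h1] at h2

variable (κ E) in
theorem stb_comp : (algebraMap (RatFunc κ) E).comp (algebraMap κ[X] (RatFunc κ)) =
    eval₂RingHom (algebraMap κ E) (tE κ E) := by
  refine Polynomial.ringHom_ext (fun c => ?_) ?_
  · rw [RingHom.comp_apply, coe_eval₂RingHom, eval₂_C, RatFunc.algebraMap_C,
      IsScalarTower.algebraMap_apply κ (RatFunc κ) E, RatFunc.algebraMap_eq_C]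
  · rw [RingHom.comp_apply, coe_eval₂RingHom, eval₂_X, RatFunc.algebraMap_X, tE]

variable (κ E) in
/-- an integral primitive element -/
theorem exists_model : ∃ (T : E) (χ : κ[X][X]) (b : ℕ), Wt b (finrank (RatFunc κ) E) χ ∧
    e2 (algebraMap κ E) (tE κ E) T χ = 0 ∧ (RatFunc κ)⟮T⟯ = ⊤ := by
  obtain ⟨T, χ, hm, hχ, hT⟩ := stb_model κ E
  have hint : IsIntegral (RatFunc κ) T := Algebra.IsIntegral.isIntegral T
  have hdeg : χ.natDegree = finrank (RatFunc κ) E := by
    rw [← hm.natDegree_map (algebraMap κ[X] (RatFunc κ)), hχ,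
      ← IntermediateField.adjoin.finrank hint, hT, IntermediateField.finrank_top']
  refine ⟨T, χ, χ.support.sup fun i => (χ.coeff i).natDegree, ⟨hm, hdeg, fun i j h => ?_⟩, ?_, hT⟩
  · have hi : χ.coeff i ≠ 0 := fun e => h (by rw [e, coeff_zero])
    have hle : i ≤ χ.natDegree := le_natDegree_of_ne_zero hi
    rw [← hdeg]
    rcases hle.eq_or_lt with e | e
    · rw [e, hm.coeff_natDegree, coeff_one] at h
      have hj : j = 0 := by by_contra e'; exact h (if_neg e')
      rw [hj, e]; omega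
    · have h1 : j ≤ χ.support.sup fun i => (χ.coeff i).natDegree :=
        (le_natDegree_of_ne_zero h).trans
          (Finset.le_sup (f := fun i => (χ.coeff i).natDegree) (mem_support_iff.2 hi))
      have h2 := Nat.mul_le_mul_left (χ.support.sup fun i => (χ.coeff i).natDegree) e
      rw [Nat.succ_eq_add_one, mul_add, mul_one] at h2
      omega
  · have h0 := minpoly.aeval (RatFunc κ) T
    rw [← hχ, aeval_def, eval₂_map, stb_comp] at h0
    exact h0

theorem stb_lin (t₀ : κ) (u : κ[X]) :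
    aeval (lin t₀) u = HahnSeries.ofPowerSeries ℤ κ (sh t₀ u) := by
  have : (aeval (lin t₀) : κ[X] →ₐ[κ] κ⸨X⸩).toRingHom =
      (HahnSeries.ofPowerSeries ℤ κ).comp (sh t₀) := by
    refine Polynomial.ringHom_ext (fun c => ?_) ?_
    · simp [sh, LaurentSeries.algebraMap_apply]
    · simp [sh, lin_eq]
  exact RingHom.congr_fun this u

theorem stb_lin_injective (t₀ : κ) :
    Function.Injective (aeval (lin t₀) : κ[X] →ₐ[κ] κ⸨X⸩) := by
  intro u v h
  rw [stb_lin, stb_lin, sh_eq_taylor, sh_eq_taylor] at h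
  exact taylor_injective t₀ (Polynomial.coe_injective κ (HahnSeries.ofPowerSeries_injective h))

theorem stb_lift_alg {L : Type} [Field L] [Algebra κ L] (φ : κ[X] →ₐ[κ] L)
    (h : Function.Injective φ) :
    ∃ θ : RatFunc κ →ₐ[κ] L, ∀ u : κ[X], θ (algebraMap κ[X] (RatFunc κ) u) = φ u := by
  refine ⟨RatFunc.liftAlgHom φ (nonZeroDivisors_le_comap_nonZeroDivisors_of_injective _ h),
    fun u => ?_⟩
  have := RatFunc.liftAlgHom_apply_div φ
    (nonZeroDivisors_le_comap_nonZeroDivisors_of_injective _ h) u 1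
  simpa using this

theorem stb_emb {T : E} {χ : κ[X][X]} (hm : χ.Monic)
    (hχ : χ.map (algebraMap κ[X] (RatFunc κ)) = minpoly (RatFunc κ) T) (hT : (RatFunc κ)⟮T⟯ = ⊤)
    {Q : κ × κ} (hQ : Et χ Q) : (Emb E Q.1).Nonempty := by
  have hint : IsIntegral (RatFunc κ) T := Algebra.IsIntegral.isIntegral T
  obtain ⟨θ, hθ⟩ := stb_lift_alg _ (stb_lin_injective Q.1)
  have hroot : (minpoly (RatFunc κ) T).eval₂ (θ : RatFunc κ →+* κ⸨X⸩)
      (HahnSeries.ofPowerSeries ℤ κ (hs χ Q)) = 0 := by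
    have e : (θ : RatFunc κ →+* κ⸨X⸩).comp (algebraMap κ[X] (RatFunc κ)) =
        (HahnSeries.ofPowerSeries ℤ κ).comp (sh Q.1) := RingHom.ext fun u => by
      rw [RingHom.comp_apply, RingHom.comp_apply, ← stb_lin, ← hθ]; rfl
    rw [← hχ, eval₂_map, e, ← hom_eval₂, (hs_spec hm hQ).1, map_zero]
  let e : AdjoinRoot (minpoly (RatFunc κ) T) ≃ₐ[RatFunc κ] E :=
    (IntermediateField.adjoinRootEquivAdjoin (RatFunc κ) hint).trans
      ((IntermediateField.equivOfEq hT).trans IntermediateField.topEquiv)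
  refine ⟨(AdjoinRoot.liftAlgHom _ θ _ hroot).comp (e.symm.restrictScalars κ).toAlgHom, ?_⟩
  change AdjoinRoot.liftAlgHom _ θ _ hroot (e.symm (algebraMap (RatFunc κ) E RatFunc.X)) = lin Q.1
  rw [AlgEquiv.commutes, AdjoinRoot.algebraMap_eq, AdjoinRoot.liftAlgHom_of,
    ← RatFunc.algebraMap_X, hθ, aeval_X]

theorem stb_bezout {χ : κ[X][X]} (h : (χ.map (algebraMap κ[X] (RatFunc κ))).Separable) :
    ∃ (ρ : κ[X]) (α β : κ[X][X]), ρ ≠ 0 ∧ C ρ = α * χ + β * derivative χ := by
  obtain ⟨a, b, hab⟩ := h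
  obtain ⟨da, hda, ha⟩ := IsLocalization.integerNormalization_spec (nonZeroDivisors κ[X]) a
  obtain ⟨db, hdb, hb⟩ := IsLocalization.integerNormalization_spec (nonZeroDivisors κ[X]) b
  refine ⟨da * db, C db * IsLocalization.integerNormalization (nonZeroDivisors κ[X]) a,
    C da * IsLocalization.integerNormalization (nonZeroDivisors κ[X]) b,
    mul_ne_zero (nonZeroDivisors.ne_zero hda) (nonZeroDivisors.ne_zero hdb), ?_⟩
  apply Polynomial.map_injective (algebraMap κ[X] (RatFunc κ)) (IsFractionRing.injective _ _)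
  rw [derivative_map] at hab
  simp only [Polynomial.map_add, Polynomial.map_mul, map_C, ha, hb, map_mul,
    ← IsScalarTower.algebraMap_smul (RatFunc κ) da, ← IsScalarTower.algebraMap_smul (RatFunc κ) db,
    smul_eq_C_mul]
  linear_combination (-(C (algebraMap κ[X] (RatFunc κ) da) *
    C (algebraMap κ[X] (RatFunc κ) db))) * hab

variable (κ E) in
theorem finite_emb_empty : {t₀ : κ | ¬(Emb E t₀).Nonempty}.Finite := by
  obtain ⟨T, χ, hm, hχ, hT⟩ := stb_model κ E
  have hint : IsIntegral (RatFunc κ) T := Algebra.IsIntegral.isIntegral T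
  have hsep : (χ.map (algebraMap κ[X] (RatFunc κ))).Separable := by
    rw [hχ]; exact Algebra.IsSeparable.isSeparable (RatFunc κ) T
  obtain ⟨ρ, α, β, hρ, hb⟩ := stb_bezout hsep
  refine (finite_setOfPred_isRoot hρ).subset fun t₀ ht => ?_
  by_contra h0
  apply ht
  have hpos : 0 < χ.natDegree := by
    rw [← hm.natDegree_map (algebraMap κ[X] (RatFunc κ)), hχ]
    exact minpoly.natDegree_pos hint
  have hdeg : (χ.map (evalRingHom t₀)).degree ≠ 0 := by
    rw [hm.degree_map]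
    exact (natDegree_pos_iff_degree_pos.1 hpos).ne'
  obtain ⟨y, hy⟩ := IsAlgClosed.exists_root _ hdeg
  have h1 : ee (t₀, y) χ = 0 := by rw [ee_eq_eval]; exact hy
  refine stb_emb hm hχ hT (Q := (t₀, y)) ⟨h1, fun h2 => h0 ?_⟩
  have := congrArg (ee (t₀, y)) hb
  rw [map_add, map_mul, map_mul, h1, h2, mul_zero, mul_zero, add_zero, ee_C] at this
  exact this

theorem Emb.ncard {t₀ : κ} {j : E →ₐ[κ] κ⸨X⸩} (h : j ∈ Emb E t₀) :
    (Emb E t₀).ncard = finrank (RatFunc κ) E := by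
  have : Emb E t₀ = Set.range (mvE j) := by
    ext j'
    constructor
    · intro h'
      obtain ⟨σ, hσ⟩ := Emb.exists_mvE h h'
      exact ⟨σ, hσ.symm⟩
    · rintro ⟨σ, rfl⟩
      exact Emb.mv h σ
  rw [this, Set.ncard_range_of_injective (mvE_injective j), IsGalois.card_aut_eq_finrank]

theorem stb_trans (a : κ) : Transcendental κ (tE κ E - algebraMap κ E a)⁻¹ := by
  intro h
  rw [IsAlgebraic.inv_iff] at h
  have h1 : IsAlgebraic κ (tE κ E) := by
    have := (h.isIntegral.add (isIntegral_algebraMap (x := a))).isAlgebraic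
    rwa [sub_add_cancel] at this
  exact RatFunc.transcendental_X
    ((isAlgebraic_algebraMap_iff (algebraMap (RatFunc κ) E).injective).1 h1)

theorem stb_int {z f : E} (hf : IsIntegral (Algebra.adjoin κ {z}) f) :
    (aeval z : κ[X] →ₐ[κ] E).toRingHom.IsIntegralElem f := by
  obtain ⟨p, hp, h0⟩ := hf
  have hmem : ∀ u : κ[X], aeval z u ∈ Algebra.adjoin κ {z} := fun u => by
    rw [Algebra.adjoin_singleton_eq_range_aeval]; exact ⟨u, rfl⟩
  let φ : κ[X] →+* Algebra.adjoin κ {z} :=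
    ((aeval z : κ[X] →ₐ[κ] E).codRestrict _ hmem).toRingHom
  have hφ : Function.Surjective φ := by
    rintro ⟨x, hx⟩
    rw [Algebra.adjoin_singleton_eq_range_aeval] at hx
    obtain ⟨u, rfl⟩ := hx
    exact ⟨u, rfl⟩
  obtain ⟨q, hq, -, hqm⟩ := lifts_and_natDegree_eq_and_monic
    (((mem_lifts p).2 (map_surjective φ hφ p))) hp
  refine ⟨q, hqm, ?_⟩
  rw [← hq, eval₂_map] at h0
  exact h0

theorem stb_fix (a : κ) (σ : E ≃ₐ[RatFunc κ] E) :
    σ (tE κ E - algebraMap κ E a)⁻¹ = (tE κ E - algebraMap κ E a)⁻¹ := by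
  rw [map_inv₀, map_sub, tE, AlgEquiv.commutes, IsScalarTower.algebraMap_apply κ (RatFunc κ) E,
    AlgEquiv.commutes]

/-- the norm of an element integral over `κ[z]`, `z = 1 / (t - a)`, is a polynomial in `z` -/
theorem exists_norm_poly (a : κ) {f : E}
    (hf : IsIntegral (Algebra.adjoin κ {(tE κ E - algebraMap κ E a)⁻¹}) f) :
    ∃ g : κ[X], ∏ σ : E ≃ₐ[RatFunc κ] E, σ f = aeval (tE κ E - algebraMap κ E a)⁻¹ g := by
  set z : E := (tE κ E - algebraMap κ E a)⁻¹ with hz
  have hi := stb_int hf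
  have hσ : ∀ σ : E ≃ₐ[RatFunc κ] E,
      (aeval z : κ[X] →ₐ[κ] E).toRingHom.IsIntegralElem (σ f) := fun σ => by
    have h1 := hi.map (σ : E →+* E)
    have e : (σ : E →+* E).comp (aeval z : κ[X] →ₐ[κ] E).toRingHom =
        (aeval z : κ[X] →ₐ[κ] E).toRingHom := RingHom.ext fun u => by
      change (σ.restrictScalars κ).toAlgHom (aeval z u) = aeval z u
      rw [← aeval_algHom_apply]
      congr 2
      exact stb_fix a σ
    rwa [e] at h1
  have hN : (aeval z : κ[X] →ₐ[κ] E).toRingHom.IsIntegralElem (∏ σ : E ≃ₐ[RatFunc κ] E, σ f) :=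
    Finset.prod_induction _ _ (fun _ _ h h' => h.mul _ h') (RingHom.isIntegralElem_one _)
      fun σ _ => hσ σ
  have hfix : (∏ σ : E ≃ₐ[RatFunc κ] E, σ f) ∈ Set.range (algebraMap (RatFunc κ) E) := by
    rw [IsGalois.mem_range_algebraMap_iff_fixed]
    intro τ
    rw [map_prod]
    exact Fintype.prod_equiv (Equiv.mulLeft τ) _ _ fun σ => rfl
  obtain ⟨θ, hθ⟩ := stb_lift_alg (aeval z : κ[X] →ₐ[κ] E)
    (transcendental_iff_injective.1 (stb_trans a))
  have ht : tE κ E = θ (algebraMap κ _ a + RatFunc.X⁻¹) := by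
    rw [map_add, map_inv₀, AlgHom.commutes, ← RatFunc.algebraMap_X, hθ, aeval_X, hz, inv_inv]
    ring
  have hpoly : ∀ u : κ[X], algebraMap (RatFunc κ) E (algebraMap κ[X] (RatFunc κ) u) =
      θ (aeval (algebraMap κ _ a + RatFunc.X⁻¹) u) := fun u => by
    rw [← aeval_algHom_apply, ← ht, ← RingHom.comp_apply, stb_comp]
    rfl
  obtain ⟨x0, hx0⟩ := hfix
  obtain ⟨x1, hx1⟩ : ∃ x1, θ x1 = algebraMap (RatFunc κ) E x0 := by
    refine ⟨aeval (algebraMap κ _ a + RatFunc.X⁻¹) x0.num /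
      aeval (algebraMap κ _ a + RatFunc.X⁻¹) x0.denom, ?_⟩
    rw [map_div₀, ← hpoly, ← hpoly, ← map_div₀, RatFunc.num_div_denom]
  have e : (aeval z : κ[X] →ₐ[κ] E).toRingHom =
      (θ : RatFunc κ →+* E).comp (algebraMap κ[X] (RatFunc κ)) := RingHom.ext fun u => (hθ u).symm
  rw [← hx0, ← hx1, e] at hN
  have hint : IsIntegral κ[X] x1 :=
    RingHom.IsIntegralElem.of_map (θ : RatFunc κ →+* E).injective hN
  obtain ⟨g, hg⟩ := IsIntegrallyClosed.algebraMap_eq_of_integral hint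
  exact ⟨g, by rw [← hx0, ← hx1, ← hg, hθ]⟩

theorem stb_coeff (g : κ[X]) (n : ℕ) :
    (aeval (HahnSeries.single (-1 : ℤ) (1 : κ) : κ⸨X⸩) g).coeff (-(n : ℤ)) = g.coeff n := by
  induction g using Polynomial.induction_on' with
  | add p q hp hq => rw [map_add, HahnSeries.coeff_add, hp, hq, coeff_add]
  | monomial k c =>
    rw [aeval_monomial, LaurentSeries.algebraMap_apply, HahnSeries.single_pow, one_pow,
      HahnSeries.C_apply, HahnSeries.single_mul_single, mul_one, HahnSeries.coeff_single,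
      coeff_monomial]
    simp [eq_comm]

theorem stb_reg_C (c : κ) : Reg 0 (HahnSeries.C c : κ⸨X⸩) := fun k hk => by
  rw [HahnSeries.C_apply, HahnSeries.coeff_single_of_ne]
  rintro rfl
  simp at hk

/-- an integral element without poles is constant -/
theorem const_of_reg {a : κ} {j : E →ₐ[κ] κ⸨X⸩} (hj : j ∈ Emb E a) {f : E}
    (hf : IsIntegral (Algebra.adjoin κ {(tE κ E - algebraMap κ E a)⁻¹}) f)
    (h : ∀ σ : E ≃ₐ[RatFunc κ] E, Reg 0 (j (σ f))) : ∃ c : κ, f = algebraMap κ E c := by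
  refine ⟨(j f).coeff 0, ?_⟩
  set c : κ := (j f).coeff 0 with hc
  have hf' : IsIntegral (Algebra.adjoin κ {(tE κ E - algebraMap κ E a)⁻¹})
      (f + algebraMap κ E (-c)) := hf.add (isIntegral_algebraMap (x := -c)).tower_top
  obtain ⟨g, hg⟩ := exists_norm_poly a hf'
  have hs : ∀ σ : E ≃ₐ[RatFunc κ] E,
      j (σ (f + algebraMap κ E (-c))) = j (σ f) + HahnSeries.C (-c) := fun σ => by
    rw [map_add, map_add, IsScalarTower.algebraMap_apply κ (RatFunc κ) E, AlgEquiv.commutes,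
      ← IsScalarTower.algebraMap_apply, AlgHom.commutes, LaurentSeries.algebraMap_apply]
  have hr : ∀ σ : E ≃ₐ[RatFunc κ] E, Reg 0 (j (σ (f + algebraMap κ E (-c)))) := fun σ => by
    rw [hs]; exact (h σ).add (stb_reg_C _)
  have hz : j (tE κ E - algebraMap κ E a)⁻¹ = HahnSeries.single (-1 : ℤ) (1 : κ) := by
    rw [map_inv₀, map_sub, hj, AlgHom.commutes, LaurentSeries.algebraMap_apply, lin,
      add_sub_cancel_left, HahnSeries.inv_single, inv_one]
  have hN := congrArg j hg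
  rw [← aeval_algHom_apply, hz, map_prod,
    ← Finset.mul_prod_erase _ _ (Finset.mem_univ (1 : E ≃ₐ[RatFunc κ] E))] at hN
  have hP : Reg 0 (∏ σ ∈ Finset.univ.erase (1 : E ≃ₐ[RatFunc κ] E),
      j (σ (f + algebraMap κ E (-c)))) :=
    Finset.prod_induction _ _ (fun _ _ h h' => h.mul h')
      (by rw [← HahnSeries.C_one]; exact stb_reg_C 1) fun σ _ => hr σ
  have hg0 : g = 0 := by
    ext n
    rw [← stb_coeff, ← hN, coeff_zero]
    rcases n.eq_zero_or_pos with rfl | hn
    · rw [Nat.cast_zero, neg_zero, (hr 1).coeff_mul hP, hs, HahnSeries.coeff_add,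
        AlgEquiv.one_apply, ← hc, HahnSeries.C_apply, HahnSeries.coeff_single_same, add_neg_cancel,
        zero_mul]
    · exact ((hr 1).mul hP) _ (by simpa using hn)
  rw [hg0, map_zero, Finset.prod_eq_zero_iff] at hg
  obtain ⟨σ, -, hσ⟩ := hg
  rw [map_eq_zero_iff _ σ.injective, map_neg, ← sub_eq_add_neg, sub_eq_zero] at hσ
  exact hσ

end Pool.Agent.ZeroCyc
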