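import Pool.Agent.Lib.MP_796ce4_ag.ZY.FfG
import Pool.Agent.Lib.MP_796ce4_ag.ZY.StB

/-! The reciprocity law for the Lang cover. -/

namespace Pool.Agent.ZeroCyc

open Polynomial Module
open scoped Classical IntermediateField PowerSeries

set_option linter.unusedSectionVars false

open scoped LaurentSeries

variable {p : ℕ} [Fact p.Prime] {κ : Type} [Field κ] [CharP κ p] [IsAlgClosed κ]

/-- the point of the curve under a point of the cover -/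
noncomputable def ptE {E : Type} [Field E] [Algebra κ E] (η : E) (t₀ : κ) (j : E →ₐ[κ] κ⸨X⸩) :
    κ × κ := (t₀, (j η).coeff 0)

/-- The data of the Lang cover. -/
structure LangD (p : ℕ) [Fact p.Prime] [CharP κ p] (c : Cv κ) (r : ℕ) {E : Type} [Field E]
    [Algebra (RatFunc κ) E] [Algebra κ E] (η : E) (Φ : E ≃+* E) (D₁ : κ × κ →₀ ℤ)
    (Dσ : (E ≃ₐ[RatFunc κ] E) → κ × κ →₀ ℤ) (Ex : Finset κ) : Prop where
  on : e2 (algebraMap κ E) (tE κ E) η c.χ = 0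
  semi : SemiL κ Φ (p ^ r)
  fix : Φ η = η
  mem₁ : D₁ ∈ c.DvF (fr κ p r)
  deg₁ : D₁.degree = 1
  mem : ∀ σ, σ η = η → Dσ σ ∈ c.DvF (fr κ p r)
  hom : ∀ σ σ', σ η = η → σ' η = η → Dσ (σ * σ') - Dσ σ - Dσ σ' ∈ c.PP
  ex : ∀ t₀ ∉ Ex, c.ρ.eval t₀ ≠ 0 ∧ (Emb E t₀).Nonempty
  recip : ∀ n σ t₀ j, σ η = η → t₀ ∉ Ex → j ∈ Emb E t₀ → FixE (twi (Φ ^ n) σ) (p ^ (r * n)) j →
    nrm (pm (fr κ p r)) n (ptE η t₀ j) - n • D₁ - Dσ σ ∈ c.PP

theorem ffk_PP {c : Cv κ} {F : κ →+* κ} (hF : c.Inv F) : (c.map F).PP = c.PP := by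
  have h1 : (c.map F).χ = c.χ := hF.χ
  have h2 : (c.map F).ρ = c.ρ := hF.ρ
  have h3 : ∀ u a, (c.map F).Wit u a ↔ c.Wit u a := fun u a =>
    ⟨fun h => ⟨h.monic, h2 ▸ h.cop, h.wl⟩, fun h => ⟨h.monic, h2 ▸ h.cop, h.wl⟩⟩
  simp only [Cv.PP, Cv.G, h1, h2, h3]

theorem ffk_tel {A : Type} [AddCommGroup A] {H : AddSubgroup A} {G a : ℕ → A}
    (h : ∀ i, G (i + 1) - G i - a i ∈ H) (n : ℕ) : G n - G 0 - ∑ i ∈ Finset.range n, a i ∈ H := by
  rw [← Finset.sum_range_sub G n, ← Finset.sum_sub_distrib]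
  exact sum_mem fun i _ => h i

theorem ffk_pm {A B E : Type} (g : B → E) (f : A → B) (D : A × A →₀ ℤ) :
    psh (pm g) (psh (pm f) D) = psh (pm fun a => g (f a)) D := psh_psh _ _ _

theorem ffk_congr {A B : Type} {f g : A → B} {D : A × A →₀ ℤ} {s : A → Prop}
    (hD : ∀ Q, D Q ≠ 0 → s Q.1 ∧ s Q.2) (h : ∀ a, s a → f a = g a) : psh (pm f) D = psh (pm g) D :=
  psh_congr fun Q hQ => Prod.ext (h _ (hD Q hQ).1) (h _ (hD Q hQ).2)

theorem ffk_inv {c : Cv κ} {n : ℕ} (hF : c.Inv (fr κ p n)) {θ : Om κ ≃+* Om κ}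
    (hθ : SemiL κ θ (p ^ n)) : (c.map (algebraMap κ (Om κ))).Inv (θ : Om κ →+* Om κ) := by
  have e : (θ : Om κ →+* Om κ).comp (algebraMap κ (Om κ)) =
      (algebraMap κ (Om κ)).comp (fr κ p n) := RingHom.ext fun a => by
    rw [RingHom.comp_apply, RingHom.comp_apply, fr_apply]
    exact hθ.c a
  constructor
  · change mp _ (mp _ c.χ) = mp _ c.χ
    rw [mp_mp, e, ← mp_mp, hF.χ]
  · change (c.ρ.map _).map _ = c.ρ.map _
    rw [Polynomial.map_map, e, ← Polynomial.map_map, hF.ρ]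

theorem ffk_semi0 (p : ℕ) (τ : Om κ ≃ₐ[RatFunc κ] Om κ) : SemiL κ τ.toRingEquiv (p ^ 0) where
  t := τ.commutes _
  c a := by
    rw [pow_zero, pow_one, IsScalarTower.algebraMap_apply κ (RatFunc κ) (Om κ)]
    exact τ.commutes _

theorem ffk_class {c : Cv κ} {n r : ℕ} (hF : c.Inv (fr κ p n)) {θ : Om κ ≃+* Om κ}
    (hθ : SemiL κ θ (p ^ n)) {η : Om κ} (hη : θ η = η) {P₀ : κ × κ} {x : Om κ × Om κ →₀ ℤ}
    (h : psh (pm (fr (Om κ) p r)) x - x - (Finsupp.single (tO κ, η) 1 -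
      Finsupp.single (pm (algebraMap κ (Om κ)) P₀) 1) ∈ (c.map (algebraMap κ (Om κ))).PP) :
    psh (pm (fr (Om κ) p r)) (psh (pm θ) x - x) - (psh (pm θ) x - x) +
      (Finsupp.single (pm θ (pm (algebraMap κ (Om κ)) P₀)) 1 -
        Finsupp.single (pm (algebraMap κ (Om κ)) P₀) 1) ∈ (c.map (algebraMap κ (Om κ))).PP := by
  have h1 := sub_mem ((ffk_inv hF hθ).psh_PP h) h
  have e1 : pm θ (tO κ, η) = (tO κ, η) := Prod.ext hθ.t hη
  have e2 : psh (pm θ) (psh (pm (fr (Om κ) p r)) x) = psh (pm (fr (Om κ) p r)) (psh (pm θ) x) := by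
    simp only [ffk_pm, fr_apply, map_pow]
  simp only [map_sub, psh_single, RingHom.coe_coe, e1, e2] at h1 ⊢
  convert h1 using 1
  abel

/-- the constants inside `intR g` -/
noncomputable def ffkI (g : κ[X]) : κ →+* intR g :=
  (algebraMap κ (Om κ)).codRestrict _ (algebraMap_mem_intR g)

/-- the divisor specialises to a principal divisor along all places of `intR g` -/
def FfkSp (c : Cv κ) (g : κ[X]) (D : Om κ × Om κ →₀ ℤ) : Prop :=
  ∀ ψ : intR g →+* κ, psh (pm (xt (intR g) ψ)) D ∈ (c.map (ψ.comp (ffkI g))).PP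

theorem ffk_sp {c : Cv κ} {D : Om κ × Om κ →₀ ℤ} (h : D ∈ (c.map (algebraMap κ (Om κ))).PP) :
    ∃ S : Finset (Om κ), ∀ g, (∀ a ∈ S, a ∈ intR g) → FfkSp c g D := by
  obtain ⟨S, hS⟩ := c.exists_spec _ h
  exact ⟨S, fun g hg ψ => hS (intR g) (ffkI g) κ ψ hg rfl⟩

theorem ffk_xt {g : κ[X]} {ψ : intR g →+* κ} (hψ : ∀ a, ψ (ffkI g a) = a) (a : κ) :
    xt (intR g) ψ (algebraMap κ (Om κ) a) = a :=
  (xt_coe (intR g) ψ (ffkI g a)).trans (hψ a)

theorem FfkSp.self {c : Cv κ} {g : κ[X]} {D : Om κ × Om κ →₀ ℤ} (h : FfkSp c g D)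
    {ψ : intR g →+* κ} (hψ : ∀ a, ψ (ffkI g a) = a) : psh (pm (xt (intR g) ψ)) D ∈ c.PP := by
  have := h ψ
  rwa [show ψ.comp (ffkI g) = RingHom.id κ from RingHom.ext hψ, Cv.map_id] at this

theorem FfkSp.rel {c : Cv κ} {g : κ[X]} {x : Om κ × Om κ →₀ ℤ} {D : κ × κ →₀ ℤ} {τ : Om κ → Om κ}
    (h : FfkSp c g (psh (pm τ) x - x - psh (pm (algebraMap κ (Om κ))) D))
    (hx : ∀ Q, x Q ≠ 0 → Q.1 ∈ intR g ∧ Q.2 ∈ intR g) (hτ : ∀ a ∈ intR g, τ a ∈ intR g)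
    {ψ : intR g →+* κ} (hψ : ∀ a, ψ (ffkI g a) = a) {n : ℕ} (hF : c.Inv (fr κ p n))
    (hg : g.map (fr κ p n) = g) {θ : Om κ ≃+* Om κ} (hθ : SemiL κ θ (p ^ n)) :
    psh (pm fun a => xt (intR g) ψ (θ (τ a))) x - psh (pm fun a => xt (intR g) ψ (θ a)) x -
      psh (pm (fr κ p n)) D ∈ c.PP := by
  set ψ' : intR g →+* κ := ψ.comp ((θ : Om κ →+* Om κ).restrict _ _ fun a ha => intR_semiL hg hθ ha)
  have e0 : ∀ a ∈ intR g, xt (intR g) ψ' a = xt (intR g) ψ (θ a) := fun a ha =>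
    (xt_coe (intR g) ψ' ⟨a, ha⟩).trans (xt_coe (intR g) ψ ⟨θ a, intR_semiL hg hθ ha⟩).symm
  have e1 : ∀ a, xt (intR g) ψ' (algebraMap κ (Om κ) a) = fr κ p n a := fun a => by
    rw [e0 _ (algebraMap_mem_intR g a), hθ.c, ffk_xt hψ, fr_apply]
  have h1 := h ψ'
  rw [show ψ'.comp (ffkI g) = fr κ p n from RingHom.ext fun a =>
    (xt_coe (intR g) ψ' (ffkI g a)).symm.trans (e1 a), ffk_PP hF, map_sub, map_sub, ffk_pm, ffk_pm,
    ffk_congr hx fun a ha => e0 _ (hτ a ha), ffk_congr hx e0, funext e1] at h1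
  exact h1

theorem ffk_place {g : κ[X]} {t₀ : κ} (ht : g.eval t₀ ≠ 0)
    (E : IntermediateField (RatFunc κ) (Om κ)) {j : E →ₐ[κ] κ⸨X⸩} (hj : j ∈ Emb E t₀) :
    ∃ ψ : intR g →+* κ, (∀ a, ψ (ffkI g a) = a) ∧ ∀ (x : E), (x : Om κ) ∈ intR g →
      xt (intR g) ψ x = (j x).coeff 0 := by
  obtain ⟨ψ, h⟩ := exists_place ht E hj
  refine ⟨ψ, fun a => ?_, fun x hx => (xt_coe (intR g) ψ ⟨x, hx⟩).trans (h x hx).2⟩
  refine (h (algebraMap κ E a) (algebraMap_mem_intR g a)).2.trans ?_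
  rw [j.commutes]
  simp [HahnSeries.algebraMap_apply']

theorem ffk_desc (hκ : AlgP κ p) (E : IntermediateField (RatFunc κ) (Om κ))
    [FiniteDimensional (RatFunc κ) E] [IsGalois (RatFunc κ) E] {c : Cv κ} {D : κ × κ →₀ ℤ}
    (h : psh (pm (algebraMap κ (Om κ))) D ∈ (c.map (algebraMap κ (Om κ))).PP) : D ∈ c.PP := by
  obtain ⟨S, hS⟩ := ffk_sp h
  obtain ⟨g, hg, -, hS'⟩ := exists_intR hκ one_pos S
  obtain ⟨t₀, ht⟩ := Infinite.exists_notMem_finset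
    (g.roots.toFinset ∪ (finite_emb_empty κ E).toFinset)
  simp only [Finset.mem_union, Multiset.mem_toFinset, mem_roots hg, Set.Finite.mem_toFinset,
    Set.mem_ofPred_eq, not_or, not_not] at ht
  obtain ⟨j, hj⟩ := ht.2
  obtain ⟨ψ, hψ, -⟩ := ffk_place ht.1 E hj
  have := (hS g hS').self hψ
  rw [ffk_pm, funext (ffk_xt hψ)] at this
  exact psh_id D ▸ this

/-- the restriction of an automorphism to an invariant subfield -/
noncomputable def ffkR (Φ : Om κ ≃+* Om κ) (E : IntermediateField (RatFunc κ) (Om κ))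
    (h : ∀ x, Φ x ∈ E ↔ x ∈ E) : E ≃+* E where
  toFun a := ⟨Φ a, (h a).2 a.2⟩
  invFun a := ⟨Φ.symm a, (h _).1 (by rw [Φ.apply_symm_apply]; exact a.2)⟩
  left_inv a := Subtype.ext (Φ.symm_apply_apply a)
  right_inv a := Subtype.ext (Φ.apply_symm_apply a)
  map_mul' a b := Subtype.ext (Φ.map_mul a b)
  map_add' a b := Subtype.ext (Φ.map_add a b)

theorem ffkR_pow (Φ : Om κ ≃+* Om κ) (E : IntermediateField (RatFunc κ) (Om κ))
    (h : ∀ x, Φ x ∈ E ↔ x ∈ E) (n : ℕ) (a : E) : ((ffkR Φ E h ^ n) a : Om κ) = (Φ ^ n) a := by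
  induction n generalizing a with
  | zero => rfl
  | succ n ih =>
    rw [pow_succ, pow_succ]
    exact ih (ffkR Φ E h a)

theorem exists_langD {c : Cv κ} {r : ℕ} (hρ : c.ρ ≠ 0) (hi : Irreducible c.χ) (hκ : AlgP κ p)
    (hr : 0 < r) (hF : c.Inv (fr κ p r)) : ∃ (E : Type) (_ : Field E) (_ : Algebra (RatFunc κ) E)
      (_ : Algebra κ E) (_ : IsScalarTower κ (RatFunc κ) E) (_ : FiniteDimensional (RatFunc κ) E)
      (_ : IsGalois (RatFunc κ) E) (η : E) (Φ : E ≃+* E) (D₁ : κ × κ →₀ ℤ)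
      (Dσ : (E ≃ₐ[RatFunc κ] E) → κ × κ →₀ ℤ) (Ex : Finset κ), LangD p c r η Φ D₁ Dσ Ex := by
  obtain ⟨η, P₀, x, hon, hsep, hP₀, hx, hxs, hL⟩ := lang_generic hρ hi hκ hr hF
  obtain ⟨Φ, hΦ, hΦη⟩ := exists_semiL hi hF hon
  obtain ⟨E, hfd, hgal, hE, hΦE⟩ := exists_galois hκ hr hΦ
    (insert η (x.support.image Prod.fst ∪ x.support.image Prod.snd)) (by
      intro a ha
      simp only [Finset.mem_insert, Finset.mem_union, Finset.mem_image, Finsupp.mem_support_iff] at ha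
      rcases ha with rfl | ⟨Q, hQ, rfl⟩ | ⟨Q, hQ, rfl⟩
      exacts [hsep, (hxs Q hQ).1, (hxs Q hQ).2])
  have hηE : η ∈ E := hE _ (Finset.mem_insert_self _ _)
  have hxE : ∀ Q, x Q ≠ 0 → Q.1 ∈ E ∧ Q.2 ∈ E := fun Q hQ =>
    ⟨hE _ (by simp only [Finset.mem_insert, Finset.mem_union, Finset.mem_image,
      Finsupp.mem_support_iff]; exact .inr (.inl ⟨Q, hQ, rfl⟩)),
    hE _ (by simp only [Finset.mem_insert, Finset.mem_union, Finset.mem_image,
      Finsupp.mem_support_iff]; exact .inr (.inr ⟨Q, hQ, rfl⟩))⟩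
  have hFn : ∀ n, c.Inv (fr κ p (r * n)) := fun n => fr_pow (𝕜 := κ) (p := p) r n ▸ hF.pow n
  have hΦn : ∀ n, SemiL κ (Φ ^ n) (p ^ (r * n)) := fun n => pow_mul p r n ▸ hΦ.pow n
  have hP : Finsupp.single P₀ (1 : ℤ) ∈ c.Dv := fun Q hQ => by
    rw [(Finsupp.mem_support_single _ _ _).1 (Finsupp.mem_support_iff.2 hQ) |>.1]
    exact hP₀
  obtain ⟨D₁, hD₁, hB⟩ := Cv.exists_inv_rep hρ hi hκ hr hF (algebraMap κ (Om κ))
    (D := psh (pm Φ) x - x + psh (pm (algebraMap κ (Om κ))) (Finsupp.single P₀ 1))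
    (add_mem (sub_mem ((ffk_inv hF hΦ).psh_Dv hx) hx) (Cv.psh_Dv _ hP)) (by
      have e : pm Φ (pm (algebraMap κ (Om κ)) P₀) = pm (fr (Om κ) p r) (pm (algebraMap κ (Om κ)) P₀) :=
        Prod.ext ((hΦ.c _).trans ((map_pow _ _ _).trans (fr_apply r _).symm))
          ((hΦ.c _).trans ((map_pow _ _ _).trans (fr_apply r _).symm))
      have := ffk_class hF hΦ hΦη hL
      rw [e] at this
      rw [map_add, psh_single, psh_single]
      convert this using 1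
      abel)
  have hl : ∀ (σ : E ≃ₐ[RatFunc κ] E) (a : E), σ.liftNormal (Om κ) a = σ a := fun σ a =>
    σ.liftNormal_commutes (Om κ) a
  have hσ : ∀ σ : E ≃ₐ[RatFunc κ] E, ∃ D : κ × κ →₀ ℤ, σ ⟨η, hηE⟩ = ⟨η, hηE⟩ →
      D ∈ c.DvF (fr κ p r) ∧ psh (pm (σ.liftNormal (Om κ))) x - x -
        psh (pm (algebraMap κ (Om κ))) D ∈ (c.map (algebraMap κ (Om κ))).PP := fun σ => by
    by_cases h : σ ⟨η, hηE⟩ = ⟨η, hηE⟩
    · have h0 := ffk_semi0 p (σ.liftNormal (Om κ))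
      have := ffk_class (hFn 0) h0 ((hl σ ⟨η, hηE⟩).trans (congrArg Subtype.val h)) hL
      rw [show pm (σ.liftNormal (Om κ)).toRingEquiv (pm (algebraMap κ (Om κ)) P₀) =
        pm (algebraMap κ (Om κ)) P₀ from Prod.ext ((h0.c _).trans (by simp [pm]))
          ((h0.c _).trans (by simp [pm])), sub_self, add_zero] at this
      obtain ⟨D, hD, hD'⟩ := Cv.exists_inv_rep hρ hi hκ hr hF (algebraMap κ (Om κ))
        (sub_mem ((ffk_inv (hFn 0) h0).psh_Dv hx) hx) this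
      exact ⟨D, fun _ => ⟨hD, hD'⟩⟩
    · exact ⟨0, fun h' => absurd h' h⟩
  choose Dσ hDσ using hσ
  have hσ' : ∀ σ : E ≃ₐ[RatFunc κ] E, ∃ S : Finset (Om κ), σ ⟨η, hηE⟩ = ⟨η, hηE⟩ →
      ∀ g, (∀ a ∈ S, a ∈ intR g) → FfkSp c g (psh (pm (σ.liftNormal (Om κ))) x - x -
        psh (pm (algebraMap κ (Om κ))) (Dσ σ)) := fun σ => by
    by_cases h : σ ⟨η, hηE⟩ = ⟨η, hηE⟩
    · obtain ⟨S, hS⟩ := ffk_sp (hDσ σ h).2
      exact ⟨S, fun _ => hS⟩
    · exact ⟨∅, fun h' => absurd h' h⟩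
  choose Sσ hSσ using hσ'
  obtain ⟨SA, hSA⟩ := ffk_sp hL
  obtain ⟨SB, hSB⟩ := ffk_sp (show psh (pm Φ) x - x - psh (pm (algebraMap κ (Om κ)))
      (D₁ - Finsupp.single P₀ 1) ∈ (c.map (algebraMap κ (Om κ))).PP by
    rw [map_sub]
    convert hB using 1
    abel)
  obtain ⟨g, hg, hgF, hS⟩ := exists_intR hκ hr (SA ∪ SB ∪ Finset.univ.biUnion Sσ ∪
    insert (tO κ) (insert η (x.support.image Prod.fst ∪ x.support.image Prod.snd)))
  simp only [Finset.mem_insert, Finset.mem_union, Finset.mem_image, Finsupp.mem_support_iff,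
    Finset.mem_biUnion, Finset.mem_univ, true_and] at hS
  have hxV : ∀ Q, x Q ≠ 0 → Q.1 ∈ intR g ∧ Q.2 ∈ intR g := fun Q hQ =>
    ⟨hS _ (.inr (.inr (.inr (.inl ⟨Q, hQ, rfl⟩)))), hS _ (.inr (.inr (.inr (.inr ⟨Q, hQ, rfl⟩))))⟩
  have hgn : ∀ n, g.map (fr κ p (r * n)) = g := fun n => Polynomial.ext fun k => by
    rw [coeff_map]
    exact fr_fixed_mul ((coeff_map _ k).symm.trans (congrArg (coeff · k) hgF)) n
  have hinv : ∀ D ∈ c.DvF (fr κ p r), ∀ n, psh (pm (fr κ p (r * n))) D = D := fun D hD n => by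
    rw [← pm_fr_iterate]
    induction n with
    | zero => exact psh_id D
    | succ n ih => rw [Function.iterate_succ, ← psh_psh, (Cv.mem_DvF.1 hD).2, ih]
  refine ⟨E, inferInstance, inferInstance, inferInstance, inferInstance, hfd, hgal, ⟨η, hηE⟩,
    ffkR Φ E hΦE, D₁, Dσ, g.roots.toFinset ∪ c.ρ.roots.toFinset ∪ (finite_emb_empty κ E).toFinset,
    ?_, ⟨Subtype.ext hΦ.t, fun a => Subtype.ext (hΦ.c a)⟩, Subtype.ext hΦη, hD₁, ?_,
    fun σ h => (hDσ σ h).1, fun σ σ' h h' => ?_, fun t₀ ht => ?_, fun n σ t₀ j h ht hj hf => ?_⟩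
  · apply (algebraMap E (Om κ)).injective
    rw [map_e2, map_zero]
    exact (ee_mp _ (tO κ, η) _).symm.trans hon
  · have := Cv.degree_PP hB
    simp only [map_sub, map_add, degree_psh, Finsupp.degree_single] at this
    omega
  · refine ffk_desc hκ E ?_
    have h0 := ffk_semi0 p (σ.liftNormal (Om κ))
    have h1 := (ffk_inv (hFn 0) h0).psh_PP (hDσ σ' h').2
    have h2 := (hDσ (σ * σ') (by rw [AlgEquiv.mul_apply, h', h])).2
    have e1 : psh (pm ((σ * σ').liftNormal (Om κ))) x =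
        psh (pm fun a => σ.liftNormal (Om κ) (σ'.liftNormal (Om κ) a)) x :=
      ffk_congr hxE fun a ha => (hl _ ⟨a, ha⟩).trans ((hl σ _).symm.trans
        (congrArg _ (hl σ' ⟨a, ha⟩).symm))
    have e2 : (fun a => σ.liftNormal (Om κ) (algebraMap κ (Om κ) a)) = algebraMap κ (Om κ) :=
      funext fun a => (h0.c a).trans (by simp)
    rw [map_sub, map_sub, ffk_pm, ffk_pm] at h1
    rw [e1] at h2
    rw [map_sub, map_sub]
    convert sub_mem (add_mem h1 (hDσ σ h).2) h2 using 1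
    change _ = psh (pm fun a => σ.liftNormal (Om κ) (σ'.liftNormal (Om κ) a)) x -
      psh (pm (σ.liftNormal (Om κ))) x -
      psh (pm fun a => σ.liftNormal (Om κ) (algebraMap κ (Om κ) a)) (Dσ σ') + _ - _
    rw [e2]
    abel
  · simp only [Finset.mem_union, Multiset.mem_toFinset, mem_roots hρ, Set.Finite.mem_toFinset,
      Set.mem_ofPred_eq, not_or, not_not] at ht
    exact ⟨ht.1.2, ht.2⟩
  · simp only [Finset.mem_union, Multiset.mem_toFinset, mem_roots hg, not_or] at ht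
    obtain ⟨ψ, hψ, hj'⟩ := ffk_place ht.1.1 E hj
    have hσV : ∀ a ∈ intR g, σ.liftNormal (Om κ) a ∈ intR g := fun a ha =>
      intR_semiL (hgn 0) (ffk_semi0 p (σ.liftNormal (Om κ))) ha
    have hA := (hSA g fun a ha => hS a (.inl (.inl (.inl ha)))).self hψ
    have eA : psh (pm (xt (intR g) ψ)) (psh (pm (fr (Om κ) p r)) x) =
        psh (pm (fr κ p r)) (psh (pm (xt (intR g) ψ)) x) := by
      rw [ffk_pm, ffk_pm]
      refine ffk_congr hxV fun a ha => ?_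
      rw [fr_apply, fr_apply, show xt (intR g) ψ a = ψ ⟨a, ha⟩ from xt_coe (intR g) ψ ⟨a, ha⟩, ← map_pow]
      exact xt_coe (intR g) ψ (⟨a, ha⟩ ^ p ^ r)
    have eQ : pm (xt (intR g) ψ) (tO κ, η) = ptE ⟨η, hηE⟩ t₀ j :=
      Prod.ext ((hj' (tE κ E) (hS _ (.inr (.inl rfl)))).trans
        ((congrArg (·.coeff 0) hj).trans (coeff_lin t₀))) (hj' ⟨η, hηE⟩ (hS _ (.inr (.inr (.inl rfl)))))
    have eP : pm (xt (intR g) ψ) (pm (algebraMap κ (Om κ)) P₀) = P₀ :=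
      Prod.ext (ffk_xt hψ _) (ffk_xt hψ _)
    rw [map_sub, map_sub, map_sub, psh_single, psh_single, eA, eQ, eP] at hA
    have h1 := ffk_tel (H := c.PP) (G := fun i => psh (pm (fr κ p r))^[i] (psh (pm (xt (intR g) ψ)) x))
      (a := fun i => Finsupp.single ((pm (fr κ p r))^[i] (ptE ⟨η, hηE⟩ t₀ j)) 1 -
        Finsupp.single ((pm (fr κ p r))^[i] P₀) 1) (fun i => by
          have := (hFn i).psh_PP hA
          rw [← pm_fr_iterate, map_sub, map_sub, map_sub, psh_single, psh_single, psh_psh] at this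
          exact this) n
    have h2 := ffk_tel (H := c.PP) (G := fun i => psh (pm fun a => xt (intR g) ψ ((Φ ^ i) a)) x)
      (a := fun i => D₁ - Finsupp.single ((pm (fr κ p r))^[i] P₀) 1) (fun i => by
          have := (hSB g fun a ha => hS a (.inl (.inl (.inr ha)))).rel hxV
            (fun a ha => intR_semiL hgF hΦ ha) hψ (hFn i) (hgn i) (hΦn i)
          rw [map_sub, hinv D₁ hD₁, psh_single, ← pm_fr_iterate] at this
          simp only [pow_succ]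
          exact this) n
    have h3 := (hSσ σ h g fun a ha => hS a (.inl (.inr ⟨σ, ha⟩))).rel hxV hσV hψ (hFn n) (hgn n) (hΦn n)
    have e3 : psh (pm fun a => xt (intR g) ψ ((Φ ^ n) (σ.liftNormal (Om κ) a))) x =
        psh (pm (fr κ p r))^[n] (psh (pm (xt (intR g) ψ)) x) := by
      rw [pm_fr_iterate, ffk_pm]
      refine ffk_congr (s := fun a => a ∈ E ∧ a ∈ intR g)
        (fun Q hQ => ⟨⟨(hxE Q hQ).1, (hxV Q hQ).1⟩, (hxE Q hQ).2, (hxV Q hQ).2⟩) fun a ha => ?_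
      have e4 : (Φ ^ n) (σ.liftNormal (Om κ) a) = ((ffkR Φ E hΦE ^ n) (σ ⟨a, ha.1⟩) : E) := by
        rw [ffkR_pow, ← hl]
      have h4 := intR_semiL (hgn n) (hΦn n) (hσV a ha.2)
      rw [e4] at h4 ⊢
      rw [hj' _ h4, fr_apply, show xt (intR g) ψ a = _ from hj' ⟨a, ha.1⟩ ha.2]
      exact hf ⟨a, ha.1⟩ 0
    rw [e3, hinv _ (hDσ σ h).1] at h3
    rw [Finset.sum_sub_distrib] at h1 h2
    rw [Finset.sum_const, Finset.card_range] at h2
    convert sub_mem (add_mem h2 h3) h1 using 1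
    change _ = _ - psh (pm (xt (intR g) ψ)) x - _ + _ - (_ - psh id _ - (nrm _ _ _ - _))
    rw [psh_id]
    abel

end Pool.Agent.ZeroCyc
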