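import Pool.Agent.Lib.MP_796ce4_ag.ZY.FgE
import Pool.Agent.Lib.MP_796ce4_ag.ZY.FfC

/-! The Lang equation at the generic point. -/

namespace Pool.Agent.ZeroCyc

open Polynomial Module
open scoped Classical IntermediateField PowerSeries

set_option linter.unusedSectionVars false

/-- an algebraic closure of `κ(t)` -/
abbrev Om (κ : Type) [Field κ] : Type := AlgebraicClosure (RatFunc κ)

/-- the generic value of `τ` -/
noncomputable def tO (κ : Type) [Field κ] : Om κ := algebraMap (RatFunc κ) (Om κ) RatFunc.X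

variable {p : ℕ} [Fact p.Prime] {κ : Type} [Field κ] [CharP κ p] [IsAlgClosed κ] {r : ℕ} {c : Cv κ}

theorem exists_good_points (hρ : c.ρ ≠ 0) (hδ : 0 < c.δ) (n : ℕ) :
    ∃ P : Fin n → κ × κ, (∀ j, c.Gp (P j)) ∧ Function.Injective fun j => (P j).1 := by
  have hinf : {t | c.ρ.IsRoot t}ᶜ.Infinite := (finite_setOfPred_isRoot hρ).infinite_compl
  have hy : ∀ t : κ, ∃ y, On c.χ (t, y) := fun t => by
    have hm := c.wt.monic.map (evalRingHom t)
    obtain ⟨y, hy⟩ := IsAlgClosed.exists_root (c.χ.map (evalRingHom t)) (by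
      rw [degree_eq_natDegree hm.ne_zero, c.wt.monic.natDegree_map, c.wt.deg]
      exact_mod_cast hδ.ne')
    exact ⟨y, (ee_eq_eval _ _).trans hy⟩
  choose y hy using hy
  refine ⟨fun j => ((hinf.natEmbedding _ j : κ), y _), fun j => ⟨hy _, (hinf.natEmbedding _ j).2⟩,
    fun i j h => Fin.ext ((hinf.natEmbedding _).injective (Subtype.ext h))⟩

theorem ffl_delta (hi : Irreducible c.χ) : 0 < c.δ := by
  refine Nat.pos_of_ne_zero fun h => hi.not_isUnit ?_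
  rw [c.wt.monic.natDegree_eq_zero.1 (c.wt.deg.trans h)]
  exact isUnit_one

theorem ffl_e2_mp {R S T : Type} [CommRing R] [CommRing S] [CommRing T] (φ : S →+* T)
    (ψ : R →+* S) (τ η : T) (a : R[X][X]) : e2 φ τ η (mp ψ a) = e2 (φ.comp ψ) τ η a := by
  rw [← ee_mp φ (τ, η), mp_mp, ee_mp]

theorem ffl_gp_map {R S : Type} [CommRing R] [CommRing S] [Nontrivial S] {c : Cv R} (φ : R →+* S)
    {Q : R × R} (h : On c.χ Q) (h' : φ (c.ρ.eval Q.1) ≠ 0) : (c.map φ).Gp (pm φ Q) := by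
  refine ⟨(map_ee φ Q c.χ).symm.trans (by rw [h, map_zero]), ?_⟩
  change (c.ρ.map φ).eval (φ Q.1) ≠ 0
  rwa [eval_map, eval₂_at_apply]

theorem ffl_single {𝕜 : Type} [Field 𝕜] {c : Cv 𝕜} {Q : 𝕜 × 𝕜} (h : c.Gp Q) :
    Finsupp.single Q (1 : ℤ) ∈ c.Dv := fun Q' h' => by
  rwa [← (Finsupp.single_apply_ne_zero.1 h').1] at h

section mv

variable {L O J 𝕜 : Type} [NormedField L] [IsUltrametricDist L] [CompleteSpace L] [CommRing O]
  [Fintype J] [Field 𝕜] [IsAlgClosed 𝕜] {ι : O →+* L} {ψ : O →+* κ} {c' : Cv O} {P : J → O × O}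

theorem ffl_gp_mv (hI : IntR ι ψ) (hP : BasP ψ c' P) (e : L →+* 𝕜) (j : J) {x : L}
    (hx : ‖x‖ < 1) : (c'.map (e.comp ι)).Gp (e (ι (P j).1 + x), e (hn ι c'.χ (P j) x)) := by
  refine ⟨?_, ?_⟩
  · change ee _ (mp (e.comp ι) c'.χ) = 0
    rw [ee_mp, ← map_e2, (sd_hn hI hP j).1 x hx, map_zero]
  · change (c'.ρ.map (e.comp ι)).eval (e (ι (P j).1 + x)) ≠ 0
    rw [eval_map, ← hom_eval₂, _root_.map_ne_zero]
    intro h0
    have h1 := (sd_eval₂ hI.norm_le (hI.norm_le (P j).1) c'.ρ).norm_le hx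
    rw [h0, zero_sub, norm_neg, eval₂_at_apply, hI.norm_eq_one.1 (hP.good j)] at h1
    exact hx.not_ge h1

theorem ffl_mv_mem (hI : IntR ι ψ) (hP : BasP ψ c' P) (e : L →+* 𝕜) (j : J) {x : L}
    (hx : ‖x‖ < 1) : mv ι e c'.χ (P j) x ∈ (c'.map (e.comp ι)).Dv := by
  refine sub_mem (ffl_single (ffl_gp_mv hI hP e j hx)) (ffl_single (ffl_gp_map _ (hP.on j) ?_))
  rw [RingHom.comp_apply, _root_.map_ne_zero]
  intro h0
  have := hI.norm_eq_one.1 (hP.good j)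
  rw [h0, norm_zero] at this
  exact zero_ne_one this

theorem ffl_fr_mv [CharP L p] [CharP 𝕜 p] (hI : IntR ι ψ) (hP : BasP ψ c' P) (e : L →+* 𝕜) (j : J)
    {n : ℕ} (h1 : fr L p n (ι (P j).1) = ι (P j).1) (h2 : fr L p n (ι (P j).2) = ι (P j).2)
    (hχ : ∀ τ η, e2 ((fr L p n).comp ι) τ η c'.χ = e2 ι τ η c'.χ) {x : L} (hx : ‖x‖ < 1) :
    psh (pm (fr 𝕜 p n)) (mv ι e c'.χ (P j) x) = mv ι e c'.χ (P j) (x ^ p ^ n) := by
  have he : ∀ y, fr 𝕜 p n (e y) = e (fr L p n y) := fun y =>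
    (congrArg (fun f : L →+* 𝕜 => f y) (fr_comp e n)).symm
  have hq : p ^ n ≠ 0 := pow_ne_zero _ (Fact.out : p.Prime).ne_zero
  have hx' : ‖x ^ p ^ n‖ < 1 := by
    rw [norm_pow]
    exact pow_lt_one₀ (norm_nonneg _) hx hq
  have h3 : fr L p n (ι (P j).1 + x) = ι (P j).1 + x ^ p ^ n := by rw [map_add, h1, fr_apply]
  have h4 : hn ι c'.χ (P j) (x ^ p ^ n) = fr L p n (hn ι c'.χ (P j) x) := by
    refine hn_unique hI hP j hx' ?_ ?_
    · rw [← h3, ← hχ, ← map_e2, (sd_hn hI hP j).1 x hx, map_zero]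
    · obtain ⟨ℓ, hℓ⟩ := (sd_hn hI hP j).2
      rw [← h2, ← map_sub, fr_apply, norm_pow]
      exact pow_lt_one₀ (norm_nonneg _) ((hℓ.norm_le hx).trans_lt hx) hq
  unfold mv
  rw [map_sub, psh_single, psh_single, h4, ← h3]
  congr 2
  · exact Prod.ext (he _) (he _)
  · refine Prod.ext ?_ ?_
    · change fr 𝕜 p n (e (ι (P j).1)) = e (ι (P j).1)
      rw [he, h1]
    · change fr 𝕜 p n (e (ι (P j).2)) = e (ι (P j).2)
      rw [he, h2]

end mv

/-- the solution over Laurent series, for a power of Frobenius -/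
theorem lang_formal (hρ : c.ρ ≠ 0) (hi : Irreducible c.χ) (hκ : AlgP κ p) (hr : 0 < r)
    (hF : c.Inv (fr κ p r)) : ∃ (𝕜 : Type) (_ : Field 𝕜) (_ : CharP 𝕜 p) (_ : IsAlgClosed 𝕜)
      (e : κ →+* 𝕜) (m : ℕ) (Q : 𝕜 × 𝕜) (P₀ : κ × κ) (x : 𝕜 × 𝕜 →₀ ℤ), 0 < m ∧
      (∀ u : κ[X], u ≠ 0 → u.eval₂ e Q.1 ≠ 0) ∧ On (c.map e).χ Q ∧ c.Gp P₀ ∧ x ∈ (c.map e).Dv ∧
      psh (pm (fr 𝕜 p (r * m))) x - x -
        (Finsupp.single Q 1 - Finsupp.single (pm e P₀) 1) ∈ (c.map e).PP := by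
  obtain ⟨P0, hP0, hinj⟩ := exists_good_points hρ (ffl_delta hi) (3 * c.c0 + 1)
  obtain ⟨m, hm, hfix⟩ := hκ.per_finset hr
    (Finset.univ.image (fun j => (P0 j).1) ∪ Finset.univ.image fun j => (P0 j).2)
  obtain ⟨L, iL, iU, iC, ι, hι, hR, hres⟩ := exists_normed_laurent κ
  have hI : IntR ι (PowerSeries.constantCoeff (R := κ)) := ⟨hι, hR, hres⟩
  have hCC : (PowerSeries.constantCoeff (R := κ)).comp PowerSeries.C = RingHom.id κ :=
    RingHom.ext fun x => by simp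
  set c' := c.map (PowerSeries.C : κ →+* κ⟦X⟧) with hc'
  set P : Fin (3 * c.c0 + 1) → κ⟦X⟧ × κ⟦X⟧ := fun j => pm PowerSeries.C (P0 j) with hPd
  have hP : BasP (PowerSeries.constantCoeff (R := κ)) c' P := by
    refine ⟨fun j => (map_ee _ _ c.χ).symm.trans (by rw [(hP0 j).1, map_zero]), fun j => ?_,
      fun i j h => hinj (by simpa [hPd, pm] using h)⟩
    change PowerSeries.constantCoeff ((c.ρ.map PowerSeries.C).eval (PowerSeries.C (P0 j).1)) ≠ 0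
    rw [eval_map, eval₂_at_apply]
    simpa using (hP0 j).2
  have hi' : Irreducible (mp (PowerSeries.constantCoeff (R := κ)) c'.χ) := by
    have : (c'.map (PowerSeries.constantCoeff (R := κ))).χ = c.χ := by
      rw [hc', Cv.map_map, hCC, Cv.map_id]
    change Irreducible (c'.map (PowerSeries.constantCoeff (R := κ))).χ
    rwa [this]
  have : CharP L p := charP_of_injective_ringHom (ι.comp PowerSeries.C).injective p
  let e0 : L →+* AlgebraicClosure L := algebraMap _ _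
  have hce : c'.map (e0.comp ι) = c.map ((e0.comp ι).comp PowerSeries.C) := Cv.map_map _ _ _
  obtain ⟨g, t, hG, hx⟩ := exists_fg hI hP hi' 0 (by rw [Fintype.card_fin]; rfl) e0
    (QuotientAddGroup.mk' (c'.map (e0.comp ι)).PP) fun u a h => by
      rw [QuotientAddGroup.mk'_apply, QuotientAddGroup.mk'_apply, QuotientAddGroup.eq_iff_sub_mem,
        Cv.map_G, mp_C]
      exact AddSubgroup.subset_closure ⟨_, _, h.map _, rfl⟩
  have hX : ‖ι PowerSeries.X‖ < 1 := (hres _).1 (by simp)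
  obtain ⟨z, hz, hz'⟩ := hx _ hX
  have hq : 2 ≤ p ^ (r * m) :=
    (Fact.out : p.Prime).two_le.trans (Nat.le_self_pow (Nat.mul_pos hr hm).ne' p)
  obtain ⟨w, hw, hw'⟩ := hG.lang hq (hz.trans_lt hX)
  have hwi : ∀ i, ‖w i‖ < 1 := fun i => (norm_le_pi_norm w i).trans_lt hw
  have hfr : ∀ a : κ, fr κ p (r * m) a = a →
      fr L p (r * m) (ι (PowerSeries.C a)) = ι (PowerSeries.C a) := fun a ha => by
    have := congrArg (fun f : κ →+* L => f a) (fr_comp (ι.comp PowerSeries.C) (r * m))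
    simp only [RingHom.comp_apply] at this
    rw [← this, ha]
  have hχ : ∀ τ η, e2 ((fr L p (r * m)).comp ι) τ η c'.χ = e2 ι τ η c'.χ := fun τ η => by
    change e2 _ τ η (mp PowerSeries.C c.χ) = e2 ι τ η (mp PowerSeries.C c.χ)
    rw [ffl_e2_mp, ffl_e2_mp, RingHom.comp_assoc, ← fr_comp, ← ffl_e2_mp, ← fr_pow, (hF.pow m).χ]
  refine ⟨AlgebraicClosure L, inferInstance, inferInstance, inferInstance,
    (e0.comp ι).comp PowerSeries.C, m,
    (e0 (ι (P 0).1 + ι PowerSeries.X), e0 (hn ι c'.χ (P 0) (ι PowerSeries.X))), P0 0,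
    ∑ i, mv ι e0 c'.χ (P (t i)) (w i), hm, fun u hu => ?_, ?_, hP0 0, ?_, ?_⟩
  · have h1 : e0 (ι (P 0).1 + ι PowerSeries.X) =
        (e0.comp ι) (PowerSeries.C (P0 0).1 + PowerSeries.X) := by
      rw [RingHom.comp_apply, map_add ι]
      rfl
    change u.eval₂ _ (e0 (ι (P 0).1 + ι PowerSeries.X)) ≠ 0
    rw [h1, ← hom_eval₂, RingHom.comp_apply, _root_.map_ne_zero, map_ne_zero_iff ι hι]
    change sh (P0 0).1 u ≠ 0
    rw [sh_eq_taylor, Ne, Polynomial.coe_eq_zero_iff, taylor_eq_zero]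
    exact hu
  · rw [← hce]
    exact (ffl_gp_mv hI hP e0 0 hX).1
  · rw [← hce]
    exact sum_mem fun i _ => ffl_mv_mem hI hP e0 _ (hwi i)
  · rw [← hce, map_sum, Finset.sum_congr rfl fun i _ => ffl_fr_mv hI hP e0 (t i)
      (hfr _ (hfix _ (by simp))) (hfr _ (hfix _ (by simp))) hχ (hwi i),
      ← QuotientAddGroup.eq_zero_iff, ← QuotientAddGroup.mk'_apply, map_sub, map_sub, map_sum,
      map_sum]
    change _ - _ - QuotientAddGroup.mk' _ (mv ι e0 c'.χ (P 0) (ι PowerSeries.X)) = 0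
    rw [hz', hw']
    abel

theorem ffl_lift (K F Ω : Type) [Field K] [Field F] [Field Ω] [IsAlgClosed Ω] [Algebra K F]
    [Algebra K Ω] [Module.Finite K F] : Nonempty (F →ₐ[K] Ω) := ⟨IsAlgClosed.lift⟩

theorem ffl_null {K 𝕜 Ω : Type} [Field K] [Field 𝕜] [Field Ω] [IsAlgClosed Ω] (j : K →+* 𝕜)
    (j' : K →+* Ω) (S : Finset 𝕜) : ∃ (V : Subring 𝕜) (ψ : V →+* Ω) (j₀ : K →+* V),
      (∀ x ∈ S, x ∈ V) ∧ V.subtype.comp j₀ = j ∧ ψ.comp j₀ = j' := by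
  let := j.toAlgebra
  let := j'.toAlgebra
  let A := Algebra.adjoin K (S : Set 𝕜)
  have : Algebra.FiniteType K A := .adjoin_of_finite S.finite_toSet
  obtain ⟨𝔪, h𝔪⟩ := Ideal.exists_maximal A
  let := Ideal.Quotient.field 𝔪
  have : Module.Finite K (A ⧸ 𝔪) := finite_of_finite_type_of_isJacobsonRing K (A ⧸ 𝔪)
  obtain ⟨f0⟩ := ffl_lift K (A ⧸ 𝔪) Ω
  let f : A →ₐ[K] Ω := f0.comp (Ideal.Quotient.mkₐ K 𝔪)
  exact ⟨A.toSubring, f.toRingHom, algebraMap K A, fun x hx => Algebra.subset_adjoin hx, rfl,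
    RingHom.ext fun k => f.commutes k⟩

theorem ffl_tO (u : κ[X]) : u.eval₂ (algebraMap κ (Om κ)) (tO κ) =
    algebraMap (RatFunc κ) (Om κ) (algebraMap κ[X] (RatFunc κ) u) := by
  rw [IsScalarTower.algebraMap_eq κ (RatFunc κ) (Om κ), tO, ← hom_eval₂, ← aeval_def,
    RatFunc.aeval_X_left_eq_algebraMap]

theorem ffl_sep (hρ : c.ρ ≠ 0) {η : Om κ} (h : On (c.map (algebraMap κ (Om κ))).χ (tO κ, η)) :
    IsSeparable (RatFunc κ) η := by
  have h0 : algebraMap κ[X] (RatFunc κ) c.ρ ≠ 0 := RatFunc.algebraMap_ne_zero hρ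
  have h1 : (c.χ.map (algebraMap κ[X] (RatFunc κ))).Separable := by
    have h2 := congrArg (Polynomial.map (algebraMap κ[X] (RatFunc κ))) c.rho
    rw [map_C, Polynomial.map_add, Polynomial.map_mul, Polynomial.map_mul,
      ← derivative_map] at h2
    refine ⟨C (algebraMap κ[X] (RatFunc κ) c.ρ)⁻¹ * c.α.map (algebraMap κ[X] (RatFunc κ)),
      C (algebraMap κ[X] (RatFunc κ) c.ρ)⁻¹ * c.β.map (algebraMap κ[X] (RatFunc κ)), ?_⟩
    rw [mul_assoc, mul_assoc, ← mul_add, ← h2, ← C_mul, inv_mul_cancel₀ h0, C_1]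
  refine h1.of_dvd (minpoly.dvd _ _ ?_)
  have h3 : ee (tO κ, η) (mp (algebraMap κ (Om κ)) c.χ) = 0 := h
  rw [ee_mp, e2_eq_eval, eval_map] at h3
  rw [aeval_def, eval₂_map, ← h3]
  congr 1
  exact RingHom.ext fun u => (ffl_tO u).symm

theorem ffl_pow_sep (hr : 0 < r) (s : Finset (Om κ)) : ∃ N, ∀ a ∈ s,
    fr (Om κ) p (r * N) a ∈ separableClosure (RatFunc κ) (Om κ) := by
  have : ExpChar (separableClosure (RatFunc κ) (Om κ)) p := by
    have : CharP (separableClosure (RatFunc κ) (Om κ)) p := charP_of_injective_ringHom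
      ((algebraMap (RatFunc κ) _).comp (algebraMap κ (RatFunc κ))).injective p
    exact ExpChar.prime Fact.out
  choose n hn using fun a : Om κ =>
    IsPurelyInseparable.pow_mem (separableClosure (RatFunc κ) (Om κ)) p a
  refine ⟨s.sup n, fun a ha => ?_⟩
  obtain ⟨d, hd⟩ := Nat.exists_eq_add_of_le
    ((Finset.le_sup ha : n a ≤ s.sup n).trans (Nat.le_mul_of_pos_left _ hr))
  obtain ⟨b, hb⟩ := hn a
  rw [fr_apply, hd, pow_add, pow_mul, ← hb]
  exact pow_mem b.2 _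

theorem ffl_psh_add {𝕜 : Type} [Field 𝕜] [CharP 𝕜 p] (a b : ℕ) (D : 𝕜 × 𝕜 →₀ ℤ) :
    psh (pm (fr 𝕜 p a)) (psh (pm (fr 𝕜 p b)) D) = psh (pm (fr 𝕜 p (b + a))) D := by
  rw [psh_psh]
  refine psh_congr fun Q _ => Prod.ext ?_ ?_
  · change fr 𝕜 p a (fr 𝕜 p b Q.1) = fr 𝕜 p (b + a) Q.1
    rw [fr_apply, fr_apply, fr_apply, pow_add, pow_mul]
  · change fr 𝕜 p a (fr 𝕜 p b Q.2) = fr 𝕜 p (b + a) Q.2
    rw [fr_apply, fr_apply, fr_apply, pow_add, pow_mul]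

theorem ffl_tele {𝕜 : Type} [Field 𝕜] [CharP 𝕜 p] (n : ℕ) (D : 𝕜 × 𝕜 →₀ ℤ) :
    psh (pm (fr 𝕜 p r)) (∑ i ∈ Finset.range n, psh (pm (fr 𝕜 p (r * i))) D) -
      ∑ i ∈ Finset.range n, psh (pm (fr 𝕜 p (r * i))) D = psh (pm (fr 𝕜 p (r * n))) D - D := by
  have h0 : psh (pm (fr 𝕜 p (r * 0))) D = D := by
    refine (psh_congr fun Q _ => ?_).trans (psh_id D)
    refine Prod.ext ?_ ?_
    · change fr 𝕜 p (r * 0) Q.1 = Q.1
      simp
    · change fr 𝕜 p (r * 0) Q.2 = Q.2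
      simp
  rw [map_sum, ← Finset.sum_sub_distrib, Finset.sum_congr rfl fun i _ => by
    rw [ffl_psh_add, ← Nat.mul_succ], Finset.sum_range_sub
    (fun i => psh (pm (fr 𝕜 p (r * i))) D), h0]

/-- divisors supported at points with coordinates in `E` -/
def ffl_supp {𝕜 : Type} (E : Set 𝕜) : AddSubgroup (𝕜 × 𝕜 →₀ ℤ) where
  carrier := {D | ∀ Q, D Q ≠ 0 → Q.1 ∈ E ∧ Q.2 ∈ E}
  zero_mem' := fun _ h => absurd rfl h
  add_mem' := fun {a b} ha hb Q h => by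
    by_cases h1 : a Q = 0
    · exact hb Q fun h2 => h (by rw [Finsupp.add_apply, h1, h2, add_zero])
    · exact ha Q h1
  neg_mem' := fun {a} ha Q h => ha Q fun h1 => h (by rw [Finsupp.neg_apply, h1, neg_zero])


theorem ffl_spec (hρ : c.ρ ≠ 0) (hi : Irreducible c.χ) (hκ : AlgP κ p) (hr : 0 < r)
    (hF : c.Inv (fr κ p r)) : ∃ (m : ℕ) (η : Om κ) (P₀ : κ × κ) (x : Om κ × Om κ →₀ ℤ),
      On (c.map (algebraMap κ (Om κ))).χ (tO κ, η) ∧ c.Gp P₀ ∧
      x ∈ (c.map (algebraMap κ (Om κ))).Dv ∧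
      psh (pm (fr (Om κ) p (r * m))) x - x - (Finsupp.single (tO κ, η) 1 -
        Finsupp.single (pm (algebraMap κ (Om κ)) P₀) 1) ∈ (c.map (algebraMap κ (Om κ))).PP := by
  obtain ⟨𝕜, i1, i2, i3, e, m, Q, P₀, x, -, hQ, hOn, hP, hx, hD⟩ := lang_formal hρ hi hκ hr hF
  obtain ⟨S, hS⟩ := Cv.exists_spec c e hD
  have hinj : Function.Injective (eval₂RingHom e Q.1) :=
    (injective_iff_map_eq_zero _).2 fun u hu => by_contra fun h => hQ u h hu
  obtain ⟨V, ψ, j₀, hV, hj, hj'⟩ := ffl_null (IsFractionRing.lift (K := RatFunc κ) hinj)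
    (algebraMap (RatFunc κ) (Om κ)) (S ∪ {Q.2} ∪ x.support.image Prod.fst ∪
      x.support.image Prod.snd ∪ x.support.image fun y => ((c.ρ.map e).eval y.1)⁻¹)
  have hj1 : ∀ u : κ[X], (j₀ (algebraMap κ[X] (RatFunc κ) u) : 𝕜) = u.eval₂ e Q.1 := fun u =>
    (congrArg (fun f : RatFunc κ →+* 𝕜 => f (algebraMap κ[X] (RatFunc κ) u)) hj).trans
      (IsFractionRing.lift_algebraMap hinj u)
  let ι₀ : κ →+* V := j₀.comp (algebraMap κ (RatFunc κ))
  have h1 : V.subtype.comp ι₀ = e := RingHom.ext fun a => by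
    have := hj1 (C a)
    rw [eval₂_C] at this
    rw [← this]
    change (j₀ (algebraMap κ (RatFunc κ) a) : 𝕜) = _
    rw [IsScalarTower.algebraMap_apply κ κ[X] (RatFunc κ)]
    rfl
  have h2 : ψ.comp ι₀ = algebraMap κ (Om κ) := by
    rw [← RingHom.comp_assoc, hj', ← IsScalarTower.algebraMap_eq]
  have hQ1 : (j₀ RatFunc.X : 𝕜) = Q.1 := by
    rw [← RatFunc.algebraMap_X, hj1, eval₂_X]
  have hxQ : xt V ψ Q.1 = tO κ := by
    rw [← hQ1, xt_coe]
    exact congrArg (fun f : RatFunc κ →+* Om κ => f RatFunc.X) hj'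
  have hxe : ∀ a, xt V ψ (e a) = algebraMap κ (Om κ) a := fun a => by
    rw [← h1, ← h2]
    exact xt_coe V ψ (ι₀ a)
  have hpm : ∀ y : V × V, pm (xt V ψ) (pm V.subtype y) = pm ψ y := fun y =>
    Prod.ext (xt_coe V ψ y.1) (xt_coe V ψ y.2)
  have hon : ∀ y : V × V, On (c.map e).χ (pm V.subtype y) → On (c.map ι₀).χ y := fun y hy => by
    refine Subtype.ext ((map_ee V.subtype y _).trans ?_)
    change ee _ (mp V.subtype (mp ι₀ c.χ)) = 0
    rw [mp_mp, h1]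
    exact hy
  have hs : ∀ y, x y ≠ 0 → y.1 ∈ V ∧ y.2 ∈ V ∧ ((c.ρ.map e).eval y.1)⁻¹ ∈ V := fun y hy => by
    have := Finsupp.mem_support_iff.2 hy
    refine ⟨hV _ ?_, hV _ ?_, hV _ ?_⟩ <;> simp only [Finset.mem_union] <;>
      first
        | exact Or.inr (Finset.mem_image_of_mem _ this)
        | exact Or.inl (Or.inr (Finset.mem_image_of_mem _ this))
        | exact Or.inl (Or.inl (Or.inr (Finset.mem_image_of_mem _ this)))
  have hQ2 : Q.2 ∈ V := hV _ (by simp)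
  refine ⟨m, xt V ψ Q.2, P₀, psh (pm (xt V ψ)) x, ?_, hP, fun y' hy' => ?_, ?_⟩
  · have h3 := map_ee ψ (j₀ RatFunc.X, ⟨Q.2, hQ2⟩) (c.map ι₀).χ
    rw [hon (j₀ RatFunc.X, ⟨Q.2, hQ2⟩) (by
      rw [show pm V.subtype (j₀ RatFunc.X, ⟨Q.2, hQ2⟩) = Q from Prod.ext hQ1 rfl]
      exact hOn), map_zero, ← hpm,
      show pm V.subtype (j₀ RatFunc.X, ⟨Q.2, hQ2⟩) = Q from Prod.ext hQ1 rfl] at h3
    change 0 = ee (xt V ψ Q.1, xt V ψ Q.2) (mp ψ (mp ι₀ c.χ)) at h3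
    rw [mp_mp, h2, hxQ] at h3
    exact h3.symm
  · obtain ⟨y, hy, rfl⟩ := psh_ne_zero hy'
    obtain ⟨a1, a2, a3⟩ := hs y hy
    have h3 := ffl_gp_map (c := c.map ι₀) ψ (hon (⟨y.1, a1⟩, ⟨y.2, a2⟩) (hx y hy).1) (by
      refine left_ne_zero_of_mul_eq_one (b := ψ ⟨_, a3⟩) ?_
      rw [← map_mul, ← map_one ψ]
      congr 1
      refine Subtype.ext ?_
      have h4 : V.subtype ((c.ρ.map ι₀).eval ⟨y.1, a1⟩) = (c.ρ.map e).eval y.1 := by
        rw [eval_map, hom_eval₂, h1, eval_map]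
        rfl
      exact (congrArg (· * _) h4).trans (mul_inv_cancel₀ (hx y hy).2))
    rwa [Cv.map_map, h2, ← hpm] at h3
  · have h3 := hS V ι₀ (Om κ) ψ (fun a ha => hV a (by simp [ha])) h1
    rw [h2, map_sub, map_sub, map_sub, psh_single, psh_single, psh_psh] at h3
    have h4 : psh (pm (xt V ψ) ∘ pm (fr 𝕜 p (r * m))) x =
        psh (pm (fr (Om κ) p (r * m))) (psh (pm (xt V ψ)) x) := by
      have h5 : ∀ a ∈ V, xt V ψ (fr 𝕜 p (r * m) a) = fr (Om κ) p (r * m) (xt V ψ a) :=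
        fun a ha => by
          rw [fr_apply, fr_apply, show xt V ψ a = ψ ⟨a, ha⟩ from xt_coe V ψ ⟨a, ha⟩, ← map_pow]
          exact xt_coe V ψ (⟨a, ha⟩ ^ p ^ (r * m))
      rw [psh_psh]
      exact psh_congr fun y hy => Prod.ext (h5 _ (hs y hy).1) (h5 _ (hs y hy).2.1)
    rwa [h4, show pm (xt V ψ) Q = (tO κ, xt V ψ Q.2) from Prod.ext hxQ rfl,
      show pm (xt V ψ) (pm e P₀) = pm (algebraMap κ (Om κ)) P₀ from
        Prod.ext (hxe _) (hxe _)] at h3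

theorem lang_generic (hρ : c.ρ ≠ 0) (hi : Irreducible c.χ) (hκ : AlgP κ p) (hr : 0 < r)
    (hF : c.Inv (fr κ p r)) : ∃ (η : Om κ) (P₀ : κ × κ) (x : Om κ × Om κ →₀ ℤ),
      On (c.map (algebraMap κ (Om κ))).χ (tO κ, η) ∧ IsSeparable (RatFunc κ) η ∧ c.Gp P₀ ∧
      x ∈ (c.map (algebraMap κ (Om κ))).Dv ∧
      (∀ Q, x Q ≠ 0 → IsSeparable (RatFunc κ) Q.1 ∧ IsSeparable (RatFunc κ) Q.2) ∧
      psh (pm (fr (Om κ) p r)) x - x - (Finsupp.single (tO κ, η) 1 -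
        Finsupp.single (pm (algebraMap κ (Om κ)) P₀) 1) ∈ (c.map (algebraMap κ (Om κ))).PP := by
  obtain ⟨m, η, P₀, x, hOn, hP, hx, hD⟩ := ffl_spec hρ hi hκ hr hF
  have hη := ffl_sep hρ hOn
  have hFn : ∀ n, (c.map (algebraMap κ (Om κ))).Inv (fr (Om κ) p (r * n)) := fun n => by
    rw [← fr_pow]
    exact (hF.map _).pow n
  set ξ : Om κ × Om κ →₀ ℤ := Finsupp.single (tO κ, η) 1 -
    Finsupp.single (pm (algebraMap κ (Om κ)) P₀) 1 with hξ
  set x' := ∑ i ∈ Finset.range m, psh (pm (fr (Om κ) p (r * i))) x with hx'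
  rw [← ffl_tele m x, ← hx'] at hD
  obtain ⟨N, hN⟩ := ffl_pow_sep (p := p) hr (x'.support.image Prod.fst ∪ x'.support.image Prod.snd)
  have hξD : ξ ∈ (c.map (algebraMap κ (Om κ))).Dv := by
    refine sub_mem (ffl_single ⟨hOn, ?_⟩)
      (ffl_single (ffl_gp_map _ hP.1 ((_root_.map_ne_zero _).2 hP.2)))
    change (c.ρ.map (algebraMap κ (Om κ))).eval (tO κ) ≠ 0
    rw [eval_map, ffl_tO, _root_.map_ne_zero]
    exact RatFunc.algebraMap_ne_zero hρ
  let E := separableClosure (RatFunc κ) (Om κ)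
  have hE : ∀ a : κ, algebraMap κ (Om κ) a ∈ E := fun a => by
    rw [IsScalarTower.algebraMap_apply κ (RatFunc κ) (Om κ)]
    exact E.algebraMap_mem _
  have hξE : ξ ∈ ffl_supp (E : Set (Om κ)) := by
    refine sub_mem (fun Q h => ?_) fun Q h => ?_
    · rw [(Finsupp.single_apply_ne_zero.1 h).1]
      exact ⟨E.algebraMap_mem _, mem_separableClosure_iff.2 hη⟩
    · rw [(Finsupp.single_apply_ne_zero.1 h).1]
      exact ⟨hE _, hE _⟩
  have hsupp : psh (pm (fr (Om κ) p (r * N))) x' - ∑ i ∈ Finset.range N,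
      psh (pm (fr (Om κ) p (r * i))) ξ ∈ ffl_supp (E : Set (Om κ)) := by
    refine sub_mem (fun Q h => ?_) (sum_mem fun i _ Q h => ?_)
    · obtain ⟨y, hy, rfl⟩ := psh_ne_zero h
      have := Finsupp.mem_support_iff.2 hy
      exact ⟨hN _ (Finset.mem_union_left _ (Finset.mem_image_of_mem _ this)),
        hN _ (Finset.mem_union_right _ (Finset.mem_image_of_mem _ this))⟩
    · obtain ⟨y, hy, rfl⟩ := psh_ne_zero h
      refine ⟨?_, ?_⟩
      · change fr (Om κ) p (r * i) y.1 ∈ E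
        rw [fr_apply]
        exact pow_mem (hξE y hy).1 _
      · change fr (Om κ) p (r * i) y.2 ∈ E
        rw [fr_apply]
        exact pow_mem (hξE y hy).2 _
  refine ⟨η, P₀, psh (pm (fr (Om κ) p (r * N))) x' -
    ∑ i ∈ Finset.range N, psh (pm (fr (Om κ) p (r * i))) ξ, hOn, hη, hP,
    sub_mem ((hFn N).psh_Dv (sum_mem fun i _ => (hFn i).psh_Dv hx))
      (sum_mem fun i _ => (hFn i).psh_Dv hξD),
    fun Q h => ⟨mem_separableClosure_iff.1 (hsupp Q h).1, mem_separableClosure_iff.1 (hsupp Q h).2⟩,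
    ?_⟩
  have h1 := (hFn N).psh_PP hD
  have h2 := ffl_tele (p := p) (r := r) N ξ
  rw [map_sub, map_sub, ffl_psh_add, add_comm, ← ffl_psh_add] at h1
  convert h1 using 1
  rw [map_sub, sub_eq_iff_eq_add.1 h2, ← hξ]
  abel

end Pool.Agent.ZeroCyc
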