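import Pool.Agent.Lib.MP_796ce4_ag.ZY.CvW

/-! Frobenius, semilinear maps. -/

namespace Pool.Agent.ZeroCyc

open Polynomial Module
open scoped Classical IntermediateField PowerSeries

set_option linter.unusedSectionVars false

/-- `x ↦ x ^ p ^ r` -/
noncomputable abbrev fr (𝕜 : Type) [Field 𝕜] (p : ℕ) [Fact p.Prime] [CharP 𝕜 p] (r : ℕ) :
    𝕜 →+* 𝕜 := iterateFrobenius 𝕜 p r

/-- algebraic over the prime field -/
def AlgP (κ : Type) [Field κ] (p : ℕ) : Prop := ∀ x : κ, ∃ n, 0 < n ∧ x ^ p ^ n = x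

variable {p : ℕ} [Fact p.Prime] {𝕜 𝕜' : Type} [Field 𝕜] [CharP 𝕜 p] [Field 𝕜'] [CharP 𝕜' p]
  {r : ℕ}

theorem fr_apply (r : ℕ) (x : 𝕜) : fr 𝕜 p r x = x ^ p ^ r := rfl
theorem fr_pow (r n : ℕ) : fr 𝕜 p r ^ n = fr 𝕜 p (r * n) := by
  unfold fr
  rw [iterateFrobenius_eq_pow, iterateFrobenius_eq_pow, pow_mul]
theorem fr_comp (ψ : 𝕜 →+* 𝕜') (r : ℕ) : ψ.comp (fr 𝕜 p r) = (fr 𝕜' p r).comp ψ :=
  RingHom.ext fun x => by
    rw [RingHom.comp_apply, RingHom.comp_apply, fr_apply, fr_apply, map_pow]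
theorem fr_bijective [IsAlgClosed 𝕜] (r : ℕ) : Function.Bijective (fr 𝕜 p r) :=
  bijective_iterateFrobenius 𝕜 p r
theorem ffs_fixed_mul {x : 𝕜} (h : fr 𝕜 p r x = x) (n : ℕ) : fr 𝕜 p (r * n) x = x := by
  rw [← fr_pow, RingHom.coe_pow]
  exact Function.iterate_fixed h n
theorem AlgP.per (h : AlgP 𝕜 p) (hr : 0 < r) (x : 𝕜) : ∃ n, 0 < n ∧ (fr 𝕜 p r ^ n) x = x := by
  obtain ⟨n, hn, hx⟩ := h x
  refine ⟨n, hn, ?_⟩
  rw [fr_pow, mul_comm]
  exact ffs_fixed_mul (r := n) hx r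
theorem AlgP.per_finset (h : AlgP 𝕜 p) (hr : 0 < r) (s : Finset 𝕜) :
    ∃ n, 0 < n ∧ ∀ x ∈ s, fr 𝕜 p (r * n) x = x := by
  induction s using Finset.induction_on with
  | empty => exact ⟨1, one_pos, by simp⟩
  | insert a s _ ih =>
    obtain ⟨n, hn, hs⟩ := ih
    obtain ⟨m, hm, ha⟩ := h.per hr a
    rw [fr_pow] at ha
    refine ⟨n * m, Nat.mul_pos hn hm, fun x hx => ?_⟩
    rcases Finset.mem_insert.1 hx with rfl | hx
    · rw [mul_comm n m, ← mul_assoc]
      exact ffs_fixed_mul ha n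
    · rw [← mul_assoc]
      exact ffs_fixed_mul (hs x hx) m
theorem fr_fixed_mul {x : 𝕜} (h : fr 𝕜 p r x = x) (n : ℕ) : fr 𝕜 p (r * n) x = x :=
  ffs_fixed_mul h n
theorem exists_finset_fixed [IsAlgClosed 𝕜] (hr : 0 < r) :
    ∃ s : Finset 𝕜, s.card = p ^ r ∧ ∀ x, x ∈ s ↔ fr 𝕜 p r x = x := by
  have hp : 1 < p := (Fact.out : p.Prime).one_lt
  have h0 := FiniteField.X_pow_card_pow_sub_X_ne_zero 𝕜 hr.ne' hp
  have hsep : (X ^ p ^ r - X : 𝕜[X]).Separable :=
    galois_poly_separable p _ (dvd_pow_self p hr.ne')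
  refine ⟨(X ^ p ^ r - X : 𝕜[X]).roots.toFinset, ?_, fun x => ?_⟩
  · rw [Multiset.toFinset_card_of_nodup (nodup_roots hsep), IsAlgClosed.card_roots_eq_natDegree,
      FiniteField.X_pow_card_pow_sub_X_natDegree_eq 𝕜 hr.ne' hp]
  · rw [Multiset.mem_toFinset, mem_roots h0, fr_apply, IsRoot, eval_sub, eval_pow, eval_X,
      sub_eq_zero]
theorem mem_range_of_fixed [IsAlgClosed 𝕜] (ψ : 𝕜 →+* 𝕜') (hr : 0 < r) {x : 𝕜'}
    (h : fr 𝕜' p r x = x) : x ∈ ψ.range := by
  have hp : 1 < p := (Fact.out : p.Prime).one_lt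
  have h0 := FiniteField.X_pow_card_pow_sub_X_ne_zero 𝕜 hr.ne' hp
  refine (IsAlgClosed.splits _).mem_range_of_isRoot h0 ?_
  rw [fr_apply] at h
  rw [Polynomial.map_sub, Polynomial.map_pow, map_X, IsRoot, eval_sub, eval_pow, eval_X, h,
    sub_self]
theorem Cv.Inv.map {c : Cv 𝕜} (h : c.Inv (fr 𝕜 p r)) (ψ : 𝕜 →+* 𝕜') :
    (c.map ψ).Inv (fr 𝕜' p r) := by
  constructor
  · change mp (fr 𝕜' p r) (mp ψ c.χ) = mp ψ c.χ
    rw [mp_mp, ← fr_comp, ← mp_mp, h.χ]
  · change (c.ρ.map ψ).map (fr 𝕜' p r) = c.ρ.map ψ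
    rw [Polynomial.map_map, ← fr_comp, ← Polynomial.map_map, h.ρ]
theorem pm_fr_iterate (r n : ℕ) : (pm (fr 𝕜 p r))^[n] = pm (fr 𝕜 p (r * n)) := by
  unfold pm
  rw [Prod.map_iterate, ← fr_pow, RingHom.coe_pow]
/-- a non-zero polynomial does not vanish on all points over a large finite field -/
theorem exists_fixed_eval_ne [IsAlgClosed 𝕜] {σ : Type} [Finite σ] {Θ : MvPolynomial σ 𝕜}
    (h : Θ ≠ 0) : ∃ n₀, ∀ n, n₀ ≤ n → ∃ x : σ → 𝕜, (∀ i, fr 𝕜 p n (x i) = x i) ∧
      MvPolynomial.eval x Θ ≠ 0 := by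
  refine ⟨Θ.totalDegree + 1, fun n hn => ?_⟩
  obtain ⟨s, hs, hs'⟩ := exists_finset_fixed (𝕜 := 𝕜) (p := p) (r := n) (by omega)
  by_contra hc
  refine h (MvPolynomial.eq_zero_of_eval_zero_at_prod_finset Θ (fun _ => s) (fun i => ?_)
    fun x hx => ?_)
  · have h1 := MvPolynomial.degreeOf_le_totalDegree Θ i
    have h2 := Nat.lt_pow_self (Fact.out : p.Prime).one_lt (n := n)
    omega
  · by_contra h1
    exact hc ⟨x, fun i => (hs' _).1 (hx i), h1⟩

section semi

variable {k W : Type} [Field k] [IsAlgClosed k] [AddCommGroup W] [Module k W] {q : ℕ}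

/-- In a finite dimensional space some member of a sequence is a combination of the earlier
ones. -/
theorem ffs_rel (U : Submodule k W) [FiniteDimensional k U] (v : ℕ → W) (hv : ∀ i, v i ∈ U) :
    ∃ (r : ℕ) (a : ℕ → k), v r = ∑ i ∈ Finset.range r, a i • v i := by
  by_contra hne
  have hli : LinearIndependent k v := by
    rw [linearIndependent_iff']
    intro s g
    induction s using Finset.induction_on_max with
    | empty => simp
    | insert a s ha ih =>
      intro hsum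
      rw [Finset.sum_insert fun h => lt_irrefl _ (ha a h)] at hsum
      have hga : g a = 0 := by
        by_contra hg
        refine hne ⟨a, fun i => if i ∈ s then -((g a)⁻¹ * g i) else 0, ?_⟩
        have h1 : ∑ i ∈ Finset.range a, (if i ∈ s then -((g a)⁻¹ * g i) else 0) • v i =
            ∑ i ∈ s, -((g a)⁻¹ * g i) • v i := by
          rw [← Finset.sum_subset (s₁ := s) (fun i hi => Finset.mem_range.2 (ha i hi))
            fun i _ hi => by rw [if_neg hi, zero_smul]]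
          exact Finset.sum_congr rfl fun i hi => by rw [if_pos hi]
        rw [h1]
        simp only [neg_smul, mul_smul, Finset.sum_neg_distrib, ← Finset.smul_sum]
        rw [← eq_neg_iff_add_eq_zero] at hsum
        rw [← smul_neg, ← hsum, inv_smul_smul₀ hg]
      rw [hga, zero_smul, zero_add] at hsum
      intro i hi
      rcases Finset.mem_insert.1 hi with rfl | hi
      · exact hga
      · exact ih hsum i hi
  have h2 : LinearIndependent k fun i => (⟨v i, hv i⟩ : U) :=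
    LinearIndependent.of_comp U.subtype hli
  exact Module.Finite.not_linearIndependent_of_infinite _ h2

/-- The polynomials of the recursion. -/
noncomputable def ffsP (q : ℕ) (a : ℕ → k) : ℕ → k[X]
  | 0 => C (a 0) * X ^ q
  | i + 1 => ffsP q a i ^ q + C (a (i + 1)) * X ^ q

theorem ffs_root (hq : 2 ≤ q) {a : ℕ → k} (ha : a 0 ≠ 0) (r : ℕ) :
    ∃ s : k, s ≠ 0 ∧ (ffsP q a r).eval s = s := by
  have h1 : ∀ i, q ≤ (ffsP q a i).natDegree := by
    intro i
    induction i with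
    | zero => rw [ffsP, natDegree_C_mul_X_pow q _ ha]
    | succ i ih =>
      have b1 : q < (ffsP q a i ^ q).natDegree := by
        rw [natDegree_pow]
        nlinarith
      rw [ffsP, natDegree_add_eq_left_of_natDegree_lt
        ((natDegree_C_mul_X_pow_le _ _).trans_lt b1)]
      exact b1.le
  have h2 : ∀ i, X ^ 2 ∣ ffsP q a i := by
    intro i
    induction i with
    | zero => exact Dvd.dvd.mul_left (pow_dvd_pow X hq) _
    | succ i ih =>
      exact dvd_add (ih.trans (dvd_pow_self _ (by omega))) (Dvd.dvd.mul_left (pow_dvd_pow X hq) _)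
  obtain ⟨h, hh⟩ := h2 r
  have h0 : h ≠ 0 := by
    rintro rfl
    have := h1 r
    rw [hh, mul_zero, natDegree_zero] at this
    omega
  have h3 : (X * h - C 1).degree ≠ 0 := by
    intro e
    have := natDegree_eq_of_degree_eq_some (n := 0) e
    rw [natDegree_sub_C, natDegree_X_mul h0] at this
    omega
  obtain ⟨s, hs⟩ := IsAlgClosed.exists_root _ h3
  rw [IsRoot, eval_sub, eval_mul, eval_X, eval_C, sub_eq_zero] at hs
  refine ⟨s, left_ne_zero_of_mul_eq_one hs, ?_⟩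
  rw [hh, eval_mul, eval_pow, eval_X, sq, mul_assoc, hs, mul_one]

/-- a non-zero invariant subspace contains a non-zero fixed vector -/
theorem ffs_exists_fixed (hq : 2 ≤ q) (Θ : W →+ W) (hinj : Function.Injective Θ)
    (hΘ : ∀ (c : k) v, Θ (c • v) = c ^ q • Θ v) (U : Submodule k W) [FiniteDimensional k U]
    (hU : ∀ v ∈ U, Θ v ∈ U) (h0 : U ≠ ⊥) : ∃ v ∈ U, v ≠ 0 ∧ Θ v = v := by
  obtain ⟨v, hvU, hv0⟩ := (Submodule.ne_bot_iff U).1 h0
  let w : ℕ → W := fun i => Θ^[i] v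
  have hw : ∀ i, w (i + 1) = Θ (w i) := fun i => Function.iterate_succ_apply' _ _ _
  have hwU : ∀ i, w i ∈ U := by
    intro i
    induction i with
    | zero => exact hvU
    | succ i ih => rw [hw]; exact hU _ ih
  have hex := ffs_rel U w hwU
  obtain ⟨a, ha⟩ := Nat.find_spec hex
  have hr0 : Nat.find hex ≠ 0 := fun h => by
    rw [h, Finset.sum_range_zero] at ha
    exact hv0 ha
  obtain ⟨r, hr⟩ := Nat.exists_eq_succ_of_ne_zero hr0
  have hmin := Nat.find_min hex (m := r) (by omega)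
  rw [hr, Nat.succ_eq_add_one, Finset.sum_range_succ'] at ha
  have ha0 : a 0 ≠ 0 := by
    intro h
    choose b hb using fun i => IsAlgClosed.exists_pow_nat_eq (a (i + 1)) (n := q) (by omega)
    refine hmin ⟨b, hinj ?_⟩
    rw [← hw, ha, h, zero_smul, add_zero, map_sum]
    exact Finset.sum_congr rfl fun i _ => by rw [hΘ, hb, hw]
  obtain ⟨s, hs0, hs⟩ := ffs_root hq ha0 r
  refine ⟨∑ i ∈ Finset.range (r + 1), (ffsP q a i).eval s • w i,
    U.sum_mem fun i _ => U.smul_mem _ (hwU i), fun h => ?_, ?_⟩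
  · rw [Finset.sum_range_succ, hs, add_comm, ← eq_neg_iff_add_eq_zero] at h
    refine hmin ⟨fun i => -(s⁻¹ * (ffsP q a i).eval s), ?_⟩
    simp only [neg_smul, mul_smul, Finset.sum_neg_distrib, ← Finset.smul_sum]
    rw [← smul_neg, ← h, inv_smul_smul₀ hs0]
  · rw [map_sum, Finset.sum_range_succ, Finset.sum_range_succ', hs, hΘ, ← hw, ha, smul_add,
      Finset.smul_sum, ← add_assoc, ← Finset.sum_add_distrib]
    congr 1
    · refine Finset.sum_congr rfl fun i _ => ?_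
      rw [hΘ, ← hw, ffsP, eval_add, eval_pow, eval_mul, eval_C, eval_pow, eval_X, add_smul,
        smul_smul, mul_comm]
    · rw [ffsP, eval_mul, eval_C, eval_pow, eval_X, smul_smul, mul_comm]

theorem ffs_map_sum (Θ : W →+ W) (hΘ : ∀ (c : k) v, Θ (c • v) = c ^ q • Θ v)
    {ι : Type} {b : ι → W} (hb : ∀ i, Θ (b i) = b i) (s : Finset ι) (c : ι → k) :
    Θ (∑ i ∈ s, c i • b i) - ∑ i ∈ s, c i • b i = ∑ i ∈ s, (c i ^ q - c i) • b i := by
  rw [map_sum, ← Finset.sum_sub_distrib]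
  exact Finset.sum_congr rfl fun i _ => by rw [hΘ, hb, sub_smul]

theorem ffs_as_root (hq : 2 ≤ q) (c : k) : ∃ t : k, t ^ q - t = c := by
  obtain ⟨t, ht⟩ := IsAlgClosed.exists_root (X ^ q - X - C c : k[X]) (by
    intro e
    have := natDegree_eq_of_degree_eq_some (n := 0) e
    rw [natDegree_sub_C, FiniteField.X_pow_card_sub_X_natDegree_eq k (by omega)] at this
    omega)
  refine ⟨t, ?_⟩
  simpa [sub_eq_zero] using ht

/-- the fixed vectors span -/
theorem ffs_span (hq : 2 ≤ q) (Θ : W →+ W) (hinj : Function.Injective Θ)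
    (hΘ : ∀ (c : k) v, Θ (c • v) = c ^ q • Θ v) (U : Submodule k W) [FiniteDimensional k U]
    (hU : ∀ v ∈ U, Θ v ∈ U) : Submodule.span k {v : W | v ∈ U ∧ Θ v = v} = U := by
  set U0 := Submodule.span k {v : W | v ∈ U ∧ Θ v = v} with hU0
  have hle : U0 ≤ U := Submodule.span_le.2 fun v hv => hv.1
  have h1 : ∀ w ∈ U0, Θ w ∈ U0 := by
    intro w hw
    induction hw using Submodule.span_induction with
    | mem w hw => rw [hw.2]; exact Submodule.subset_span hw
    | zero => rw [map_zero]; exact zero_mem _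
    | add a b _ _ ha hb => rw [map_add]; exact add_mem ha hb
    | smul c a _ ha => rw [hΘ]; exact U0.smul_mem _ ha
  have h2 : ∀ w ∈ U0, ∀ c : k, ∃ u ∈ U0, Θ u = c • w := by
    intro w hw
    induction hw using Submodule.span_induction with
    | mem w hw =>
      intro c
      obtain ⟨t, ht⟩ := IsAlgClosed.exists_pow_nat_eq c (show 0 < q by omega)
      exact ⟨t • w, U0.smul_mem _ (Submodule.subset_span hw), by rw [hΘ, hw.2, ht]⟩
    | zero => exact fun c => ⟨0, zero_mem _, by simp⟩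
    | add a b _ _ ha hb =>
      intro c
      obtain ⟨u, u1, u2⟩ := ha c
      obtain ⟨v, v1, v2⟩ := hb c
      exact ⟨u + v, add_mem u1 v1, by rw [map_add, u2, v2, smul_add]⟩
    | smul c a _ ha => exact fun e => by simpa only [mul_smul] using ha (e * c)
  have h3 : ∀ w ∈ U0, ∀ c : k, ∃ u ∈ U0, Θ u - u = c • w := by
    intro w hw
    induction hw using Submodule.span_induction with
    | mem w hw =>
      intro c
      obtain ⟨t, ht⟩ := ffs_as_root hq c
      exact ⟨t • w, U0.smul_mem _ (Submodule.subset_span hw), by rw [hΘ, hw.2, ← sub_smul, ht]⟩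
    | zero => exact fun c => ⟨0, zero_mem _, by simp⟩
    | add a b _ _ ha hb =>
      intro c
      obtain ⟨u, u1, u2⟩ := ha c
      obtain ⟨v, v1, v2⟩ := hb c
      exact ⟨u + v, add_mem u1 v1, by rw [map_add, add_sub_add_comm, u2, v2, smul_add]⟩
    | smul c a _ ha => exact fun e => by simpa only [mul_smul] using ha (e * c)
  let Φ : (W ⧸ U0) →+ (W ⧸ U0) := QuotientAddGroup.map U0.toAddSubgroup U0.toAddSubgroup Θ h1
  have hΦ : ∀ v, Φ (U0.mkQ v) = U0.mkQ (Θ v) := fun v => rfl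
  have hi : Function.Injective Φ := by
    rw [injective_iff_map_eq_zero]
    intro a ha
    obtain ⟨v, rfl⟩ := U0.mkQ_surjective a
    rw [hΦ, Submodule.mkQ_apply, Submodule.Quotient.mk_eq_zero] at ha
    obtain ⟨u, u1, u2⟩ := h2 _ ha 1
    rw [one_smul] at u2
    rw [Submodule.mkQ_apply, Submodule.Quotient.mk_eq_zero, ← hinj u2]
    exact u1
  refine le_antisymm hle ?_
  by_contra hn
  obtain ⟨a, ⟨v, hv, rfl⟩, a0, a1⟩ := ffs_exists_fixed (k := k) hq Φ hi
    (fun c a => by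
      obtain ⟨v, rfl⟩ := U0.mkQ_surjective a
      rw [← map_smul, hΦ, hΦ, hΘ, map_smul])
    (U.map U0.mkQ) (by
      rintro _ ⟨v, hv, rfl⟩
      exact ⟨Θ v, hU v hv, rfl⟩) (by
      intro h
      refine hn fun v hv => ?_
      have : U0.mkQ v ∈ U.map U0.mkQ := ⟨v, hv, rfl⟩
      rwa [h, Submodule.mem_bot, Submodule.mkQ_apply, Submodule.Quotient.mk_eq_zero] at this)
  rw [hΦ, Submodule.mkQ_apply, Submodule.mkQ_apply, Submodule.Quotient.eq] at a1
  obtain ⟨u, u1, u2⟩ := h3 _ a1 1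
  rw [one_smul] at u2
  have h4 : v - u ∈ U0 := Submodule.subset_span ⟨sub_mem hv (hle u1), by
    rw [map_sub, sub_eq_sub_iff_sub_eq_sub, u2]⟩
  refine a0 ?_
  rw [Submodule.mkQ_apply, Submodule.Quotient.mk_eq_zero]
  simpa using add_mem h4 u1

/-- in a basis of fixed vectors a vector is fixed iff its coordinates are -/
theorem ffs_card (hq : 2 ≤ q) (Θ : W →+ W) (hinj : Function.Injective Θ)
    (hΘ : ∀ (c : k) v, Θ (c • v) = c ^ q • Θ v) (U : Submodule k W) [FiniteDimensional k U]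
    (hU : ∀ v ∈ U, Θ v ∈ U) :
    Nat.card {v : W // v ∈ U ∧ Θ v = v} = Nat.card {c : k // c ^ q = c} ^ finrank k U := by
  obtain ⟨B, B1, B2, B3⟩ := exists_linearIndependent k {v : W | v ∈ U ∧ Θ v = v}
  rw [ffs_span hq Θ hinj hΘ U hU] at B2
  have hfin : Finite B := by
    have h : LinearIndependent k fun i : B => (⟨i, (B1 i.2).1⟩ : U) :=
      LinearIndependent.of_comp U.subtype B3
    exact h.finite
  have := Fintype.ofFinite B
  have hr : finrank k U = Fintype.card B := by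
    rw [← finrank_span_eq_card B3, Subtype.range_coe, B2]
  have hb : ∀ i : B, Θ i = i := fun i => (B1 i.2).2
  let f : (B → {c : k // c ^ q = c}) → {v : W // v ∈ U ∧ Θ v = v} := fun c =>
    ⟨∑ i, (c i : k) • (i : W), U.sum_mem fun i _ => U.smul_mem _ (B1 i.2).1, by
      rw [map_sum]; exact Finset.sum_congr rfl fun i _ => by rw [hΘ, hb, (c i).2]⟩
  have hf : Function.Bijective f := by
    constructor
    · intro s t hst
      have h1 : ∑ i, (s i : k) • (i : W) = ∑ i, (t i : k) • (i : W) := congrArg Subtype.val hst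
      funext i
      exact Subtype.ext (Fintype.linearIndependent_iffₛ.1 B3 _ _ h1 i)
    · rintro ⟨v, v1, v2⟩
      rw [← B2, ← Subtype.range_coe (s := B), Submodule.mem_span_range_iff_exists_fun] at v1
      obtain ⟨c, rfl⟩ := v1
      have h1 := ffs_map_sum Θ hΘ hb Finset.univ c
      rw [v2, sub_self] at h1
      have h2 := Fintype.linearIndependent_iff.1 B3 _ h1.symm
      exact ⟨fun i => ⟨c i, sub_eq_zero.1 (h2 i)⟩, rfl⟩
  rw [← Nat.card_eq_of_bijective f hf, hr, Nat.card_fun, Nat.card_eq_fintype_card (α := B)]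

end semi

variable [IsAlgClosed 𝕜] {W : Type} [AddCommGroup W] [Module 𝕜 W] [FiniteDimensional 𝕜 W]

theorem ffs_two_le (hr : 0 < r) : 2 ≤ p ^ r :=
  Nat.one_lt_pow hr.ne' (Fact.out : p.Prime).one_lt

theorem ffs_card_base (hr : 0 < r) : Nat.card {c : 𝕜 // c ^ p ^ r = c} = p ^ r := by
  obtain ⟨s, hs, hs'⟩ := exists_finset_fixed (𝕜 := 𝕜) (p := p) hr
  exact (Nat.subtype_card s hs').trans hs

theorem card_fixed (hr : 0 < r) (Θ : W →+ W) (hi : Function.Injective Θ)
    (h : ∀ (c : 𝕜) v, Θ (c • v) = c ^ p ^ r • Θ v) :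
    Nat.card {v // Θ v = v} = (p ^ r) ^ finrank 𝕜 W := by
  have h1 := ffs_card (ffs_two_le hr) Θ hi h ⊤ fun _ _ => Submodule.mem_top
  rw [ffs_card_base hr, finrank_top] at h1
  rw [← h1]
  exact Nat.card_congr (Equiv.subtypeEquivRight fun v => by simp)
theorem card_fixed_affine (hr : 0 < r) (Θ : W →+ W) (hi : Function.Injective Θ)
    (h : ∀ (c : 𝕜) v, Θ (c • v) = c ^ p ^ r • Θ v) (l : W →ₗ[𝕜] 𝕜) (hl : ∃ v, l v = 1)
    (hΘ : ∀ v, l (Θ v) = l v ^ p ^ r) :
    Nat.card {v // Θ v = v ∧ l v = 1} = (p ^ r) ^ finrank 𝕜 (LinearMap.ker l) := by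
  have hq := ffs_two_le (p := p) hr
  have h1 := ffs_card hq Θ hi h (LinearMap.ker l) fun v hv => by
    rw [LinearMap.mem_ker] at hv ⊢
    rw [hΘ, hv, zero_pow (by omega)]
  rw [ffs_card_base hr] at h1
  have h2 : ∃ v, Θ v = v ∧ l v ≠ 0 := by
    by_contra hc
    have h3 := ffs_span hq Θ hi h ⊤ fun _ _ => Submodule.mem_top
    have h4 : (⊤ : Submodule 𝕜 W) ≤ LinearMap.ker l := by
      rw [← h3]
      refine Submodule.span_le.2 fun v hv => ?_
      by_contra h5
      exact hc ⟨v, hv.2, h5⟩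
    obtain ⟨v, hv⟩ := hl
    have h5 : l v = 0 := h4 Submodule.mem_top
    exact one_ne_zero (hv.symm.trans h5)
  obtain ⟨v, hv, hv0⟩ := h2
  have hc : l v ^ p ^ r = l v := by rw [← hΘ, hv]
  have e1 : Θ ((l v)⁻¹ • v) = (l v)⁻¹ • v := by rw [h, inv_pow, hc, hv]
  have e2 : l ((l v)⁻¹ • v) = 1 := by rw [map_smul, smul_eq_mul, inv_mul_cancel₀ hv0]
  generalize (l v)⁻¹ • v = v0 at e1 e2
  rw [← h1]
  refine Nat.card_congr ((Equiv.subRight v0).subtypeEquiv fun u => ?_)
  rw [Equiv.subRight_apply, LinearMap.mem_ker, map_sub, map_sub, e1, e2, sub_eq_zero,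
    sub_left_inj, and_comm]

end Pool.Agent.ZeroCyc
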