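import Pool.Agent.Lib.MP_796ce4_ag.ZY.StC

/-! The Bombieri-Stepanov bound and the resulting estimate for all twists. -/

namespace Pool.Agent.ZeroCyc

open Polynomial Module
open scoped Classical IntermediateField PowerSeries

set_option linter.unusedSectionVars false

open scoped LaurentSeries

theorem std_reg_pow {κ : Type} [Field κ] {x : κ⸨X⸩} (h : Reg 0 x) (k : ℕ) :
    Reg 0 (x ^ k) ∧ (x ^ k).coeff 0 = x.coeff 0 ^ k := by
  induction k with
  | zero =>
    refine ⟨fun i hi => ?_, by simp⟩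
    have : i ≠ 0 := by omega
    simp [HahnSeries.coeff_one, this]
  | succ k ih =>
    refine ⟨?_, ?_⟩
    · rw [pow_succ]; simpa using ih.1.mul h
    · rw [pow_succ, ih.1.coeff_mul h, ih.2, pow_succ]

theorem std_sum_ne_zero {κ ι : Type} [Field κ] [Fintype ι] (x : ι → κ⸨X⸩) (h0 : ∃ i, x i ≠ 0)
    (h : ∀ i i', x i ≠ 0 → x i' ≠ 0 → (x i).order = (x i').order → i = i') : ∑ i, x i ≠ 0 := by
  obtain ⟨i₀, hi₀, hmin⟩ := Finset.exists_min_image (Finset.univ.filter fun i => x i ≠ 0)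
    (fun i => (x i).order) (by obtain ⟨i, hi⟩ := h0; exact ⟨i, by simpa using hi⟩)
  have hx : x i₀ ≠ 0 := (Finset.mem_filter.1 hi₀).2
  intro hs
  have hc := congrArg (fun y : κ⸨X⸩ => y.coeff (x i₀).order) hs
  simp only [HahnSeries.coeff_sum, HahnSeries.coeff_zero] at hc
  rw [Finset.sum_eq_single i₀] at hc
  · exact HahnSeries.coeff_order_eq_zero.not.2 hx hc
  · intro i _ hne
    by_cases hi : x i = 0
    · simp [hi]
    · refine HahnSeries.coeff_eq_zero_of_lt_order (lt_of_le_of_ne (hmin i (by simpa using hi)) ?_)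
      exact fun e => hne (h i i₀ hi hx e.symm)
  · simp

theorem std_rr_sum {κ E ι : Type} [Field κ] [IsAlgClosed κ] [Field E] [Algebra (RatFunc κ) E]
    [Algebra κ E] [IsScalarTower κ (RatFunc κ) E] [FiniteDimensional (RatFunc κ) E]
    [IsGalois (RatFunc κ) E] [Fintype ι] {a : κ} {j : E →ₐ[κ] κ⸨X⸩} {n : ℕ} (f : ι → E)
    (h : ∀ i, RR a j n (f i)) : RR a j n (∑ i, f i) :=
  (Rsp a j n).sum_mem fun i _ => h i

theorem std_num {q g d₁ d₂ : ℕ} (hq : g ^ 2 + 3 * g + 1 < q) (h1 : q ≤ d₁ + g)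
    (h2 : q + 2 * g + 1 ≤ d₂ + g) : q * (q - 1) + (q + 2 * g) + 1 < d₁ * d₂ := by
  obtain ⟨r, rfl⟩ : ∃ r, q = g + r + 1 := ⟨q - g - 1, by omega⟩
  have e1 : r + 1 ≤ d₁ := by omega
  have e2 : 2 * g + r + 2 ≤ d₂ := by omega
  have := Nat.mul_le_mul e1 e2
  rw [Nat.add_sub_cancel]
  nlinarith

variable {p : ℕ} [Fact p.Prime] (κ E : Type) [Field κ] [CharP κ p] [IsAlgClosed κ] [Field E]
  [Algebra (RatFunc κ) E] [Algebra κ E] [IsScalarTower κ (RatFunc κ) E]
  [FiniteDimensional (RatFunc κ) E] [IsGalois (RatFunc κ) E]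

theorem stepanov : ∃ C n₀ : ℕ, ∀ n, n₀ ≤ n → ∀ Φ : E ≃+* E, SemiL κ Φ (p ^ (2 * n)) →
    (FixS κ Φ (p ^ (2 * n))).ncard ≤ p ^ (2 * n) + C * p ^ n := by
  obtain ⟨g, hg⟩ := le_Rsp κ E
  refine ⟨2 * g + 1 + finrank (RatFunc κ) E, g ^ 2 + 3 * g + 1, fun n hn Φ hΦ => ?_⟩
  have hp : 1 < p := (Fact.out : p.Prime).one_lt
  have hq : g ^ 2 + 3 * g + 1 < p ^ n := lt_of_le_of_lt hn (Nat.lt_pow_self hp)
  have hQ : p ^ (2 * n) = p ^ n * p ^ n := by rw [two_mul, pow_add]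
  rcases (FixS κ Φ (p ^ (2 * n))).eq_empty_or_nonempty with he | ⟨j, ⟨a, hj⟩, hf⟩
  · rw [he]; simp
  have hfin := fixS_finite (κ := κ) (show 0 < 2 * n by omega) hΦ
  obtain ⟨u, hu, huo⟩ := exists_orders hj (p ^ n - 1)
  have hw : ∀ i, RR a j (p ^ n - 1) (Φ.symm (u i)) := fun i => (hu i).1.semiL hΦ hj hf
  -- the linear map with a non-trivial kernel
  let L0 : (Fin (finrank κ (Rsp a j (p ^ n - 1))) → Rsp a j (p ^ n + 2 * g)) →ₗ[κ] E :=
    { toFun := fun z => ∑ i, Φ.symm (u i) ^ p ^ n * (z i : E)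
      map_add' := fun z z' => by simp [mul_add, Finset.sum_add_distrib]
      map_smul' := fun c z => by simp [Finset.smul_sum] }
  have hL0 : ∀ z, L0 z ∈ Rsp a j (p ^ n * (p ^ n - 1) + (p ^ n + 2 * g)) := fun z =>
    std_rr_sum _ fun i => ((hw i).pow (p ^ n)).mul (z i).2
  have := (Rsp_le hj (p ^ n * (p ^ n - 1) + (p ^ n + 2 * g))).1
  have := (Rsp_le hj (p ^ n + 2 * g)).1
  have hker : ∃ z, z ≠ 0 ∧ L0 z = 0 := by
    by_contra hcon
    have hinj : Function.Injective (L0.codRestrict _ hL0) := by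
      rw [injective_iff_map_eq_zero]
      intro z hz
      by_contra hz0
      exact hcon ⟨z, hz0, congrArg Subtype.val hz⟩
    have h1 := LinearMap.finrank_le_finrank_of_injective hinj
    rw [Module.finrank_pi_fintype] at h1
    simp only [Finset.sum_const, Finset.card_univ, Fintype.card_fin, smul_eq_mul] at h1
    have h2 := (Rsp_le hj (p ^ n * (p ^ n - 1) + (p ^ n + 2 * g))).2
    have h3 := std_num hq (d₁ := finrank κ (Rsp a j (p ^ n - 1)))
      (d₂ := finrank κ (Rsp a j (p ^ n + 2 * g)))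
      (by have := hg a j hj (p ^ n - 1); omega) (hg a j hj _)
    omega
  obtain ⟨z, hz0, hz⟩ := hker
  have hz' : ∑ i, Φ.symm (u i) ^ p ^ n * (z i : E) = 0 := hz
  -- the auxiliary function
  have hf0 : ∑ i, u i * (z i : E) ^ p ^ n ≠ 0 := by
    intro h0
    have h1 := congrArg j h0
    rw [map_sum, map_zero] at h1
    have hju : ∀ i, j (u i) ≠ 0 := fun i => (map_ne_zero j).2 (hu i).2.1
    refine std_sum_ne_zero _ ?_ (fun i i' hi hi' e => huo ?_) h1
    · obtain ⟨i, hi⟩ := Function.ne_iff.1 hz0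
      refine ⟨i, (map_ne_zero j).2 (mul_ne_zero (hu i).2.1 (pow_ne_zero _ fun h => hi ?_))⟩
      exact Subtype.ext h
    · rw [map_mul, map_pow] at hi hi' e e
      rw [HahnSeries.order_mul (hju i) (right_ne_zero_of_mul hi),
        HahnSeries.order_mul (hju i') (right_ne_zero_of_mul hi'), HahnSeries.order_pow,
        HahnSeries.order_pow, nsmul_eq_mul, nsmul_eq_mul] at e
      obtain ⟨-, -, b1, b2⟩ := hu i
      obtain ⟨-, -, b3, b4⟩ := hu i'
      have hc : ((p ^ n - 1 : ℕ) : ℤ) = ((p ^ n : ℕ) : ℤ) - 1 := by omega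
      rw [hc] at b1 b3
      have hd : ((p ^ n : ℕ) : ℤ) ∣ (j (u i)).order - (j (u i')).order :=
        ⟨(j (z i')).order - (j (z i)).order, by linear_combination e⟩
      have := Int.eq_zero_of_abs_lt_dvd hd (by rw [abs_lt]; constructor <;> omega)
      show (j (u i)).order = (j (u i')).order
      omega
  have hfR : RR a j (p ^ n - 1 + p ^ n * (p ^ n + 2 * g)) (∑ i, u i * (z i : E) ^ p ^ n) :=
    std_rr_sum _ fun i => (hu i).1.mul (RR.pow (z i).2 (p ^ n))
  have hs := hfR.card_zeros hj hf0 (hfin.toFinset.filter fun j' => j' ∉ Emb E a) (by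
    intro j' hj'
    obtain ⟨h1, h2⟩ := Finset.mem_filter.1 hj'
    obtain ⟨⟨t₀, ht₀⟩, hf'⟩ := hfin.mem_toFinset.1 h1
    have hne : t₀ ≠ a := fun e => h2 (e ▸ ht₀)
    refine ⟨⟨t₀, hne, ht₀⟩, ?_⟩
    have rz : ∀ i, Reg 0 (j' (z i)) := fun i => RR.reg (z i).2 hne ht₀
    have ru : ∀ i, Reg 0 (j' (u i)) := fun i => (hu i).1.reg hne ht₀
    have rw' : ∀ i, Reg 0 (j' (Φ.symm (u i))) := fun i => (hw i).reg hne ht₀
    have e1 := congrArg (fun e => (j' e).coeff 0 ^ p ^ n) hz'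
    simp only [map_sum, map_mul, map_pow, map_zero, HahnSeries.coeff_sum,
      HahnSeries.coeff_zero] at e1
    rw [sum_pow_char_pow, zero_pow (pow_ne_zero _ (by omega))] at e1
    rw [← e1]
    simp only [map_sum, map_mul, map_pow, HahnSeries.coeff_sum]
    refine Finset.sum_congr rfl fun i _ => ?_
    have e2 := hf' (Φ.symm (u i)) 0
    rw [RingEquiv.apply_symm_apply] at e2
    rw [(ru i).coeff_mul (std_reg_pow (rz i) _).1, (std_reg_pow (rz i) _).2,
      (std_reg_pow (rw' i) _).1.coeff_mul (rz i), (std_reg_pow (rw' i) _).2, mul_pow, e2,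
      ← pow_mul, hQ])
  have hsub : hfin.toFinset ⊆ (hfin.toFinset.filter fun j' => j' ∉ Emb E a) ∪
      (emb_finite (E := E) a).toFinset := by
    intro j' hj'
    by_cases h : j' ∈ Emb E a
    · exact Finset.mem_union_right _ ((Set.Finite.mem_toFinset _).2 h)
    · exact Finset.mem_union_left _ (Finset.mem_filter.2 ⟨hj', h⟩)
  have hc := (Finset.card_le_card hsub).trans (Finset.card_union_le _ _)
  rw [← Set.ncard_eq_toFinset_card _ (emb_finite (E := E) a), Emb.ncard hj,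
    ← Set.ncard_eq_toFinset_card _ hfin] at hc
  have h1 : finrank (RatFunc κ) E ≤ finrank (RatFunc κ) E * p ^ n :=
    Nat.le_mul_of_pos_right _ (by omega)
  have h2 : p ^ n * (p ^ n + 2 * g) = p ^ n * p ^ n + 2 * g * p ^ n := by ring
  have h3 : (2 * g + 1 + finrank (RatFunc κ) E) * p ^ n =
      2 * g * p ^ n + p ^ n + finrank (RatFunc κ) E * p ^ n := by ring
  omega

theorem chebotarev : ∃ C n₀ : ℕ, ∀ n, n₀ ≤ n → ∀ Φ : E ≃+* E, SemiL κ Φ (p ^ (2 * n)) →
    |((FixS κ Φ (p ^ (2 * n))).ncard : ℝ) - (p : ℝ) ^ (2 * n)| ≤ C * (p : ℝ) ^ n := by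
  obtain ⟨C, n₀, hC⟩ := stepanov (p := p) κ E
  have hEx := finite_emb_empty κ E
  set N := finrank (RatFunc κ) E with hN
  refine ⟨C + N * hEx.toFinset.card + N * C, n₀ + 1, fun n hn Φ hΦ => ?_⟩
  have hp : 1 < p := (Fact.out : p.Prime).one_lt
  have h2n : 0 < 2 * n := by omega
  obtain ⟨T, hT, hTm⟩ := exists_finset_fixed (𝕜 := κ) (p := p) h2n
  have hfin : ∀ σ : E ≃ₐ[RatFunc κ] E, (FixS κ (twi Φ σ) (p ^ (2 * n))).Finite :=
    fun σ => fixS_finite h2n (hΦ.tw σ)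
  have hsub : ((T \ hEx.toFinset).biUnion fun t₀ => (emb_finite (E := E) t₀).toFinset) ⊆
      Finset.univ.biUnion fun σ : E ≃ₐ[RatFunc κ] E => (hfin σ).toFinset := by
    intro j hj
    obtain ⟨t₀, ht₀, hj⟩ := Finset.mem_biUnion.1 hj
    rw [Set.Finite.mem_toFinset] at hj
    have ht : t₀ ^ p ^ (2 * n) = t₀ := by
      rw [← fr_apply]; exact (hTm t₀).1 (Finset.mem_sdiff.1 ht₀).1
    obtain ⟨σ, hσ, -⟩ := existsUnique_fixE hΦ ht hj
    exact Finset.mem_biUnion.2 ⟨σ, Finset.mem_univ _,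
      (Set.Finite.mem_toFinset _).2 ⟨⟨t₀, hj⟩, hσ⟩⟩
  have h1 : ((T \ hEx.toFinset).biUnion fun t₀ => (emb_finite (E := E) t₀).toFinset).card =
      (T \ hEx.toFinset).card * N := by
    rw [Finset.card_biUnion, ← smul_eq_mul, ← Finset.sum_const]
    · refine Finset.sum_congr rfl fun t₀ ht₀ => ?_
      have := (Finset.mem_sdiff.1 ht₀).2
      rw [Set.Finite.mem_toFinset, Set.mem_ofPred_eq, not_not] at this
      obtain ⟨j, hj⟩ := this
      rw [← Set.ncard_eq_toFinset_card _ (emb_finite (E := E) t₀), Emb.ncard hj]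
    · intro t _ t' _ hne
      rw [Function.onFun, Finset.disjoint_left]
      intro j hj hj'
      rw [Set.Finite.mem_toFinset] at hj hj'
      exact hne (lin_injective (hj.symm.trans hj'))
  have h2 := (Finset.card_le_card hsub).trans Finset.card_biUnion_le
  rw [h1, ← Finset.add_sum_erase _ _ (Finset.mem_univ (1 : E ≃ₐ[RatFunc κ] E))] at h2
  have h3 : ∑ σ ∈ Finset.univ.erase (1 : E ≃ₐ[RatFunc κ] E), (hfin σ).toFinset.card ≤
      (N - 1) * (p ^ (2 * n) + C * p ^ n) := by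
    refine (Finset.sum_le_card_nsmul _ _ (p ^ (2 * n) + C * p ^ n) fun σ _ => ?_).trans ?_
    · rw [← Set.ncard_eq_toFinset_card _ (hfin σ)]
      exact hC n (by omega) _ (hΦ.tw σ)
    · rw [Finset.card_erase_of_mem (Finset.mem_univ _), Finset.card_univ, ← Nat.card_eq_fintype_card,
        IsGalois.card_aut_eq_finrank, smul_eq_mul]
  have h4 : twi Φ (1 : E ≃ₐ[RatFunc κ] E) = Φ := RingEquiv.ext fun _ => rfl
  rw [← Set.ncard_eq_toFinset_card _ (hfin 1), h4] at h2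
  have h5 : p ^ (2 * n) ≤ (T \ hEx.toFinset).card + hEx.toFinset.card := by
    rw [← hT]; exact Finset.card_le_card_sdiff_add_card
  have h6 := hC n (by omega) Φ hΦ
  have hN1 : 1 ≤ N := Module.finrank_pos
  obtain ⟨M, hM⟩ : ∃ M, N = M + 1 := ⟨N - 1, by omega⟩
  have hq : 1 ≤ p ^ n := Nat.one_le_pow _ _ (by omega)
  rw [hM, Nat.add_sub_cancel] at h3
  rw [hM] at h2 ⊢
  have h7 : p ^ (2 * n) ≤ (FixS κ Φ (p ^ (2 * n))).ncard +
      (C + (M + 1) * hEx.toFinset.card + (M + 1) * C) * p ^ n := by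
    have a1 := Nat.mul_le_mul_right (M + 1) h5
    have a2 := Nat.mul_le_mul_left ((M + 1) * hEx.toFinset.card) hq
    nlinarith [Nat.zero_le (C * p ^ n)]
  have h8 : (FixS κ Φ (p ^ (2 * n))).ncard ≤ p ^ (2 * n) +
      (C + (M + 1) * hEx.toFinset.card + (M + 1) * C) * p ^ n :=
    h6.trans (Nat.add_le_add_left (Nat.mul_le_mul_right _ (by omega)) _)
  have h7' := (Nat.cast_le (α := ℝ)).2 h7
  have h8' := (Nat.cast_le (α := ℝ)).2 h8
  rw [Nat.cast_add, Nat.cast_mul, Nat.cast_pow, Nat.cast_pow] at h7' h8'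
  rw [abs_le]
  constructor <;> linarith

end Pool.Agent.ZeroCyc
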