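import Pool.Agent.Lib.MP_796ce4_ag.ZY.FfK
import Pool.Agent.Lib.MP_796ce4_ag.ZY.StD

/-! The estimate for the character sums. -/

namespace Pool.Agent.ZeroCyc

open Polynomial Module
open scoped Classical IntermediateField PowerSeries

set_option linter.unusedSectionVars false

open scoped LaurentSeries

variable {p : ℕ} [Fact p.Prime] {κ : Type} [Field κ] [CharP κ p] [IsAlgClosed κ] {c : Cv κ} {r : ℕ}

theorem fft_norm_finsum_le {T : Type} {s : Set T} (hs : s.Finite) {g : T → ℂ}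
    (h : ∀ x ∈ s, ‖g x‖ ≤ 1) : ‖∑ᶠ x ∈ s, g x‖ ≤ s.ncard := by
  rw [finsum_mem_eq_finite_toFinset_sum _ hs, Set.ncard_eq_toFinset_card _ hs]
  refine (norm_sum_le _ _).trans ?_
  refine (Finset.sum_le_card_nsmul _ _ 1 fun x hx => h x (hs.mem_toFinset.1 hx)).trans ?_
  simp

theorem fft_finsum_const {T : Type} {s : Set T} (hs : s.Finite) {g : T → ℂ} {a : ℂ}
    (h : ∀ x ∈ s, g x = a) : ∑ᶠ x ∈ s, g x = s.ncard * a := by
  rw [finsum_mem_eq_finite_toFinset_sum _ hs, Set.ncard_eq_toFinset_card _ hs,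
    Finset.sum_congr rfl fun x hx => h x (hs.mem_toFinset.1 hx), Finset.sum_const, nsmul_eq_mul]

theorem fft_avg {T : Type} {H : Finset T} (hH : H.Nonempty) {N : T → ℝ} {χ : T → ℂ} {u a S : ℂ}
    {Q K : ℝ} (hu : ‖u‖ = 1) (hχ : ∀ σ ∈ H, ‖χ σ‖ = 1) (hN : ∀ σ ∈ H, |N σ - Q| ≤ K)
    (ha : ∑ σ ∈ H, χ σ = H.card * a) (hS : ∑ σ ∈ H, (N σ : ℂ) * (u * χ σ) = H.card * S) :
    ‖S - a * (u * Q)‖ ≤ K := by
  have h1 : (H.card : ℂ) * (S - a * (u * Q)) = ∑ σ ∈ H, ((N σ - Q : ℝ) : ℂ) * (u * χ σ) := by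
    have : ∑ σ ∈ H, ((N σ - Q : ℝ) : ℂ) * (u * χ σ) =
        ∑ σ ∈ H, (N σ : ℂ) * (u * χ σ) - (u * Q) * ∑ σ ∈ H, χ σ := by
      rw [Finset.mul_sum, ← Finset.sum_sub_distrib]
      refine Finset.sum_congr rfl fun σ _ => ?_
      push_cast; ring
    rw [this, hS, ha]; ring
  have h2 : (H.card : ℝ) * ‖S - a * (u * Q)‖ ≤ H.card * K := by
    have h3 := congrArg norm h1
    rw [norm_mul, Complex.norm_natCast] at h3
    rw [h3, ← nsmul_eq_mul]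
    refine (norm_sum_le _ _).trans (Finset.sum_le_card_nsmul _ _ _ fun σ hσ => ?_)
    rw [norm_mul, norm_mul, hu, hχ σ hσ, Complex.norm_real, Real.norm_eq_abs, mul_one, mul_one]
    exact hN σ hσ
  exact le_of_mul_le_mul_left h2 (by exact_mod_cast hH.card_pos)

theorem fft_nrm_mem (hF : c.Inv (fr κ p r)) {n : ℕ} {P : κ × κ} (hP : c.Gp P)
    (h : (pm (fr κ p r))^[n] P = P) : nrm (pm (fr κ p r)) n P ∈ c.DvF (fr κ p r) := by
  have := nrm_mem (F := pm (fr κ p r)) (S := {Q | c.Gp Q})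
    (fun y hy => hF.gp (fr κ p r).injective hy) hP h
  exact Cv.mem_DvF.2 ⟨this.2.1, this.2.2.1⟩

theorem fft_theta {θ : (κ × κ →₀ ℤ) → ℂ}
    (hθ : ∀ D ∈ c.DvF (fr κ p r), ∀ D' ∈ c.DvF (fr κ p r), θ (D + D') = θ D * θ D')
    (hP : ∀ D ∈ c.DvF (fr κ p r), D ∈ c.PP → θ D = 1) {D D₁ D₂ : κ × κ →₀ ℤ}
    (h : D ∈ c.DvF (fr κ p r)) (h₁ : D₁ ∈ c.DvF (fr κ p r)) (h₂ : D₂ ∈ c.DvF (fr κ p r))
    (e : D - D₁ - D₂ ∈ c.PP) : θ D = θ D₁ * θ D₂ := by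
  have h3 := sub_mem (sub_mem h h₁) h₂
  have h4 := hθ _ h3 _ (add_mem h₁ h₂)
  rw [hP _ h3 e, one_mul, hθ _ h₁ _ h₂, show D - D₁ - D₂ + (D₁ + D₂) = D by abel] at h4
  exact h4

theorem fft_theta_nsmul {θ : (κ × κ →₀ ℤ) → ℂ}
    (hθ : ∀ D ∈ c.DvF (fr κ p r), ∀ D' ∈ c.DvF (fr κ p r), θ (D + D') = θ D * θ D')
    (hP : ∀ D ∈ c.DvF (fr κ p r), D ∈ c.PP → θ D = 1) {D : κ × κ →₀ ℤ}
    (h : D ∈ c.DvF (fr κ p r)) (n : ℕ) : θ (n • D) = θ D ^ n := by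
  induction n with
  | zero => rw [zero_nsmul, pow_zero]; exact hP _ (zero_mem _) (zero_mem _)
  | succ n ih => rw [succ_nsmul, hθ _ (nsmul_mem h n) _ h, ih, pow_succ]

theorem fft_coeff_zero (x : κ⟦X⟧) :
    (HahnSeries.ofPowerSeries ℤ κ x).coeff 0 = PowerSeries.constantCoeff x := by
  have := HahnSeries.ofPowerSeries_apply_coeff (Γ := ℤ) x 0
  rw [Nat.cast_zero] at this
  rw [this, PowerSeries.coeff_zero_eq_constantCoeff_apply]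

theorem fft_finite_over (c : Cv κ) (Ex : Finset κ) : {P : κ × κ | On c.χ P ∧ P.1 ∈ Ex}.Finite := by
  have h1 : ∀ t : κ, {y : κ | IsRoot (c.χ.map (evalRingHom t)) y}.Finite := fun t =>
    finite_setOfPred_isRoot (c.wt.monic.map _).ne_zero
  refine (Ex.finite_toSet.biUnion fun t _ => (h1 t).image fun y => (t, y)).subset ?_
  rintro ⟨t, y⟩ ⟨h, ht⟩
  refine Set.mem_biUnion ht ⟨y, ?_, rfl⟩
  unfold On at h
  rw [ee_eq_eval] at h
  exact h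

section

variable {E : Type} [Field E] [Algebra (RatFunc κ) E] [Algebra κ E]
  [IsScalarTower κ (RatFunc κ) E] [FiniteDimensional (RatFunc κ) E] [IsGalois (RatFunc κ) E]
  {η : E}

theorem fft_comp {t₀ : κ} {j : E →ₐ[κ] κ⸨X⸩} (hj : j ∈ Emb E t₀) :
    (j : E →+* κ⸨X⸩).comp (eval₂RingHom (algebraMap κ E) (tE κ E)) =
      (HahnSeries.ofPowerSeries ℤ κ).comp (sh t₀) :=
  RingHom.ext fun u => Emb.aeval hj u

theorem fft_j_e2 {t₀ : κ} {j : E →ₐ[κ] κ⸨X⸩} (hj : j ∈ Emb E t₀) {y : E} {x : κ⟦X⟧}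
    (h : HahnSeries.ofPowerSeries ℤ κ x = j y) (a : κ[X][X]) :
    j (e2 (algebraMap κ E) (tE κ E) y a) = HahnSeries.ofPowerSeries ℤ κ (a.eval₂ (sh t₀) x) := by
  have h1 := hom_eval₂ a (eval₂RingHom (algebraMap κ E) (tE κ E)) (j : E →+* κ⸨X⸩) y
  rw [fft_comp hj] at h1
  rw [hom_eval₂, h]
  exact h1

theorem fft_integral (hη : e2 (algebraMap κ E) (tE κ E) η c.χ = 0) :
    IsIntegral (Algebra.adjoin κ {tE κ E}) η := by
  let t : Algebra.adjoin κ {tE κ E} := ⟨tE κ E, Algebra.subset_adjoin rfl⟩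
  refine ⟨c.χ.map (eval₂RingHom (algebraMap κ _) t), c.wt.monic.map _, ?_⟩
  rw [eval₂_map]
  have : (algebraMap (Algebra.adjoin κ {tE κ E}) E).comp (eval₂RingHom (algebraMap κ _) t) =
      eval₂RingHom (algebraMap κ E) (tE κ E) := by
    refine Polynomial.ringHom_ext (fun a => ?_) ?_
    · simp
    · simp [t]
  rw [this]
  exact hη

/-- the expansion of `η` at a point over a good `t₀` is the branch through the point below -/
theorem emb_eta (hη : e2 (algebraMap κ E) (tE κ E) η c.χ = 0) {t₀ : κ} (ht : c.ρ.eval t₀ ≠ 0)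
    {j : E →ₐ[κ] κ⸨X⸩} (hj : j ∈ Emb E t₀) : c.Gp (ptE η t₀ j) ∧
      j η = HahnSeries.ofPowerSeries ℤ κ (hs c.χ (ptE η t₀ j)) := by
  have hreg : Reg 0 (j η) := by
    refine reg_of_isIntegral j (s := {tE κ E}) ?_ (fft_integral hη)
    rintro x rfl
    rw [reg_zero_iff, show j (tE κ E) = lin t₀ from hj, lin_eq]
    exact ⟨_, rfl⟩
  obtain ⟨x, hx⟩ := reg_zero_iff.1 hreg
  have h0 : c.χ.eval₂ (sh t₀) x = 0 := by
    apply HahnSeries.ofPowerSeries_injective (Γ := ℤ)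
    rw [← fft_j_e2 hj hx, hη, map_zero, map_zero]
  have h1 : PowerSeries.constantCoeff x = (ptE η t₀ j).2 := by
    rw [← fft_coeff_zero, hx]; rfl
  have h2 : c.Gp (ptE η t₀ j) := by
    refine ⟨?_, ht⟩
    have h3 := hom_eval₂ c.χ (sh t₀) PowerSeries.constantCoeff x
    rw [h0, map_zero, h1] at h3
    have h4 : PowerSeries.constantCoeff.comp (sh t₀) = eval₂RingHom (RingHom.id κ) t₀ :=
      RingHom.ext fun u => constantCoeff_sh t₀ u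
    rw [h4] at h3
    exact h3.symm
  refine ⟨h2, ?_⟩
  rw [hs_unique c.wt.monic h2.et h0 h1, hx]

theorem fft_comp_alg : (algebraMap (RatFunc κ) E).comp (algebraMap κ[X] (RatFunc κ)) =
    eval₂RingHom (algebraMap κ E) (tE κ E) := by
  refine Polynomial.ringHom_ext (fun a => ?_) ?_
  · simp only [RingHom.comp_apply, coe_eval₂RingHom, eval₂_C]
    rw [IsScalarTower.algebraMap_apply κ (RatFunc κ) E,
      IsScalarTower.algebraMap_apply κ κ[X] (RatFunc κ)]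
    rfl
  · simp only [RingHom.comp_apply, coe_eval₂RingHom, eval₂_X]
    rfl

theorem exists_emb_pt (hi : Irreducible c.χ) (hη : e2 (algebraMap κ E) (tE κ E) η c.χ = 0)
    {P : κ × κ} (hP : c.Gp P) (h : (Emb E P.1).Nonempty) : ∃ j ∈ Emb E P.1, ptE η P.1 j = P := by
  obtain ⟨j₀, hj₀⟩ := h
  have hm := c.wt.monic
  have hev : ∀ y : E, aeval y (c.χ.map (algebraMap κ[X] (RatFunc κ))) =
      e2 (algebraMap κ E) (tE κ E) y c.χ := fun y => by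
    rw [aeval_def, eval₂_map, fft_comp_alg]; rfl
  have hmin : c.χ.map (algebraMap κ[X] (RatFunc κ)) = minpoly (RatFunc κ) η :=
    minpoly.eq_of_irreducible_of_monic (hm.irreducible_iff_irreducible_map_fraction_map.1 hi)
      (by rw [hev, hη]) (hm.map _)
  have hsp := Normal.splits (inferInstance : Normal (RatFunc κ) E) η
  rw [← hmin, Polynomial.map_map, fft_comp_alg] at hsp
  obtain ⟨h0, h1⟩ := hs_spec hm hP.et
  have hroot : ((c.χ.map (eval₂RingHom (algebraMap κ E) (tE κ E))).map (j₀ : E →+* κ⸨X⸩)).IsRoot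
      (HahnSeries.ofPowerSeries ℤ κ (hs c.χ P)) := by
    rw [Polynomial.map_map, fft_comp hj₀, IsRoot, eval_map, ← hom_eval₂, h0, map_zero]
  obtain ⟨y, hy⟩ := hsp.mem_range_of_isRoot (hm.map _).ne_zero hroot
  have hy' : HahnSeries.ofPowerSeries ℤ κ (hs c.χ P) = j₀ y := hy.symm
  have hy0 : aeval y (minpoly (RatFunc κ) η) = 0 := by
    rw [← hmin, hev]
    apply (j₀ : E →+* κ⸨X⸩).injective
    rw [map_zero]
    change j₀ _ = 0
    rw [fft_j_e2 hj₀ hy', h0, map_zero]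
  obtain ⟨σ, hσ⟩ := minpoly.exists_algEquiv_of_root' (Algebra.IsAlgebraic.isAlgebraic η) hy0
  refine ⟨mvE j₀ σ, Emb.mv hj₀ σ, Prod.ext rfl ?_⟩
  change (j₀ (σ η)).coeff 0 = P.2
  rw [hσ, ← hy', fft_coeff_zero, h1]

theorem fft_pow_fix {Φ : E ≃+* E} (h : Φ η = η) (n : ℕ) : (Φ ^ n) η = η := by
  induction n with
  | zero => rfl
  | succ n ih => rw [pow_succ]; change (Φ ^ n) (Φ η) = η; rw [h, ih]

theorem fft_base {t₀ : κ} {j : E →ₐ[κ] κ⸨X⸩} (hj : j ∈ Emb E t₀) : (j (tE κ E)).coeff 0 = t₀ := by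
  rw [show j (tE κ E) = lin t₀ from hj, coeff_lin]

theorem fft_semi {Φ : E ≃+* E} (h : SemiL κ Φ (p ^ r)) (n : ℕ) :
    SemiL κ (Φ ^ n) (p ^ (r * n)) := by
  rw [pow_mul]; exact h.pow n

/-- the branch through a fixed point has fixed coefficients -/
theorem fft_hs_fix {m : ℕ} (hF : c.Inv (fr κ p m)) {P : κ × κ} (hP : c.Gp P)
    (h : pm (fr κ p m) P = P) (k : ℤ) :
    (HahnSeries.ofPowerSeries ℤ κ (hs c.χ P)).coeff k ^ p ^ m =
      (HahnSeries.ofPowerSeries ℤ κ (hs c.χ P)).coeff k := by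
  have h1 := jq_map c.wt.monic hP.et (fr κ p m) X
  have h2 : mp (fr κ p m) (X : κ[X][X]) = X := by simp
  rw [hF.χ, h, h2, jq_X] at h1
  rw [PowerSeries.coeff_coe]
  split_ifs
  · exact zero_pow (pow_ne_zero _ (Fact.out : p.Prime).ne_zero)
  · rw [← fr_apply, ← PowerSeries.coeff_map, ← h1]

/-- a fixed point of a twist lies over a fixed point of the curve -/
theorem fft_fix_pt {Φ : E ≃+* E} {D₁ : κ × κ →₀ ℤ}
    {Dσ : (E ≃ₐ[RatFunc κ] E) → κ × κ →₀ ℤ} {Ex : Finset κ} (h : LangD p c r η Φ D₁ Dσ Ex)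
    {n : ℕ} {σ : E ≃ₐ[RatFunc κ] E} (hσ : σ η = η) {t₀ : κ} (ht : t₀ ∉ Ex)
    {j : E →ₐ[κ] κ⸨X⸩} (hj : j ∈ Emb E t₀) (hf : FixE (twi (Φ ^ n) σ) (p ^ (r * n)) j) :
    c.Gp (ptE η t₀ j) ∧ (pm (fr κ p r))^[n] (ptE η t₀ j) = ptE η t₀ j := by
  refine ⟨(emb_eta h.on (h.ex t₀ ht).1 hj).1, ?_⟩
  rw [pm_fr_iterate]
  refine Prod.ext ?_ ?_
  · change fr κ p (r * n) t₀ = t₀
    rw [fr_apply]
    exact FixE.base ((fft_semi h.semi n).tw σ) hj hf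
  · change fr κ p (r * n) ((j η).coeff 0) = (j η).coeff 0
    rw [fr_apply, ← hf η 0]
    change (j ((Φ ^ n) (σ η))).coeff 0 = _
    rw [hσ, fft_pow_fix h.fix]

/-- counting the fixed points of the twists over the points of the curve -/
theorem sum_twists (hi : Irreducible c.χ) (hF : c.Inv (fr κ p r)) {Φ : E ≃+* E} {D₁ : κ × κ →₀ ℤ}
    {Dσ : (E ≃ₐ[RatFunc κ] E) → κ × κ →₀ ℤ} {Ex : Finset κ} (h : LangD p c r η Φ D₁ Dσ Ex)
    (hr : 0 < r) {n : ℕ} (hn : 0 < n) (f : κ × κ → ℂ) :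
    ∑ σ : E ≃ₐ[RatFunc κ] E with σ η = η,
      ∑ᶠ j ∈ {j | j ∈ FixS κ (twi (Φ ^ n) σ) (p ^ (r * n)) ∧ (j (tE κ E)).coeff 0 ∉ Ex},
        f (ptE η ((j (tE κ E)).coeff 0) j) =
      (Finset.univ.filter fun σ : E ≃ₐ[RatFunc κ] E => σ η = η).card *
        ∑ᶠ P ∈ {P | c.Gp P ∧ (pm (fr κ p r))^[n] P = P ∧ P.1 ∉ Ex}, f P := by
  have hS := fft_semi h.semi n
  have hA : ∀ σ : E ≃ₐ[RatFunc κ] E, {j | j ∈ FixS κ (twi (Φ ^ n) σ) (p ^ (r * n)) ∧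
      (j (tE κ E)).coeff 0 ∉ Ex}.Finite := fun σ =>
    (fixS_finite (Nat.mul_pos hr hn) (hS.tw σ)).subset fun j hj => hj.1
  have hB : {P | c.Gp P ∧ (pm (fr κ p r))^[n] P = P ∧ P.1 ∉ Ex}.Finite :=
    (c.finite_fixed (p := p) hr n hn).subset fun P hP => ⟨hP.1, hP.2.1⟩
  have hFn : c.Inv (fr κ p (r * n)) := by rw [← fr_pow]; exact hF.pow n
  set H := Finset.univ.filter fun σ : E ≃ₐ[RatFunc κ] E => σ η = η with hH
  have hmem : ∀ σ, σ ∈ H ↔ σ η = η := fun σ => by simp [hH]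
  rw [Finset.sum_congr rfl fun σ _ => finsum_mem_eq_finite_toFinset_sum _ (hA σ),
    finsum_mem_eq_finite_toFinset_sum _ hB, ← Finset.sum_biUnion, Finset.mul_sum,
    ← Finset.sum_fiberwise_of_maps_to (t := hB.toFinset)
      (g := fun j => ptE η ((j (tE κ E)).coeff 0) j)]
  · refine Finset.sum_congr rfl fun P hP => ?_
    rw [Finset.sum_congr rfl (g := fun _ => f P) fun j hj => by
      rw [(Finset.mem_filter.1 hj).2], Finset.sum_const, nsmul_eq_mul]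
    obtain ⟨hG, hfix, hx⟩ := hB.mem_toFinset.1 hP
    obtain ⟨j₀, hj₀, hpt⟩ := exists_emb_pt hi h.on hG (h.ex _ hx).2
    rw [pm_fr_iterate] at hfix
    have he : ∀ j ∈ Emb E P.1, ptE η P.1 j = P →
        j η = HahnSeries.ofPowerSeries ℤ κ (hs c.χ P) := fun j hj e => by
      have := (emb_eta h.on hG.2 hj).2
      rwa [e] at this
    congr 2
    rw [← Finset.card_image_of_injective H (mvE_injective j₀)]
    congr 1
    ext j
    simp only [Finset.mem_filter, Finset.mem_biUnion, Set.Finite.mem_toFinset, Set.mem_ofPred_eq,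
      Finset.mem_image, hmem]
    constructor
    · rintro ⟨⟨σ, -, ⟨⟨t₀, hj⟩, -⟩, -⟩, e⟩
      rw [fft_base hj] at e
      obtain rfl : t₀ = P.1 := congrArg Prod.fst e
      obtain ⟨τ, rfl⟩ := Emb.exists_mvE hj₀ hj
      refine ⟨τ, (j₀ : E →+* κ⸨X⸩).injective ?_, rfl⟩
      exact (he _ hj e).trans (he _ hj₀ hpt).symm
    · rintro ⟨τ, hτ, rfl⟩
      have hj := Emb.mv hj₀ τ
      have e : ptE η P.1 (mvE j₀ τ) = P := by
        refine Eq.trans ?_ hpt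
        change (P.1, (j₀ (τ η)).coeff 0) = (P.1, (j₀ η).coeff 0)
        rw [hτ]
      have ht : P.1 ^ p ^ (r * n) = P.1 := by
        rw [← fr_apply]; exact congrArg Prod.fst hfix
      obtain ⟨σ, hσ, -⟩ := existsUnique_fixE hS ht hj
      rw [fft_base hj]
      refine ⟨⟨σ, ?_, ⟨⟨_, hj⟩, hσ⟩, hx⟩, e⟩
      apply (Φ ^ n).injective
      rw [fft_pow_fix h.fix]
      apply (mvE j₀ τ : E →+* κ⸨X⸩).injective
      ext k
      refine (hσ η k).trans ?_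
      change _ = (mvE j₀ τ η).coeff k
      rw [he _ hj e]
      exact fft_hs_fix hFn hG hfix k
  · intro j hj
    obtain ⟨σ, hσ, hj⟩ := Finset.mem_biUnion.1 hj
    obtain ⟨⟨⟨t₀, hj⟩, hf⟩, hx⟩ := (hA σ).mem_toFinset.1 hj
    rw [fft_base hj] at hx ⊢
    obtain ⟨h1, h2⟩ := fft_fix_pt h ((hmem σ).1 hσ) hx hj hf
    exact hB.mem_toFinset.2 ⟨h1, h2, hx⟩
  · intro σ _ σ' _ hne
    refine Finset.disjoint_left.2 fun j hj hj' => hne ?_
    obtain ⟨⟨⟨t₀, hj⟩, hf⟩, -⟩ := (hA σ).mem_toFinset.1 hj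
    obtain ⟨⟨-, hf'⟩, -⟩ := (hA σ').mem_toFinset.1 hj'
    exact (existsUnique_fixE hS (FixE.base (hS.tw σ) hj hf) hj).unique hf hf'

theorem fft_main (hi : Irreducible c.χ) (hF : c.Inv (fr κ p r)) {Φ : E ≃+* E} {D₁ : κ × κ →₀ ℤ}
    {Dσ : (E ≃ₐ[RatFunc κ] E) → κ × κ →₀ ℤ} {Ex : Finset κ} (h : LangD p c r η Φ D₁ Dσ Ex)
    (hr : 0 < r) {θ : (κ × κ →₀ ℤ) → ℂ}
    (hθ : ∀ D ∈ c.DvF (fr κ p r), ∀ D' ∈ c.DvF (fr κ p r), θ (D + D') = θ D * θ D')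
    (hP : ∀ D ∈ c.DvF (fr κ p r), D ∈ c.PP → θ D = 1) (h1 : ∀ D ∈ c.DvF (fr κ p r), ‖θ D‖ = 1)
    {a : ℂ} (ha : ∑ σ : E ≃ₐ[RatFunc κ] E with σ η = η, θ (Dσ σ) =
      (Finset.univ.filter fun σ : E ≃ₐ[RatFunc κ] E => σ η = η).card * a) :
    ∃ (C : ℝ) (n₀ : ℕ), ∀ n, n₀ ≤ n → ‖sL (pm (fr κ p r)) {Q | c.Gp Q} θ (2 * n) -
      a * (θ D₁ ^ (2 * n) * (((p : ℝ) ^ r : ℝ) : ℂ) ^ (2 * n))‖ ≤ C * ((p : ℝ) ^ r) ^ n := by
  obtain ⟨C₀, n₀, hC⟩ := chebotarev (p := p) κ E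
  have hX : (⋃ t ∈ (Ex : Set κ), Emb E t).Finite := Ex.finite_toSet.biUnion fun t _ => emb_finite t
  have hY := fft_finite_over c Ex
  refine ⟨C₀ + (⋃ t ∈ (Ex : Set κ), Emb E t).ncard + {P : κ × κ | On c.χ P ∧ P.1 ∈ Ex}.ncard,
    n₀ + 1, fun n hn => ?_⟩
  have hN : 0 < 2 * n := by omega
  have hq : (1 : ℝ) ≤ ((p : ℝ) ^ r) ^ n :=
    one_le_pow₀ (one_le_pow₀ (by exact_mod_cast (Fact.out : p.Prime).one_le))
  have hS := fft_semi h.semi (2 * n)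
  have hfin := fun σ : E ≃ₐ[RatFunc κ] E => fixS_finite (Nat.mul_pos hr hN) (hS.tw σ)
  have hA : ∀ σ : E ≃ₐ[RatFunc κ] E, {j | j ∈ FixS κ (twi (Φ ^ (2 * n)) σ) (p ^ (r * (2 * n))) ∧
      (j (tE κ E)).coeff 0 ∉ Ex}.Finite := fun σ => (hfin σ).subset fun j hj => hj.1
  have hsum := sum_twists hi hF h hr hN fun P => θ (nrm (pm (fr κ p r)) (2 * n) P)
  have hu : ‖θ D₁ ^ (2 * n)‖ = 1 := by rw [norm_pow, h1 _ h.mem₁, one_pow]
  have hcount : ∀ σ : E ≃ₐ[RatFunc κ] E,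
      |(({j | j ∈ FixS κ (twi (Φ ^ (2 * n)) σ) (p ^ (r * (2 * n))) ∧
        (j (tE κ E)).coeff 0 ∉ Ex}.ncard : ℕ) : ℝ) - ((p : ℝ) ^ r) ^ (2 * n)| ≤
        (C₀ + (⋃ t ∈ (Ex : Set κ), Emb E t).ncard) * ((p : ℝ) ^ r) ^ n := fun σ => by
    have e : 2 * (r * n) = r * (2 * n) := by ring
    have h2 := hC (r * n) (by nlinarith) (twi (Φ ^ (2 * n)) σ) (by rw [e]; exact hS.tw σ)
    rw [e, pow_mul (p : ℝ), pow_mul (p : ℝ)] at h2
    have h3 := Set.ncard_le_ncard (fun j hj => hj.1 :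
      {j | j ∈ FixS κ (twi (Φ ^ (2 * n)) σ) (p ^ (r * (2 * n))) ∧
        (j (tE κ E)).coeff 0 ∉ Ex} ⊆ _) (hfin σ)
    have h4 := (Set.ncard_le_ncard (s := FixS κ (twi (Φ ^ (2 * n)) σ) (p ^ (r * (2 * n))))
      (fun j hj => by
        by_cases hx : (j (tE κ E)).coeff 0 ∈ Ex
        · obtain ⟨t₀, ht⟩ := hj.1
          rw [fft_base ht] at hx
          exact Or.inr (Set.mem_biUnion hx ht)
        · exact Or.inl ⟨hj, hx⟩) ((hA σ).union hX)).trans (Set.ncard_union_le _ _)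
    have h3' := (Nat.cast_le (α := ℝ)).2 h3
    have h4' := (Nat.cast_le (α := ℝ)).2 h4
    rw [Nat.cast_add] at h4'
    have h5 := le_mul_of_one_le_right (Nat.cast_nonneg (⋃ t ∈ (Ex : Set κ), Emb E t).ncard) hq
    rw [abs_le] at h2 ⊢
    rw [add_mul]
    constructor <;> linarith [h2.1, h2.2]
  rw [Finset.sum_congr rfl fun σ hσ => fft_finsum_const (hA σ)
    (a := θ D₁ ^ (2 * n) * θ (Dσ σ)) fun j hj => by
      have hσ' := (Finset.mem_filter.1 hσ).2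
      obtain ⟨⟨⟨t₀, hj⟩, hf⟩, hx⟩ := hj
      rw [fft_base hj] at hx ⊢
      obtain ⟨h2, h3⟩ := fft_fix_pt h hσ' hx hj hf
      rw [fft_theta hθ hP (fft_nrm_mem hF h2 h3) (nsmul_mem h.mem₁ _) (h.mem σ hσ')
        (h.recip _ σ t₀ j hσ' hx hj hf), fft_theta_nsmul hθ hP h.mem₁]] at hsum
  have hmain := fft_avg ⟨1, by simp⟩ hu (fun σ hσ => h1 _ (h.mem σ (Finset.mem_filter.1 hσ).2))
    (fun σ _ => hcount σ) ha (by exact_mod_cast hsum)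
  have hT := c.finite_fixed (p := p) hr (2 * n) hN
  have hsplit := finsum_mem_inter_add_sdiff
    (f := fun P => θ (nrm (pm (fr κ p r)) (2 * n) P)) {P : κ × κ | P.1 ∈ Ex} hT
  have hB : {y | y ∈ {Q | c.Gp Q} ∧ (pm (fr κ p r))^[2 * n] y = y} \ {P : κ × κ | P.1 ∈ Ex} =
      {P | c.Gp P ∧ (pm (fr κ p r))^[2 * n] P = P ∧ P.1 ∉ Ex} := by
    ext P; exact and_assoc
  have hexc := fft_norm_finsum_le (hT.inter_of_left {P : κ × κ | P.1 ∈ Ex})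
    (g := fun P => θ (nrm (pm (fr κ p r)) (2 * n) P))
    fun P hP => (h1 _ (fft_nrm_mem hF hP.1.1 hP.1.2)).le
  have h6 := (Nat.cast_le (α := ℝ)).2 (Set.ncard_le_ncard (fun P hP => ⟨hP.1.1.1, hP.2⟩ :
    {y | y ∈ {Q | c.Gp Q} ∧ (pm (fr κ p r))^[2 * n] y = y} ∩ {P : κ × κ | P.1 ∈ Ex} ⊆
      {P : κ × κ | On c.χ P ∧ P.1 ∈ Ex}) hY)
  have h7 := le_mul_of_one_le_right
    (Nat.cast_nonneg {P : κ × κ | On c.χ P ∧ P.1 ∈ Ex}.ncard) hq
  unfold sL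
  rw [← hsplit, hB, add_sub_assoc, add_mul]
  refine (norm_add_le _ _).trans ?_
  rw [Complex.ofReal_pow] at hmain
  rw [add_comm]
  exact add_le_add hmain (hexc.trans (h6.trans h7))

end

theorem char_sum_est (hρ : c.ρ ≠ 0) (hi : Irreducible c.χ) (hκ : AlgP κ p) (hr : 0 < r)
    (hF : c.Inv (fr κ p r)) : ∃ D₁ ∈ c.DvF (fr κ p r), D₁.degree = 1 ∧
      ∀ θ : (κ × κ →₀ ℤ) → ℂ,
      (∀ D ∈ c.DvF (fr κ p r), ∀ D' ∈ c.DvF (fr κ p r), θ (D + D') = θ D * θ D') →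
      (∀ D ∈ c.DvF (fr κ p r), D ∈ c.PP → θ D = 1) → (∀ D ∈ c.DvF (fr κ p r), ‖θ D‖ = 1) →
      ∃ (C : ℝ) (n₀ : ℕ), ((∃ D ∈ c.DvF (fr κ p r), θ D ≠ 1) ∧ ∀ n, n₀ ≤ n →
        ‖sL (pm (fr κ p r)) {Q | c.Gp Q} θ (2 * n)‖ ≤ C * ((p : ℝ) ^ r) ^ n) ∨
      ∀ n, n₀ ≤ n → ‖sL (pm (fr κ p r)) {Q | c.Gp Q} θ (2 * n) -
        θ D₁ ^ (2 * n) * (((p : ℝ) ^ r : ℝ) : ℂ) ^ (2 * n)‖ ≤ C * ((p : ℝ) ^ r) ^ n := by
  obtain ⟨E, _, _, _, _, _, _, η, Φ, D₁, Dσ, Ex, h⟩ := exists_langD hρ hi hκ hr hF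
  refine ⟨D₁, h.mem₁, h.deg₁, fun θ hθ hP h1 => ?_⟩
  by_cases ht : ∀ σ : E ≃ₐ[RatFunc κ] E, σ η = η → θ (Dσ σ) = 1
  · obtain ⟨C, n₀, hC⟩ := fft_main hi hF h hr hθ hP h1 (a := 1) (by
      rw [Finset.sum_congr rfl fun σ hσ => ht σ (Finset.mem_filter.1 hσ).2, Finset.sum_const,
        nsmul_eq_mul])
    exact ⟨C, n₀, Or.inr fun n hn => by simpa only [one_mul] using hC n hn⟩
  · push Not at ht
    obtain ⟨τ, hτ, hne⟩ := ht
    have h0 : ∑ σ : E ≃ₐ[RatFunc κ] E with σ η = η, θ (Dσ σ) = 0 := by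
      have h2 : ∑ σ : E ≃ₐ[RatFunc κ] E with σ η = η, θ (Dσ τ) * θ (Dσ σ) =
          ∑ σ : E ≃ₐ[RatFunc κ] E with σ η = η, θ (Dσ σ) := by
        refine Finset.sum_nbij' (fun σ => τ * σ) (fun σ => τ⁻¹ * σ) (fun σ hσ => ?_)
          (fun σ hσ => ?_) (fun σ _ => by simp) (fun σ _ => by simp) fun σ hσ => ?_
        · simp only [Finset.mem_filter, Finset.mem_univ, true_and] at hσ ⊢
          rw [AlgEquiv.mul_apply, hσ, hτ]
        · simp only [Finset.mem_filter, Finset.mem_univ, true_and] at hσ ⊢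
          apply τ.injective
          rw [← AlgEquiv.mul_apply, mul_inv_cancel_left, hσ, hτ]
        · have hσ' := (Finset.mem_filter.1 hσ).2
          exact (fft_theta hθ hP (h.mem _ (by rw [AlgEquiv.mul_apply, hσ', hτ])) (h.mem τ hτ)
            (h.mem σ hσ') (h.hom τ σ hτ hσ')).symm
      rw [← Finset.mul_sum] at h2
      exact (mul_left_eq_self₀.1 h2).resolve_left hne
    obtain ⟨C, n₀, hC⟩ := fft_main hi hF h hr hθ hP h1 (a := 0) (by rw [h0, mul_zero])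
    exact ⟨C, n₀, Or.inl ⟨⟨_, h.mem τ hτ, hne⟩, fun n hn => by
      simpa only [zero_mul, sub_zero] using hC n hn⟩⟩

end Pool.Agent.ZeroCyc
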