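import Pool.Agent.Lib.MP_796ce4_ag.ZY.CvW

/-! Strictly differentiable maps on the open unit ball of an ultrametric space. -/

namespace Pool.Agent.ZeroCyc

open Polynomial Module
open scoped Classical IntermediateField PowerSeries

set_option linter.unusedSectionVars false

instance sdProdUltra {E F : Type} [PseudoMetricSpace E] [PseudoMetricSpace F]
    [IsUltrametricDist E] [IsUltrametricDist F] : IsUltrametricDist (E × F) where
  dist_triangle_max x y z := by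
    rw [Prod.dist_eq, Prod.dist_eq, Prod.dist_eq]
    exact max_le ((IsUltrametricDist.dist_triangle_max _ y.1 _).trans
      (max_le_max (le_max_left _ _) (le_max_left _ _)))
      ((IsUltrametricDist.dist_triangle_max _ y.2 _).trans
      (max_le_max (le_max_right _ _) (le_max_right _ _)))

variable {L E F H : Type} [NormedField L] [IsUltrametricDist L] [NormedAddCommGroup E]
  [NormedSpace L E] [IsUltrametricDist E] [NormedAddCommGroup F] [NormedSpace L F]
  [IsUltrametricDist F] [NormedAddCommGroup H] [NormedSpace L H] [IsUltrametricDist H]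

/-- `f - ℓ` is Lipschitz with constant `r` on every ball of radius `r < 1` -/
structure SD (f : E → F) (ℓ : E →ₗ[L] F) : Prop where
  zero : f 0 = 0
  le : ∀ x, ‖ℓ x‖ ≤ ‖x‖
  est : ∀ x y, ‖x‖ < 1 → ‖y‖ < 1 → ‖f x - f y - ℓ (x - y)‖ ≤ max ‖x‖ ‖y‖ * ‖x - y‖

variable {f f' : E → F} {ℓ ℓ' : E →ₗ[L] F}

theorem fga_add {a b : F} {c : ℝ} (ha : ‖a‖ ≤ c) (hb : ‖b‖ ≤ c) : ‖a + b‖ ≤ c :=
  (IsUltrametricDist.norm_add_le_max a b).trans (max_le ha hb)

theorem fga_mul {a b : L} {c d : ℝ} (ha : ‖a‖ ≤ c) (hb : ‖b‖ ≤ d) : ‖a * b‖ ≤ c * d := by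
  rw [norm_mul]
  exact mul_le_mul ha hb (norm_nonneg _) ((norm_nonneg _).trans ha)

theorem fga_mul1 {a b : L} {d : ℝ} (ha : ‖a‖ ≤ 1) (hb : ‖b‖ ≤ d) : ‖a * b‖ ≤ d := by
  simpa using fga_mul ha hb

theorem SD.lip (h : SD f ℓ) {x y : E} (hx : ‖x‖ < 1) (hy : ‖y‖ < 1) : ‖f x - f y‖ ≤ ‖x - y‖ := by
  have e : f x - f y = (f x - f y - ℓ (x - y)) + ℓ (x - y) := by abel
  rw [e]
  refine fga_add ((h.est x y hx hy).trans ?_) (h.le _)
  exact mul_le_of_le_one_left (norm_nonneg _) (max_le hx.le hy.le)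
theorem SD.norm_le (h : SD f ℓ) {x : E} (hx : ‖x‖ < 1) : ‖f x‖ ≤ ‖x‖ := by
  simpa [h.zero] using h.lip hx (y := 0) (by simp)
theorem sd_linear (h : ∀ x, ‖ℓ x‖ ≤ ‖x‖) : SD ℓ ℓ := by
  refine ⟨map_zero _, h, fun x y _ _ => ?_⟩
  rw [map_sub, sub_self, norm_zero]
  positivity
theorem SD.congr (h : SD f ℓ) (e : ∀ x, ‖x‖ < 1 → f' x = f x) (e' : ℓ' = ℓ) : SD f' ℓ' := by
  subst e'
  refine ⟨by rw [e 0 (by simp), h.zero], h.le, fun x y hx hy => ?_⟩
  rw [e x hx, e y hy]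
  exact h.est x y hx hy
theorem SD.add (h : SD f ℓ) (h' : SD f' ℓ') : SD (fun x => f x + f' x) (ℓ + ℓ') := by
  refine ⟨by simp [h.zero, h'.zero], fun x => fga_add (h.le x) (h'.le x), fun x y hx hy => ?_⟩
  have e : f x + f' x - (f y + f' y) - (ℓ + ℓ') (x - y) =
      (f x - f y - ℓ (x - y)) + (f' x - f' y - ℓ' (x - y)) := by
    rw [LinearMap.add_apply]; abel
  rw [e]
  exact fga_add (h.est x y hx hy) (h'.est x y hx hy)
theorem SD.neg (h : SD f ℓ) : SD (fun x => -f x) (-ℓ) := by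
  refine ⟨by simp [h.zero], fun x => by simpa using h.le x, fun x y hx hy => ?_⟩
  have e : -f x - -f y - (-ℓ) (x - y) = -(f x - f y - ℓ (x - y)) := by
    rw [LinearMap.neg_apply]; abel
  rw [e, norm_neg]
  exact h.est x y hx hy
theorem SD.smul (h : SD f ℓ) {a : L} (ha : ‖a‖ ≤ 1) : SD (fun x => a • f x) (a • ℓ) := by
  have k : ∀ v : F, ‖a • v‖ ≤ ‖v‖ := fun v => by
    rw [norm_smul]; exact mul_le_of_le_one_left (norm_nonneg _) ha
  refine ⟨by simp [h.zero], fun x => (k _).trans (h.le x), fun x y hx hy => ?_⟩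
  have e : a • f x - a • f y - (a • ℓ) (x - y) = a • (f x - f y - ℓ (x - y)) := by
    rw [LinearMap.smul_apply, smul_sub, smul_sub]
  rw [e]
  exact (k _).trans (h.est x y hx hy)
theorem SD.sum {T : Type} {s : Finset T} {f : T → E → F} {ℓ : T → E →ₗ[L] F}
    (h : ∀ t ∈ s, SD (f t) (ℓ t)) : SD (fun x => ∑ t ∈ s, f t x) (∑ t ∈ s, ℓ t) := by
  induction s using Finset.induction_on with
  | empty =>
    exact (sd_linear (ℓ := (0 : E →ₗ[L] F)) (by simp)).congr (fun x _ => by simp) (by simp)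
  | insert t s ht ih =>
    exact ((h t (Finset.mem_insert_self _ _)).add
      (ih fun u hu => h u (Finset.mem_insert_of_mem hu))).congr
      (fun x _ => by rw [Finset.sum_insert ht]) (by rw [Finset.sum_insert ht])
theorem SD.comp {g : F → H} {m : F →ₗ[L] H} (hg : SD g m) (h : SD f ℓ) :
    SD (fun x => g (f x)) (m ∘ₗ ℓ) := by
  refine ⟨by simp [h.zero, hg.zero], fun x => (hg.le _).trans (h.le x), fun x y hx hy => ?_⟩
  have e : g (f x) - g (f y) - (m ∘ₗ ℓ) (x - y) =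
      (g (f x) - g (f y) - m (f x - f y)) + m (f x - f y - ℓ (x - y)) := by
    rw [LinearMap.comp_apply, map_sub m (f x - f y)]; abel
  rw [e]
  refine fga_add ((hg.est _ _ ((h.norm_le hx).trans_lt hx) ((h.norm_le hy).trans_lt hy)).trans ?_)
    ((hg.le _).trans (h.est x y hx hy))
  exact mul_le_mul (max_le_max (h.norm_le hx) (h.norm_le hy)) (h.lip hx hy) (norm_nonneg _)
    (by positivity)
theorem SD.prod {g : E → H} {m : E →ₗ[L] H} (h : SD f ℓ) (hg : SD g m) :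
    SD (fun x => (f x, g x)) (ℓ.prod m) := by
  refine ⟨by simp [h.zero, hg.zero], fun x => ?_, fun x y hx hy => ?_⟩
  · exact max_le (h.le x) (hg.le x)
  · exact max_le (h.est x y hx hy) (hg.est x y hx hy)
theorem SD.pi {T : Type} [Fintype T] {f : T → E → F} {ℓ : T → E →ₗ[L] F}
    (h : ∀ t, SD (f t) (ℓ t)) : SD (fun x t => f t x) (LinearMap.pi ℓ) := by
  refine ⟨funext fun t => (h t).zero, fun x => ?_, fun x y hx hy => ?_⟩
  · exact (pi_norm_le_iff_of_nonneg (norm_nonneg _)).2 fun t => (h t).le x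
  · exact (pi_norm_le_iff_of_nonneg (by positivity)).2 fun t => (h t).est x y hx hy
theorem SD.mul {f g : E → L} {ℓ m : E →ₗ[L] L} (h : SD f ℓ) (hg : SD g m) {a b : L} (ha : ‖a‖ ≤ 1)
    (hb : ‖b‖ ≤ 1) : SD (fun x => (a + f x) * (b + g x) - a * b) (a • m + b • ℓ) := by
  refine ⟨by simp [h.zero, hg.zero],
    fun x => fga_add (fga_mul1 ha (hg.le x)) (fga_mul1 hb (h.le x)), fun x y hx hy => ?_⟩
  have e : (a + f x) * (b + g x) - a * b - ((a + f y) * (b + g y) - a * b) -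
      (a • m + b • ℓ) (x - y) = a * (g x - g y - m (x - y)) + b * (f x - f y - ℓ (x - y)) +
      (f x * (g x - g y) + g y * (f x - f y)) := by
    simp only [LinearMap.add_apply, LinearMap.smul_apply, smul_eq_mul]; ring
  rw [e]
  refine fga_add (fga_add (fga_mul1 ha (hg.est x y hx hy)) (fga_mul1 hb (h.est x y hx hy)))
    (fga_add (fga_mul ((h.norm_le hx).trans (le_max_left _ _)) (hg.lip hx hy))
      (fga_mul ((hg.norm_le hy).trans (le_max_right _ _)) (h.lip hx hy)))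

theorem fga_eval₂_le {O : Type} [CommRing O] {ι : O →+* L} (hι : ∀ x, ‖ι x‖ ≤ 1) {τ : L}
    (hτ : ‖τ‖ ≤ 1) (u : O[X]) : ‖u.eval₂ ι τ‖ ≤ 1 := by
  induction u using Polynomial.induction_on with
  | C a => simpa using hι a
  | add p q hp hq => rw [eval₂_add]; exact fga_add hp hq
  | monomial n a ih =>
    rw [pow_succ, ← mul_assoc, eval₂_mul, eval₂_X]
    exact fga_mul1 ih hτ

theorem fga_e2_le {O : Type} [CommRing O] {ι : O →+* L} (hι : ∀ x, ‖ι x‖ ≤ 1) {τ η : L}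
    (hτ : ‖τ‖ ≤ 1) (hη : ‖η‖ ≤ 1) (a : O[X][X]) : ‖e2 ι τ η a‖ ≤ 1 := by
  induction a using Polynomial.induction_on with
  | C a => rw [e2_C]; exact fga_eval₂_le hι hτ a
  | add p q hp hq => rw [map_add]; exact fga_add hp hq
  | monomial n a ih =>
    rw [pow_succ, ← mul_assoc, map_mul, e2_X]
    exact fga_mul1 ih hη

theorem fga_eval₂ {O : Type} [CommRing O] {ι : O →+* L} (hι : ∀ x, ‖ι x‖ ≤ 1) {τ : L}
    (hτ : ‖τ‖ ≤ 1) (u : O[X]) : SD (fun z : L => u.eval₂ ι (τ + z) - u.eval₂ ι τ)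
      ((derivative u).eval₂ ι τ • LinearMap.id (R := L) (M := L)) := by
  induction u using Polynomial.induction_on with
  | C a =>
    exact (sd_linear (ℓ := (0 : L →ₗ[L] L)) (by simp)).congr (fun x _ => by simp) (by simp)
  | add p q hp hq =>
    refine (hp.add hq).congr (fun x _ => ?_) ?_
    · simp only [eval₂_add]; ring
    · rw [derivative_add, eval₂_add, add_smul]
  | monomial n a ih =>
    rw [pow_succ, ← mul_assoc]
    generalize C a * X ^ n = p at ih ⊢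
    refine (ih.mul (sd_linear (ℓ := LinearMap.id (R := L) (M := L)) (by simp))
      (fga_eval₂_le hι hτ p) hτ).congr (fun x _ => ?_) ?_
    · simp only [eval₂_mul, eval₂_X, LinearMap.id_apply]; ring
    · ext
      simp only [derivative_mul, derivative_X, mul_one, eval₂_add, eval₂_mul, eval₂_X,
        LinearMap.add_apply, LinearMap.smul_apply, LinearMap.id_apply, smul_eq_mul]
      ring

/-- polynomials with integral coefficients -/
theorem sd_e2 {O : Type} [CommRing O] {ι : O →+* L} (hι : ∀ x, ‖ι x‖ ≤ 1) {τ η : L} (hτ : ‖τ‖ ≤ 1)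
    (hη : ‖η‖ ≤ 1) (a : O[X][X]) : ∃ A : L, ‖A‖ ≤ 1 ∧
      SD (fun z : L × L => e2 ι (τ + z.1) (η + z.2) a - e2 ι τ η a)
        (A • LinearMap.fst L L L + e2 ι τ η (derivative a) • LinearMap.snd L L L) := by
  induction a using Polynomial.induction_on with
  | C a =>
    refine ⟨(derivative a).eval₂ ι τ, fga_eval₂_le hι hτ _, ((fga_eval₂ hι hτ a).comp
      (sd_linear (ℓ := LinearMap.fst L L L) norm_fst_le)).congr (fun x _ => ?_) ?_⟩
    · simp only [e2_C, LinearMap.fst_apply]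
    · refine LinearMap.ext fun z => ?_
      simp
  | add p q hp hq =>
    obtain ⟨A, hA, hp⟩ := hp
    obtain ⟨B, hB, hq⟩ := hq
    refine ⟨A + B, fga_add hA hB, (hp.add hq).congr (fun x _ => ?_) ?_⟩
    · simp only [map_add]; ring
    · rw [derivative_add, map_add, add_smul, add_smul]; abel
  | monomial n a ih =>
    rw [pow_succ, ← mul_assoc]
    generalize C a * X ^ n = p at ih ⊢
    obtain ⟨A, hA, hp⟩ := ih
    refine ⟨η * A, fga_mul1 hη hA, (hp.mul (sd_linear (ℓ := LinearMap.snd L L L) norm_snd_le)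
      (fga_e2_le hι hτ hη p) hη).congr (fun x _ => ?_) ?_⟩
    · simp only [map_mul, e2_X, LinearMap.snd_apply]; ring
    · refine LinearMap.ext fun z => ?_
      simp only [derivative_mul, derivative_X, mul_one, map_add, map_mul, e2_X,
        LinearMap.add_apply, LinearMap.smul_apply, LinearMap.fst_apply, LinearMap.snd_apply,
        smul_eq_mul]
      ring
theorem sd_eval₂ {O : Type} [CommRing O] {ι : O →+* L} (hι : ∀ x, ‖ι x‖ ≤ 1) {τ : L} (hτ : ‖τ‖ ≤ 1)
    (u : O[X]) : SD (fun z : L => u.eval₂ ι (τ + z) - u.eval₂ ι τ)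
      ((derivative u).eval₂ ι τ • LinearMap.id (R := L) (M := L)) := fga_eval₂ hι hτ u
theorem norm_e2_le {O : Type} [CommRing O] {ι : O →+* L} (hι : ∀ x, ‖ι x‖ ≤ 1) {τ η : L}
    (hτ : ‖τ‖ ≤ 1) (hη : ‖η‖ ≤ 1) (a : O[X][X]) : ‖e2 ι τ η a‖ ≤ 1 := fga_e2_le hι hτ hη a
theorem norm_e2_sub_le {O : Type} [CommRing O] {ι : O →+* L} (hι : ∀ x, ‖ι x‖ ≤ 1) {τ η τ' η' : L}
    (hτ : ‖τ‖ ≤ 1) (hη : ‖η‖ ≤ 1) (hτ' : ‖τ'‖ ≤ 1) (hη' : ‖η'‖ ≤ 1) (a : O[X][X]) :
    ‖e2 ι τ η a - e2 ι τ' η' a‖ ≤ max ‖τ - τ'‖ ‖η - η'‖ := by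
  rcases le_or_gt 1 (max ‖τ - τ'‖ ‖η - η'‖) with h | h
  · refine le_trans ?_ h
    rw [sub_eq_add_neg]
    exact fga_add (fga_e2_le hι hτ hη a) (by rw [norm_neg]; exact fga_e2_le hι hτ' hη' a)
  · obtain ⟨A, -, hs⟩ := sd_e2 hι hτ' hη' a
    simpa using hs.norm_le (x := (τ - τ', η - η')) h

/-- the contraction principle on a closed ball -/
theorem exists_fixed_ball [CompleteSpace E] {g : E → E} {r θ : ℝ} (hr : 0 ≤ r) (hθ : θ < 1)
    (h0 : ∀ x, ‖x‖ ≤ r → ‖g x‖ ≤ r)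
    (h : ∀ x y, ‖x‖ ≤ r → ‖y‖ ≤ r → ‖g x - g y‖ ≤ θ * ‖x - y‖) : ∃ x, ‖x‖ ≤ r ∧ g x = x := by
  have hm : Set.MapsTo g (Metric.closedBall (0 : E) r) (Metric.closedBall 0 r) := fun x hx =>
    mem_closedBall_zero_iff.2 (h0 x (mem_closedBall_zero_iff.1 hx))
  have hc : ContractingWith θ.toNNReal (hm.restrict g _ _) := by
    refine ⟨Real.toNNReal_lt_one.2 hθ, LipschitzWith.of_dist_le_mul fun x y => ?_⟩
    rw [Subtype.dist_eq, Subtype.dist_eq, dist_eq_norm, dist_eq_norm]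
    exact (h _ _ (mem_closedBall_zero_iff.1 x.2) (mem_closedBall_zero_iff.1 y.2)).trans
      (mul_le_mul_of_nonneg_right (Real.le_coe_toNNReal θ) (norm_nonneg _))
  obtain ⟨y, hy, hf, -⟩ := hc.exists_fixedPoint' Metric.isClosed_closedBall.isComplete hm
    (Metric.mem_closedBall_self hr) (edist_ne_top _ _)
  exact ⟨y, mem_closedBall_zero_iff.1 hy, hf⟩

theorem fga_iso (h : SD f ℓ) (hiso : ∀ x, ‖ℓ x‖ = ‖x‖) {x y : E} (hx : ‖x‖ < 1) (hy : ‖y‖ < 1) :
    ‖x - y‖ ≤ ‖f x - f y‖ := by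
  by_contra hlt
  rw [not_le] at hlt
  have e : ℓ (x - y) = (f x - f y) + -(f x - f y - ℓ (x - y)) := by abel
  have h1 := IsUltrametricDist.norm_add_le_max (f x - f y) (-(f x - f y - ℓ (x - y)))
  rw [← e, hiso, norm_neg] at h1
  have h2 : ‖f x - f y - ℓ (x - y)‖ < ‖x - y‖ := (h.est x y hx hy).trans_lt
    (mul_lt_of_lt_one_left ((norm_nonneg _).trans_lt hlt) (max_lt hx hy))
  exact absurd h1 (not_le.2 (max_lt hlt h2))

/-- the inverse function theorem -/
theorem SD.inverse [CompleteSpace E] (h : SD f ℓ) (hiso : ∀ x, ‖ℓ x‖ = ‖x‖)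
    (hs : Function.Surjective ℓ) : ∃ (g : F → E) (m : F →ₗ[L] E), SD g m ∧ (∀ y, ℓ (m y) = y) ∧
      (∀ x, m (ℓ x) = x) ∧ (∀ y, ‖y‖ < 1 → f (g y) = y) ∧ ∀ x, ‖x‖ < 1 → g (f x) = x := by
  have hi : Function.Injective ℓ := (injective_iff_map_eq_zero ℓ).2 fun x hx => by
    rw [← norm_eq_zero, ← hiso, hx, norm_zero]
  let m : F →ₗ[L] E := (LinearEquiv.ofBijective ℓ ⟨hi, hs⟩).symm.toLinearMap
  have hlm : ∀ y, ℓ (m y) = y := fun y => (LinearEquiv.ofBijective ℓ ⟨hi, hs⟩).apply_symm_apply y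
  have hml : ∀ x, m (ℓ x) = x := fun x => hi (hlm _)
  have hex : ∀ y : F, ∃ x : E, ‖y‖ < 1 → ‖x‖ ≤ ‖y‖ ∧ f x = y := by
    intro y
    by_cases hy : ‖y‖ < 1
    · obtain ⟨x, hx, hfx⟩ := exists_fixed_ball (g := fun x => x - m (f x - y)) (norm_nonneg y) hy
        (fun x hx => by
          have e : ℓ (x - m (f x - y)) = -(f x - f 0 - ℓ (x - 0)) + y := by
            rw [map_sub, hlm, h.zero, sub_zero, sub_zero]; abel
          rw [← hiso, e]
          refine fga_add ?_ le_rfl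
          rw [norm_neg]
          refine (h.est x 0 (hx.trans_lt hy) (by simp)).trans ?_
          rw [sub_zero]
          exact (mul_le_of_le_one_left (norm_nonneg _)
            (max_le (hx.trans hy.le) (by simp))).trans hx)
        (fun x x' hx hx' => by
          have e : ℓ (x - m (f x - y) - (x' - m (f x' - y))) = -(f x - f x' - ℓ (x - x')) := by
            simp only [map_sub, hlm]; abel
          rw [← hiso, e, norm_neg]
          exact (h.est x x' (hx.trans_lt hy) (hx'.trans_lt hy)).trans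
            (mul_le_mul_of_nonneg_right (max_le hx hx') (norm_nonneg _)))
      refine ⟨x, fun _ => ⟨hx, ?_⟩⟩
      have h1 : m (f x - y) = 0 := sub_eq_self.1 hfx
      rw [← sub_eq_zero, ← hlm (f x - y), h1, map_zero]
    · exact ⟨0, fun h' => absurd h' hy⟩
  choose g hg using hex
  refine ⟨g, m, ⟨?_, fun y => by rw [← hiso, hlm], fun y y' hy hy' => ?_⟩, hlm, hml,
    fun y hy => (hg y hy).2, fun x hx => ?_⟩
  · simpa using (hg 0 (by simp)).1
  · have h1 := (hg y hy).1.trans_lt hy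
    have h2 := (hg y' hy').1.trans_lt hy'
    have e : ℓ (g y - g y' - m (y - y')) = -(f (g y) - f (g y') - ℓ (g y - g y')) := by
      rw [(hg y hy).2, (hg y' hy').2, map_sub ℓ (g y - g y'), hlm]; abel
    rw [← hiso, e, norm_neg]
    refine (h.est _ _ h1 h2).trans (mul_le_mul (max_le_max (hg y hy).1 (hg y' hy').1) ?_
      (norm_nonneg _) (by positivity))
    simpa only [(hg y hy).2, (hg y' hy').2] using fga_iso h hiso h1 h2
  · have h1 := (h.norm_le hx).trans_lt hx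
    have h2 := fga_iso h hiso ((hg _ h1).1.trans_lt h1) hx
    rw [(hg _ h1).2, sub_self, norm_zero] at h2
    exact sub_eq_zero.1 (norm_le_zero_iff.1 h2)

end Pool.Agent.ZeroCyc
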