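import Pool.Agent.Lib.MP_796ce4_ag.ZY.FgA
import Pool.Agent.Lib.MP_796ce4_ag.ZY.CvJ

/-! Moving rational points of a curve inside their residue discs: tangent relations. -/

namespace Pool.Agent.ZeroCyc

open Polynomial Module
open scoped Classical IntermediateField PowerSeries

set_option linter.unusedSectionVars false

variable {L O κ J : Type} [NormedField L] [IsUltrametricDist L] [CompleteSpace L] [CommRing O]
  [Field κ] [IsAlgClosed κ] [Fintype J]

/-- `O` is the ring of integers of `L` with residue map `ψ` -/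
structure IntR (ι : O →+* L) (ψ : O →+* κ) : Prop where
  inj : Function.Injective ι
  range : ∀ x, ‖x‖ ≤ 1 ↔ x ∈ ι.range
  res : ∀ x, ψ x = 0 ↔ ‖ι x‖ < 1

/-- the second coordinate of the point of the residue disc of `P` over `P.1 + x` -/
noncomputable def hn (ι : O →+* L) (χ : O[X][X]) (P : O × O) (x : L) : L :=
  if h : ∃ η, e2 ι (ι P.1 + x) η χ = 0 ∧ ‖η - ι P.2‖ < 1 then h.choose else 0

/-- the polynomial with the base points as roots -/
noncomputable def uP (P : J → O × O) : O[X] := ∏ j, (X - C (P j).1)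

/-- the equation of the other points of the fibre -/
noncomputable def cof (χ : O[X][X]) (P : O × O) : O[X] :=
  χ.map (evalRingHom P.1) /ₘ (X - C P.2)

/-- good base points with incongruent first coordinates -/
structure BasP (ψ : O →+* κ) (c : Cv O) (P : J → O × O) : Prop where
  on : ∀ j, On c.χ (P j)
  good : ∀ j, ψ (c.ρ.eval (P j).1) ≠ 0
  inj : Function.Injective fun j => ψ (P j).1

/-- the points of `T` impose independent conditions on the special fibre -/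
def IsBasis (ψ : O →+* κ) (c : Cv O) (P : J → O × O) (T : Finset J) : Prop :=
  (c.map ψ).Vs (Fintype.card J) (dv (c.map ψ).χ (C (∏ j, (X - C (pm ψ (P j)).1))) -
    ∑ j ∈ T, Finsupp.single (pm ψ (P j)) 1) = ⊥

/-- bounded weight and vanishing at the other points of the fibres -/
def Fib (ι : O →+* L) (c : Cv O) (P : J → O × O) (a : L[X][X]) : Prop :=
  a ∈ Wsp c.b c.δ c.w (Fintype.card J) ∧
    ∀ j, (cof c.χ (P j)).map ι ∣ a.map (evalRingHom (ι (P j).1))

/-- first order relations -/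
def Tan (ι : O →+* L) (c : Cv O) (P : J → O × O) (x : J → L) : Prop :=
  ∃ a, Fib ι c P a ∧ ∀ j, x j * ι ((derivative (uP P)).eval (P j).1) +
    ι (c.ρ.eval (P j).1) * ee (pm ι (P j)) a = 0

/-- relations -/
def Rel (ι : O →+* L) (c : Cv O) (P : J → O × O) (x : J → L) : Prop :=
  ∃ a, Fib ι c P (mp ι a) ∧
    ∀ j, e2 ι (ι (P j).1 + x j) (hn ι c.χ (P j) (x j)) (c.G (uP P) a) = 0

variable {ι : O →+* L} {ψ : O →+* κ} {c : Cv O} {P : J → O × O} {T : Finset J}

theorem IntR.norm_le (h : IntR ι ψ) (x : O) : ‖ι x‖ ≤ 1 := (h.range _).2 ⟨x, rfl⟩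
theorem IntR.norm_eq_one (h : IntR ι ψ) {x : O} : ψ x ≠ 0 ↔ ‖ι x‖ = 1 := by
  rw [Ne, h.res, not_lt]
  exact ⟨fun h1 => le_antisymm (h.norm_le x) h1, fun h1 => h1.ge⟩
theorem IntR.isUnit (h : IntR ι ψ) {x : O} (hx : ψ x ≠ 0) : IsUnit x := by
  have h1 := h.norm_eq_one.1 hx
  have h0 : ι x ≠ 0 := by
    intro e
    rw [e, norm_zero] at h1
    exact zero_ne_one h1
  obtain ⟨y, hy⟩ := (h.range (ι x)⁻¹).1 (by rw [norm_inv, h1, inv_one])
  refine IsUnit.of_mul_eq_one y (h.inj ?_)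
  rw [map_mul, hy, map_one, mul_inv_cancel₀ h0]

theorem fgc_e2_eq (ι : O →+* L) (Q : O × O) (a : O[X][X]) :
    e2 ι (ι Q.1) (ι Q.2) a = ι (ee Q a) := by
  rw [map_ee, ee_mp]
  rfl

theorem fgc_map_uP (ψ : O →+* κ) (P : J → O × O) :
    (uP P).map ψ = ∏ j, (X - C (pm ψ (P j)).1) := by
  rw [uP, Polynomial.map_prod]
  refine Finset.prod_congr rfl fun j _ => ?_
  rw [Polynomial.map_sub, map_X, map_C]
  rfl

theorem fgc_sep (hP : BasP ψ c P) : (∏ j, (X - C (pm ψ (P j)).1) : κ[X]).Separable :=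
  separable_prod_X_sub_C_iff.2 hP.inj

theorem fgc_der_ne (hP : BasP ψ c P) (j : J) : ψ (ee (P j) (derivative c.χ)) ≠ 0 := by
  have h1 := congrArg (ee (P j)) c.rho
  have h2 : ee (P j) c.χ = 0 := hP.on j
  rw [ee_C, map_add, map_mul, map_mul, h2, mul_zero, zero_add] at h1
  have h3 := hP.good j
  rw [h1, map_mul] at h3
  exact right_ne_zero_of_mul h3

theorem BasP.norm_der (hI : IntR ι ψ) (hP : BasP ψ c P) (j : J) :
    ‖e2 ι (ι (P j).1) (ι (P j).2) (derivative c.χ)‖ = 1 ∧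
      ‖ι ((derivative (uP P)).eval (P j).1)‖ = 1 := by
  refine ⟨?_, hI.norm_eq_one.1 ?_⟩
  · rw [fgc_e2_eq]
    exact hI.norm_eq_one.1 (fgc_der_ne hP j)
  · have h1 := (fgc_sep hP).eval₂_derivative_ne_zero (RingHom.id κ) (x := ψ (P j).1) (by
      rw [eval₂_id, eval_prod]
      exact Finset.prod_eq_zero (Finset.mem_univ j) (by simp [pm]))
    rw [eval₂_id, ← fgc_map_uP, derivative_map, eval_map, eval₂_at_apply] at h1
    exact h1
theorem BasP.cop (hI : IntR ι ψ) (hP : BasP ψ c P) : IsCoprime (uP P) c.ρ := by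
  refine IsCoprime.prod_left fun j _ => ?_
  obtain ⟨q, hq⟩ := X_sub_C_dvd_sub_C_eval (p := c.ρ) (a := (P j).1)
  obtain ⟨v, hv⟩ := (hI.isUnit (hP.good j)).exists_right_inv
  refine ⟨-(C v * q), C v, ?_⟩
  have h1 : C (c.ρ.eval (P j).1) * C v = 1 := by rw [← C_mul, hv, C_1]
  linear_combination C v * hq + h1

theorem fgc_root_unique (hI : IntR ι ψ) (hP : BasP ψ c P) (j : J) {x η η' : L} (hx : ‖x‖ < 1)
    (h0 : e2 ι (ι (P j).1 + x) η c.χ = 0) (h1 : ‖η - ι (P j).2‖ < 1)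
    (h0' : e2 ι (ι (P j).1 + x) η' c.χ = 0) (h1' : ‖η' - ι (P j).2‖ < 1) : η = η' := by
  obtain ⟨A, -, hS⟩ := sd_e2 hI.norm_le (hI.norm_le (P j).1) (hI.norm_le (P j).2) c.χ
  have hz : ‖((x, η - ι (P j).2) : L × L)‖ < 1 := by
    rw [Prod.norm_def]
    exact max_lt hx h1
  have hz' : ‖((x, η' - ι (P j).2) : L × L)‖ < 1 := by
    rw [Prod.norm_def]
    exact max_lt hx h1'
  have h2 := hS.est _ _ hz hz'
  have e1 : ((x, η - ι (P j).2) : L × L) - (x, η' - ι (P j).2) = (0, η - η') := by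
    ext <;> simp
  simp only [add_sub_cancel, h0, h0', e1, sub_self, zero_sub, norm_neg, LinearMap.add_apply,
    LinearMap.smul_apply, LinearMap.fst_apply, LinearMap.snd_apply, smul_eq_mul, mul_zero,
    zero_add, norm_mul, (hP.norm_der hI j).1, one_mul] at h2
  have e2' : ‖((0, η - η') : L × L)‖ = ‖η - η'‖ := by
    rw [Prod.norm_def, norm_zero, max_eq_right (norm_nonneg _)]
  rw [e2'] at h2
  have h3 := max_lt hz hz'
  by_contra hne
  have h4 : 0 < ‖η - η'‖ := norm_pos_iff.2 (sub_ne_zero.2 hne)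
  nlinarith

theorem hn_unique (hI : IntR ι ψ) (hP : BasP ψ c P) (j : J) {x η : L} (hx : ‖x‖ < 1)
    (h0 : e2 ι (ι (P j).1 + x) η c.χ = 0) (h1 : ‖η - ι (P j).2‖ < 1) :
    hn ι c.χ (P j) x = η := by
  have h : ∃ η, e2 ι (ι (P j).1 + x) η c.χ = 0 ∧ ‖η - ι (P j).2‖ < 1 := ⟨η, h0, h1⟩
  rw [hn, dif_pos h]
  exact fgc_root_unique hI hP j hx h.choose_spec.1 h.choose_spec.2 h0 h1

theorem fgc_on (hP : BasP ψ c P) (ι : O →+* L) (j : J) :
    e2 ι (ι (P j).1) (ι (P j).2) c.χ = 0 := by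
  have h2 : ee (P j) c.χ = 0 := hP.on j
  rw [fgc_e2_eq, h2, map_zero]

theorem hn_zero (hI : IntR ι ψ) (hP : BasP ψ c P) (j : J) : hn ι c.χ (P j) 0 = ι (P j).2 :=
  hn_unique hI hP j (by simp) (by rw [add_zero]; exact fgc_on hP ι j) (by simp)

theorem fgc_norm_shear {a : L} (ha : ‖a‖ ≤ 1) (z : L × L) :
    ‖((z.1, a * z.1 + z.2) : L × L)‖ = ‖z‖ := by
  have h1 : ‖a * z.1‖ ≤ ‖z.1‖ := by
    rw [norm_mul]
    exact mul_le_of_le_one_left (norm_nonneg _) ha
  rw [Prod.norm_def, Prod.norm_def]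
  apply le_antisymm
  · exact max_le (le_max_left _ _)
      ((IsUltrametricDist.norm_add_le_max _ _).trans (max_le_max h1 le_rfl))
  · refine max_le (le_max_left _ _) ?_
    have h2 := IsUltrametricDist.norm_add_le_max (-(a * z.1)) (a * z.1 + z.2)
    rw [neg_add_cancel_left, norm_neg] at h2
    exact h2.trans (max_le_max h1 le_rfl)

/-- the Hensel function is strictly differentiable -/
theorem sd_hn (hI : IntR ι ψ) (hP : BasP ψ c P) (j : J) :
    (∀ x, ‖x‖ < 1 → e2 ι (ι (P j).1 + x) (hn ι c.χ (P j) x) c.χ = 0) ∧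
      ∃ ℓ : L →ₗ[L] L, SD (fun x => hn ι c.χ (P j) x - ι (P j).2) ℓ := by
  obtain ⟨A, hA, hS⟩ := sd_e2 hI.norm_le (hI.norm_le (P j).1) (hI.norm_le (P j).2) c.χ
  have hD := (hP.norm_der hI j).1
  set D := e2 ι (ι (P j).1) (ι (P j).2) (derivative c.χ) with hDdef
  have hD0 : D ≠ 0 := by
    intro e
    rw [e, norm_zero] at hD
    exact zero_ne_one hD
  have hDi : ‖D⁻¹‖ ≤ 1 := by rw [norm_inv, hD, inv_one]
  have hf : SD (LinearMap.fst L L L) (LinearMap.fst L L L) := sd_linear fun z => norm_fst_le z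
  have hs : SD (LinearMap.snd L L L) (LinearMap.snd L L L) := sd_linear fun z => norm_snd_le z
  have hi : SD (LinearMap.inl L L L) (LinearMap.inl L L L) := sd_linear fun z => by
    simp [Prod.norm_def]
  have hF := hf.prod (hS.smul hDi)
  have e : ∀ z : L × L, ((LinearMap.fst L L L).prod
      (D⁻¹ • (A • LinearMap.fst L L L + D • LinearMap.snd L L L))) z =
      (z.1, D⁻¹ * A * z.1 + z.2) := by
    intro z
    ext
    · simp
    · change D⁻¹ * (A * z.1 + D * z.2) = D⁻¹ * A * z.1 + z.2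
      field_simp
  obtain ⟨g, m, hg, -, -, h3, -⟩ := hF.inverse (fun z => by
      rw [e]
      refine fgc_norm_shear ?_ z
      rw [norm_mul]
      exact mul_le_one₀ hDi (norm_nonneg _) hA)
    (fun z => ⟨(z.1, z.2 - D⁻¹ * A * z.1), by rw [e]; ext <;> simp⟩)
  have key : ∀ x : L, ‖x‖ < 1 → e2 ι (ι (P j).1 + x) (ι (P j).2 + (g (x, 0)).2) c.χ = 0 ∧
      hn ι c.χ (P j) x = ι (P j).2 + (g (x, 0)).2 := by
    intro x hx
    have hy : ‖((x, 0) : L × L)‖ < 1 := by simpa [Prod.norm_def] using hx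
    have h4 := h3 _ hy
    have h5 : (g (x, 0)).1 = x := congrArg Prod.fst h4
    have h6 := congrArg Prod.snd h4
    simp only [h5, fgc_on hP ι j, sub_zero, smul_eq_mul, mul_eq_zero, inv_eq_zero, hD0,
      false_or] at h6
    refine ⟨h6, hn_unique hI hP j hx h6 ?_⟩
    rw [add_sub_cancel_left]
    exact ((norm_snd_le _).trans (hg.norm_le hy)).trans_lt hy
  refine ⟨fun x hx => ?_, _, (hs.comp (hg.comp hi)).congr (fun x hx => ?_) rfl⟩
  · rw [(key x hx).2]
    exact (key x hx).1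
  · rw [(key x hx).2, add_sub_cancel_left]
    rfl

theorem fgc_cof (hP : BasP ψ c P) (j : J) :
    (X - C (P j).2) * cof c.χ (P j) = c.χ.map (evalRingHom (P j).1) ∧ (cof c.χ (P j)).Monic := by
  have h1 : (X - C (P j).2) * cof c.χ (P j) = c.χ.map (evalRingHom (P j).1) := by
    refine mul_divByMonic_eq_iff_isRoot.2 ?_
    have h2 : ee (P j) c.χ = 0 := hP.on j
    rw [ee_eq_eval] at h2
    exact h2
  exact ⟨h1, (monic_X_sub_C _).of_mul_monic_left (h1 ▸ c.wt.monic.map _)⟩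

theorem fgc_map_eval {R S : Type} [CommRing R] [CommRing S] (φ : R →+* S) (t : R) (a : R[X][X]) :
    (a.map (evalRingHom t)).map φ = (mp φ a).map (evalRingHom (φ t)) := by
  rw [Polynomial.map_map, coe_mapRingHom, Polynomial.map_map]
  congr 1
  ext <;> simp

/-- an integral element that is small on the fibres and off `T` reduces to zero -/
theorem fgc_red_zero (hP : BasP ψ c P) (hT : IsBasis ψ c P T) {a : O[X][X]}
    (hd : a.degree < c.δ) (hW : WL c.b c.w (Fintype.card J) a)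
    (h1 : ∀ j, (a.map (evalRingHom (P j).1) %ₘ cof c.χ (P j)).map ψ = 0)
    (h2 : ∀ j ∉ T, ψ (ee (P j) a) = 0) : mp ψ a = 0 := by
  have hm : (c.map ψ).χ.Monic := (c.map ψ).wt.monic
  rw [← Submodule.mem_bot κ, ← hT]
  refine ⟨⟨degree_map_le.trans_lt hd, hW.map ψ⟩, fun Q hQ => ?_⟩
  set u : κ[X] := ∏ j, (X - C (pm ψ (P j)).1) with hu
  have hum : u.Monic := monic_prod_of_monic _ _ fun j _ => monic_X_sub_C _
  have hr : u.rootMultiplicity Q.1 ≤ 1 := rootMultiplicity_le_one_of_separable (fgc_sep hP) _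
  have hs : ∀ j, (0 : ℤ) ≤ (Finsupp.single (pm ψ (P j)) (1 : ℤ)) Q := fun j => by
    rw [Finsupp.single_apply]
    split_ifs <;> simp
  have hs0 : (0 : ℤ) ≤ ∑ j ∈ T, (Finsupp.single (pm ψ (P j)) (1 : ℤ)) Q :=
    Finset.sum_nonneg fun j _ => hs j
  rw [Finsupp.sub_apply, Finsupp.finsetSum_apply, dv_C (c.map ψ).wt hum]
  by_cases hE : Et (c.map ψ).χ Q
  swap
  · rw [if_neg hE, Int.toNat_eq_zero.2 (by omega)]
    exact van_zero
  rw [if_pos hE]
  by_cases h0 : (u.rootMultiplicity Q.1 : ℤ) -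
    ∑ j ∈ T, (Finsupp.single (pm ψ (P j)) (1 : ℤ)) Q ≤ 0
  · rw [Int.toNat_eq_zero.2 h0]
    exact van_zero
  refine Van.mono ((van_one hm hE).2 ?_) (by omega)
  have hroot : u.IsRoot Q.1 :=
    (rootMultiplicity_pos hum.ne_zero).1 (by omega)
  rw [IsRoot.def, hu, eval_prod, Finset.prod_eq_zero_iff] at hroot
  obtain ⟨j, -, hj⟩ := hroot
  have hj1 : Q.1 = ψ (P j).1 := by simpa [pm, sub_eq_zero] using hj
  by_cases hj2 : Q.2 = ψ (P j).2
  · have hQP : pm ψ (P j) = Q := Prod.ext hj1.symm hj2.symm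
    have hjT : j ∉ T := fun hjT => by
      have h3 := Finset.single_le_sum (fun i _ => hs i) hjT
      rw [hQP, Finsupp.single_eq_same] at h3
      omega
    rw [← hQP, ← map_ee]
    exact h2 j hjT
  · have h3 : ee Q (mp ψ c.χ) = 0 := hE.1
    rw [ee_eq_eval, hj1, ← fgc_map_eval, ← (fgc_cof hP j).1, Polynomial.map_mul, eval_mul] at h3
    have h4 : ((cof c.χ (P j)).map ψ).eval Q.2 = 0 := by
      refine (mul_eq_zero.1 h3).resolve_left ?_
      simpa [sub_eq_zero] using hj2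
    rw [ee_eq_eval, hj1, ← fgc_map_eval,
      ← modByMonic_add_div (a.map (evalRingHom (P j).1)) (cof c.χ (P j)), Polynomial.map_add,
      h1 j, zero_add, Polynomial.map_mul, eval_mul, h4, zero_mul]

theorem fgc_exists_max (a : L[X][X]) :
    ∃ i k, ∀ i' k', ‖(a.coeff i').coeff k'‖ ≤ ‖(a.coeff i).coeff k‖ := by
  have hfin : (Function.support fun z : ℕ × ℕ => ‖(a.coeff z.1).coeff z.2‖).Finite := by
    refine (a.support.biUnion fun i => (a.coeff i).support.image fun k => (i, k)).finite_toSet.subset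
      fun z hz => ?_
    have h1 : (a.coeff z.1).coeff z.2 ≠ 0 := fun e => hz (by simp [e])
    have h2 : a.coeff z.1 ≠ 0 := fun e => h1 (by simp [e])
    simp only [Finset.coe_biUnion, Finset.mem_coe, Polynomial.mem_support_iff, Finset.coe_image,
      Set.mem_iUnion, Set.mem_image]
    exact ⟨z.1, h2, z.2, h1, rfl⟩
  obtain ⟨z, -, hz⟩ := Set.exists_max_image _ (fun z : ℕ × ℕ => ‖(a.coeff z.1).coeff z.2‖)
    (hfin.insert (0, 0)) ⟨_, Set.mem_insert _ _⟩
  refine ⟨z.1, z.2, fun i k => ?_⟩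
  by_cases h : ‖(a.coeff i).coeff k‖ = 0
  · rw [h]
    exact norm_nonneg _
  · exact hz (i, k) (Set.mem_insert_of_mem _ h)

/-- the reduction of an integral element of `Fib` that is small off `T` vanishes -/
theorem fib_small (hI : IntR ι ψ) (hP : BasP ψ c P) (hT : IsBasis ψ c P T) {a : L[X][X]}
    (hW : a ∈ Wsp c.b c.δ c.w (Fintype.card J)) {r : ℝ} (hr : 0 ≤ r)
    (h1 : ∀ j k, ‖(a.map (evalRingHom (ι (P j).1)) %ₘ (cof c.χ (P j)).map ι).coeff k‖ ≤ r)
    (h2 : ∀ j ∉ T, ‖ee (pm ι (P j)) a‖ ≤ r) : ∀ i k, ‖(a.coeff i).coeff k‖ ≤ r := by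
  obtain ⟨i, k, hmax⟩ := fgc_exists_max a
  suffices h : ‖(a.coeff i).coeff k‖ ≤ r from fun i' k' => (hmax i' k').trans h
  by_contra hlt
  rw [not_le] at hlt
  set d := (a.coeff i).coeff k with hd
  have hdp : 0 < ‖d‖ := hr.trans_lt hlt
  have hd0 : d ≠ 0 := norm_pos_iff.1 hdp
  have small : ∀ y : L, ‖y‖ ≤ r → ‖d⁻¹ * y‖ < 1 := fun y hy => by
    rw [norm_mul, norm_inv, inv_mul_lt_iff₀ hdp, mul_one]
    exact hy.trans_lt hlt
  have hW' : d⁻¹ • a ∈ Wsp c.b c.δ c.w (Fintype.card J) := Submodule.smul_mem _ _ hW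
  obtain ⟨a0, ha0, hw0⟩ := WL.exists_lift (φ := ι) hW'.2 fun i' k' => (hI.range _).1 (by
    rw [coeff_smul, coeff_smul, smul_eq_mul, norm_mul, norm_inv, inv_mul_le_iff₀ hdp, mul_one]
    exact hmax i' k')
  have hdeg : a0.degree < c.δ := by
    have h3 := hW'.1
    rw [← ha0, coe_mapRingHom, degree_map_eq_of_injective (map_injective ι hI.inj)] at h3
    exact h3
  have hC : d⁻¹ • a = C (C d⁻¹) * a := by
    rw [Algebra.smul_def]
    rfl
  have h0 := fgc_red_zero hP hT hdeg hw0 (fun j => ?_) (fun j hj => ?_)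
  · have h3 : ι ((a0.coeff i).coeff k) = 1 := by
      have h4 := congrArg (fun s : L[X][X] => (s.coeff i).coeff k) ha0
      simp only [coe_mapRingHom, coeff_map, coeff_smul, smul_eq_mul] at h4
      rw [h4, inv_mul_cancel₀ hd0]
    have h4 := congrArg (fun s : κ[X][X] => (s.coeff i).coeff k) h0
    simp only [coe_mapRingHom, coeff_map, coeff_zero] at h4
    have h5 := (hI.res _).1 h4
    rw [h3, norm_one] at h5
    exact lt_irrefl _ h5
  · ext n
    rw [coeff_map, coeff_zero, hI.res, ← coeff_map, map_modByMonic _ (fgc_cof hP j).2,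
      fgc_map_eval, ha0, hC, Polynomial.map_mul, map_C, coe_evalRingHom, eval_C, ← smul_eq_C_mul,
      smul_modByMonic, coeff_smul, smul_eq_mul]
    exact small _ (h1 j n)
  · rw [hI.res, map_ee, ha0, hC, map_mul, ee_C, eval_C]
    exact small _ (h2 j hj)

theorem fgc_norm_eval {p : L[X]} {r : ℝ} (hr : 0 ≤ r) (h : ∀ k, ‖p.coeff k‖ ≤ r) {t : L}
    (ht : ‖t‖ ≤ 1) : ‖p.eval t‖ ≤ r := by
  rw [eval_eq_sum_range]
  refine IsUltrametricDist.norm_sum_le_of_forall_le_of_nonneg hr fun k _ => ?_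
  rw [norm_mul, norm_pow]
  exact (mul_le_of_le_one_right (norm_nonneg _) (pow_le_one₀ (norm_nonneg _) ht)).trans (h k)

theorem Tan.norm_le (hI : IntR ι ψ) (hP : BasP ψ c P) (hT : IsBasis ψ c P T) {x : J → L}
    (hx : Tan ι c P x) {r : ℝ} (hr : 0 ≤ r) (h : ∀ j ∉ T, ‖x j‖ ≤ r) : ‖x‖ ≤ r := by
  obtain ⟨a, ⟨hW, hdv⟩, hx⟩ := hx
  have e : ∀ j, ‖x j‖ = ‖ee (pm ι (P j)) a‖ := fun j => by
    have h1 := congrArg norm (eq_neg_of_add_eq_zero_left (hx j))
    rwa [norm_neg, norm_mul, norm_mul, (hP.norm_der hI j).2, hI.norm_eq_one.1 (hP.good j),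
      mul_one, one_mul] at h1
  have hc := fib_small hI hP hT hW hr (fun j k => by
    rw [(modByMonic_eq_zero_iff_dvd ((fgc_cof hP j).2.map ι)).2 (hdv j), coeff_zero, norm_zero]
    exact hr) (fun j hj => e j ▸ h j hj)
  refine (pi_norm_le_iff_of_nonneg hr).2 fun j => ?_
  rw [e, ee_eq_eval]
  refine fgc_norm_eval hr (fun k => ?_) (hI.norm_le (P j).2)
  rw [coeff_map]
  exact fgc_norm_eval hr (hc k) (hI.norm_le (P j).1)

end Pool.Agent.ZeroCyc
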