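import Pool.Agent.Lib.MP_796ce4_ag.ZY.FgC

/-! Solving for the displacement of a basis. -/

namespace Pool.Agent.ZeroCyc

open Polynomial Module
open scoped Classical IntermediateField PowerSeries

set_option linter.unusedSectionVars false

variable {L O κ J : Type} [NormedField L] [IsUltrametricDist L] [CompleteSpace L] [CommRing O]
  [Field κ] [IsAlgClosed κ] [Fintype J] {ι : O →+* L} {ψ : O →+* κ} {c : Cv O} {P : J → O × O}
  {T : Finset J}

/-- the monomials of bounded weight -/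
abbrev fgd_Idx (δ b w n : ℕ) : Type := Σ i : Fin δ, Fin (n - (w + b * i))

section mon

variable {δ b w n : ℕ}

/-- the monomial with index `p` -/
noncomputable def fgd_mon (O : Type) [CommRing O] (p : fgd_Idx δ b w n) : O[X][X] :=
  monomial p.1 (monomial p.2 1)

/-- the polynomial with coefficients `α` -/
noncomputable def fgd_A (ι : O →+* L) (α : fgd_Idx δ b w n → L) : L[X][X] :=
  ∑ p, α p • mp ι (fgd_mon O p)

theorem fgd_smul (r : L) (a : L[X][X]) : r • a = C (C r) * a := by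
  rw [Algebra.smul_def]; rfl

theorem fgd_coeff_mon (p : fgd_Idx δ b w n) (i k : ℕ) :
    ((mp ι (fgd_mon O p)).coeff i).coeff k = if (p.1 : ℕ) = i ∧ (p.2 : ℕ) = k then 1 else 0 := by
  simp only [fgd_mon, coe_mapRingHom, Polynomial.map_monomial, map_one, coeff_monomial]
  by_cases h1 : (p.1 : ℕ) = i
  · by_cases h2 : (p.2 : ℕ) = k <;> simp [h1, h2, coeff_monomial]
  · simp [h1]

theorem fgd_mem (α : fgd_Idx δ b w n → L) : fgd_A ι α ∈ Wsp b δ w n := by
  refine Submodule.sum_mem _ fun p _ => Submodule.smul_mem _ _ ⟨?_, fun i k h => ?_⟩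
  · rw [degree_lt_iff_coeff_zero]
    intro i hi
    ext k
    rw [fgd_coeff_mon, if_neg, coeff_zero]
    have := p.1.2
    omega
  · rw [fgd_coeff_mon] at h
    have h1 : (p.1 : ℕ) = i ∧ (p.2 : ℕ) = k := by
      by_contra h2
      exact h (if_neg h2)
    have := p.2.2
    rw [h1.2, h1.1] at this
    omega

theorem fgd_coeff (α : fgd_Idx δ b w n → L) (p : fgd_Idx δ b w n) :
    ((fgd_A ι α).coeff p.1).coeff p.2 = α p := by
  unfold fgd_A
  rw [finsetSum_coeff, finsetSum_coeff, Finset.sum_eq_single p]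
  · rw [coeff_smul, coeff_smul, fgd_coeff_mon, if_pos ⟨rfl, rfl⟩, smul_eq_mul, mul_one]
  · rintro ⟨i, k⟩ _ hq
    rw [coeff_smul, coeff_smul, fgd_coeff_mon, if_neg, smul_zero]
    obtain ⟨i', k'⟩ := p
    rintro ⟨h1, h2⟩
    obtain rfl : i = i' := Fin.ext h1
    obtain rfl : k = k' := Fin.ext h2
    exact hq rfl
  · intro h
    exact absurd (Finset.mem_univ p) h

theorem fgd_ee (α : fgd_Idx δ b w n → L) (Q : L × L) :
    ee Q (fgd_A ι α) = ∑ p, e2 ι Q.1 Q.2 (fgd_mon O p) * α p := by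
  unfold fgd_A
  rw [map_sum]
  refine Finset.sum_congr rfl fun p _ => ?_
  rw [fgd_smul, map_mul, ee_C, eval_C, ee_mp, mul_comm]

theorem fgd_mod (α : fgd_Idx δ b w n → L) (t : O) {q : O[X]} (hq : q.Monic) (k : ℕ) :
    ((fgd_A ι α).map (evalRingHom (ι t)) %ₘ q.map ι).coeff k =
      ∑ p, ι (((fgd_mon O p).map (evalRingHom t) %ₘ q).coeff k) * α p := by
  have e : (evalRingHom (ι t)).comp (mapRingHom ι) = ι.comp (evalRingHom t) := by
    refine Polynomial.ringHom_ext (fun a => ?_) ?_ <;> simp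
  unfold fgd_A
  rw [Polynomial.map_sum, ← modByMonicHom_apply, map_sum, finsetSum_coeff]
  refine Finset.sum_congr rfl fun p _ => ?_
  have e1 : (α p • mp ι (fgd_mon O p)).map (evalRingHom (ι t)) =
      α p • ((fgd_mon O p).map (evalRingHom t)).map ι := by
    rw [fgd_smul, Polynomial.map_mul, map_C, coe_mapRingHom, Polynomial.map_map, e,
      Polynomial.map_map, smul_eq_C_mul]
    simp
  rw [e1, map_smul, modByMonicHom_apply, ← map_modByMonic ι hq, coeff_smul, coeff_map,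
    smul_eq_mul, mul_comm]

theorem fgd_lift (β : fgd_Idx δ b w n → O) :
    mp ι (∑ p, C (C (β p)) * fgd_mon O p) = fgd_A ι fun p => ι (β p) := by
  unfold fgd_A
  rw [map_sum]
  refine Finset.sum_congr rfl fun p _ => ?_
  rw [map_mul, mp_C, map_C, fgd_smul]

end mon

theorem fgd_cof (hP : BasP ψ c P) (ι : O →+* L) (j : J) :
    (cof c.χ (P j)).Monic ∧ (cof c.χ (P j)).natDegree = c.δ - 1 := by
  have : Nontrivial O := ι.domain_nontrivial
  have hm : (c.χ.map (evalRingHom (P j).1)).Monic := c.wt.monic.map _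
  have hr : (c.χ.map (evalRingHom (P j).1)).IsRoot (P j).2 := by
    have := hP.on j
    rwa [On, ee_eq_eval] at this
  constructor
  · have e := mul_divByMonic_eq_iff_isRoot.2 hr
    rw [← e] at hm
    exact (monic_X_sub_C _).of_mul_monic_left hm
  · rw [cof, natDegree_divByMonic _ (monic_X_sub_C _), natDegree_X_sub_C,
      c.wt.monic.natDegree_map, c.wt.deg]

theorem fgd_mod_high (hP : BasP ψ c P) (ι : O →+* L) (j : J) (a : L[X]) {k : ℕ}
    (hk : c.δ - 1 ≤ k) : (a %ₘ (cof c.χ (P j)).map ι).coeff k = 0 := by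
  have : Nontrivial O := ι.domain_nontrivial
  obtain ⟨h1, h2⟩ := fgd_cof hP ι j
  have hm := h1.map ι
  refine coeff_eq_zero_of_degree_lt ((degree_modByMonic_lt a hm).trans_le ?_)
  rw [degree_eq_natDegree hm.ne_zero, h1.natDegree_map, h2]
  exact_mod_cast hk

section sd

variable {I : Type} [Fintype I]

/-- a linear form in the first block of coordinates -/
noncomputable def fgd_lin (J : Type) (r : I → L) : ((I → L) × (J → L)) →ₗ[L] L :=
  ∑ p, r p • (LinearMap.proj p ∘ₗ LinearMap.fst L (I → L) (J → L))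

theorem fgd_lin_apply (r : I → L) (z : (I → L) × (J → L)) :
    fgd_lin J r z = ∑ p, r p * z.1 p := by
  simp [fgd_lin]

theorem fgd_sd_fst (p : I) : SD (fun z : (I → L) × (J → L) => z.1 p)
    (LinearMap.proj p ∘ₗ LinearMap.fst L (I → L) (J → L)) :=
  sd_linear (ℓ := LinearMap.proj p ∘ₗ LinearMap.fst L (I → L) (J → L))
    fun z => (norm_le_pi_norm z.1 p).trans (norm_fst_le z)

theorem fgd_sd_snd (j : J) : SD (fun z : (I → L) × (J → L) => z.2 j)
    (LinearMap.proj j ∘ₗ LinearMap.snd L (I → L) (J → L)) :=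
  sd_linear (ℓ := LinearMap.proj j ∘ₗ LinearMap.snd L (I → L) (J → L))
    fun z => (norm_le_pi_norm z.2 j).trans (norm_snd_le z)

theorem fgd_sd_lin {r : I → L} (hr : ∀ p, ‖r p‖ ≤ 1) : SD (fgd_lin J r) (fgd_lin J r) :=
  sd_linear (SD.sum (s := Finset.univ) fun p _ => (fgd_sd_fst (J := J) p).smul (hr p)).le

/-- the value of `u + ρ a` at the moved point -/
theorem fgd_sd_G (hI : IntR ι ψ) (hP : BasP ψ c P) (m : I → O[X][X]) (j : J) :
    SD (fun z : (I → L) × (J → L) => (uP P).eval₂ ι (ι (P j).1 + z.2 j) +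
        c.ρ.eval₂ ι (ι (P j).1 + z.2 j) *
          ∑ p, e2 ι (ι (P j).1 + z.2 j) (hn ι c.χ (P j) (z.2 j)) (m p) * z.1 p)
      (ι ((derivative (uP P)).eval (P j).1) •
          (LinearMap.proj j ∘ₗ LinearMap.snd L (I → L) (J → L)) +
        ι (c.ρ.eval (P j).1) • fgd_lin J fun p => e2 ι (ι (P j).1) (ι (P j).2) (m p)) := by
  have hι := hI.norm_le
  have h0 : ‖(0 : L)‖ ≤ 1 := by simp
  have hx := fgd_sd_snd (L := L) (I := I) j
  have h1 := (sd_eval₂ hι (hι (P j).1) (uP P)).comp hx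
  have h2 := (sd_eval₂ hι (hι (P j).1) c.ρ).comp hx
  obtain ⟨-, l, hl⟩ := sd_hn hI hP j
  have h3 := hx.prod (hl.comp hx)
  have h4 : ∀ p, SD (fun z : (I → L) × (J → L) =>
      e2 ι (ι (P j).1 + z.2 j) (hn ι c.χ (P j) (z.2 j)) (m p) * z.1 p)
      (e2 ι (ι (P j).1) (ι (P j).2) (m p) •
        (LinearMap.proj p ∘ₗ LinearMap.fst L (I → L) (J → L))) := by
    intro p
    obtain ⟨A, -, hA⟩ := sd_e2 hι (hι (P j).1) (hι (P j).2) (m p)
    refine ((hA.comp h3).mul (fgd_sd_fst (J := J) p)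
      (norm_e2_le hι (hι (P j).1) (hι (P j).2) (m p)) h0).congr (fun z _ => ?_) ?_
    · simp
    · rw [zero_smul, add_zero]
  have h5 := SD.sum (s := Finset.univ) fun p _ => h4 p
  have hρ : ‖c.ρ.eval₂ ι (ι (P j).1)‖ ≤ 1 := by
    rw [eval₂_at_apply]
    exact hι _
  have hu : (uP P).eval₂ ι (ι (P j).1) = 0 := by
    rw [eval₂_at_apply, uP, eval_prod, Finset.prod_eq_zero (Finset.mem_univ j) (by simp),
      map_zero]
  refine (h1.add (h2.mul h5 hρ h0)).congr (fun z _ => ?_) ?_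
  · rw [hu]
    ring
  · rw [zero_smul, add_zero, eval₂_at_apply, eval₂_at_apply, LinearMap.smul_comp,
      LinearMap.id_comp]
    rfl

end sd

theorem fgd_ex {E F : Type} [NormedAddCommGroup E] [NormedSpace L E] [NormedAddCommGroup F]
    [NormedSpace L F] {f : E → F} {l : E →ₗ[L] F} (h : SD f l) : ∃ ℓ, l = ℓ ∧ SD f ℓ := ⟨l, rfl, h⟩

theorem fgd_cancel {a x y : L} {r : ℝ} (ha : ‖a‖ = 1) (h : ‖a * x + y‖ ≤ r) (hy : ‖y‖ ≤ r) :
    ‖x‖ ≤ r := by
  have e : a * x = (a * x + y) + -y := by ring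
  have := IsUltrametricDist.norm_add_le_max (a * x + y) (-y)
  rw [← e, norm_mul, ha, one_mul, norm_neg] at this
  exact this.trans (max_le h hy)

theorem exists_rel (hI : IntR ι ψ) (hP : BasP ψ c P) (hT : IsBasis ψ c P T) (hc : T.card = c.g0)
    (hδ : 0 < c.δ) (hJ : c.w + c.b * c.δ ≤ Fintype.card J) :
    ∃ (Φ : (J → L) → J → L) (ℓ : (J → L) →ₗ[L] J → L), SD Φ ℓ ∧
      (∀ x, ‖x‖ < 1 → Rel ι c P (Φ x) ∧ ∀ j ∉ T, Φ x j = x j) ∧
        ∀ x, Tan ι c P (ℓ x) ∧ ∀ j ∉ T, ℓ x j = x j := by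
  have hι := hI.norm_le
  let I := fgd_Idx c.δ c.b c.w (Fintype.card J)
  let ev : J → I → L := fun j p => e2 ι (ι (P j).1) (ι (P j).2) (fgd_mon O p)
  let md : J → Fin (c.δ - 1) → I → L := fun j k p =>
    ι (((fgd_mon O p).map (evalRingHom (P j).1) %ₘ cof c.χ (P j)).coeff k)
  have s1 := SD.pi fun j : {j // j ∉ T} => fgd_sd_snd (L := L) (I := I) j.1
  have s2 := SD.pi fun j : J => fgd_sd_G hI hP (fun p : I => fgd_mon O p) j
  have s3 := SD.pi fun j : J => SD.pi fun k : Fin (c.δ - 1) =>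
    fgd_sd_lin (J := J) (r := md j k) fun p => hι _
  obtain ⟨ℓ, hℓ, s⟩ := fgd_ex ((s1.prod s2).prod s3)
  have l1 : ∀ z j, (ℓ z).1.1 j = z.2 j.1 := fun z j => by rw [← hℓ]; rfl
  have l2 : ∀ z j, (ℓ z).1.2 j = ι ((derivative (uP P)).eval (P j).1) * z.2 j +
      ι (c.ρ.eval (P j).1) * ee (pm ι (P j)) (fgd_A ι z.1) := fun z j => by
    rw [← hℓ, fgd_ee]
    show _ + _ * fgd_lin J (ev j) z = _
    rw [fgd_lin_apply]
    rfl
  have l3 : ∀ z j (k : Fin (c.δ - 1)), fgd_lin J (md j k) z = ((fgd_A ι z.1).map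
      (evalRingHom (ι (P j).1)) %ₘ (cof c.χ (P j)).map ι).coeff k := fun z j k => by
    rw [fgd_mod _ _ (fgd_cof hP ι j).1, fgd_lin_apply]
  have l4 : ∀ z j k, (ℓ z).2 j k = fgd_lin J (md j k) z := fun z j k => by rw [← hℓ]; rfl
  have hρ : ∀ j, ‖ι (c.ρ.eval (P j).1)‖ = 1 := fun j => hI.norm_eq_one.1 (hP.good j)
  have hiso : ∀ z, ‖ℓ z‖ = ‖z‖ := by
    intro z
    refine le_antisymm (s.le z) ?_
    have hr := norm_nonneg (ℓ z)
    have b2 : ∀ j, ‖(ℓ z).1.2 j‖ ≤ ‖ℓ z‖ := fun j =>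
      ((norm_le_pi_norm _ j).trans (norm_snd_le _)).trans (norm_fst_le _)
    have hα : ‖z.1‖ ≤ ‖ℓ z‖ := by
      refine (pi_norm_le_iff_of_nonneg hr).2 fun p => ?_
      rw [← fgd_coeff (ι := ι) z.1 p]
      refine fib_small hI hP hT (fgd_mem z.1) hr (fun j k => ?_) (fun j hj => ?_) _ _
      · by_cases hk : k < c.δ - 1
        · rw [← l3 z j ⟨k, hk⟩, ← l4]
          exact ((norm_le_pi_norm _ _).trans (norm_le_pi_norm _ j)).trans (norm_snd_le _)
        · rw [fgd_mod_high hP ι j _ (not_lt.1 hk), norm_zero]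
          exact hr
      · have b := b2 j
        rw [l2, add_comm] at b
        refine fgd_cancel (hρ j) b ?_
        rw [norm_mul, (hP.norm_der hI j).2, one_mul, ← l1 z ⟨j, hj⟩]
        exact ((norm_le_pi_norm _ _).trans (norm_fst_le _)).trans (norm_fst_le _)
    rw [Prod.norm_def]
    refine max_le hα ((pi_norm_le_iff_of_nonneg hr).2 fun j => ?_)
    have b := b2 j
    rw [l2] at b
    refine fgd_cancel (hP.norm_der hI j).2 b ?_
    rw [norm_mul, hρ j, one_mul, fgd_ee]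
    have h1 := (fgd_sd_lin (J := J) (r := ev j) fun p =>
      norm_e2_le hι (hι (P j).1) (hι (P j).2) _).le (z.1, 0)
    rw [fgd_lin_apply, Prod.norm_def, norm_zero, max_eq_left (norm_nonneg _)] at h1
    exact h1.trans hα
  have hsurj : Function.Surjective ℓ := by
    refine (LinearMap.injective_iff_surjective_of_finrank_eq_finrank ?_).1 ?_
    · have e1 := finrank_Wsp_eq (𝕜 := L) hJ
      rw [finrank_Wsp] at e1
      have e2 : Fintype.card I =
          ∑ i ∈ Finset.range c.δ, (Fintype.card J - (c.w + c.b * i)) := by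
        rw [Fintype.card_sigma, Finset.sum_range]
        simp only [Fintype.card_fin]
      have e3 : Fintype.card {j // j ∉ T} = Fintype.card J - T.card := by
        rw [Fintype.card_subtype_compl, Fintype.card_coe]
      have e4 : T.card ≤ Fintype.card J := Finset.card_le_univ T
      have e5 : Fintype.card J * (c.δ - 1) + Fintype.card J = c.δ * Fintype.card J := by
        rw [← Nat.mul_succ, Nat.succ_eq_add_one, Nat.sub_add_cancel hδ, mul_comm]
      simp only [finrank_prod, finrank_pi_fintype, finrank_self, Finset.sum_const,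
        Finset.card_univ, smul_eq_mul, mul_one, Fintype.card_fin]
      rw [e2, e3]
      unfold Cv.g0 at hc
      omega
    · rw [injective_iff_map_eq_zero]
      intro z hz
      rw [← norm_eq_zero, ← hiso, hz, norm_zero]
  obtain ⟨g, m, hg, m1, -, g1, -⟩ := s.inverse hiso hsurj
  let emb : (J → L) →ₗ[L] ((({j // j ∉ T} → L) × (J → L)) × (J → Fin (c.δ - 1) → L)) :=
    ((LinearMap.pi fun j : {j // j ∉ T} => LinearMap.proj j.1).prod 0).prod 0
  have hemb : ∀ x, ‖emb x‖ ≤ ‖x‖ := fun x => by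
    rw [Prod.norm_def, Prod.norm_def]
    refine max_le (max_le ((pi_norm_le_iff_of_nonneg (norm_nonneg x)).2 fun j =>
      norm_le_pi_norm x j.1) ?_) ?_
    · exact (norm_zero (E := J → L)).le.trans (norm_nonneg x)
    · exact (norm_zero (E := J → Fin (c.δ - 1) → L)).le.trans (norm_nonneg x)
  have hfib : ∀ z : (I → L) × (J → L), (∀ j k, fgd_lin J (md j k) z = 0) →
      Fib ι c P (fgd_A ι z.1) := by
    refine fun z hz => ⟨fgd_mem z.1, fun j => ?_⟩
    rw [← modByMonic_eq_zero_iff_dvd ((fgd_cof hP ι j).1.map ι)]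
    ext k
    by_cases hk : k < c.δ - 1
    · rw [← l3 z j ⟨k, hk⟩, hz, coeff_zero]
    · rw [fgd_mod_high hP ι j _ (not_lt.1 hk), coeff_zero]
  refine ⟨fun x => (g (emb x)).2, LinearMap.snd L (I → L) (J → L) ∘ₗ m ∘ₗ emb,
    (sd_linear (ℓ := LinearMap.snd L (I → L) (J → L)) norm_snd_le).comp
      (hg.comp (sd_linear hemb)), fun x hx => ?_, fun x => ?_⟩
  · have hy : ‖emb x‖ < 1 := (hemb x).trans_lt hx
    have e := g1 _ hy
    have hz : ‖g (emb x)‖ < 1 := (hg.norm_le hy).trans_lt hy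
    show Rel ι c P (g (emb x)).2 ∧ ∀ j ∉ T, (g (emb x)).2 j = x j
    generalize g (emb x) = z at e hz
    have hβ : ∀ p, ∃ β, ι β = z.1 p := fun p =>
      (hI.range _).1 (((norm_le_pi_norm z.1 p).trans (norm_fst_le z)).trans hz.le)
    choose β hβ using hβ
    have ea : mp ι (∑ p, C (C (β p)) * fgd_mon O p) = fgd_A ι z.1 := by
      rw [fgd_lift, funext hβ]
    refine ⟨⟨∑ p, C (C (β p)) * fgd_mon O p, ?_, fun j => ?_⟩,
      fun j hj => congrFun (congrArg (fun y => y.1.1) e) ⟨j, hj⟩⟩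
    · rw [ea]
      exact hfib z fun j k => congrFun (congrFun (congrArg Prod.snd e) j) k
    · have e2' := ee_mp ι (ι (P j).1 + z.2 j, hn ι c.χ (P j) (z.2 j))
        (∑ p, C (C (β p)) * fgd_mon O p)
      rw [ea, fgd_ee] at e2'
      rw [Cv.G, map_add, map_mul, e2_C, e2_C, ← e2']
      exact congrFun (congrArg (fun y => y.1.2) e) j
  · have e := m1 (emb x)
    show Tan ι c P (m (emb x)).2 ∧ ∀ j ∉ T, (m (emb x)).2 j = x j
    generalize m (emb x) = z at e
    refine ⟨⟨fgd_A ι z.1, hfib z fun j k => ?_, fun j => ?_⟩, fun j hj => ?_⟩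
    · rw [← l4, e]
      rfl
    · rw [mul_comm (z.2 j), ← l2, e]
      rfl
    · rw [← l1 z ⟨j, hj⟩, e]
      rfl

end Pool.Agent.ZeroCyc
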