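import Pool.Agent.Lib.MP_796ce4_ag.ZY.FgB
import Pool.Agent.Lib.MP_796ce4_ag.ZY.FgD

/-! The formal group of the generalised Jacobian. -/

namespace Pool.Agent.ZeroCyc

open Polynomial Module
open scoped Classical IntermediateField PowerSeries

set_option linter.unusedSectionVars false

variable {L O κ J 𝕜 V : Type} [NormedField L] [IsUltrametricDist L] [CompleteSpace L] [CommRing O]
  [Field κ] [IsAlgClosed κ] [Fintype J] [Field 𝕜] [IsAlgClosed 𝕜] [AddCommGroup V]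
  {ι : O →+* L} {ψ : O →+* κ} {c : Cv O} {P : J → O × O}

/-- the moved point minus the base point -/
noncomputable def mv (ι : O →+* L) (e : L →+* 𝕜) (χ : O[X][X]) (P : O × O) (x : L) :
    𝕜 × 𝕜 →₀ ℤ :=
  Finsupp.single (e (ι P.1 + x), e (hn ι χ P x)) 1 - Finsupp.single (pm (e.comp ι) P) 1

theorem fge_map {R S : Type} [CommRing R] [CommRing S] (φ : R →+* S) (t : R) (a : R[X][X]) :
    (mp φ a).map (evalRingHom (φ t)) = (a.map (evalRingHom t)).map φ := by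
  ext i
  simp [coeff_map, eval_map]

theorem fge_near (hI : IntR ι ψ) (hP : BasP ψ c P) {j k : J} {x y : L} (hx : ‖x‖ < 1)
    (hy : ‖y‖ < 1) (h : ι (P j).1 + x = ι (P k).1 + y) : j = k := by
  apply hP.inj
  have h1 : ι ((P j).1 - (P k).1) = y + -x := by
    rw [map_sub]
    linear_combination h
  have h2 : ψ ((P j).1 - (P k).1) = 0 := by
    rw [hI.res, h1]
    refine (IsUltrametricDist.norm_add_le_max _ _).trans_lt (max_lt hy ?_)
    rwa [norm_neg]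
  rw [map_sub] at h2
  exact sub_eq_zero.1 h2

theorem fge_rho (hI : IntR ι ψ) (hP : BasP ψ c P) (e : L →+* 𝕜) (j : J) {x : L} (hx : ‖x‖ < 1) :
    (c.ρ.map (e.comp ι)).eval (e (ι (P j).1 + x)) ≠ 0 := by
  rw [eval_map, ← hom_eval₂, map_ne_zero_iff _ e.injective]
  intro h0
  have h1 := (sd_eval₂ hI.norm_le (hI.norm_le (P j).1) c.ρ).norm_le hx
  rw [h0, zero_sub, norm_neg, eval₂_at_apply, hI.norm_eq_one.1 (hP.good j)] at h1
  exact absurd hx (not_lt.2 h1)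

theorem fge_deg [Nontrivial O] (P : J → O × O) :
    (uP P).Monic ∧ (uP P).natDegree = Fintype.card J := by
  refine ⟨monic_prod_of_monic _ _ fun j _ => monic_X_sub_C _, ?_⟩
  rw [uP, natDegree_prod_of_monic _ _ fun j _ => monic_X_sub_C _]
  simp

theorem fge_degree {T A : Type} (s : Finset T) (Q : T → A) :
    (∑ t ∈ s, Finsupp.single (Q t) (1 : ℤ)).degree = s.card := by
  rw [map_sum]
  simp

theorem Rel.dv (hI : IntR ι ψ) (hP : BasP ψ c P) (e : L →+* 𝕜) {x : J → L} (hx : ‖x‖ < 1)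
    (h : Rel ι c P x) : ∃ a, c.Wit (uP P) a ∧
      dv (mp (e.comp ι) c.χ) (mp (e.comp ι) (c.G (uP P) a)) -
        dv (mp (e.comp ι) c.χ) (mp (e.comp ι) (C (uP P))) = ∑ j, mv ι e c.χ (P j) (x j) := by
  obtain ⟨a, ⟨hW, hF⟩, hz⟩ := h
  have : Nontrivial O := ι.domain_nontrivial
  obtain ⟨hm, hd⟩ := fge_deg P
  have hxj : ∀ j, ‖x j‖ < 1 := fun j => (norm_le_pi_norm x j).trans_lt hx
  have hwit : c.Wit (uP P) a := by
    refine ⟨hm, hP.cop hI, fun i k hik => ?_⟩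
    rw [hd]
    refine hW.2 i k fun h0 => hik (hI.inj ?_)
    simpa [coeff_map] using h0
  refine ⟨a, hwit, ?_⟩
  set φ : O →+* 𝕜 := e.comp ι with hφ
  have hwt : Wt c.b c.δ (mp φ c.χ) := c.wt.map φ
  have h00 : ‖(0 : L)‖ < 1 := by simp
  have het : ∀ (j : J) (ξ : L) (y : 𝕜), ‖ξ‖ < 1 → On (mp φ c.χ) (e (ι (P j).1 + ξ), y) →
      Et (mp φ c.χ) (e (ι (P j).1 + ξ), y) := fun j ξ y hξ hon =>
    Cv.Gp.et (c := c.map φ) ⟨hon, fge_rho hI hP e j hξ⟩
  have ht : ∀ j, φ (P j).1 = e (ι (P j).1 + 0) := fun j => by rw [add_zero]; rfl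
  have het0 : ∀ (j : J) (y : 𝕜), On (mp φ c.χ) (φ (P j).1, y) → Et (mp φ c.χ) (φ (P j).1, y) := by
    intro j y
    rw [ht]
    exact het j 0 y h00
  choose s hs1 hs2 hs3 using fun j => card_fibre hwt (het0 j)
  have hy : ∀ j, φ (P j).2 ∈ s j := by
    intro j
    rw [hs2]
    have h1 := map_ee φ (P j) c.χ
    rw [hP.on j, map_zero] at h1
    exact h1.symm
  let S : Finset (Σ _ : J, 𝕜) := Finset.univ.sigma s
  have hS : (S.card : ℤ) = c.δ * (uP P).natDegree := by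
    rw [Finset.card_sigma, hd]
    simp [hs1, mul_comm]
  have memS : ∀ q ∈ S, q.2 ∈ s q.1 := fun q hq => (Finset.mem_sigma.1 hq).2
  let Q0 : (Σ _ : J, 𝕜) → 𝕜 × 𝕜 := fun q => (φ (P q.1).1, q.2)
  let Q1 : (Σ _ : J, 𝕜) → 𝕜 × 𝕜 := fun q =>
    if q.2 = φ (P q.1).2 then (e (ι (P q.1).1 + x q.1), e (hn ι c.χ (P q.1) (x q.1))) else Q0 q
  have hu0 : ∀ (j : J) (y : 𝕜), ee (φ (P j).1, y) (mp φ (C (uP P))) = 0 := by
    intro j y
    rw [mp_C, ee_C, eval_map, eval₂_at_apply, uP, eval_prod,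
      Finset.prod_eq_zero (Finset.mem_univ j) (by simp), map_zero]
  have e0 : ZeroCyc.dv (mp φ c.χ) (mp φ (C (uP P))) = ∑ q ∈ S, Finsupp.single (Q0 q) 1 := by
    refine (Lead.dv_eq hwt ((lead_C hm).map φ) (vanZ_sum hwt.monic ?_ ?_) ?_).1
    · rintro ⟨j, y⟩ _ ⟨k, y'⟩ _ hq
      obtain ⟨h1, h2⟩ := Prod.ext_iff.1 hq
      simp only [Q0] at h1 h2
      rw [ht, ht] at h1
      obtain rfl := fge_near hI hP h00 h00 (e.injective h1)
      rw [h2]
    · intro q hq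
      exact ⟨het0 _ _ ((hs2 _ _).1 (memS q hq)), hu0 _ _⟩
    · rw [fge_degree, hS]
  have e1 : ZeroCyc.dv (mp φ c.χ) (mp φ (c.G (uP P) a)) = ∑ q ∈ S, Finsupp.single (Q1 q) 1 := by
    refine (Lead.dv_eq hwt (hwit.lead.map φ) (vanZ_sum hwt.monic ?_ ?_) ?_).1
    · rintro ⟨j, y⟩ _ ⟨k, y'⟩ _ hq
      have key : ∀ (j k : J) (y : 𝕜), y ≠ φ (P k).2 →
          (e (ι (P j).1 + x j), e (hn ι c.χ (P j) (x j))) ≠ (φ (P k).1, y) := by
        intro j k y hne hq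
        obtain ⟨h1, h2⟩ := Prod.ext_iff.1 hq
        simp only at h1 h2
        rw [ht] at h1
        have h3 := e.injective h1
        obtain rfl := fge_near hI hP (hxj j) h00 h3
        rw [add_left_cancel h3, hn_zero hI hP] at h2
        exact hne h2.symm
      simp only [Q1, Q0] at hq
      split_ifs at hq with h1 h2 h2
      · obtain rfl := fge_near hI hP (hxj j) (hxj k) (e.injective (Prod.ext_iff.1 hq).1)
        rw [h1, h2]
      · exact absurd hq (key _ _ _ h2)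
      · exact absurd hq.symm (key _ _ _ h1)
      · obtain ⟨h3, h4⟩ := Prod.ext_iff.1 hq
        simp only at h3 h4
        rw [ht, ht] at h3
        obtain rfl := fge_near hI hP h00 h00 (e.injective h3)
        rw [h4]
    · rintro ⟨j, y⟩ hq
      have hyj : y ∈ s j := memS _ hq
      simp only [Q1, Q0]
      split_ifs with h1
      · refine ⟨het j _ _ (hxj j) ?_, ?_⟩
        · have h2 := congrArg e ((sd_hn hI hP j).1 _ (hxj j))
          rw [map_e2, map_zero] at h2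
          rw [On, ee_mp]
          exact h2
        · have h2 := congrArg e (hz j)
          rw [map_e2, map_zero] at h2
          rw [ee_mp]
          exact h2
      · have hon := (hs2 _ _).1 hyj
        refine ⟨het0 _ _ hon, ?_⟩
        have h2 : (X - C (P j).2) * cof c.χ (P j) = c.χ.map (evalRingHom (P j).1) := by
          rw [cof, mul_divByMonic_eq_iff_isRoot, IsRoot, ← ee_eq_eval]
          exact hP.on j
        have h3 : ((cof c.χ (P j)).map φ).eval y = 0 := by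
          rw [On, ee_eq_eval, fge_map, ← h2] at hon
          simp only [Polynomial.map_mul, Polynomial.map_sub, map_X, map_C, eval_mul, eval_sub,
            eval_X, eval_C] at hon
          exact (mul_eq_zero.1 hon).resolve_left (sub_ne_zero.2 h1)
        have h4 := Polynomial.map_dvd e (hF j)
        rw [Polynomial.map_map, ← fge_map, mp_mp] at h4
        have h5 : ee (φ (P j).1, y) (mp φ a) = 0 := by
          rw [ee_eq_eval]
          exact eval_eq_zero_of_dvd_of_eval_eq_zero h4 h3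
        rw [Cv.G, map_add, map_mul, map_add, map_mul, hu0, h5, mul_zero, add_zero]
    · rw [fge_degree, hS]
  rw [e0, e1, ← Finset.sum_sub_distrib, Finset.sum_sigma]
  refine Finset.sum_congr rfl fun j _ => ?_
  rw [Finset.sum_eq_single_of_mem _ (hy j)]
  · simp only [Q1, Q0, if_true]
    rfl
  · intro y _ hne
    simp only [Q1]
    rw [if_neg hne, sub_self]

theorem fge_enum {T : Finset J} {g : ℕ} (h : T.card = g) :
    ∃ t : Fin g → J, Function.Injective t ∧ ∀ j, j ∈ T ↔ ∃ i, t i = j := by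
  refine ⟨fun i => ((T.equivFinOfCardEq h).symm i : J), fun i k hik =>
    (T.equivFinOfCardEq h).symm.injective (Subtype.ext hik), fun j => ⟨fun hj => ?_, ?_⟩⟩
  · exact ⟨T.equivFinOfCardEq h ⟨j, hj⟩, by simp⟩
  · rintro ⟨i, rfl⟩
    exact Subtype.prop _

/-- extension by zero -/
theorem fge_ext {T : Finset J} {g : ℕ} {t : Fin g → J} (ht : Function.Injective t)
    (hT : ∀ j, j ∈ T ↔ ∃ i, t i = j) : ∃ E : (Fin g → L) →ₗ[L] J → L,
      (∀ z i, E z (t i) = z i) ∧ (∀ z, ∀ j ∉ T, E z j = 0) ∧ ∀ z, ‖E z‖ ≤ ‖z‖ := by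
  let E : (Fin g → L) →ₗ[L] J → L :=
    ∑ i, LinearMap.single L (fun _ : J => L) (t i) ∘ₗ LinearMap.proj i
  have hE : ∀ z j, E z j = ∑ i, if j = t i then z i else 0 := by
    intro z j
    simp [E, Pi.single_apply]
  have h1 : ∀ z i, E z (t i) = z i := by
    intro z i
    simp [hE, ht.eq_iff]
  have h2 : ∀ z, ∀ j ∉ T, E z j = 0 := by
    intro z j hj
    rw [hE]
    exact Finset.sum_eq_zero fun i _ => if_neg fun h => hj ((hT j).2 ⟨i, h.symm⟩)
  refine ⟨E, h1, h2, fun z => (pi_norm_le_iff_of_nonneg (norm_nonneg z)).2 fun j => ?_⟩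
  by_cases hj : j ∈ T
  · obtain ⟨i, rfl⟩ := (hT j).1 hj
    rw [h1]
    exact norm_le_pi_norm z i
  · rw [h2 z j hj, norm_zero]
    exact norm_nonneg z

theorem fge_sum {T : Finset J} {g : ℕ} {t : Fin g → J} (ht : Function.Injective t)
    (hT : ∀ j, j ∈ T ↔ ∃ i, t i = j) {f : J → V} (hf : ∀ j ∉ T, f j = 0) :
    ∑ j, f j = ∑ i, f (t i) := by
  refine (Finset.sum_of_injOn t ht.injOn (fun _ _ => Finset.mem_univ _) ?_ fun _ _ => rfl).symm
  intro j _ hj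
  refine hf j fun h => hj ?_
  obtain ⟨i, rfl⟩ := (hT j).1 h
  exact ⟨i, by simp, rfl⟩

theorem fge_res {g : ℕ} (t : Fin g → J) (x : J → L) : ‖LinearMap.funLeft L L t x‖ ≤ ‖x‖ :=
  (pi_norm_le_iff_of_nonneg (norm_nonneg x)).2 fun i => norm_le_pi_norm x (t i)

/-- a tangent relation supported on two disjoint bases -/
theorem fge_iso (hI : IntR ι ψ) (hP : BasP ψ c P) {T T' : Finset J} (hT : IsBasis ψ c P T)
    (hd : Disjoint T T') {g : ℕ} {t t' : Fin g → J} (ht : ∀ j, j ∈ T ↔ ∃ i, t i = j)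
    (ht' : ∀ j, j ∈ T' ↔ ∃ i, t' i = j) {x y : J → L} {z : Fin g → L} (hy : Tan ι c P y)
    (h1 : ∀ j ∉ T', y j = x j) (h2 : ∀ i, x (t i) = z i) (h3 : ∀ j ∉ T, x j = 0) :
    ‖z‖ ≤ ‖LinearMap.funLeft L L t' y‖ := by
  have h4 : ‖y‖ ≤ ‖LinearMap.funLeft L L t' y‖ := by
    refine hy.norm_le hI hP hT (norm_nonneg _) fun j hj => ?_
    by_cases hj' : j ∈ T'
    · obtain ⟨i, rfl⟩ := (ht' j).1 hj'
      exact norm_le_pi_norm (LinearMap.funLeft L L t' y) i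
    · rw [h1 j hj', h3 j hj, norm_zero]
      exact norm_nonneg _
  refine (pi_norm_le_iff_of_nonneg (norm_nonneg _)).2 fun i => ?_
  rw [← h2, ← h1 _ (Finset.disjoint_left.1 hd ((ht _).2 ⟨i, rfl⟩))]
  exact (norm_le_pi_norm y _).trans h4

theorem fge_basis (hP : BasP ψ c P) (hi : Irreducible (mp ψ c.χ)) (S : Finset J)
    (hS : c.c0 ≤ S.card) : ∃ T ⊆ S, T.card = c.g0 ∧ IsBasis ψ c P T := by
  refine Cv.exists_basis (c := c.map ψ) (P := fun j => pm ψ (P j)) hi (fun j => ⟨?_, ?_⟩)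
    hP.inj S hS
  · have h1 := map_ee ψ (P j) c.χ
    rw [hP.on j, map_zero] at h1
    exact h1.symm
  · change (c.ρ.map ψ).eval (ψ (P j).1) ≠ 0
    rw [eval_map, eval₂_at_apply]
    exact hP.good j

theorem exists_fg (hI : IntR ι ψ) (hP : BasP ψ c P) (hi : Irreducible (mp ψ c.χ)) (j₀ : J)
    (hJ : 3 * c.c0 + 1 ≤ Fintype.card J) (e : L →+* 𝕜) (Φ : (𝕜 × 𝕜 →₀ ℤ) →+ V)
    (hΦ : ∀ u a, c.Wit u a → Φ (dv (mp (e.comp ι) c.χ) (mp (e.comp ι) (c.G u a))) =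
      Φ (dv (mp (e.comp ι) c.χ) (mp (e.comp ι) (C u)))) :
    ∃ (g : ℕ) (t : Fin g → J), IsFG (fun z : Fin g → L => ∑ i, Φ (mv ι e c.χ (P (t i)) (z i))) ∧
      ∀ x, ‖x‖ < 1 → ∃ z : Fin g → L, ‖z‖ ≤ ‖x‖ ∧
        Φ (mv ι e c.χ (P j₀) x) = ∑ i, Φ (mv ι e c.χ (P (t i)) (z i)) := by
  have : Nontrivial O := ι.domain_nontrivial
  have hδ : 0 < c.δ := by
    by_contra h0
    have h1 : c.χ = 1 := c.wt.monic.natDegree_eq_zero.1 (by rw [c.wt.deg]; omega)
    have h2 := hP.on j₀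
    rw [On, h1, map_one] at h2
    exact one_ne_zero h2
  have hJ' : c.w + c.b * c.δ ≤ Fintype.card J := by
    have h1 : c.w ≤ c.δ * c.w := Nat.le_mul_of_pos_left _ hδ
    have h2 : c.b * c.δ ≤ 2 * c.b * c.δ ^ 2 := by
      calc c.b * c.δ ≤ c.b * c.δ * (2 * c.δ) := Nat.le_mul_of_pos_right _ (by omega)
        _ = _ := by ring
    unfold Cv.c0 cst at hJ
    omega
  have hg := c.g0_add_lt
  have hc0 : (Finset.univ.erase j₀).card + 1 = Fintype.card J := by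
    rw [Finset.card_erase_add_one (Finset.mem_univ _), Finset.card_univ]
  obtain ⟨T₁, s₁, c₁, b₁⟩ := fge_basis hP hi (Finset.univ.erase j₀) (by omega)
  have hc1 := Finset.card_sdiff_add_card_eq_card s₁
  obtain ⟨T₂, s₂, c₂, b₂⟩ := fge_basis hP hi (Finset.univ.erase j₀ \ T₁) (by omega)
  have hc2 := Finset.card_sdiff_add_card_eq_card s₂
  obtain ⟨T₃, s₃, c₃, b₃⟩ := fge_basis hP hi ((Finset.univ.erase j₀ \ T₁) \ T₂) (by omega)
  have d12 : Disjoint T₁ T₂ := Finset.disjoint_left.2 fun j h1 h2 =>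
    (Finset.mem_sdiff.1 (s₂ h2)).2 h1
  have d13 : Disjoint T₁ T₃ := Finset.disjoint_left.2 fun j h1 h2 =>
    (Finset.mem_sdiff.1 (Finset.mem_sdiff.1 (s₃ h2)).1).2 h1
  have d23 : Disjoint T₂ T₃ := Finset.disjoint_left.2 fun j h1 h2 =>
    (Finset.mem_sdiff.1 (s₃ h2)).2 h1
  have d0 : j₀ ∉ T₃ := fun h =>
    (Finset.mem_erase.1 (Finset.mem_sdiff.1 (Finset.mem_sdiff.1 (s₃ h)).1).1).1 rfl
  obtain ⟨t₁, i₁, m₁⟩ := fge_enum c₁
  obtain ⟨t₂, i₂, m₂⟩ := fge_enum c₂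
  obtain ⟨t₃, i₃, m₃⟩ := fge_enum c₃
  obtain ⟨E₁, p₁, q₁, n₁⟩ := fge_ext (L := L) i₁ m₁
  obtain ⟨E₂, p₂, q₂, n₂⟩ := fge_ext (L := L) i₂ m₂
  obtain ⟨Φ₀, ℓ₀, hsd, hrel, htan⟩ := exists_rel hI hP b₃ c₃ hδ hJ'
  let F : J → L → V := fun j ξ => Φ (mv ι e c.χ (P j) ξ)
  have F0 : ∀ j, F j 0 = 0 := by
    intro j
    simp only [F, mv]
    rw [add_zero, hn_zero hI hP]
    exact (congrArg Φ (sub_self _)).trans (map_zero Φ)
  have main : ∀ x : J → L, ‖x‖ < 1 → (∀ j ∈ T₃, x j = 0) →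
      ∑ j, F j (x j) + ∑ i, F (t₃ i) (LinearMap.funLeft L L t₃ (Φ₀ x) i) = 0 := by
    intro x hx h0
    obtain ⟨a, ha, hdv⟩ := (hrel x hx).1.dv hI hP e ((hsd.norm_le hx).trans_lt hx)
    have h1 := congrArg Φ hdv
    rw [map_sub, hΦ _ _ ha, sub_self, map_sum] at h1
    have h2 := fge_sum i₃ m₃ (f := fun j => if j ∈ T₃ then F j (Φ₀ x j) else 0)
      fun j hj => if_neg hj
    simp only [if_pos ((m₃ _).2 ⟨_, rfl⟩)] at h2
    have h3 : ∑ i, F (t₃ i) (LinearMap.funLeft L L t₃ (Φ₀ x) i) =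
        ∑ j, if j ∈ T₃ then F j (Φ₀ x j) else 0 := h2.symm
    have h4 : 0 = ∑ j, F j (Φ₀ x j) := h1
    refine Eq.trans ?_ h4.symm
    rw [h3, ← Finset.sum_add_distrib]
    refine Finset.sum_congr rfl fun j _ => ?_
    split_ifs with hj
    · rw [h0 j hj, F0, zero_add]
    · rw [add_zero, (hrel x hx).2 j hj]
  have hl1 : ∀ p, ‖(E₁ ∘ₗ LinearMap.fst L (Fin c.g0 → L) (Fin c.g0 → L)) p‖ ≤ ‖p‖ := fun p => by
    rw [LinearMap.comp_apply, LinearMap.fst_apply]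
    exact (n₁ _).trans (norm_fst_le p)
  have hl2 : ∀ p, ‖(E₂ ∘ₗ LinearMap.snd L (Fin c.g0 → L) (Fin c.g0 → L)) p‖ ≤ ‖p‖ := fun p => by
    rw [LinearMap.comp_apply, LinearMap.snd_apply]
    exact (n₂ _).trans (norm_snd_le p)
  have hlin : SD (fun p : (Fin c.g0 → L) × (Fin c.g0 → L) => E₁ p.1 + E₂ p.2)
      (E₁ ∘ₗ LinearMap.fst L (Fin c.g0 → L) (Fin c.g0 → L) +
        E₂ ∘ₗ LinearMap.snd L (Fin c.g0 → L) (Fin c.g0 → L)) :=
    (sd_linear hl1).add (sd_linear hl2)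
  have hSD := (sd_linear (fge_res (L := L) t₃)).comp (hsd.comp hlin)
  have hfg := isFG_of_rel (ψ₁ := fun z => ∑ i, F (t₁ i) (z i)) (ψ₂ := fun z => ∑ i, F (t₂ i) (z i))
    (ψ₃ := fun z => ∑ i, F (t₃ i) (z i)) (Finset.sum_eq_zero fun i _ => F0 _)
    (Finset.sum_eq_zero fun i _ => F0 _) hSD ?_ ?_ ?_
  · refine ⟨c.g0, t₁, hfg.1, fun ξ hξ => ?_⟩
    have h1 : ‖(Pi.single j₀ ξ : J → L)‖ = ‖ξ‖ := Pi.norm_single (G := fun _ : J => L) ξ
    have h2 := main (Pi.single j₀ ξ) (h1 ▸ hξ) fun j hj =>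
      Pi.single_eq_of_ne (fun h : j = j₀ => d0 (h ▸ hj)) _
    have h3 : ‖LinearMap.funLeft L L t₃ (Φ₀ (Pi.single j₀ ξ))‖ ≤ ‖ξ‖ :=
      (fge_res _ _).trans ((hsd.norm_le (h1 ▸ hξ)).trans h1.le)
    obtain ⟨z, hz, hz'⟩ := hfg.2 _ (h3.trans_lt hξ)
    refine ⟨z, hz.trans h3, ?_⟩
    rw [Finset.sum_eq_single_of_mem j₀ (Finset.mem_univ _)
      (fun j _ hj => by rw [Pi.single_eq_of_ne hj, F0]), Pi.single_eq_same] at h2
    exact (eq_neg_of_add_eq_zero_left h2).trans hz'.symm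
  · intro z
    refine le_antisymm ((hSD.le (z, 0)).trans (by simp [Prod.norm_def])) ?_
    have h := fge_iso hI hP b₁ d13 m₁ m₃ (htan (E₁ z)).1 (htan (E₁ z)).2 (p₁ z) (q₁ z)
    simpa using h
  · intro z
    refine le_antisymm ((hSD.le (0, z)).trans (by simp [Prod.norm_def])) ?_
    have h := fge_iso hI hP b₂ d23 m₂ m₃ (htan (E₂ z)).1 (htan (E₂ z)).2 (p₂ z) (q₂ z)
    simpa using h
  · intro z z' hz hz'
    have h1 : ‖(z, z')‖ < 1 := by
      rw [Prod.norm_def]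
      exact max_lt hz hz'
    have h2 := main (E₁ z + E₂ z') ((hlin.norm_le h1).trans_lt h1) fun j hj => by
      rw [Pi.add_apply, q₁ z j (Finset.disjoint_right.1 d13 hj),
        q₂ z' j (Finset.disjoint_right.1 d23 hj), add_zero]
    have h3 := fge_sum i₁ m₁ (f := fun j => F j (E₁ z j)) fun j hj => by rw [q₁ z j hj, F0]
    have h4 := fge_sum i₂ m₂ (f := fun j => F j (E₂ z' j)) fun j hj => by rw [q₂ z' j hj, F0]
    simp only [p₁, p₂] at h3 h4
    rw [← h2]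
    congr 1
    rw [← h3, ← h4, ← Finset.sum_add_distrib]
    refine Finset.sum_congr rfl fun j _ => ?_
    by_cases hj : j ∈ T₁
    · rw [Pi.add_apply, q₂ z' j (Finset.disjoint_left.1 d12 hj), F0, add_zero, add_zero]
    · rw [Pi.add_apply, q₁ z j hj, F0, zero_add, zero_add]

end Pool.Agent.ZeroCyc
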