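import Pool.Agent.Lib.MP_796ce4_ag.ZY.Base

/-! The weight filtration on the group ring of a filtered group. -/

namespace Pool.Agent.ZeroCyc

open Polynomial Module
open scoped Classical IntermediateField PowerSeries

set_option linter.unusedSectionVars false

/-- alternating sum over the vertices of a cube -/
def alt {ι V : Type} [Fintype ι] [AddCommGroup V] (f : Finset ι → V) : V :=
  ∑ A : Finset ι, (-1 : ℤ) ^ (Fintype.card ι - A.card) • f A

variable {M : Type} [AddCommGroup M]

/-- the group ring -/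
abbrev GA (M : Type) : Type := AddMonoidAlgebra ℤ M

/-- `[y]` -/
noncomputable abbrev sg (y : M) : GA M := AddMonoidAlgebra.single y 1

/-- `[v] - 1` -/
noncomputable def dl (v : M) : GA M := sg v - 1

/-- products of at most `s` differences of total weight at least `w`, based near `y₀` -/
noncomputable def II (fil : ℕ → AddSubgroup M) (y₀ : M) (s w : ℕ) : AddSubgroup (GA M) :=
  AddSubgroup.closure {x | ∃ (y : M) (l : Multiset (ℕ × M)), y - y₀ ∈ fil 1 ∧ l.card ≤ s ∧
    w ≤ (l.map Prod.fst).sum ∧ (∀ kv ∈ l, 0 < kv.1 ∧ kv.2 ∈ fil kv.1) ∧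
      x = sg y * (l.map fun kv => dl kv.2).prod}

/-- curvilinear cubes -/
def IsCube {ι : Type} (fil : ℕ → AddSubgroup M) (k : ι → ℕ) (y : Finset ι → M) : Prop :=
  ∃ c : Finset ι → M, (∀ B : Finset ι, B.Nonempty → c B ∈ fil (∑ i ∈ B, k i)) ∧
    ∀ A, y A = ∑ B ∈ A.powerset, c B

variable {fil : ℕ → AddSubgroup M} {y₀ y₁ : M} {s s' w w' : ℕ}

theorem map_alt {ι V V' : Type} [Fintype ι] [AddCommGroup V] [AddCommGroup V'] (g : V →+ V')
    (f : Finset ι → V) : g (alt f) = alt fun A => g (f A) := by
  simp [alt, map_sum, map_zsmul]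

theorem alt_add {ι V : Type} [Fintype ι] [AddCommGroup V] (f g : Finset ι → V) :
    alt (fun A => f A + g A) = alt f + alt g := by
  simp [alt, Finset.sum_add_distrib]

theorem alt_sub {ι V : Type} [Fintype ι] [AddCommGroup V] (f g : Finset ι → V) :
    alt (fun A => f A - g A) = alt f - alt g := by
  simp [alt, smul_sub, Finset.sum_sub_distrib]

theorem alt_sum {ι V T : Type} [Fintype ι] [AddCommGroup V] (s : Finset T)
    (f : T → Finset ι → V) : alt (fun A => ∑ t ∈ s, f t A) = ∑ t ∈ s, alt (f t) := by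
  simp only [alt, Finset.smul_sum]
  exact Finset.sum_comm

theorem alt_eq_zero {ι V : Type} [Fintype ι] [AddCommGroup V] {f : Finset ι → V} (i : ι)
    (h : ∀ A, f (insert i A) = f A) : alt f = 0 := by
  unfold alt
  rw [← Finset.powerset_univ, ← Finset.insert_erase (Finset.mem_univ i),
    Finset.sum_powerset_insert (Finset.notMem_erase i _), ← Finset.sum_add_distrib]
  refine Finset.sum_eq_zero fun A hA => ?_
  have hi : i ∉ A := fun h => Finset.notMem_erase i _ (Finset.mem_powerset.1 hA h)
  have h1 := Finset.card_insert_of_notMem hi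
  have h2 := Finset.card_le_univ (insert i A)
  have h3 : Fintype.card ι - A.card = Fintype.card ι - (insert i A).card + 1 := by omega
  rw [h A, h3, pow_succ]
  simp

theorem alt_option {ι V : Type} [Fintype ι] [AddCommGroup V] (f : Finset (Option ι) → V) :
    alt f = alt fun A : Finset ι =>
      f (Finset.insertNone A) - f (A.map Function.Embedding.some) := by
  have hI : ∀ A : Finset ι, Finset.insertNone A = insert none (A.map Function.Embedding.some) := by
    intro A
    ext x
    cases x <;> simp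
  have hU : (Finset.univ : Finset (Option ι)) =
      insert none (Finset.univ.map Function.Embedding.some) := by
    ext x
    cases x <;> simp
  have key : ∀ g : Finset (Option ι) → V,
      ∑ B ∈ (Finset.univ.map (Function.Embedding.some : ι ↪ Option ι)).powerset, g B =
        ∑ A : Finset ι, g (A.map Function.Embedding.some) := by
    intro g
    refine (Finset.sum_nbij (fun A : Finset ι => A.map Function.Embedding.some) ?_ ?_ ?_
      fun _ _ => rfl).symm
    · intro A _
      exact Finset.mem_powerset.2 (Finset.map_subset_map.2 (Finset.subset_univ A))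
    · exact fun A _ B _ h => Finset.map_injective _ h
    · intro B hB
      obtain ⟨A, -, rfl⟩ := Finset.subset_map_iff.1 (Finset.mem_powerset.1 hB)
      exact ⟨A, by simp, rfl⟩
  unfold alt
  rw [← Finset.powerset_univ, hU, Finset.sum_powerset_insert (by simp), key, key,
    ← Finset.sum_add_distrib]
  refine Finset.sum_congr rfl fun A _ => ?_
  have h1 : (insert none (A.map Function.Embedding.some)).card = A.card + 1 := by
    rw [Finset.card_insert_of_notMem (by simp), Finset.card_map]
  have h2 := Finset.card_le_univ A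
  have h3 : Fintype.card ι + 1 - A.card = Fintype.card ι - A.card + 1 := by omega
  beta_reduce
  rw [h1, Finset.card_map, Fintype.card_option, hI, Nat.add_sub_add_right, h3, pow_succ, smul_sub,
    mul_neg_one, neg_smul]
  abel

theorem alt_empty {ι V : Type} [Fintype ι] [IsEmpty ι] [AddCommGroup V] (f : Finset ι → V) :
    alt f = f ∅ := by
  unfold alt
  rw [Finset.sum_eq_single ∅]
  · simp
  · exact fun B _ hB => absurd (Finset.eq_empty_of_isEmpty B) hB
  · exact fun h => absurd (Finset.mem_univ _) h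

theorem fil_sg_add (y z : M) : sg (y + z) = sg y * sg z := by
  simp [sg, AddMonoidAlgebra.single_mul_single]

theorem fil_sg_zero : sg (0 : M) = 1 := rfl

theorem fil_sg_sum {ι : Type} (A : Finset ι) (v : ι → M) :
    sg (∑ i ∈ A, v i) = ∏ i ∈ A, sg (v i) := by
  induction A using Finset.induction_on with
  | empty => simp [fil_sg_zero]
  | insert i A hi ih => rw [Finset.sum_insert hi, Finset.prod_insert hi, fil_sg_add, ih]

theorem alt_sg {ι : Type} [Fintype ι] (y : M) (v : ι → M) :
    alt (fun A => sg (y + ∑ i ∈ A, v i)) = sg y * ∏ i, dl (v i) := by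
  simp only [alt, dl, sub_eq_add_neg]
  rw [Finset.prod_add, Finset.powerset_univ, Finset.mul_sum]
  refine Finset.sum_congr rfl fun A _ => ?_
  rw [fil_sg_add, fil_sg_sum, Finset.prod_const, Finset.card_univ_sdiff, zsmul_eq_mul]
  push_cast
  ring


theorem II_mono (hs : s ≤ s') (hw : w' ≤ w) : II fil y₀ s w ≤ II fil y₀ s' w' := by
  refine AddSubgroup.closure_mono ?_
  rintro x ⟨y, l, h1, h2, h3, h4, h5⟩
  exact ⟨y, l, h1, h2.trans hs, hw.trans h3, h4, h5⟩

theorem II_mono_fil {fil' : ℕ → AddSubgroup M} (h : ∀ n, fil n ≤ fil' n) :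
    II fil y₀ s w ≤ II fil' y₀ s w := by
  refine AddSubgroup.closure_mono ?_
  rintro x ⟨y, l, h1, h2, h3, h4, h5⟩
  exact ⟨y, l, h _ h1, h2, h3, fun kv hkv => ⟨(h4 kv hkv).1, h _ (h4 kv hkv).2⟩, h5⟩

theorem II_congr (h : y₁ - y₀ ∈ fil 1) : II fil y₁ s w = II fil y₀ s w := by
  have key : ∀ {a b : M}, a - b ∈ fil 1 → II fil a s w ≤ II fil b s w := by
    intro a b hab
    refine AddSubgroup.closure_mono ?_
    rintro x ⟨y, l, h1, h2⟩
    exact ⟨y, l, by simpa using (fil 1).add_mem h1 hab, h2⟩
  exact le_antisymm (key h) (key (by simpa using (fil 1).neg_mem h))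

theorem II_zero (hw : 0 < w) : II fil y₀ 0 w = ⊥ := by
  rw [eq_bot_iff, II, AddSubgroup.closure_le]
  rintro x ⟨y, l, -, h2, h3, -⟩
  rw [Nat.le_zero, Multiset.card_eq_zero] at h2
  subst h2
  simp at h3
  omega

theorem mul_mem_II {x x' : GA M} (h : x ∈ II fil y₀ s w) (h' : x' ∈ II fil y₁ s' w') :
    x * x' ∈ II fil (y₀ + y₁) (s + s') (w + w') := by
  induction h using AddSubgroup.closure_induction with
  | zero => simp
  | add a b _ _ ha hb => rw [add_mul]; exact add_mem ha hb
  | neg a _ ha => rw [neg_mul]; exact neg_mem ha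
  | mem x hx =>
    induction h' using AddSubgroup.closure_induction with
    | zero => simp
    | add a b _ _ ha hb => rw [mul_add]; exact add_mem ha hb
    | neg a _ ha => rw [mul_neg]; exact neg_mem ha
    | mem x' hx' =>
      obtain ⟨y, l, h1, h2, h3, h4, rfl⟩ := hx
      obtain ⟨y', l', h1', h2', h3', h4', rfl⟩ := hx'
      refine AddSubgroup.subset_closure ⟨y + y', l + l', ?_, ?_, ?_, ?_, ?_⟩
      · have := (fil 1).add_mem h1 h1'
        convert this using 1
        abel
      · rw [Multiset.card_add]; omega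
      · rw [Multiset.map_add, Multiset.sum_add]; omega
      · intro kv hkv
        exact (Multiset.mem_add.1 hkv).elim (h4 kv) (h4' kv)
      · rw [Multiset.map_add, Multiset.prod_add, fil_sg_add]; ring

theorem fil_gen {ι : Type} (A : Finset ι) {y : M} (hy : y - y₀ ∈ fil 1) {k : ι → ℕ} {v : ι → M}
    (hk : ∀ i, 0 < k i) (hv : ∀ i, v i ∈ fil (k i)) :
    sg y * ∏ i ∈ A, dl (v i) ∈ II fil y₀ A.card (∑ i ∈ A, k i) := by
  refine AddSubgroup.subset_closure ⟨y, A.val.map fun i => (k i, v i), hy, by simp, ?_, ?_, ?_⟩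
  · rw [Multiset.map_map]
    exact le_rfl
  · intro kv hkv
    obtain ⟨i, -, rfl⟩ := Multiset.mem_map.1 hkv
    exact ⟨hk i, hv i⟩
  · rw [Multiset.map_map]
    rfl

theorem fil_mul_dl {x : GA M} (h : x ∈ II fil y₀ s w) {k : ℕ} {v : M} (hk : 0 < k)
    (hv : v ∈ fil k) : x * dl v ∈ II fil y₀ (s + 1) (w + k) := by
  have h1 : dl v ∈ II fil 0 1 k :=
    AddSubgroup.subset_closure ⟨0, {(k, v)}, by simp, by simp, by simp, by simp [hk, hv],
      by simp [fil_sg_zero]⟩
  simpa using mul_mem_II h h1

theorem fil_sg_sub (y z : M) : sg z - sg y = sg y * dl (z - y) := by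
  rw [dl, mul_sub, ← fil_sg_add, add_sub_cancel, mul_one]

theorem gen_mem_II {ι : Type} [Fintype ι] {y : M} (hy : y - y₀ ∈ fil 1) {k : ι → ℕ} {v : ι → M}
    (hk : ∀ i, 0 < k i) (hv : ∀ i, v i ∈ fil (k i)) :
    sg y * ∏ i, dl (v i) ∈ II fil y₀ (Fintype.card ι) (∑ i, k i) := by
  exact fil_gen Finset.univ hy hk hv

theorem II_le {H : AddSubgroup (GA M)} (h : ∀ r ≤ s, ∀ (y : M) (k : Fin r → ℕ) (v : Fin r → M),
    y - y₀ ∈ fil 1 → w ≤ ∑ i, k i → (∀ i, 0 < k i) → (∀ i, v i ∈ fil (k i)) →
      sg y * ∏ i, dl (v i) ∈ H) : II fil y₀ s w ≤ H := by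
  rw [II, AddSubgroup.closure_le]
  rintro x ⟨y, l, h1, h2, h3, h4, rfl⟩
  induction l using Quotient.inductionOn with
  | h L =>
    have := h L.length (by simpa using h2) y (fun i => (L[i.1]).1) (fun i => (L[i.1]).2) h1
      (by rw [Fin.sum_univ_fun_getElem L Prod.fst]; simpa using h3)
      (fun i => (h4 _ (by simp)).1) (fun i => (h4 _ (by simp)).2)
    rw [Fin.prod_univ_fun_getElem L fun kv => dl kv.2] at this
    simpa using this

/-- the leading term only depends on the residue classes -/
theorem gen_sub_gen (hf : Antitone fil) {ι : Type} [Fintype ι] {y y' : M} (hy : y - y₀ ∈ fil 1)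
    (hy' : y' - y₀ ∈ fil 1) {k : ι → ℕ} {v v' : ι → M} (hk : ∀ i, 0 < k i)
    (hv : ∀ i, v i ∈ fil (k i)) (hv' : ∀ i, v' i - v i ∈ fil (k i + 1)) :
    sg y' * ∏ i, dl (v' i) - sg y * ∏ i, dl (v i) ∈
      II fil y₀ (Fintype.card ι + 1) (∑ i, k i + 1) := by
  have hv1 : ∀ i, v' i ∈ fil (k i) := fun i => by
    simpa using (fil (k i)).add_mem (hf (Nat.le_succ _) (hv' i)) (hv i)
  have key : ∀ A : Finset ι, sg y * ∏ i ∈ A, dl (v' i) - sg y * ∏ i ∈ A, dl (v i) ∈
      II fil y₀ A.card (∑ i ∈ A, k i + 1) := by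
    intro A
    induction A using Finset.induction_on with
    | empty => simp
    | insert i A hi ih =>
      have hyv : y + v i - y₀ ∈ fil 1 := by
        have := (fil 1).add_mem hy (hf (hk i) (hv i))
        convert this using 1
        abel
      have h1 := fil_mul_dl (fil_gen A hyv hk hv1) (Nat.succ_pos _) (hv' i)
      have h2 := fil_mul_dl ih (hk i) (hv i)
      have h3 : dl (v' i) = dl (v i) + sg (v i) * dl (v' i - v i) := by
        rw [← fil_sg_sub, dl, dl]; ring
      rw [Finset.card_insert_of_notMem hi, Finset.sum_insert hi, Finset.prod_insert hi,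
        Finset.prod_insert hi, h3]
      have h4 := add_mem (II_mono le_rfl (w' := k i + ∑ i ∈ A, k i + 1) (by omega) h1)
        (II_mono le_rfl (w' := k i + ∑ i ∈ A, k i + 1) (by omega) h2)
      convert h4 using 1
      rw [fil_sg_add]
      ring
  have hyy : y' - y ∈ fil 1 := by simpa using (fil 1).sub_mem hy' hy
  have h1 := fil_mul_dl (gen_mem_II hy hk hv1) one_pos hyy
  have h2 := II_mono (Nat.le_succ _) le_rfl (key Finset.univ)
  have h3 : sg y' = sg y + sg y * dl (y' - y) := by rw [← fil_sg_sub]; ring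
  convert add_mem h1 h2 using 1
  rw [h3]
  ring

/-- a product of large weight is a sum of small differences -/
theorem II_le_diff (hf : Antitone fil) {n : ℕ} (hw : s * n < w) {H : AddSubgroup (GA M)}
    (h : ∀ y v, y - y₀ ∈ fil 1 → v ∈ fil (n + 1) → sg (y + v) - sg y ∈ H) :
    II fil y₀ s w ≤ H := by
  have key : ∀ v ∈ fil (n + 1), ∀ l : Multiset (ℕ × M), (∀ kv ∈ l, kv.2 ∈ fil 1) →
      ∀ y, y - y₀ ∈ fil 1 → sg y * (dl v * (l.map fun kv => dl kv.2).prod) ∈ H := by
    intro v hv l
    induction l using Multiset.induction_on with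
    | empty =>
      intro _ y hy
      have := h y v hy hv
      rw [fil_sg_sub] at this
      simpa using this
    | cons a l ih =>
      intro hl y hy
      have hl' : ∀ kv ∈ l, kv.2 ∈ fil 1 := fun kv hkv => hl kv (Multiset.mem_cons_of_mem hkv)
      have hya : y + a.2 - y₀ ∈ fil 1 := by
        have := (fil 1).add_mem hy (hl a (Multiset.mem_cons_self _ _))
        convert this using 1
        abel
      convert sub_mem (ih hl' _ hya) (ih hl' _ hy) using 1
      rw [Multiset.map_cons, Multiset.prod_cons, fil_sg_add]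
      simp only [dl]
      ring
  rw [II, AddSubgroup.closure_le]
  rintro x ⟨y, l, h1, h2, h3, h4, rfl⟩
  obtain ⟨a, ha, hn⟩ : ∃ a ∈ l, n < a.1 := by
    by_contra hc
    push Not at hc
    have h5 : (l.map Prod.fst).sum ≤ (l.map Prod.fst).card • n :=
      Multiset.sum_le_card_nsmul _ _ fun x hx => by
        obtain ⟨a, ha, rfl⟩ := Multiset.mem_map.1 hx
        exact hc a ha
    rw [Multiset.card_map, smul_eq_mul] at h5
    have := Nat.mul_le_mul_right n h2
    omega
  obtain ⟨l', rfl⟩ := Multiset.exists_cons_of_mem ha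
  rw [Multiset.map_cons, Multiset.prod_cons]
  exact key a.2 (hf hn (h4 a ha).2) l' (fun kv hkv =>
    hf (h4 kv (Multiset.mem_cons_of_mem hkv)).1 (h4 kv (Multiset.mem_cons_of_mem hkv)).2) y h1


end Pool.Agent.ZeroCyc
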