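import Pool.Agent.Lib.MP_796ce4_ag.ZY.ChartB
import Pool.Agent.Lib.MP_796ce4_ag.ZY.WB

/-! Families of curves and functions over a cube: the moving zeros. -/

namespace Pool.Agent.ZeroCyc

open Polynomial Module
open scoped Classical IntermediateField PowerSeries

set_option linter.unusedSectionVars false

variable {p : ℕ} {K Λ : Type} [Field K] [CharZero K] [NormedField Λ] [IsUltrametricDist Λ]
  [IsAlgClosed Λ] [Algebra K Λ] [IsGalois K Λ] [Loc p K Λ] [Fact p.Prime] [CharP (kk Λ) p]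

variable {N : ℕ} {J : Ideal (MvPolynomial (Fin (N + 1)) K)} {B : IntermediateField K Λ}
  {ι : Type} [Fintype ι]

/-- the cube ring of `U n` -/
abbrev CU (T : Tower p B) (n : ℕ) (k : ι → ℕ) : Type := CR (T.U n) T.π_lt k

/-- the curve at a vertex -/
noncomputable def lA {T : Tower p B} {n d : ℕ} {k : ι → ℕ} (lam : Fin d → (CU T n k)[X])
    (A : Finset ι) : Fin d → Λ[X] := fun i => (lam i).map (evA A)

theorem gra_ee {R S : Type} [CommRing R] [CommRing S] (v : R →+* S) {τ η : R} {G : R[X][X]}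
    (h : ee (τ, η) G = 0) : ee (v τ, v η) (mp v G) = 0 :=
  (map_ee v (τ, η) G).symm.trans (by rw [h, map_zero])

theorem gra_simple {R : Type} [CommRing R] [IsLocalRing R]
    [IsAdicComplete (IsLocalRing.maximalIdeal R) R] (v : R →+* Λ)
    (hmax : ∀ y, y ∈ IsLocalRing.maximalIdeal R ↔ ‖v y‖ < 1) (hunit : ∀ y, IsUnit y ↔ ‖v y‖ = 1)
    {χ G : R[X][X]} (hm : χ.Monic) {u : R[X]} {a b : R} {z : Λ × Λ} (ha : v a = z.1)
    (hb : v b = z.2) (h0 : ee z (mp v χ) = 0) (h1 : ‖ee z (derivative (mp v χ))‖ = 1)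
    (hG : mp v G = C (u.map v)) (hu : (u.map v).eval z.1 = 0)
    (hu' : ‖(derivative (u.map v)).eval z.1‖ = 1) : ∃ τ η : R, ‖v τ - z.1‖ < 1 ∧
      ‖v η - z.2‖ < 1 ∧ ee (τ, η) χ = 0 ∧ ee (τ, η) G = 0 := by
  have eQ : pm v (a, b) = z := Prod.ext ha hb
  have hev : ∀ f : R[X], v (f.eval a) = (f.map v).eval z.1 := fun f => by
    rw [eval_map, ← ha, eval₂_at_apply]
  obtain ⟨Q, q1, q2, q3, q4⟩ := exists_simple (G := G) (Q₀ := (a, b)) (u := u) hm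
    (by rw [hmax, map_ee, eQ, h0, norm_zero]; exact one_pos)
    (by rw [hunit, map_ee, eQ, mp_derivative, h1])
    (fun i j => by
      have : mp v (G - C u) = 0 := by rw [map_sub, hG, mp_C, sub_self]
      have h3 := congrArg (fun f => coeff (coeff f i) j) this
      simp only [coe_mapRingHom, coeff_map, coeff_zero] at h3
      rw [hmax, h3, norm_zero]
      exact one_pos)
    (by rw [hmax, hev, hu, norm_zero]; exact one_pos)
    (by rw [hunit, hev, ← derivative_map, hu'])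
  rw [hmax, map_sub, ha] at q1
  rw [hmax, map_sub, hb] at q2
  exact ⟨Q.1, Q.2, q1, q2, q3, q4⟩

namespace Chart

/-- The data of the general relation. -/
structure GRD (𝒞 : Chart J B) {T : Tower p B} {n : ℕ} {k : ι → ℕ}
    (lam : Fin 𝒞.d → (CU T n k)[X]) (e : ℕ) (G : (CU T n k)[X][X]) (μ u : (OL (T.U n))[X])
    (Z : Finset ι → Λ × Λ →₀ ℤ) : Prop where
  hn : 0 < n
  hk : ∀ i, 0 < k i
  he : ∀ i, (lam i).natDegree ≤ e
  mon : μ.Monic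
  mon' : u.Monic
  lead : Lead (𝒞.b * e) (μ.natDegree + u.natDegree) G
  base : mp (evA ∅) G = C ((μ * u).map (OL _).subtype)
  sep : ∀ τ : Λ, ‖τ‖ ≤ 1 → ‖u.eval₂ (OL _).subtype τ‖ < 1 →
    ‖(𝒞.rho (OL B).subtype (lA lam ∅)).eval τ‖ = 1 ∧
      ‖(derivative u).eval₂ (OL _).subtype τ‖ = 1 ∧ ‖μ.eval₂ (OL _).subtype τ‖ = 1
  van : ∀ A, VanZ (𝒞.cL (lA lam A)) (Z A) (mp (evA A) G)
  deg : ∀ A, (Z A).degree = 𝒞.δ * μ.natDegree
  supp : ∀ A Q, Z A Q ≠ 0 → 𝒞.Gd (fun i => (lA lam A i).eval Q.1) Q.2 ∧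
    ‖μ.eval₂ (OL _).subtype Q.1‖ < 1

variable {𝒞 : Chart J B} {T : Tower p B} {n : ℕ} {k : ι → ℕ} {lam : Fin 𝒞.d → (CU T n k)[X]}
  {e : ℕ} {G : (CU T n k)[X][X]} {μ u : (OL (T.U n))[X]} {Z : Finset ι → Λ × Λ →₀ ℤ}

theorem over_lA (A : Finset ι) (i : Fin 𝒞.d) : Over (T.U n) (lA lam A i) ∧ Intg (lA lam A i) :=
  ⟨fun j => by rw [lA, coeff_map]; exact (evA_mem A _).1,
    fun j => by rw [lA, coeff_map]; exact (evA_mem A _).2⟩
theorem natDegree_lA (he : ∀ i, (lam i).natDegree ≤ e) (A : Finset ι) (i : Fin 𝒞.d) :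
    (lA lam A i).natDegree ≤ e := natDegree_map_le.trans (he i)
theorem eval_lA_sub (hk : ∀ i, 0 < k i) (A : Finset ι) (i : Fin 𝒞.d) {t t' : Λ} (ht : ‖t‖ ≤ 1)
    (h : ‖t' - t‖ < 1) : ‖(lA lam A i).eval t' - (lA lam ∅ i).eval t‖ < 1 := by
  refine tow_tri (((over_lA A i).2.eval_sub_le (gal1_le_one ht (tow_symm h)) ht).trans_lt h) ?_
  rw [← eval_sub]
  refine tow_eval_lt (fun j => ?_) ht
  rw [coeff_sub, lA, lA, coeff_map, coeff_map]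
  exact evA_sub_lt hk A _

theorem GRD.gra_root (h : 𝒞.GRD lam e G μ u Z) {t : Λ} (hu : u.eval₂ (OL _).subtype t = 0) :
    ‖t‖ ≤ 1 ∧ ‖(𝒞.rho (OL B).subtype (lA lam ∅)).eval t‖ = 1 ∧
      ‖(derivative (u.map (OL _).subtype)).eval t‖ = 1 ∧ ‖(μ.map (OL _).subtype).eval t‖ = 1 := by
  have h1 : ‖t‖ ≤ 1 := (intg_map u).root_le (h.mon'.map _) (by rw [eval_map]; exact hu)
  rw [derivative_map, eval_map, eval_map]
  exact ⟨h1, h.sep t h1 (by rw [hu, norm_zero]; exact one_pos)⟩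

theorem GRD.gra_gd (h : 𝒞.GRD lam e G μ u Z) {z : Λ × Λ} (hu : u.eval₂ (OL _).subtype z.1 = 0)
    (hz : On (𝒞.cL (lA lam ∅)) z) : 𝒞.Gd (fun i => (lA lam ∅ i).eval z.1) z.2 := by
  obtain ⟨h1, h2, -⟩ := h.gra_root hu
  have hy : ∀ i, ‖(lA lam ∅ i).eval z.1‖ ≤ 1 := fun i => (over_lA ∅ i).2.eval_le h1
  exact ⟨hy, root_le hy (on_cL.1 hz), on_cL.1 hz, by rwa [eval_rho] at h2⟩

theorem GRD.gra_der (h : 𝒞.GRD lam e G μ u Z) {t : Λ} (hu : u.eval₂ (OL _).subtype t = 0) :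
    ((μ * u).map (OL _).subtype).eval t = 0 ∧
      ‖(derivative ((μ * u).map (OL _).subtype)).eval t‖ = 1 := by
  obtain ⟨-, -, h3, h4⟩ := h.gra_root hu
  rw [← eval_map] at hu
  rw [Polynomial.map_mul, derivative_mul, eval_mul, eval_add, eval_mul, eval_mul, hu, mul_zero,
    mul_zero, zero_add, norm_mul, h3, h4, one_mul]
  exact ⟨rfl, rfl⟩

/-- a zero at the vertex `∅` that is rational over `U m` moves in a cube -/
theorem GRD.exists_cube (h : 𝒞.GRD lam e G μ u Z) {z : Λ × Λ}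
    (hu : u.eval₂ (OL _).subtype z.1 = 0) (hz : On (𝒞.cL (lA lam ∅)) z) {m : ℕ} (hm : 0 < m)
    (hnm : n ∣ m) (h1 : z.1 ∈ T.U m) (h2 : z.2 ∈ T.U m) : ∃ τ η : CU T m k,
      (evA ∅ τ, evA ∅ η) = z ∧ ∀ A, On (𝒞.cL (lA lam A)) (evA A τ, evA A η) ∧
        ee (evA A τ, evA A η) (mp (evA A) G) = 0 := by
  have := T.fin m hm
  obtain ⟨_, hc, hmax, hunit⟩ := CR_local (p := p) (T.U m) T.π_lt T.π_ne h.hk
  have hle : T.U n ≤ T.U m := T.mono h.hn hm hnm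
  have hg := h.gra_gd hu hz
  obtain ⟨hr0, hr1⟩ := h.gra_der hu
  have hz1 := (h.gra_root hu).1
  obtain ⟨j, hj⟩ : ∃ j : CU T n k →+* CU T m k, ∀ A, (evA A).comp j = evA A :=
    ⟨Subring.inclusion (CR_mono hle), fun A => rfl⟩
  obtain ⟨c, hc⟩ : ∃ c : OL (T.U m) →+* CU T m k, ∀ A, (evA A).comp c = (OL _).subtype :=
    ⟨cstC T.π_lt k, evA_cstC⟩
  have hφ : ∀ (A : Finset ι) {L : IntermediateField K Λ} (hL : L ≤ T.U m),
      (evA A).comp (c.comp (inc hL)) = (OL L).subtype := fun A L hL => by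
    rw [← RingHom.comp_assoc, hc, subtype_inc]
  obtain ⟨χ', mχ, eχ⟩ : ∃ χ' : (CU T m k)[X][X], χ'.Monic ∧
      ∀ A, mp (evA A) χ' = 𝒞.cL (lA lam A) := by
    refine ⟨cv (c.comp (inc (T.le m))) (fun i => (lam i).map j) 𝒞.χ, 𝒞.monic.map _, fun A => ?_⟩
    rw [mp_cv, hφ]
    simp only [Polynomial.map_map, hj]
    rfl
  obtain ⟨G', eG⟩ : ∃ G' : (CU T m k)[X][X], ∀ A, mp (evA A) G' = mp (evA A) G :=
    ⟨mp j G, fun A => by rw [mp_mp, hj]⟩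
  obtain ⟨u', eu⟩ : ∃ u' : (CU T m k)[X], u'.map (evA ∅) = (μ * u).map (OL _).subtype :=
    ⟨(μ * u).map (c.comp (inc hle)), by rw [Polynomial.map_map, hφ]⟩
  obtain ⟨a, ea⟩ : ∃ a : CU T m k, evA ∅ a = z.1 :=
    ⟨c ⟨z.1, h1, hz1⟩, RingHom.congr_fun (hc ∅) _⟩
  obtain ⟨b, eb⟩ : ∃ b : CU T m k, evA ∅ b = z.2 :=
    ⟨c ⟨z.2, h2, hg.h_le⟩, RingHom.congr_fun (hc ∅) _⟩
  obtain ⟨τ, η, q1, q2, q3, q4⟩ := gra_simple (evA ∅) hmax hunit mχ (G := G') (u := u') ea eb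
    (by rw [eχ]; exact hz) (by rw [eχ, ← cv_derivative, ee_cv]; exact hg.ep.der)
    (by rw [eG, eu, h.base]) (by rw [eu, hr0]) (by rw [eu, hr1])
  have k1 : ∀ A, On (𝒞.cL (lA lam A)) (evA A τ, evA A η) := fun A => by
    rw [← eχ]; exact gra_ee _ q3
  have k2 : ∀ A, ee (evA A τ, evA A η) (mp (evA A) G) = 0 := fun A => by
    rw [← eG]; exact gra_ee _ q4
  have e1 : z.1 = evA ∅ τ := by
    refine (intg_map (μ * u)).root_unique hz1 hr0 ?_ hr1 (tow_symm q1)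
    have := k2 ∅
    rwa [h.base, ee_C] at this
  have k3 := on_cL.1 (k1 ∅)
  dsimp only at k3
  rw [← e1] at k3
  exact ⟨τ, η, Prod.ext e1.symm (hg.ep.unique q2 k3), fun A => ⟨k1 A, k2 A⟩⟩

theorem GRD.gra_unr (h : 𝒞.GRD lam e G μ u Z) {z : Λ × Λ} (hu : u.eval₂ (OL _).subtype z.1 = 0)
    (hz : On (𝒞.cL (lA lam ∅)) z) : ∃ c, 0 < c ∧ z.1 ∈ T.U (n * c) ∧ z.2 ∈ T.U (n * c) := by
  have hg := (h.gra_gd hu hz).ep
  obtain ⟨h1, -, h3, -⟩ := h.gra_root hu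
  obtain ⟨j, hj, m1⟩ := T.root_mem h.hn (over_map u) (intg_map u) h1 (by rwa [eval_map]) h3
  have hnj : 0 < n * j := Nat.mul_pos h.hn hj
  obtain ⟨j', hj', m2⟩ := T.root_mem hnj
    (f := 𝒞.χ.map (MvPolynomial.eval₂Hom (OL B).subtype fun i => (lA lam ∅ i).eval z.1))
    (fun a => by
      rw [coeff_map]
      exact mv_mem (fun c => T.le _ c.2.1) (fun i =>
        ((over_lA ∅ i).1.mono (T.mono h.hn hnj (dvd_mul_right n j))).eval m1) _)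
    (fun a => by
      rw [coeff_map]
      exact (rs_mv (ψ := rL B) (fun c => c.2.2) (fun c => rL_apply c) hg.y_le _).1)
    hg.h_le (by rw [← ev2_eq_eval]; exact hg.on)
    (by rw [derivative_map, ← ev2_eq_eval]; exact hg.der)
  refine ⟨j * j', Nat.mul_pos hj hj', ?_, by rwa [← mul_assoc]⟩
  rw [← mul_assoc]
  exact T.mono hnj (Nat.mul_pos hnj hj') (dvd_mul_right _ _) m1

theorem GRD.gra_set (h : 𝒞.GRD lam e G μ u Z) : ∃ 𝒵 : Finset (Λ × Λ),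
    (∀ z, z ∈ 𝒵 ↔ u.eval₂ (OL _).subtype z.1 = 0 ∧ On (𝒞.cL (lA lam ∅)) z) ∧
      𝒵.card = 𝒞.δ * u.natDegree := by
  have hU := h.mon'.map (OL (T.U n)).subtype
  have hr : ∀ t, t ∈ (u.map (OL _).subtype).roots.toFinset ↔ u.eval₂ (OL _).subtype t = 0 :=
    fun t => by rw [Multiset.mem_toFinset, mem_roots hU.ne_zero, IsRoot, eval_map]
  have hs : ∀ t, ∃ s : Finset Λ, u.eval₂ (OL _).subtype t = 0 →
      s.card = 𝒞.δ ∧ ∀ y, y ∈ s ↔ On (𝒞.cL (lA lam ∅)) (t, y) := fun t => by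
    by_cases ht : u.eval₂ (OL _).subtype t = 0
    · obtain ⟨s, h1, h2, -⟩ := card_fibre (𝒞.wt_crv (OL B).subtype (natDegree_lA h.he ∅)) (t := t)
        fun y hy => Ep.et (h.gra_gd (z := (t, y)) ht hy).ep
      exact ⟨s, fun _ => ⟨h1, h2⟩⟩
    · exact ⟨∅, fun h => absurd h ht⟩
  choose s hs using hs
  refine ⟨((u.map (OL _).subtype).roots.toFinset.sigma s).map
    (Equiv.sigmaEquivProd Λ Λ).toEmbedding, fun z => ?_, ?_⟩
  · rw [Finset.mem_map_equiv, Finset.mem_sigma, hr]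
    exact and_congr_right fun h1 => (hs _ h1).2 _
  · rw [Finset.card_map, Finset.card_sigma, Finset.sum_congr rfl fun t ht => (hs t ((hr t).1 ht)).1,
      Finset.sum_const, smul_eq_mul, mul_comm, Multiset.toFinset_card_of_nodup,
      ← (IsAlgClosed.splits _).natDegree_eq_card_roots, h.mon'.natDegree_map]
    refine Multiset.nodup_iff_count_le_one.2 fun t => ?_
    rw [count_roots, ← not_lt, one_lt_rootMultiplicity_iff_isRoot hU.ne_zero]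
    rintro ⟨h1, h2⟩
    have := (h.gra_root (by rwa [← eval_map])).2.2.1
    rw [h2.eq_zero, norm_zero] at this
    exact zero_ne_one this

theorem GRD.gra_inj (h : 𝒞.GRD lam e G μ u Z) {z z' : Λ × Λ}
    (hu : u.eval₂ (OL _).subtype z.1 = 0) (hz : On (𝒞.cL (lA lam ∅)) z)
    (hu' : u.eval₂ (OL _).subtype z'.1 = 0) (hz' : On (𝒞.cL (lA lam ∅)) z')
    (h1 : ‖z'.1 - z.1‖ < 1) (h2 : ‖z'.2 - z.2‖ < 1) : z' = z := by
  obtain ⟨k1, -, k3, -⟩ := h.gra_root hu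
  have e1 : z.1 = z'.1 := (intg_map u).root_unique k1 (by rwa [eval_map]) (by rwa [eval_map]) k3
    (tow_symm h1)
  refine Prod.ext e1.symm ((h.gra_gd hu hz).ep.unique h2 ?_)
  rw [e1]
  exact on_cL.1 hz'

theorem GRD.gra_off (h : 𝒞.GRD lam e G μ u Z) {t : Λ} (hu : u.eval₂ (OL _).subtype t = 0)
    (A : Finset ι) {Q : Λ × Λ} (h1 : ‖Q.1 - t‖ < 1) : Z A Q = 0 := by
  by_contra h0
  obtain ⟨k1, -, -, k4⟩ := h.gra_root hu
  have k5 := (h.supp A Q h0).2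
  rw [← eval_map] at k5
  have k6 := gal1_sub_lt k5
    (((intg_map μ).eval_sub_le (gal1_le_one k1 (tow_symm h1)) k1).trans_lt h1)
  rw [sub_sub_cancel, k4] at k6
  exact lt_irrefl _ k6

theorem GRD.exists_pt (h : 𝒞.GRD lam e G μ u Z) : ∃ (𝒵 : Finset (Λ × Λ))
    (pt : Λ × Λ → Finset ι → Λ × Λ),
    (∀ z, z ∈ 𝒵 ↔ u.eval₂ (OL _).subtype z.1 = 0 ∧ On (𝒞.cL (lA lam ∅)) z) ∧
    (∀ A, dv (𝒞.cL (lA lam A)) (mp (evA A) G) = Z A + ∑ z ∈ 𝒵, Finsupp.single (pt z A) 1) ∧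
    ∀ z ∈ 𝒵, (∃ c, 0 < c ∧ z.1 ∈ T.U (n * c) ∧ z.2 ∈ T.U (n * c)) ∧ ∀ A,
      𝒞.Gd (fun i => (lA lam A i).eval (pt z A).1) (pt z A).2 ∧
      ee (pt z A) (mp (evA A) G) = 0 ∧ ‖(pt z A).1 - z.1‖ < 1 ∧ ‖(pt z A).2 - z.2‖ < 1 ∧
      ∀ Q, On (𝒞.cL (lA lam A)) Q → ee Q (mp (evA A) G) = 0 → ‖Q.1 - z.1‖ < 1 →
        ‖Q.2 - z.2‖ < 1 → Q = pt z A := by
  obtain ⟨𝒵, hZ, hcard⟩ := h.gra_set
  have hp : ∀ z : Λ × Λ, ∃ P : Finset ι → Λ × Λ, z ∈ 𝒵 → ∀ A, On (𝒞.cL (lA lam A)) (P A) ∧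
      ee (P A) (mp (evA A) G) = 0 ∧ ‖(P A).1 - z.1‖ < 1 ∧ ‖(P A).2 - z.2‖ < 1 := fun z => by
    by_cases hz : z ∈ 𝒵
    · obtain ⟨h1, h2⟩ := (hZ z).1 hz
      obtain ⟨c, hc, m1, m2⟩ := h.gra_unr h1 h2
      obtain ⟨τ, η, e0, e1⟩ :=
        h.exists_cube h1 h2 (Nat.mul_pos h.hn hc) (dvd_mul_right _ _) m1 m2
      refine ⟨fun A => (evA A τ, evA A η), fun _ A => ⟨(e1 A).1, (e1 A).2, ?_, ?_⟩⟩
      · rw [← e0]; exact evA_sub_lt h.hk A τ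
      · rw [← e0]; exact evA_sub_lt h.hk A η
    · exact ⟨fun _ => z, fun h => absurd h hz⟩
  choose pt hp using hp
  have hgd : ∀ z ∈ 𝒵, ∀ A, 𝒞.Gd (fun i => (lA lam A i).eval (pt z A).1) (pt z A).2 :=
    fun z hz A => (h.gra_gd ((hZ z).1 hz).1 ((hZ z).1 hz).2).congr
      (fun i => eval_lA_sub h.hk A i (h.gra_root ((hZ z).1 hz).1).1 (hp z hz A).2.2.1)
      (on_cL.1 (hp z hz A).1)
  have hinj : ∀ z ∈ 𝒵, ∀ z' ∈ 𝒵, ∀ A, ‖(pt z' A).1 - z.1‖ < 1 → ‖(pt z' A).2 - z.2‖ < 1 →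
      z' = z := fun z hz z' hz' A h1 h2 =>
    h.gra_inj ((hZ z).1 hz).1 ((hZ z).1 hz).2 ((hZ z').1 hz').1 ((hZ z').1 hz').2
      (tow_tri (tow_symm (hp z' hz' A).2.2.1) h1) (tow_tri (tow_symm (hp z' hz' A).2.2.2) h2)
  have hsum : ∀ A Q, (∑ z ∈ 𝒵, Finsupp.single (pt z A) (1 : ℤ)) Q ≠ 0 → ∃ z ∈ 𝒵, Q = pt z A := by
    intro A Q h0
    rw [Finsupp.finsetSum_apply] at h0
    obtain ⟨z, hz, h1⟩ := Finset.exists_ne_zero_of_sum_ne_zero h0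
    exact ⟨z, hz, (Finsupp.single_apply_ne_zero.1 h1).1⟩
  have hw : ∀ A, Wt (𝒞.b * e) 𝒞.δ (𝒞.cL (lA lam A)) := fun A =>
    𝒞.wt_crv (OL B).subtype (natDegree_lA h.he A)
  have hdv : ∀ A, dv (𝒞.cL (lA lam A)) (mp (evA A) G) =
      Z A + ∑ z ∈ 𝒵, Finsupp.single (pt z A) 1 ∧ Adm (𝒞.cL (lA lam A)) (mp (evA A) G) := by
    intro A
    refine (h.lead.map _).dv_eq (hw A) ((h.van A).add (vanZ_sum (hw A).monic
      (P := fun z => pt z A) (fun z hz z' hz' e => hinj z' hz' z hz A ?_ ?_)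
      fun z hz => ⟨(hgd z hz A).ep.et, (hp z hz A).2.1⟩) fun Q => ?_) ?_
    · rw [show pt z A = pt z' A from e]; exact (hp z' hz' A).2.2.1
    · rw [show pt z A = pt z' A from e]; exact (hp z' hz' A).2.2.2
    · refine or_iff_not_imp_right.2 fun h0 => ?_
      obtain ⟨z, hz, rfl⟩ := hsum A Q h0
      exact h.gra_off ((hZ z).1 hz).1 A (hp z hz A).2.2.1
    · rw [map_add, h.deg, map_sum]
      simp only [Finsupp.degree_single, Finset.sum_const, hcard]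
      push_cast
      ring
  refine ⟨𝒵, pt, hZ, fun A => (hdv A).1, fun z hz =>
    ⟨h.gra_unr ((hZ z).1 hz).1 ((hZ z).1 hz).2, fun A => ⟨hgd z hz A, (hp z hz A).2.1,
      (hp z hz A).2.2.1, (hp z hz A).2.2.2, fun Q q0 q1 q2 q3 => ?_⟩⟩⟩
  have h0 := ((h.lead.map (evA A)).dv_ne_zero (hw A)).2 ⟨(hdv A).2 Q q0 q1, q1⟩
  rw [(hdv A).1, Finsupp.add_apply, h.gra_off ((hZ z).1 hz).1 A q2, zero_add] at h0
  obtain ⟨z', hz', rfl⟩ := hsum A Q h0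
  rw [hinj z hz z' hz' A q2 q3]

end Chart

end Pool.Agent.ZeroCyc
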