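import Pool.Agent.Lib.MP_796ce4_ag.ZY.Gal1

/-! Galois descent, integral polynomials, Hensel by Galois descent. -/

namespace Pool.Agent.ZeroCyc

open Polynomial Module
open scoped Classical IntermediateField

set_option linter.unusedSectionVars false

variable {p : ℕ} {K Λ : Type} [Field K] [CharZero K] [NormedField Λ] [IsUltrametricDist Λ]
  [IsAlgClosed Λ] [Algebra K Λ] [IsGalois K Λ] [Loc p K Λ]

include p

section
variable (K)
include K

theorem charZero_of_loc : CharZero Λ := charZero_of_injective_algebraMap (algebraMap K Λ).injective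
theorem norm_nat_of_not_dvd {n : ℕ} (h : ¬p ∣ n) : ‖(n : Λ)‖ = 1 := by
  refine le_antisymm (IsUltrametricDist.norm_natCast_le_one Λ n) (not_lt.1 fun hlt => ?_)
  have hc : IsCoprime (p : ℤ) (n : ℤ) := Nat.isCoprime_iff_coprime.2
    (((Loc.prime (K := K) (Λ := Λ)).coprime_iff_not_dvd).2 h)
  obtain ⟨a, b, hab⟩ := hc
  have h1 : (a : Λ) * p + b * n = 1 := by exact_mod_cast congrArg (Int.cast : ℤ → Λ) hab
  have h2 := IsUltrametricDist.norm_add_le_max ((a : Λ) * p) (b * n)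
  rw [h1, norm_one, norm_mul, norm_mul] at h2
  refine absurd h2 (not_le.2 (max_lt ?_ ?_))
  · exact mul_lt_one_of_nonneg_of_lt_one_right (IsUltrametricDist.norm_intCast_le_one Λ a)
      (norm_nonneg _) (Loc.norm_p (K := K))
  · exact mul_lt_one_of_nonneg_of_lt_one_right (IsUltrametricDist.norm_intCast_le_one Λ b)
      (norm_nonneg _) hlt
theorem norm_p_pos : 0 < ‖(p : Λ)‖ := by
  have := charZero_of_loc (Λ := Λ) K
  exact norm_pos_iff.2 (by exact_mod_cast (Loc.prime (K := K) (Λ := Λ)).ne_zero)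

end

/-- Hensel by Galois descent -/
theorem hensel_mem {L : IntermediateField K Λ} {f : Λ[X]} (hL : Over L f) (hf : Intg f) {x t : Λ}
    (hx : ‖x‖ ≤ 1) (h0 : f.eval x = 0) (hd : ‖f.derivative.eval x‖ = 1) (ht : t ∈ L)
    (hxt : ‖x - t‖ < 1) : x ∈ L := by
  refine mem_of_fixed fun σ hσ => (hf.root_unique hx h0 ?_ hd ?_).symm
  · rw [← hL.apply_eval hσ, h0, map_zero]
  · refine gal1_trans_lt hxt ?_
    rw [← hσ t ht, ← map_sub, Loc.norm_gal, norm_sub_rev]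
    exact hxt

/-- norms in a finite extension are the powers of the norm of a uniformiser -/
theorem exists_norm_eq_zpow {L : IntermediateField K Λ} {ϖ : Λ} (hL : ϖ ∈ L) (h0 : ϖ ≠ 0)
    (h1 : ‖ϖ‖ < 1) (hm : ∀ x ∈ L, ‖x‖ < 1 → ‖x‖ ≤ ‖ϖ‖) {x : Λ} (hx : x ∈ L) (hx0 : x ≠ 0) :
    ∃ j : ℤ, ‖x‖ = ‖ϖ‖ ^ j := by
  have hp : 0 < ‖ϖ‖ := norm_pos_iff.2 h0
  obtain ⟨n, hn, hn'⟩ := exists_mem_Ioc_zpow (norm_pos_iff.2 hx0) ((one_lt_inv₀ hp).2 h1)
  rw [inv_zpow'] at hn hn'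
  refine ⟨-(n + 1), hn'.eq_or_lt.resolve_right fun hlt => ?_⟩
  have h2 := hm (x * ϖ ^ (n + 1)) (L.mul_mem hx (zpow_mem hL _)) (by
    rw [norm_mul, norm_zpow]
    rwa [zpow_neg, ← one_div, lt_div_iff₀ (zpow_pos hp _)] at hlt)
  rw [norm_mul, norm_zpow, zpow_add_one₀ hp.ne', ← mul_assoc, mul_le_iff_le_one_left hp] at h2
  rw [zpow_neg, ← one_div, div_lt_iff₀ (zpow_pos hp _)] at hn
  exact absurd h2 (not_le.2 hn)

namespace Tower
variable {L : IntermediateField K Λ} (T : Tower p L)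

theorem mono {n N : ℕ} (hn : 0 < n) (hN : 0 < N) (h : n ∣ N) : T.U n ≤ T.U N := by
  obtain ⟨k, rfl⟩ := h
  intro x hx
  refine T.mem_U (n * k) n hN hn x hx ?_
  rw [pow_mul]
  exact (T.fix_U n hn).pow k x hx

theorem gal1_pow_mod {n : ℕ} (hn : 0 < n) (a : ℕ) {x : Λ} (hx : x ∈ T.U n) :
    (T.φ ^ (a % n)) x = (T.φ ^ a) x := by
  conv_rhs => rw [← Nat.mod_add_div a n, pow_add, pow_mul, AlgEquiv.mul_apply,
    (T.fix_U n hn).pow _ x hx]

theorem gal1_pow_mem {n : ℕ} (hn : 0 < n) (a : ℕ) {x : Λ} (hx : x ∈ T.U n) :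
    (T.φ ^ a) x ∈ T.U n := by
  induction a with
  | zero => exact hx
  | succ a ih => rw [pow_succ', AlgEquiv.mul_apply]; exact T.stab n hn _ ih

theorem fam {n : ℕ} (hn : 0 < n) : Fam L (T.U n) fun i : Fin n => T.φ ^ (i : ℕ) := by
  refine ⟨T.le n, fun i => T.φ_fix.pow _, by rw [Fintype.card_fin, T.rank n hn], fun σ hσ => ?_⟩
  obtain ⟨j, hj⟩ := T.perm n hn σ hσ
  have : NeZero n := ⟨hn.ne'⟩
  refine ⟨Equiv.addLeft (Fin.ofNat n j), fun t x hx => ?_⟩
  rw [hj _ (T.gal1_pow_mem hn _ hx), ← AlgEquiv.mul_apply, ← pow_add, ← T.gal1_pow_mod hn _ hx]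
  simp [Fin.val_add]

theorem φ_pow_pow (n : ℕ) {x : Λ} (hx : ‖x‖ ≤ 1) : ‖(T.φ ^ n) x - x ^ p ^ (T.r * n)‖ < 1 := by
  induction n with
  | zero => simp
  | succ n ih =>
    have h1 : ‖(T.φ ^ n) x‖ ≤ 1 := by rwa [Loc.norm_gal]
    rw [pow_succ', AlgEquiv.mul_apply, mul_add_one, pow_add, pow_mul]
    exact gal1_trans_lt (T.φ_pow _ h1) (norm_pow_sub_pow_lt h1 ih _)

/-- every residue class has a representative in the tower -/
theorem exists_near {x : Λ} (hx : ‖x‖ ≤ 1) : ∃ n, 0 < n ∧ ∃ t ∈ T.U n, ‖x - t‖ < 1 := by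
  obtain ⟨n, hn, h⟩ := T.alg x hx
  exact ⟨n, hn, T.lift n hn x hx h⟩

theorem gal1_one_lt : 1 < p ^ T.r :=
  Nat.one_lt_pow T.r_pos.ne' (Loc.prime (K := K) (Λ := Λ)).one_lt

/-- an element of trace congruent to one -/
theorem exists_trace_one {n : ℕ} (hn : 0 < n) :
    ∃ t ∈ T.U n, ‖t‖ ≤ 1 ∧ ‖∑ i : Fin n, (T.φ ^ (i : ℕ)) t - 1‖ < 1 := by
  have hq : ∀ i j, i < j → p ^ (T.r * i) < p ^ (T.r * j) := fun i j h => by
    rw [pow_mul, pow_mul]
    exact Nat.pow_lt_pow_right T.gal1_one_lt h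
  obtain ⟨u, hu1, hu⟩ : ∃ u : Λ, ‖u‖ ≤ 1 ∧ ∑ i ∈ Finset.range n, u ^ p ^ (T.r * i) = 1 := by
    obtain ⟨m, rfl⟩ := Nat.exists_eq_succ_of_ne_zero hn.ne'
    have hpos : 0 < p ^ (T.r * m) := pow_pos (Loc.prime (K := K) (Λ := Λ)).pos _
    have hd : degree (∑ i ∈ Finset.range m, (X : Λ[X]) ^ p ^ (T.r * i) - C 1) <
        (p ^ (T.r * m) : ℕ) := by
      refine (degree_sub_le _ _).trans_lt (max_lt ((degree_sum_le _ _).trans_lt ?_)
        (degree_C_le.trans_lt (by exact_mod_cast hpos)))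
      refine (Finset.sup_lt_iff (WithBot.bot_lt_coe _)).2 fun i hi => ?_
      rw [degree_X_pow]
      exact_mod_cast hq i m (Finset.mem_range.1 hi)
    obtain ⟨u, hu⟩ := IsAlgClosed.exists_root (X ^ p ^ (T.r * m) +
      (∑ i ∈ Finset.range m, (X : Λ[X]) ^ p ^ (T.r * i) - C 1)) (by
      rw [degree_add_eq_left_of_degree_lt (by rwa [degree_X_pow]), degree_X_pow]
      exact_mod_cast hpos.ne')
    refine ⟨u, ((intg_X.pow _).add ((Intg.sum fun i _ => intg_X.pow _).sub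
      (intg_C norm_one.le))).root_le (monic_X_pow_add hd) hu, ?_⟩
    rw [IsRoot.def] at hu
    simp only [eval_add, eval_sub, eval_finsetSum, eval_pow, eval_X, eval_C] at hu
    rw [Finset.sum_range_succ]
    linear_combination hu
  have hA : ‖∑ i ∈ Finset.range n, (T.φ ^ i) u - 1‖ < 1 := by
    rw [← hu, ← Finset.sum_sub_distrib]
    exact gal1_sum_lt fun i _ => T.φ_pow_pow i hu1
  have hB : ‖(T.φ ^ n) u - u‖ < 1 := by
    have h1 : ‖T.φ (∑ i ∈ Finset.range n, (T.φ ^ i) u - 1)‖ < 1 := by rwa [Loc.norm_gal]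
    have h2 := gal1_sub_lt h1 hA
    rw [map_sub, map_one, sub_sub_sub_cancel_right, map_sum, ← Finset.sum_sub_distrib] at h2
    have h3 := Finset.sum_range_sub (fun i => (T.φ ^ i) u) n
    simp only [pow_succ', AlgEquiv.mul_apply] at h3
    rwa [h3] at h2
  obtain ⟨t, ht, hut⟩ := T.lift n hn u hu1
    (gal1_trans_lt (by rw [norm_sub_rev]; exact T.φ_pow_pow n hu1) hB)
  refine ⟨t, ht, gal1_le_one hu1 hut, gal1_trans_lt ?_ hA⟩
  rw [Fin.sum_univ_eq_sum_range fun i => (T.φ ^ i) t, ← Finset.sum_sub_distrib]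
  refine gal1_sum_lt fun i _ => ?_
  rwa [← map_sub, Loc.norm_gal, norm_sub_rev]

/-- avoiding finitely many residue classes in an extension of degree prime to p -/
theorem exists_avoid (s : Finset Λ) :
    ∃ j, 0 < j ∧ ¬p ∣ j ∧ ∃ t ∈ T.U j, ‖t‖ ≤ 1 ∧ ∀ b ∈ s, ¬‖t - b‖ < 1 := by
  have hp := Loc.prime (K := K) (Λ := Λ)
  have hj : 0 < p * s.card + 1 := Nat.succ_pos _
  refine ⟨_, hj, fun h => hp.one_lt.ne' (Nat.dvd_one.1 ((Nat.dvd_add_right
    (dvd_mul_right _ _)).1 h)), ?_⟩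
  by_contra hc
  push Not at hc
  set N := p ^ (T.r * (p * s.card + 1)) with hN
  have hNs : p * s.card + 1 < N := by
    rw [hN, pow_mul]
    exact Nat.lt_pow_self T.gal1_one_lt
  have hs : s.card ≤ p * s.card := Nat.le_mul_of_pos_left _ hp.pos
  have hd : degree (X : Λ[X]) < (N : ℕ) := by
    rw [degree_X]
    exact_mod_cast (by omega : 1 < N)
  have hm : (X ^ N - X : Λ[X]).Monic := monic_X_pow_sub hd
  have hg : Intg (X ^ N - X : Λ[X]) := (intg_X.pow N).sub intg_X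
  have hN1 : ‖(N : Λ)‖ < 1 := by
    rw [hN, Nat.cast_pow, norm_pow]
    exact pow_lt_one₀ (norm_nonneg _) (Loc.norm_p (K := K)) (Nat.mul_pos T.r_pos hj).ne'
  have hder : ∀ x : Λ, eval x (X ^ N - X) = 0 → ‖eval x (derivative (X ^ N - X))‖ = 1 := by
    intro x hx
    rw [← norm_neg, ← norm_one (α := Λ)]
    refine norm_eq_of_sub_lt ?_
    simp only [derivative_sub, derivative_X_pow, derivative_X, eval_sub, eval_mul, eval_C, eval_pow,
      eval_X, eval_one, sub_neg_eq_add, add_sub_cancel, norm_one, norm_mul, norm_pow]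
    exact mul_lt_one_of_nonneg_of_lt_one_left (norm_nonneg _) hN1
      (pow_le_one₀ (norm_nonneg _) (hg.root_le hm hx))
  have hsep : (X ^ N - X : Λ[X]).Separable := by
    refine (isCoprime_iff_aeval_ne_zero_of_isAlgClosed Λ Λ _ _).2 fun a => ?_
    rw [coe_aeval_eq_eval, or_iff_not_imp_left, not_not]
    exact fun h => norm_ne_zero_iff.1 (by rw [hder a h]; exact one_ne_zero)
  have hb : ∀ x : Λ, ∃ b, eval x (X ^ N - X) = 0 → b ∈ s ∧ ‖x - b‖ < 1 := by
    intro x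
    by_cases hx : eval x (X ^ N - X) = 0
    · have hx1 := hg.root_le hm hx
      obtain ⟨t, ht, hxt⟩ := T.lift _ hj x hx1 (by
        simp only [eval_sub, eval_pow, eval_X] at hx
        rw [hx, norm_zero]
        exact one_pos)
      obtain ⟨b, hb, htb⟩ := hc t ht (gal1_le_one hx1 hxt)
      exact ⟨b, fun _ => ⟨hb, gal1_trans_lt hxt htb⟩⟩
    · exact ⟨0, fun h => absurd h hx⟩
  choose b hb using hb
  have hr : ∀ x ∈ (X ^ N - X : Λ[X]).roots.toFinset, eval x (X ^ N - X) = 0 := fun x hx =>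
    (mem_roots hm.ne_zero).1 (Multiset.mem_toFinset.1 hx)
  have hle := Finset.card_le_card_of_injOn (s := (X ^ N - X : Λ[X]).roots.toFinset) (t := s) b
    (fun x hx => (hb x (hr x hx)).1) fun x hx y hy e =>
      hg.root_unique (hg.root_le hm (hr x hx)) (hr x hx) (hr y hy) (hder x (hr x hx))
        (gal1_trans_lt (hb x (hr x hx)).2 (by rw [e, norm_sub_rev]; exact (hb y (hr y hy)).2))
  rw [Multiset.toFinset_card_of_nodup (nodup_roots hsep),
    ← (IsAlgClosed.splits _).natDegree_eq_card_roots, natDegree_eq_of_degree_eq_some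
      ((degree_sub_eq_left_of_degree_lt (by rwa [degree_X_pow])).trans (degree_X_pow N))] at hle
  omega

end Tower

end Pool.Agent.ZeroCyc
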