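import Pool.Agent.Lib.MP_796ce4_ag.ZY.MRc
import Pool.Agent.Lib.MP_796ce4_ag.ZY.SigB
import Pool.Agent.Lib.MP_796ce4_ag.ZY.FgE
import Pool.Agent.Lib.MP_796ce4_ag.ZY.FfM

/-! The formal group of a line. -/

namespace Pool.Agent.ZeroCyc

open Polynomial Module
open scoped Classical IntermediateField PowerSeries

set_option linter.unusedSectionVars false

variable {p : ℕ} {K Λ : Type} [Field K] [CharZero K] [NormedField Λ] [IsUltrametricDist Λ]
  [IsAlgClosed Λ] [Algebra K Λ] [IsGalois K Λ] [Loc p K Λ] [Fact p.Prime] [CharP (kk Λ) p]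

variable {N : ℕ} {J : Ideal (MvPolynomial (Fin (N + 1)) K)} {B : IntermediateField K Λ}

theorem exists_intR_OL (L : IntermediateField K Λ) :
    ∃ ι : OL L →+* L, (∀ x, ((ι x : L) : Λ) = x) ∧ IntR ι (rL L) := by
  refine ⟨(OL L).subtype.codRestrict L fun x => (mem_OL.1 x.2).1, fun _ => rfl, ?_, ?_, ?_⟩
  · intro x y h
    exact Subtype.ext (congrArg (fun z : L => (z : Λ)) h)
  · intro x
    constructor
    · intro h
      exact ⟨⟨x, mem_OL.2 ⟨x.2, h⟩⟩, rfl⟩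
    · rintro ⟨y, rfl⟩
      exact (mem_OL.1 y.2).2
  · intro x
    rw [rL_apply, rs_eq_zero (mem_OL.1 x.2).2]
    rfl

theorem lina_le {L : IntermediateField K Λ} (x : OL L) : ‖(OL L).subtype x‖ ≤ 1 :=
  (mem_OL.1 x.2).2

theorem lina_on {L : IntermediateField K Λ} {χ : (OL L)[X][X]} {Q : OL L × OL L} :
    On χ Q ↔ e2 (OL L).subtype Q.1 Q.2 χ = 0 := by
  have h := map_ee (OL L).subtype Q χ
  rw [ee_mp] at h
  unfold On
  rw [← map_eq_zero_iff (OL L).subtype Subtype.val_injective, h]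
  rfl

theorem lina_unit {ρ z a b u : Λ} (hρ : ‖ρ‖ ≤ 1) (hz : ‖z‖ ≤ 1) (ha : ‖a‖ ≤ 1) (hb : ‖b‖ ≤ 1)
    (h : a * u + b * ρ = 1) (hu : u + ρ * z = 0) : ‖ρ‖ = 1 := by
  have h1 : ρ * (a * -z + b) = 1 := by linear_combination h - a * hu
  have h2 : ‖a * -z + b‖ ≤ 1 := (IsUltrametricDist.norm_add_le_max _ _).trans
    (max_le (by rw [norm_mul, norm_neg]; exact mul_le_one₀ ha (norm_nonneg _) hz) hb)
  have h3 := congrArg norm h1
  rw [norm_mul, norm_one] at h3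
  refine le_antisymm hρ ?_
  rw [← h3]
  exact mul_le_of_le_one_right (norm_nonneg _) h2

include p in
/-- lifting an etale point of the special fibre -/
theorem lina_lift {L : IntermediateField K Λ} {χ : (OL L)[X][X]} (hm : χ.Monic) (a b : OL L)
    (h : Et (mp (rL L) χ) (rL L a, rL L b)) : ∃ b' : OL L, On χ (a, b') := by
  have hf : χ.map (eval₂RingHom (OL L).subtype a) = (χ.map (evalRingHom a)).map (OL L).subtype := by
    rw [Polynomial.map_map]
    congr 1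
    exact RingHom.ext fun u => eval₂_at_apply (OL L).subtype a
  have hO : Over L (χ.map (eval₂RingHom (OL L).subtype a)) := hf ▸ over_map _
  have hI : Intg (χ.map (eval₂RingHom (OL L).subtype a)) := hf ▸ intg_map _
  obtain ⟨h0, h1⟩ := h
  rw [ee_mp, rL_apply, rL_apply] at h0
  rw [← mp_derivative, ee_mp, rL_apply, rL_apply] at h1
  have h2 := rs_e2 lina_le rL_apply (lina_le a) (lina_le b) χ
  obtain ⟨x, hx, hxb⟩ := hI.exists_root_near (hm.map _) (t := b) (by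
    rw [← e2_eq_eval]
    exact (rs_eq_zero h2.1).1 (h2.2.trans h0))
  have hx1 := hI.root_le (hm.map _) hx
  have h3 := rs_e2 lina_le rL_apply (lina_le a) hx1 (derivative χ)
  have h4 : ‖(χ.map (eval₂RingHom (OL L).subtype a)).derivative.eval x‖ = 1 := by
    rw [derivative_map, ← e2_eq_eval, ← rs_ne_zero]
    refine fun e => h1 (Eq.trans ?_ (h3.2.symm.trans e))
    rw [(rs_eq_iff hx1 (lina_le b)).2 hxb]
    rfl
  refine ⟨⟨x, mem_OL.2 ⟨hensel_mem hO hI hx1 hx h4 (mem_OL.1 b.2).1 hxb, hx1⟩⟩, lina_on.2 ?_⟩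
  rw [e2_eq_eval]
  exact hx

namespace Chart

variable {𝒞 : Chart J B} {T : Tower p B} {n : ℕ}

/-- base points on a curve with irreducible reduction -/
theorem exists_basP (hn : 0 < n) (c : Cv (OL (T.U n))) (hi : Irreducible (mp (rL _) c.χ))
    {P₀ : OL (T.U n) × OL (T.U n)} (h0 : On c.χ P₀) (h1 : rL _ (c.ρ.eval P₀.1) ≠ 0) {M : ℕ}
    (hq : (c.c0 + c.δ * (M + 1)) ^ 2 ≤ p ^ (T.r * n)) :
    ∃ P : Option (Fin M) → OL (T.U n) × OL (T.U n), P none = P₀ ∧ BasP (rL _) c P := by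
  have hev : ∀ a, (c.map (rL _)).ρ.eval (rL _ a) = rL _ (c.ρ.eval a) := fun a => by
    change (c.ρ.map _).eval _ = _
    rw [eval_map, eval₂_at_apply]
  have hρ : (c.map (rL _)).ρ ≠ 0 := fun e => h1 (by rw [← hev, e, eval_zero])
  have hF : (c.map (rL _)).Inv (fr (kk Λ) p (T.r * n)) := by
    constructor
    · change mp _ (mp _ c.χ) = mp _ c.χ
      rw [mp_mp, T.fr_rL hn]
    · change (c.ρ.map _).map _ = c.ρ.map _
      rw [Polynomial.map_map, T.fr_rL hn]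
  obtain ⟨Q, hQ, hinj⟩ := ff_many (c := c.map (rL _)) hρ hi (algP_kk K) (Nat.mul_pos T.r_pos hn) hF
    (M := M) hq (rL _ P₀.1)
  have hl : ∀ j, ∃ P : OL (T.U n) × OL (T.U n), On c.χ P ∧ rL _ P.1 = (Q j).1 := fun j => by
    obtain ⟨a, ha⟩ := T.exists_lift hn (congrArg Prod.fst (hQ j).2.1)
    obtain ⟨b, hb⟩ := T.exists_lift hn (congrArg Prod.snd (hQ j).2.1)
    obtain ⟨b', hb'⟩ := lina_lift c.wt.monic a b (by rw [ha, hb]; exact (hQ j).1.et)
    exact ⟨(a, b'), hb', ha⟩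
  choose P hP hP' using hl
  refine ⟨fun j => j.elim P₀ P, rfl, ?_, ?_, ?_⟩
  · rintro (_ | j)
    exacts [h0, hP j]
  · rintro (_ | j)
    · exact h1
    · change rL _ (c.ρ.eval (P j).1) ≠ 0
      rw [← hev, hP']
      exact (hQ j).1.2
  · rintro (_ | j) (_ | j') e
    · rfl
    · exact absurd ((hP' j').symm.trans e.symm) (hQ j').2.2
    · exact absurd ((hP' j).symm.trans e) (hQ j).2.2
    · exact congrArg some (hinj ((hP' j).symm.trans (e.trans (hP' j'))))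

section curve

variable {L : IntermediateField K Λ} (hB : B ≤ L) {lam : Fin 𝒞.d → (OL L)[X]} {e : ℕ}
  (he : ∀ i, (lam i).natDegree ≤ e)

theorem lina_e2 (τ η : Λ) (f : MP 𝒞.d (OL B)) :
    e2 (OL L).subtype τ η (cv (inc hB) lam f) =
      ev2 (OL B).subtype (fun i => ((lam i).map (OL L).subtype).eval τ) η f := by
  rw [e2_cv, subtype_inc]
  simp only [eval_map]

theorem lina_rho (τ : Λ) : (𝒞.rho (inc hB) lam).eval₂ (OL L).subtype τ =
    MvPolynomial.eval₂ (OL B).subtype (fun i => ((lam i).map (OL L).subtype).eval τ) 𝒞.D₀ := by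
  rw [eval₂_rho, subtype_inc]
  simp only [eval_map]

include p in
/-- principal divisors of the curve have trivial class -/
theorem lina_wit [FiniteDimensional K L] {u : (OL L)[X]} {a : (OL L)[X][X]}
    (h : (𝒞.crv (inc hB) lam e he).Wit u a) :
    clL J L (𝒞.Pf (fun i => (lam i).map (OL L).subtype)
      (dv (mp (OL L).subtype (𝒞.crv (inc hB) lam e he).χ)
        (mp (OL L).subtype ((𝒞.crv (inc hB) lam e he).G u a)))) =
    clL J L (𝒞.Pf (fun i => (lam i).map (OL L).subtype)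
      (dv (mp (OL L).subtype (𝒞.crv (inc hB) lam e he).χ) (mp (OL L).subtype (C u)))) := by
  have hχ : mp (OL L).subtype (𝒞.crv (inc hB) lam e he).χ =
      𝒞.cL fun i => (lam i).map (OL L).subtype := by
    change mp _ (cv _ _ _) = _
    rw [mp_cv, subtype_inc]
  have he' : ∀ i, ((lam i).map (OL L).subtype).natDegree ≤ e := fun i =>
    natDegree_map_le.trans (he i)
  have hm : ∀ x : OL L, (OL L).subtype x ∈ L := fun x => (mem_OL.1 x.2).1
  have hG : Lead (𝒞.b * e) u.natDegree (mp (OL L).subtype ((𝒞.crv (inc hB) lam e he).G u a)) :=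
    h.lead.map _
  have hG' : Lead (𝒞.b * e) u.natDegree (mp (OL L).subtype (C u)) := (lead_C h.monic).map _
  rw [hχ]
  refine MRc hB (fun i => over_map _) he' hG hG' (ov2_mp hm _) (ov2_mp hm _) fun Q hQ hz => ?_
  have hle : ‖Q.1‖ ≤ 1 ∧ ‖Q.2‖ ≤ 1 := hz.elim
    (zero_le (fun i => intg_map _) he' hG (in2_mp lina_le _) hQ)
    (zero_le (fun i => intg_map _) he' hG' (in2_mp lina_le _) hQ)
  refine Gd.ep ⟨fun i => (intg_map _).eval_le hle.1, hle.2, on_cL.1 hQ, ?_⟩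
  rw [← lina_rho hB]
  obtain ⟨a', b', hab⟩ := h.cop
  have h1 := congrArg (eval₂RingHom (OL L).subtype Q.1) hab
  rw [map_add, map_mul, map_mul, map_one] at h1
  have hn := norm_eval₂_le lina_le hle.1 (φ := (OL L).subtype)
  rcases hz with hz | hz
  · rw [ee_mp, Cv.G, map_add, map_mul, e2_C, e2_C] at hz
    exact lina_unit (hn _) (rs_e2 lina_le rL_apply hle.1 hle.2 a).1 (hn a') (hn b') h1 hz
  · rw [ee_mp, e2_C] at hz
    exact lina_unit (z := 0) (hn _) (by simp) (hn a') (hn b') h1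
      (by rw [mul_zero, add_zero, ← hz]; rfl)

theorem lina_gd {Q : OL L × OL L} (h0 : On (𝒞.crv (inc hB) lam e he).χ Q)
    (h1 : rL L ((𝒞.crv (inc hB) lam e he).ρ.eval Q.1) ≠ 0) :
    𝒞.GdL L (fun i => ((lam i).map (OL L).subtype).eval (Q.1 : Λ)) Q.2 := by
  refine ⟨⟨fun i => (intg_map _).eval_le (lina_le _), lina_le _, ?_, ?_⟩,
    fun i => (over_map _).eval (mem_OL.1 Q.1.2).1, (mem_OL.1 Q.2.2).1⟩
  · rw [← lina_e2 hB]
    exact lina_on.1 h0
  · rw [rL_apply, rs_ne_zero] at h1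
    rw [← lina_rho hB, ← h1]
    exact congrArg norm (eval₂_at_apply (OL L).subtype Q.1)

/-- the moved point -/
theorem lina_move [IsUltrametricDist L] [CompleteSpace L] {ι : OL L →+* L}
    (hι : ∀ x, ((ι x : L) : Λ) = x) (hI : IntR ι (rL L)) {A : Type} [Fintype A]
    {P : A → OL L × OL L} (hP : BasP (rL L) (𝒞.crv (inc hB) lam e he) P) (j : A) {x : L}
    (hx : ‖x‖ < 1) : ∃ η : Λ, η ∈ L ∧ ‖η - (P j).2‖ < 1 ∧
      ev2 (OL B).subtype (fun i => ((lam i).map (OL L).subtype).eval (((P j).1 : Λ) + x)) η 𝒞.χ = 0 ∧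
      𝒞.Pf (fun i => (lam i).map (OL L).subtype)
        (mv ι (algebraMap L Λ) (𝒞.crv (inc hB) lam e he).χ (P j) x) =
      Finsupp.single
          (𝒞.io (fun i => ((lam i).map (OL L).subtype).eval (((P j).1 : Λ) + x)) η) 1 -
        Finsupp.single
          (𝒞.io (fun i => ((lam i).map (OL L).subtype).eval ((P j).1 : Λ)) (P j).2) 1 := by
  have hc : (algebraMap L Λ).comp ι = (OL L).subtype := RingHom.ext hι
  obtain ⟨h1, ℓ, h2⟩ := sd_hn hI hP j
  have h3 : algebraMap L Λ (ι (P j).1 + x) = ((P j).1 : Λ) + x := by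
    rw [map_add, ← hι]; rfl
  refine ⟨_, (hn ι (𝒞.crv (inc hB) lam e he).χ (P j) x).2, ?_, ?_, ?_⟩
  · rw [← hι]
    exact (h2.norm_le hx).trans_lt hx
  · have h4 := congrArg (algebraMap L Λ) (h1 x hx)
    rw [map_e2, map_zero, hc, h3] at h4
    rw [← lina_e2 hB]
    exact h4
  · rw [mv, map_sub, Pf_single, Pf_single, hc, h3]
    rfl

end curve

theorem line1 (hn : 0 < n) {y : Fin 𝒞.d → Λ} {h : Λ} (hg : 𝒞.GdL (T.U n) y h)
    {e : Fin 𝒞.d → Λ} (he : ∀ i, e i ∈ OL (T.U n))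
    (hi : Irreducible (cv (rL B) (fun i => C (rs (y i)) + C (rs (e i)) * X) 𝒞.χ))
    (hq : (cst 𝒞.δ 𝒞.b 𝒞.W + 𝒞.δ * (3 * cst 𝒞.δ 𝒞.b 𝒞.W + 1)) ^ 2 ≤ p ^ (T.r * n)) {x : Λ}
    (hx : x ∈ T.U n) (hx' : ‖x‖ < 1) :
    Nice p (𝒞.Vu T) (clL J (T.U n) (𝒞.Jm h (sg (y + x • e) - sg y))) ∧ (‖x‖ < ‖(p : Λ)‖ ^ 2 →
      clL J (T.U n) (𝒞.Jm h (sg (y + x • e) - sg y)) ∈ mulS p (𝒞.Vu T)) := by
  have := T.fin n hn
  have : IsUltrametricDist (T.U n) :=
    ⟨fun a b c => IsUltrametricDist.dist_triangle_max (a : Λ) b c⟩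
  have : CompleteSpace (T.U n) := (Loc.complete (T.U n) (T.fin n hn)).completeSpace_coe
  obtain ⟨ι, hι, hI⟩ := exists_intR_OL (T.U n)
  obtain ⟨lam, hlam⟩ : ∃ lam : Fin 𝒞.d → (OL (T.U n))[X], ∀ i, lam i =
      C ⟨y i, mem_OL.2 ⟨hg.y_mem i, hg.gd.y_le i⟩⟩ + C ⟨e i, he i⟩ * X := ⟨_, fun _ => rfl⟩
  have hd : ∀ i, (lam i).natDegree ≤ 1 := fun i => by
    rw [hlam, add_comm]; exact natDegree_linear_le
  have hev : ∀ τ : Λ, (fun i => ((lam i).map (OL (T.U n)).subtype).eval τ) = y + τ • e :=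
    fun τ => funext fun i => by
      rw [hlam, Polynomial.map_add, Polynomial.map_mul, map_C, map_C, map_X, eval_add, eval_mul,
        eval_C, eval_C, eval_X, mul_comm]
      rfl
  have hc0 : (𝒞.crv (inc (T.le n)) lam 1 hd).c0 = cst 𝒞.δ 𝒞.b 𝒞.W := by
    change cst 𝒞.δ (𝒞.b * 1) (𝒞.W * 1) = _
    rw [mul_one, mul_one]
  have hi' : Irreducible (mp (rL _) (𝒞.crv (inc (T.le n)) lam 1 hd).χ) := by
    change Irreducible (mp _ (cv _ _ _))
    rw [mp_cv, rL_inc]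
    convert hi using 4 with i
    rw [hlam, Polynomial.map_add, Polynomial.map_mul, map_C, map_C, map_X, rL_apply, rL_apply]
  obtain ⟨P, hP0, hP⟩ := exists_basP hn (𝒞.crv (inc (T.le n)) lam 1 hd) hi'
    (P₀ := (0, ⟨h, mem_OL.2 ⟨hg.h_mem, hg.gd.h_le⟩⟩)) (M := 3 * cst 𝒞.δ 𝒞.b 𝒞.W)
    (lina_on.2 (by
      refine (lina_e2 (T.le n) _ _ _).trans ?_
      rw [hev]
      simpa using hg.gd.on))
    (by
      rw [rL_apply, rs_ne_zero]
      refine Eq.trans (congrArg norm ((eval₂_at_apply (OL (T.U n)).subtype _).symm.trans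
        ((lina_rho (T.le n) _).trans ?_))) hg.gd.unit
      rw [hev]
      simp)
    (by rw [hc0]; exact hq)
  have hc : (algebraMap (T.U n) Λ).comp ι = (OL (T.U n)).subtype := RingHom.ext hι
  obtain ⟨g, t, hFG, hz⟩ := exists_fg hI hP hi' none (by rw [hc0]; simp) (algebraMap (T.U n) Λ)
    ((clL J (T.U n)).comp (𝒞.Pf fun i => (lam i).map (OL (T.U n)).subtype))
    (fun u a hw => by rw [hc]; exact lina_wit (T.le n) hd hw)
  have hnat : ∀ m : ℕ, ‖(m : T.U n)‖ = ‖(m : Λ)‖ := fun m =>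
    congrArg norm (map_natCast (algebraMap (T.U n) Λ) m)
  obtain ⟨z, hz1, hz2⟩ := hz ⟨x, hx⟩ hx'
  have hz1' : ‖z‖ ≤ ‖x‖ := hz1
  have hN := hFG.nice (p := p) (H := 𝒞.Vu T) (by rw [hnat]; exact Loc.norm_p (K := K))
    (fun m hm => by rw [hnat]; exact norm_nat_of_not_dvd K hm) (fun w hw => by
      refine sum_mem fun i _ => ?_
      have hwi : ‖w i‖ < 1 := (norm_le_pi_norm w i).trans_lt hw
      obtain ⟨η, h1, h2, h3, h4⟩ := lina_move (T.le n) hd hι hI hP (t i) hwi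
      have hg0 := lina_gd (T.le n) hd (hP.on (t i)) (hP.good (t i))
      have hle : ‖((P (t i)).1 : Λ) + w i‖ ≤ 1 := (IsUltrametricDist.norm_add_le_max _ _).trans
        (max_le (lina_le _) hwi.le)
      have hy : ∀ k, ‖((lam k).map (OL (T.U n)).subtype).eval (((P (t i)).1 : Λ) + w i) -
          ((lam k).map (OL (T.U n)).subtype).eval ((P (t i)).1 : Λ)‖ < 1 := fun k => by
        refine ((intg_map _).eval_sub_le hle (lina_le _)).trans_lt ?_
        rw [Subring.coe_subtype, add_sub_cancel_left]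
        exact hwi
      rw [AddMonoidHom.comp_apply, h4]
      exact diff_mem_Vu hn hg0 ⟨hg0.gd.congr hy h3, fun k => (over_map _).eval
        (add_mem (mem_OL.1 (P (t i)).1.2).1 (w i).2), h1⟩ hy h2) (hz1'.trans_lt hx')
  obtain ⟨η, -, h2, h3, h4⟩ := lina_move (T.le n) hd hι hI hP none (x := ⟨x, hx⟩) hx'
  rw [← hz2, AddMonoidHom.comp_apply, h4, hev, hev, hP0, hnat] at hN
  rw [hev, hP0] at h3
  rw [hP0] at h2
  simp only [ZeroMemClass.coe_zero, zero_add, zero_smul, add_zero] at hN h2 h3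
  rw [map_sub, Jm_sg, Jm_sg, hg.gd.ep.hen_self, hg.gd.ep.hen_eq (fun i => by
    rw [Pi.add_apply, add_sub_cancel_left, Pi.smul_apply, smul_eq_mul]
    exact tow_mul_lt hx' (mem_OL.1 (he i)).2) h2 h3]
  exact ⟨hN.1, fun hlt => hN.2 (hz1'.trans_lt hlt)⟩

end Chart

end Pool.Agent.ZeroCyc
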