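import Pool.Agent.Lib.MP_796ce4_ag.ZY.Pack
import Pool.Agent.Lib.MP_796ce4_ag.ZY.ML1
import Pool.Agent.Lib.MP_796ce4_ag.ZY.FTor
import Pool.Agent.Lib.MP_796ce4_ag.ZY.Lin
import Pool.Agent.Lib.MP_796ce4_ag.ZY.LocInst

/-! The structure theorem. -/

namespace Pool.Agent.ZeroCyc

open Polynomial Module
open scoped Classical IntermediateField PowerSeries

set_option linter.unusedSectionVars false

section

variable {p : ℕ} {K Λ : Type} [Field K] [CharZero K] [NormedField Λ] [IsUltrametricDist Λ]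
  [IsAlgClosed Λ] [Algebra K Λ] [IsGalois K Λ] [Loc p K Λ] [Fact p.Prime] [CharP (kk Λ) p]

variable {N : ℕ} {J : Ideal (MvPolynomial (Fin (N + 1)) K)} {O : Type} [CommRing O] [Algebra O K]
  {I : Ideal (MvPolynomial (Fin (N + 1)) O)}

theorem pack_of_chart (hI : GoodModel O I) (hJ : J = I.map (MvPolynomial.map (algebraMap O K)))
    (hO : ∀ c : O, ‖algebraMap K Λ (algebraMap O K c)‖ ≤ 1) {B : IntermediateField K Λ}
    [FiniteDimensional K B] {𝒞 : Chart J B} (hi : 𝒞.Irr) {Ξ : MvPolynomial (Fin (N + 1)) (OL B)}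
    (hΞ : NV J Ξ) (hc : 𝒞.Covers Ξ) : ∃ V U, Pack p J B V U := by
  obtain ⟨T⟩ := exists_tower (p := p) B
  exact ⟨𝒞.Vu T, 𝒞.UU T, Chart.Vu_le_Azero, fun _ hx => Chart.Vu_nice hi hx, Chart.Vu_fin hi,
    Chart.UU_le_Atot, Chart.UU_fin, fun _ hx h0 => Chart.UU_tor hi hx h0,
    fun L hL _ y hy => mem_UU hI hJ hO T hΞ hc hL hy⟩

variable (Λ) in
theorem main_loc (hI : GoodModel O I) (hJ : J = I.map (MvPolynomial.map (algebraMap O K)))
    (hO : ∀ c : O, ‖algebraMap K Λ (algebraMap O K c)‖ ≤ 1) :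
    ∃ (n : ℕ) (F : Type) (_ : AddCommGroup F) (_ : Finite F),
      Nonempty ((A0 J Λ ⧸ maxDiv (A0 J Λ)) ≃+ (Fin n → ℤ_[p]) × F) := by
  obtain ⟨T⟩ := exists_tower (p := p) (⊥ : IntermediateField K Λ)
  obtain ⟨e₁⟩ := A0_equiv (J := J) (Λ := Λ) (hI.smul hJ)
  obtain ⟨e₂⟩ := maxDiv_congr e₁
  obtain ⟨n, F, iF, hF, ⟨e⟩⟩ := zp_of_pack (J := J) T (fun L y hL hy => by
    obtain ⟨P, hP, hPL, -⟩ := hy.exists_prim (hI.smul hJ)
    obtain ⟨n, hn, -, hnL, hres⟩ := T.exists_res one_pos (L := L) (by rw [T.U_one]; exact bot_le)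
    refine ⟨n, hn, hnL, fun l hl => ?_⟩
    obtain ⟨i, 𝒞, hi, -, -, Ξ, hΞ, hc⟩ := exists_chart hI hJ hO T (Ξ := 1)
      ⟨⟨0, MvPolynomial.isHomogeneous_one _ _⟩, P, hP, by simp⟩ hP hn (fun i => by
        obtain ⟨c, h1, -, h2⟩ := hres (P i) (hPL i) ((norm_le_pi_norm P i).trans hP.2.le)
        exact ⟨c, h1, h2⟩) hl
    have := T.fin (n * l ^ i) (Nat.mul_pos hn (pow_pos (by omega) _))
    exact ⟨i, pack_of_chart hI hJ hO hi hΞ hc⟩)
  exact ⟨n, F, iF, hF, ⟨e₂.trans e⟩⟩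

end

theorem final (p : ℕ) [Fact p.Prime] (K : Type) [Field K] [Algebra ℚ_[p] K]
    [FiniteDimensional ℚ_[p] K] [Algebra ℤ_[p] K] [IsScalarTower ℤ_[p] ℚ_[p] K] {N : ℕ}
    (I : Ideal (MvPolynomial (Fin (N + 1)) (integralClosure ℤ_[p] K)))
    (hI : GoodModel (integralClosure ℤ_[p] K) I) :
    ∃ (n : ℕ) (F : Type) (_ : AddCommGroup F) (_ : Finite F), Nonempty
      ((A0 (I.map (MvPolynomial.map (algebraMap _ K))) (AlgebraicClosure K) ⧸
        maxDiv (A0 (I.map (MvPolynomial.map (algebraMap _ K))) (AlgebraicClosure K))) ≃+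
          (Fin n → ℤ_[p]) × F) := by
  have : CharZero K := charZero_of_injective_algebraMap (algebraMap ℚ_[p] K).injective
  have : Algebra.IsAlgebraic ℚ_[p] (AlgebraicClosure K) :=
    Algebra.IsAlgebraic.trans ℚ_[p] K (AlgebraicClosure K)
  let : NormedField (AlgebraicClosure K) := spectralNorm.normedField ℚ_[p] (AlgebraicClosure K)
  let : NormedAlgebra ℚ_[p] (AlgebraicClosure K) := spectralNorm.normedAlgebra _ _
  have : IsUltrametricDist (AlgebraicClosure K) :=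
    IsUltrametricDist.isUltrametricDist_of_forall_norm_add_le_max_norm
      (isNonarchimedean_spectralNorm (K := ℚ_[p]) (L := AlgebraicClosure K))
  have : Loc p K (AlgebraicClosure K) := loc_of_padic p K (AlgebraicClosure K)
  have : CharP (kk (AlgebraicClosure K)) p := tow_charP (p := p) (K := K)
  exact main_loc (p := p) (AlgebraicClosure K) hI rfl
    fun c => norm_le_one_of_isIntegral p K (AlgebraicClosure K) c.2

end Pool.Agent.ZeroCyc
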