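import Pool.Agent.Lib.MP_796ce4_ag.ZY.Cl
import Pool.Agent.Lib.MP_796ce4_ag.ZY.PlaceB

/-! Principal divisors on curves over a finite extension have trivial class. -/

namespace Pool.Agent.ZeroCyc

open Polynomial Module
open scoped Classical IntermediateField PowerSeries

set_option linter.unusedSectionVars false

variable {K Λ : Type} [Field K] [CharZero K] [Field Λ] [IsAlgClosed Λ] [Algebra K Λ] [IsGalois K Λ]
  {N : ℕ} {J : Ideal (MvPolynomial (Fin (N + 1)) K)}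

theorem Sp.unique {k F : Type} [Field k] [Field F] [Algebra k F] [Algebra k Λ]
    [Algebra.IsAlgebraic k Λ] {P : Place k F Λ} {g : Fin (N + 1) → F} {y y' : PY Λ N}
    (h : Sp P g y) (h' : Sp P g y') : y = y' := by
  obtain ⟨c, hc, hw, rfl⟩ := h
  obtain ⟨c', hc', hw', rfl⟩ := h'
  obtain ⟨i0, hi0⟩ := Function.ne_iff.1 hw
  have hv : ∀ i, P.Val (c * g i) (P.ev ⟨c * g i, hc i⟩) := fun i => ⟨hc i, rfl⟩
  have hv' : ∀ i, P.Val (c' * g i) (P.ev ⟨c' * g i, hc' i⟩) := fun i => ⟨hc' i, rfl⟩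
  have hne : c * g i0 ≠ 0 := fun e => hi0 (by
    have h0 : (⟨c * g i0, hc i0⟩ : P.v.integer) = 0 := Subtype.ext e
    simp only [h0, map_zero, Pi.zero_apply])
  have hu := (hv' i0).mul ((hv i0).inv hi0)
  symm
  rw [Projectivization.mk_eq_mk_iff']
  refine ⟨P.ev ⟨c' * g i0, hc' i0⟩ * (P.ev ⟨c * g i0, hc i0⟩)⁻¹, funext fun i => ?_⟩
  have h1 := hu.mul (hv i)
  have e : c' * g i0 * (c * g i0)⁻¹ * (c * g i) = c' * g i := by
    have h2 := left_ne_zero_of_mul hne
    have h3 := right_ne_zero_of_mul hne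
    field_simp
  rw [e] at h1
  exact h1.unique (hv' i)

theorem sp_of_val {k F : Type} [Field k] [Field F] [Algebra k F] [Algebra k Λ] {P : Place k F Λ}
    {g : Fin (N + 1) → F} {w : Fin (N + 1) → Λ} (h : ∀ i, P.Val (g i) (w i)) (hw : w ≠ 0) :
    Sp P g (pj w) := by
  have hc : ∀ i, 1 * g i ∈ P.v.integer := fun i => by rw [one_mul]; exact (h i).1
  have e : (fun i => P.ev ⟨1 * g i, hc i⟩) = w := funext fun i => by
    obtain ⟨h1, h2⟩ := h i
    rw [← h2]
    exact congrArg P.ev (Subtype.ext (one_mul _))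
  refine ⟨1, hc, by rwa [e], ?_⟩
  rw [pj_eq hw]
  congr 1
  exact e.symm

section
variable {F : Type} [Field F] [Algebra K F]

/-- twist of a place by an automorphism -/
noncomputable def r0_tw (σ : Λ ≃ₐ[K] Λ) (P : Place K F Λ) : Place K F Λ where
  v := P.v
  surj := P.surj
  ev := (σ : Λ →+* Λ).comp P.ev
  ev_alg c := by
    obtain ⟨h, e⟩ := P.ev_alg c
    exact ⟨h, by rw [RingHom.comp_apply, e]; exact σ.commutes c⟩

theorem r0_tw_tw (σ : Λ ≃ₐ[K] Λ) (P : Place K F Λ) : r0_tw σ⁻¹ (r0_tw σ P) = P := by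
  refine Place.ext' rfl ?_
  rintro f c ⟨h, rfl⟩
  exact ⟨h, (σ.symm_apply_apply _).symm⟩

theorem r0_comp_ne (σ : Λ ≃ₐ[K] Λ) {w : Fin (N + 1) → Λ} (hw : w ≠ 0) : σ ∘ w ≠ 0 := fun e =>
  hw (funext fun i => σ.injective ((congrFun e i).trans (map_zero σ).symm))

theorem r0_sp_tw (σ : Λ ≃ₐ[K] Λ) {P : Place K F Λ} {g : Fin (N + 1) → F} {y : PY Λ N}
    (h : Sp P g y) : Sp (r0_tw σ P) g (galY σ y) := by
  obtain ⟨c, hc, hw, rfl⟩ := h
  refine ⟨c, hc, r0_comp_ne σ hw, ?_⟩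
  rw [← pj_eq hw, galY_pj, pj_eq (r0_comp_ne σ hw)]
  rfl

theorem r0_base {t : F} (ht : Transcendental K t) (hF : FiniteDimensional K⟮t⟯ F)
    {f : F} (hf : f ≠ 0) {s : Finset (Place K F Λ)} (hs : ∀ P : Place K F Λ, P.ord f ≠ 0 → P ∈ s)
    {g : Fin (N + 1) → F} (hg : g ≠ 0) (hX : OnX J g) (y : Place K F Λ → PY Λ N)
    (hy : ∀ P ∈ s, Sp P g (y P)) :
    avg K (∑ P ∈ s, Finsupp.single (y P) (P.ord f)) ∈ (RatEq J Λ).map (incl Λ N) := by
  set D : PY Λ N →₀ ℤ := ∑ P ∈ s, Finsupp.single (y P) (P.ord f) with hD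
  have hD' : D = ∑ P ∈ s.filter (fun P => P.ord f ≠ 0), Finsupp.single (y P) (P.ord f) := by
    rw [hD, Finset.sum_filter_of_ne]
    intro P _ h h0
    exact h (by rw [h0, Finsupp.single_zero])
  have hinv : ∀ σ : Λ ≃ₐ[K] Λ, galC σ D = D := by
    intro σ
    rw [hD', map_sum]
    refine Finset.sum_nbij' (r0_tw σ) (r0_tw σ⁻¹) ?_ ?_ ?_ ?_ ?_
    · intro P hP
      have h := (Finset.mem_filter.1 hP).2
      exact Finset.mem_filter.2 ⟨hs _ h, h⟩
    · intro P hP
      have h := (Finset.mem_filter.1 hP).2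
      exact Finset.mem_filter.2 ⟨hs _ h, h⟩
    · intro P _
      exact r0_tw_tw σ P
    · intro P _
      have := r0_tw_tw σ⁻¹ P
      rwa [inv_inv] at this
    · intro P hP
      obtain ⟨h1, h2⟩ := Finset.mem_filter.1 hP
      rw [galC_single, Sp.unique (r0_sp_tw σ (hy P h1)) (hy _ (hs (r0_tw σ P) h2))]
      rfl
  rw [avg_of_inv hinv]
  refine AddSubgroup.mem_map_of_mem _ (AddSubgroup.subset_closure
    ⟨F, inferInstance, inferInstance, t, ht, hF, g, f, hg, hX, hf, fun z => ?_⟩)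
  have h1 : ∀ P : Place K F Λ, (∑ᶠ (_ : Sp P g z), -WithZero.log (P.v f)) =
      if Sp P g z then P.ord f else 0 := fun P => finsum_eq_if
  simp only [h1]
  rw [finsum_eq_sum_of_support_subset (s := s), hD, Finsupp.finsetSum_apply]
  · refine Finset.sum_congr rfl fun P hP => ?_
    rw [Finsupp.single_apply]
    refine if_congr ⟨fun e => e ▸ hy P hP, fun h => Sp.unique (hy P hP) h⟩ rfl rfl
  · intro P hP
    refine hs P fun h0 => hP ?_
    simp only [h0, ite_self]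

variable {L : IntermediateField K Λ} [Algebra L F] [IsScalarTower K L F]

theorem r0_fin [FiniteDimensional K L] {t : F} (hF : FiniteDimensional L⟮t⟯ F) :
    FiniteDimensional K⟮t⟯ F := by
  obtain ⟨α, hα⟩ := Field.exists_primitive_element K L
  have hi : IsIntegral K⟮t⟯ (algebraMap L F α) :=
    ((Algebra.IsIntegral.isIntegral (R := K) α).algebraMap (B := F)).tower_top
  set E : IntermediateField K⟮t⟯ F := K⟮t⟯⟮algebraMap L F α⟯ with hE
  have : FiniteDimensional K⟮t⟯ E := IntermediateField.adjoin.finiteDimensional hi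
  have h1 : ∀ c : L, algebraMap L F c ∈ E.toSubfield := by
    intro c
    have h2 : c ∈ K⟮α⟯ := hα ▸ IntermediateField.mem_top
    have h3 : K⟮α⟯ ≤ (E.restrictScalars K).comap (IsScalarTower.toAlgHom K L F) :=
      IntermediateField.adjoin_simple_le_iff.2 (IntermediateField.mem_adjoin_simple_self _ _)
    exact h3 h2
  have h4 : L⟮t⟯ ≤ E.toSubfield.toIntermediateField h1 :=
    IntermediateField.adjoin_simple_le_iff.2
      (E.algebraMap_mem (⟨t, IntermediateField.mem_adjoin_simple_self _ _⟩ : K⟮t⟯))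
  let : Algebra L⟮t⟯ E :=
    (Subfield.inclusion (S := L⟮t⟯.toSubfield) (T := E.toSubfield) h4).toAlgebra
  have : IsScalarTower L⟮t⟯ E F := IsScalarTower.of_algebraMap_eq fun _ => rfl
  have : Module.Finite E F := Module.Finite.of_restrictScalars_finite L⟮t⟯ E F
  exact Module.Finite.trans E F

/-- a place over `L` and an automorphism give a place over `K` -/
noncomputable def r0_pl (σ : Λ ≃ₐ[K] Λ) (P : Place L F Λ) : Place K F Λ where
  v := P.v
  surj := P.surj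
  ev := (σ : Λ →+* Λ).comp P.ev
  ev_alg c := by
    obtain ⟨h, e⟩ := P.ev_alg (algebraMap K L c)
    refine ⟨by rwa [IsScalarTower.algebraMap_apply K L F], ?_⟩
    rw [RingHom.comp_apply]
    simp only [IsScalarTower.algebraMap_apply K L F]
    rw [e]
    exact σ.commutes c

theorem r0_sp_pl (σ : Λ ≃ₐ[K] Λ) {P : Place L F Λ} {g : Fin (N + 1) → F} {y : PY Λ N}
    (h : Sp P g y) : Sp (r0_pl σ P) g (galY σ y) := by
  obtain ⟨c, hc, hw, rfl⟩ := h
  refine ⟨c, hc, r0_comp_ne σ hw, ?_⟩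
  rw [← pj_eq hw, galY_pj, pj_eq (r0_comp_ne σ hw)]
  rfl

theorem r0_bij [FiniteDimensional K L] (e : (L →ₐ[K] Λ) → Λ ≃ₐ[K] Λ)
    (he : ∀ τ (x : L), e τ x = τ x) :
    Function.Bijective fun a : (L →ₐ[K] Λ) × Place L F Λ => r0_pl (e a.1) a.2 := by
  constructor
  · rintro ⟨τ, P⟩ ⟨τ', P'⟩ h
    have h' : r0_pl (e τ) P = r0_pl (e τ') P' := h
    have hv0 := congrArg Place.v h'
    have hv : P.v = P'.v := hv0
    have hval : ∀ x c, P.Val x c → ∃ c', P'.Val x c' ∧ e τ' c' = e τ c := by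
      rintro x c ⟨hx, rfl⟩
      have h1 : (r0_pl (e τ) P).Val x (e τ (P.ev ⟨x, hx⟩)) := ⟨hx, rfl⟩
      rw [h'] at h1
      obtain ⟨hx', h2⟩ := h1
      exact ⟨_, ⟨hx', rfl⟩, h2⟩
    have hτ : τ = τ' := by
      ext1 c
      obtain ⟨c', h1, h2⟩ := hval _ _ (P.val_alg c)
      rw [h1.unique (P'.val_alg c)] at h2
      exact (he τ c).symm.trans (h2.symm.trans (he τ' c))
    subst hτ
    refine Prod.ext rfl (Place.ext' hv fun x c h1 => ?_)
    obtain ⟨c', h2, h3⟩ := hval x c h1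
    rwa [← (e τ).injective h3]
  · intro P
    have hm : ∀ c : L, algebraMap L F c ∈ P.v.integer := fun c =>
      Place.mem_of_isIntegral ((Algebra.IsIntegral.isIntegral (R := K) c).algebraMap (B := F))
    let τ : L →ₐ[K] Λ :=
      { P.ev.comp ((algebraMap L F).codRestrict P.v.integer hm) with
        commutes' := fun c => by
          obtain ⟨h, e⟩ := P.ev_alg c
          rw [← e]
          exact congrArg P.ev (Subtype.ext (IsScalarTower.algebraMap_apply K L F c).symm) }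
    refine ⟨(τ, ⟨P.v, P.surj, ((e τ).symm : Λ →+* Λ).comp P.ev, fun c => ⟨hm c, ?_⟩⟩), ?_⟩
    · exact (e τ).symm_apply_eq.2 (he τ c).symm
    · refine Place.ext' rfl ?_
      rintro x c ⟨h, rfl⟩
      exact ⟨h, ((e τ).apply_symm_apply _).symm⟩

end

theorem R0 {L : IntermediateField K Λ} [FiniteDimensional K L] {F : Type} [Field F] [Algebra K F]
    [Algebra L F] [IsScalarTower K L F] {t : F} (ht : Transcendental L t)
    (hF : FiniteDimensional L⟮t⟯ F) {f : F} (hf : f ≠ 0) {s : Finset (Place L F Λ)}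
    (hs : ∀ P : Place L F Λ, P.ord f ≠ 0 → P ∈ s) {g : Fin (N + 1) → F} (hg : g ≠ 0)
    (hX : OnX J g) (y : Place L F Λ → PY Λ N) (hy : ∀ P ∈ s, Sp P g (y P)) :
    (clL J L (∑ P ∈ s, Finsupp.single (y P) (P.ord f))).1 = 0 := by
  choose e he using fun τ : L →ₐ[K] Λ => gal1_extend τ
  set D : PY Λ N →₀ ℤ := ∑ P ∈ s, Finsupp.single (y P) (P.ord f) with hD
  let Ψ : ((L →ₐ[K] Λ) × Place L F Λ) ≃ Place K F Λ := Equiv.ofBijective _ (r0_bij e he)
  have h0 := r0_base (J := J) (ht.of_tower_top K) (r0_fin hF) hf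
    (s := (Finset.univ ×ˢ s).map Ψ.toEmbedding) (fun P hP => by
      obtain ⟨⟨τ, Q⟩, rfl⟩ := Ψ.surjective P
      exact Finset.mem_map.2 ⟨(τ, Q), Finset.mem_product.2 ⟨Finset.mem_univ _, hs Q hP⟩, rfl⟩)
    hg hX (fun Q => galY (e (Ψ.symm Q).1) (y (Ψ.symm Q).2)) (fun P hP => by
      obtain ⟨a, ha, rfl⟩ := Finset.mem_map.1 hP
      change Sp (Ψ a) g (galY (e (Ψ.symm (Ψ a)).1) (y (Ψ.symm (Ψ a)).2))
      rw [Equiv.symm_apply_apply]
      exact r0_sp_pl _ (hy _ (Finset.mem_product.1 ha).2))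
  rw [Finset.sum_map, Finset.sum_product] at h0
  simp only [Equiv.coe_toEmbedding, Equiv.symm_apply_apply] at h0
  have h1 : (finrank K L : ℚ) • avg K D = avg K (∑ τ : L →ₐ[K] Λ, galC (e τ) D) := by
    rw [map_sum (avg K) _ Finset.univ, Finset.sum_congr rfl fun τ _ => avg_galC (e τ) D,
      Finset.sum_const, Finset.card_univ, AlgHom.card, Nat.cast_smul_eq_nsmul]
  rw [clL_apply]
  change QuotientAddGroup.mk _ = 0
  rw [QuotientAddGroup.eq_zero_iff, h1]
  convert h0 using 2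
  refine Finset.sum_congr rfl fun τ _ => ?_
  rw [hD, map_sum]
  refine Finset.sum_congr rfl fun P _ => ?_
  rw [galC_single]
  rfl

end Pool.Agent.ZeroCyc
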