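import Pool.Agent.Lib.MP_796ce4_ag.ZY.TotRam
import Pool.Agent.Lib.MP_796ce4_ag.ZY.FfS

/-! The residue field, rings of integers, Teichmueller lifts. -/

namespace Pool.Agent.ZeroCyc

open Polynomial Module
open scoped Classical IntermediateField PowerSeries

set_option linter.unusedSectionVars false

section defs

variable {K Λ : Type} [Field K] [NormedField Λ] [IsUltrametricDist Λ] [Algebra K Λ]

variable (Λ) in
/-- the residue field -/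
abbrev kk : Type := IsLocalRing.ResidueField (towO Λ)

/-- the residue class, `0` for non-integral elements -/
noncomputable def rs (x : Λ) : kk Λ :=
  if h : ‖x‖ ≤ 1 then IsLocalRing.residue _ (⟨x, tow_memO.2 h⟩ : towO Λ) else 0

/-- the ring of integers of `L` -/
def OL (L : IntermediateField K Λ) : Subring Λ := L.toSubfield.toSubring ⊓ gal1_O Λ

theorem mem_OL {L : IntermediateField K Λ} {x : Λ} : x ∈ OL L ↔ x ∈ L ∧ ‖x‖ ≤ 1 := Iff.rfl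

theorem OL_mono {L L' : IntermediateField K Λ} (h : L ≤ L') : OL L ≤ OL L' :=
  fun _ hx => ⟨h hx.1, hx.2⟩

/-- the inclusion of rings of integers -/
def inc {L L' : IntermediateField K Λ} (h : L ≤ L') : OL L →+* OL L' :=
  Subring.inclusion (OL_mono h)

/-- the residue map on the ring of integers of `L` -/
noncomputable def rL (L : IntermediateField K Λ) : OL L →+* kk Λ :=
  (IsLocalRing.residue (towO Λ)).comp
    ((OL L).subtype.codRestrict (towO Λ).toSubring fun x => tow_memO.2 x.2.2)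

/-- the Teichmueller lift -/
noncomputable def teich (p : ℕ) (x : kk Λ) : Λ :=
  if h : ∃ t : Λ, (∃ n, 0 < n ∧ t ^ p ^ n = t) ∧ rs t = x then h.choose else 0

variable {x y : Λ} {L L' : IntermediateField K Λ}

theorem res_def (hx : ‖x‖ ≤ 1) :
    rs x = IsLocalRing.residue _ (⟨x, tow_memO.2 hx⟩ : towO Λ) := dif_pos hx
theorem res_coe (x : towO Λ) : rs (x : Λ) = IsLocalRing.residue _ x := res_def (tow_memO.1 x.2)
theorem res_big (hx : ¬‖x‖ ≤ 1) : rs x = 0 := dif_neg hx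

theorem rL_apply (x : OL L) : rL L x = rs (x : Λ) := (res_def x.2.2).symm
theorem rL_inc (h : L ≤ L') : (rL L').comp (inc h) = rL L := rfl
theorem subtype_inc (h : L ≤ L') : (OL L').subtype.comp (inc h) = (OL L).subtype := rfl
theorem rs_eq_iff (hx : ‖x‖ ≤ 1) (hy : ‖y‖ ≤ 1) : rs x = rs y ↔ ‖x - y‖ < 1 := by
  rw [res_def hx, res_def hy, tow_res_eq]
theorem res_zero : rs (0 : Λ) = 0 := (res_coe (0 : towO Λ)).trans (map_zero _)
theorem rs_eq_zero (hx : ‖x‖ ≤ 1) : rs x = 0 ↔ ‖x‖ < 1 := by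
  rw [← res_zero, rs_eq_iff hx (by simp), sub_zero]
theorem rs_ne_zero : rs x ≠ 0 ↔ ‖x‖ = 1 := by
  by_cases hx : ‖x‖ ≤ 1
  · rw [Ne, rs_eq_zero hx, not_lt]
    exact ⟨le_antisymm hx, fun h => h.ge⟩
  · exact ⟨fun h => absurd (res_big hx) h, fun h => absurd h.le hx⟩
theorem rs_surj (a : kk Λ) : ∃ x : Λ, ‖x‖ ≤ 1 ∧ rs x = a := by
  obtain ⟨x, rfl⟩ := IsLocalRing.residue_surjective a
  exact ⟨x, tow_memO.1 x.2, res_coe x⟩
theorem rs_add (hx : ‖x‖ ≤ 1) (hy : ‖y‖ ≤ 1) : rs (x + y) = rs x + rs y := by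
  rw [res_def hx, res_def hy, ← map_add, ← res_coe]; rfl
theorem rs_sub (hx : ‖x‖ ≤ 1) (hy : ‖y‖ ≤ 1) : rs (x - y) = rs x - rs y := by
  rw [res_def hx, res_def hy, ← map_sub, ← res_coe]; rfl
theorem rs_mul (hx : ‖x‖ ≤ 1) (hy : ‖y‖ ≤ 1) : rs (x * y) = rs x * rs y := by
  rw [res_def hx, res_def hy, ← map_mul, ← res_coe]; rfl
theorem res_pow (hx : ‖x‖ ≤ 1) (n : ℕ) : rs (x ^ n) = rs x ^ n := by
  rw [res_def hx, ← map_pow, ← res_coe]; rfl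
theorem rs_one : rs (1 : Λ) = 1 := (res_coe (1 : towO Λ)).trans (map_one _)
theorem rs_zero : rs (0 : Λ) = 0 := res_zero
theorem OL_isUnit {x : OL L} : IsUnit x ↔ ‖(x : Λ)‖ = 1 := by
  constructor
  · intro h
    rw [← rs_ne_zero, ← rL_apply]
    exact (h.map (rL L)).ne_zero
  · intro h
    have h0 : (x : Λ) ≠ 0 := norm_pos_iff.1 (by rw [h]; exact one_pos)
    exact IsUnit.of_mul_eq_one ⟨(x : Λ)⁻¹, mem_OL.2 ⟨L.inv_mem x.2.1, by rw [norm_inv, h, inv_one]⟩⟩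
      (Subtype.ext (mul_inv_cancel₀ h0))
theorem exists_OL_poly {f : Λ[X]} (h : Over L f) (h' : Intg f) :
    ∃ g : (OL L)[X], g.map (OL L).subtype = f ∧ g.natDegree = f.natDegree ∧
      (f.Monic → g.Monic) := by
  obtain ⟨g, rfl⟩ := (gal1_iff (S := OL L)).1 fun n => mem_OL.2 ⟨h n, h' n⟩
  exact ⟨g, rfl, (natDegree_map_eq_of_injective (OL L).subtype_injective g).symm,
    fun hm => monic_of_injective (OL L).subtype_injective hm⟩
theorem over_map (g : (OL L)[X]) : Over L (g.map (OL L).subtype) := fun n => by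
  rw [coeff_map]; exact (g.coeff n).2.1
theorem intg_map (g : (OL L)[X]) : Intg (g.map (OL L).subtype) := fun n => by
  rw [coeff_map]; exact (g.coeff n).2.2

section eval

variable {R : Type} [CommRing R] {φ : R →+* Λ} {ψ : R →+* kk Λ}

theorem res_eval₂ (hφ : ∀ c, ‖φ c‖ ≤ 1) (hx : ‖x‖ ≤ 1) (u : R[X]) :
    u.eval₂ φ x = (u.eval₂ (φ.codRestrict (towO Λ) fun c => tow_memO.2 (hφ c))
      ⟨x, tow_memO.2 hx⟩ : towO Λ) :=
  (hom_eval₂ u (φ.codRestrict (towO Λ) fun c => tow_memO.2 (hφ c)) (towO Λ).subtype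
    ⟨x, tow_memO.2 hx⟩).symm
theorem res_comp (hφ : ∀ c, ‖φ c‖ ≤ 1) (hψ : ∀ c, ψ c = rs (φ c)) :
    (IsLocalRing.residue (towO Λ)).comp (φ.codRestrict (towO Λ) fun c => tow_memO.2 (hφ c)) = ψ :=
  RingHom.ext fun c => by rw [hψ, res_def (hφ c)]; rfl
theorem norm_eval₂_le (hφ : ∀ c, ‖φ c‖ ≤ 1) (hx : ‖x‖ ≤ 1) (u : R[X]) : ‖u.eval₂ φ x‖ ≤ 1 := by
  rw [res_eval₂ hφ hx]
  exact tow_memO.1 (Subtype.property _)
theorem rs_eval₂ (hφ : ∀ c, ‖φ c‖ ≤ 1) (hψ : ∀ c, ψ c = rs (φ c)) (hx : ‖x‖ ≤ 1) (u : R[X]) :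
    rs (u.eval₂ φ x) = u.eval₂ ψ (rs x) := by
  rw [res_eval₂ hφ hx, res_coe, hom_eval₂, res_comp hφ hψ, res_def hx]
theorem rs_e2 (hφ : ∀ c, ‖φ c‖ ≤ 1) (hψ : ∀ c, ψ c = rs (φ c)) (hx : ‖x‖ ≤ 1) (hy : ‖y‖ ≤ 1)
    (a : R[X][X]) : ‖e2 φ x y a‖ ≤ 1 ∧ rs (e2 φ x y a) = e2 ψ (rs x) (rs y) a :=
  ⟨norm_eval₂_le (φ := eval₂RingHom φ x) (norm_eval₂_le hφ hx) hy a,
    rs_eval₂ (φ := eval₂RingHom φ x) (ψ := eval₂RingHom ψ (rs x)) (norm_eval₂_le hφ hx)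
      (fun u => (rs_eval₂ hφ hψ hx u).symm) hy a⟩
theorem rs_mv {σ : Type} (hφ : ∀ c, ‖φ c‖ ≤ 1) (hψ : ∀ c, ψ c = rs (φ c)) {v : σ → Λ}
    (hv : ∀ i, ‖v i‖ ≤ 1) (g : MvPolynomial σ R) : ‖MvPolynomial.eval₂ φ v g‖ ≤ 1 ∧
      rs (MvPolynomial.eval₂ φ v g) = MvPolynomial.eval₂ ψ (fun i => rs (v i)) g := by
  have h : MvPolynomial.eval₂ φ v g = (MvPolynomial.eval₂
      (φ.codRestrict (towO Λ) fun c => tow_memO.2 (hφ c))
      (fun i => ⟨v i, tow_memO.2 (hv i)⟩) g : towO Λ) :=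
    (MvPolynomial.hom_eval₂ g (φ.codRestrict (towO Λ) fun c => tow_memO.2 (hφ c)) (towO Λ).subtype
      fun i => ⟨v i, tow_memO.2 (hv i)⟩).symm
  rw [h]
  refine ⟨tow_memO.1 (Subtype.property _), ?_⟩
  rw [res_coe, MvPolynomial.hom_eval₂, res_comp hφ hψ]
  congr 1
  funext i
  exact (res_def (hv i)).symm
theorem eval₂_mem (hφ : ∀ c, φ c ∈ L) (hx : x ∈ L) (u : R[X]) : u.eval₂ φ x ∈ L := by
  rw [eval₂_eq_sum_range]
  exact sum_mem fun i _ => mul_mem (hφ _) (pow_mem hx _)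
theorem e2_mem (hφ : ∀ c, φ c ∈ L) (hx : x ∈ L) (hy : y ∈ L) (a : R[X][X]) : e2 φ x y a ∈ L :=
  eval₂_mem (φ := eval₂RingHom φ x) (eval₂_mem hφ hx) hy a
theorem mv_mem {σ : Type} (hφ : ∀ c, φ c ∈ L) {v : σ → Λ} (hv : ∀ i, v i ∈ L)
    (g : MvPolynomial σ R) : MvPolynomial.eval₂ φ v g ∈ L := by
  rw [MvPolynomial.eval₂_eq]
  exact sum_mem fun d _ => mul_mem (hφ _) (prod_mem fun i _ => pow_mem (hv i) _)

end eval

instance kkAlgClosed [IsAlgClosed Λ] : IsAlgClosed (kk Λ) := by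
  refine IsAlgClosed.of_exists_root _ fun f hm hi => ?_
  obtain ⟨g, hg, hd, hgm⟩ := lifts_and_natDegree_eq_and_monic
    ((mem_lifts f).2 (map_surjective (IsLocalRing.residue (towO Λ))
      IsLocalRing.residue_surjective f)) hm
  have hG : (g.map (towO Λ).subtype).Monic := hgm.map _
  have hdeg : (g.map (towO Λ).subtype).degree ≠ 0 := by
    rw [hgm.degree_map, degree_eq_natDegree hgm.ne_zero, hd]
    exact_mod_cast hi.natDegree_pos.ne'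
  obtain ⟨x, hx⟩ := IsAlgClosed.exists_root _ hdeg
  have hI : Intg (g.map (towO Λ).subtype) := fun n => by
    rw [coeff_map]; exact tow_memO.1 (g.coeff n).2
  have hx1 := hI.root_le hG hx
  refine ⟨rs x, ?_⟩
  rw [← hg, eval_map, ← rs_eval₂ (φ := (towO Λ).subtype) (fun c => tow_memO.1 c.2)
    (fun c => (res_coe c).symm) hx1, ← eval_map, hx.eq_zero, rs_zero]

end defs

variable {p : ℕ} {K Λ : Type} [Field K] [CharZero K] [NormedField Λ] [IsUltrametricDist Λ]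
  [IsAlgClosed Λ] [Algebra K Λ] [IsGalois K Λ] [Loc p K Λ] [Fact p.Prime] [CharP (kk Λ) p]

variable {B : IntermediateField K Λ} (T : Tower p B) {x : Λ} {n : ℕ}

variable (K) in
include K in
theorem algP_kk : AlgP (kk Λ) p := fun a => by
  obtain ⟨x, hx, rfl⟩ := rs_surj a
  obtain ⟨n, hn, h⟩ := tow_alg (p := p) K 1 hx
  rw [pow_one] at h
  exact ⟨n, hn, by rw [← res_pow hx, rs_eq_iff (tow_pow_le hx _) hx]; exact h⟩
include p in
theorem rs_gal (σ : Λ ≃ₐ[K] Λ) {x y : Λ} (h : rs x = rs y) : rs (σ x) = rs (σ y) := by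
  have h0 : ∀ z : Λ, rs (σ z) ≠ 0 ↔ rs z ≠ 0 := fun z => by
    rw [rs_ne_zero, rs_ne_zero, Loc.norm_gal]
  by_cases hx : rs x = 0
  · rw [not_not.1 fun h1 => (h0 x).1 h1 hx, not_not.1 fun h1 => (h0 y).1 h1 (h ▸ hx)]
  · have h1 := (rs_ne_zero.1 hx).le
    have h2 := (rs_ne_zero.1 (h ▸ hx : rs y ≠ 0)).le
    rw [rs_eq_iff (by rwa [Loc.norm_gal]) (by rwa [Loc.norm_gal])]
    exact tow_gal_lt σ ((rs_eq_iff h1 h2).1 h)
theorem Tower.rs_φ (n : ℕ) (x : Λ) : rs ((T.φ ^ n) x) = fr (kk Λ) p (T.r * n) (rs x) := by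
  by_cases hx : ‖x‖ ≤ 1
  · rw [fr_apply, ← res_pow hx, rs_eq_iff (by rwa [Loc.norm_gal]) (tow_pow_le hx _)]
    exact T.φ_pow_pow n hx
  · rw [res_big hx, res_big (by rwa [Loc.norm_gal]), map_zero]
theorem Tower.rs_fixed (hn : 0 < n) (hx : x ∈ T.U n) :
    fr (kk Λ) p (T.r * n) (rs x) = rs x := by
  rw [← T.rs_φ, T.fix_U n hn x hx]
theorem Tower.fr_rL (hn : 0 < n) :
    (fr (kk Λ) p (T.r * n)).comp (rL (T.U n)) = rL (T.U n) :=
  RingHom.ext fun x => by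
    rw [RingHom.comp_apply, rL_apply]
    exact T.rs_fixed hn x.2.1
theorem Tower.exists_lift (hn : 0 < n) {a : kk Λ} (ha : fr (kk Λ) p (T.r * n) a = a) :
    ∃ x : OL (T.U n), rL _ x = a := by
  obtain ⟨x, hx, rfl⟩ := rs_surj a
  rw [fr_apply, ← res_pow hx, rs_eq_iff (tow_pow_le hx _) hx] at ha
  obtain ⟨t, ht, h⟩ := T.lift n hn x hx ha
  have ht1 := gal1_le_one hx h
  exact ⟨⟨t, mem_OL.2 ⟨ht, ht1⟩⟩, by
    rw [rL_apply]; exact ((rs_eq_iff hx ht1).2 h).symm⟩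
theorem Tower.π_max_U (hn : 0 < n) (hx : x ∈ T.U n) (h : ‖x‖ < 1) : ‖x‖ ≤ ‖T.π‖ := by
  obtain ⟨y, hy, e⟩ := T.unr n hn x hx
  rw [e] at h ⊢
  exact T.π_max y hy h
theorem Tower.norm_le_succ (hn : 0 < n) (hx : x ∈ T.U n) {k : ℕ} (h : ‖x‖ < ‖T.π‖ ^ k) :
    ‖x‖ ≤ ‖T.π‖ ^ (k + 1) := by
  have h0 : 0 < ‖T.π‖ ^ k := pow_pos (norm_pos_iff.2 T.π_ne) k
  have h1 := T.π_max_U hn (div_mem hx (pow_mem (T.le n T.π_mem) k))
    (by rw [norm_div, norm_pow]; exact (div_lt_one h0).2 h)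
  rw [norm_div, norm_pow, div_le_iff₀ h0] at h1
  rwa [pow_succ']
theorem Tower.U_one [FiniteDimensional K B] : T.U 1 = B := by
  have := T.fin 1 one_pos
  exact (IntermediateField.eq_of_le_of_finrank_eq (T.le 1)
    (by rw [T.rank 1 one_pos, one_mul])).symm
variable (K) in
include K in
theorem res_teich (a : kk Λ) :
    (∃ n, 0 < n ∧ teich p a ^ p ^ n = teich p a) ∧ rs (teich p a) = a := by
  have h : ∃ t : Λ, (∃ n, 0 < n ∧ t ^ p ^ n = t) ∧ rs t = a := by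
    obtain ⟨x, hx, rfl⟩ := rs_surj a
    obtain ⟨n, hn, h⟩ := tow_alg (p := p) K 1 hx
    rw [pow_one] at h
    have h1 : 1 < p ^ n := Nat.one_lt_pow hn.ne' (Fact.out : p.Prime).one_lt
    obtain ⟨ζ, h2, h3⟩ := tow_mu_near h1 h
    exact ⟨ζ, ⟨n, hn, h2⟩, (rs_eq_iff (tow_mu_le h1 h2) hx).2 h3⟩
  rw [teich, dif_pos h]
  exact h.choose_spec
variable (K) in
include K in
theorem res_teich_eq {t : Λ} {a : kk Λ} (hn : 0 < n) (ht : t ^ p ^ n = t) (ha : rs t = a) :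
    teich p a = t := by
  obtain ⟨⟨m, hm, h1⟩, h2⟩ := res_teich (p := p) K a
  obtain ⟨h3, h4, -⟩ := tow_facts (p := p) K (Λ := Λ) hm hn
  have h5 : teich p a ^ (p ^ m) ^ n = teich p a := tow_mu_pow h1 n
  have h6 : t ^ (p ^ m) ^ n = t := by
    rw [← pow_mul, mul_comm, pow_mul]; exact tow_mu_pow ht m
  exact tow_mu_uniq h3 h4 h5 h6
    ((rs_eq_iff (tow_mu_le h3 h5) (tow_mu_le h3 h6)).1 (h2.trans ha.symm))
variable (K) in
include K in
theorem teich_spec (a : kk Λ) : ‖teich p a‖ ≤ 1 ∧ rs (teich p a) = a := by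
  obtain ⟨⟨m, hm, h1⟩, h2⟩ := res_teich (p := p) K a
  exact ⟨tow_mu_le (Nat.one_lt_pow hm.ne' (Fact.out : p.Prime).one_lt) h1, h2⟩
theorem teich_gal (σ : Λ ≃ₐ[K] Λ) (x : Λ) : teich p (rs (σ x)) = σ (teich p (rs x)) := by
  obtain ⟨⟨m, hm, h1⟩, h2⟩ := res_teich (p := p) K (rs x)
  exact res_teich_eq K hm (by rw [← map_pow, h1]) (rs_gal σ h2)
theorem Tower.teich_fr (n : ℕ) (a : kk Λ) :
    teich p (fr (kk Λ) p (T.r * n) a) = (T.φ ^ n) (teich p a) := by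
  obtain ⟨x, -, rfl⟩ := rs_surj a
  rw [← T.rs_φ, teich_gal]
theorem Tower.teich_mem (hn : 0 < n) {a : kk Λ} (ha : fr (kk Λ) p (T.r * n) a = a) :
    teich p a ∈ T.U n := by
  obtain ⟨⟨m, hm, h1⟩, h2⟩ := res_teich (p := p) K a
  obtain ⟨h3, h4, -⟩ := tow_facts (p := p) K (Λ := Λ) one_pos hm
  rw [pow_one] at h3 h4
  have h5 := tow_mu_le h3 h1
  obtain ⟨y, hy⟩ := T.exists_lift hn ha
  rw [rL_apply] at hy
  refine hensel_mem (f := X ^ p ^ m - X) ((over_X.pow _).sub over_X) (tow_intg_mu _) h5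
    (by simp [h1]) ?_ y.2.1 ((rs_eq_iff h5 y.2.2).1 (h2.trans hy.symm))
  have h6 : ‖(-1 : Λ) - ((p ^ m : ℕ) * teich p a ^ (p ^ m - 1) - 1)‖ < ‖(-1 : Λ)‖ := by
    rw [norm_neg, norm_one, show (-1 : Λ) - ((p ^ m : ℕ) * teich p a ^ (p ^ m - 1) - 1) =
      -((p ^ m : ℕ) * teich p a ^ (p ^ m - 1)) by ring, norm_neg]
    exact tow_mul_lt h4 (tow_pow_le h5 _)
  have h7 := norm_eq_of_sub_lt h6
  rw [norm_neg, norm_one] at h7
  simpa [derivative_X_pow] using h7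

end Pool.Agent.ZeroCyc
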