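import Pool.Agent.Lib.MP_796ce4_ag.ZY.StC1

/-! Functions with a pole at one point only. -/

namespace Pool.Agent.ZeroCyc

open Polynomial Module
open scoped Classical IntermediateField PowerSeries

set_option linter.unusedSectionVars false

open scoped LaurentSeries

variable {κ E : Type} [Field κ] [IsAlgClosed κ] [Field E] [Algebra (RatFunc κ) E] [Algebra κ E]
  [IsScalarTower κ (RatFunc κ) E] [FiniteDimensional (RatFunc κ) E] [IsGalois (RatFunc κ) E]

/-- functions with a pole of order at most `n` at `j` and no other pole -/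
structure RR (a : κ) (j : E →ₐ[κ] κ⸨X⸩) (n : ℕ) (f : E) : Prop where
  int : IsIntegral (Algebra.adjoin κ {(tE κ E - algebraMap κ E a)⁻¹}) f
  other : ∀ σ : E ≃ₐ[RatFunc κ] E, σ ≠ 1 → Reg 0 (j (σ f))
  pole : Reg n (j f)

variable {a : κ} {j : E →ₐ[κ] κ⸨X⸩} {n m : ℕ} {f g : E}

theorem RR.add (h : RR a j n f) (h' : RR a j n g) : RR a j n (f + g) :=
  ⟨h.int.add h'.int, fun σ hσ => by
    rw [map_add, map_add]; exact (h.other σ hσ).add (h'.other σ hσ),
    by rw [map_add]; exact h.pole.add h'.pole⟩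
theorem RR.mul (h : RR a j n f) (h' : RR a j m g) : RR a j (n + m) (f * g) :=
  ⟨h.int.mul h'.int, fun σ hσ => by
    rw [map_mul, map_mul]; exact (h.other σ hσ).mul (h'.other σ hσ),
    by rw [map_mul]; exact h.pole.mul h'.pole⟩
theorem RR.pow (h : RR a j n f) (k : ℕ) : RR a j (k * n) (f ^ k) :=
  ⟨h.int.pow k, fun σ hσ => by
    rw [map_pow, map_pow]; simpa using stc_reg_pow (h.other σ hσ) k,
    by rw [map_pow]; exact stc_reg_pow h.pole k⟩
theorem RR.mono (h : RR a j n f) (hm : n ≤ m) : RR a j m f :=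
  ⟨h.int, h.other, h.pole.mono hm⟩
theorem rr_const (a : κ) (j : E →ₐ[κ] κ⸨X⸩) (n : ℕ) (c : κ) : RR a j n (algebraMap κ E c) :=
  ⟨isIntegral_algebraMap (x := (⟨_, Subalgebra.algebraMap_mem _ c⟩ :
      Algebra.adjoin κ {(tE κ E - algebraMap κ E a)⁻¹})),
    fun σ _ => by rw [stc_sc, stc_jc]; exact stc_reg_C 0 c,
    by rw [stc_jc]; exact stc_reg_C n c⟩

/-- the space of these functions -/
def Rsp (a : κ) (j : E →ₐ[κ] κ⸨X⸩) (n : ℕ) : Submodule κ E where
  carrier := {f | RR a j n f}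
  zero_mem' := by simpa using rr_const a j n 0
  add_mem' := RR.add
  smul_mem' := fun c f h => by
    rw [Algebra.smul_def]; simpa using (rr_const a j 0 c).mul h

theorem stc_order (hj : j ∈ Emb E a) (h : RR a j n f) (h0 : f ≠ 0) :
    (j f).coeff (j f).order ≠ 0 ∧ -(n : ℤ) ≤ (j f).order ∧ (j f).order ≤ 0 := by
  have h1 : j f ≠ 0 := (map_ne_zero j).2 h0
  have h2 : (j f).coeff (j f).order ≠ 0 := fun h3 => h1 (HahnSeries.coeff_order_eq_zero.1 h3)
  refine ⟨h2, not_lt.1 fun h3 => h2 (h.pole _ h3), not_lt.1 fun h3 => h0 ?_⟩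
  obtain ⟨c, rfl⟩ := const_of_reg hj h.int fun σ => by
    by_cases hσ : σ = 1
    · subst hσ
      intro k hk
      exact HahnSeries.coeff_eq_zero_of_lt_order (x := j f) (by omega)
    · exact h.other σ hσ
  have h4 := HahnSeries.coeff_eq_zero_of_lt_order h3
  rw [stc_jc, HahnSeries.C_apply, HahnSeries.coeff_single_same] at h4
  rw [h4, map_zero]

theorem stc_le_card (hj : j ∈ Emb E a) (O : Finset ℤ)
    (hO : ∀ f, RR a j n f → f ≠ 0 → (j f).order ∈ O) :
    FiniteDimensional κ (Rsp a j n) ∧ finrank κ (Rsp a j n) ≤ O.card := by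
  let L : Rsp a j n →ₗ[κ] (O → κ) :=
    LinearMap.pi fun k : O => (stcCf j k).comp (Rsp a j n).subtype
  have hL : Function.Injective L := by
    rw [injective_iff_map_eq_zero]
    intro x hx
    by_contra h0
    have h1 : (x : E) ≠ 0 := fun h => h0 (Subtype.ext h)
    exact (stc_order hj x.2 h1).1 (congrFun hx ⟨_, hO x x.2 h1⟩)
  refine ⟨FiniteDimensional.of_injective L hL, ?_⟩
  simpa using LinearMap.finrank_le_finrank_of_injective hL

theorem Rsp_le (hj : j ∈ Emb E a) (n : ℕ) :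
    FiniteDimensional κ (Rsp a j n) ∧ finrank κ (Rsp a j n) ≤ n + 1 := by
  have h := stc_le_card (n := n) hj (Finset.Icc (-(n : ℤ)) 0) fun f hf h0 =>
    Finset.mem_Icc.2 (stc_order hj hf h0).2
  refine ⟨h.1, h.2.trans ?_⟩
  rw [Int.card_Icc]
  omega

variable (κ E) in
theorem le_Rsp : ∃ g : ℕ, ∀ (a : κ) (j : E →ₐ[κ] κ⸨X⸩), j ∈ Emb E a → ∀ n,
    n + 1 ≤ finrank κ (Rsp a j n) + g := by
  obtain ⟨T, χ, b, hχ, h0, hT⟩ := exists_model κ E
  refine ⟨b * finrank (RatFunc κ) E * finrank (RatFunc κ) E, fun a j hj n => ?_⟩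
  have hN : 0 < finrank (RatFunc κ) E := finrank_pos
  set N := finrank (RatFunc κ) E with hNd
  set z : E := (tE κ E - algebraMap κ E a)⁻¹ with hz
  let v : Fin (n + 1) × Fin N → E := fun x => z ^ (x.1 : ℕ) * (z ^ b * T) ^ (x.2 : ℕ)
  let Lc : (Fin (n + 1) × Fin N → κ) →ₗ[κ] E := Fintype.linearCombination κ v
  have hLc : ∀ c, Lc c = ∑ x, c x • v x := fun c => Fintype.linearCombination_apply κ v c
  have hinj : Function.Injective Lc := by
    rw [injective_iff_map_eq_zero]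
    intro c hc
    exact stc_indep hj hT b n c ((hLc c).symm.trans hc)
  have hzA : IsIntegral (Algebra.adjoin κ {z}) z :=
    isIntegral_algebraMap (x := (⟨z, Algebra.self_mem_adjoin_singleton κ z⟩ :
      Algebra.adjoin κ {z}))
  have hint : ∀ c, IsIntegral (Algebra.adjoin κ {z}) (Lc c) := fun c => by
    rw [hLc]
    refine IsIntegral.sum _ fun x _ => ?_
    rw [Algebra.smul_def]
    exact (rr_const a j 0 (c x)).int.mul ((hzA.pow _).mul ((stc_int_y hj hχ h0).pow _))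
  have hzr : ∀ k : ℕ, Reg k (j (z ^ k)) := fun k l hl => by
    rw [hz, stc_jz hj, HahnSeries.coeff_single_of_ne hl.ne]
  have hreg : ∀ c (σ : E ≃ₐ[RatFunc κ] E), Reg (n + b * N) (j (σ (Lc c))) := fun c σ => by
    rw [hLc, map_sum, map_sum]
    refine stc_reg_sum _ fun x _ => ?_
    have e1 : σ (c x • v x) = algebraMap κ E (c x) * (z ^ ((x.1 : ℕ) + b * x.2) * σ T ^ (x.2 : ℕ)) := by
      rw [Algebra.smul_def, map_mul, stc_sc, map_mul, map_pow, map_pow, map_mul, map_pow, hz,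
        stc_sz]
      ring
    rw [e1, map_mul, map_mul, stc_jc, map_pow j (σ T)]
    have h1 := (stc_reg_C 0 (c x)).mul ((hzr ((x.1 : ℕ) + b * x.2)).mul
      (stc_reg_pow (stc_reg_T hj hχ.monic h0 σ) x.2))
    refine h1.mono ?_
    have h2 := x.1.2
    have h3 : b * (x.2 : ℕ) ≤ b * N := Nat.mul_le_mul_left b x.2.2.le
    omega
  let Λ : (Fin (n + 1) × Fin N → κ) →ₗ[κ]
      (({σ : E ≃ₐ[RatFunc κ] E // σ ≠ 1} × Fin (n + b * N) → κ) × (Fin (b * N) → κ)) :=
    LinearMap.prod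
      (LinearMap.pi fun x => (stcCf (mvE j x.1.1) (-((x.2 : ℕ) + 1 : ℤ))).comp Lc)
      (LinearMap.pi fun l => (stcCf j (-((l : ℕ) + 1 + n : ℤ))).comp Lc)
  have hmem : ∀ c ∈ LinearMap.ker Λ, Lc c ∈ Rsp a j n := fun c hc => by
    have hc' : Λ c = 0 := hc
    refine ⟨hint c, fun σ hσ k hk => ?_, fun k hk => ?_⟩
    · by_cases h1 : k < -((n + b * N : ℕ) : ℤ)
      · exact hreg c σ k h1
      · have h2 := congrFun (congrArg Prod.fst hc') (⟨σ, hσ⟩, ⟨(-k - 1).toNat, by omega⟩)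
        have h3 : -(((-k - 1).toNat : ℤ) + 1) = k := by omega
        change (j (σ (Lc c))).coeff (-(((-k - 1).toNat : ℤ) + 1)) = 0 at h2
        rwa [h3] at h2
    · by_cases h1 : k < -((n + b * N : ℕ) : ℤ)
      · exact hreg c 1 k h1
      · have h2 := congrFun (congrArg Prod.snd hc') ⟨(-k - 1 - n).toNat, by omega⟩
        have h3 : -(((-k - 1 - n).toNat : ℤ) + 1 + n) = k := by omega
        change (j (Lc c)).coeff (-(((-k - 1 - n).toNat : ℤ) + 1 + n)) = 0 at h2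
        rwa [h3] at h2
  have := (Rsp_le hj n).1
  have h1 : finrank κ (LinearMap.ker Λ) ≤ finrank κ (Rsp a j n) :=
    LinearMap.finrank_le_finrank_of_injective (f := Lc.restrict hmem) fun x y hxy =>
      Subtype.ext (hinj (congrArg Subtype.val hxy))
  have h2 := Λ.finrank_range_add_finrank_ker
  have h3 := Submodule.finrank_le (LinearMap.range Λ)
  have h4 : Fintype.card (E ≃ₐ[RatFunc κ] E) = N := by
    rw [← Nat.card_eq_fintype_card, IsGalois.card_aut_eq_finrank]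
  rw [finrank_prod, finrank_fintype_fun_eq_card, finrank_fintype_fun_eq_card, Fintype.card_prod,
    Fintype.card_subtype_compl, h4, Fintype.card_subtype_eq, Fintype.card_fin,
    Fintype.card_fin] at h3
  rw [finrank_fintype_fun_eq_card, Fintype.card_prod, Fintype.card_fin, Fintype.card_fin] at h2
  exact stc_arith hN h1 h2 h3

theorem RR.reg (h : RR a j n f) {t₀ : κ} (ht : t₀ ≠ a) {j' : E →ₐ[κ] κ⸨X⸩} (hj' : j' ∈ Emb E t₀) :
    Reg 0 (j' f) := by
  refine reg_of_isIntegral j' ?_ h.int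
  rintro x rfl
  have h1 : j' (tE κ E) = lin t₀ := hj'
  have h2 : PowerSeries.constantCoeff (PowerSeries.C (t₀ - a) + PowerSeries.X : κ⟦X⟧) ≠ 0 := by
    simpa using sub_ne_zero.2 ht
  refine reg_zero_iff.2 ⟨(PowerSeries.C (t₀ - a) + PowerSeries.X)⁻¹, ?_⟩
  have h3 : j' (tE κ E - algebraMap κ E a) =
      HahnSeries.ofPowerSeries ℤ κ (PowerSeries.C (t₀ - a) + PowerSeries.X) := by
    rw [map_sub, h1, stc_jc, lin_eq, ← HahnSeries.ofPowerSeries_C, ← map_sub]
    congr 1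
    rw [map_sub]
    ring
  rw [map_inv₀, h3]
  apply eq_inv_of_mul_eq_one_left
  rw [← map_mul, PowerSeries.inv_mul_cancel _ h2, map_one]

theorem stc_norm (hj : j ∈ Emb E a) (h : RR a j n f) (h0 : f ≠ 0) : ∃ G : κ[X], G ≠ 0 ∧
    G.natDegree ≤ n ∧ aeval (tE κ E) G =
      aeval (tE κ E) ((X - C a) ^ n) * ∏ σ : E ≃ₐ[RatFunc κ] E, σ f := by
  obtain ⟨g, hg⟩ := exists_norm_poly a h.int
  have hP : ∏ σ : E ≃ₐ[RatFunc κ] E, σ f ≠ 0 :=
    Finset.prod_ne_zero_iff.2 fun σ _ => (map_ne_zero σ).2 h0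
  have hg0 : g ≠ 0 := fun h1 => hP (by rw [hg, h1, map_zero])
  have hr : Reg n (j (∏ σ : E ≃ₐ[RatFunc κ] E, σ f)) := by
    rw [← Finset.mul_prod_erase _ _ (Finset.mem_univ (1 : E ≃ₐ[RatFunc κ] E)), map_mul, map_prod]
    exact h.pole.mul (stc_reg_prod _ fun σ hσ => h.other σ (Finset.ne_of_mem_erase hσ))
  have hd : g.natDegree ≤ n := by
    by_contra hlt
    have h1 := hr (-(g.natDegree : ℤ)) (by omega)
    rw [hg, aeval_eq_sum_range, map_sum, HahnSeries.coeff_sum,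
      Finset.sum_eq_single g.natDegree] at h1
    · rw [Algebra.smul_def, map_mul, stc_jc, stc_jz hj, HahnSeries.C_apply,
        HahnSeries.coeff_single_zero_mul, HahnSeries.coeff_single_same, mul_one] at h1
      exact leadingCoeff_ne_zero.2 hg0 h1
    · intro k _ hk
      rw [Algebra.smul_def, map_mul, stc_jc, stc_jz hj, HahnSeries.C_apply,
        HahnSeries.coeff_single_zero_mul, HahnSeries.coeff_single_of_ne, mul_zero]
      omega
    · simp
  have hG : aeval (tE κ E) (∑ k ∈ Finset.range (n + 1), C (g.coeff k) * (X - C a) ^ (n - k)) =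
      aeval (tE κ E) ((X - C a) ^ n) * ∏ σ : E ≃ₐ[RatFunc κ] E, σ f := by
    rw [hg, aeval_eq_sum_range' (Nat.lt_succ_of_le hd), map_sum, Finset.mul_sum]
    refine Finset.sum_congr rfl fun k hk => ?_
    obtain ⟨d, rfl⟩ := Nat.exists_eq_add_of_le (Nat.lt_succ_iff.1 (Finset.mem_range.1 hk))
    have := stc_ne hj
    rw [Nat.add_sub_cancel_left, Algebra.smul_def]
    simp only [map_mul, map_pow, map_sub, aeval_X, aeval_C]
    rw [inv_pow, pow_add]
    field_simp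
  refine ⟨_, fun h1 => ?_, ?_, hG⟩
  · rw [h1, map_zero, map_pow, map_sub, aeval_X, aeval_C] at hG
    exact mul_ne_zero (pow_ne_zero _ (stc_ne hj)) hP hG.symm
  · refine natDegree_sum_le_of_forall_le _ _ fun k _ => (natDegree_C_mul_le _ _).trans ?_
    rw [(monic_X_sub_C a).natDegree_pow, natDegree_X_sub_C]
    omega

theorem stc_mult (h : RR a j n f) {G : κ[X]} (hG0 : G ≠ 0) (hG : aeval (tE κ E) G =
      aeval (tE κ E) ((X - C a) ^ n) * ∏ σ : E ≃ₐ[RatFunc κ] E, σ f) {t₀ : κ} (ht : t₀ ≠ a)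
    (s : Finset (E →ₐ[κ] κ⸨X⸩)) (hs : ∀ j' ∈ s, j' ∈ Emb E t₀ ∧ (j' f).coeff 0 = 0) :
    s.card ≤ G.rootMultiplicity t₀ := by
  rcases s.eq_empty_or_nonempty with rfl | ⟨j₀, hj₀⟩
  · simp
  have h₀ := (hs j₀ hj₀).1
  have hp : ∀ σ : E ≃ₐ[RatFunc κ] E, ∃ q : κ⟦X⟧, HahnSeries.ofPowerSeries ℤ κ q = j₀ (σ f) :=
    fun σ => reg_zero_iff.1 (h.reg ht (Emb.mv h₀ σ))
  choose q hq using hp
  set S := Finset.univ.filter fun σ : E ≃ₐ[RatFunc κ] E => (j₀ (σ f)).coeff 0 = 0 with hS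
  have h1 : s.card ≤ S.card := by
    refine (Finset.card_le_card (t := S.image (mvE j₀)) fun j' hj' => ?_).trans Finset.card_image_le
    obtain ⟨σ, rfl⟩ := Emb.exists_mvE h₀ (hs j' hj').1
    exact Finset.mem_image_of_mem _ (Finset.mem_filter.2 ⟨Finset.mem_univ _, (hs _ hj').2⟩)
  have h2 : sh t₀ G = sh t₀ ((X - C a) ^ n) * ∏ σ, q σ := by
    apply HahnSeries.ofPowerSeries_injective (Γ := ℤ)
    rw [← Emb.aeval h₀, hG, map_mul, Emb.aeval h₀, map_mul, map_prod, map_prod]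
    simp only [hq]
  have h3 : (PowerSeries.X : κ⟦X⟧) ^ S.card ∣ sh t₀ G := by
    rw [h2, ← Finset.prod_const]
    refine Dvd.dvd.mul_left ((Finset.prod_dvd_prod_of_dvd _ _ fun σ hσ => ?_).trans
      (Finset.prod_dvd_prod_of_subset _ _ q (Finset.subset_univ S))) _
    rw [PowerSeries.X_dvd_iff, ← PowerSeries.coeff_zero_eq_constantCoeff_apply,
      ← HahnSeries.ofPowerSeries_apply_coeff (Γ := ℤ), hq]
    exact (Finset.mem_filter.1 hσ).2
  refine h1.trans ?_
  rw [rootMultiplicity_eq_rootMultiplicity, ← taylor_apply,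
    le_rootMultiplicity_iff (by rwa [Ne, taylor_eq_zero]), C_0, sub_zero, X_pow_dvd_iff]
  intro d hd
  rw [← coeff_coe, ← sh_eq_taylor]
  exact PowerSeries.X_pow_dvd_iff.1 h3 d hd

theorem RR.card_zeros (hj : j ∈ Emb E a) (h : RR a j n f) (h0 : f ≠ 0)
    (s : Finset (E →ₐ[κ] κ⸨X⸩))
    (hs : ∀ j' ∈ s, (∃ t₀, t₀ ≠ a ∧ j' ∈ Emb E t₀) ∧ (j' f).coeff 0 = 0) : s.card ≤ n := by
  obtain ⟨G, hG0, hd, hG⟩ := stc_norm hj h h0
  let base : (E →ₐ[κ] κ⸨X⸩) → κ := fun j' => (j' (tE κ E)).coeff 0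
  have hb : ∀ t₀ j', j' ∈ Emb E t₀ → base j' = t₀ := fun t₀ j' hj' => by
    have h1 : j' (tE κ E) = lin t₀ := hj'
    change (j' (tE κ E)).coeff 0 = t₀
    rw [h1, coeff_lin]
  rw [Finset.card_eq_sum_card_image base s]
  have h1 : ∀ t ∈ s.image base, (s.filter fun j' => base j' = t).card ≤ G.roots.count t := by
    intro t ht
    obtain ⟨j₀, hj₀, rfl⟩ := Finset.mem_image.1 ht
    obtain ⟨⟨t₀, hta, ht₀⟩, -⟩ := hs j₀ hj₀
    rw [count_roots, hb t₀ j₀ ht₀]
    refine stc_mult h hG0 hG hta _ fun j' hj' => ?_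
    obtain ⟨h2, h3⟩ := Finset.mem_filter.1 hj'
    obtain ⟨⟨t₁, -, ht₁⟩, h4⟩ := hs j' h2
    rw [hb t₁ j' ht₁] at h3
    exact ⟨h3 ▸ ht₁, h4⟩
  refine (Finset.sum_le_sum h1).trans ?_
  refine (Finset.sum_le_sum_of_subset (t := s.image base ∪ G.roots.toFinset)
    Finset.subset_union_left).trans ?_
  rw [Multiset.sum_count_eq_card fun x hx =>
    Finset.mem_union_right _ (Multiset.mem_toFinset.2 hx)]
  exact (card_roots' G).trans hd

/-- elements with pairwise different orders -/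
theorem exists_orders (hj : j ∈ Emb E a) (n : ℕ) : ∃ v : Fin (finrank κ (Rsp a j n)) → E,
    (∀ i, RR a j n (v i) ∧ v i ≠ 0 ∧ -(n : ℤ) ≤ (j (v i)).order ∧ (j (v i)).order ≤ 0) ∧
      Function.Injective fun i => (j (v i)).order := by
  set O := (Finset.Icc (-(n : ℤ)) 0).filter fun k => ∃ f, RR a j n f ∧ f ≠ 0 ∧ (j f).order = k
    with hO
  have h1 := (stc_le_card (n := n) hj O fun f hf h0 => Finset.mem_filter.2
    ⟨Finset.mem_Icc.2 (stc_order hj hf h0).2, f, hf, h0, rfl⟩).2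
  obtain ⟨e⟩ : Nonempty (Fin (finrank κ (Rsp a j n)) ↪ O) :=
    Function.Embedding.nonempty_of_card_le (by simpa using h1)
  choose v hv using fun i => (Finset.mem_filter.1 (e i).2).2
  refine ⟨v, fun i => ⟨(hv i).1, (hv i).2.1, (stc_order hj (hv i).1 (hv i).2.1).2⟩,
    fun i i' hi => e.injective (Subtype.ext ?_)⟩
  exact (hv i).2.2.symm.trans (hi.trans (hv i').2.2)

theorem RR.semiL {p : ℕ} [Fact p.Prime] [CharP κ p] {Φ : E ≃+* E} {k : ℕ}
    (hΦ : SemiL κ Φ (p ^ k)) (hj : j ∈ Emb E a) (hf : FixE Φ (p ^ k) j) (h : RR a j n f) :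
    RR a j n (Φ.symm f) := by
  have hp : p ^ k ≠ 0 := pow_ne_zero _ (Fact.out : p.Prime).ne_zero
  have hz : Φ (tE κ E - algebraMap κ E a)⁻¹ = (tE κ E - algebraMap κ E a)⁻¹ := by
    rw [map_inv₀, map_sub, hΦ.t, hΦ.c, FixE.base hΦ hj hf]
  have hA : ∀ x ∈ Algebra.adjoin κ {(tE κ E - algebraMap κ E a)⁻¹},
      Φ.symm x ∈ Algebra.adjoin κ {(tE κ E - algebraMap κ E a)⁻¹} := by
    intro x hx
    induction hx using Algebra.adjoin_induction with
    | mem x hx =>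
      rw [Set.mem_singleton_iff.1 hx, (Φ.symm_apply_eq).2 hz.symm]
      exact Algebra.self_mem_adjoin_singleton κ _
    | algebraMap c =>
      obtain ⟨c', rfl⟩ := IsAlgClosed.exists_pow_nat_eq c (Nat.pos_of_ne_zero hp)
      rw [← hΦ.c, Φ.symm_apply_apply]
      exact Subalgebra.algebraMap_mem _ _
    | add x y _ _ hx hy => rw [map_add]; exact add_mem hx hy
    | mul x y _ _ hx hy => rw [map_mul]; exact mul_mem hx hy
  have hr : ∀ (m : ℕ) (x : E), Reg m (j x) → Reg m (j (Φ.symm x)) := fun m x hx l hl => by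
    have h1 := hf (Φ.symm x) l
    rw [Φ.apply_symm_apply, hx l hl] at h1
    exact (pow_eq_zero_iff hp).1 h1.symm
  refine ⟨?_, fun σ hσ => ?_, hr n f h.pole⟩
  · exact IsIntegral.map_of_comp_eq
      (((Φ.symm : E →+* E).comp (algebraMap (Algebra.adjoin κ {(tE κ E - algebraMap κ E a)⁻¹}) E)).codRestrict
        (Algebra.adjoin κ {(tE κ E - algebraMap κ E a)⁻¹}) fun x => hA x x.2)
      (Φ.symm : E →+* E) (RingHom.ext fun _ => rfl) h.int
  · obtain ⟨σ', hσ'⟩ := (hΦ.conj σ).2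
    rw [hσ']
    refine hr 0 _ (h.other σ' fun h1 => hσ (AlgEquiv.ext fun x => ?_))
    have h2 := hσ' (Φ x)
    rw [h1, Φ.symm_apply_apply, AlgEquiv.one_apply, Φ.symm_apply_apply] at h2
    exact h2

end Pool.Agent.ZeroCyc
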