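import Pool.Agent.Lib.MP_796ce4_ag.ZY.StB

/-! Auxiliary facts on expansions for `StC`. -/

namespace Pool.Agent.ZeroCyc

open Polynomial Module
open scoped Classical IntermediateField PowerSeries

set_option linter.unusedSectionVars false

open scoped LaurentSeries

variable {κ E : Type} [Field κ] [IsAlgClosed κ] [Field E] [Algebra (RatFunc κ) E] [Algebra κ E]
  [IsScalarTower κ (RatFunc κ) E] [FiniteDimensional (RatFunc κ) E] [IsGalois (RatFunc κ) E]

variable {a : κ} {j : E →ₐ[κ] κ⸨X⸩} {n : ℕ}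

theorem stc_jc (j : E →ₐ[κ] κ⸨X⸩) (c : κ) : j (algebraMap κ E c) = HahnSeries.C c := by
  rw [AlgHom.commutes, LaurentSeries.algebraMap_apply]

theorem stc_sc (σ : E ≃ₐ[RatFunc κ] E) (c : κ) : σ (algebraMap κ E c) = algebraMap κ E c :=
  (σ.restrictScalars κ).commutes c

theorem stc_st (σ : E ≃ₐ[RatFunc κ] E) : σ (tE κ E) = tE κ E := σ.commutes _

theorem stc_reg_C (n : ℕ) (c : κ) : Reg n (HahnSeries.C c : κ⸨X⸩) := fun k hk => by
  rw [HahnSeries.C_apply, HahnSeries.coeff_single_of_ne]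
  omega

theorem stc_reg_one (n : ℕ) : Reg n (1 : κ⸨X⸩) := by
  simpa using stc_reg_C n (1 : κ)

theorem stc_reg_pow {x : κ⸨X⸩} (h : Reg n x) (k : ℕ) : Reg (k * n) (x ^ k) := by
  induction k with
  | zero => simpa using stc_reg_one 0
  | succ k ih =>
    rw [pow_succ, Nat.succ_mul]
    exact ih.mul h

theorem stc_reg_sum {T : Type} (s : Finset T) {x : T → κ⸨X⸩} (h : ∀ i ∈ s, Reg n (x i)) :
    Reg n (∑ i ∈ s, x i) :=
  Finset.sum_induction _ (Reg n) (fun _ _ => Reg.add) (fun _ _ => rfl) h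

theorem stc_reg_prod {T : Type} (s : Finset T) {x : T → κ⸨X⸩} (h : ∀ i ∈ s, Reg 0 (x i)) :
    Reg 0 (∏ i ∈ s, x i) :=
  Finset.prod_induction _ (Reg 0) (fun _ _ h1 h2 => h1.mul h2) (stc_reg_one 0) h

theorem stc_jt (hj : j ∈ Emb E a) : j (tE κ E - algebraMap κ E a) = HahnSeries.single 1 1 := by
  have h : j (tE κ E) = lin a := hj
  rw [map_sub, h, stc_jc, lin, add_sub_cancel_left]

theorem stc_ne (hj : j ∈ Emb E a) : tE κ E - algebraMap κ E a ≠ 0 := by
  intro h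
  have h1 := stc_jt hj
  rw [h, map_zero] at h1
  exact HahnSeries.single_ne_zero one_ne_zero h1.symm

theorem stc_jz (hj : j ∈ Emb E a) (k : ℕ) :
    j ((tE κ E - algebraMap κ E a)⁻¹ ^ k) = HahnSeries.single (-(k : ℤ)) 1 := by
  have h1 : j (tE κ E - algebraMap κ E a)⁻¹ = HahnSeries.single (-1) 1 := by
    rw [map_inv₀, stc_jt hj]
    symm
    apply eq_inv_of_mul_eq_one_left
    rw [HahnSeries.single_mul_single]
    simp
  rw [map_pow, h1, HahnSeries.single_pow]
  simp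

theorem stc_sz (σ : E ≃ₐ[RatFunc κ] E) (a : κ) :
    σ (tE κ E - algebraMap κ E a)⁻¹ = (tE κ E - algebraMap κ E a)⁻¹ := by
  rw [map_inv₀, map_sub, stc_st, stc_sc]

/-- a coefficient of the expansion, as a linear form -/
noncomputable def stcCf (j : E →ₐ[κ] κ⸨X⸩) (k : ℤ) : E →ₗ[κ] κ where
  toFun f := (j f).coeff k
  map_add' x y := by rw [map_add, HahnSeries.coeff_add]
  map_smul' c x := by
    rw [Algebra.smul_def, map_mul, stc_jc, HahnSeries.C_apply, HahnSeries.coeff_single_zero_mul]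
    rfl

theorem stc_int (B : Subalgebra κ E) {p : E[X]} (hp : p.Monic) (hc : ∀ i, p.coeff i ∈ B) {y : E}
    (hy : p.eval y = 0) : IsIntegral B y := by
  obtain ⟨q, hq, -, hm⟩ := lifts_and_natDegree_eq_and_monic (f := algebraMap B E)
    ((lifts_iff_coeff_lifts p).2 fun i => ⟨⟨_, hc i⟩, rfl⟩) hp
  refine ⟨q, hm, ?_⟩
  rw [eval₂_eq_eval_map, hq, hy]

theorem stc_arith {N b r k d : ℕ} (hN : 0 < N) (h1 : k ≤ d) (h2 : r + k = (n + 1) * N)
    (h3 : r ≤ (N - 1) * (n + b * N) + b * N) : n + 1 ≤ d + b * N * N := by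
  obtain ⟨M, rfl⟩ : ∃ M, N = M + 1 := ⟨N - 1, by omega⟩
  rw [Nat.add_sub_cancel] at h3
  nlinarith

theorem stc_mem (hj : j ∈ Emb E a) {u : κ[X]} {e : ℕ} (hu : u.natDegree ≤ e) :
    u.eval₂ (algebraMap κ E) (tE κ E) * (tE κ E - algebraMap κ E a)⁻¹ ^ e ∈
      Algebra.adjoin κ {(tE κ E - algebraMap κ E a)⁻¹} := by
  have hz : (tE κ E - algebraMap κ E a)⁻¹ ∈ Algebra.adjoin κ {(tE κ E - algebraMap κ E a)⁻¹} :=
    Algebra.self_mem_adjoin_singleton κ _
  have htz : tE κ E * (tE κ E - algebraMap κ E a)⁻¹ ∈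
      Algebra.adjoin κ {(tE κ E - algebraMap κ E a)⁻¹} := by
    have e1 : tE κ E * (tE κ E - algebraMap κ E a)⁻¹ =
        1 + algebraMap κ E a * (tE κ E - algebraMap κ E a)⁻¹ := by
      have := stc_ne hj
      field_simp
      ring
    rw [e1]
    exact add_mem (one_mem _) (mul_mem (Subalgebra.algebraMap_mem _ a) hz)
  rw [eval₂_eq_sum_range, Finset.sum_mul]
  refine sum_mem fun r hr => ?_
  have hr' : r ≤ e := (Nat.lt_succ_iff.1 (Finset.mem_range.1 hr)).trans hu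
  obtain ⟨d, rfl⟩ := Nat.exists_eq_add_of_le hr'
  have e2 : algebraMap κ E (u.coeff r) * tE κ E ^ r * (tE κ E - algebraMap κ E a)⁻¹ ^ (r + d) =
      algebraMap κ E (u.coeff r) * (tE κ E * (tE κ E - algebraMap κ E a)⁻¹) ^ r *
        (tE κ E - algebraMap κ E a)⁻¹ ^ d := by ring
  rw [e2]
  exact mul_mem (mul_mem (Subalgebra.algebraMap_mem _ _) (pow_mem htz r)) (pow_mem hz d)

theorem stc_int_y (hj : j ∈ Emb E a) {T : E} {χ : κ[X][X]} {b N : ℕ} (hχ : Wt b N χ)
    (h0 : e2 (algebraMap κ E) (tE κ E) T χ = 0) :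
    IsIntegral (Algebra.adjoin κ {(tE κ E - algebraMap κ E a)⁻¹})
      ((tE κ E - algebraMap κ E a)⁻¹ ^ b * T) := by
  rw [e2_eq_eval] at h0
  have hm := hχ.monic.map (eval₂RingHom (algebraMap κ E) (tE κ E))
  refine stc_int _ ((monic_scaleRoots_iff ((tE κ E - algebraMap κ E a)⁻¹ ^ b)).2 hm) (fun i => ?_) ?_
  · rw [coeff_scaleRoots, coeff_map, hχ.monic.natDegree_map, hχ.deg, ← pow_mul, coe_eval₂RingHom]
    apply stc_mem hj
    by_cases hc : χ.coeff i = 0
    · simp [hc]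
    · have h1 := hχ.wt i (χ.coeff i).natDegree (by
        rw [coeff_natDegree]
        exact leadingCoeff_ne_zero.2 hc)
      rw [Nat.mul_sub]
      omega
  · rw [scaleRoots_eval_mul, h0, mul_zero]

theorem stc_reg_T (hj : j ∈ Emb E a) {T : E} {χ : κ[X][X]} (hχ : χ.Monic)
    (h0 : e2 (algebraMap κ E) (tE κ E) T χ = 0) (σ : E ≃ₐ[RatFunc κ] E) : Reg 0 (j (σ T)) := by
  have h1 := map_e2 (σ : E →+* E) (algebraMap κ E) (tE κ E) T χ
  have h2 : (σ : E →+* E).comp (algebraMap κ E) = algebraMap κ E := RingHom.ext (stc_sc σ)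
  rw [h0, map_zero, h2, RingHom.coe_coe, stc_st, e2_eq_eval] at h1
  refine reg_of_isIntegral j (s := {tE κ E}) ?_ (stc_int _ (hχ.map _) (fun i => ?_) h1.symm)
  · rintro x rfl
    have h : j (tE κ E) = lin a := hj
    rw [h, lin_eq]
    exact reg_zero_iff.2 ⟨_, rfl⟩
  · rw [coeff_map, coe_eval₂RingHom, ← aeval_def]
    exact aeval_mem_adjoin_singleton κ _

theorem stc_indep (hj : j ∈ Emb E a) {T : E} (hT : (RatFunc κ)⟮T⟯ = ⊤) (b n : ℕ)
    (c : Fin (n + 1) × Fin (finrank (RatFunc κ) E) → κ)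
    (hc : ∑ x, c x • ((tE κ E - algebraMap κ E a)⁻¹ ^ (x.1 : ℕ) *
      ((tE κ E - algebraMap κ E a)⁻¹ ^ b * T) ^ (x.2 : ℕ)) = 0) : c = 0 := by
  have hd : (minpoly (RatFunc κ) T).natDegree = finrank (RatFunc κ) E := by
    rw [← IntermediateField.adjoin.finrank (Algebra.IsIntegral.isIntegral T), hT,
      IntermediateField.finrank_top']
  have hli := linearIndependent_pow (K := RatFunc κ) T
  rw [hd] at hli
  set ζ : RatFunc κ := (RatFunc.X - algebraMap κ (RatFunc κ) a)⁻¹ with hζ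
  have hz : algebraMap (RatFunc κ) E ζ = (tE κ E - algebraMap κ E a)⁻¹ := by
    rw [hζ, map_inv₀, map_sub, ← IsScalarTower.algebraMap_apply]
    rfl
  have h1 := Fintype.linearIndependent_iff.1 hli
    (fun i => (∑ k : Fin (n + 1), algebraMap κ (RatFunc κ) (c (k, i)) * ζ ^ (k : ℕ)) *
      (ζ ^ b) ^ (i : ℕ)) (by
      rw [← hc, Fintype.sum_prod_type_right]
      refine Finset.sum_congr rfl fun i _ => ?_
      rw [Algebra.smul_def, map_mul, map_sum, Finset.sum_mul, Finset.sum_mul]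
      refine Finset.sum_congr rfl fun k _ => ?_
      rw [Algebra.smul_def, map_mul, map_pow, map_pow, map_pow, hz,
        ← IsScalarTower.algebraMap_apply]
      ring)
  have hζ0 : ζ ≠ 0 := fun h => by
    rw [h, map_zero] at hz
    exact inv_ne_zero (stc_ne hj) hz.symm
  funext ⟨k, i⟩
  have h2 := (mul_eq_zero.1 (h1 i)).resolve_right (pow_ne_zero _ (pow_ne_zero _ hζ0))
  have h3 := congrArg (fun x => (j (algebraMap (RatFunc κ) E x)).coeff (-((k : ℕ) : ℤ))) h2
  simp only [map_sum, map_mul, map_zero, HahnSeries.coeff_zero, HahnSeries.coeff_sum,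
    ← IsScalarTower.algebraMap_apply, stc_jc] at h3
  rw [Finset.sum_eq_single k] at h3
  · rw [map_pow, hz, stc_jz hj, HahnSeries.C_apply, HahnSeries.coeff_single_zero_mul,
      HahnSeries.coeff_single_same, mul_one] at h3
    exact h3
  · intro k' _ hk
    rw [map_pow, hz, stc_jz hj, HahnSeries.C_apply, HahnSeries.coeff_single_zero_mul,
      HahnSeries.coeff_single_of_ne, mul_zero]
    intro h
    exact hk (Fin.ext (by omega))
  · simp

end Pool.Agent.ZeroCyc
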