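import Pool.Agent.Lib.MP_796ce4_ag.ZY.Tow1

/-! Existence of the unramified tower. -/

namespace Pool.Agent.ZeroCyc

open Polynomial Module
open scoped Classical IntermediateField

set_option linter.unusedSectionVars false

variable {p : ℕ} {K Λ : Type} [Field K] [CharZero K] [NormedField Λ] [IsUltrametricDist Λ]
  [IsAlgClosed Λ] [Algebra K Λ] [IsGalois K Λ] [Loc p K Λ]

include p

theorem tow_gal_lt (σ : Λ ≃ₐ[K] Λ) {x y : Λ} (h : ‖x - y‖ < 1) :
    ‖σ x - σ y‖ < 1 := by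
  rwa [← map_sub, Loc.norm_gal]

variable (K) in
include K in
theorem tow_charP : CharP (IsLocalRing.ResidueField (towO Λ)) p := by
  refine (CharP.charP_iff_prime_eq_zero (Loc.prime K Λ)).2 ?_
  rw [← map_natCast (IsLocalRing.residue (towO Λ)), ← map_zero (IsLocalRing.residue (towO Λ)),
    tow_res_eq]
  simpa using Loc.norm_p (K := K) (Λ := Λ)

variable (K) in
include K in
theorem tow_sum_pow {T : Type} (s : Finset T) (f : T → Λ) (hf : ∀ i, ‖f i‖ ≤ 1) (r : ℕ) :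
    ‖(∑ i ∈ s, f i) ^ p ^ r - ∑ i ∈ s, f i ^ p ^ r‖ < 1 := by
  have := tow_charP (p := p) K (Λ := Λ)
  have : Fact p.Prime := ⟨Loc.prime K Λ⟩
  let g : T → towO Λ := fun i => ⟨f i, tow_memO.2 (hf i)⟩
  have h : IsLocalRing.residue _ ((∑ i ∈ s, g i) ^ p ^ r) =
      IsLocalRing.residue _ (∑ i ∈ s, g i ^ p ^ r) := by
    simp only [map_pow, map_sum, sum_pow_char_pow]
  simpa [g] using tow_res_eq.1 h

theorem tow_q (L : IntermediateField K Λ) [FiniteDimensional K L] :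
    ∃ r, 0 < r ∧ (∀ c ∈ L, ‖c‖ ≤ 1 → ‖c ^ p ^ r - c‖ < 1) ∧
      ∀ c : Λ, ‖c‖ ≤ 1 → ‖c ^ p ^ r - c‖ < 1 → ∃ t ∈ L, ‖c - t‖ < 1 := by
  have := tow_charP (p := p) K (Λ := Λ)
  let k : Subfield (IsLocalRing.ResidueField (towO Λ)) :=
    { toSubring := ((L.toSubfield.toSubring.comap (towO Λ).subtype)).map (IsLocalRing.residue _)
      inv_mem' := by
        rintro _ ⟨x, hx, rfl⟩
        by_cases h0 : IsLocalRing.residue _ x = 0
        · rw [h0, inv_zero]; exact ⟨0, L.zero_mem, map_zero _⟩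
        · have h1 : 1 ≤ ‖(x : Λ)‖ := not_lt.1 fun h => h0 (by
            rw [← map_zero (IsLocalRing.residue (towO Λ)), tow_res_eq]; simpa using h)
          have h2 : (x : Λ) ≠ 0 := norm_pos_iff.1 (by linarith)
          have h3 : (x : Λ)⁻¹ ∈ towO Λ := tow_memO.2 (by
            rw [norm_inv]; exact inv_le_one_of_one_le₀ h1)
          refine ⟨⟨_, h3⟩, L.inv_mem hx, eq_inv_of_mul_eq_one_left ?_⟩
          rw [← map_mul, ← map_one (IsLocalRing.residue (towO Λ))]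
          congr 1
          exact Subtype.ext (inv_mul_cancel₀ h2) }
  have hk : ∀ a, a ∈ k ↔ ∃ x : towO Λ, (x : Λ) ∈ L ∧ IsLocalRing.residue _ x = a := fun a => Iff.rfl
  obtain ⟨s, hs1, hs2⟩ := Loc.resfin (K := K) (Λ := Λ) L inferInstance
  have hfin : (k : Set (IsLocalRing.ResidueField (towO Λ))).Finite := by
    refine (Set.finite_range fun t : s =>
      IsLocalRing.residue (towO Λ) ⟨t, tow_memO.2 (hs1 t t.2).2⟩).subset fun a ha => ?_
    obtain ⟨x, hx, rfl⟩ := (hk a).1 ha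
    obtain ⟨t, ht, h⟩ := hs2 x hx (tow_memO.1 x.2)
    exact ⟨⟨t, ht⟩, (tow_res_eq.2 h).symm⟩
  have : Finite k := hfin
  let := Fintype.ofFinite k
  obtain ⟨r, -, hr⟩ := FiniteField.card k p
  refine ⟨r, r.pos, fun c hc h1 => ?_, fun c h1 h2 => ?_⟩
  · have h := congrArg Subtype.val (FiniteField.pow_card
      (⟨_, (hk _).2 ⟨⟨c, tow_memO.2 h1⟩, hc, rfl⟩⟩ : k))
    rw [hr, SubmonoidClass.coe_pow, ← map_pow] at h
    exact tow_res_eq.1 h
  · have hq : 1 < Fintype.card k := Fintype.one_lt_card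
    have hsp : (X ^ Fintype.card k - X : k[X]).Splits := by
      rw [splits_iff_card_roots, FiniteField.roots_X_pow_card_sub_X,
        FiniteField.X_pow_card_sub_X_natDegree_eq _ hq]
      rfl
    have h3 : IsLocalRing.residue _ ((⟨c, tow_memO.2 h1⟩ : towO Λ) ^ p ^ (r : ℕ)) =
        IsLocalRing.residue _ ⟨c, tow_memO.2 h1⟩ := tow_res_eq.2 h2
    obtain ⟨a, ha⟩ := hsp.mem_range_of_isRoot (FiniteField.X_pow_card_sub_X_ne_zero _ hq)
      (i := k.subtype) (x := IsLocalRing.residue _ ⟨c, tow_memO.2 h1⟩) (by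
        rw [map_pow] at h3
        simp [hr, h3])
    obtain ⟨x, hx, e⟩ := (hk _).1 a.2
    exact ⟨x, hx, tow_res_eq.1 (ha.symm.trans e.symm)⟩

variable (K) in
include K in
theorem tow_alg (r : ℕ) {x : Λ} (hx : ‖x‖ ≤ 1) : ∃ n, 0 < n ∧ ‖x ^ (p ^ r) ^ n - x‖ < 1 := by
  have : FiniteDimensional K K⟮x⟯ :=
    IntermediateField.adjoin.finiteDimensional (Algebra.IsIntegral.isIntegral x)
  obtain ⟨n, h0, h1, -⟩ := tow_q (p := p) K⟮x⟯
  refine ⟨n, h0, ?_⟩
  rw [← pow_mul, mul_comm, pow_mul]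
  exact tow_iter hx (h1 x (IntermediateField.mem_adjoin_simple_self K x) hx) r

theorem tow_conj {L : IntermediateField K Λ} {r : ℕ}
    (hr : ∀ c ∈ L, ‖c‖ ≤ 1 → ‖c ^ p ^ r - c‖ < 1) {x : Λ} (hx : ‖x‖ ≤ 1) :
    ∃ σ, Fix L σ ∧ ‖σ x - x ^ p ^ r‖ < 1 := by
  have hi : IsIntegral L x := Algebra.IsIntegral.isIntegral x
  set g := (minpoly L x).map (algebraMap L Λ) with hg
  have hm : g.Monic := (minpoly.monic hi).map _
  have hroot : ∀ y, g.eval y = 0 → ∃ σ : Λ ≃ₐ[K] Λ, Fix L σ ∧ σ x = y := by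
    intro y hy
    rw [hg, eval_map_algebraMap] at hy
    obtain ⟨σ, hσ⟩ := minpoly.exists_algEquiv_of_root' hi.isAlgebraic hy
    exact ⟨σ.restrictScalars K, fun c hc => σ.commutes ⟨c, hc⟩, hσ⟩
  have hI : Intg g := by
    rw [(IsAlgClosed.splits g).eq_prod_roots_of_monic hm]
    refine Multiset.prod_induction Intg _ (fun a b => Intg.mul) (by simpa using intg_X.pow 0) ?_
    intro f hf
    obtain ⟨y, hy, rfl⟩ := Multiset.mem_map.1 hf
    obtain ⟨σ, -, rfl⟩ := hroot y (isRoot_of_mem_roots hy)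
    exact intg_X.sub (intg_C (by rwa [Loc.norm_gal]))
  have h0 : g.eval x = 0 := by rw [hg, eval_map_algebraMap, minpoly.aeval]
  have h1 := tow_sum_pow (p := p) K (Finset.range (g.natDegree + 1))
    (fun k => g.coeff k * x ^ k) (fun k => by
      rw [norm_mul]; exact mul_le_one₀ (hI k) (norm_nonneg _) (tow_pow_le hx k)) r
  rw [← eval_eq_sum_range, h0, zero_pow (pow_pos (Loc.prime K Λ).pos r).ne'] at h1
  have h2 : ‖∑ k ∈ Finset.range (g.natDegree + 1), (g.coeff k * x ^ k) ^ p ^ r -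
      g.eval (x ^ p ^ r)‖ < 1 := by
    rw [eval_eq_sum_range, ← Finset.sum_sub_distrib]
    refine tow_sum_lt _ _ fun k _ => ?_
    rw [mul_pow, ← pow_mul x, mul_comm k, pow_mul, ← sub_mul]
    refine tow_mul_lt (hr _ ?_ (hI k)) (tow_pow_le (tow_pow_le hx _) k)
    rw [hg, coeff_map]
    exact ((minpoly L x).coeff k).2
  have h3 := tow_tri h1 h2
  rw [zero_sub, norm_neg] at h3
  obtain ⟨y, hy, h4⟩ := hI.exists_root_near hm h3
  obtain ⟨σ, h5, rfl⟩ := hroot y hy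
  exact ⟨σ, h5, h4⟩

variable (K) in
include K in
theorem tow_facts {r n : ℕ} (hr : 0 < r) (hn : 0 < n) : 1 < (p ^ r) ^ n ∧
    ‖(((p ^ r) ^ n : ℕ) : Λ)‖ < 1 ∧ ∃ ζ : Λ, IsPrimitiveRoot ζ ((p ^ r) ^ n - 1) := by
  have h1 : 1 < (p ^ r) ^ n := Nat.one_lt_pow hn.ne' (Nat.one_lt_pow hr.ne' (Loc.prime K Λ).one_lt)
  have : CharZero Λ := charZero_of_injective_algebraMap (algebraMap K Λ).injective
  have : NeZero ((p ^ r) ^ n - 1) := ⟨by omega⟩
  refine ⟨h1, ?_, HasEnoughRootsOfUnity.exists_primitiveRoot Λ _⟩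
  rw [← pow_mul, Nat.cast_pow, norm_pow]
  exact pow_lt_one₀ (norm_nonneg _) (Loc.norm_p (K := K)) (by positivity)

theorem tow_frob {L : IntermediateField K Λ} {r : ℕ} (h0 : 0 < r)
    (hr : ∀ c ∈ L, ‖c‖ ≤ 1 → ‖c ^ p ^ r - c‖ < 1) : ∃ φ, Fix L φ ∧
      ∀ n, 0 < n → ∀ ζ : Λ, ζ ^ (p ^ r) ^ n = ζ → φ ζ = ζ ^ p ^ r := by
  let S : ℕ → Set (Λ ≃ₐ[K] Λ) := fun n =>
    {σ | Fix L σ ∧ ∀ ζ : Λ, ζ ^ (p ^ r) ^ n.factorial = ζ → σ ζ = ζ ^ p ^ r}
  have hcl : ∀ n, IsClosed (S n) := by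
    intro n
    have : S n = (⋂ x ∈ L, {σ : Λ ≃ₐ[K] Λ | σ x = x}) ∩
        ⋂ ζ ∈ {ζ : Λ | ζ ^ (p ^ r) ^ n.factorial = ζ}, {σ : Λ ≃ₐ[K] Λ | σ ζ = ζ ^ p ^ r} := by
      ext σ
      simp only [S, Fix, Set.mem_ofPred_eq, Set.mem_inter_iff, Set.mem_iInter]
    rw [this]
    exact (isClosed_biInter fun x _ => tow_closed x x).inter
      (isClosed_biInter fun x _ => tow_closed x _)
  obtain ⟨φ, hφ⟩ := IsCompact.nonempty_iInter_of_sequence_nonempty_isCompact_isClosed S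
    (fun n σ h => ⟨h.1, fun ζ hζ => h.2 ζ (by
      rw [Nat.factorial_succ, mul_comm, pow_mul]; exact tow_mu_pow hζ _)⟩)
    (fun n => by
      obtain ⟨h1, h2, ζ, hζ⟩ := tow_facts (p := p) K (Λ := Λ) h0 n.factorial_pos
      have h3 := tow_prim h1 hζ
      obtain ⟨σ, h4, h5⟩ := tow_conj hr (tow_mu_le h1 h3)
      have h6 : σ ζ = ζ ^ p ^ r :=
        tow_mu_uniq h1 h2 (by rw [← map_pow, h3]) (tow_mu_pow' h3 _) h5
      refine ⟨σ, h4, fun ξ hξ => ?_⟩
      rcases tow_gen h1 hζ hξ with rfl | ⟨i, rfl⟩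
      · rw [map_zero, zero_pow (pow_pos (Loc.prime K Λ).pos r).ne']
      · rw [map_pow, h6, ← pow_mul, ← pow_mul, mul_comm])
    (hcl 0).isCompact hcl
  rw [Set.mem_iInter] at hφ
  refine ⟨φ, (hφ 0).1, fun n hn ζ hζ => (hφ n).2 ζ ?_⟩
  obtain ⟨k, hk⟩ := Nat.dvd_factorial hn le_rfl
  rw [hk, pow_mul]
  exact tow_mu_pow hζ k

/-- every automorphism over `L` acts on the roots of unity as a power of the Frobenius -/
theorem tow_perm {L : IntermediateField K Λ} {r : ℕ} (h0 : 0 < r)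
    (hr : ∀ c : Λ, ‖c‖ ≤ 1 → ‖c ^ p ^ r - c‖ < 1 → ∃ t ∈ L, ‖c - t‖ < 1) {φ : Λ ≃ₐ[K] Λ}
    (hL : Fix L φ) (hφ : ∀ n, 0 < n → ∀ ζ : Λ, ζ ^ (p ^ r) ^ n = ζ → φ ζ = ζ ^ p ^ r)
    (hp : ∀ x : Λ, ‖x‖ ≤ 1 → ‖φ x - x ^ p ^ r‖ < 1) {n : ℕ} (hn : 0 < n) {σ : Λ ≃ₐ[K] Λ}
    (hσ : Fix L σ) : ∃ j : ℕ, ∀ x ∈ towU L ((p ^ r) ^ n), σ x = (φ ^ j) x := by
  obtain ⟨h1, h2, ζ, hζ⟩ := tow_facts (p := p) K (Λ := Λ) h0 hn
  have h3 := tow_prim h1 hζ
  have h4 := tow_φ_pow (hφ n hn ζ h3)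
  have hz := tow_mu_le h1 h3
  have h5 := tow_orbit_coeff ((h4 n).trans h3)
  set h := ∏ i ∈ Finset.range n, (X - C ((φ ^ i) ζ) : Λ[X]) with hh
  have hI : Intg h := Intg.prod fun i _ => intg_X.sub (intg_C (by rwa [Loc.norm_gal]))
  have h6 : ‖(h - h.map (σ : Λ →+* Λ)).eval (σ ζ)‖ < 1 := by
    refine tow_eval_lt (fun k => ?_) (by rwa [Loc.norm_gal])
    have h7 := hp _ (hI k)
    rw [h5] at h7
    obtain ⟨t, ht, h8⟩ := hr _ (hI k) (tow_symm h7)
    have h9 := tow_gal_lt σ h8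
    rw [hσ t ht] at h9
    rw [coeff_sub, coeff_map]
    exact tow_tri h8 (tow_symm h9)
  have h7 : (h.map (σ : Λ →+* Λ)).eval (σ ζ) = 0 := by
    have : h.eval ζ = 0 := by
      rw [hh, eval_prod]
      exact Finset.prod_eq_zero (Finset.mem_range.2 hn) (by simp)
    rw [show σ ζ = (σ : Λ →+* Λ) ζ from rfl, eval_map_apply, this, map_zero]
  rw [eval_sub, h7, sub_zero, hh, eval_prod, norm_prod] at h6
  obtain ⟨j, -, hj⟩ : ∃ j ∈ Finset.range n, ‖σ ζ - (φ ^ j) ζ‖ < 1 := by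
    by_contra hc
    push Not at hc
    exact h6.not_ge (Finset.one_le_prod fun i hi => by simpa using hc i hi)
  have h8 : σ ζ = (φ ^ j) ζ :=
    tow_mu_uniq h1 h2 (by rw [← map_pow, h3]) (by rw [← map_pow, h3]) hj
  refine ⟨j, fun x hx => tow_agree hσ (hL.pow j) (fun ξ hξ => ?_) hx⟩
  rcases tow_gen h1 hζ hξ with rfl | ⟨i, rfl⟩
  · rw [map_zero, map_zero]
  · rw [map_pow, map_pow, h8]

theorem exists_tower (L : IntermediateField K Λ) [FiniteDimensional K L] :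
    Nonempty (Tower p L) := by
  obtain ⟨r, h0, hr, hr'⟩ := tow_q (p := p) L
  obtain ⟨φ, hL, hφ⟩ := tow_frob h0 hr
  have hq : 1 < p ^ r := Nat.one_lt_pow h0.ne' (Loc.prime K Λ).one_lt
  have hp : ∀ x : Λ, ‖x‖ ≤ 1 → ‖φ x - x ^ p ^ r‖ < 1 := by
    intro x hx
    obtain ⟨n, hn, h1⟩ := tow_alg (p := p) K r hx
    obtain ⟨ζ, h2, h3⟩ := tow_mu_near (Nat.one_lt_pow hn.ne' hq) h1
    have h4 := tow_gal_lt φ (tow_symm h3)
    rw [hφ n hn ζ h2] at h4
    exact tow_tri h4 (tow_symm (norm_pow_sub_pow_lt hx (tow_symm h3) _))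
  have hperm := fun n (hn : 0 < n) σ (hσ : Fix L σ) => tow_perm h0 hr' hL hφ hp hn hσ
  have hinj : ∀ n, 0 < n → ∀ ζ : Λ, IsPrimitiveRoot ζ ((p ^ r) ^ n - 1) → ∀ i < n, ∀ j < n,
      (φ ^ i) ζ = (φ ^ j) ζ → i = j := by
    intro n hn ζ hζ
    have h4 := tow_φ_pow (hφ n hn ζ (tow_prim (Nat.one_lt_pow hn.ne' hq) hζ))
    have key : ∀ i, ∀ j < n, i ≤ j → (φ ^ i) ζ = (φ ^ j) ζ → i = j := by
      intro i j hj hij e
      obtain ⟨d, rfl⟩ := Nat.exists_eq_add_of_le hij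
      rw [pow_add, AlgEquiv.mul_apply, EmbeddingLike.apply_eq_iff_eq, h4] at e
      have := Nat.eq_zero_of_dvd_of_lt (tow_dvd hq hn hζ e.symm) (by omega)
      omega
    intro i hi j hj e
    rcases le_total i j with h | h
    · exact key i j hj h e
    · exact (key j i hi h e.symm).symm
  have hdeg : ∀ n, 0 < n → ∀ ζ : Λ, IsPrimitiveRoot ζ ((p ^ r) ^ n - 1) →
      (minpoly L ζ).natDegree = n := by
    intro n hn ζ hζ
    have h3 := tow_prim (Nat.one_lt_pow hn.ne' hq) hζ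
    have h4 := tow_φ_pow (hφ n hn ζ h3)
    have hi : IsIntegral L ζ := Algebra.IsIntegral.isIntegral ζ
    refine le_antisymm ?_ ?_
    · have h5 := tow_orbit_coeff ((h4 n).trans h3)
      set h := ∏ i ∈ Finset.range n, (X - C ((φ ^ i) ζ) : Λ[X]) with hh
      have h6 : Over (towU L ((p ^ r) ^ n)) h := Over.prod fun i _ =>
        over_X.sub (over_C (tow_stab (hL.pow i) (tow_mem h3)))
      have h7 : Over L h := fun k => mem_of_fixed fun σ hσ => by
        obtain ⟨j, hj⟩ := hperm n hn σ hσ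
        rw [hj _ (h6 k), tow_fixed_pow (h5 k)]
      obtain ⟨g, hg⟩ := h7.exists_map
      have h8 : h.Monic := monic_prod_of_monic _ _ fun i _ => monic_X_sub_C _
      have h9 : g ≠ 0 := by
        rintro rfl
        exact h8.ne_zero (by rw [← hg, Polynomial.map_zero])
      have h10 : aeval ζ g = 0 := by
        rw [← eval_map_algebraMap, hg, hh, eval_prod]
        exact Finset.prod_eq_zero (Finset.mem_range.2 hn) (by simp)
      refine (natDegree_le_of_dvd (minpoly.dvd L ζ h10) h9).trans_eq ?_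
      rw [← natDegree_map (algebraMap L Λ), hg, hh, natDegree_finsetProd_X_sub_C_eq_card,
        Finset.card_range]
    · by_contra hc
      have hO : Over L ((minpoly L ζ).map (algebraMap L Λ)) := fun k => by
        rw [coeff_map]; exact ((minpoly L ζ).coeff k).2
      refine ((minpoly.monic hi).map (algebraMap L Λ)).ne_zero
        (eq_zero_of_natDegree_lt_card_of_eval_eq_zero _ (f := fun i : Fin n => (φ ^ (i : ℕ)) ζ)
          (fun i j e => Fin.ext (hinj n hn ζ hζ i i.2 j j.2 e)) (fun i => ?_) ?_)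
      · rw [← hO.apply_eval (hL.pow i), eval_map_algebraMap, minpoly.aeval, map_zero]
      · rwa [natDegree_map, Fintype.card_fin, ← not_le]
  have hfix : ∀ n, 0 < n → Fix (towU L ((p ^ r) ^ n)) (φ ^ n) := fun n hn x hx =>
    tow_agree (hL.pow n) Fix.one (fun ζ h => (tow_φ_pow (hφ n hn ζ h) n).trans h) hx
  obtain ⟨π, hπ1, hπ2, hπ3, hπ4⟩ := Loc.unif (p := p) L inferInstance
  refine ⟨⟨r, φ, fun n => towU L ((p ^ r) ^ n), h0, hL, hp, fun n => tow_le _, fun n hn => ?_,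
    fun n hn => ?_, hfix, fun n N hn hN x hx h => ?_, hperm, fun n _ x hx => tow_stab hL hx,
    fun n hn x _ h => ?_, fun x hx => ?_, fun n hn x hx => ?_, π, hπ1, hπ2, hπ3, hπ4⟩⟩
  · obtain ⟨h1, -, ζ, hζ⟩ := tow_facts (p := p) K (Λ := Λ) h0 hn
    rw [tow_simple h1 hζ]
    have : FiniteDimensional L L⟮ζ⟯ :=
      IntermediateField.adjoin.finiteDimensional (Algebra.IsIntegral.isIntegral ζ)
    exact FiniteDimensional.trans K L L⟮ζ⟯
  · obtain ⟨h1, -, ζ, hζ⟩ := tow_facts (p := p) K (Λ := Λ) h0 hn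
    rw [tow_simple h1 hζ, ← hdeg n hn ζ hζ,
      ← IntermediateField.adjoin.finrank (Algebra.IsIntegral.isIntegral ζ), mul_comm]
    exact (finrank_mul_finrank K L L⟮ζ⟯).symm
  · obtain ⟨h1, -, ζ, hζ⟩ := tow_facts (p := p) K (Λ := Λ) h0 hn
    have h3 := tow_prim h1 hζ
    refine mem_of_fixed fun σ hσ => ?_
    obtain ⟨j, hj⟩ := hperm (n * N) (Nat.mul_pos hn hN) σ (hσ.mono (tow_le _))
    have h4 := hj ζ (by rw [pow_mul]; exact tow_mem (tow_mu_pow h3 N))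
    rw [hσ ζ (tow_mem h3), tow_φ_pow (hφ n hn ζ h3)] at h4
    obtain ⟨d, rfl⟩ := tow_dvd hq hn hζ h4.symm
    rw [hj x (by rw [mul_comm, pow_mul]; exact tow_mono n hx), pow_mul, tow_fixed_pow h]
  · rw [pow_mul] at h
    obtain ⟨ζ, h2, h3⟩ := tow_mu_near (Nat.one_lt_pow hn.ne' hq) h
    exact ⟨ζ, tow_mem h2, tow_symm h3⟩
  · simpa only [pow_mul] using tow_alg (p := p) K r hx
  · obtain ⟨h1, h2, ζ, hζ⟩ := tow_facts (p := p) K (Λ := Λ) h0 hn
    have h3 := tow_prim h1 hζ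
    have hz := tow_mu_le h1 h3
    rw [tow_simple h1 hζ] at hx
    obtain ⟨f, hf, e⟩ := (IntermediateField.adjoin.powerBasis
      (Algebra.IsIntegral.isIntegral (R := L) ζ)).exists_eq_aeval ⟨x, hx⟩
    set g := f.map (algebraMap L Λ) with hg
    have hO : Over L g := fun k => by rw [hg, coeff_map]; exact (f.coeff k).2
    have e' : g.eval ζ = x := by
      have := congrArg (algebraMap L⟮ζ⟯ Λ) e
      rw [← aeval_algebraMap_apply] at this
      rw [hg, eval_map_algebraMap]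
      exact this.symm
    have hd : g.degree < n := by
      rw [IntermediateField.adjoin.powerBasis_dim, hdeg n hn ζ hζ] at hf
      exact degree_le_natDegree.trans_lt (by rw [hg, natDegree_map]; exact_mod_cast hf)
    have hc := tow_lagrange (z := fun i => (φ ^ i) ζ) (fun i _ => by rwa [Loc.norm_gal])
      (fun i hi j hj h => hinj n hn ζ hζ i hi j hj
        (tow_mu_uniq h1 h2 (by rw [← map_pow, h3]) (by rw [← map_pow, h3]) h)) hd (norm_nonneg x)
      fun i _ => by rw [← hO.apply_eval (hL.pow i), Loc.norm_gal, e']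
    obtain ⟨k, -, hk⟩ := IsUltrametricDist.exists_norm_finsetSum_le_of_nonempty
      (Finset.nonempty_range_add_one (n := g.natDegree)) fun k => g.coeff k * ζ ^ k
    rw [← eval_eq_sum_range, e', norm_mul] at hk
    exact ⟨g.coeff k, hO k, le_antisymm
      (hk.trans (mul_le_of_le_one_right (norm_nonneg _) (tow_pow_le hz k))) (hc k)⟩

end Pool.Agent.ZeroCyc
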